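import Mathlib

section S_Defs
/-!
Basic definitions and elementary facts for `C_6`-decompositions of finite graphs.
Graphs are represented by their edge sets `E : Finset (Sym2 V)`.
-/

set_option linter.unusedSectionVars false

open Finset

namespace H15C6

section Basic

variable {V : Type} [DecidableEq V]

/-- edge set of the closed walk `v 0, v 1, ..., v 5, v 0` -/
def cyc (v : Fin 6 → V) : Finset (Sym2 V) :=
  Finset.univ.image (fun i : Fin 6 => s(v i, v (i + 1)))

/-- `C` is the edge set of a cycle of length six -/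
def IsC6 (C : Finset (Sym2 V)) : Prop := ∃ v : Fin 6 → V, Function.Injective v ∧ C = cyc v

/-- `E` is an edge-disjoint union of six-cycles -/
inductive Dec : Finset (Sym2 V) → Prop
  | empty : Dec ∅
  | add {E C : Finset (Sym2 V)} (hE : Dec E) (hC : IsC6 C) (hd : Disjoint E C) : Dec (E ∪ C)

/-- degree of `x` -/
def deg (E : Finset (Sym2 V)) (x : V) : ℕ := (E.filter (fun e => x ∈ e)).card

/-- number of `y ∈ S` with `xy ∈ E` -/
def dg (E : Finset (Sym2 V)) (S : Finset V) (x : V) : ℕ := (S.filter (fun y => s(x, y) ∈ E)).card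

/-- number of common neighbours of `x` and `y` in `S` -/
def cn (E : Finset (Sym2 V)) (S : Finset V) (x y : V) : ℕ :=
  (S.filter (fun m => s(x, m) ∈ E ∧ s(m, y) ∈ E)).card

/-- all degrees are even -/
def EvenDeg (E : Finset (Sym2 V)) : Prop := ∀ x, Even (deg E x)

/-- no loops -/
def Loopless (E : Finset (Sym2 V)) : Prop := ∀ x, s(x, x) ∉ E

/-- number of walks `x, a, b, c, y` with `a, b, c ∈ S` -/
def P4 (E : Finset (Sym2 V)) (S : Finset V) (x y : V) : ℕ :=
  ((S ×ˢ S ×ˢ S).filter (fun t => s(x, t.1) ∈ E ∧ s(t.1, t.2.1) ∈ E ∧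
    s(t.2.1, t.2.2) ∈ E ∧ s(t.2.2, y) ∈ E)).card

/-- the same with prescribed colours of `a` and `c` -/
def P4c {κ : Type} [DecidableEq κ] (E : Finset (Sym2 V)) (S : Finset V) (χ : V → κ) (k k' : κ)
    (x y : V) : ℕ :=
  ((S ×ˢ S ×ˢ S).filter (fun t => (s(x, t.1) ∈ E ∧ s(t.1, t.2.1) ∈ E ∧
    s(t.2.1, t.2.2) ∈ E ∧ s(t.2.2, y) ∈ E) ∧ χ t.1 = k ∧ χ t.2.2 = k')).card

/-- the same with prescribed colours of `a`, `b` and `c` -/
def P4k {κ : Type} [DecidableEq κ] (E : Finset (Sym2 V)) (S : Finset V) (χ : V → κ) (k1 k2 k3 : κ)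
    (x y : V) : ℕ :=
  ((S ×ˢ S ×ˢ S).filter (fun t => (s(x, t.1) ∈ E ∧ s(t.1, t.2.1) ∈ E ∧
    s(t.2.1, t.2.2) ∈ E ∧ s(t.2.2, y) ∈ E) ∧ χ t.1 = k1 ∧ χ t.2.1 = k2 ∧ χ t.2.2 = k3)).card

/-! ### cycles -/

theorem mem_cyc {v : Fin 6 → V} {e : Sym2 V} : e ∈ cyc v ↔ ∃ i : Fin 6, s(v i, v (i + 1)) = e := by
  simp [cyc]

theorem fin6_aux1 : ∀ i j : Fin 6, i = j + 1 → i + 1 = j → i = j := by decide

theorem fin6_aux2 : ∀ i : Fin 6, i ≠ i + 1 := by decide

theorem fin6_aux3 : ∀ i : Fin 6, i - 1 + 1 = i := by decide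

theorem fin6_aux4 : ∀ i j : Fin 6, i = j + 1 → j = i - 1 := by decide

theorem fin6_aux5 : ∀ i : Fin 6, i ≠ i - 1 := by decide

theorem cyc_inj {v : Fin 6 → V} (hv : Function.Injective v) :
    Function.Injective (fun i : Fin 6 => s(v i, v (i + 1))) := by
  intro i j hij
  simp only [Sym2.eq_iff] at hij
  rcases hij with ⟨h1, _⟩ | ⟨h1, h2⟩
  · exact hv h1
  · exact fin6_aux1 i j (hv h1) (hv h2)

theorem card_cyc {v : Fin 6 → V} (hv : Function.Injective v) : (cyc v).card = 6 := by
  rw [cyc, Finset.card_image_of_injective _ (cyc_inj hv)]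
  simp

theorem IsC6.card {C : Finset (Sym2 V)} (h : IsC6 C) : C.card = 6 := by
  obtain ⟨v, hv, rfl⟩ := h
  exact card_cyc hv

theorem IsC6.loopless {C : Finset (Sym2 V)} (h : IsC6 C) : Loopless C := by
  obtain ⟨v, hv, rfl⟩ := h
  intro x hx
  rw [mem_cyc] at hx
  obtain ⟨i, hi⟩ := hx
  simp only [Sym2.eq_iff, or_self] at hi
  have h1 : v i = v (i + 1) := hi.1.trans hi.2.symm
  exact fin6_aux2 i (hv h1)

theorem deg_cyc_mem {v : Fin 6 → V} (hv : Function.Injective v) (i : Fin 6) :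
    deg (cyc v) (v i) = 2 := by
  unfold deg cyc
  rw [Finset.filter_image, Finset.card_image_of_injective _ (cyc_inj hv)]
  have : (Finset.univ.filter (fun j : Fin 6 => v i ∈ s(v j, v (j + 1)))) = {i, i - 1} := by
    ext j
    simp only [Sym2.mem_iff, Finset.mem_filter, Finset.mem_univ, true_and, Finset.mem_insert,
      Finset.mem_singleton]
    constructor
    · rintro (h | h)
      · left; exact (hv h).symm
      · right; exact fin6_aux4 i j (hv h)
    · rintro (rfl | rfl)
      · left; rfl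
      · right; rw [fin6_aux3]
  rw [this, Finset.card_pair (fin6_aux5 i)]

theorem deg_cyc_notMem {v : Fin 6 → V} {x : V} (hx : ∀ i, v i ≠ x) : deg (cyc v) x = 0 := by
  unfold deg
  rw [Finset.card_eq_zero, Finset.filter_eq_empty_iff]
  intro e he hxe
  rw [mem_cyc] at he
  obtain ⟨i, rfl⟩ := he
  rw [Sym2.mem_iff] at hxe
  rcases hxe with h | h
  · exact hx _ h.symm
  · exact hx _ h.symm

theorem IsC6.even {C : Finset (Sym2 V)} (h : IsC6 C) : EvenDeg C := by
  obtain ⟨v, hv, rfl⟩ := h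
  intro x
  by_cases hx : ∃ i, v i = x
  · obtain ⟨i, rfl⟩ := hx
    rw [deg_cyc_mem hv]
    exact even_two
  · rw [deg_cyc_notMem (fun i hi => hx ⟨i, hi⟩)]
    exact Even.zero

/-! ### degrees -/

theorem deg_union {E F : Finset (Sym2 V)} (h : Disjoint E F) (x : V) :
    deg (E ∪ F) x = deg E x + deg F x := by
  unfold deg
  rw [Finset.filter_union, Finset.card_union_of_disjoint (Finset.disjoint_filter_filter h)]

theorem deg_mono {E F : Finset (Sym2 V)} (h : E ⊆ F) (x : V) : deg E x ≤ deg F x :=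
  Finset.card_le_card (Finset.filter_subset_filter _ h)

theorem deg_union_le (E F : Finset (Sym2 V)) (x : V) : deg (E ∪ F) x ≤ deg E x + deg F x := by
  unfold deg
  rw [Finset.filter_union]
  exact Finset.card_union_le _ _

theorem deg_sdiff {E F : Finset (Sym2 V)} (h : F ⊆ E) (x : V) :
    deg (E \ F) x + deg F x = deg E x := by
  rw [← deg_union (Finset.sdiff_disjoint) x, Finset.sdiff_union_of_subset h]

@[simp] theorem deg_empty (x : V) : deg (∅ : Finset (Sym2 V)) x = 0 := by simp [deg]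

theorem EvenDeg.union {E F : Finset (Sym2 V)} (hE : EvenDeg E) (hF : EvenDeg F)
    (h : Disjoint E F) : EvenDeg (E ∪ F) := by
  intro x
  rw [deg_union h]
  exact (hE x).add (hF x)

theorem EvenDeg.sdiff {E F : Finset (Sym2 V)} (hE : EvenDeg E) (hF : EvenDeg F)
    (h : F ⊆ E) : EvenDeg (E \ F) := by
  intro x
  have h1 := deg_sdiff h x
  have h2 := hE x
  have h3 := hF x
  rw [← h1] at h2
  exact (Nat.even_add.1 h2).2 h3

theorem evenDeg_empty : EvenDeg (∅ : Finset (Sym2 V)) := by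
  intro x; simp

/-! ### `Dec` -/

theorem Dec.even {E : Finset (Sym2 V)} (h : Dec E) : EvenDeg E := by
  induction h with
  | empty => exact evenDeg_empty
  | add hE hC hd ih => exact ih.union hC.even hd

theorem Dec.six_dvd {E : Finset (Sym2 V)} (h : Dec E) : 6 ∣ E.card := by
  induction h with
  | empty => simp
  | add hE hC hd ih =>
    rw [Finset.card_union_of_disjoint hd, hC.card]
    exact (Nat.dvd_add_right ih).2 (dvd_refl 6)

theorem Dec.loopless {E : Finset (Sym2 V)} (h : Dec E) : Loopless E := by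
  induction h with
  | empty => intro x; simp
  | add hE hC hd ih =>
    intro x hx
    rw [Finset.mem_union] at hx
    rcases hx with hx | hx
    · exact ih x hx
    · exact hC.loopless x hx

theorem IsC6.dec {C : Finset (Sym2 V)} (h : IsC6 C) : Dec C := by
  have := Dec.add Dec.empty h (by simp)
  simpa using this

theorem Dec.union {E F : Finset (Sym2 V)} (hE : Dec E) (hF : Dec F) (h : Disjoint E F) :
    Dec (E ∪ F) := by
  induction hF with
  | empty => simpa using hE
  | @add F C hF hC hd ih =>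
    rw [← Finset.union_assoc]
    rw [Finset.disjoint_union_right] at h
    refine Dec.add (ih h.1) hC ?_
    rw [Finset.disjoint_union_left]
    exact ⟨h.2, hd⟩

theorem Dec.biUnion {ι : Type} [DecidableEq ι] {J : Finset ι} {f : ι → Finset (Sym2 V)}
    (h : ∀ j ∈ J, Dec (f j)) (hd : ∀ j ∈ J, ∀ j' ∈ J, j ≠ j' → Disjoint (f j) (f j')) :
    Dec (J.biUnion f) := by
  induction J using Finset.induction_on with
  | empty => simpa using Dec.empty
  | @insert a J ha ih =>
    rw [Finset.biUnion_insert]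
    refine Dec.union (h a (by simp)) (ih (fun j hj => h j (by simp [hj]))
      (fun j hj j' hj' hne => hd j (by simp [hj]) j' (by simp [hj']) hne)) ?_
    rw [Finset.disjoint_biUnion_right]
    intro j hj
    exact hd a (by simp) j (by simp [hj]) (fun hEq => ha (hEq ▸ hj))

/-! ### loopless edge sets -/

theorem Loopless.mono {E F : Finset (Sym2 V)} (h : Loopless F) (hs : E ⊆ F) : Loopless E :=
  fun x hx => h x (hs hx)

theorem Loopless.ne {E : Finset (Sym2 V)} (h : Loopless E) {x y : V} (hxy : s(x, y) ∈ E) :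
    x ≠ y := by
  rintro rfl
  exact h _ hxy

theorem Loopless.union {E F : Finset (Sym2 V)} (hE : Loopless E) (hF : Loopless F) :
    Loopless (E ∪ F) := by
  intro x hx
  rw [Finset.mem_union] at hx
  rcases hx with h | h
  · exact hE x h
  · exact hF x h

theorem dg_mono {E F : Finset (Sym2 V)} (h : E ⊆ F) (S : Finset V) (x : V) :
    dg E S x ≤ dg F S x := by
  unfold dg
  apply Finset.card_le_card
  intro y hy
  rw [Finset.mem_filter] at hy ⊢
  exact ⟨hy.1, h hy.2⟩

theorem dg_mono_right (E : Finset (Sym2 V)) {S T : Finset V} (h : S ⊆ T) (x : V) :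
    dg E S x ≤ dg E T x := by
  unfold dg
  apply Finset.card_le_card
  intro y hy
  rw [Finset.mem_filter] at hy ⊢
  exact ⟨h hy.1, hy.2⟩

/-- the number of neighbours in `S` is at most the degree -/
theorem dg_le_deg (E : Finset (Sym2 V)) (S : Finset V) (x : V) : dg E S x ≤ deg E x := by
  unfold dg deg
  apply Finset.card_le_card_of_injOn (fun y => s(x, y))
  · intro y hy
    have hy' := Finset.mem_filter.1 (Finset.mem_coe.1 hy)
    exact Finset.mem_coe.2 (Finset.mem_filter.2 ⟨hy'.2, Sym2.mem_mk_left x y⟩)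
  · intro y _ z _ hyz
    exact Sym2.congr_right.1 hyz

/-- degree as number of neighbours, for an edge set inside `U` -/
theorem deg_eq_dg {E : Finset (Sym2 V)} {U : Finset V} (hE : E ⊆ U.sym2) (x : V) :
    deg E x = dg E U x := by
  refine le_antisymm ?_ (dg_le_deg E U x)
  unfold dg deg
  apply Finset.card_le_card_of_surjOn (fun y => s(x, y))
  intro e he
  obtain ⟨he1, he2⟩ := Finset.mem_filter.1 (Finset.mem_coe.1 he)
  obtain ⟨y, rfl⟩ := Sym2.mem_iff_exists.1 he2
  refine ⟨y, Finset.mem_coe.2 (Finset.mem_filter.2 ⟨?_, he1⟩), rfl⟩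
  have := hE he1
  rw [Finset.mk_mem_sym2_iff] at this
  exact this.2

theorem dg_union {E F : Finset (Sym2 V)} (h : Disjoint E F) (S : Finset V) (x : V) :
    dg (E ∪ F) S x = dg E S x + dg F S x := by
  unfold dg
  rw [← Finset.card_union_of_disjoint]
  · congr 1
    ext y
    simp only [Finset.mem_filter, Finset.mem_union]
    tauto
  · rw [Finset.disjoint_left]
    intro y h1 h2
    rw [Finset.mem_filter] at h1 h2
    exact (Finset.disjoint_left.1 h) h1.2 h2.2

theorem dg_sdiff {E F : Finset (Sym2 V)} (h : F ⊆ E) (S : Finset V) (x : V) :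
    dg (E \ F) S x + dg F S x = dg E S x := by
  rw [← dg_union (Finset.sdiff_disjoint) S x, Finset.sdiff_union_of_subset h]

/-- `dg E S x` is at most `dg (E \ F) S x` plus the degree of `x` in `F` -/
theorem dg_le_sdiff_add (E F : Finset (Sym2 V)) (S : Finset V) (x : V) :
    dg E S x ≤ dg (E \ F) S x + deg F x := by
  have h1 : dg E S x ≤ dg (E \ F) S x + dg F S x := by
    unfold dg
    refine le_trans (Finset.card_le_card ?_) (Finset.card_union_le _ _)
    intro y hy
    simp only [Finset.mem_filter, Finset.mem_union, Finset.mem_sdiff] at hy ⊢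
    by_cases hF : s(x, y) ∈ F
    · right; exact ⟨hy.1, hF⟩
    · left; exact ⟨hy.1, hy.2, hF⟩
  exact h1.trans (Nat.add_le_add_left (dg_le_deg F S x) _)

/-- handshake -/
theorem sum_deg {E : Finset (Sym2 V)} {U : Finset V} (hE : E ⊆ U.sym2) (hl : Loopless E) :
    ∑ x ∈ U, deg E x = 2 * E.card := by
  unfold deg
  simp_rw [Finset.card_filter]
  rw [Finset.sum_comm]
  have : ∀ e ∈ E, (∑ x ∈ U, if x ∈ e then 1 else 0) = 2 := by
    intro e he
    induction e using Sym2.ind with
    | _ a b =>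
      have hab : a ≠ b := hl.ne he
      have hU := hE he
      rw [Finset.mk_mem_sym2_iff] at hU
      rw [← Finset.card_filter]
      have : (U.filter (fun x => x ∈ s(a, b))) = {a, b} := by
        ext x
        simp only [Sym2.mem_iff, Finset.mem_filter, Finset.mem_insert, Finset.mem_singleton]
        constructor
        · exact fun h => h.2
        · rintro (rfl | rfl)
          · exact ⟨hU.1, Or.inl rfl⟩
          · exact ⟨hU.2, Or.inr rfl⟩
      rw [this, Finset.card_pair hab]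
  rw [Finset.sum_congr rfl this]
  simp [mul_comm]

/-! ### cherries and partial six-cycles -/

/-- number of walks `x, a, b, y` with `a, b ∈ S` -/
def P3 (E : Finset (Sym2 V)) (S : Finset V) (x y : V) : ℕ :=
  ((S ×ˢ S).filter (fun t => s(x, t.1) ∈ E ∧ s(t.1, t.2) ∈ E ∧ s(t.2, y) ∈ E)).card

/-- the two edges of the cherry `(u, v, w)`, centre `v` -/
def chE (t : V × V × V) : Finset (Sym2 V) := {s(t.1, t.2.1), s(t.2.1, t.2.2)}

/-- known edges of the partial closed walk `c` -/
def fixE (c : Fin 6 → Option V) : Finset (Sym2 V) :=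
  Finset.univ.biUnion (fun i : Fin 6 =>
    match c i, c (i + 1) with
    | some p, some q => {s(p, q)}
    | _, _ => ∅)

/-- number of unknown vertices -/
def unk (c : Fin 6 → Option V) : ℕ := (Finset.univ.filter (fun i : Fin 6 => c i = none)).card

/-- `p` is a known vertex of `c` next to an unknown one -/
def IsPort (c : Fin 6 → Option V) (p : V) : Prop :=
  ∃ i : Fin 6, c i = some p ∧ (c (i + 1) = none ∨ c (i + 5) = none)

instance (c : Fin 6 → Option V) (p : V) : Decidable (IsPort c p) := by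
  unfold IsPort; infer_instance

/-- `v` completes `c`: it is injective, unknown vertices are in `S`, all new edges are in `H` -/
def Completes (S : Finset V) (H : Finset (Sym2 V)) (c : Fin 6 → Option V) (v : Fin 6 → V) : Prop :=
  Function.Injective v ∧ (∀ i, c i = none → v i ∈ S) ∧ (∀ i p, c i = some p → v i = p) ∧
    ∀ i, (c i = none ∨ c (i + 1) = none) → s(v i, v (i + 1)) ∈ H

open Classical in
/-- the finite set of completions of `c` -/
noncomputable def compl6 [Fintype V] (S : Finset V) (H : Finset (Sym2 V)) (c : Fin 6 → Option V) :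
    Finset (Fin 6 → V) := Finset.univ.filter (fun v => Completes S H c v)

theorem mem_compl6 [Fintype V] {S : Finset V} {H : Finset (Sym2 V)} {c : Fin 6 → Option V}
    {v : Fin 6 → V} : v ∈ compl6 S H c ↔ Completes S H c v := by
  simp [compl6]

/-- cherry plus a path of length four -/
def cA (u v w : V) : Fin 6 → Option V := ![some u, some v, some w, none, none, none]

/-- path `x, p, q, y` plus a path of length three -/
def cB (x p q y : V) : Fin 6 → Option V := ![some x, some p, some q, some y, none, none]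

/-- two edges `p q` and `p' q'`, closed by two paths of length two: `p q * p' q' *` -/
def cC (p q p' q' : V) : Fin 6 → Option V := ![some p, some q, none, some p', some q', none]

theorem unk_cA (u v w : V) : unk (cA u v w) = 3 := by
  unfold unk cA
  rw [show (Finset.univ.filter (fun i : Fin 6 =>
    (![some u, some v, some w, none, none, none] : Fin 6 → Option V) i = none)) = {3, 4, 5} from ?_]
  · rfl
  · ext i
    fin_cases i <;> simp

theorem unk_cB (x p q y : V) : unk (cB x p q y) = 2 := by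
  unfold unk cB
  rw [show (Finset.univ.filter (fun i : Fin 6 =>
    (![some x, some p, some q, some y, none, none] : Fin 6 → Option V) i = none)) = {4, 5} from ?_]
  · rfl
  · ext i
    fin_cases i <;> simp

theorem unk_cC (p q p' q' : V) : unk (cC p q p' q') = 2 := by
  unfold unk cC
  rw [show (Finset.univ.filter (fun i : Fin 6 =>
    (![some p, some q, none, some p', some q', none] : Fin 6 → Option V) i = none)) = {2, 5} from ?_]
  · rfl
  · ext i
    fin_cases i <;> simp

theorem fixE_cA (u v w : V) : fixE (cA u v w) = {s(u, v), s(v, w)} := by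
  ext e
  simp only [fixE, cA, Finset.mem_biUnion, Finset.mem_univ, true_and, Finset.mem_insert,
    Finset.mem_singleton]
  constructor
  · rintro ⟨i, hi⟩
    fin_cases i <;> simp_all
  · rintro (rfl | rfl)
    · exact ⟨0, by simp⟩
    · exact ⟨1, by simp⟩

theorem fixE_cB (x p q y : V) : fixE (cB x p q y) = {s(x, p), s(p, q), s(q, y)} := by
  ext e
  simp only [fixE, cB, Finset.mem_biUnion, Finset.mem_univ, true_and, Finset.mem_insert,
    Finset.mem_singleton]
  constructor
  · rintro ⟨i, hi⟩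
    fin_cases i <;> simp_all
  · rintro (rfl | rfl | rfl)
    · exact ⟨0, by simp⟩
    · exact ⟨1, by simp⟩
    · exact ⟨2, by simp⟩

theorem fixE_cC (p q p' q' : V) : fixE (cC p q p' q') = {s(p, q), s(p', q')} := by
  ext e
  simp only [fixE, cC, Finset.mem_biUnion, Finset.mem_univ, true_and, Finset.mem_insert,
    Finset.mem_singleton]
  constructor
  · rintro ⟨i, hi⟩
    fin_cases i <;> simp_all
  · rintro (rfl | rfl)
    · exact ⟨0, by simp⟩
    · exact ⟨3, by simp⟩

theorem isPort_cA {u v w x : V} (h : IsPort (cA u v w) x) : x = u ∨ x = w := by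
  obtain ⟨i, h1, h2⟩ := h
  fin_cases i <;> simp_all [cA]

theorem isPort_cB {x p q y z : V} (h : IsPort (cB x p q y) z) : z = x ∨ z = y := by
  obtain ⟨i, h1, h2⟩ := h
  fin_cases i <;> simp_all [cB]

theorem isPort_cC {p q p' q' z : V} (h : IsPort (cC p q p' q') z) :
    z = p ∨ z = q ∨ z = p' ∨ z = q' := by
  obtain ⟨i, h1, h2⟩ := h
  fin_cases i <;> simp_all [cC]

/-- robust availability of absorbers -/
def Absorbs (U : Finset V) (E : Finset (Sym2 V))
    (P : Finset (Sym2 V) → Prop) (ε : ℝ) (M C : ℕ) : Prop :=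
  ∀ X Z : Finset V, X ⊆ U → X.card ≤ M → (Z.card : ℝ) ≤ ε * U.card →
    ∀ H ⊆ E, H ⊆ X.sym2 → P H →
      ∃ A ⊆ E, Dec A ∧ Dec (A ∪ H) ∧ (∀ e ∈ A, e ∉ X.sym2) ∧
        (∀ e ∈ A, ∀ x ∈ e, x ∉ X → x ∉ Z) ∧ A.card ≤ C

end Basic

end H15C6
end S_Defs

section S_UTIL
/-!
General lower bounds for walk counts (usable by all modules):
`cn_ge`, `P4_ge`, `P3_ge`, and set versions.
-/

set_option linter.unusedSectionVars false

open Finset

namespace H15C6

variable {V : Type} [DecidableEq V]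

/-- inclusion-exclusion for common neighbours -/
theorem cn_ge (E : Finset (Sym2 V)) (S : Finset V) (x y : V) :
    dg E S x + dg E S y ≤ cn E S x y + S.card := by
  unfold dg cn
  have h1 : (S.filter (fun m => s(x, m) ∈ E ∧ s(m, y) ∈ E)) =
      (S.filter (fun m => s(x, m) ∈ E)) ∩ (S.filter (fun m => s(y, m) ∈ E)) := by
    ext m
    simp only [Finset.mem_filter, Finset.mem_inter]
    rw [Sym2.eq_swap (a := m) (b := y)]
    tauto
  rw [h1]
  have h2 := Finset.card_union_add_card_inter (S.filter (fun m => s(x, m) ∈ E))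
    (S.filter (fun m => s(y, m) ∈ E))
  have h3 : ((S.filter (fun m => s(x, m) ∈ E)) ∪ (S.filter (fun m => s(y, m) ∈ E))).card ≤
      S.card := Finset.card_le_card
        (Finset.union_subset (Finset.filter_subset _ _) (Finset.filter_subset _ _))
  omega

/-- restricting the middle vertex to a subset -/
theorem cn_mono_right (E : Finset (Sym2 V)) {S T : Finset V} (h : S ⊆ T) (x y : V) :
    cn E S x y ≤ cn E T x y := by
  unfold cn
  apply Finset.card_le_card
  intro m hm
  rw [Finset.mem_filter] at hm ⊢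
  exact ⟨h hm.1, hm.2⟩

theorem cn_mono {E F : Finset (Sym2 V)} (h : E ⊆ F) (S : Finset V) (x y : V) :
    cn E S x y ≤ cn F S x y := by
  unfold cn
  apply Finset.card_le_card
  intro m hm
  rw [Finset.mem_filter] at hm ⊢
  exact ⟨hm.1, h hm.2.1, h hm.2.2⟩

theorem P4_mono {E F : Finset (Sym2 V)} (h : E ⊆ F) {S T : Finset V} (hS : S ⊆ T) (x y : V) :
    P4 E S x y ≤ P4 F T x y := by
  unfold P4
  apply Finset.card_le_card
  intro t ht
  simp only [Finset.mem_filter, Finset.mem_product] at ht ⊢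
  exact ⟨⟨hS ht.1.1, hS ht.1.2.1, hS ht.1.2.2⟩, h ht.2.1, h ht.2.2.1, h ht.2.2.2.1, h ht.2.2.2.2⟩

theorem P3_mono {E F : Finset (Sym2 V)} (h : E ⊆ F) {S T : Finset V} (hS : S ⊆ T) (x y : V) :
    P3 E S x y ≤ P3 F T x y := by
  unfold P3
  apply Finset.card_le_card
  intro t ht
  simp only [Finset.mem_filter, Finset.mem_product] at ht ⊢
  exact ⟨⟨hS ht.1.1, hS ht.1.2⟩, h ht.2.1, h ht.2.2.1, h ht.2.2.2⟩

/-- lower bound for `P4`: first vertex in `A1`, last vertex in `C1`, at least `k` middle vertices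
for each choice -/
theorem P4_ge (E : Finset (Sym2 V)) (S A1 C1 : Finset V) (x y : V) (k : ℕ)
    (hA : A1 ⊆ S) (hC : C1 ⊆ S) (hxA : ∀ a ∈ A1, s(x, a) ∈ E) (hyC : ∀ c ∈ C1, s(c, y) ∈ E)
    (hk : ∀ a ∈ A1, ∀ c ∈ C1, k ≤ cn E S a c) :
    A1.card * C1.card * k ≤ P4 E S x y := by
  classical
  set Sg : Finset (Σ _ : V × V, V) := (A1 ×ˢ C1).sigma
    (fun p => S.filter (fun m => s(p.1, m) ∈ E ∧ s(m, p.2) ∈ E)) with hSg
  have h1 : A1.card * C1.card * k ≤ Sg.card := by
    rw [hSg, Finset.card_sigma, ← Finset.card_product, ← smul_eq_mul]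
    apply Finset.card_nsmul_le_sum
    intro p hp
    rw [Finset.mem_product] at hp
    exact hk p.1 hp.1 p.2 hp.2
  refine h1.trans ?_
  unfold P4
  apply Finset.card_le_card_of_injOn (fun q : (Σ _ : V × V, V) => (q.1.1, q.2, q.1.2))
  · intro q hq
    have hq' := Finset.mem_sigma.1 (Finset.mem_coe.1 hq)
    obtain ⟨hq1, hq2⟩ := hq'
    rw [Finset.mem_product] at hq1
    rw [Finset.mem_filter] at hq2
    apply Finset.mem_coe.2
    simp only [Finset.mem_filter, Finset.mem_product]
    exact ⟨⟨hA hq1.1, hq2.1, hC hq1.2⟩, hxA _ hq1.1, hq2.2.1, hq2.2.2, hyC _ hq1.2⟩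
  · rintro ⟨⟨a, c⟩, b⟩ _ ⟨⟨a', c'⟩, b'⟩ _ h
    simp only [Prod.mk.injEq] at h
    obtain ⟨rfl, rfl, rfl⟩ := h
    rfl

/-- lower bound for `P3` -/
theorem P3_ge (E : Finset (Sym2 V)) (S A1 : Finset V) (x y : V) (k : ℕ)
    (hA : A1 ⊆ S) (hxA : ∀ a ∈ A1, s(x, a) ∈ E) (hk : ∀ a ∈ A1, k ≤ cn E S a y) :
    A1.card * k ≤ P3 E S x y := by
  classical
  set Sg : Finset (Σ _ : V, V) := A1.sigma
    (fun a => S.filter (fun m => s(a, m) ∈ E ∧ s(m, y) ∈ E)) with hSg
  have h1 : A1.card * k ≤ Sg.card := by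
    rw [hSg, Finset.card_sigma, ← smul_eq_mul]
    apply Finset.card_nsmul_le_sum
    intro a ha
    exact hk a ha
  refine h1.trans ?_
  unfold P3
  apply Finset.card_le_card_of_injOn (fun q : (Σ _ : V, V) => (q.1, q.2))
  · intro q hq
    have hq' := Finset.mem_sigma.1 (Finset.mem_coe.1 hq)
    obtain ⟨hq1, hq2⟩ := hq'
    rw [Finset.mem_filter] at hq2
    apply Finset.mem_coe.2
    simp only [Finset.mem_filter, Finset.mem_product]
    exact ⟨⟨hA hq1, hq2.1⟩, hxA _ hq1, hq2.2.1, hq2.2.2⟩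
  · rintro ⟨a, b⟩ _ ⟨a', b'⟩ _ h
    simp only [Prod.mk.injEq] at h
    obtain ⟨rfl, rfl⟩ := h
    rfl

/-- neighbours of `x` in `S` as a set -/
def nbr (E : Finset (Sym2 V)) (S : Finset V) (x : V) : Finset V := S.filter (fun y => s(x, y) ∈ E)

theorem mem_nbr {E : Finset (Sym2 V)} {S : Finset V} {x y : V} :
    y ∈ nbr E S x ↔ y ∈ S ∧ s(x, y) ∈ E := by simp [nbr]

theorem card_nbr (E : Finset (Sym2 V)) (S : Finset V) (x : V) : (nbr E S x).card = dg E S x := rfl

/-- non-neighbours and neighbours -/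
theorem dg_add_non (E : Finset (Sym2 V)) (S : Finset V) (x : V) :
    dg E S x + (S.filter (fun y => s(x, y) ∉ E)).card = S.card := by
  unfold dg
  exact Finset.card_filter_add_card_filter_not _

/-- splitting the set of neighbours -/
theorem dg_le_add (E : Finset (Sym2 V)) (S T : Finset V) (x : V) :
    dg E S x ≤ dg E T x + (S \ T).card := by
  unfold dg
  refine le_trans (Finset.card_le_card ?_) (Finset.card_union_le _ _)
  intro y hy
  simp only [Finset.mem_filter, Finset.mem_union, Finset.mem_sdiff] at hy ⊢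
  by_cases h : y ∈ T
  · left; exact ⟨h, hy.2⟩
  · right; exact ⟨hy.1, h⟩

theorem dg_union_le (E : Finset (Sym2 V)) (S T : Finset V) (x : V) :
    dg E (S ∪ T) x ≤ dg E S x + dg E T x := by
  unfold dg
  rw [Finset.filter_union]
  exact Finset.card_union_le _ _

/-- general lower bound for `P4` from real-valued degree conditions -/
theorem P4_ge_real (E : Finset (Sym2 V)) (S A1 C1 : Finset V) (x y : V) (a c k : ℝ)
    (ha : 0 ≤ a) (hc : 0 ≤ c) (hk0 : 0 ≤ k)
    (hA : A1 ⊆ S) (hC : C1 ⊆ S) (hxA : ∀ v ∈ A1, s(x, v) ∈ E) (hyC : ∀ v ∈ C1, s(v, y) ∈ E)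
    (haA : a ≤ A1.card) (hcC : c ≤ C1.card)
    (hk : ∀ v ∈ A1, ∀ w ∈ C1, k ≤ (cn E S v w : ℝ)) :
    a * c * k ≤ (P4 E S x y : ℝ) := by
  rcases Finset.eq_empty_or_nonempty A1 with h1 | ⟨v0, hv0⟩
  · rw [h1, Finset.card_empty] at haA
    have : a = 0 := le_antisymm (by exact_mod_cast haA) ha
    rw [this]; simp
  rcases Finset.eq_empty_or_nonempty C1 with h1 | ⟨w0, hw0⟩
  · rw [h1, Finset.card_empty] at hcC
    have : c = 0 := le_antisymm (by exact_mod_cast hcC) hc
    rw [this]; simp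
  have hne : (A1 ×ˢ C1).Nonempty := ⟨(v0, w0), Finset.mem_product.2 ⟨hv0, hw0⟩⟩
  obtain ⟨p, hp, hpmin⟩ := Finset.exists_min_image (A1 ×ˢ C1) (fun p => cn E S p.1 p.2) hne
  rw [Finset.mem_product] at hp
  have h2 := P4_ge E S A1 C1 x y (cn E S p.1 p.2) hA hC hxA hyC
    (fun v hv w hw => hpmin (v, w) (Finset.mem_product.2 ⟨hv, hw⟩))
  have h3 := hk p.1 hp.1 p.2 hp.2
  calc a * c * k ≤ (A1.card : ℝ) * C1.card * (cn E S p.1 p.2 : ℝ) := by
        apply mul_le_mul (mul_le_mul haA hcC hc (Nat.cast_nonneg _)) h3 hk0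
        positivity
    _ ≤ (P4 E S x y : ℝ) := by exact_mod_cast h2

theorem P3_ge_real (E : Finset (Sym2 V)) (S A1 : Finset V) (x y : V) (a k : ℝ)
    (ha : 0 ≤ a) (hk0 : 0 ≤ k)
    (hA : A1 ⊆ S) (hxA : ∀ v ∈ A1, s(x, v) ∈ E)
    (haA : a ≤ A1.card) (hk : ∀ v ∈ A1, k ≤ (cn E S v y : ℝ)) :
    a * k ≤ (P3 E S x y : ℝ) := by
  rcases Finset.eq_empty_or_nonempty A1 with h1 | hne
  · rw [h1, Finset.card_empty] at haA
    have : a = 0 := le_antisymm (by exact_mod_cast haA) ha
    rw [this]; simp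
  obtain ⟨p, hp, hpmin⟩ := Finset.exists_min_image A1 (fun p => cn E S p y) hne
  have h2 := P3_ge E S A1 x y (cn E S p y) hA hxA (fun v hv => hpmin v hv)
  have h3 := hk p hp
  calc a * k ≤ (A1.card : ℝ) * (cn E S p y : ℝ) := by
        apply mul_le_mul haA h3 hk0
        positivity
    _ ≤ (P3 E S x y : ℝ) := by exact_mod_cast h2

end H15C6
end S_UTIL

section S_KST
/-!
Module KST.  A set of at least `γ N²` edges on `N` vertices contains a six-cycle
(it even contains a `K_{3,3}`), and therefore greedy removal of six-cycles leaves fewer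
than `γ N²` edges.

Proof of `kst_c6`.  Put `N = |U|`, `d x = deg E x` (= number of neighbours in `U`), `∑ d = 2|E|`.
Count pairs (x, T) with `T` an ordered triple of distinct neighbours of `x`:
`∑_x d(x)(d(x)-1)(d(x)-2)`.  By convexity (or: vertices with `d x ≥ γ N` are at least `γ N`
many, since `2 γ N² ≤ ∑ d ≤ N·#{d ≥ γN} + γ N·N`) this is at least `γ N · (γN-2)^3 > 2 N³`
for large `N`, so some ordered triple `T = (y0,y1,y2)` of distinct vertices has
at least 3 common neighbours `x0,x1,x2` (distinct); they are not in `T` because `E` is loopless.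
The cycle is `y0 x0 y1 x1 y2 x2`.
`sparse_leftover` : strong induction on `|E|`, remove six-cycles while possible.
-/

open Finset

namespace H15C6

/-- three vertices with three common neighbours give a six-cycle -/
private theorem kst_cycle {V : Type} [DecidableEq V] {E : Finset (Sym2 V)} (hl : Loopless E)
    {y0 y1 y2 x0 x1 x2 : V} (hy01 : y0 ≠ y1) (hy12 : y1 ≠ y2) (hy02 : y0 ≠ y2)
    (hx01 : x0 ≠ x1) (hx02 : x0 ≠ x2) (hx12 : x1 ≠ x2)
    (h0 : s(x0, y0) ∈ E ∧ s(x0, y1) ∈ E ∧ s(x0, y2) ∈ E)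
    (h1 : s(x1, y0) ∈ E ∧ s(x1, y1) ∈ E ∧ s(x1, y2) ∈ E)
    (h2 : s(x2, y0) ∈ E ∧ s(x2, y1) ∈ E ∧ s(x2, y2) ∈ E) : ∃ C ⊆ E, IsC6 C := by
  refine ⟨cyc ![y0, x0, y1, x1, y2, x2], ?_, ![y0, x0, y1, x1, y2, x2], ?_, rfl⟩
  · intro e he
    rw [mem_cyc] at he
    obtain ⟨i, rfl⟩ := he
    fin_cases i
    · change s(y0, x0) ∈ E
      rw [Sym2.eq_swap]; exact h0.1
    · change s(x0, y1) ∈ E
      exact h0.2.1
    · change s(y1, x1) ∈ E
      rw [Sym2.eq_swap]; exact h1.2.1
    · change s(x1, y2) ∈ E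
      exact h1.2.2
    · change s(y2, x2) ∈ E
      rw [Sym2.eq_swap]; exact h2.2.2
    · change s(x2, y0) ∈ E
      exact h2.1
  · have a00 := hl.ne h0.1
    have a01 := hl.ne h0.2.1
    have a02 := hl.ne h0.2.2
    have a10 := hl.ne h1.1
    have a11 := hl.ne h1.2.1
    have a12 := hl.ne h1.2.2
    have a20 := hl.ne h2.1
    have a21 := hl.ne h2.2.1
    have a22 := hl.ne h2.2.2
    intro i j hij
    fin_cases i <;> fin_cases j <;> first | rfl | (exfalso; simp_all)

/-- number of common neighbours of the three entries of `T` -/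
private def kcn {V : Type} [DecidableEq V] (E : Finset (Sym2 V)) (U : Finset V)
    (T : V × V × V) : ℕ :=
  (U.filter (fun x => s(x, T.1) ∈ E ∧ s(x, T.2.1) ∈ E ∧ s(x, T.2.2) ∈ E)).card

private theorem kst_double {V : Type} [DecidableEq V] (E : Finset (Sym2 V)) (U : Finset V) :
    ∑ x ∈ U, (dg E U x) ^ 3 = ∑ T ∈ U ×ˢ U ×ˢ U, kcn E U T := by
  have h1 : ∀ x ∈ U, (dg E U x) ^ 3 = ((U ×ˢ U ×ˢ U).filter
      (fun T : V × V × V => s(x, T.1) ∈ E ∧ s(x, T.2.1) ∈ E ∧ s(x, T.2.2) ∈ E)).card := by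
    intro x _
    have h2 : (U ×ˢ U ×ˢ U).filter
        (fun T : V × V × V => s(x, T.1) ∈ E ∧ s(x, T.2.1) ∈ E ∧ s(x, T.2.2) ∈ E) =
        (U.filter (fun y => s(x, y) ∈ E)) ×ˢ (U.filter (fun y => s(x, y) ∈ E)) ×ˢ
          (U.filter (fun y => s(x, y) ∈ E)) := by
      ext ⟨a, b, c⟩
      simp only [mem_filter, mem_product]
      tauto
    rw [h2, card_product, card_product]
    unfold dg
    ring
  rw [sum_congr rfl h1]
  unfold kcn
  simp_rw [card_filter]
  rw [sum_comm]

private theorem kst_nondistinct {V : Type} [DecidableEq V] (U : Finset V) :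
    ((U ×ˢ U ×ˢ U).filter (fun T : V × V × V => T.1 = T.2.1 ∨ T.2.1 = T.2.2 ∨ T.1 = T.2.2)).card ≤
      3 * U.card ^ 2 := by
  have hsub : (U ×ˢ U ×ˢ U).filter
      (fun T : V × V × V => T.1 = T.2.1 ∨ T.2.1 = T.2.2 ∨ T.1 = T.2.2) ⊆
      ((U ×ˢ U).image (fun p : V × V => (p.1, p.1, p.2))) ∪
      (((U ×ˢ U).image (fun p : V × V => (p.1, p.2, p.2))) ∪
      ((U ×ˢ U).image (fun p : V × V => (p.1, p.2, p.1)))) := by
    rintro ⟨a, b, c⟩ h
    simp only [mem_filter, mem_product] at h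
    simp only [mem_union, mem_image, mem_product, Prod.mk.injEq, Prod.exists]
    obtain ⟨⟨ha, hb, hc⟩, h1 | h1 | h1⟩ := h
    · left; exact ⟨a, c, ⟨ha, hc⟩, rfl, h1, rfl⟩
    · right; left; exact ⟨a, b, ⟨ha, hb⟩, rfl, rfl, h1⟩
    · right; right; exact ⟨a, b, ⟨ha, hb⟩, rfl, rfl, h1⟩
  have h3 := card_le_card hsub
  have h4 : ∀ f : V × V → V × V × V, ((U ×ˢ U).image f).card ≤ U.card ^ 2 := by
    intro f
    refine card_image_le.trans ?_
    rw [card_product, sq]
  have h5 := card_union_le ((U ×ˢ U).image (fun p : V × V => (p.1, p.1, p.2)))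
    (((U ×ˢ U).image (fun p : V × V => (p.1, p.2, p.2))) ∪
      ((U ×ˢ U).image (fun p : V × V => (p.1, p.2, p.1))))
  have h6 := card_union_le ((U ×ˢ U).image (fun p : V × V => (p.1, p.2, p.2)))
    ((U ×ˢ U).image (fun p : V × V => (p.1, p.2, p.1)))
  have h7 := h4 (fun p : V × V => (p.1, p.1, p.2))
  have h8 := h4 (fun p : V × V => (p.1, p.2, p.2))
  have h9 := h4 (fun p : V × V => (p.1, p.2, p.1))
  omega

theorem kst_c6 (γ : ℝ) (hγ : 0 < γ) : ∃ N0 : ℕ, ∀ (V : Type) [DecidableEq V] (U : Finset V)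
    (E : Finset (Sym2 V)), N0 ≤ U.card → E ⊆ U.sym2 → Loopless E →
    γ * (U.card : ℝ) ^ 2 ≤ (E.card : ℝ) → ∃ C ⊆ E, IsC6 C := by
  obtain ⟨N0, hN0⟩ := exists_nat_gt (5 / (8 * γ ^ 3))
  refine ⟨N0 + 1, fun V _ U E hU hE hl hcard => ?_⟩
  have hUpos : 0 < U.card := by omega
  have hN : (0 : ℝ) < U.card := by exact_mod_cast hUpos
  by_contra hcon
  -- every distinct triple has at most two common neighbours
  have h2 : ∀ T ∈ U ×ˢ U ×ˢ U, ¬ (T.1 = T.2.1 ∨ T.2.1 = T.2.2 ∨ T.1 = T.2.2) →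
      kcn E U T ≤ 2 := by
    rintro ⟨a, b, c⟩ _ hne
    by_contra hlt
    push Not at hlt hne
    unfold kcn at hlt
    rw [two_lt_card] at hlt
    obtain ⟨x0, hx0, x1, hx1, x2, hx2, h01, h02, h12⟩ := hlt
    rw [mem_filter] at hx0 hx1 hx2
    exact hcon (kst_cycle hl hne.1 hne.2.1 hne.2.2 h01 h02 h12 hx0.2 hx1.2 hx2.2)
  have h3 : ∀ T ∈ U ×ˢ U ×ˢ U, kcn E U T ≤ U.card := fun T _ => card_filter_le _ _
  have h4 : ∑ T ∈ U ×ˢ U ×ˢ U, kcn E U T ≤ 5 * U.card ^ 3 := by
    rw [← sum_filter_add_sum_filter_not (U ×ˢ U ×ˢ U)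
      (fun T : V × V × V => T.1 = T.2.1 ∨ T.2.1 = T.2.2 ∨ T.1 = T.2.2)]
    have h5 : ∑ T ∈ (U ×ˢ U ×ˢ U).filter
        (fun T : V × V × V => T.1 = T.2.1 ∨ T.2.1 = T.2.2 ∨ T.1 = T.2.2), kcn E U T ≤
        3 * U.card ^ 3 := by
      refine (sum_le_card_nsmul _ _ U.card fun T hT => h3 T (mem_filter.1 hT).1).trans ?_
      rw [smul_eq_mul]
      refine (Nat.mul_le_mul_right _ (kst_nondistinct U)).trans (le_of_eq ?_)
      ring
    have h6 : ∑ T ∈ (U ×ˢ U ×ˢ U).filter
        (fun T : V × V × V => ¬ (T.1 = T.2.1 ∨ T.2.1 = T.2.2 ∨ T.1 = T.2.2)), kcn E U T ≤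
        2 * U.card ^ 3 := by
      refine (sum_le_card_nsmul _ _ 2 fun T hT =>
        h2 T (mem_filter.1 hT).1 (mem_filter.1 hT).2).trans ?_
      rw [smul_eq_mul]
      refine (Nat.mul_le_mul_right _ (card_filter_le _ _)).trans (le_of_eq ?_)
      rw [card_product, card_product]; ring
    omega
  rw [← kst_double] at h4
  -- power mean
  have h5 : (∑ x ∈ U, (dg E U x : ℝ)) ^ 3 / (U.card : ℝ) ^ 2 ≤ ∑ x ∈ U, (dg E U x : ℝ) ^ 3 :=
    pow_sum_div_card_le_sum_pow (fun x _ => Nat.cast_nonneg _) 2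
  have h6 : ∑ x ∈ U, (dg E U x : ℝ) = 2 * (E.card : ℝ) := by
    have := sum_deg hE hl
    have h7 : ∑ x ∈ U, dg E U x = 2 * E.card := by
      rw [← this]
      exact sum_congr rfl fun x _ => (deg_eq_dg hE x).symm
    exact_mod_cast h7
  rw [h6] at h5
  have h7 : ∑ x ∈ U, (dg E U x : ℝ) ^ 3 ≤ 5 * (U.card : ℝ) ^ 3 := by exact_mod_cast h4
  have h8 : (2 * (γ * (U.card : ℝ) ^ 2)) ^ 3 ≤ (2 * (E.card : ℝ)) ^ 3 := by
    apply pow_le_pow_left₀ (by positivity)
    linarith
  have h9 : (2 * (E.card : ℝ)) ^ 3 ≤ 5 * (U.card : ℝ) ^ 3 * (U.card : ℝ) ^ 2 := by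
    rw [div_le_iff₀ (by positivity)] at h5
    exact h5.trans (mul_le_mul_of_nonneg_right h7 (by positivity))
  have h10 : 8 * γ ^ 3 * (U.card : ℝ) * (U.card : ℝ) ^ 5 ≤ 5 * (U.card : ℝ) ^ 5 := by
    calc _ = (2 * (γ * (U.card : ℝ) ^ 2)) ^ 3 := by ring
      _ ≤ 5 * (U.card : ℝ) ^ 3 * (U.card : ℝ) ^ 2 := h8.trans h9
      _ = _ := by ring
  have h11 : 8 * γ ^ 3 * (U.card : ℝ) ≤ 5 := le_of_mul_le_mul_right h10 (by positivity)
  have h12 : 5 / (8 * γ ^ 3) < (U.card : ℝ) := by
    refine hN0.trans ?_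
    have : N0 < U.card := by omega
    exact_mod_cast this
  rw [div_lt_iff₀ (by positivity)] at h12
  linarith

theorem sparse_leftover (γ : ℝ) (hγ : 0 < γ) : ∃ N0 : ℕ, ∀ (V : Type) [DecidableEq V]
    (U : Finset V) (E : Finset (Sym2 V)), N0 ≤ U.card → E ⊆ U.sym2 → Loopless E →
    ∃ D ⊆ E, Dec D ∧ ((E \ D).card : ℝ) ≤ γ * (U.card : ℝ) ^ 2 := by
  obtain ⟨N0, hN0⟩ := kst_c6 γ hγ
  refine ⟨N0, fun V _ U E hU => ?_⟩
  induction hn : E.card using Nat.strong_induction_on generalizing E with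
  | _ n ih =>
    intro hE hl
    by_cases hcard : γ * (U.card : ℝ) ^ 2 ≤ (E.card : ℝ)
    · obtain ⟨C, hCE, hC⟩ := hN0 V U E hU hE hl hcard
      have hlt : (E \ C).card < n := by
        have h1 := card_sdiff_add_card_eq_card hCE
        have h2 := hC.card
        omega
      obtain ⟨D, hD, hDec, hDc⟩ := ih _ hlt (E \ C) rfl (sdiff_subset.trans hE)
        (hl.mono sdiff_subset)
      refine ⟨D ∪ C, union_subset (hD.trans sdiff_subset) hCE,
        hDec.add hC (disjoint_of_subset_left hD sdiff_disjoint), ?_⟩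
      have h3 : E \ (D ∪ C) = (E \ C) \ D := by
        ext x
        simp only [mem_sdiff, mem_union]
        tauto
      rw [h3]
      exact hDc
    · refine ⟨∅, empty_subset _, Dec.empty, ?_⟩
      rw [sdiff_empty]
      exact (not_le.1 hcard).le

end H15C6
end S_KST

section S_COL
/-!
Module COL.  Hoeffding-type colouring lemma: finitely many weight functions with values in
`[0,1]` can be simultaneously split evenly among the colour classes of one colouring.

Proof.  Count colourings `τ : V → κ` (or only their restrictions to `S`; extend by a constant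
outside `S`).  Let `s = |S|`, `K = |κ|`.  For fixed `i, k` put `Y_u(τ) = w i u * ([τ u = k] - 1/K)`
for `u ∈ S`; `|Y_u| ≤ 1`, and `∑_{a : κ} Y_u (a) = 0`.  Since `exp x ≤ x + exp (x^2)` for all
real `x` (for `|x| ≤ 1` from `Real.abs_exp_sub_one_sub_id_le`, otherwise trivial),
`(1/K) ∑_a exp (λ Y_u a) ≤ exp (λ^2)`.  By the product formula (`Finset.prod_univ_sum` /
`Fintype.piFinset`) `(1/K^s) ∑_τ exp (λ ∑_u Y_u) ≤ exp (λ^2 s)`.  Markov with `λ = t/(2s)`:
the fraction of `τ` with `∑ Y_u > t` is at most `exp (-(t^2)/(4 s))`; the same for `-Y`.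
Union bound over `i ∈ F`, `k : κ`: the total fraction of bad colourings is
at most `2 |F| K exp(-(t^2)/(4 s)) < 1`.  (If `S = ∅` both sums are `0`.)
-/

open Finset

namespace H15C6

/-- the centred variable -/
noncomputable def col_Y {ι V κ : Type} [Fintype κ] [DecidableEq κ] (w : ι → V → ℝ) (i : ι)
    (k : κ) (u : V) (c : κ) : ℝ :=
  w i u * ((if c = k then 1 else 0) - 1 / (Fintype.card κ : ℝ))

theorem col_exp_le (x : ℝ) : Real.exp x ≤ x + Real.exp (x ^ 2) := by
  have h1 : x ^ 2 + 1 ≤ Real.exp (x ^ 2) := Real.add_one_le_exp (x ^ 2)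
  rcases le_or_gt |x| 1 with h | h
  · have h2 := Real.abs_exp_sub_one_sub_id_le h
    have h3 := (abs_le.1 h2).2
    linarith
  · rcases lt_abs.1 h with h | h
    · have h2 : Real.exp x ≤ Real.exp (x ^ 2) := by
        apply Real.exp_le_exp.2
        nlinarith
      linarith
    · have h2 : Real.exp x ≤ 1 := by
        rw [Real.exp_le_one_iff]
        linarith
      nlinarith

theorem col_sum_Y {ι V κ : Type} [Fintype κ] [DecidableEq κ] [Nonempty κ] (w : ι → V → ℝ)
    (i : ι) (k : κ) (u : V) : ∑ c : κ, col_Y w i k u c = 0 := by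
  have hK : (Fintype.card κ : ℝ) ≠ 0 := by
    exact_mod_cast Fintype.card_ne_zero
  unfold col_Y
  rw [← mul_sum, sum_sub_distrib, sum_const, card_univ, nsmul_eq_mul, mul_one_div, div_self hK,
    Finset.sum_ite_eq' univ k (fun _ => (1 : ℝ))]
  simp

theorem col_Y_abs {ι V κ : Type} [Fintype κ] [DecidableEq κ] [Nonempty κ] (w : ι → V → ℝ)
    (i : ι) (k : κ) (u : V) (c : κ) (hw : 0 ≤ w i u ∧ w i u ≤ 1) : |col_Y w i k u c| ≤ 1 := by
  have hK : (1 : ℝ) ≤ (Fintype.card κ : ℝ) := by
    exact_mod_cast Fintype.card_pos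
  have h1 : 0 < 1 / (Fintype.card κ : ℝ) := by positivity
  have h2 : 1 / (Fintype.card κ : ℝ) ≤ 1 := by
    rw [div_le_one (by linarith)]
    exact hK
  unfold col_Y
  rw [abs_mul, abs_of_nonneg hw.1]
  have h3 : |(if c = k then (1 : ℝ) else 0) - 1 / (Fintype.card κ : ℝ)| ≤ 1 := by
    rw [abs_le]
    split_ifs
    · constructor <;> linarith
    · constructor <;> linarith
  calc w i u * |(if c = k then (1 : ℝ) else 0) - 1 / (Fintype.card κ : ℝ)| ≤ 1 * 1 :=
        mul_le_mul hw.2 h3 (abs_nonneg _) zero_le_one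
    _ = 1 := one_mul 1

theorem col_moment {ι V κ : Type} [Fintype κ] [DecidableEq κ] [Nonempty κ] (w : ι → V → ℝ)
    (i : ι) (k : κ) (u : V) (hw : 0 ≤ w i u ∧ w i u ≤ 1) (l : ℝ) :
    ∑ c : κ, Real.exp (l * col_Y w i k u c) ≤ (Fintype.card κ : ℝ) * Real.exp (l ^ 2) := by
  calc ∑ c : κ, Real.exp (l * col_Y w i k u c)
      ≤ ∑ c : κ, (l * col_Y w i k u c + Real.exp (l ^ 2)) := by
        apply sum_le_sum
        intro c _
        refine (col_exp_le _).trans (add_le_add le_rfl ?_)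
        apply Real.exp_le_exp.2
        rw [mul_pow]
        have h1 : col_Y w i k u c ^ 2 ≤ 1 := (sq_le_one_iff_abs_le_one _).2 (col_Y_abs w i k u c hw)
        nlinarith [sq_nonneg l]
    _ = (Fintype.card κ : ℝ) * Real.exp (l ^ 2) := by
        rw [sum_add_distrib, ← mul_sum, col_sum_Y, mul_zero, zero_add, sum_const, card_univ,
          nsmul_eq_mul]

/-- the potential -/
noncomputable def col_Phi {ι V κ : Type} [Fintype κ] [DecidableEq κ] (F : Finset ι)
    (w : ι → V → ℝ) (l : ℝ) (S : Finset V) (τ : V → κ) : ℝ :=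
  ∑ i ∈ F, ∑ k : κ, (Real.exp (l * ∑ u ∈ S, col_Y w i k u (τ u)) +
    Real.exp (-l * ∑ u ∈ S, col_Y w i k u (τ u)))

theorem col_greedy {ι V κ : Type} [DecidableEq V] [Fintype κ] [DecidableEq κ] [Nonempty κ]
    (F : Finset ι) (w : ι → V → ℝ) (l : ℝ) (S : Finset V) :
    (∀ i ∈ F, ∀ u ∈ S, 0 ≤ w i u ∧ w i u ≤ 1) → ∃ τ : V → κ,
      col_Phi F w l S τ ≤ 2 * (F.card : ℝ) * (Fintype.card κ : ℝ) * Real.exp (l ^ 2 * S.card) := by
  induction S using Finset.induction_on with
  | empty =>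
    intro _
    refine ⟨fun _ => Classical.arbitrary κ, ?_⟩
    unfold col_Phi
    simp only [sum_empty, mul_zero, Real.exp_zero, card_empty, Nat.cast_zero, mul_one, sum_const,
      card_univ, nsmul_eq_mul]
    apply le_of_eq
    ring
  | @insert a S ha ih =>
    intro hw
    obtain ⟨τ, hτ⟩ := ih (fun i hi u hu => hw i hi u (mem_insert_of_mem hu))
    have hK : (0 : ℝ) < (Fintype.card κ : ℝ) := by
      exact_mod_cast Fintype.card_pos
    have hsum : ∀ (c : κ) (i : ι) (k : κ),
        ∑ u ∈ insert a S, col_Y w i k u (Function.update τ a c u) =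
        col_Y w i k a c + ∑ u ∈ S, col_Y w i k u (τ u) := by
      intro c i k
      rw [sum_insert ha, Function.update_self]
      congr 1
      apply sum_congr rfl
      intro u hu
      have hua : u ≠ a := fun hEq => ha (hEq ▸ hu)
      rw [Function.update_of_ne hua]
    have key : ∑ c : κ, col_Phi F w l (insert a S) (Function.update τ a c) ≤
        (Fintype.card κ : ℝ) * (Real.exp (l ^ 2) * col_Phi F w l S τ) := by
      unfold col_Phi
      rw [sum_comm, ← mul_assoc, mul_sum]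
      apply sum_le_sum
      intro i hi
      rw [sum_comm, mul_sum]
      apply sum_le_sum
      intro k _
      simp only [hsum]
      rw [sum_add_distrib, mul_add]
      have hwa := hw i hi a (mem_insert_self a S)
      apply add_le_add
      · have h1 := col_moment w i k a hwa l
        calc ∑ c : κ, Real.exp (l * (col_Y w i k a c + ∑ u ∈ S, col_Y w i k u (τ u)))
            = (∑ c : κ, Real.exp (l * col_Y w i k a c)) *
              Real.exp (l * ∑ u ∈ S, col_Y w i k u (τ u)) := by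
              rw [sum_mul]
              apply sum_congr rfl
              intro c _
              rw [mul_add, Real.exp_add]
          _ ≤ _ := mul_le_mul_of_nonneg_right h1 (Real.exp_pos _).le
      · have h1 := col_moment w i k a hwa (-l)
        rw [neg_sq] at h1
        calc ∑ c : κ, Real.exp (-l * (col_Y w i k a c + ∑ u ∈ S, col_Y w i k u (τ u)))
            = (∑ c : κ, Real.exp (-l * col_Y w i k a c)) *
              Real.exp (-l * ∑ u ∈ S, col_Y w i k u (τ u)) := by
              rw [sum_mul]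
              apply sum_congr rfl
              intro c _
              rw [mul_add, Real.exp_add]
          _ ≤ _ := mul_le_mul_of_nonneg_right h1 (Real.exp_pos _).le
    have key2 : ∑ c : κ, col_Phi F w l (insert a S) (Function.update τ a c) ≤
        ∑ _c : κ, Real.exp (l ^ 2) * col_Phi F w l S τ := by
      rw [sum_const, card_univ, nsmul_eq_mul]
      exact key
    obtain ⟨c, _, hc⟩ := exists_le_of_sum_le univ_nonempty key2
    refine ⟨Function.update τ a c, hc.trans ?_⟩
    rw [card_insert_of_notMem ha]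
    push_cast
    calc Real.exp (l ^ 2) * col_Phi F w l S τ
        ≤ Real.exp (l ^ 2) * (2 * (F.card : ℝ) * (Fintype.card κ : ℝ) *
          Real.exp (l ^ 2 * S.card)) := mul_le_mul_of_nonneg_left hτ (Real.exp_pos _).le
      _ = 2 * (F.card : ℝ) * (Fintype.card κ : ℝ) * Real.exp (l ^ 2 * (S.card + 1)) := by
        rw [mul_add, mul_one, Real.exp_add]
        ring

theorem exists_coloring {ι V κ : Type} [DecidableEq V] [Fintype κ] [DecidableEq κ] [Nonempty κ]
    (S : Finset V) (F : Finset ι) (w : ι → V → ℝ)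
    (hw : ∀ i ∈ F, ∀ u ∈ S, 0 ≤ w i u ∧ w i u ≤ 1) (t : ℝ) (ht : 0 < t)
    (hnum : 2 * (F.card : ℝ) * (Fintype.card κ : ℝ) * Real.exp (-(t ^ 2) / (4 * (S.card : ℝ))) < 1) :
    ∃ τ : V → κ, ∀ i ∈ F, ∀ k : κ,
      |(∑ u ∈ S.filter (fun u => τ u = k), w i u) - (∑ u ∈ S, w i u) / (Fintype.card κ : ℝ)| ≤ t := by
  rcases S.eq_empty_or_nonempty with rfl | hS
  · refine ⟨fun _ => Classical.arbitrary κ, fun i _ k => ?_⟩
    simp [ht.le]
  have hs : (0 : ℝ) < S.card := by exact_mod_cast card_pos.2 hS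
  have hK : (0 : ℝ) < (Fintype.card κ : ℝ) := by
    exact_mod_cast Fintype.card_pos
  set l : ℝ := t / (2 * S.card) with hl
  have hlpos : 0 < l := by positivity
  obtain ⟨τ, hτ⟩ := col_greedy (κ := κ) F w l S hw
  refine ⟨τ, fun i hi k => ?_⟩
  by_contra hcon
  rw [not_le] at hcon
  set D : ℝ := ∑ u ∈ S, col_Y w i k u (τ u) with hD
  have hDeq : (∑ u ∈ S.filter (fun u => τ u = k), w i u) -
      (∑ u ∈ S, w i u) / (Fintype.card κ : ℝ) = D := by
    rw [hD, sum_filter, sum_div, ← sum_sub_distrib]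
    apply sum_congr rfl
    intro u _
    unfold col_Y
    split_ifs
    · ring
    · ring
  rw [hDeq] at hcon
  have h1 : Real.exp (l * t) ≤ Real.exp (l * D) + Real.exp (-l * D) := by
    have e1 := Real.exp_pos (l * D)
    have e2 := Real.exp_pos (-l * D)
    rcases lt_abs.1 hcon with h | h
    · have : Real.exp (l * t) ≤ Real.exp (l * D) := by
        apply Real.exp_le_exp.2
        nlinarith
      linarith
    · have : Real.exp (l * t) ≤ Real.exp (-l * D) := by
        apply Real.exp_le_exp.2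
        nlinarith
      linarith
  have h2 : Real.exp (l * D) + Real.exp (-l * D) ≤ col_Phi F w l S τ := by
    unfold col_Phi
    calc Real.exp (l * D) + Real.exp (-l * D)
        ≤ ∑ k : κ, (Real.exp (l * ∑ u ∈ S, col_Y w i k u (τ u)) +
          Real.exp (-l * ∑ u ∈ S, col_Y w i k u (τ u))) :=
          single_le_sum (f := fun k => Real.exp (l * ∑ u ∈ S, col_Y w i k u (τ u)) +
            Real.exp (-l * ∑ u ∈ S, col_Y w i k u (τ u))) (fun k _ => by positivity)
            (mem_univ k)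
      _ ≤ _ := single_le_sum (f := fun i => ∑ k : κ,
          (Real.exp (l * ∑ u ∈ S, col_Y w i k u (τ u)) +
          Real.exp (-l * ∑ u ∈ S, col_Y w i k u (τ u))))
          (fun i _ => sum_nonneg (fun k _ => by positivity)) hi
  have h3 : Real.exp (l * t) ≤ 2 * (F.card : ℝ) * (Fintype.card κ : ℝ) *
      Real.exp (l ^ 2 * S.card) := h1.trans (h2.trans hτ)
  have h4 : Real.exp (l ^ 2 * S.card) = Real.exp (l * t) *
      Real.exp (-(t ^ 2) / (4 * (S.card : ℝ))) := by
    rw [← Real.exp_add]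
    congr 1
    rw [hl]
    field_simp
    ring
  rw [h4] at h3
  have h5 : 0 < Real.exp (l * t) := Real.exp_pos _
  nlinarith

end H15C6
end S_COL
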