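import Pool.Agent.H15.C6F.FA

section S_GL
/-!
Module GL.  General greedy completion lemma: a family of partial six-cycles, each with many
completions in the host graph `H`, can be completed edge-disjointly, every vertex having
small degree in the used part of `H`.

Proof.  Process the requests one by one (`Finset.induction_on` with a stronger statement, or
list induction).  Invariant after processing a set `J'`: completions `v j`, `j ∈ J'`, whose new
edge sets `cyc (v j) \ fixE (c j) = cyc (v j) ∩ H` are pairwise disjoint, and each vertex `p` is an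
*unknown value* (`v j i = p` with `c j i = none`) for at most `q` pairs `(j,i)`; call `p` exhausted if
it is so exactly `q` times.  At most `6 |J| / q` vertices are exhausted.  The used edges at a vertex
`p` number at most `2 (e + q)` (at most 2 for each request where `p` is a port, at most 2 for each
unknown value; a fixed vertex that is not a port has no new edge).  For the next request with `k`
unknowns at most
`6 * (6|J|/q) |S|^(k-1)` completions contain an exhausted unknown vertex and at most
`6 * 2(e+q) * |S|^(k-1)` completions contain a used edge (for a new edge `i`: one of the two positions is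
unknown; fix all other unknowns, then the remaining one is a neighbour through a used edge of a
given vertex; when both are unknown choose one of them freely in `S`).
By `hnum` some completion is left.  Note `|{v ∈ compl6 : v i = a}| ≤ |S|^(k-1)` for `c i = none`,
because a completion is determined by its values on the unknown positions.
Finally `D := J.biUnion (fun j => cyc (v j))`, `Dec D` by `Dec.biUnion` (the sets `cyc (v j)` are
`fixE (c j) ∪ new edges`, all disjoint: `fixE`'s are pairwise disjoint and disjoint from `H`).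
-/

open Finset

set_option linter.unusedSectionVars false

namespace H15C6

/-- new edges of a completion -/
def gl_new {V : Type} [DecidableEq V] (c : Fin 6 → Option V) (v : Fin 6 → V) :
    Finset (Sym2 V) :=
  (univ.filter (fun i : Fin 6 => c i = none ∨ c (i + 1) = none)).image
    (fun i => s(v i, v (i + 1)))

section GLaux

variable {V ι : Type} [DecidableEq V] [DecidableEq ι]

theorem gl_mem_new {c : Fin 6 → Option V} {v : Fin 6 → V} {e : Sym2 V} :
    e ∈ gl_new c v ↔ ∃ i : Fin 6, (c i = none ∨ c (i + 1) = none) ∧ s(v i, v (i + 1)) = e := by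
  simp [gl_new]

theorem gl_new_subset {S : Finset V} {H : Finset (Sym2 V)} {c : Fin 6 → Option V}
    {v : Fin 6 → V} (h : Completes S H c v) : gl_new c v ⊆ H := by
  intro e he
  obtain ⟨i, hi, rfl⟩ := gl_mem_new.1 he
  exact h.2.2.2 i hi

theorem gl_mem_fix {c : Fin 6 → Option V} {e : Sym2 V} :
    e ∈ fixE c ↔ ∃ (i : Fin 6) (p q : V), c i = some p ∧ c (i + 1) = some q ∧ e = s(p, q) := by
  simp only [fixE, mem_biUnion, mem_univ, true_and]
  constructor
  · rintro ⟨i, hi⟩
    cases hp : c i with
    | none => simp [hp] at hi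
    | some p =>
      cases hq : c (i + 1) with
      | none => simp [hp, hq] at hi
      | some q =>
        simp only [hp, hq, mem_singleton] at hi
        exact ⟨i, p, q, hp, hq, hi⟩
  · rintro ⟨i, p, q, hp, hq, rfl⟩
    refine ⟨i, ?_⟩
    rw [hp, hq]
    simp

theorem gl_cyc {S : Finset V} {H : Finset (Sym2 V)} {c : Fin 6 → Option V} {v : Fin 6 → V}
    (h : Completes S H c v) : cyc v = fixE c ∪ gl_new c v := by
  ext e
  rw [mem_union, gl_mem_fix, gl_mem_new, mem_cyc]
  constructor
  · rintro ⟨i, rfl⟩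
    cases hp : c i with
    | none => exact Or.inr ⟨i, Or.inl hp, rfl⟩
    | some p =>
      cases hq : c (i + 1) with
      | none => exact Or.inr ⟨i, Or.inr hq, rfl⟩
      | some q =>
        left
        exact ⟨i, p, q, hp, hq, by rw [h.2.2.1 i p hp, h.2.2.1 _ q hq]⟩
  · rintro (⟨i, p, q, hp, hq, rfl⟩ | ⟨i, _, rfl⟩)
    · exact ⟨i, by rw [h.2.2.1 i p hp, h.2.2.1 _ q hq]⟩
    · exact ⟨i, rfl⟩

theorem gl_prod (c : Fin 6 → Option V) (pos : Fin 6) (hpos : c pos = none) (N : ℕ) :
    ∏ j : Fin 6, (if c j = none ∧ j ≠ pos then N else 1) = N ^ (unk c - 1) := by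
  rw [Finset.prod_ite, prod_const, prod_const_one, mul_one]
  congr 1
  have h : (univ.filter (fun j : Fin 6 => c j = none ∧ j ≠ pos)) =
      (univ.filter (fun j : Fin 6 => c j = none)).erase pos := by
    ext j
    simp only [mem_filter, mem_univ, true_and, mem_erase]
    tauto
  rw [h, card_erase_of_mem (by simpa using hpos)]
  rfl

/-- completions with a restricted value at one unknown position -/
theorem gl_count [Fintype V] {S : Finset V} {H : Finset (Sym2 V)} {c : Fin 6 → Option V}
    {pos : Fin 6} (hpos : c pos = none) (a0 : V) (F : Finset (Fin 6 → V))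
    (hF : F ⊆ compl6 S H c) (B : (Fin 6 → V) → Finset V) (b : ℕ)
    (hB : ∀ v, (B v).card ≤ b) (hBu : ∀ v, B (Function.update v pos a0) = B v)
    (hFB : ∀ v ∈ F, v pos ∈ B v) : F.card ≤ b * S.card ^ (unk c - 1) := by
  have h1 : F.card ≤ b * (F.image (fun v => Function.update v pos a0)).card := by
    apply Finset.card_le_mul_card_image
    intro a ha
    refine le_trans (Finset.card_le_card_of_injOn (fun v => v pos) (t := B a) ?_ ?_) (hB a)
    · intro v hv
      have hv' := mem_filter.1 (mem_coe.1 hv)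
      have h3 := hFB v hv'.1
      rw [← hBu, hv'.2] at h3
      exact mem_coe.2 h3
    · intro v hv v' hv' hvv
      have hv1 := mem_filter.1 (mem_coe.1 hv)
      have hv2 := mem_filter.1 (mem_coe.1 hv')
      funext j
      by_cases hj : j = pos
      · rw [hj]; exact hvv
      · have h3 := congrFun (hv1.2.trans hv2.2.symm) j
        rwa [Function.update_of_ne hj, Function.update_of_ne hj] at h3
  have h2 : (F.image (fun v => Function.update v pos a0)).card ≤ S.card ^ (unk c - 1) := by
    set T : Fin 6 → Finset V := fun j => if j = pos then {a0} else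
      (c j).elim S (fun p => {p}) with hT
    have hsub : F.image (fun v => Function.update v pos a0) ⊆ Fintype.piFinset T := by
      intro u hu
      obtain ⟨v, hv, rfl⟩ := mem_image.1 hu
      rw [Fintype.mem_piFinset]
      have hc := mem_compl6.1 (hF hv)
      intro j
      rw [hT]
      by_cases hj : j = pos
      · subst hj
        simp
      · simp only [if_neg hj, Function.update_of_ne hj]
        cases hcj : c j with
        | none => simpa using hc.2.1 j hcj
        | some p => simpa using hc.2.2.1 j p hcj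
    refine (card_le_card hsub).trans ?_
    rw [Fintype.card_piFinset, ← gl_prod c pos hpos]
    apply le_of_eq
    apply prod_congr rfl
    intro j _
    rw [hT]
    by_cases hj : j = pos
    · simp [hj]
    · simp only [if_neg hj]
      cases hcj : c j with
      | none => simp [hj]
      | some p => simp
  calc F.card ≤ b * (F.image (fun v => Function.update v pos a0)).card := h1
    _ ≤ b * S.card ^ (unk c - 1) := Nat.mul_le_mul_left _ h2

theorem gl_deg_cyc {v : Fin 6 → V} (hv : Function.Injective v) (p : V) : deg (cyc v) p ≤ 2 := by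
  by_cases hx : ∃ i, v i = p
  · obtain ⟨i, rfl⟩ := hx
    rw [deg_cyc_mem hv]
  · rw [deg_cyc_notMem (fun i hi => hx ⟨i, hi⟩)]
    omega

theorem gl_fin6 : ∀ i : Fin 6, i + 1 + 5 = i := by decide

theorem gl_deg_new {S : Finset V} {H : Finset (Sym2 V)} {c : Fin 6 → Option V} {v : Fin 6 → V}
    (h : Completes S H c v) (p : V) :
    deg (gl_new c v) p ≤ 2 * ((if IsPort c p then 1 else 0) +
      (univ.filter (fun i : Fin 6 => c i = none ∧ v i = p)).card) := by
  by_cases h0 : ∃ e ∈ gl_new c v, p ∈ e
  · have h1 : deg (gl_new c v) p ≤ 2 := by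
      refine le_trans (deg_mono ?_ p) (gl_deg_cyc h.1 p)
      rw [gl_cyc h]
      exact subset_union_right
    obtain ⟨e, he, hpe⟩ := h0
    obtain ⟨i, hi, rfl⟩ := gl_mem_new.1 he
    rw [Sym2.mem_iff] at hpe
    have key : IsPort c p ∨ ∃ j : Fin 6, c j = none ∧ v j = p := by
      rcases hpe with hp | hp
      · cases hc : c i with
        | none => exact Or.inr ⟨i, hc, hp.symm⟩
        | some p' =>
          left
          have h2 := h.2.2.1 i p' hc
          rw [hc] at hi
          refine ⟨i, ?_, Or.inl (by simpa using hi)⟩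
          rw [hc, hp, h2]
      · cases hc : c (i + 1) with
        | none => exact Or.inr ⟨i + 1, hc, hp.symm⟩
        | some p' =>
          left
          have h2 := h.2.2.1 (i + 1) p' hc
          rw [hc] at hi
          refine ⟨i + 1, ?_, Or.inr ?_⟩
          · rw [hc, hp, h2]
          · rw [gl_fin6]
            simpa using hi
    have h3 : 1 ≤ (if IsPort c p then 1 else 0) +
      (univ.filter (fun i : Fin 6 => c i = none ∧ v i = p)).card := by
      rcases key with hk | ⟨j, hj⟩
      · rw [if_pos hk]; omega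
      · have : 0 < (univ.filter (fun i : Fin 6 => c i = none ∧ v i = p)).card :=
          card_pos.2 ⟨j, by simpa using hj⟩
        omega
    omega
  · have h1 : deg (gl_new c v) p = 0 := by
      unfold deg
      rw [card_eq_zero, filter_eq_empty_iff]
      intro e he hp
      exact h0 ⟨e, he, hp⟩
    omega

theorem gl_deg_biUnion (J : Finset ι) (f : ι → Finset (Sym2 V)) (p : V) :
    deg (J.biUnion f) p ≤ ∑ j ∈ J, deg (f j) p := by
  induction J using Finset.induction_on with
  | empty => simp
  | @insert a J ha ih =>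
    rw [biUnion_insert, sum_insert ha]
    exact (deg_union_le _ _ p).trans (Nat.add_le_add_left ih _)

theorem gl_deg_used {S : Finset V} {H : Finset (Sym2 V)} (J : Finset ι)
    (c : ι → Fin 6 → Option V) (w : ι → Fin 6 → V) (hw : ∀ j ∈ J, Completes S H (c j) (w j))
    (e q : ℕ) (p : V) (he : (J.filter (fun j => IsPort (c j) p)).card ≤ e)
    (hq : ∑ j ∈ J, (univ.filter (fun i : Fin 6 => c j i = none ∧ w j i = p)).card ≤ q) :
    deg (J.biUnion (fun j => gl_new (c j) (w j))) p ≤ 2 * (e + q) := by
  calc deg (J.biUnion (fun j => gl_new (c j) (w j))) p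
      ≤ ∑ j ∈ J, deg (gl_new (c j) (w j)) p := gl_deg_biUnion _ _ _
    _ ≤ ∑ j ∈ J, 2 * ((if IsPort (c j) p then 1 else 0) +
      (univ.filter (fun i : Fin 6 => c j i = none ∧ w j i = p)).card) :=
        sum_le_sum (fun j hj => gl_deg_new (hw j hj) p)
    _ = 2 * ((J.filter (fun j => IsPort (c j) p)).card +
      ∑ j ∈ J, (univ.filter (fun i : Fin 6 => c j i = none ∧ w j i = p)).card) := by
        rw [← mul_sum, sum_add_distrib, card_filter]
    _ ≤ 2 * (e + q) := by omega

/-- the number of exhausted vertices -/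
theorem gl_exhausted [Fintype V] (J : Finset ι) (c : ι → Fin 6 → Option V)
    (w : ι → Fin 6 → V) (q : ℕ) :
    q * (univ.filter (fun p : V => q ≤ ∑ j ∈ J,
      (univ.filter (fun i : Fin 6 => c j i = none ∧ w j i = p)).card)).card ≤ 6 * J.card := by
  set X := univ.filter (fun p : V => q ≤ ∑ j ∈ J,
      (univ.filter (fun i : Fin 6 => c j i = none ∧ w j i = p)).card) with hX
  have h1 : q * X.card ≤ ∑ p ∈ X, ∑ j ∈ J,
      (univ.filter (fun i : Fin 6 => c j i = none ∧ w j i = p)).card := by
    rw [mul_comm, ← smul_eq_mul, ← sum_const]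
    apply sum_le_sum
    intro p hp
    exact (mem_filter.1 hp).2
  have h2 : ∑ p ∈ X, ∑ j ∈ J,
      (univ.filter (fun i : Fin 6 => c j i = none ∧ w j i = p)).card ≤ 6 * J.card := by
    rw [sum_comm, mul_comm, ← smul_eq_mul, ← sum_const]
    apply sum_le_sum
    intro j _
    calc ∑ p ∈ X, (univ.filter (fun i : Fin 6 => c j i = none ∧ w j i = p)).card
        ≤ ∑ p : V, (univ.filter (fun i : Fin 6 => c j i = none ∧ w j i = p)).card :=
          sum_le_sum_of_subset (subset_univ _)
      _ ≤ ∑ p : V, (univ.filter (fun i : Fin 6 => w j i = p)).card := by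
          apply sum_le_sum
          intro p _
          apply card_le_card
          intro i hi
          simp only [mem_filter, mem_univ, true_and] at hi ⊢
          exact hi.2
      _ = (univ : Finset (Fin 6)).card :=
          (card_eq_sum_card_fiberwise (fun i _ => mem_coe.2 (mem_univ (w j i)))).symm
      _ = 6 := by simp
  omega

/-- one greedy step -/
theorem gl_step [Fintype V] {S : Finset V} {H U : Finset (Sym2 V)} {c : Fin 6 → Option V}
    {X : Finset V} {a0 : V} {d : ℕ} (hU : ∀ p, deg U p ≤ d)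
    (hbig : (6 * X.card + 6 * d) * S.card ^ (unk c - 1) < (compl6 S H c).card) :
    ∃ v, Completes S H c v ∧ (∀ i, c i = none → v i ∉ X) ∧ Disjoint (gl_new c v) U := by
  by_contra hcon
  push Not at hcon
  -- every completion is bad
  have hcov : compl6 S H c ⊆
      (univ.filter (fun i : Fin 6 => c i = none)).biUnion
        (fun i => (compl6 S H c).filter (fun v => v i ∈ X)) ∪
      (univ.filter (fun i : Fin 6 => c i = none ∨ c (i + 1) = none)).biUnion
        (fun i => (compl6 S H c).filter (fun v => s(v i, v (i + 1)) ∈ U)) := by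
    intro v hv
    rw [mem_union]
    by_cases h1 : ∀ i, c i = none → v i ∉ X
    · right
      have h2 := hcon v (mem_compl6.1 hv) h1
      rw [not_disjoint_iff] at h2
      obtain ⟨e, he, heU⟩ := h2
      obtain ⟨i, hi, rfl⟩ := gl_mem_new.1 he
      rw [mem_biUnion]
      exact ⟨i, by simpa using hi, mem_filter.2 ⟨hv, heU⟩⟩
    · left
      push Not at h1
      obtain ⟨i, hi, hX⟩ := h1
      rw [mem_biUnion]
      exact ⟨i, by simpa using hi, mem_filter.2 ⟨hv, hX⟩⟩
  have hnb : ∀ x : V, ((univ : Finset V).filter (fun y => s(x, y) ∈ U)).card ≤ d := by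
    intro x
    refine le_trans ?_ (hU x)
    exact dg_le_deg U univ x
  have hA : ((univ.filter (fun i : Fin 6 => c i = none)).biUnion
      (fun i => (compl6 S H c).filter (fun v => v i ∈ X))).card ≤
      6 * (X.card * S.card ^ (unk c - 1)) := by
    refine card_biUnion_le.trans ?_
    calc ∑ i ∈ univ.filter (fun i : Fin 6 => c i = none),
          ((compl6 S H c).filter (fun v => v i ∈ X)).card
        ≤ ∑ _i ∈ univ.filter (fun i : Fin 6 => c i = none), X.card * S.card ^ (unk c - 1) := by
          apply sum_le_sum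
          intro i hi
          exact gl_count (pos := i) (by simpa using hi) a0 _ (filter_subset _ _) (fun _ => X)
            X.card (fun _ => le_rfl) (fun _ => rfl) (fun v hv => (mem_filter.1 hv).2)
      _ ≤ 6 * (X.card * S.card ^ (unk c - 1)) := by
          rw [sum_const, smul_eq_mul]
          apply Nat.mul_le_mul_right
          exact (card_filter_le _ _).trans (by simp)
  have hne : ∀ i : Fin 6, i ≠ i + 1 := fin6_aux2
  have hB : ((univ.filter (fun i : Fin 6 => c i = none ∨ c (i + 1) = none)).biUnion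
      (fun i => (compl6 S H c).filter (fun v => s(v i, v (i + 1)) ∈ U))).card ≤
      6 * (d * S.card ^ (unk c - 1)) := by
    refine card_biUnion_le.trans ?_
    calc ∑ i ∈ univ.filter (fun i : Fin 6 => c i = none ∨ c (i + 1) = none),
          ((compl6 S H c).filter (fun v => s(v i, v (i + 1)) ∈ U)).card
        ≤ ∑ _i ∈ univ.filter (fun i : Fin 6 => c i = none ∨ c (i + 1) = none),
          d * S.card ^ (unk c - 1) := by
          apply sum_le_sum
          intro i hi
          rw [mem_filter] at hi
          rcases hi.2 with hi | hi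
          · refine gl_count (pos := i) hi a0 _ (filter_subset _ _)
              (fun v => univ.filter (fun y => s(v (i + 1), y) ∈ U)) d (fun v => hnb _)
              (fun v => ?_) (fun v hv => ?_)
            · rw [Function.update_of_ne (hne i).symm]
            · rw [mem_filter]
              refine ⟨mem_univ _, ?_⟩
              rw [Sym2.eq_swap]
              exact (mem_filter.1 hv).2
          · refine gl_count (pos := i + 1) hi a0 _ (filter_subset _ _)
              (fun v => univ.filter (fun y => s(v i, y) ∈ U)) d (fun v => hnb _)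
              (fun v => ?_) (fun v hv => ?_)
            · rw [Function.update_of_ne (hne i)]
            · rw [mem_filter]
              exact ⟨mem_univ _, (mem_filter.1 hv).2⟩
      _ ≤ 6 * (d * S.card ^ (unk c - 1)) := by
          rw [sum_const, smul_eq_mul]
          apply Nat.mul_le_mul_right
          exact (card_filter_le _ _).trans (by simp)
  have h1 := (card_le_card hcov).trans (card_union_le _ _)
  have h2 : (6 * X.card + 6 * d) * S.card ^ (unk c - 1) =
      6 * (X.card * S.card ^ (unk c - 1)) + 6 * (d * S.card ^ (unk c - 1)) := by ring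
  omega

end GLaux

theorem gl_induct {V ι : Type} [Fintype V] [DecidableEq V] [DecidableEq ι]
    (J : Finset ι) (c : ι → Fin 6 → Option V) (S : Finset V) (H : Finset (Sym2 V))
    (h : ℝ) (e q : ℕ) (hq : 1 ≤ q)
    (hunk : ∀ j ∈ J, 1 ≤ unk (c j))
    (hrich : ∀ j ∈ J, h * (S.card : ℝ) ^ (unk (c j)) ≤ ((compl6 S H (c j)).card : ℝ))
    (hload : ∀ p, (J.filter (fun j => IsPort (c j) p)).card ≤ e)
    (hnum : 36 * (J.card : ℝ) / q + 12 * e + 12 * q < h * S.card) (a0 : V)
    (hS : 0 < S.card) (J' : Finset ι) (hJ' : J' ⊆ J) :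
    ∃ w : ι → Fin 6 → V, (∀ j ∈ J', Completes S H (c j) (w j)) ∧
      (∀ j ∈ J', ∀ j' ∈ J', j ≠ j' → Disjoint (gl_new (c j) (w j)) (gl_new (c j') (w j'))) ∧
      ∀ p, ∑ j ∈ J', (univ.filter (fun i : Fin 6 => c j i = none ∧ w j i = p)).card ≤ q := by
  induction J' using Finset.induction_on with
  | empty =>
    refine ⟨fun _ _ => a0, fun j hj => absurd hj (notMem_empty j),
      fun j hj => absurd hj (notMem_empty j), fun p => ?_⟩
    rw [sum_empty]
    omega
  | @insert a J' ha ih =>
    obtain ⟨w, hw1, hw2, hw3⟩ := ih ((subset_insert a J').trans hJ')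
    have haJ : a ∈ J := hJ' (mem_insert_self a J')
    have hJ'J : J' ⊆ J := (subset_insert a J').trans hJ'
    set U := J'.biUnion (fun j => gl_new (c j) (w j)) with hU
    set X := univ.filter (fun p : V => q ≤ ∑ j ∈ J',
      (univ.filter (fun i : Fin 6 => c j i = none ∧ w j i = p)).card) with hX
    have hdeg : ∀ p, deg U p ≤ 2 * (e + q) := by
      intro p
      apply gl_deg_used J' c w hw1 e q p _ (hw3 p)
      exact (card_le_card (filter_subset_filter _ hJ'J)).trans (hload p)
    have hXc : (X.card : ℝ) ≤ 6 * J.card / q := by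
      have h1 := gl_exhausted J' c w q
      rw [← hX] at h1
      have h2 : J'.card ≤ J.card := card_le_card hJ'J
      have hq0 : (0 : ℝ) < q := by exact_mod_cast hq
      rw [le_div_iff₀ hq0]
      have h3 : q * X.card ≤ 6 * J.card := by omega
      have h4 : (q : ℝ) * X.card ≤ 6 * J.card := by exact_mod_cast h3
      linarith
    have hbig : (6 * X.card + 6 * (2 * (e + q))) * S.card ^ (unk (c a) - 1) <
        (compl6 S H (c a)).card := by
      have h1 := hrich a haJ
      have h2 : (unk (c a)) = (unk (c a) - 1) + 1 := by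
        have := hunk a haJ
        omega
      rw [h2, pow_succ] at h1
      have hS' : (0 : ℝ) < S.card := by exact_mod_cast hS
      have h3 : (0 : ℝ) < (S.card : ℝ) ^ (unk (c a) - 1) := pow_pos hS' _
      have h4 : ((6 * X.card + 6 * (2 * (e + q)) : ℕ) : ℝ) < h * S.card := by
        push_cast
        have h5 : 36 * (J.card : ℝ) / q = 6 * (6 * J.card / q) := by ring
        rw [h5] at hnum
        linarith
      have h6 : ((6 * X.card + 6 * (2 * (e + q)) : ℕ) : ℝ) * (S.card : ℝ) ^ (unk (c a) - 1) <
          ((compl6 S H (c a)).card : ℝ) := by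
        calc ((6 * X.card + 6 * (2 * (e + q)) : ℕ) : ℝ) * (S.card : ℝ) ^ (unk (c a) - 1)
            < h * S.card * (S.card : ℝ) ^ (unk (c a) - 1) := mul_lt_mul_of_pos_right h4 h3
          _ = h * ((S.card : ℝ) ^ (unk (c a) - 1) * S.card) := by ring
          _ ≤ _ := h1
      exact_mod_cast h6
    obtain ⟨v, hv1, hv2, hv3⟩ := gl_step (a0 := a0) hdeg hbig
    refine ⟨Function.update w a v, ?_, ?_, ?_⟩
    · intro j hj
      rcases mem_insert.1 hj with rfl | hj
      · rw [Function.update_self]
        exact hv1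
      · have hja : j ≠ a := fun hEq => ha (hEq ▸ hj)
        rw [Function.update_of_ne hja]
        exact hw1 j hj
    · have hdis : ∀ j ∈ J', Disjoint (gl_new (c a) v) (gl_new (c j) (w j)) := by
        intro j hj
        exact disjoint_of_subset_right (subset_biUnion_of_mem (fun j => gl_new (c j) (w j)) hj)
          hv3
      intro j hj0 j' hj0' hne
      rcases mem_insert.1 hj0 with hj | hj
      · rcases mem_insert.1 hj0' with hj' | hj'
        · exact absurd (hj.trans hj'.symm) hne
        · rw [hj] at hne ⊢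
          rw [Function.update_self, Function.update_of_ne hne.symm]
          exact hdis j' hj'
      · rcases mem_insert.1 hj0' with hj' | hj'
        · rw [hj'] at hne ⊢
          rw [Function.update_self, Function.update_of_ne hne]
          exact (hdis j hj).symm
        · have hja : j ≠ a := fun hEq => ha (hEq ▸ hj)
          have hja' : j' ≠ a := fun hEq => ha (hEq ▸ hj')
          rw [Function.update_of_ne hja, Function.update_of_ne hja']
          exact hw2 j hj j' hj' hne
    · intro p
      rw [sum_insert ha, Function.update_self]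
      have h1 : ∑ j ∈ J', (univ.filter (fun i : Fin 6 => c j i = none ∧
          Function.update w a v j i = p)).card =
          ∑ j ∈ J', (univ.filter (fun i : Fin 6 => c j i = none ∧ w j i = p)).card := by
        apply sum_congr rfl
        intro j hj
        have hja : j ≠ a := fun hEq => ha (hEq ▸ hj)
        rw [Function.update_of_ne hja]
      rw [h1]
      have h2 : (univ.filter (fun i : Fin 6 => c a i = none ∧ v i = p)).card ≤ 1 := by
        rw [card_le_one]
        intro i hi i' hi'
        simp only [mem_filter, mem_univ, true_and] at hi hi'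
        exact hv1.1 (hi.2.trans hi'.2.symm)
      by_cases hp : p ∈ X
      · have h3 : (univ.filter (fun i : Fin 6 => c a i = none ∧ v i = p)).card = 0 := by
          rw [card_eq_zero, filter_eq_empty_iff]
          rintro i _ ⟨hi1, hi2⟩
          exact hv2 i hi1 (hi2 ▸ hp)
        have h4 := hw3 p
        omega
      · have h3 : ∑ j ∈ J', (univ.filter (fun i : Fin 6 => c j i = none ∧ w j i = p)).card < q := by
          by_contra hcon
          exact hp (mem_filter.2 ⟨mem_univ _, not_lt.1 hcon⟩)
        omega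

theorem greedy_complete {V ι : Type} [Fintype V] [DecidableEq V] [DecidableEq ι]
    (J : Finset ι) (c : ι → Fin 6 → Option V) (S : Finset V) (H : Finset (Sym2 V))
    (h : ℝ) (e q : ℕ) (hq : 1 ≤ q)
    (hunk : ∀ j ∈ J, 1 ≤ unk (c j))
    (hrich : ∀ j ∈ J, h * (S.card : ℝ) ^ (unk (c j)) ≤ ((compl6 S H (c j)).card : ℝ))
    (hload : ∀ p, (J.filter (fun j => IsPort (c j) p)).card ≤ e)
    (hnum : 36 * (J.card : ℝ) / q + 12 * e + 12 * q < h * S.card)
    (hfix : ∀ j ∈ J, ∀ j' ∈ J, j ≠ j' → Disjoint (fixE (c j)) (fixE (c j')))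
    (hfixH : ∀ j ∈ J, Disjoint (fixE (c j)) H) :
    ∃ D : Finset (Sym2 V), Dec D ∧ (∀ j ∈ J, fixE (c j) ⊆ D) ∧
      D ⊆ H ∪ J.biUnion (fun j => fixE (c j)) ∧ ∀ p, deg (D ∩ H) p ≤ 2 * (e + q) := by
  have hS : 0 < S.card := by
    rcases Nat.eq_zero_or_pos S.card with h0 | h0
    · exfalso
      rw [h0, Nat.cast_zero, mul_zero] at hnum
      have h1 : (0 : ℝ) ≤ 36 * (J.card : ℝ) / q + 12 * e + 12 * q := by positivity
      linarith
    · exact h0
  obtain ⟨a0, _⟩ := card_pos.1 hS
  obtain ⟨w, hw1, hw2, hw3⟩ := gl_induct J c S H h e q hq hunk hrich hload hnum a0 hS J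
    (Subset.refl J)
  refine ⟨J.biUnion (fun j => cyc (w j)), ?_, ?_, ?_, ?_⟩
  · apply Dec.biUnion
    · intro j hj
      exact IsC6.dec ⟨w j, (hw1 j hj).1, rfl⟩
    · intro j hj j' hj' hne
      rw [gl_cyc (hw1 j hj), gl_cyc (hw1 j' hj'), disjoint_union_left, disjoint_union_right,
        disjoint_union_right]
      exact ⟨⟨hfix j hj j' hj' hne,
        disjoint_of_subset_right (gl_new_subset (hw1 j' hj')) (hfixH j hj)⟩,
        (disjoint_of_subset_right (gl_new_subset (hw1 j hj)) (hfixH j' hj')).symm,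
        hw2 j hj j' hj' hne⟩
  · intro j hj
    refine Subset.trans ?_ (subset_biUnion_of_mem (fun j => cyc (w j)) hj)
    rw [gl_cyc (hw1 j hj)]
    exact subset_union_left
  · intro x hx
    obtain ⟨j, hj, hxj⟩ := mem_biUnion.1 hx
    rw [gl_cyc (hw1 j hj), mem_union] at hxj
    rw [mem_union]
    rcases hxj with hxj | hxj
    · right
      exact mem_biUnion.2 ⟨j, hj, hxj⟩
    · left
      exact gl_new_subset (hw1 j hj) hxj
  · intro p
    refine le_trans (deg_mono ?_ p) (gl_deg_used J c w hw1 e q p (hload p) (hw3 p))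
    intro x hx
    obtain ⟨hx1, hx2⟩ := mem_inter.1 hx
    obtain ⟨j, hj, hxj⟩ := mem_biUnion.1 hx1
    rw [gl_cyc (hw1 j hj), mem_union] at hxj
    rw [mem_biUnion]
    rcases hxj with hxj | hxj
    · exact absurd hx2 (disjoint_left.1 (hfixH j hj) hxj)
    · exact ⟨j, hj, hxj⟩

end H15C6
end S_GL

section S_RICH1
/-!
Module RICH1 (part of RICH).  (1) the number of completions of the three types of partial cycles in terms of
walk counts; (2) walk counts after deletion of a set of edges of small maximum degree.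

(1) A walk count minus the degenerate walks.  For `cA u v w` (positions `0,1,2 = u,v,w`, unknown
`3,4,5`): the walk `w, v3, v4, v5, u`, i.e. `(v5, v4, v3)` is counted by `P4 H S u w`.
Non-injective ones: loopless gives consecutive vertices distinct; the others are
`v3 = v5`, `v3 ∈ {u, v}`, `v4 ∈ {u, v, w}`, `v5 ∈ {v, w}`: at most `8 |S|^2` walks.
For `cB x p q y`: unknown `4, 5`: walk `y, v4, v5, x`, counted by `P3 H S y x`; degenerate ones
at most `6 |S|` (`v4 ∈ {x,p,q}`, `v5 ∈ {p,q,y}`).
For `cC p q p' q'`: unknown `2` (between `q` and `p'`) and `5` (between `q'` and `p`); degenerate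
ones: `v2 = v5`, `v2 ∈ {p, q'}`, `v5 ∈ {q, p'}`: at most `5 |S|`.
(2) A walk lost by deleting `Rm` uses an edge of `Rm` in one of its 4 (3, 2) places; for each
place there are at most `d * |S|^2` (`d * |S|`, `d`) such walks (fix all but one vertex).
-/

open Finset

namespace H15C6

variable {V : Type} [Fintype V] [DecidableEq V]

theorem rich1_inj6 {a b c d e f : V} (hab : a ≠ b) (hac : a ≠ c) (had : a ≠ d) (hae : a ≠ e)
    (haf : a ≠ f) (hbc : b ≠ c) (hbd : b ≠ d) (hbe : b ≠ e) (hbf : b ≠ f) (hcd : c ≠ d)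
    (hce : c ≠ e) (hcf : c ≠ f) (hde : d ≠ e) (hdf : d ≠ f) (hef : e ≠ f) :
    Function.Injective (![a, b, c, d, e, f] : Fin 6 → V) := by
  intro i j h
  fin_cases i <;> fin_cases j <;>
    first
    | rfl
    | exact absurd h hab
    | exact absurd h hac
    | exact absurd h had
    | exact absurd h hae
    | exact absurd h haf
    | exact absurd h hbc
    | exact absurd h hbd
    | exact absurd h hbe
    | exact absurd h hbf
    | exact absurd h hcd
    | exact absurd h hce
    | exact absurd h hcf
    | exact absurd h hde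
    | exact absurd h hdf
    | exact absurd h hef
    | exact absurd h.symm hab
    | exact absurd h.symm hac
    | exact absurd h.symm had
    | exact absurd h.symm hae
    | exact absurd h.symm haf
    | exact absurd h.symm hbc
    | exact absurd h.symm hbd
    | exact absurd h.symm hbe
    | exact absurd h.symm hbf
    | exact absurd h.symm hcd
    | exact absurd h.symm hce
    | exact absurd h.symm hcf
    | exact absurd h.symm hde
    | exact absurd h.symm hdf
    | exact absurd h.symm hef

/-- filter of a triple product on which `f` is injective with values in `S × S` -/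
theorem rich1_slice {S : Finset V} (p : V × V × V → Prop) [DecidablePred p]
    (f : V × V × V → V × V) (hf : ∀ t, t ∈ S ×ˢ S ×ˢ S → f t ∈ S ×ˢ S)
    (hinj : ∀ t t', p t → p t' → f t = f t' → t = t') :
    ((S ×ˢ S ×ˢ S).filter p).card ≤ S.card ^ 2 := by
  have h : ((S ×ˢ S ×ˢ S).filter p).card ≤ (S ×ˢ S).card := by
    apply Finset.card_le_card_of_injOn f
    · intro t ht
      exact Finset.mem_coe.2 (hf t (Finset.mem_filter.1 (Finset.mem_coe.1 ht)).1)
    · intro t ht t' ht' h
      exact hinj t t' (Finset.mem_filter.1 (Finset.mem_coe.1 ht)).2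
        (Finset.mem_filter.1 (Finset.mem_coe.1 ht')).2 h
  rw [Finset.card_product] at h
  rw [sq]
  exact h

theorem rich1_slice2 {S : Finset V} (p : V × V → Prop) [DecidablePred p]
    (f : V × V → V) (hf : ∀ t, t ∈ S ×ˢ S → f t ∈ S)
    (hinj : ∀ t t', p t → p t' → f t = f t' → t = t') :
    ((S ×ˢ S).filter p).card ≤ S.card := by
  apply Finset.card_le_card_of_injOn f
  · intro t ht
    exact Finset.mem_coe.2 (hf t (Finset.mem_filter.1 (Finset.mem_coe.1 ht)).1)
  · intro t ht t' ht' h
    exact hinj t t' (Finset.mem_filter.1 (Finset.mem_coe.1 ht)).2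
      (Finset.mem_filter.1 (Finset.mem_coe.1 ht')).2 h

theorem rich1_sum_le {ι α : Type} [DecidableEq α] (J : Finset ι) (f : ι → Finset α) {k : ℕ}
    (h : ∀ j ∈ J, (f j).card ≤ k) : (J.biUnion f).card ≤ J.card * k := by
  refine Finset.card_biUnion_le.trans ?_
  have := Finset.sum_le_card_nsmul J (fun j => (f j).card) k h
  simpa using this

theorem rich_cA {S : Finset V} {H : Finset (Sym2 V)} (hH : Loopless H) {u v w : V}
    (huv : u ≠ v) (hvw : v ≠ w) (huw : u ≠ w) :
    P4 H S u w ≤ (compl6 S H (cA u v w)).card + 8 * S.card ^ 2 := by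
  set T := S ×ˢ S ×ˢ S with hT
  set good := (T.filter (fun t => (s(u, t.1) ∈ H ∧ s(t.1, t.2.1) ∈ H ∧
    s(t.2.1, t.2.2) ∈ H ∧ s(t.2.2, w) ∈ H) ∧ t.1 ≠ v ∧ t.1 ≠ w ∧ t.2.1 ≠ u ∧ t.2.1 ≠ v ∧
      t.2.1 ≠ w ∧ t.2.2 ≠ u ∧ t.2.2 ≠ v ∧ t.1 ≠ t.2.2)) with hgood
  have hsub : (T.filter (fun t => s(u, t.1) ∈ H ∧ s(t.1, t.2.1) ∈ H ∧
    s(t.2.1, t.2.2) ∈ H ∧ s(t.2.2, w) ∈ H)) ⊆ good ∪ (T.filter (fun t => t.1 = v) ∪
      (T.filter (fun t => t.1 = w) ∪ (T.filter (fun t => t.2.1 = u) ∪
      (T.filter (fun t => t.2.1 = v) ∪ (T.filter (fun t => t.2.1 = w) ∪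
      (T.filter (fun t => t.2.2 = u) ∪ (T.filter (fun t => t.2.2 = v) ∪
      T.filter (fun t => t.1 = t.2.2)))))))) := by
    intro t ht
    simp only [hgood, Finset.mem_union, Finset.mem_filter] at ht ⊢
    tauto
  have hc := Finset.card_le_card hsub
  have h1 : (T.filter (fun t => t.1 = v)).card ≤ S.card ^ 2 := by
    apply rich1_slice _ (fun t => (t.2.1, t.2.2))
    · intro t ht
      simp only [Finset.mem_product] at ht ⊢
      exact ⟨ht.2.1, ht.2.2⟩
    · rintro ⟨a, b, c⟩ ⟨a', b', c'⟩ h h' he
      simp_all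
  have h2 : (T.filter (fun t => t.1 = w)).card ≤ S.card ^ 2 := by
    apply rich1_slice _ (fun t => (t.2.1, t.2.2))
    · intro t ht
      simp only [Finset.mem_product] at ht ⊢
      exact ⟨ht.2.1, ht.2.2⟩
    · rintro ⟨a, b, c⟩ ⟨a', b', c'⟩ h h' he
      simp_all
  have h3 : ∀ z : V, (T.filter (fun t => t.2.1 = z)).card ≤ S.card ^ 2 := by
    intro z
    apply rich1_slice _ (fun t => (t.1, t.2.2))
    · intro t ht
      simp only [Finset.mem_product] at ht ⊢
      exact ⟨ht.1, ht.2.2⟩
    · rintro ⟨a, b, c⟩ ⟨a', b', c'⟩ h h' he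
      simp_all
  have h4 : ∀ z : V, (T.filter (fun t => t.2.2 = z)).card ≤ S.card ^ 2 := by
    intro z
    apply rich1_slice _ (fun t => (t.1, t.2.1))
    · intro t ht
      simp only [Finset.mem_product] at ht ⊢
      exact ⟨ht.1, ht.2.1⟩
    · rintro ⟨a, b, c⟩ ⟨a', b', c'⟩ h h' he
      simp_all
  have h5 : (T.filter (fun t => t.1 = t.2.2)).card ≤ S.card ^ 2 := by
    apply rich1_slice _ (fun t => (t.1, t.2.1))
    · intro t ht
      simp only [Finset.mem_product] at ht ⊢
      exact ⟨ht.1, ht.2.1⟩
    · rintro ⟨a, b, c⟩ ⟨a', b', c'⟩ h h' he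
      simp_all
  have hg : good.card ≤ (compl6 S H (cA u v w)).card := by
    apply Finset.card_le_card_of_injOn (fun t => (![u, v, w, t.2.2, t.2.1, t.1] : Fin 6 → V))
    · intro t ht
      have ht' := Finset.mem_coe.1 ht
      simp only [hgood, hT, Finset.mem_filter, Finset.mem_product] at ht'
      obtain ⟨⟨m1, m2, m3⟩, ⟨e1, e2, e3, e4⟩, n1, n2, n3, n4, n5, n6, n7, n8⟩ := ht'
      have k1 := hH.ne e1
      have k2 := hH.ne e2
      have k3 := hH.ne e3
      have k4 := hH.ne e4
      apply Finset.mem_coe.2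
      rw [mem_compl6]
      refine ⟨rich1_inj6 huv huw n6.symm n3.symm k1 hvw n7.symm n4.symm n1.symm k4.symm
        n5.symm n2.symm k3.symm n8.symm k2.symm, ?_, ?_, ?_⟩
      · intro i hi
        fin_cases i
        · simp [cA] at hi
        · simp [cA] at hi
        · simp [cA] at hi
        · exact m3
        · exact m2
        · exact m1
      · intro i p hi
        fin_cases i
        · exact Option.some.inj hi
        · exact Option.some.inj hi
        · exact Option.some.inj hi
        · simp [cA] at hi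
        · simp [cA] at hi
        · simp [cA] at hi
      · intro i hi
        fin_cases i
        · simp [cA] at hi
        · simp [cA] at hi
        · show s(w, t.2.2) ∈ H
          rw [Sym2.eq_swap]; exact e4
        · show s(t.2.2, t.2.1) ∈ H
          rw [Sym2.eq_swap]; exact e3
        · show s(t.2.1, t.1) ∈ H
          rw [Sym2.eq_swap]; exact e2
        · show s(t.1, u) ∈ H
          rw [Sym2.eq_swap]; exact e1
    · rintro ⟨a, b, c⟩ _ ⟨a', b', c'⟩ _ he
      have q3 : c = c' := congrFun he 3
      have q4 : b = b' := congrFun he 4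
      have q5 : a = a' := congrFun he 5
      rw [q3, q4, q5]
  have hP : P4 H S u w = (T.filter (fun t => s(u, t.1) ∈ H ∧ s(t.1, t.2.1) ∈ H ∧
    s(t.2.1, t.2.2) ∈ H ∧ s(t.2.2, w) ∈ H)).card := rfl
  rw [hP]
  refine hc.trans ?_
  refine (Finset.card_union_le _ _).trans ?_
  have hb : (T.filter (fun t => t.1 = v) ∪
      (T.filter (fun t => t.1 = w) ∪ (T.filter (fun t => t.2.1 = u) ∪
      (T.filter (fun t => t.2.1 = v) ∪ (T.filter (fun t => t.2.1 = w) ∪
      (T.filter (fun t => t.2.2 = u) ∪ (T.filter (fun t => t.2.2 = v) ∪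
      T.filter (fun t => t.1 = t.2.2)))))))).card ≤ 8 * S.card ^ 2 := by
    refine (Finset.card_union_le _ _).trans ?_
    refine (Nat.add_le_add_left (Finset.card_union_le _ _) _).trans ?_
    refine (Nat.add_le_add_left (Nat.add_le_add_left (Finset.card_union_le _ _) _) _).trans ?_
    refine (Nat.add_le_add_left (Nat.add_le_add_left (Nat.add_le_add_left
      (Finset.card_union_le _ _) _) _) _).trans ?_
    refine (Nat.add_le_add_left (Nat.add_le_add_left (Nat.add_le_add_left (Nat.add_le_add_left
      (Finset.card_union_le _ _) _) _) _) _).trans ?_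
    refine (Nat.add_le_add_left (Nat.add_le_add_left (Nat.add_le_add_left (Nat.add_le_add_left
      (Nat.add_le_add_left (Finset.card_union_le _ _) _) _) _) _) _).trans ?_
    refine (Nat.add_le_add_left (Nat.add_le_add_left (Nat.add_le_add_left (Nat.add_le_add_left
      (Nat.add_le_add_left (Nat.add_le_add_left (Finset.card_union_le _ _) _) _) _) _) _) _).trans ?_
    have a3 := h3 u
    have a4 := h3 v
    have a5 := h3 w
    have a6 := h4 u
    have a7 := h4 v
    omega
  omega

theorem rich_cB {S : Finset V} {H : Finset (Sym2 V)} (hH : Loopless H) {x p q y : V}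
    (hxp : x ≠ p) (hxq : x ≠ q) (hxy : x ≠ y) (hpq : p ≠ q) (hpy : p ≠ y) (hqy : q ≠ y) :
    P3 H S y x ≤ (compl6 S H (cB x p q y)).card + 6 * S.card := by
  set T := S ×ˢ S with hT
  set good := (T.filter (fun t => (s(y, t.1) ∈ H ∧ s(t.1, t.2) ∈ H ∧ s(t.2, x) ∈ H) ∧
    t.1 ≠ x ∧ t.1 ≠ p ∧ t.1 ≠ q ∧ t.2 ≠ p ∧ t.2 ≠ q ∧ t.2 ≠ y)) with hgood
  have hsub : (T.filter (fun t => s(y, t.1) ∈ H ∧ s(t.1, t.2) ∈ H ∧ s(t.2, x) ∈ H)) ⊆
      good ∪ (T.filter (fun t => t.1 = x) ∪ (T.filter (fun t => t.1 = p) ∪
      (T.filter (fun t => t.1 = q) ∪ (T.filter (fun t => t.2 = p) ∪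
      (T.filter (fun t => t.2 = q) ∪ T.filter (fun t => t.2 = y)))))) := by
    intro t ht
    simp only [hgood, Finset.mem_union, Finset.mem_filter] at ht ⊢
    tauto
  have hc := Finset.card_le_card hsub
  have h1 : ∀ z : V, (T.filter (fun t => t.1 = z)).card ≤ S.card := by
    intro z
    apply rich1_slice2 _ (fun t => t.2)
    · intro t ht
      exact (Finset.mem_product.1 ht).2
    · rintro ⟨a, b⟩ ⟨a', b'⟩ h h' he
      simp_all
  have h2 : ∀ z : V, (T.filter (fun t => t.2 = z)).card ≤ S.card := by
    intro z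
    apply rich1_slice2 _ (fun t => t.1)
    · intro t ht
      exact (Finset.mem_product.1 ht).1
    · rintro ⟨a, b⟩ ⟨a', b'⟩ h h' he
      simp_all
  have hg : good.card ≤ (compl6 S H (cB x p q y)).card := by
    apply Finset.card_le_card_of_injOn (fun t => (![x, p, q, y, t.1, t.2] : Fin 6 → V))
    · intro t ht
      have ht' := Finset.mem_coe.1 ht
      simp only [hgood, hT, Finset.mem_filter, Finset.mem_product] at ht'
      obtain ⟨⟨m1, m2⟩, ⟨e1, e2, e3⟩, n1, n2, n3, n4, n5, n6⟩ := ht'
      have k1 := hH.ne e1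
      have k2 := hH.ne e2
      have k3 := hH.ne e3
      apply Finset.mem_coe.2
      rw [mem_compl6]
      refine ⟨rich1_inj6 hxp hxq hxy n1.symm k3.symm hpq hpy n2.symm n4.symm hqy
        n3.symm n5.symm k1 n6.symm k2, ?_, ?_, ?_⟩
      · intro i hi
        fin_cases i
        · simp [cB] at hi
        · simp [cB] at hi
        · simp [cB] at hi
        · simp [cB] at hi
        · exact m1
        · exact m2
      · intro i z hi
        fin_cases i
        · exact Option.some.inj hi
        · exact Option.some.inj hi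
        · exact Option.some.inj hi
        · exact Option.some.inj hi
        · simp [cB] at hi
        · simp [cB] at hi
      · intro i hi
        fin_cases i
        · simp [cB] at hi
        · simp [cB] at hi
        · simp [cB] at hi
        · exact e1
        · exact e2
        · exact e3
    · rintro ⟨a, b⟩ _ ⟨a', b'⟩ _ he
      have q3 : a = a' := congrFun he 4
      have q4 : b = b' := congrFun he 5
      rw [q3, q4]
  have hP : P3 H S y x = (T.filter (fun t => s(y, t.1) ∈ H ∧ s(t.1, t.2) ∈ H ∧
    s(t.2, x) ∈ H)).card := rfl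
  rw [hP]
  refine hc.trans ?_
  refine (Finset.card_union_le _ _).trans ?_
  have hb : (T.filter (fun t => t.1 = x) ∪ (T.filter (fun t => t.1 = p) ∪
      (T.filter (fun t => t.1 = q) ∪ (T.filter (fun t => t.2 = p) ∪
      (T.filter (fun t => t.2 = q) ∪ T.filter (fun t => t.2 = y)))))).card ≤ 6 * S.card := by
    refine (Finset.card_union_le _ _).trans ?_
    refine (Nat.add_le_add_left (Finset.card_union_le _ _) _).trans ?_
    refine (Nat.add_le_add_left (Nat.add_le_add_left (Finset.card_union_le _ _) _) _).trans ?_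
    refine (Nat.add_le_add_left (Nat.add_le_add_left (Nat.add_le_add_left
      (Finset.card_union_le _ _) _) _) _).trans ?_
    refine (Nat.add_le_add_left (Nat.add_le_add_left (Nat.add_le_add_left (Nat.add_le_add_left
      (Finset.card_union_le _ _) _) _) _) _).trans ?_
    have a1 := h1 x
    have a2 := h1 p
    have a3 := h1 q
    have a4 := h2 p
    have a5 := h2 q
    have a6 := h2 y
    omega
  omega

theorem rich_cC {S : Finset V} {H : Finset (Sym2 V)} (hH : Loopless H) {p q p' q' : V}
    (h1 : p ≠ q) (h2 : p ≠ p') (h3 : p ≠ q') (h4 : q ≠ p') (h5 : q ≠ q') (h6 : p' ≠ q') :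
    cn H S q p' * cn H S q' p ≤ (compl6 S H (cC p q p' q')).card + 5 * S.card := by
  set T := S ×ˢ S with hT
  set good := (T.filter (fun t => (s(q, t.1) ∈ H ∧ s(t.1, p') ∈ H ∧ s(q', t.2) ∈ H ∧
    s(t.2, p) ∈ H) ∧ t.1 ≠ p ∧ t.1 ≠ q' ∧ t.2 ≠ q ∧ t.2 ≠ p' ∧ t.1 ≠ t.2)) with hgood
  have hsub : (T.filter (fun t => s(q, t.1) ∈ H ∧ s(t.1, p') ∈ H ∧ s(q', t.2) ∈ H ∧
    s(t.2, p) ∈ H)) ⊆
      good ∪ (T.filter (fun t => t.1 = p) ∪ (T.filter (fun t => t.1 = q') ∪
      (T.filter (fun t => t.2 = q) ∪ (T.filter (fun t => t.2 = p') ∪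
      T.filter (fun t => t.1 = t.2))))) := by
    intro t ht
    simp only [hgood, Finset.mem_union, Finset.mem_filter] at ht ⊢
    tauto
  have hc := Finset.card_le_card hsub
  have b1 : ∀ z : V, (T.filter (fun t => t.1 = z)).card ≤ S.card := by
    intro z
    apply rich1_slice2 _ (fun t => t.2)
    · intro t ht
      exact (Finset.mem_product.1 ht).2
    · rintro ⟨a, b⟩ ⟨a', b'⟩ h h' he
      simp_all
  have b2 : ∀ z : V, (T.filter (fun t => t.2 = z)).card ≤ S.card := by
    intro z
    apply rich1_slice2 _ (fun t => t.1)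
    · intro t ht
      exact (Finset.mem_product.1 ht).1
    · rintro ⟨a, b⟩ ⟨a', b'⟩ h h' he
      simp_all
  have b3 : (T.filter (fun t => t.1 = t.2)).card ≤ S.card := by
    apply rich1_slice2 _ (fun t => t.1)
    · intro t ht
      exact (Finset.mem_product.1 ht).1
    · rintro ⟨a, b⟩ ⟨a', b'⟩ h h' he
      simp_all
  have hg : good.card ≤ (compl6 S H (cC p q p' q')).card := by
    apply Finset.card_le_card_of_injOn (fun t => (![p, q, t.1, p', q', t.2] : Fin 6 → V))
    · intro t ht
      have ht' := Finset.mem_coe.1 ht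
      simp only [hgood, hT, Finset.mem_filter, Finset.mem_product] at ht'
      obtain ⟨⟨m1, m2⟩, ⟨e1, e2, e3, e4⟩, n1, n2, n3, n4, n5⟩ := ht'
      have k1 := hH.ne e1
      have k2 := hH.ne e2
      have k3 := hH.ne e3
      have k4 := hH.ne e4
      apply Finset.mem_coe.2
      rw [mem_compl6]
      refine ⟨rich1_inj6 h1 n1.symm h2 h3 k4.symm k1 h4 h5 n3.symm k2 n2 n5 h6 n4.symm k3,
        ?_, ?_, ?_⟩
      · intro i hi
        fin_cases i
        · simp [cC] at hi
        · simp [cC] at hi
        · exact m1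
        · simp [cC] at hi
        · simp [cC] at hi
        · exact m2
      · intro i z hi
        fin_cases i
        · exact Option.some.inj hi
        · exact Option.some.inj hi
        · simp [cC] at hi
        · exact Option.some.inj hi
        · exact Option.some.inj hi
        · simp [cC] at hi
      · intro i hi
        fin_cases i
        · simp [cC] at hi
        · exact e1
        · exact e2
        · simp [cC] at hi
        · exact e3
        · exact e4
    · rintro ⟨a, b⟩ _ ⟨a', b'⟩ _ he
      have q3 : a = a' := congrFun he 2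
      have q4 : b = b' := congrFun he 5
      rw [q3, q4]
  have hP : cn H S q p' * cn H S q' p = (T.filter (fun t => s(q, t.1) ∈ H ∧ s(t.1, p') ∈ H ∧
      s(q', t.2) ∈ H ∧ s(t.2, p) ∈ H)).card := by
    unfold cn
    rw [← Finset.card_product]
    congr 1
    ext t
    simp only [hT, Finset.mem_product, Finset.mem_filter]
    tauto
  rw [hP]
  refine hc.trans ?_
  refine (Finset.card_union_le _ _).trans ?_
  have hb : (T.filter (fun t => t.1 = p) ∪ (T.filter (fun t => t.1 = q') ∪
      (T.filter (fun t => t.2 = q) ∪ (T.filter (fun t => t.2 = p') ∪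
      T.filter (fun t => t.1 = t.2))))).card ≤ 5 * S.card := by
    refine (Finset.card_union_le _ _).trans ?_
    refine (Nat.add_le_add_left (Finset.card_union_le _ _) _).trans ?_
    refine (Nat.add_le_add_left (Nat.add_le_add_left (Finset.card_union_le _ _) _) _).trans ?_
    refine (Nat.add_le_add_left (Nat.add_le_add_left (Nat.add_le_add_left
      (Finset.card_union_le _ _) _) _) _).trans ?_
    have a1 := b1 p
    have a2 := b1 q'
    have a3 := b2 q
    have a4 := b2 p'
    omega
  omega

end H15C6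
end S_RICH1

section S_RICH2
/-!
Module RICH2 (part of RICH).  (1) the number of completions of the three types of partial cycles in terms of
walk counts; (2) walk counts after deletion of a set of edges of small maximum degree.

(1) A walk count minus the degenerate walks.  For `cA u v w` (positions `0,1,2 = u,v,w`, unknown
`3,4,5`): the walk `w, v3, v4, v5, u`, i.e. `(v5, v4, v3)` is counted by `P4 H S u w`.
Non-injective ones: loopless gives consecutive vertices distinct; the others are
`v3 = v5`, `v3 ∈ {u, v}`, `v4 ∈ {u, v, w}`, `v5 ∈ {v, w}`: at most `8 |S|^2` walks.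
For `cB x p q y`: unknown `4, 5`: walk `y, v4, v5, x`, counted by `P3 H S y x`; degenerate ones
at most `6 |S|` (`v4 ∈ {x,p,q}`, `v5 ∈ {p,q,y}`).
For `cC p q p' q'`: unknown `2` (between `q` and `p'`) and `5` (between `q'` and `p`); degenerate
ones: `v2 = v5`, `v2 ∈ {p, q'}`, `v5 ∈ {q, p'}`: at most `5 |S|`.
(2) A walk lost by deleting `Rm` uses an edge of `Rm` in one of its 4 (3, 2) places; for each
place there are at most `d * |S|^2` (`d * |S|`, `d`) such walks (fix all but one vertex).
-/

open Finset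

namespace H15C6

variable {V : Type} [Fintype V] [DecidableEq V]

/-- indicator -/
def rich2_r (Rm : Finset (Sym2 V)) (p q : V) : ℕ := if s(p, q) ∈ Rm then 1 else 0

theorem rich2_sum {S : Finset V} {Rm : Finset (Sym2 V)} {d : ℕ} (hd : ∀ p, deg Rm p ≤ d) (p : V) :
    ∑ q ∈ S, rich2_r Rm p q ≤ d := by
  unfold rich2_r
  rw [← Finset.card_filter]
  exact (dg_le_deg Rm S p).trans (hd p)

theorem rich2_sum' {S : Finset V} {Rm : Finset (Sym2 V)} {d : ℕ} (hd : ∀ p, deg Rm p ≤ d) (p : V) :
    ∑ q ∈ S, rich2_r Rm q p ≤ d := by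
  refine le_trans (le_of_eq ?_) (rich2_sum (S := S) hd p)
  refine Finset.sum_congr rfl (fun q _ => ?_)
  unfold rich2_r
  rw [Sym2.eq_swap]

theorem P4_sdiff {S : Finset V} (H Rm : Finset (Sym2 V)) {d : ℕ} (hd : ∀ p, deg Rm p ≤ d)
    (x y : V) : P4 H S x y ≤ P4 (H \ Rm) S x y + 4 * d * S.card ^ 2 := by
  unfold P4
  rw [Finset.card_filter, Finset.card_filter]
  have hpt : ∀ t ∈ S ×ˢ S ×ˢ S, (if s(x, t.1) ∈ H ∧ s(t.1, t.2.1) ∈ H ∧
      s(t.2.1, t.2.2) ∈ H ∧ s(t.2.2, y) ∈ H then 1 else 0) ≤
      (if s(x, t.1) ∈ H \ Rm ∧ s(t.1, t.2.1) ∈ H \ Rm ∧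
      s(t.2.1, t.2.2) ∈ H \ Rm ∧ s(t.2.2, y) ∈ H \ Rm then 1 else 0) +
      ((rich2_r Rm x t.1 + rich2_r Rm t.1 t.2.1) +
      (rich2_r Rm t.2.1 t.2.2 + rich2_r Rm t.2.2 y)) := by
    intro t _
    unfold rich2_r
    by_cases h1 : s(x, t.1) ∈ Rm
    · rw [if_pos h1]
      split_ifs <;> omega
    · by_cases h2 : s(t.1, t.2.1) ∈ Rm
      · rw [if_pos h2]
        split_ifs <;> omega
      · by_cases h3 : s(t.2.1, t.2.2) ∈ Rm
        · rw [if_pos h3]
          split_ifs <;> omega
        · by_cases h4 : s(t.2.2, y) ∈ Rm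
          · rw [if_pos h4]
            split_ifs <;> omega
          · simp only [Finset.mem_sdiff, h1, h2, h3, h4, not_false_eq_true, and_true]
            omega
  refine (Finset.sum_le_sum hpt).trans ?_
  rw [Finset.sum_add_distrib]
  apply Nat.add_le_add_left
  rw [Finset.sum_add_distrib, Finset.sum_add_distrib, Finset.sum_add_distrib]
  have e1 : ∑ t ∈ S ×ˢ S ×ˢ S, rich2_r Rm x t.1 ≤ d * S.card ^ 2 := by
    rw [Finset.sum_product]
    simp only [Finset.sum_const, Finset.card_product, smul_eq_mul]
    rw [← Finset.mul_sum]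
    have := rich2_sum (S := S) hd x
    calc S.card * S.card * ∑ q ∈ S, rich2_r Rm x q ≤ S.card * S.card * d := by gcongr
      _ = d * S.card ^ 2 := by ring
  have e2 : ∑ t ∈ S ×ˢ S ×ˢ S, rich2_r Rm t.1 t.2.1 ≤ d * S.card ^ 2 := by
    rw [Finset.sum_product]
    have h1 : ∀ a ∈ S, ∑ u ∈ S ×ˢ S, rich2_r Rm a u.1 ≤ S.card * d := by
      intro a _
      rw [Finset.sum_product]
      simp only [Finset.sum_const, smul_eq_mul]
      rw [← Finset.mul_sum]
      exact Nat.mul_le_mul_left _ (rich2_sum (S := S) hd a)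
    refine (Finset.sum_le_sum h1).trans ?_
    rw [Finset.sum_const, smul_eq_mul]
    apply le_of_eq
    ring
  have e3 : ∑ t ∈ S ×ˢ S ×ˢ S, rich2_r Rm t.2.1 t.2.2 ≤ d * S.card ^ 2 := by
    rw [Finset.sum_product]
    dsimp only
    rw [Finset.sum_const, smul_eq_mul, Finset.sum_product]
    have h1 : ∀ b ∈ S, ∑ c ∈ S, rich2_r Rm b c ≤ d := fun b _ =>
      rich2_sum (S := S) hd b
    have h2 := Finset.sum_le_sum h1
    rw [Finset.sum_const, smul_eq_mul] at h2
    calc S.card * ∑ b ∈ S, ∑ c ∈ S, rich2_r Rm b c ≤ S.card * (S.card * d) := by gcongr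
      _ = d * S.card ^ 2 := by ring
  have e4 : ∑ t ∈ S ×ˢ S ×ˢ S, rich2_r Rm t.2.2 y ≤ d * S.card ^ 2 := by
    rw [Finset.sum_product]
    dsimp only
    rw [Finset.sum_const, smul_eq_mul, Finset.sum_product]
    dsimp only
    rw [Finset.sum_const, smul_eq_mul]
    calc S.card * (S.card * ∑ c ∈ S, rich2_r Rm c y) ≤ S.card * (S.card * d) := by
          gcongr
          exact rich2_sum' (S := S) hd y
      _ = d * S.card ^ 2 := by ring
  calc _ ≤ (d * S.card ^ 2 + d * S.card ^ 2) + (d * S.card ^ 2 + d * S.card ^ 2) :=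
        Nat.add_le_add (Nat.add_le_add e1 e2) (Nat.add_le_add e3 e4)
    _ = 4 * d * S.card ^ 2 := by ring

theorem P3_sdiff {S : Finset V} (H Rm : Finset (Sym2 V)) {d : ℕ} (hd : ∀ p, deg Rm p ≤ d)
    (x y : V) : P3 H S x y ≤ P3 (H \ Rm) S x y + 3 * d * S.card := by
  unfold P3
  rw [Finset.card_filter, Finset.card_filter]
  have hpt : ∀ t ∈ S ×ˢ S, (if s(x, t.1) ∈ H ∧ s(t.1, t.2) ∈ H ∧ s(t.2, y) ∈ H then 1 else 0) ≤
      (if s(x, t.1) ∈ H \ Rm ∧ s(t.1, t.2) ∈ H \ Rm ∧ s(t.2, y) ∈ H \ Rm then 1 else 0) +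
      ((rich2_r Rm x t.1 + rich2_r Rm t.1 t.2) +
      rich2_r Rm t.2 y) := by
    intro t _
    unfold rich2_r
    by_cases h1 : s(x, t.1) ∈ Rm
    · rw [if_pos h1]
      split_ifs <;> omega
    · by_cases h2 : s(t.1, t.2) ∈ Rm
      · rw [if_pos h2]
        split_ifs <;> omega
      · by_cases h4 : s(t.2, y) ∈ Rm
        · rw [if_pos h4]
          split_ifs <;> omega
        · simp only [Finset.mem_sdiff, h1, h2, h4, not_false_eq_true, and_true]
          omega
  refine (Finset.sum_le_sum hpt).trans ?_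
  rw [Finset.sum_add_distrib]
  apply Nat.add_le_add_left
  rw [Finset.sum_add_distrib, Finset.sum_add_distrib]
  have e1 : ∑ t ∈ S ×ˢ S, rich2_r Rm x t.1 ≤ d * S.card := by
    rw [Finset.sum_product]
    simp only [Finset.sum_const, smul_eq_mul]
    rw [← Finset.mul_sum, mul_comm]
    exact Nat.mul_le_mul_right _ (rich2_sum (S := S) hd x)
  have e2 : ∑ t ∈ S ×ˢ S, rich2_r Rm t.1 t.2 ≤ d * S.card := by
    rw [Finset.sum_product]
    have h1 : ∀ b ∈ S, ∑ c ∈ S, rich2_r Rm b c ≤ d := fun b _ =>
      rich2_sum (S := S) hd b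
    have h2 := Finset.sum_le_sum h1
    rw [Finset.sum_const, smul_eq_mul, mul_comm] at h2
    exact h2
  have e4 : ∑ t ∈ S ×ˢ S, rich2_r Rm t.2 y ≤ d * S.card := by
    rw [Finset.sum_product]
    dsimp only
    rw [Finset.sum_const, smul_eq_mul, mul_comm]
    exact Nat.mul_le_mul_right _ (rich2_sum' (S := S) hd y)
  calc _ ≤ (d * S.card + d * S.card) + d * S.card :=
        Nat.add_le_add (Nat.add_le_add e1 e2) e4
    _ = 3 * d * S.card := by ring

theorem cn_sdiff {S : Finset V} (H Rm : Finset (Sym2 V)) {d : ℕ} (hd : ∀ p, deg Rm p ≤ d)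
    (x y : V) : cn H S x y ≤ cn (H \ Rm) S x y + 2 * d := by
  unfold cn
  rw [Finset.card_filter, Finset.card_filter]
  have hpt : ∀ t ∈ S, (if s(x, t) ∈ H ∧ s(t, y) ∈ H then 1 else 0) ≤
      (if s(x, t) ∈ H \ Rm ∧ s(t, y) ∈ H \ Rm then 1 else 0) +
      (rich2_r Rm x t + rich2_r Rm t y) := by
    intro t _
    unfold rich2_r
    by_cases h1 : s(x, t) ∈ Rm
    · rw [if_pos h1]
      split_ifs <;> omega
    · by_cases h4 : s(t, y) ∈ Rm
      · rw [if_pos h4]
        split_ifs <;> omega
      · simp only [Finset.mem_sdiff, h1, h4, not_false_eq_true, and_true]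
        omega
  refine (Finset.sum_le_sum hpt).trans ?_
  rw [Finset.sum_add_distrib]
  apply Nat.add_le_add_left
  rw [Finset.sum_add_distrib]
  have e1 := rich2_sum (S := S) hd x
  have e2 := rich2_sum' (S := S) hd y
  omega

/-- symmetry of the walk counts -/
theorem P4_comm (H : Finset (Sym2 V)) (S : Finset V) (x y : V) : P4 H S x y = P4 H S y x := by
  unfold P4
  refine Finset.card_bij' (fun t _ => (t.2.2, t.2.1, t.1)) (fun t _ => (t.2.2, t.2.1, t.1)) ?_ ?_ ?_ ?_
  · intro t ht
    simp only [Finset.mem_filter, Finset.mem_product] at ht ⊢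
    rw [Sym2.eq_swap (a := y), Sym2.eq_swap (a := t.2.2) (b := t.2.1), Sym2.eq_swap (a := t.2.1) (b := t.1),
      Sym2.eq_swap (a := t.1) (b := x)]
    tauto
  · intro t ht
    simp only [Finset.mem_filter, Finset.mem_product] at ht ⊢
    rw [Sym2.eq_swap (a := x), Sym2.eq_swap (a := t.2.2) (b := t.2.1), Sym2.eq_swap (a := t.2.1) (b := t.1),
      Sym2.eq_swap (a := t.1) (b := y)]
    tauto
  · intro t _
    rfl
  · intro t _
    rfl

theorem P3_comm (H : Finset (Sym2 V)) (S : Finset V) (x y : V) : P3 H S x y = P3 H S y x := by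
  unfold P3
  refine Finset.card_bij' (fun t _ => (t.2, t.1)) (fun t _ => (t.2, t.1)) ?_ ?_ ?_ ?_
  · intro t ht
    simp only [Finset.mem_filter, Finset.mem_product] at ht ⊢
    rw [Sym2.eq_swap (a := y), Sym2.eq_swap (a := t.2) (b := t.1), Sym2.eq_swap (a := t.1) (b := x)]
    tauto
  · intro t ht
    simp only [Finset.mem_filter, Finset.mem_product] at ht ⊢
    rw [Sym2.eq_swap (a := x), Sym2.eq_swap (a := t.2) (b := t.1), Sym2.eq_swap (a := t.1) (b := y)]
    tauto
  · intro t _
    rfl
  · intro t _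
    rfl

theorem cn_comm (H : Finset (Sym2 V)) (S : Finset V) (x y : V) : cn H S x y = cn H S y x := by
  unfold cn
  congr 1
  ext m
  simp only [Finset.mem_filter]
  rw [Sym2.eq_swap (a := y) (b := m), Sym2.eq_swap (a := m) (b := x)]
  tauto

/-- the first step of a walk is a neighbour -/
theorem P4_le_dg (H : Finset (Sym2 V)) (S : Finset V) (x y : V) :
    P4 H S x y ≤ dg H S x * S.card ^ 2 := by
  unfold P4 dg
  have h : (S ×ˢ S ×ˢ S).filter (fun t => s(x, t.1) ∈ H ∧ s(t.1, t.2.1) ∈ H ∧
      s(t.2.1, t.2.2) ∈ H ∧ s(t.2.2, y) ∈ H) ⊆ (S.filter (fun y => s(x, y) ∈ H)) ×ˢ S ×ˢ S := by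
    intro t ht
    simp only [Finset.mem_filter, Finset.mem_product] at ht ⊢
    tauto
  refine (Finset.card_le_card h).trans (le_of_eq ?_)
  rw [Finset.card_product, Finset.card_product, sq]

end H15C6
end S_RICH2

section S_PAIR1
/-!
Module PAIR1 (part of PAIR).  Three small combinatorial lemmas.

`assign`: choose for every edge of `F` one of its end vertices as its *centre*.  If `e` meets `X`
take an end in `X`; else if `e` meets `B` take an end in `B`; else an arbitrary end.
Then `x ∉ B` is a non-centre end of at most `deg F x ≤ lam` edges, and for `x ∈ B` such an edge has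
its centre (the other end) in `B`, so there are at most `|B| ≤ lam` of them.

`cherry_pairing`: for every centre `v` pair up the edges of `F` centred at `v` arbitrarily, leaving
one over iff their number is odd; `J` is the set of cherries `(u,v,w)`, `M` the set of left-over
edges.  (Induction on `|F|`: if two edges have the same centre, remove them.)

`fix_edges`: greedy choice, for the vertices of `O` one after the other, of `r v ∈ S` adjacent to `v`,
such that no vertex is chosen more than `l` times, and the edges `s(v, r v)` are distinct.  When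
treating `v`: forbidden are the `≤ |O|/l` vertices already chosen `l` times and the `≤ l`
earlier `v'` with `r v' = v`.
-/

open Finset

namespace H15C6

variable {V : Type} [Fintype V] [DecidableEq V]

theorem assign (F : Finset (Sym2 V)) (hF : Loopless F) (X B : Finset V) (hXB : X ⊆ B) (lam : ℕ)
    (hdeg : ∀ v, v ∉ B → deg F v ≤ lam) (hB : B.card ≤ lam) :
    ∃ ctr : Sym2 V → V, (∀ e ∈ F, ctr e ∈ e) ∧
      (∀ e ∈ F, (∃ x ∈ e, x ∈ X) → ctr e ∈ X) ∧
      (∀ e ∈ F, (∃ x ∈ e, x ∈ B) → ctr e ∈ B) ∧
      ∀ x, (F.filter (fun e => x ∈ e ∧ ctr e ≠ x)).card ≤ lam := by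
  classical
  let ctr : Sym2 V → V := fun e =>
    if h : ∃ x ∈ e, x ∈ X then h.choose
    else if h' : ∃ x ∈ e, x ∈ B then h'.choose
    else e.out.1
  have hmem : ∀ e, ctr e ∈ e := by
    intro e
    simp only [ctr]
    split_ifs with h h'
    · exact h.choose_spec.1
    · exact h'.choose_spec.1
    · exact Sym2.out_fst_mem e
  have hX : ∀ e, (∃ x ∈ e, x ∈ X) → ctr e ∈ X := by
    intro e h
    simp only [ctr, dif_pos h]
    exact h.choose_spec.2
  have hBB : ∀ e, (∃ x ∈ e, x ∈ B) → ctr e ∈ B := by
    intro e h'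
    by_cases h : ∃ x ∈ e, x ∈ X
    · exact hXB (hX e h)
    · simp only [ctr, dif_neg h, dif_pos h']
      exact h'.choose_spec.2
  refine ⟨ctr, fun e _ => hmem e, fun e _ => hX e, fun e _ => hBB e, ?_⟩
  intro x
  by_cases hx : x ∈ B
  · refine le_trans ?_ hB
    apply Finset.card_le_card_of_injOn ctr
    · intro e he
      obtain ⟨_, h1, _⟩ := Finset.mem_filter.1 (Finset.mem_coe.1 he)
      exact Finset.mem_coe.2 (hBB e ⟨x, h1, hx⟩)
    · intro e he e' he' hee
      obtain ⟨_, h1, h2⟩ := Finset.mem_filter.1 (Finset.mem_coe.1 he)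
      obtain ⟨_, h1', h2'⟩ := Finset.mem_filter.1 (Finset.mem_coe.1 he')
      rw [(Sym2.mem_and_mem_iff (Ne.symm h2)).1 ⟨h1, hmem e⟩,
        (Sym2.mem_and_mem_iff (Ne.symm h2')).1 ⟨h1', hmem e'⟩, hee]
  · refine le_trans ?_ (hdeg x hx)
    unfold deg
    apply Finset.card_le_card
    intro e he
    rw [Finset.mem_filter] at he ⊢
    exact ⟨he.1, he.2.1⟩

theorem fix_edges (O S : Finset V) (H : Finset (Sym2 V)) (hH : Loopless H) (l : ℕ) (hl : 1 ≤ l)
    (hdeg : ∀ v ∈ O, O.card / l + l + 1 < dg H S v) :
    ∃ r : V → V, (∀ v ∈ O, r v ∈ S ∧ s(v, r v) ∈ H) ∧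
      (∀ u, (O.filter (fun v => r v = u)).card ≤ l) ∧
      (∀ v ∈ O, ∀ v' ∈ O, v ≠ v' → s(v, r v) ≠ s(v', r v')) := by
  classical
  have key : ∀ O' : Finset V, O' ⊆ O → ∃ r : V → V, (∀ v ∈ O', r v ∈ S ∧ s(v, r v) ∈ H) ∧
      (∀ u, (O'.filter (fun v => r v = u)).card ≤ l) ∧
      (∀ v ∈ O', ∀ v' ∈ O', v ≠ v' → s(v, r v) ≠ s(v', r v')) := by
    intro O'
    induction O' using Finset.induction_on with
    | empty =>
      intro _
      exact ⟨id, by simp, by simp, by simp⟩
    | @insert v O' hv ih =>
      intro hO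
      obtain ⟨r, h1, h2, h3⟩ := ih ((Finset.subset_insert _ _).trans hO)
      have hvO : v ∈ O := hO (Finset.mem_insert_self _ _)
      have hO'O : O' ⊆ O := (Finset.subset_insert _ _).trans hO
      -- the vertices chosen `l` times
      have hA : (S.filter (fun u => l ≤ (O'.filter (fun v => r v = u)).card)).card ≤
          O.card / l := by
        rw [Nat.le_div_iff_mul_le (by omega)]
        refine le_trans ?_ (Finset.card_le_card hO'O)
        rw [← smul_eq_mul]
        refine le_trans (Finset.card_nsmul_le_sum _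
          (fun u => (O'.filter (fun v => r v = u)).card) l
          (fun u hu => (Finset.mem_filter.1 hu).2)) ?_
        rw [← Finset.card_biUnion]
        · apply Finset.card_le_card
          intro w hw
          rw [Finset.mem_biUnion] at hw
          obtain ⟨u, _, hw⟩ := hw
          exact (Finset.mem_filter.1 hw).1
        · intro u _ u' _ huu
          rw [Function.onFun, Finset.disjoint_left]
          intro w hw hw'
          exact huu ((Finset.mem_filter.1 hw).2.symm.trans (Finset.mem_filter.1 hw').2)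
      have hdg := hdeg v hvO
      have hlt : ((S.filter (fun u => l ≤ (O'.filter (fun v => r v = u)).card)) ∪
          (O'.filter (fun v' => r v' = v))).card < (S.filter (fun y => s(v, y) ∈ H)).card := by
        refine lt_of_le_of_lt (Finset.card_union_le _ _) ?_
        have h4 := h2 v
        unfold dg at hdg
        omega
      obtain ⟨u, hu, hu'⟩ := Finset.exists_mem_notMem_of_card_lt_card hlt
      rw [Finset.mem_filter] at hu
      rw [Finset.mem_union, Finset.mem_filter, Finset.mem_filter, not_or] at hu'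
      obtain ⟨hu1, hu2⟩ := hu'
      have hucard : (O'.filter (fun v => r v = u)).card < l := by
        by_contra h
        exact hu1 ⟨hu.1, not_lt.1 h⟩
      have hne : ∀ v' ∈ O', v' ≠ v := fun v' hv' h => hv (h ▸ hv')
      have hr' : ∀ v' ∈ O', Function.update r v u v' = r v' := fun v' hv' =>
        Function.update_of_ne (hne v' hv') _ _
      have hfil : ∀ w, O'.filter (fun v' => Function.update r v u v' = w) =
          O'.filter (fun v' => r v' = w) := by
        intro w
        apply Finset.filter_congr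
        intro v' hv'
        rw [hr' v' hv']
      have hedge : ∀ v' ∈ O', s(v, u) ≠ s(v', r v') := by
        intro v' hv' h
        rw [Sym2.eq_iff] at h
        rcases h with ⟨h, _⟩ | ⟨h, h'⟩
        · exact hne v' hv' h.symm
        · exact hu2 ⟨h' ▸ hv', by rw [h', ← h]⟩
      refine ⟨Function.update r v u, ?_, ?_, ?_⟩
      · intro w hw
        rw [Finset.mem_insert] at hw
        rcases hw with rfl | hw
        · rw [Function.update_self]
          exact hu
        · rw [hr' w hw]
          exact h1 w hw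
      · intro w
        rw [Finset.filter_insert, Function.update_self]
        split_ifs with huw
        · rw [hfil, ← huw]
          exact (Finset.card_insert_le _ _).trans hucard
        · rw [hfil]
          exact h2 w
      · intro w hw w' hw' hww
        rw [Finset.mem_insert] at hw hw'
        rcases hw with rfl | hw
        · rcases hw' with rfl | hw'
          · exact absurd rfl hww
          · rw [Function.update_self, hr' w' hw']
            exact hedge w' hw'
        · rcases hw' with rfl | hw'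
          · rw [Function.update_self, hr' w hw]
            exact (hedge w hw).symm
          · rw [hr' w hw, hr' w' hw']
            exact h3 w hw w' hw' hww
  exact key O (Finset.Subset.refl _)

end H15C6
end S_PAIR1

section S_PAIR2
/-!
Module PAIR2 (part of PAIR).  Three small combinatorial lemmas.

`assign`: choose for every edge of `F` one of its end vertices as its *centre*.  If `e` meets `X`
take an end in `X`; else if `e` meets `B` take an end in `B`; else an arbitrary end.
Then `x ∉ B` is a non-centre end of at most `deg F x ≤ lam` edges, and for `x ∈ B` such an edge has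
its centre (the other end) in `B`, so there are at most `|B| ≤ lam` of them.

`cherry_pairing`: for every centre `v` pair up the edges of `F` centred at `v` arbitrarily, leaving
one over iff their number is odd; `J` is the set of cherries `(u,v,w)`, `M` the set of left-over
edges.  (Induction on `|F|`: if two edges have the same centre, remove them.)

`fix_edges`: greedy choice, for the vertices of `O` one after the other, of `r v ∈ S` adjacent to `v`,
such that no vertex is chosen more than `l` times, and the edges `s(v, r v)` are distinct.  When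
treating `v`: forbidden are the `≤ |O|/l` vertices already chosen `l` times and the `≤ l`
earlier `v'` with `r v' = v`.
-/

open Finset

namespace H15C6

variable {V : Type} [Fintype V] [DecidableEq V]

omit [Fintype V] in
theorem pair2_aux (ctr : Sym2 V → V) (n : ℕ) : ∀ (F : Finset (Sym2 V)), F.card = n →
    (∀ e ∈ F, ctr e ∈ e) →
    ∃ (J : Finset (V × V × V)) (M : Finset (Sym2 V)), M ⊆ F ∧
      (∀ t ∈ J, t.1 ≠ t.2.2 ∧ s(t.1, t.2.1) ∈ F \ M ∧ s(t.2.1, t.2.2) ∈ F \ M ∧
        ctr s(t.1, t.2.1) = t.2.1 ∧ ctr s(t.2.1, t.2.2) = t.2.1) ∧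
      (∀ t ∈ J, ∀ t' ∈ J, t ≠ t' → Disjoint (chE t) (chE t')) ∧
      J.biUnion chE = F \ M ∧
      2 * J.card + M.card = F.card ∧
      (∀ e ∈ M, ∀ e' ∈ M, ctr e = ctr e' → e = e') ∧
      (∀ v, (∃ e ∈ M, ctr e = v) ↔ Odd (F.filter (fun e => ctr e = v)).card) := by
  induction n using Nat.strong_induction_on with
  | _ n ih =>
  intro F hFn hctr
  by_cases hinj : ∀ e ∈ F, ∀ e' ∈ F, ctr e = ctr e' → e = e'
  · refine ⟨∅, F, Finset.Subset.refl F, by simp, by simp, by simp, by simp, hinj, fun v => ?_⟩
    have hle : (F.filter (fun e => ctr e = v)).card ≤ 1 := by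
      rw [Finset.card_le_one]
      intro a ha b hb
      rw [Finset.mem_filter] at ha hb
      exact hinj a ha.1 b hb.1 (ha.2.trans hb.2.symm)
    constructor
    · rintro ⟨e, he, hev⟩
      have hpos : 0 < (F.filter (fun e => ctr e = v)).card :=
        Finset.card_pos.2 ⟨e, Finset.mem_filter.2 ⟨he, hev⟩⟩
      have h1 : (F.filter (fun e => ctr e = v)).card = 1 := by omega
      rw [h1]
      exact odd_one
    · intro hodd
      obtain ⟨e, he⟩ := Finset.card_pos.1 hodd.pos
      rw [Finset.mem_filter] at he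
      exact ⟨e, he.1, he.2⟩
  · push Not at hinj
    obtain ⟨e, he, e', he', hcc, hne⟩ := hinj
    set v := ctr e with hv
    obtain ⟨u, hu⟩ := Sym2.mem_iff_exists.1 (hctr e he)
    obtain ⟨w, hw⟩ := Sym2.mem_iff_exists.1 (hctr e' he')
    rw [← hv] at hu
    rw [← hcc] at hw
    have huw : u ≠ w := by
      rintro rfl
      exact hne (hu.trans hw.symm)
    set F' := (F.erase e).erase e' with hF'
    have he'E : e' ∈ F.erase e := Finset.mem_erase.2 ⟨hne.symm, he'⟩
    have hcard : F'.card + 2 = F.card := by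
      rw [hF', Finset.card_erase_of_mem he'E, Finset.card_erase_of_mem he]
      have h1 : 0 < (F.erase e).card := Finset.card_pos.2 ⟨e', he'E⟩
      rw [Finset.card_erase_of_mem he] at h1
      omega
    have hF'F : F' ⊆ F := (Finset.erase_subset _ _).trans (Finset.erase_subset _ _)
    have heF' : e ∉ F' := fun h => Finset.notMem_erase e F (Finset.mem_of_mem_erase h)
    have he'F' : e' ∉ F' := Finset.notMem_erase e' _
    obtain ⟨J, M, h1, h2, h3, h4, h5, h6, h7⟩ := ih F'.card (by omega) F' rfl
      (fun x hx => hctr x (hF'F hx))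
    have hch : chE (u, v, w) = {e, e'} := by
      show ({s(u, v), s(v, w)} : Finset (Sym2 V)) = {e, e'}
      rw [Sym2.eq_swap, ← hu, ← hw]
    have hJsub : ∀ t ∈ J, chE t ⊆ F' := by
      intro t ht x hx
      have h8 : x ∈ J.biUnion chE := Finset.mem_biUnion.2 ⟨t, ht, hx⟩
      rw [h4] at h8
      exact (Finset.mem_sdiff.1 h8).1
    have hdis : ∀ t ∈ J, Disjoint (chE (u, v, w)) (chE t) := by
      intro t ht
      rw [hch, Finset.disjoint_left]
      intro x hx hx'
      rw [Finset.mem_insert, Finset.mem_singleton] at hx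
      rcases hx with rfl | rfl
      · exact heF' (hJsub t ht hx')
      · exact he'F' (hJsub t ht hx')
    have hnotJ : (u, v, w) ∉ J := by
      intro h
      have h8 := hJsub _ h
      rw [hch] at h8
      exact heF' (h8 (Finset.mem_insert_self _ _))
    have heM : e ∉ M := fun h => heF' (h1 h)
    have he'M : e' ∉ M := fun h => he'F' (h1 h)
    refine ⟨insert (u, v, w) J, M, h1.trans hF'F, ?_, ?_, ?_, ?_, h6, ?_⟩
    · intro t ht
      rw [Finset.mem_insert] at ht
      rcases ht with rfl | ht
      · refine ⟨huw, ?_, ?_, ?_, ?_⟩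
        · show s(u, v) ∈ F \ M
          rw [Sym2.eq_swap, ← hu]
          exact Finset.mem_sdiff.2 ⟨he, heM⟩
        · show s(v, w) ∈ F \ M
          rw [← hw]
          exact Finset.mem_sdiff.2 ⟨he', he'M⟩
        · show ctr s(u, v) = v
          rw [Sym2.eq_swap, ← hu]
        · show ctr s(v, w) = v
          rw [← hw]
          exact hcc.symm
      · obtain ⟨a1, a2, a3, a4, a5⟩ := h2 t ht
        exact ⟨a1, Finset.sdiff_subset_sdiff hF'F (Finset.Subset.refl _) a2,
          Finset.sdiff_subset_sdiff hF'F (Finset.Subset.refl _) a3, a4, a5⟩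
    · intro t ht t' ht' htt'
      rw [Finset.mem_insert] at ht ht'
      rcases ht with rfl | ht <;> rcases ht' with rfl | ht'
      · exact absurd rfl htt'
      · exact hdis t' ht'
      · exact (hdis t ht).symm
      · exact h3 t ht t' ht' htt'
    · rw [Finset.biUnion_insert, h4, hch]
      ext x
      simp only [Finset.mem_union, Finset.mem_insert, Finset.mem_singleton, Finset.mem_sdiff, hF',
        Finset.mem_erase]
      constructor
      · rintro ((rfl | rfl) | ⟨⟨-, -, h8⟩, h9⟩)
        · exact ⟨he, heM⟩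
        · exact ⟨he', he'M⟩
        · exact ⟨h8, h9⟩
      · rintro ⟨h8, h9⟩
        by_cases hx : x = e
        · exact Or.inl (Or.inl hx)
        · by_cases hx' : x = e'
          · exact Or.inl (Or.inr hx')
          · exact Or.inr ⟨⟨hx', hx, h8⟩, h9⟩
    · rw [Finset.card_insert_of_notMem hnotJ]
      omega
    · intro x
      rw [h7 x]
      by_cases hx : v = x
      · have h8 : (F.filter (fun y => ctr y = x)).card =
            (F'.filter (fun y => ctr y = x)).card + 2 := by
          have h9 : F.filter (fun y => ctr y = x) =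
              insert e (insert e' (F'.filter (fun y => ctr y = x))) := by
            ext y
            simp only [Finset.mem_filter, Finset.mem_insert, hF', Finset.mem_erase]
            constructor
            · rintro ⟨b1, b2⟩
              by_cases hy : y = e
              · exact Or.inl hy
              · by_cases hy' : y = e'
                · exact Or.inr (Or.inl hy')
                · exact Or.inr (Or.inr ⟨⟨hy', hy, b1⟩, b2⟩)
            · rintro (rfl | rfl | ⟨⟨-, -, b1⟩, b2⟩)
              · exact ⟨he, hx⟩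
              · exact ⟨he', hcc.symm.trans hx⟩
              · exact ⟨b1, b2⟩
          rw [h9, Finset.card_insert_of_notMem, Finset.card_insert_of_notMem]
          · intro h
            exact he'F' (Finset.mem_filter.1 h).1
          · intro h
            rw [Finset.mem_insert] at h
            rcases h with h | h
            · exact hne h
            · exact heF' (Finset.mem_filter.1 h).1
        rw [h8, Nat.odd_add]
        simp
      · have h8 : F.filter (fun y => ctr y = x) = F'.filter (fun y => ctr y = x) := by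
          ext y
          simp only [Finset.mem_filter, hF', Finset.mem_erase]
          constructor
          · rintro ⟨b1, b2⟩
            refine ⟨⟨?_, ?_, b1⟩, b2⟩
            · rintro rfl
              exact hx (hcc.trans b2)
            · rintro rfl
              exact hx b2
          · rintro ⟨⟨-, -, b1⟩, b2⟩
            exact ⟨b1, b2⟩
        rw [h8]

theorem cherry_pairing (F : Finset (Sym2 V)) (hF : Loopless F) (ctr : Sym2 V → V)
    (hctr : ∀ e ∈ F, ctr e ∈ e) :
    ∃ (J : Finset (V × V × V)) (M : Finset (Sym2 V)), M ⊆ F ∧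
      (∀ t ∈ J, t.1 ≠ t.2.2 ∧ s(t.1, t.2.1) ∈ F \ M ∧ s(t.2.1, t.2.2) ∈ F \ M ∧
        ctr s(t.1, t.2.1) = t.2.1 ∧ ctr s(t.2.1, t.2.2) = t.2.1) ∧
      (∀ t ∈ J, ∀ t' ∈ J, t ≠ t' → Disjoint (chE t) (chE t')) ∧
      J.biUnion chE = F \ M ∧
      2 * J.card + M.card = F.card ∧
      (∀ e ∈ M, ∀ e' ∈ M, ctr e = ctr e' → e = e') ∧
      (∀ v, (∃ e ∈ M, ctr e = v) ↔ Odd (F.filter (fun e => ctr e = v)).card) :=
  pair2_aux ctr F.card F rfl hctr

end H15C6
end S_PAIR2

section S_CC
/-!
Module CC.  Cherry cover: cover the edges of `F` by six-cycles consisting of two edges of `F` with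
the same centre and a path of length four in the host `H`.

Proof.  `cherry_pairing` gives `J` and `M = ∅` (all counts even), `|J| = |F|/2`.  Apply
`greedy_complete` with index set `J`, `c t := cA t.1 t.2.1 t.2.2` and `h' := h - 8/|S|`: by `rich_cA`,
`h' |S|^3 ≤ h |S|^3 - 8 |S|^2 ≤ |compl6|`.  A port of `cA u v w` is `u` or `w`, i.e. the
non-centre end of one of its two edges, so the load of `p` is at most
`#{e ∈ F : p ∈ e, ctr e ≠ p} ≤ e` (the edges of different cherries are different).
`fixE (cA u v w) = chE (u,v,w)`.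
-/

open Finset

namespace H15C6

theorem cc_port_edge {V : Type} [DecidableEq V] (F : Finset (Sym2 V)) (hF : Loopless F)
    (ctr : Sym2 V → V) (J : Finset (V × V × V))
    (hJ : ∀ t ∈ J, t.1 ≠ t.2.2 ∧ s(t.1, t.2.1) ∈ F ∧ s(t.2.1, t.2.2) ∈ F ∧
        ctr s(t.1, t.2.1) = t.2.1 ∧ ctr s(t.2.1, t.2.2) = t.2.1)
    (hdis : ∀ t ∈ J, ∀ t' ∈ J, t ≠ t' → Disjoint (chE t) (chE t')) (p : V) :
    (J.filter (fun t => IsPort (cA t.1 t.2.1 t.2.2) p)).card ≤
      (F.filter (fun f => p ∈ f ∧ ctr f ≠ p)).card := by
  classical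
  apply Finset.card_le_card_of_injOn
    (fun t : V × V × V => if p = t.1 then s(t.1, t.2.1) else s(t.2.1, t.2.2))
  · intro t ht
    have ht' := Finset.mem_filter.1 (Finset.mem_coe.1 ht)
    obtain ⟨h1, h2, h3, h4, h5⟩ := hJ t ht'.1
    have hp := isPort_cA ht'.2
    apply Finset.mem_coe.2
    rw [Finset.mem_filter]
    by_cases hpt : p = t.1
    · simp only [hpt, if_true]
      refine ⟨h2, Sym2.mem_mk_left _ _, ?_⟩
      rw [h4]
      exact (hF.ne h2).symm
    · simp only [hpt, if_false]
      have hp2 : p = t.2.2 := hp.resolve_left hpt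
      refine ⟨h3, ?_, ?_⟩
      · rw [hp2]; exact Sym2.mem_mk_right _ _
      · rw [h5, hp2]
        exact hF.ne h3
  · intro t ht t' ht' he
    have h1 := (Finset.mem_filter.1 (Finset.mem_coe.1 ht)).1
    have h1' := (Finset.mem_filter.1 (Finset.mem_coe.1 ht')).1
    by_contra hne
    have hd := hdis t h1 t' h1' hne
    have hm : (if p = t.1 then s(t.1, t.2.1) else s(t.2.1, t.2.2)) ∈ chE t := by
      unfold chE
      split_ifs <;> simp
    have hm' : (if p = t'.1 then s(t'.1, t'.2.1) else s(t'.2.1, t'.2.2)) ∈ chE t' := by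
      unfold chE
      split_ifs <;> simp
    simp only at he
    rw [he] at hm
    exact (Finset.disjoint_left.1 hd) hm hm'

theorem cherry_cover {V : Type} [Fintype V] [DecidableEq V] (S : Finset V)
    (H F : Finset (Sym2 V)) (ctr : Sym2 V → V) (h : ℝ) (e q : ℕ) (hq : 1 ≤ q)
    (hH : Loopless H) (hF : Loopless F) (hFH : Disjoint F H)
    (hctr : ∀ f ∈ F, ctr f ∈ f)
    (heven : ∀ v, Even (F.filter (fun f => ctr f = v)).card)
    (hrich : ∀ v u w, u ≠ w → s(u, v) ∈ F → s(v, w) ∈ F → ctr s(u, v) = v → ctr s(v, w) = v →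
      h * (S.card : ℝ) ^ 3 ≤ (P4 H S u w : ℝ))
    (hload : ∀ p, (F.filter (fun f => p ∈ f ∧ ctr f ≠ p)).card ≤ e)
    (hnum : 18 * (F.card : ℝ) / q + 12 * e + 12 * q + 8 < h * S.card) :
    ∃ D : Finset (Sym2 V), Dec D ∧ F ⊆ D ∧ D ⊆ F ∪ H ∧ ∀ p, deg (D ∩ H) p ≤ 2 * (e + q) := by
  classical
  obtain ⟨J, M, hMF, hJ, hdis, hbi, hcard, _, hpar⟩ := cherry_pairing F hF ctr hctr
  have hM : M = ∅ := by
    rw [Finset.eq_empty_iff_forall_notMem]
    intro f hf
    have h1 := (hpar (ctr f)).1 ⟨f, hf, rfl⟩
    exact (Nat.not_even_iff_odd.2 h1) (heven (ctr f))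
  subst hM
  rw [Finset.sdiff_empty] at hJ hbi
  rw [Finset.card_empty, add_zero] at hcard
  have hqpos : (0 : ℝ) < q := by exact_mod_cast hq
  have hSpos : (0 : ℝ) < S.card := by
    rcases Nat.eq_zero_or_pos S.card with h0 | h0
    · exfalso
      rw [h0] at hnum
      have : (0 : ℝ) ≤ 18 * (F.card : ℝ) / q + 12 * e + 12 * q + 8 := by positivity
      simp only [Nat.cast_zero, mul_zero] at hnum
      linarith
    · exact_mod_cast h0
  have hfixE : ∀ t : V × V × V, fixE (cA t.1 t.2.1 t.2.2) = chE t := fun t => fixE_cA _ _ _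
  obtain ⟨D, hD, hD1, hD2, hD3⟩ := greedy_complete J
    (fun t : V × V × V => cA t.1 t.2.1 t.2.2) S H (h - 8 / S.card) e q hq
    (fun j _ => by rw [unk_cA]; norm_num)
    (fun j hj => by
      obtain ⟨h1, h2, h3, h4, h5⟩ := hJ j hj
      rw [unk_cA]
      have hr := hrich j.2.1 j.1 j.2.2 h1 h2 h3 h4 h5
      have hc := rich_cA (S := S) hH (hF.ne h2) (hF.ne h3) h1
      have hc' : (P4 H S j.1 j.2.2 : ℝ) ≤
          ((compl6 S H (cA j.1 j.2.1 j.2.2)).card : ℝ) + 8 * (S.card : ℝ) ^ 2 := by
        exact_mod_cast hc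
      have h6 : (h - 8 / (S.card : ℝ)) * (S.card : ℝ) ^ 3 =
          h * (S.card : ℝ) ^ 3 - 8 * (S.card : ℝ) ^ 2 := by
        field_simp
      rw [h6]
      linarith)
    (fun p => (cc_port_edge F hF ctr J hJ hdis p).trans (hload p))
    (by
      have h7 : (F.card : ℝ) = 2 * J.card := by exact_mod_cast hcard.symm
      have h8 : 36 * (J.card : ℝ) / q = 18 * (F.card : ℝ) / q := by rw [h7]; ring
      have h9 : (h - 8 / (S.card : ℝ)) * S.card = h * S.card - 8 := by field_simp
      rw [h8, h9]
      linarith)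
    (fun j hj j' hj' hne => by
      rw [hfixE, hfixE]
      exact hdis j hj j' hj' hne)
    (fun j hj => by
      rw [hfixE, Finset.disjoint_left]
      intro f hf hfH
      have : f ∈ F := by rw [← hbi]; exact Finset.mem_biUnion.2 ⟨j, hj, hf⟩
      exact (Finset.disjoint_left.1 hFH) this hfH)
  refine ⟨D, hD, ?_, ?_, hD3⟩
  · intro f hf
    rw [← hbi, Finset.mem_biUnion] at hf
    obtain ⟨j, hj, hf⟩ := hf
    have := hD1 j hj
    simp only [hfixE] at this
    exact this hf
  · intro f hf
    have h1 := hD2 hf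
    rw [Finset.mem_union, Finset.mem_biUnion] at h1
    rw [Finset.mem_union]
    rcases h1 with h1 | ⟨j, hj, h1⟩
    · exact Or.inr h1
    · left
      rw [hfixE] at h1
      rw [← hbi]
      exact Finset.mem_biUnion.2 ⟨j, hj, h1⟩

end H15C6
end S_CC

section S_PM
/-!
Module PM.  Covering an even number of left-over edges: pair them up arbitrarily; two edges with a
common vertex are closed by a path of length four, two disjoint edges by two paths of length two.

Proof.  Split `M` into pairs (`|M|/2` requests; e.g. by `cherry_pairing`-like induction on `|M|`, or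
enumerate `M` as `Fin (2m)` and pair `2i, 2i+1`).  Request of a pair `{m, m'}`: if `m = s(u,v)`,
`m' = s(v,w)`, `u ≠ w`: `cA u v w`; otherwise `cC p q p' q'` from `hdis`.  `greedy_complete` with `h - 8/|S|`
(`rich_cA`, `rich_cC`; note `unk = 3` or `2`); a vertex is a port of at most `deg M p ≤ e` requests;
`fixE` of a request is the pair `{m, m'}`.
-/

open Finset

namespace H15C6

theorem pm_pairs {α : Type} [DecidableEq α] (n : ℕ) : ∀ M : Finset α, M.card = 2 * n →
    ∃ J : Finset (α × α), (∀ t ∈ J, t.1 ∈ M ∧ t.2 ∈ M ∧ t.1 ≠ t.2) ∧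
      (∀ t ∈ J, ∀ t' ∈ J, t ≠ t' → Disjoint ({t.1, t.2} : Finset α) {t'.1, t'.2}) ∧
      (∀ m ∈ M, ∃ t ∈ J, m ∈ ({t.1, t.2} : Finset α)) ∧ J.card = n := by
  induction n with
  | zero =>
    intro M hM
    have hM0 : M = ∅ := Finset.card_eq_zero.1 (by omega)
    subst hM0
    exact ⟨∅, by simp, by simp, by simp, by simp⟩
  | succ n ih =>
    intro M hM
    obtain ⟨a, ha⟩ : M.Nonempty := Finset.card_pos.1 (by omega)
    have h1 : (M.erase a).card = 2 * n + 1 := by
      rw [Finset.card_erase_of_mem ha]; omega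
    obtain ⟨b, hb⟩ : (M.erase a).Nonempty := Finset.card_pos.1 (by omega)
    have h2 : ((M.erase a).erase b).card = 2 * n := by
      rw [Finset.card_erase_of_mem hb]; omega
    have hba := (Finset.mem_erase.1 hb).1
    have hbM := (Finset.mem_erase.1 hb).2
    obtain ⟨J, hJ1, hJ2, hJ3, hJ4⟩ := ih _ h2
    have hdj : ∀ t ∈ J, Disjoint ({a, b} : Finset α) {t.1, t.2} := by
      intro t ht
      obtain ⟨e1, e2, _⟩ := hJ1 t ht
      rw [Finset.mem_erase, Finset.mem_erase] at e1 e2
      rw [Finset.disjoint_left]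
      intro x hx hx'
      rw [Finset.mem_insert, Finset.mem_singleton] at hx hx'
      rcases hx with rfl | rfl <;> rcases hx' with h | h
      · exact e1.2.1 h.symm
      · exact e2.2.1 h.symm
      · exact e1.1 h.symm
      · exact e2.1 h.symm
    have hnew : (a, b) ∉ J := by
      intro h
      have := hdj _ h
      rw [Finset.disjoint_left] at this
      exact this (Finset.mem_insert_self a _) (Finset.mem_insert_self a _)
    refine ⟨insert (a, b) J, ?_, ?_, ?_, ?_⟩
    · intro t ht
      rcases Finset.mem_insert.1 ht with rfl | ht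
      · exact ⟨ha, hbM, fun h => hba h.symm⟩
      · obtain ⟨e1, e2, e3⟩ := hJ1 t ht
        exact ⟨Finset.mem_of_mem_erase (Finset.mem_of_mem_erase e1),
          Finset.mem_of_mem_erase (Finset.mem_of_mem_erase e2), e3⟩
    · intro t ht t' ht' hne
      rcases Finset.mem_insert.1 ht with rfl | ht <;> rcases Finset.mem_insert.1 ht' with rfl | ht'
      · exact absurd rfl hne
      · exact hdj _ ht'
      · exact (hdj _ ht).symm
      · exact hJ2 t ht t' ht' hne
    · intro m hm
      by_cases hma : m = a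
      · exact ⟨(a, b), Finset.mem_insert_self _ _, by simp [hma]⟩
      · by_cases hmb : m = b
        · exact ⟨(a, b), Finset.mem_insert_self _ _, by simp [hmb]⟩
        · obtain ⟨t, ht, htm⟩ := hJ3 m (Finset.mem_erase.2 ⟨hmb, Finset.mem_erase.2 ⟨hma, hm⟩⟩)
          exact ⟨t, Finset.mem_insert_of_mem ht, htm⟩
    · rw [Finset.card_insert_of_notMem hnew, hJ4]

theorem pm_req {V : Type} [Fintype V] [DecidableEq V] (S : Finset V) (H M : Finset (Sym2 V))
    (h : ℝ) (hS : 0 < S.card) (hH : Loopless H) (hM : Loopless M)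
    (hadj : ∀ u v w, u ≠ w → s(u, v) ∈ M → s(v, w) ∈ M →
      h * (S.card : ℝ) ^ 3 ≤ (P4 H S u w : ℝ))
    (hdis : ∀ m ∈ M, ∀ m' ∈ M, (∀ v, v ∈ m → v ∉ m') → ∃ p q p' q', m = s(p, q) ∧ m' = s(p', q') ∧
      h * (S.card : ℝ) ^ 2 ≤ (cn H S q p' : ℝ) * (cn H S q' p : ℝ))
    (m m' : Sym2 V) (hm : m ∈ M) (hm' : m' ∈ M) (hne : m ≠ m') :
    ∃ c : Fin 6 → Option V, fixE c = {m, m'} ∧ 1 ≤ unk c ∧
      (h - 8 / S.card) * (S.card : ℝ) ^ (unk c) ≤ ((compl6 S H c).card : ℝ) ∧
      ∀ p, IsPort c p → p ∈ m ∨ p ∈ m' := by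
  have hS' : (0 : ℝ) < S.card := by exact_mod_cast hS
  by_cases hv : ∃ v, v ∈ m ∧ v ∈ m'
  · obtain ⟨v, hv1, hv2⟩ := hv
    obtain ⟨u, rfl⟩ := Sym2.mem_iff_exists.1 hv1
    obtain ⟨w, rfl⟩ := Sym2.mem_iff_exists.1 hv2
    have huw : u ≠ w := by
      rintro rfl
      exact hne rfl
    have hvu : v ≠ u := hM.ne hm
    have hvw : v ≠ w := hM.ne hm'
    refine ⟨cA u v w, ?_, ?_, ?_, ?_⟩
    · rw [fixE_cA, Sym2.eq_swap]
    · rw [unk_cA]; norm_num
    · have h1 := hadj u v w huw (by rw [Sym2.eq_swap]; exact hm) hm'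
      have h2 : ((P4 H S u w : ℕ) : ℝ) ≤ (compl6 S H (cA u v w)).card + 8 * (S.card : ℝ) ^ 2 := by
        exact_mod_cast rich_cA hH hvu.symm hvw huw
      rw [unk_cA]
      have h3 : (h - 8 / S.card) * (S.card : ℝ) ^ 3 = h * (S.card : ℝ) ^ 3 - 8 * (S.card : ℝ) ^ 2 := by
        field_simp
      rw [h3]
      linarith
    · intro p hp
      rcases isPort_cA hp with rfl | rfl
      · left; exact Sym2.mem_mk_right _ _
      · right; exact Sym2.mem_mk_right _ _
  · push Not at hv
    obtain ⟨p, q, p', q', rfl, rfl, h1⟩ := hdis m hm m' hm' hv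
    have hpq : p ≠ q := hM.ne hm
    have hpq' : p' ≠ q' := hM.ne hm'
    have e1 := hv p (Sym2.mem_mk_left _ _)
    have e2 := hv q (Sym2.mem_mk_right _ _)
    rw [Sym2.mem_iff, not_or] at e1 e2
    refine ⟨cC p q p' q', ?_, ?_, ?_, ?_⟩
    · rw [fixE_cC]
    · rw [unk_cC]; norm_num
    · have h2 : ((cn H S q p' : ℕ) : ℝ) * (cn H S q' p : ℝ) ≤
          (compl6 S H (cC p q p' q')).card + 5 * (S.card : ℝ) := by
        exact_mod_cast rich_cC hH hpq e1.1 e1.2 e2.1 e2.2 hpq'
      rw [unk_cC]
      have h3 : (h - 8 / S.card) * (S.card : ℝ) ^ 2 = h * (S.card : ℝ) ^ 2 - 8 * (S.card : ℝ) := by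
        field_simp
      rw [h3]
      linarith
    · intro z hz
      rcases isPort_cC hz with rfl | rfl | rfl | rfl
      · left; exact Sym2.mem_mk_left _ _
      · left; exact Sym2.mem_mk_right _ _
      · right; exact Sym2.mem_mk_left _ _
      · right; exact Sym2.mem_mk_right _ _

theorem pair_cover {V : Type} [Fintype V] [DecidableEq V] (S : Finset V) (H M : Finset (Sym2 V))
    (h : ℝ) (e q : ℕ) (hq : 1 ≤ q) (hH : Loopless H) (hM : Loopless M) (hMH : Disjoint M H)
    (heven : Even M.card)
    (hadj : ∀ u v w, u ≠ w → s(u, v) ∈ M → s(v, w) ∈ M →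
      h * (S.card : ℝ) ^ 3 ≤ (P4 H S u w : ℝ))
    (hdis : ∀ m ∈ M, ∀ m' ∈ M, (∀ v, v ∈ m → v ∉ m') → ∃ p q p' q', m = s(p, q) ∧ m' = s(p', q') ∧
      h * (S.card : ℝ) ^ 2 ≤ (cn H S q p' : ℝ) * (cn H S q' p : ℝ))
    (hload : ∀ p, deg M p ≤ e)
    (hnum : 18 * (M.card : ℝ) / q + 12 * e + 12 * q + 8 < h * S.card) :
    ∃ D : Finset (Sym2 V), Dec D ∧ M ⊆ D ∧ D ⊆ M ∪ H ∧ ∀ p, deg (D ∩ H) p ≤ 2 * (e + q) := by
  have hq' : (1 : ℝ) ≤ q := by exact_mod_cast hq
  have hS : 0 < S.card := by
    rcases Nat.eq_zero_or_pos S.card with h0 | h0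
    · exfalso
      rw [h0] at hnum
      have h1 : (0 : ℝ) ≤ 18 * (M.card : ℝ) / q := by positivity
      have h2 : (0 : ℝ) ≤ e := Nat.cast_nonneg e
      simp only [Nat.cast_zero, mul_zero] at hnum
      linarith
    · exact h0
  have hS' : (0 : ℝ) < S.card := by exact_mod_cast hS
  obtain ⟨n, hn⟩ := heven
  obtain ⟨J, hJ1, hJ2, hJ3, hJ4⟩ := pm_pairs n M (by omega)
  have hreq : ∀ t : Sym2 V × Sym2 V, ∃ c : Fin 6 → Option V, t ∈ J →
      (fixE c = {t.1, t.2} ∧ 1 ≤ unk c ∧
      (h - 8 / S.card) * (S.card : ℝ) ^ (unk c) ≤ ((compl6 S H c).card : ℝ) ∧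
      ∀ p, IsPort c p → p ∈ t.1 ∨ p ∈ t.2) := by
    intro t
    by_cases ht : t ∈ J
    · obtain ⟨e1, e2, e3⟩ := hJ1 t ht
      obtain ⟨c, hc⟩ := pm_req S H M h hS hH hM hadj hdis t.1 t.2 e1 e2 e3
      exact ⟨c, fun _ => hc⟩
    · exact ⟨fun _ => none, fun h => absurd h ht⟩
  choose c hc using hreq
  have hld : ∀ p, (J.filter (fun j => IsPort (c j) p)).card ≤ e := by
    intro p
    refine le_trans ?_ (hload p)
    unfold deg
    apply Finset.card_le_card_of_injOn (fun t => if p ∈ t.1 then t.1 else t.2)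
    · intro t ht
      obtain ⟨ht1, ht2⟩ := Finset.mem_filter.1 (Finset.mem_coe.1 ht)
      have h3 := (hc t ht1).2.2.2 p ht2
      obtain ⟨e1, e2, _⟩ := hJ1 t ht1
      refine Finset.mem_coe.2 (Finset.mem_filter.2 ?_)
      change (if p ∈ t.1 then t.1 else t.2) ∈ M ∧ p ∈ (if p ∈ t.1 then t.1 else t.2)
      by_cases hp : p ∈ t.1
      · rw [if_pos hp]
        exact ⟨e1, hp⟩
      · rw [if_neg hp]
        exact ⟨e2, h3.resolve_left hp⟩
    · intro t ht t' ht' hEq
      obtain ⟨ht1, _⟩ := Finset.mem_filter.1 (Finset.mem_coe.1 ht)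
      obtain ⟨ht1', _⟩ := Finset.mem_filter.1 (Finset.mem_coe.1 ht')
      by_contra hne
      have hd := hJ2 t ht1 t' ht1' hne
      rw [Finset.disjoint_left] at hd
      have m1 : (if p ∈ t.1 then t.1 else t.2) ∈ ({t.1, t.2} : Finset (Sym2 V)) := by
        split_ifs <;> simp
      have m2 : (if p ∈ t'.1 then t'.1 else t'.2) ∈ ({t'.1, t'.2} : Finset (Sym2 V)) := by
        split_ifs <;> simp
      simp only at hEq
      rw [← hEq] at m2
      exact hd m1 m2
  obtain ⟨D, hD1, hD2, hD3, hD4⟩ := greedy_complete J c S H (h - 8 / S.card) e q hq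
    (fun j hj => (hc j hj).2.1) (fun j hj => (hc j hj).2.2.1) hld
    (by
      have e1 : (h - 8 / S.card) * (S.card : ℝ) = h * S.card - 8 := by field_simp
      have e2 : 36 * (J.card : ℝ) / q = 18 * (M.card : ℝ) / q := by
        rw [hn, hJ4]; push_cast; ring
      rw [e1, e2]
      linarith)
    (by
      intro j hj j' hj' hne
      rw [(hc j hj).1, (hc j' hj').1]
      exact hJ2 j hj j' hj' hne)
    (by
      intro j hj
      rw [(hc j hj).1, Finset.disjoint_left]
      intro x hx hxH
      rw [Finset.mem_insert, Finset.mem_singleton] at hx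
      obtain ⟨e1, e2, _⟩ := hJ1 j hj
      rcases hx with rfl | rfl
      · exact (Finset.disjoint_left.1 hMH) e1 hxH
      · exact (Finset.disjoint_left.1 hMH) e2 hxH)
  refine ⟨D, hD1, ?_, ?_, hD4⟩
  · intro m hm
    obtain ⟨t, ht, htm⟩ := hJ3 m hm
    rw [← (hc t ht).1] at htm
    exact hD2 t ht htm
  · intro x hx
    rcases Finset.mem_union.1 (hD3 hx) with h1 | h1
    · exact Finset.mem_union_right _ h1
    · obtain ⟨t, ht, hxt⟩ := Finset.mem_biUnion.1 h1
      rw [(hc t ht).1, Finset.mem_insert, Finset.mem_singleton] at hxt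
      obtain ⟨e1, e2, _⟩ := hJ1 t ht
      rcases hxt with rfl | rfl
      · exact Finset.mem_union_left _ e1
      · exact Finset.mem_union_left _ e2

end H15C6
end S_PM
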