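import Pool.Agent.H15.C6F.FA
import Pool.Agent.H15.C6F.FB
import Pool.Agent.H15.C6F.FC

section S_CV
/-!
Module CV.  Covering a sparse edge set `F` by six-cycles inside `F ∪ H`, where the host `H` is rich
in paths of length four, using few edges of `H` at every vertex.

Proof.  `N = |U|`, `|S| ≥ σ N`.  Put `lam := ⌈c1 N⌉` with small `c1 = c1(h,σ,ρ)`, `q := ⌈c2 N⌉`,
`γ ≤ c1^2/4` small.  `B := {v : deg F v > lam}`; `lam * |B| ≤ 2|F| ≤ 2γN²` so `|B| ≤ lam`.  Take `ctr`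
from `assign` with `X = ∅`.  `O :=` set of vertices `v` with an odd number of edges of `F` centred at
`v`; each such `v` is on an edge `s(u,v) ∈ F`, so `hrich` (centre `u`, both ends `v`) gives
`h|S|^3 ≤ P4 H S v v ≤ dg H S v * |S|^2`, i.e. `dg H S v ≥ h |S| ≥ hσN`.  `O ⊆ U`, so `|O| ≤ N`.  With
`l := ⌈2/(hσ)⌉ + 1` the hypothesis of `fix_edges` holds for large `N`.  Put
`Fx := {s(v, r v) : v ∈ O}`, `F' := F ∪ Fx`, `H' := H \ Fx`, `ctr' e := ctr e` for `e ∈ F` and `:= v` for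
`e = s(v, r v)`.  Degrees in `Fx` are at most `l + 1`, so by `P4_sdiff` the richness of `H'` is at least
`h|S|^3 - 4(l+1)|S|^2`.  Loads are at most `lam + l`, all counts are even, and `cherry_cover` applies
with `h/2` for large `N` if `18 (γ N² + N)/q + 12 (lam + l) + 12 q + 8 < (h/2) σ N`.
`deg (D ∩ H) p ≤ 2 (lam + l + q) + (l + 1) ≤ ρ N`.
For a cherry `(u,v,w)` of `F'` both edges are in `F ∪ H`, so `hrich v u w` is available.
-/

open Finset

namespace H15C6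

/-- vertices of large degree are few -/
theorem cv_bad {V : Type} [Fintype V] [DecidableEq V] (U : Finset V) (F : Finset (Sym2 V))
    (hFU : F ⊆ U.sym2) (hF : Loopless F) (lam : ℕ) :
    lam * (univ.filter (fun v => lam < deg F v)).card ≤ 2 * F.card := by
  have hsub : univ.filter (fun v => lam < deg F v) ⊆ U := by
    intro v hv
    rw [mem_filter] at hv
    have h1 : 0 < deg F v := lt_of_le_of_lt (Nat.zero_le _) hv.2
    unfold deg at h1
    obtain ⟨e, he⟩ := Finset.card_pos.1 h1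
    rw [mem_filter] at he
    obtain ⟨y, rfl⟩ := Sym2.mem_iff_exists.1 he.2
    have := hFU he.1
    rw [Finset.mk_mem_sym2_iff] at this
    exact this.1
  calc lam * (univ.filter (fun v => lam < deg F v)).card
      = ∑ _v ∈ univ.filter (fun v => lam < deg F v), lam := by
        rw [Finset.sum_const, smul_eq_mul, mul_comm]
    _ ≤ ∑ v ∈ univ.filter (fun v => lam < deg F v), deg F v := by
        refine Finset.sum_le_sum (fun v hv => ?_)
        rw [mem_filter] at hv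
        exact hv.2.le
    _ ≤ ∑ v ∈ U, deg F v := Finset.sum_le_sum_of_subset hsub
    _ = 2 * F.card := sum_deg hFU hF

/-- the corrected centres: facts about the extra edges -/
theorem cv_fix {V : Type} [Fintype V] [DecidableEq V] (F H : Finset (Sym2 V)) (O S : Finset V)
    (hFH : Disjoint F H) (ctr : Sym2 V → V) (hctr : ∀ e ∈ F, ctr e ∈ e)
    (hO : ∀ v, v ∈ O ↔ Odd (F.filter (fun e => ctr e = v)).card) (lam l : ℕ)
    (hload : ∀ x, (F.filter (fun e => x ∈ e ∧ ctr e ≠ x)).card ≤ lam)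
    (r : V → V) (hr1 : ∀ v ∈ O, r v ∈ S ∧ s(v, r v) ∈ H)
    (hr2 : ∀ u, (O.filter (fun v => r v = u)).card ≤ l)
    (hr3 : ∀ v ∈ O, ∀ v' ∈ O, v ≠ v' → s(v, r v) ≠ s(v', r v')) :
    ∃ ctr' : Sym2 V → V, (∀ e ∈ F ∪ O.image (fun v => s(v, r v)), ctr' e ∈ e) ∧
      (∀ v, Even ((F ∪ O.image (fun v => s(v, r v))).filter (fun e => ctr' e = v)).card) ∧
      ∀ x, ((F ∪ O.image (fun v => s(v, r v))).filter (fun e => x ∈ e ∧ ctr' e ≠ x)).card ≤
        lam + l := by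
  classical
  have hFx : ∀ v ∈ O, s(v, r v) ∉ F := fun v hv hF =>
    (Finset.disjoint_left.1 hFH) hF (hr1 v hv).2
  have hch : ∃ ctr' : Sym2 V → V, (∀ e ∈ F, ctr' e = ctr e) ∧ ∀ v ∈ O, ctr' s(v, r v) = v := by
    refine ⟨fun e => if e ∈ F then ctr e else
      if he : ∃ v ∈ O, s(v, r v) = e then he.choose else ctr e, ?_, ?_⟩
    · intro e he
      simp only [if_pos he]
    · intro v hv
      have he : ∃ v' ∈ O, s(v', r v') = s(v, r v) := ⟨v, hv, rfl⟩
      simp only [if_neg (hFx v hv)]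
      rw [dif_pos he]
      by_contra hne
      exact hr3 _ he.choose_spec.1 v hv hne he.choose_spec.2
  obtain ⟨ctr', hcF, hcO⟩ := hch
  have hdisj : Disjoint F (O.image (fun v => s(v, r v))) := by
    rw [Finset.disjoint_right]
    intro e he
    obtain ⟨v, hv, rfl⟩ := Finset.mem_image.1 he
    exact hFx v hv
  refine ⟨ctr', ?_, ?_, ?_⟩
  · intro e he
    rcases Finset.mem_union.1 he with h | h
    · rw [hcF e h]; exact hctr e h
    · obtain ⟨v, hv, rfl⟩ := Finset.mem_image.1 h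
      rw [hcO v hv]
      exact Sym2.mem_mk_left _ _
  · intro v
    rw [Finset.filter_union, Finset.card_union_of_disjoint (Finset.disjoint_filter_filter hdisj)]
    have e1 : F.filter (fun e => ctr' e = v) = F.filter (fun e => ctr e = v) := by
      apply Finset.filter_congr
      intro e he
      rw [hcF e he]
    rw [e1]
    by_cases hv : v ∈ O
    · have e2 : (O.image (fun v => s(v, r v))).filter (fun e => ctr' e = v) = {s(v, r v)} := by
        ext e
        simp only [Finset.mem_filter, Finset.mem_image, Finset.mem_singleton]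
        constructor
        · rintro ⟨⟨v', hv', rfl⟩, h2⟩
          rw [hcO v' hv'] at h2
          rw [h2]
        · rintro rfl
          exact ⟨⟨v, hv, rfl⟩, hcO v hv⟩
      rw [e2, Finset.card_singleton]
      exact ((hO v).1 hv).add_odd odd_one
    · have e2 : (O.image (fun v => s(v, r v))).filter (fun e => ctr' e = v) = ∅ := by
        rw [Finset.filter_eq_empty_iff]
        intro e he h2
        obtain ⟨v', hv', rfl⟩ := Finset.mem_image.1 he
        rw [hcO v' hv'] at h2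
        exact hv (h2 ▸ hv')
      rw [e2, Finset.card_empty, add_zero]
      exact Nat.not_odd_iff_even.1 (fun h => hv ((hO v).2 h))
  · intro x
    rw [Finset.filter_union]
    refine (Finset.card_union_le _ _).trans (Nat.add_le_add ?_ ?_)
    · refine le_trans (Finset.card_le_card ?_) (hload x)
      intro e he
      rw [Finset.mem_filter] at he ⊢
      rw [hcF e he.1] at he
      exact he
    · refine le_trans ?_ (hr2 x)
      refine le_trans (Finset.card_le_card ?_) (Finset.card_image_le (s := O.filter (fun v => r v = x))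
        (f := fun v => s(v, r v)))
      intro e he
      obtain ⟨he1, he2, he3⟩ := Finset.mem_filter.1 he
      obtain ⟨v, hv, rfl⟩ := Finset.mem_image.1 he1
      rw [hcO v hv] at he3
      rw [Finset.mem_image]
      refine ⟨v, ?_, rfl⟩
      rw [Finset.mem_filter]
      refine ⟨hv, ?_⟩
      rcases Sym2.mem_iff.1 he2 with h | h
      · exact absurd h.symm he3
      · exact h.symm

/-- the degrees of the extra edges -/
theorem cv_degx {V : Type} [DecidableEq V] (O : Finset V) (l : ℕ) (r : V → V)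
    (hr2 : ∀ u, (O.filter (fun v => r v = u)).card ≤ l) (p : V) :
    deg (O.image (fun v => s(v, r v))) p ≤ l + 1 := by
  unfold deg
  have hsub : (O.image (fun v => s(v, r v))).filter (fun e => p ∈ e) ⊆
      ((O.filter (fun v => r v = p)) ∪ {p}).image (fun v => s(v, r v)) := by
    intro e he
    obtain ⟨he1, he2⟩ := Finset.mem_filter.1 he
    obtain ⟨v, hv, rfl⟩ := Finset.mem_image.1 he1
    rw [Finset.mem_image]
    refine ⟨v, ?_, rfl⟩
    rw [Finset.mem_union, Finset.mem_filter, Finset.mem_singleton]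
    rcases Sym2.mem_iff.1 he2 with h | h
    · right; exact h.symm
    · left; exact ⟨hv, h.symm⟩
  refine (Finset.card_le_card hsub).trans (Finset.card_image_le.trans ?_)
  refine (Finset.card_union_le _ _).trans ?_
  rw [Finset.card_singleton]
  exact Nat.add_le_add_right (hr2 p) 1

theorem cover_sparse (h σ ρ : ℝ) (hh : 0 < h) (hσ : 0 < σ) (hρ : 0 < ρ) :
    ∃ γ : ℝ, 0 < γ ∧ ∃ N0 : ℕ, ∀ (V : Type) [Fintype V] [DecidableEq V] (U S : Finset V)
      (H F : Finset (Sym2 V)), N0 ≤ U.card → S ⊆ U → σ * (U.card : ℝ) ≤ (S.card : ℝ) →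
      H ⊆ U.sym2 → F ⊆ U.sym2 → Loopless H → Loopless F → Disjoint F H →
      (F.card : ℝ) ≤ γ * (U.card : ℝ) ^ 2 →
      (∀ v u w, s(v, u) ∈ F ∪ H → s(v, w) ∈ F ∪ H →
        h * (S.card : ℝ) ^ 3 ≤ (P4 H S u w : ℝ)) →
      ∃ D : Finset (Sym2 V), Dec D ∧ F ⊆ D ∧ D ⊆ F ∪ H ∧
        ∀ p, (deg (D ∩ H) p : ℝ) ≤ ρ * U.card := by
  have hτ : 0 < h * σ / 2 := by positivity
  set τ : ℝ := h * σ / 2 with hτdef
  set c : ℝ := min (τ / 100) (ρ / 16) with hcdef
  have hc : 0 < c := lt_min (by positivity) (by positivity)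
  have hcτ : c ≤ τ / 100 := min_le_left _ _
  have hcρ : c ≤ ρ / 16 := min_le_right _ _
  set l : ℕ := ⌈2 / (h * σ)⌉₊ + 1 with hl
  have hl1 : 1 ≤ l := by omega
  have hlr : 1 / τ ≤ l := by
    have h1 : 2 / (h * σ) ≤ (⌈2 / (h * σ)⌉₊ : ℝ) := Nat.le_ceil _
    have h2 : 1 / τ = 2 / (h * σ) := by
      rw [hτdef]; field_simp
    rw [h2, hl]
    push_cast
    linarith
  have hl0 : (0 : ℝ) < l := by exact_mod_cast hl1
  refine ⟨c ^ 2 / 4, by positivity, ⌈2 / τ * (18 / c + 32 + 12 * l)⌉₊ +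
    ⌈2 / ρ * (3 * l + 5)⌉₊ + 1, ?_⟩
  intro V _ _ U S H F hN hSU hσS hHU hFU hHl hFl hFH hFc hrich
  set N : ℕ := U.card with hNdef
  have hN1 : 1 ≤ N := by omega
  have hNp : (0 : ℝ) < N := by exact_mod_cast hN1
  have hNa : 2 / τ * (18 / c + 32 + 12 * l) ≤ N := by
    refine (Nat.le_ceil _).trans ?_
    exact_mod_cast (by omega : ⌈2 / τ * (18 / c + 32 + 12 * (l : ℝ))⌉₊ ≤ N)
  have hNb : 2 / ρ * (3 * l + 5) ≤ N := by
    refine (Nat.le_ceil _).trans ?_
    exact_mod_cast (by omega : ⌈2 / ρ * (3 * (l : ℝ) + 5)⌉₊ ≤ N)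
  have hNa' : 18 / c + 32 + 12 * l ≤ τ * N / 2 := by
    have h1 := mul_le_mul_of_nonneg_left hNa (by positivity : (0 : ℝ) ≤ τ / 2)
    have h2 : τ / 2 * (2 / τ * (18 / c + 32 + 12 * l)) = 18 / c + 32 + 12 * l := by
      field_simp
    linarith
  have hNb' : 3 * (l : ℝ) + 5 ≤ ρ * N / 2 := by
    have h1 := mul_le_mul_of_nonneg_left hNb (by positivity : (0 : ℝ) ≤ ρ / 2)
    have h2 : ρ / 2 * (2 / ρ * (3 * (l : ℝ) + 5)) = 3 * l + 5 := by
      field_simp
    linarith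
  have hcp : 0 < 18 / c := by positivity
  have hSp : (0 : ℝ) < S.card := lt_of_lt_of_le (by positivity) hσS
  -- `lam = q`
  set lam : ℕ := ⌈c * N⌉₊ with hlam
  have hlam1 : c * N ≤ lam := Nat.le_ceil _
  have hlam2 : (lam : ℝ) < c * N + 1 := Nat.ceil_lt_add_one (by positivity)
  have hlamp : (0 : ℝ) < lam := lt_of_lt_of_le (by positivity) hlam1
  have hlamn : 1 ≤ lam := by exact_mod_cast hlamp
  set B : Finset V := univ.filter (fun v => lam < deg F v) with hB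
  have hBc : B.card ≤ lam := by
    have h1 := cv_bad U F hFU hFl lam
    have h2 : (lam : ℝ) * B.card ≤ 2 * F.card := by exact_mod_cast h1
    have h3 : c * N * B.card ≤ c * N * (c * N / 2) := by
      calc c * N * B.card ≤ lam * B.card := by gcongr
        _ ≤ 2 * F.card := h2
        _ ≤ 2 * (c ^ 2 / 4 * N ^ 2) := by linarith
        _ = c * N * (c * N / 2) := by ring
    have h4 : (B.card : ℝ) ≤ c * N / 2 := le_of_mul_le_mul_left h3 (by positivity)
    have h5 : (B.card : ℝ) ≤ lam := by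
      have : 0 < c * N := by positivity
      linarith
    exact_mod_cast h5
  obtain ⟨ctr, hc1, _, _, hc4⟩ := assign F hFl ∅ B (Finset.empty_subset _) lam
    (fun v hv => by
      by_contra hcon
      exact hv (by rw [hB, mem_filter]; exact ⟨mem_univ _, not_le.1 hcon⟩)) hBc
  set O : Finset V := univ.filter (fun v => Odd (F.filter (fun e => ctr e = v)).card) with hO
  have hOiff : ∀ v, v ∈ O ↔ Odd (F.filter (fun e => ctr e = v)).card := by
    intro v; rw [hO, mem_filter]; simp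
  have hOe : ∀ v ∈ O, ∃ u, s(v, u) ∈ F := by
    intro v hv
    have h1 := (hOiff v).1 hv
    obtain ⟨e, he⟩ := Finset.card_pos.1 h1.pos
    rw [mem_filter] at he
    have h2 := hc1 e he.1
    rw [he.2] at h2
    obtain ⟨u, rfl⟩ := Sym2.mem_iff_exists.1 h2
    exact ⟨u, he.1⟩
  have hOU : O ⊆ U := by
    intro v hv
    obtain ⟨u, hu⟩ := hOe v hv
    have := hFU hu
    rw [Finset.mk_mem_sym2_iff] at this
    exact this.1
  have hOc : O.card ≤ N := Finset.card_le_card hOU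
  have hOdg : ∀ v ∈ O, h * σ * N ≤ dg H S v := by
    intro v hv
    obtain ⟨u, hu⟩ := hOe v hv
    have h1 : s(u, v) ∈ F ∪ H := by
      rw [Sym2.eq_swap]; exact Finset.mem_union_left _ hu
    have h2 := hrich u v v h1 h1
    have h3 : (P4 H S v v : ℝ) ≤ dg H S v * (S.card : ℝ) ^ 2 := by
      exact_mod_cast P4_le_dg H S v v
    have h4 : (S.card : ℝ) ^ 2 * (h * S.card) ≤ (S.card : ℝ) ^ 2 * dg H S v := by
      nlinarith
    have h5 := le_of_mul_le_mul_left h4 (by positivity)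
    calc h * σ * N = h * (σ * N) := by ring
      _ ≤ h * S.card := by gcongr
      _ ≤ _ := h5
  obtain ⟨r, hr1, hr2, hr3⟩ := fix_edges O S H hHl l hl1 (by
    intro v hv
    have h1 := hOdg v hv
    have h2 : ((O.card / l : ℕ) : ℝ) ≤ τ * N := by
      calc ((O.card / l : ℕ) : ℝ) ≤ (O.card : ℝ) / l := Nat.cast_div_le
        _ ≤ N / l := by gcongr
        _ ≤ τ * N := by
          rw [div_le_iff₀ hl0]
          have h3 : 1 ≤ τ * l := by
            rw [div_le_iff₀ hτ] at hlr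
            linarith
          nlinarith
    have h4 : (O.card / l : ℕ) + (l : ℝ) + 1 < dg H S v := by
      have h5 : h * σ * N = 2 * (τ * N) := by rw [hτdef]; ring
      have h6 : 0 < τ * N := by positivity
      linarith
    exact_mod_cast h4)
  obtain ⟨ctr', hd1, hd2, hd3⟩ := cv_fix F H O S hFH ctr hc1 hOiff lam l hc4 r hr1 hr2 hr3
  set Fx : Finset (Sym2 V) := O.image (fun v => s(v, r v)) with hFx
  have hFxH : Fx ⊆ H := by
    intro e he
    obtain ⟨v, hv, rfl⟩ := Finset.mem_image.1 he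
    exact (hr1 v hv).2
  have hFxd : ∀ p, deg Fx p ≤ l + 1 := cv_degx O l r hr2
  have hFxc : Fx.card ≤ N := Finset.card_image_le.trans hOc
  have hmem : ∀ e, e ∈ F ∪ Fx → e ∈ F ∪ H := by
    intro e he
    rcases Finset.mem_union.1 he with h1 | h1
    · exact Finset.mem_union_left _ h1
    · exact Finset.mem_union_right _ (hFxH h1)
  obtain ⟨D, hD1, hD2, hD3, hD4⟩ := cherry_cover S (H \ Fx) (F ∪ Fx) ctr' (h / 2) (lam + l) lam hlamn
    (hHl.mono Finset.sdiff_subset) (hFl.union (hHl.mono hFxH))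
    (by
      rw [Finset.disjoint_union_left]
      exact ⟨hFH.mono_right Finset.sdiff_subset, Finset.disjoint_sdiff⟩)
    hd1 hd2
    (by
      intro v u w _ h1 h2 _ _
      have h3 := hrich v u w (by rw [Sym2.eq_swap]; exact hmem _ h1) (hmem _ h2)
      have h4 : (P4 H S u w : ℝ) ≤ P4 (H \ Fx) S u w + 4 * (l + 1) * (S.card : ℝ) ^ 2 := by
        exact_mod_cast P4_sdiff H Fx hFxd u w
      have h5 : 4 * ((l : ℝ) + 1) ≤ h / 2 * S.card := by
        have h6 : τ * N ≤ h / 2 * S.card := by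
          calc τ * N = h / 2 * (σ * N) := by rw [hτdef]; ring
            _ ≤ _ := by gcongr
        have h7 : 0 < τ * N := by positivity
        linarith
      have h8 : 4 * ((l : ℝ) + 1) * (S.card : ℝ) ^ 2 ≤ h / 2 * S.card * (S.card : ℝ) ^ 2 := by
        gcongr
      nlinarith)
    hd3
    (by
      have h1 : ((F ∪ Fx).card : ℝ) ≤ c ^ 2 / 4 * N ^ 2 + N := by
        have h2 : ((F ∪ Fx).card : ℝ) ≤ F.card + Fx.card := by
          exact_mod_cast Finset.card_union_le F Fx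
        have h3 : (Fx.card : ℝ) ≤ N := by exact_mod_cast hFxc
        linarith
      have h4 : 18 * ((F ∪ Fx).card : ℝ) / lam ≤ 18 * (c / 4 * N + 1 / c) := by
        rw [div_le_iff₀ hlamp]
        have h5 : c ^ 2 / 4 * N ^ 2 + N = (c / 4 * N + 1 / c) * (c * N) := by
          field_simp
        have h6 : (c / 4 * N + 1 / c) * (c * N) ≤ (c / 4 * N + 1 / c) * lam := by
          gcongr
        linarith
      have h7 : 18 * (1 / c) = 18 / c := by ring
      have h8 : τ * N ≤ h / 2 * S.card := by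
        calc τ * N = h / 2 * (σ * N) := by rw [hτdef]; ring
          _ ≤ _ := by gcongr
      have h9 : c * N ≤ τ / 100 * N := by gcongr
      have h10 : 0 < τ * N := by positivity
      push_cast
      linarith)
  refine ⟨D, hD1, (Finset.subset_union_left).trans hD2, ?_, ?_⟩
  · intro e he
    rcases Finset.mem_union.1 (hD3 he) with h1 | h1
    · exact hmem e h1
    · exact Finset.mem_union_right _ (Finset.mem_sdiff.1 h1).1
  · intro p
    have h1 : deg (D ∩ H) p ≤ deg (D ∩ (H \ Fx)) p + deg Fx p := by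
      refine le_trans (deg_mono ?_ p) (deg_union_le _ _ p)
      intro e he
      rw [Finset.mem_inter] at he
      by_cases h2 : e ∈ Fx
      · exact Finset.mem_union_right _ h2
      · exact Finset.mem_union_left _ (Finset.mem_inter.2 ⟨he.1, Finset.mem_sdiff.2 ⟨he.2, h2⟩⟩)
    have h2 : deg (D ∩ H) p ≤ 2 * (lam + l + lam) + (l + 1) :=
      h1.trans (Nat.add_le_add (hD4 p) (hFxd p))
    have h3 : (deg (D ∩ H) p : ℝ) ≤ 2 * (lam + l + lam) + (l + 1) := by exact_mod_cast h2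
    have h4 : c * N ≤ ρ / 16 * N := by gcongr
    have h5 : 0 < ρ * N := by positivity
    linarith

end H15C6
end S_CV

section S_CD
/-!
Module CD.  The cover-down step of the iterative absorption.

Data: `U2 ⊆ U1 ⊆ U`, graph `E` inside `U`, current graph `E' ⊆ E` which contains all edges of `E`
inside `U1` and misses at most `θ|U1|` edges of `E` from every vertex into `U1`; colouring `χ`.
Write `W = U \ U1`, `S = U1 \ U2`, `s = |U1|`; `s ≤ 3|S|` because `3|U2| ≤ L|U2| ≤ 2 s`;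
`|U| ≤ 2 L s`, `s ≤ 2 L |U2|`.

Choice of constants: `K := ⌈C L / h^2⌉` (`C` a large absolute constant), then
`θ := min (h/(4K^2)) (h/100)`, `ρ := min (θ/(4L^2)) (h/(100 L))` (so that `ρ|U| ≤ θ|U2|`), then `γ` from
`cover_sparse (h/(2K^2)) (1/(6L)) ρ`, then `s0` large.

Rsv := {s(w,u) ∈ E' : w ∈ W, u ∈ S, χ w = χ u} (reserve);
F0 := {e ∈ E' : e not inside U1, e ∉ Rsv};   H0 := {e ∈ E' : e inside U1, not inside U2} ∪ Rsv.

Step 1.  `sparse_leftover γ` for `F0` inside `U`: `D1 ⊆ F0`, `F := F0 \ D1`, `|F| ≤ γ |U|²`.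

Step 2.  `cover_sparse` with `U, S, H0, F`.  Richness: for `x, y ∈ U` with `R x y`
`P4 H0 S x y ≥ P4c E S χ (χ x) (χ y) x y - 2 θ s |S|^2 ≥ h s^3/K^2 - 2θ s^3 ≥ (h/(2K^2)) |S|^3`:
the inner edges of the walk are inside `S` (not inside `U2`, and in `E'`); the first edge
`s(x,a)` is in `E'` for all but `θ s` vertices `a`; if `x ∈ U1` it is inside `U1` and not inside `U2`; if
`x ∈ W` it is in `Rsv` since `χ a = χ x`.  Result `D2`: `F ⊆ D2 ⊆ F ∪ H0`, `deg (D2 ∩ H0) ≤ ρ|U|`.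

Step 3.  `F3 := Rsv \ D2`, centre = the end in `W` (define `ctr` on `F3` accordingly).  The remaining
graph `E' \ (D1 ∪ D2)` has even degrees and its edges at `w ∈ W` are exactly those of `F3`, so all
counts are even.  Host `H3 := {e ∈ E' \ D2 : e inside S}`.  Load of `u ∈ S`:
`#{w ∈ W : χ w = χ u} ≤ 2|U|/K`; `|F3| ≤ ∑_{w ∈ W} #{u ∈ S : χ u = χ w} ≤ |U| * 2 s/K`.
Richness of `H3` for `u, u' ∈ S` with a common neighbour `w`: summing `P4c` over all pairs of colours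
`P4 E S u u' ≥ h s^3`; deleting `D2` costs at most `4 ρ|U| |S|^2` (`P4_sdiff`, edges inside `S` and edges
from `u,u' ∈ S` to `S` are all inside `U1` hence in `E'`).
Apply `cherry_cover` with `h/2`, `e := ⌊2|U|/K⌋`, `q := ⌈h s/400⌉`:
`18 * (2|U| s/K)/q + 12 * 2|U|/K + 12 q + 8 < (h/2)|S|`, true for `K ≥ C L/h^2`.
Result `D3`: `F3 ⊆ D3 ⊆ F3 ∪ H3`.

`D := D1 ∪ D2 ∪ D3` (pairwise disjoint).  Edges of `D` inside `U1` are in `H0 ∪ H3`, hence not inside
`U2`; edges of `D` from `u ∈ U1` into `U2` are in `D2 ∩ H0`: at most `ρ|U| ≤ θ|U2|`.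
-/

open Finset

namespace H15C6

section aux

variable {V : Type} [Fintype V] [DecidableEq V]

theorem cd_P4_mono {H H' : Finset (Sym2 V)} (h : H ⊆ H') (S : Finset V) (x y : V) :
    P4 H S x y ≤ P4 H' S x y := by
  unfold P4
  apply Finset.card_le_card
  intro t ht
  rw [Finset.mem_filter] at ht ⊢
  exact ⟨ht.1, h ht.2.1, h ht.2.2.1, h ht.2.2.2.1, h ht.2.2.2.2⟩

theorem cd_P4_eq_sum {K : ℕ} (χ : V → Fin K) (E : Finset (Sym2 V)) (S : Finset V) (x y : V) :
    P4 E S x y = ∑ p : Fin K × Fin K, P4c E S χ p.1 p.2 x y := by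
  unfold P4 P4c
  rw [Finset.card_eq_sum_card_fiberwise (f := fun t : V × V × V => (χ t.1, χ t.2.2))
    (t := Finset.univ) (by intro t _; simp)]
  refine Finset.sum_congr rfl fun p _ => ?_
  rw [Finset.filter_filter]
  congr 1
  apply Finset.filter_congr
  intro t _
  rw [Prod.ext_iff]

theorem cd_P4_ge {K : ℕ} (hK : 1 ≤ K) (χ : V → Fin K) (E : Finset (Sym2 V)) (S : Finset V)
    (x y : V) (c : ℝ) (h : ∀ k k', c / (K : ℝ) ^ 2 ≤ (P4c E S χ k k' x y : ℝ)) :
    c ≤ (P4 E S x y : ℝ) := by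
  rw [cd_P4_eq_sum χ]
  push_cast
  have hK0 : (K : ℝ) ≠ 0 := by
    have : (1 : ℝ) ≤ K := by exact_mod_cast hK
    positivity
  calc c = ∑ _p : Fin K × Fin K, c / (K : ℝ) ^ 2 := by
        rw [Finset.sum_const, Finset.card_univ, Fintype.card_prod, Fintype.card_fin, nsmul_eq_mul]
        push_cast
        field_simp
    _ ≤ ∑ p : Fin K × Fin K, (P4c E S χ p.1 p.2 x y : ℝ) :=
        Finset.sum_le_sum fun p _ => h p.1 p.2

theorem cd_P4c_le {K : ℕ} (χ : V → Fin K) (E Ms H : Finset (Sym2 V)) (S : Finset V) (x y : V)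
    (k k' : Fin K)
    (hH : ∀ a ∈ S, ∀ b ∈ S, ∀ c ∈ S, s(x, a) ∈ E → s(a, b) ∈ E → s(b, c) ∈ E → s(c, y) ∈ E →
      χ a = k → χ c = k' → s(x, a) ∉ Ms → s(c, y) ∉ Ms →
      s(x, a) ∈ H ∧ s(a, b) ∈ H ∧ s(b, c) ∈ H ∧ s(c, y) ∈ H) :
    P4c E S χ k k' x y ≤ P4 H S x y + (dg Ms S x + dg Ms S y) * S.card ^ 2 := by
  have hsub : ((S ×ˢ S ×ˢ S).filter (fun t => (s(x, t.1) ∈ E ∧ s(t.1, t.2.1) ∈ E ∧
      s(t.2.1, t.2.2) ∈ E ∧ s(t.2.2, y) ∈ E) ∧ χ t.1 = k ∧ χ t.2.2 = k')) ⊆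
      ((S ×ˢ S ×ˢ S).filter (fun t => s(x, t.1) ∈ H ∧ s(t.1, t.2.1) ∈ H ∧
        s(t.2.1, t.2.2) ∈ H ∧ s(t.2.2, y) ∈ H)) ∪
      ((S.filter (fun a => s(x, a) ∈ Ms)) ×ˢ S ×ˢ S ∪
        S ×ˢ S ×ˢ (S.filter (fun c => s(y, c) ∈ Ms))) := by
    rintro ⟨a, b, c⟩ ht
    simp only [Finset.mem_filter, Finset.mem_product, Finset.mem_union] at ht ⊢
    obtain ⟨⟨ha, hb, hc⟩, ⟨e1, e2, e3, e4⟩, k1, k2⟩ := ht
    by_cases m1 : s(x, a) ∈ Ms
    · right; left; exact ⟨⟨ha, m1⟩, hb, hc⟩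
    · by_cases m2 : s(c, y) ∈ Ms
      · right; right
        rw [Sym2.eq_swap] at m2
        exact ⟨ha, hb, hc, m2⟩
      · left
        exact ⟨⟨ha, hb, hc⟩, hH a ha b hb c hc e1 e2 e3 e4 k1 k2 m1 m2⟩
  have h1 := Finset.card_le_card hsub
  have h2 := Finset.card_union_le ((S ×ˢ S ×ˢ S).filter (fun t => s(x, t.1) ∈ H ∧
        s(t.1, t.2.1) ∈ H ∧ s(t.2.1, t.2.2) ∈ H ∧ s(t.2.2, y) ∈ H))
      ((S.filter (fun a => s(x, a) ∈ Ms)) ×ˢ S ×ˢ S ∪
        S ×ˢ S ×ˢ (S.filter (fun c => s(y, c) ∈ Ms)))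
  have h3 := Finset.card_union_le ((S.filter (fun a => s(x, a) ∈ Ms)) ×ˢ S ×ˢ S)
    (S ×ˢ S ×ˢ (S.filter (fun c => s(y, c) ∈ Ms)))
  rw [Finset.card_product, Finset.card_product, Finset.card_product, Finset.card_product] at h3
  unfold P4c P4 dg
  calc _ ≤ _ := h1
    _ ≤ _ := h2
    _ ≤ _ := Nat.add_le_add_left h3 _
    _ = _ := by ring

/-- the reserve -/
def cd_Rsv {K : ℕ} (W S : Finset V) (χ : V → Fin K) (E' : Finset (Sym2 V)) : Finset (Sym2 V) :=
  E'.filter (fun e => ∃ w ∈ W, ∃ u ∈ S, χ w = χ u ∧ e = s(w, u))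

/-- the edges inside `U1` -/
def cd_In (U1 : Finset V) (E' : Finset (Sym2 V)) : Finset (Sym2 V) :=
  E'.filter (fun e => e ∈ U1.sym2)

/-- the edges to be removed first -/
def cd_F0 {K : ℕ} (U U1 U2 : Finset V) (χ : V → Fin K) (E' : Finset (Sym2 V)) :
    Finset (Sym2 V) :=
  E' \ (cd_In U1 E' ∪ cd_Rsv (U \ U1) (U1 \ U2) χ E')

/-- the first host -/
def cd_H0 {K : ℕ} (U U1 U2 : Finset V) (χ : V → Fin K) (E' : Finset (Sym2 V)) :
    Finset (Sym2 V) :=
  (cd_In U1 E').filter (fun e => e ∉ U2.sym2) ∪ cd_Rsv (U \ U1) (U1 \ U2) χ E'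

open Classical in
/-- the centre of a reserve edge -/
noncomputable def cd_ctr (W : Finset V) (f : Sym2 V) : V :=
  if h : ∃ w ∈ W, w ∈ f then h.choose else (Quot.out f).1

theorem cd_mem_Rsv {K : ℕ} {W S : Finset V} {χ : V → Fin K} {E' : Finset (Sym2 V)} {e : Sym2 V} :
    e ∈ cd_Rsv W S χ E' ↔ e ∈ E' ∧ ∃ w ∈ W, ∃ u ∈ S, χ w = χ u ∧ e = s(w, u) := by
  unfold cd_Rsv
  rw [Finset.mem_filter]

theorem cd_mem_In {U1 : Finset V} {E' : Finset (Sym2 V)} {e : Sym2 V} :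
    e ∈ cd_In U1 E' ↔ e ∈ E' ∧ e ∈ U1.sym2 := by
  unfold cd_In
  rw [Finset.mem_filter]

theorem cd_mem_F0 {K : ℕ} {U U1 U2 : Finset V} {χ : V → Fin K} {E' : Finset (Sym2 V)}
    {e : Sym2 V} : e ∈ cd_F0 U U1 U2 χ E' ↔ e ∈ E' ∧ e ∉ U1.sym2 ∧
      e ∉ cd_Rsv (U \ U1) (U1 \ U2) χ E' := by
  unfold cd_F0
  rw [Finset.mem_sdiff, Finset.mem_union, cd_mem_In]
  tauto

theorem cd_mem_H0 {K : ℕ} {U U1 U2 : Finset V} {χ : V → Fin K} {E' : Finset (Sym2 V)}
    {e : Sym2 V} : e ∈ cd_H0 U U1 U2 χ E' ↔ (e ∈ E' ∧ e ∈ U1.sym2 ∧ e ∉ U2.sym2) ∨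
      e ∈ cd_Rsv (U \ U1) (U1 \ U2) χ E' := by
  unfold cd_H0
  rw [Finset.mem_union, Finset.mem_filter, cd_mem_In]
  tauto

theorem cd_Rsv_notIn {K : ℕ} {U U1 U2 : Finset V} {χ : V → Fin K} {E' : Finset (Sym2 V)}
    {e : Sym2 V} (he : e ∈ cd_Rsv (U \ U1) (U1 \ U2) χ E') : e ∉ U1.sym2 := by
  obtain ⟨_, w, hw, u, hu, _, rfl⟩ := cd_mem_Rsv.1 he
  rw [Finset.mk_mem_sym2_iff]
  intro h
  exact (Finset.mem_sdiff.1 hw).2 h.1

theorem cd_sym2_mono {A B : Finset V} (h : A ⊆ B) {e : Sym2 V} (he : e ∈ A.sym2) :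
    e ∈ B.sym2 := Finset.sym2_mono h he

theorem cd_ctr_spec {W T : Finset V} (hWT : Disjoint W T) {w u : V} (hw : w ∈ W) (hu : u ∈ T) :
    cd_ctr W s(w, u) = w := by
  unfold cd_ctr
  have hex : ∃ w' ∈ W, w' ∈ s(w, u) := ⟨w, hw, Sym2.mem_mk_left w u⟩
  rw [dif_pos hex]
  obtain ⟨h1, h2⟩ := hex.choose_spec
  rcases Sym2.mem_iff.1 h2 with h | h
  · exact h
  · rw [h] at h1
    exact absurd hu (Finset.disjoint_left.1 hWT h1)

theorem cd_H0_rich {K : ℕ} {U U1 U2 : Finset V} (hU21 : U2 ⊆ U1) (χ : V → Fin K)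
    {E E' : Finset (Sym2 V)} (hin : ∀ e ∈ E, e ∈ U1.sym2 → e ∈ E')
    {x y : V} (hx : x ∈ U) (hy : y ∈ U) :
    P4c E (U1 \ U2) χ (χ x) (χ y) x y ≤ P4 (cd_H0 U U1 U2 χ E') (U1 \ U2) x y +
      (dg (E \ E') (U1 \ U2) x + dg (E \ E') (U1 \ U2) y) * (U1 \ U2).card ^ 2 := by
  apply cd_P4c_le
  intro a ha b hb c hc e1 e2 e3 e4 k1 k2 m1 m2
  have hS : ∀ z ∈ U1 \ U2, z ∈ U1 ∧ z ∉ U2 := fun z hz => Finset.mem_sdiff.1 hz
  have inner : ∀ p ∈ U1 \ U2, ∀ q ∈ U1 \ U2, s(p, q) ∈ E → s(p, q) ∈ cd_H0 U U1 U2 χ E' := by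
    intro p hp q hq hpq
    rw [cd_mem_H0]
    left
    have h1 : s(p, q) ∈ U1.sym2 := Finset.mk_mem_sym2_iff.2 ⟨(hS p hp).1, (hS q hq).1⟩
    refine ⟨hin _ hpq h1, h1, ?_⟩
    rw [Finset.mk_mem_sym2_iff]
    exact fun h => (hS p hp).2 h.1
  have outer : ∀ p ∈ U, ∀ q ∈ U1 \ U2, s(p, q) ∈ E → χ q = χ p → s(p, q) ∉ E \ E' →
      s(p, q) ∈ cd_H0 U U1 U2 χ E' := by
    intro p hp q hq hpq hk hm
    have hE' : s(p, q) ∈ E' := by
      by_contra hne
      exact hm (Finset.mem_sdiff.2 ⟨hpq, hne⟩)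
    rw [cd_mem_H0]
    by_cases hp1 : p ∈ U1
    · left
      refine ⟨hE', Finset.mk_mem_sym2_iff.2 ⟨hp1, (hS q hq).1⟩, ?_⟩
      rw [Finset.mk_mem_sym2_iff]
      exact fun h => (hS q hq).2 h.2
    · right
      rw [cd_mem_Rsv]
      exact ⟨hE', p, Finset.mem_sdiff.2 ⟨hp, hp1⟩, q, hq, hk.symm, rfl⟩
  refine ⟨outer x hx a ha e1 k1 m1, inner a ha b hb e2, inner b hb c hc e3, ?_⟩
  rw [Sym2.eq_swap] at e4 m2 ⊢
  exact outer y hy c hc e4 k2 m2

/-- the second host -/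
def cd_H3 (S : Finset V) (E' D2 : Finset (Sym2 V)) : Finset (Sym2 V) :=
  (E' \ D2).filter (fun e => e ∈ S.sym2)

theorem cd_mem_H3 {S : Finset V} {E' D2 : Finset (Sym2 V)} {e : Sym2 V} :
    e ∈ cd_H3 S E' D2 ↔ e ∈ E' ∧ e ∉ D2 ∧ e ∈ S.sym2 := by
  unfold cd_H3
  rw [Finset.mem_filter, Finset.mem_sdiff]
  tauto

theorem cd_H3_rich {K : ℕ} {U U1 U2 : Finset V} (χ : V → Fin K)
    {E E' D2 : Finset (Sym2 V)} (hin : ∀ e ∈ E, e ∈ U1.sym2 → e ∈ E')
    {d : ℕ} (hd : ∀ p, deg (D2 ∩ cd_H0 U U1 U2 χ E') p ≤ d)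
    {x y : V} (hx : x ∈ U1 \ U2) (hy : y ∈ U1 \ U2) :
    P4 E (U1 \ U2) x y ≤ P4 (cd_H3 (U1 \ U2) E' D2) (U1 \ U2) x y +
      4 * d * (U1 \ U2).card ^ 2 := by
  have hS : ∀ z ∈ U1 \ U2, z ∈ U1 ∧ z ∉ U2 := fun z hz => Finset.mem_sdiff.1 hz
  have hloc : P4 E (U1 \ U2) x y ≤
      P4 (E.filter (fun e => e ∈ (U1 \ U2).sym2)) (U1 \ U2) x y := by
    unfold P4
    apply Finset.card_le_card
    rintro ⟨a, b, c⟩ ht
    simp only [Finset.mem_filter, Finset.mem_product] at ht ⊢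
    obtain ⟨⟨ha, hb, hc⟩, e1, e2, e3, e4⟩ := ht
    exact ⟨⟨ha, hb, hc⟩, ⟨e1, Finset.mk_mem_sym2_iff.2 ⟨hx, ha⟩⟩,
      ⟨e2, Finset.mk_mem_sym2_iff.2 ⟨ha, hb⟩⟩, ⟨e3, Finset.mk_mem_sym2_iff.2 ⟨hb, hc⟩⟩,
      ⟨e4, Finset.mk_mem_sym2_iff.2 ⟨hc, hy⟩⟩⟩
  have h1 := P4_sdiff (S := U1 \ U2) (E.filter (fun e => e ∈ (U1 \ U2).sym2))
    (D2 ∩ cd_H0 U U1 U2 χ E') hd x y
  have h2 : E.filter (fun e => e ∈ (U1 \ U2).sym2) \ (D2 ∩ cd_H0 U U1 U2 χ E') ⊆
      cd_H3 (U1 \ U2) E' D2 := by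
    intro e he
    rw [Finset.mem_sdiff, Finset.mem_filter, Finset.mem_inter] at he
    obtain ⟨⟨heE, heS⟩, hne⟩ := he
    have he1 : e ∈ U1.sym2 := cd_sym2_mono Finset.sdiff_subset heS
    have he' : e ∈ E' := hin e heE he1
    have he2 : e ∉ U2.sym2 := by
      induction e using Sym2.ind with
      | _ p q =>
        rw [Finset.mk_mem_sym2_iff] at heS ⊢
        exact fun h => (hS p heS.1).2 h.1
    rw [cd_mem_H3]
    refine ⟨he', fun hD => hne ⟨hD, ?_⟩, heS⟩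
    rw [cd_mem_H0]
    exact Or.inl ⟨he', he1, he2⟩
  have h3 := cd_P4_mono h2 (U1 \ U2) x y
  omega

theorem cd_card_Rsv {K : ℕ} {U U1 U2 : Finset V} (χ : V → Fin K) (E' : Finset (Sym2 V)) {c : ℝ}
    (hc : ∀ k : Fin K, (((U1 \ U2).filter (fun u => χ u = k)).card : ℝ) ≤ c) :
    ((cd_Rsv (U \ U1) (U1 \ U2) χ E').card : ℝ) ≤ U.card * c := by
  have hsub : cd_Rsv (U \ U1) (U1 \ U2) χ E' ⊆ (U \ U1).biUnion (fun w =>
      ((U1 \ U2).filter (fun u => χ u = χ w)).image (fun u => s(w, u))) := by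
    intro e he
    obtain ⟨_, w, hw, u, hu, hk, rfl⟩ := cd_mem_Rsv.1 he
    rw [Finset.mem_biUnion]
    exact ⟨w, hw, Finset.mem_image.2 ⟨u, Finset.mem_filter.2 ⟨hu, hk.symm⟩, rfl⟩⟩
  have h1 : ((cd_Rsv (U \ U1) (U1 \ U2) χ E').card : ℝ) ≤
      ∑ w ∈ U \ U1, (((U1 \ U2).filter (fun u => χ u = χ w)).card : ℝ) := by
    have h2 := le_trans (Finset.card_le_card hsub) Finset.card_biUnion_le
    have h3 : ∑ w ∈ U \ U1, (((U1 \ U2).filter (fun u => χ u = χ w)).image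
        (fun u => s(w, u))).card ≤ ∑ w ∈ U \ U1, ((U1 \ U2).filter (fun u => χ u = χ w)).card :=
      Finset.sum_le_sum fun w _ => Finset.card_image_le
    exact_mod_cast le_trans h2 h3
  refine le_trans h1 (le_trans (Finset.sum_le_sum fun w _ => hc (χ w)) ?_)
  rw [Finset.sum_const, nsmul_eq_mul]
  rcases (U \ U1).eq_empty_or_nonempty with h0 | ⟨w, _⟩
  · rw [h0, Finset.card_empty, Nat.cast_zero, zero_mul]
    rcases Nat.eq_zero_or_pos K with hK | hK
    · subst hK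
      rcases U.eq_empty_or_nonempty with hU | ⟨u, _⟩
      · rw [hU]; simp
      · exact (χ u).elim0
    · have := hc ⟨0, hK⟩
      have h4 : (0 : ℝ) ≤ c := le_trans (Nat.cast_nonneg _) this
      positivity
  · have h4 : (0 : ℝ) ≤ c := le_trans (Nat.cast_nonneg _) (hc (χ w))
    apply mul_le_mul_of_nonneg_right _ h4
    exact_mod_cast Finset.card_le_card Finset.sdiff_subset

theorem cd_load {K : ℕ} {U U1 U2 : Finset V} (χ : V → Fin K)
    (E' F3 : Finset (Sym2 V)) (hF3 : F3 ⊆ cd_Rsv (U \ U1) (U1 \ U2) χ E') (p : V) :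
    (F3.filter (fun f => p ∈ f ∧ cd_ctr (U \ U1) f ≠ p)).card ≤
      ((U \ U1).filter (fun u => χ u = χ p)).card := by
  have hdis : Disjoint (U \ U1) (U1 \ U2) := by
    rw [Finset.disjoint_left]
    intro a ha hb
    exact (Finset.mem_sdiff.1 ha).2 (Finset.mem_sdiff.1 hb).1
  have hsub : F3.filter (fun f => p ∈ f ∧ cd_ctr (U \ U1) f ≠ p) ⊆
      ((U \ U1).filter (fun u => χ u = χ p)).image (fun w => s(w, p)) := by
    intro f hf
    rw [Finset.mem_filter] at hf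
    obtain ⟨hf, hp, hc⟩ := hf
    obtain ⟨_, w, hw, u, hu, hk, rfl⟩ := cd_mem_Rsv.1 (hF3 hf)
    rw [cd_ctr_spec hdis hw hu] at hc
    rcases Sym2.mem_iff.1 hp with h | h
    · exact absurd h.symm hc
    · subst h
      exact Finset.mem_image.2 ⟨w, Finset.mem_filter.2 ⟨hw, hk⟩, rfl⟩
  exact le_trans (Finset.card_le_card hsub) Finset.card_image_le

theorem cd_heven {K : ℕ} {U U1 U2 : Finset V} (χ : V → Fin K)
    (E' D1 D2 : Finset (Sym2 V)) (hE' : EvenDeg E') (h1 : Dec D1) (h2 : Dec D2)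
    (hD1 : D1 ⊆ cd_F0 U U1 U2 χ E') (hD2 : D2 ⊆ E') (hdisj : Disjoint D1 D2)
    (hF0 : cd_F0 U U1 U2 χ E' ⊆ D1 ∪ D2) (v : V) :
    Even ((cd_Rsv (U \ U1) (U1 \ U2) χ E' \ D2).filter
      (fun f => cd_ctr (U \ U1) f = v)).card := by
  have hdis : Disjoint (U \ U1) (U1 \ U2) := by
    rw [Finset.disjoint_left]
    intro a ha hb
    exact (Finset.mem_sdiff.1 ha).2 (Finset.mem_sdiff.1 hb).1
  by_cases hv : v ∈ U \ U1
  · have hD1E : D1 ⊆ E' := fun e he => (cd_mem_F0.1 (hD1 he)).1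
    have hev : EvenDeg (E' \ (D1 ∪ D2)) :=
      hE'.sdiff (h1.even.union h2.even hdisj) (Finset.union_subset hD1E hD2)
    have e : (cd_Rsv (U \ U1) (U1 \ U2) χ E' \ D2).filter
        (fun f => cd_ctr (U \ U1) f = v) = (E' \ (D1 ∪ D2)).filter (fun e => v ∈ e) := by
      ext f
      rw [Finset.mem_filter, Finset.mem_filter, Finset.mem_sdiff, Finset.mem_sdiff,
        Finset.mem_union]
      constructor
      · rintro ⟨⟨hf, hf2⟩, hc⟩
        have hfR := hf
        obtain ⟨hfE, w, hw, u, hu, hk, rfl⟩ := cd_mem_Rsv.1 hf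
        rw [cd_ctr_spec hdis hw hu] at hc
        subst hc
        refine ⟨⟨hfE, ?_⟩, Sym2.mem_mk_left _ _⟩
        rintro (hd | hd)
        · exact (cd_mem_F0.1 (hD1 hd)).2.2 hfR
        · exact hf2 hd
      · rintro ⟨⟨hfE, hne⟩, hvf⟩
        have hnotin : f ∉ U1.sym2 := by
          intro hfin
          rw [Finset.mem_sym2_iff] at hfin
          exact (Finset.mem_sdiff.1 hv).2 (hfin v hvf)
        have hR : f ∈ cd_Rsv (U \ U1) (U1 \ U2) χ E' := by
          by_contra hR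
          have := hF0 (cd_mem_F0.2 ⟨hfE, hnotin, hR⟩)
          rw [Finset.mem_union] at this
          exact hne this
        refine ⟨⟨hR, fun hd => hne (Or.inr hd)⟩, ?_⟩
        obtain ⟨_, w, hw, u, hu, hk, rfl⟩ := cd_mem_Rsv.1 hR
        rw [cd_ctr_spec hdis hw hu]
        rcases Sym2.mem_iff.1 hvf with h | h
        · exact h.symm
        · rw [h] at hv
          exact absurd hu (Finset.disjoint_left.1 hdis hv)
    rw [e]
    exact hev v
  · have e : (cd_Rsv (U \ U1) (U1 \ U2) χ E' \ D2).filter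
        (fun f => cd_ctr (U \ U1) f = v) = ∅ := by
      rw [Finset.filter_eq_empty_iff]
      intro f hf hc
      rw [Finset.mem_sdiff] at hf
      obtain ⟨_, w, hw, u, hu, hk, rfl⟩ := cd_mem_Rsv.1 hf.1
      rw [cd_ctr_spec hdis hw hu] at hc
      exact hv (hc ▸ hw)
    rw [e]
    simp

end aux

theorem cd_num {h L K s F e q Sc : ℝ} (hh : 0 < h) (hL : 3 ≤ L) (hK : 0 < K)
    (hK1 : 1000000 * L / h ^ 2 ≤ K) (hK2 : 1000000 * L / h ≤ K) (hs0 : 0 < s)
    (hs : 1000 ≤ h * s) (hF : F ≤ 4 * L * s ^ 2 / K) (he : e ≤ 4 * L * s / K)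
    (hq : h * s / 400 ≤ q) (hq2 : q ≤ h * s / 400 + 1) (hS : s / 3 ≤ Sc) :
    18 * F / q + 12 * e + 12 * q + 8 < h / 2 * Sc := by
  have hq0 : 0 < q := lt_of_lt_of_le (by positivity) hq
  rw [div_le_iff₀ (by positivity)] at hK1 hK2
  have k1 : L / K ≤ h ^ 2 / 1000000 := by
    rw [div_le_div_iff₀ hK (by norm_num)]
    linarith
  have k2 : L / K ≤ h / 1000000 := by
    rw [div_le_div_iff₀ hK (by norm_num)]
    linarith
  have f1 : F ≤ 4 * (h ^ 2 / 1000000) * s ^ 2 := by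
    refine le_trans hF ?_
    have e1 : 4 * L * s ^ 2 / K = 4 * (L / K) * s ^ 2 := by ring
    rw [e1]
    apply mul_le_mul_of_nonneg_right _ (by positivity)
    linarith
  have f2 : 18 * F / q ≤ 288 / 10000 * (h * s) := by
    rw [div_le_iff₀ hq0]
    have : 288 / 10000 * (h * s) * (h * s / 400) ≤ 288 / 10000 * (h * s) * q :=
      mul_le_mul_of_nonneg_left hq (by positivity)
    nlinarith
  have f3 : e ≤ 4 / 1000000 * (h * s) := by
    refine le_trans he ?_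
    have e1 : 4 * L * s / K = 4 * (L / K) * s := by ring
    rw [e1]
    nlinarith
  nlinarith

theorem cover_down (h : ℝ) (hh : 0 < h) (L : ℕ) (hL : 3 ≤ L) :
    ∃ K : ℕ, 1 ≤ K ∧ ∃ θ : ℝ, 0 < θ ∧ ∃ s0 : ℕ,
      ∀ (V : Type) [Fintype V] [DecidableEq V] (U U1 U2 : Finset V) (E E' : Finset (Sym2 V))
        (R : V → V → Prop) (χ : V → Fin K),
      U1 ⊆ U → U2 ⊆ U1 → s0 ≤ U1.card → (U.card : ℝ) ≤ 2 * L * U1.card →
      (U1.card : ℝ) ≤ 2 * L * U2.card → (L : ℝ) * U2.card ≤ 2 * U1.card →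
      E ⊆ U.sym2 → Loopless E →
      (∀ v x y, s(v, x) ∈ E → s(v, y) ∈ E → R x y) →
      (∀ x ∈ U, ∀ y ∈ U, R x y → ∀ k k' : Fin K,
        h * (U1.card : ℝ) ^ 3 / (K : ℝ) ^ 2 ≤ (P4c E (U1 \ U2) χ k k' x y : ℝ)) →
      (∀ k : Fin K, (((U1 \ U2).filter (fun u => χ u = k)).card : ℝ) ≤ 2 * U1.card / K) →
      (∀ k : Fin K, (((U \ U1).filter (fun u => χ u = k)).card : ℝ) ≤ 2 * U.card / K) →
      E' ⊆ E → (∀ e ∈ E, e ∈ U1.sym2 → e ∈ E') →
      (∀ u ∈ U, (dg (E \ E') U1 u : ℝ) ≤ θ * U1.card) → EvenDeg E' →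
      ∃ D ⊆ E', Dec D ∧ (∀ e ∈ E' \ D, e ∈ U1.sym2) ∧ (∀ e ∈ D, e ∉ U2.sym2) ∧
        (∀ u ∈ U1, (dg D U2 u : ℝ) ≤ θ * U2.card) := by
  have hLR : (3 : ℝ) ≤ L := by exact_mod_cast hL
  -- constants
  obtain ⟨K, hKdef⟩ : ∃ K : ℕ, K = ⌈1000000 * (L : ℝ) / h ^ 2 + 1000000 * (L : ℝ) / h⌉₊ + 1 :=
    ⟨_, rfl⟩
  have hK1 : 1 ≤ K := by omega
  have hKR : (1 : ℝ) ≤ K := by exact_mod_cast hK1
  have hKbig : 1000000 * (L : ℝ) / h ^ 2 + 1000000 * (L : ℝ) / h ≤ K := by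
    have h1 := Nat.le_ceil (1000000 * (L : ℝ) / h ^ 2 + 1000000 * (L : ℝ) / h)
    have h2 : (⌈1000000 * (L : ℝ) / h ^ 2 + 1000000 * (L : ℝ) / h⌉₊ : ℝ) ≤ K := by
      rw [hKdef]; push_cast; linarith
    linarith
  have hKa : 1000000 * (L : ℝ) / h ^ 2 ≤ K := by
    have : 0 ≤ 1000000 * (L : ℝ) / h := by positivity
    linarith
  have hKb : 1000000 * (L : ℝ) / h ≤ K := by
    have : 0 ≤ 1000000 * (L : ℝ) / h ^ 2 := by positivity
    linarith
  obtain ⟨θ, hθdef⟩ : ∃ θ : ℝ, θ = h / (4 * (K : ℝ) ^ 2) := ⟨_, rfl⟩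
  have hθ : 0 < θ := by rw [hθdef]; positivity
  obtain ⟨ρ, hρdef⟩ : ∃ ρ : ℝ, ρ = min (θ / (4 * (L : ℝ) ^ 2)) (h / (100 * L)) := ⟨_, rfl⟩
  have hρ : 0 < ρ := by rw [hρdef]; positivity
  have hρ1 : ρ ≤ θ / (4 * (L : ℝ) ^ 2) := by rw [hρdef]; exact min_le_left _ _
  have hρ2 : ρ ≤ h / (100 * L) := by rw [hρdef]; exact min_le_right _ _
  obtain ⟨γ, hγ, N1, hcov⟩ := cover_sparse (h / (2 * (K : ℝ) ^ 2)) (1 / (6 * L)) ρ
    (by positivity) (by positivity) hρ
  obtain ⟨N2, hkst⟩ := sparse_leftover γ hγ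
  refine ⟨K, hK1, θ, hθ, max (max N1 N2) (⌈1000 / h⌉₊ + 1), ?_⟩
  intro V _ _ U U1 U2 E E' R χ hU1 hU21 hs0 hUs hs2 hL2 hEU hE hR hP4 hcol1 hcol2 hE'E hin hmiss hE'
  set s : ℝ := (U1.card : ℝ) with hs
  have hsN : N1 ≤ U1.card ∧ N2 ≤ U1.card ∧ ⌈1000 / h⌉₊ + 1 ≤ U1.card :=
    ⟨le_trans (le_trans (le_max_left _ _) (le_max_left _ _)) hs0,
      le_trans (le_trans (le_max_right _ _) (le_max_left _ _)) hs0, le_trans (le_max_right _ _) hs0⟩
  have hs1 : 1 ≤ s := by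
    have : 1 ≤ U1.card := by omega
    rw [hs]; exact_mod_cast this
  have hs0' : 0 < s := by linarith
  have hhs : 1000 ≤ h * s := by
    have h1 := Nat.le_ceil (1000 / h)
    have h2 : ((⌈1000 / h⌉₊ + 1 : ℕ) : ℝ) ≤ s := by rw [hs]; exact_mod_cast hsN.2.2
    push_cast at h2
    have h3 : 1000 / h ≤ s := by linarith
    rw [div_le_iff₀ hh] at h3
    linarith
  have hUU : U1.card ≤ U.card := Finset.card_le_card hU1
  have hcardS : ((U1 \ U2).card : ℝ) = s - U2.card := by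
    rw [Finset.card_sdiff_of_subset hU21, Nat.cast_sub (Finset.card_le_card hU21)]
  have hS3 : s / 3 ≤ ((U1 \ U2).card : ℝ) := by
    rw [hcardS]
    have h0 : (0 : ℝ) ≤ U2.card := Nat.cast_nonneg _
    nlinarith
  have hSle : ((U1 \ U2).card : ℝ) ≤ s := by
    rw [hs]; exact_mod_cast Finset.card_le_card Finset.sdiff_subset
  have hSU : U1 \ U2 ⊆ U := (Finset.sdiff_subset).trans hU1
  have hS0 : (0 : ℝ) ≤ ((U1 \ U2).card : ℝ) := Nat.cast_nonneg _
  -- step 1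
  obtain ⟨D1, hD1F, hD1, hD1c⟩ := hkst V U (cd_F0 U U1 U2 χ E') (le_trans hsN.2.1 hUU)
    (fun e he => hEU (hE'E (cd_mem_F0.1 he).1)) (hE.mono (fun e he => hE'E (cd_mem_F0.1 he).1))
  -- step 2
  have hH0E : cd_H0 U U1 U2 χ E' ⊆ E' := by
    intro e he
    rcases cd_mem_H0.1 he with h | h
    · exact h.1
    · exact (cd_mem_Rsv.1 h).1
  have hF0E : cd_F0 U U1 U2 χ E' ⊆ E' := fun e he => (cd_mem_F0.1 he).1
  have hF0H0 : Disjoint (cd_F0 U U1 U2 χ E') (cd_H0 U U1 U2 χ E') := by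
    rw [Finset.disjoint_left]
    intro e he he'
    have h1 := cd_mem_F0.1 he
    rcases cd_mem_H0.1 he' with h | h
    · exact h1.2.1 h.2.1
    · exact h1.2.2 h
  have hσ : 1 / (6 * (L : ℝ)) * (U.card : ℝ) ≤ ((U1 \ U2).card : ℝ) := by
    have h1 : 1 / (6 * (L : ℝ)) * (U.card : ℝ) ≤ 1 / (6 * (L : ℝ)) * (2 * L * s) :=
      mul_le_mul_of_nonneg_left hUs (by positivity)
    have h2 : 1 / (6 * (L : ℝ)) * (2 * L * s) = s / 3 := by field_simp; ring
    linarith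
  obtain ⟨D2, hD2, hFD2, hD2sub, hD2deg⟩ := hcov V U (U1 \ U2) (cd_H0 U U1 U2 χ E')
    (cd_F0 U U1 U2 χ E' \ D1) (le_trans hsN.1 hUU) hSU hσ (hH0E.trans (hE'E.trans hEU))
    ((Finset.sdiff_subset.trans hF0E).trans (hE'E.trans hEU)) (hE.mono (hH0E.trans hE'E))
    (hE.mono ((Finset.sdiff_subset.trans hF0E).trans hE'E))
    (Finset.disjoint_of_subset_left Finset.sdiff_subset hF0H0) hD1c (by
      intro v u w huv hvw
      have key : ∀ x, s(v, x) ∈ (cd_F0 U U1 U2 χ E' \ D1) ∪ cd_H0 U U1 U2 χ E' →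
          s(v, x) ∈ E := by
        intro x hx
        rw [Finset.mem_union, Finset.mem_sdiff] at hx
        rcases hx with hx | hx
        · exact hE'E (hF0E hx.1)
        · exact hE'E (hH0E hx)
      have hu := key u huv
      have hw := key w hvw
      have huU : u ∈ U := (Finset.mk_mem_sym2_iff.1 (hEU hu)).2
      have hwU : w ∈ U := (Finset.mk_mem_sym2_iff.1 (hEU hw)).2
      have h1 := hP4 u huU w hwU (hR v u w hu hw) (χ u) (χ w)
      have h2 : (P4c E (U1 \ U2) χ (χ u) (χ w) u w : ℝ) ≤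
          (P4 (cd_H0 U U1 U2 χ E') (U1 \ U2) u w : ℝ) +
          ((dg (E \ E') (U1 \ U2) u : ℝ) + (dg (E \ E') (U1 \ U2) w : ℝ)) *
            ((U1 \ U2).card : ℝ) ^ 2 := by
        exact_mod_cast cd_H0_rich hU21 χ hin huU hwU
      have h3 : ∀ x ∈ U, (dg (E \ E') (U1 \ U2) x : ℝ) ≤ θ * s := by
        intro x hx
        refine le_trans ?_ (hmiss x hx)
        exact_mod_cast dg_mono_right _ Finset.sdiff_subset x
      have h4 : ((dg (E \ E') (U1 \ U2) u : ℝ) + (dg (E \ E') (U1 \ U2) w : ℝ)) *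
            ((U1 \ U2).card : ℝ) ^ 2 ≤ (2 * (θ * s)) * s ^ 2 := by
        apply mul_le_mul _ (pow_le_pow_left₀ hS0 hSle 2) (by positivity) (by positivity)
        have := h3 u huU
        have := h3 w hwU
        linarith
      have h5 : h * s ^ 3 / (K : ℝ) ^ 2 - (2 * (θ * s)) * s ^ 2 =
          h / (2 * (K : ℝ) ^ 2) * s ^ 3 := by
        rw [hθdef]
        field_simp
        ring
      have h6 : h / (2 * (K : ℝ) ^ 2) * ((U1 \ U2).card : ℝ) ^ 3 ≤
          h / (2 * (K : ℝ) ^ 2) * s ^ 3 :=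
        mul_le_mul_of_nonneg_left (pow_le_pow_left₀ hS0 hSle 3) (by positivity)
      linarith)
  -- consequences
  have hD1E : D1 ⊆ E' := hD1F.trans hF0E
  have hD2E : D2 ⊆ E' := by
    refine hD2sub.trans (Finset.union_subset (Finset.sdiff_subset.trans hF0E) hH0E)
  have hD12 : Disjoint D1 D2 := by
    rw [Finset.disjoint_left]
    intro e he he'
    have h1 := hD2sub he'
    rw [Finset.mem_union, Finset.mem_sdiff] at h1
    rcases h1 with h1 | h1
    · exact h1.2 he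
    · exact Finset.disjoint_left.1 hF0H0 (hD1F he) h1
  have hF0D : cd_F0 U U1 U2 χ E' ⊆ D1 ∪ D2 := by
    intro e he
    rw [Finset.mem_union]
    by_cases h1 : e ∈ D1
    · exact Or.inl h1
    · exact Or.inr (hFD2 (Finset.mem_sdiff.2 ⟨he, h1⟩))
  -- step 3
  obtain ⟨F3, hF3def⟩ : ∃ F3, F3 = cd_Rsv (U \ U1) (U1 \ U2) χ E' \ D2 := ⟨_, rfl⟩
  have hF3R : F3 ⊆ cd_Rsv (U \ U1) (U1 \ U2) χ E' := by rw [hF3def]; exact Finset.sdiff_subset
  have hF3E : F3 ⊆ E' := fun e he => (cd_mem_Rsv.1 (hF3R he)).1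
  have hdis : Disjoint (U \ U1) (U1 \ U2) := by
    rw [Finset.disjoint_left]
    intro a ha hb
    exact (Finset.mem_sdiff.1 ha).2 (Finset.mem_sdiff.1 hb).1
  have hH3E : cd_H3 (U1 \ U2) E' D2 ⊆ E' := fun e he => (cd_mem_H3.1 he).1
  have hF3H3 : Disjoint F3 (cd_H3 (U1 \ U2) E' D2) := by
    rw [Finset.disjoint_left]
    intro e he he'
    exact cd_Rsv_notIn (hF3R he) (cd_sym2_mono Finset.sdiff_subset (cd_mem_H3.1 he').2.2)
  have hd : ∀ p, deg (D2 ∩ cd_H0 U U1 U2 χ E') p ≤ ⌊ρ * (U.card : ℝ)⌋₊ := by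
    intro p
    exact Nat.le_floor (hD2deg p)
  have hqpos : 0 < h * s / 400 := by positivity
  obtain ⟨D3, hD3, hF3D3, hD3sub, _⟩ := cherry_cover (U1 \ U2) (cd_H3 (U1 \ U2) E' D2) F3
    (cd_ctr (U \ U1)) (h / 2) ⌊2 * (U.card : ℝ) / K⌋₊ ⌈h * s / 400⌉₊ (Nat.ceil_pos.2 hqpos)
    (hE.mono (hH3E.trans hE'E)) (hE.mono (hF3E.trans hE'E)) hF3H3 (by
      intro f hf
      obtain ⟨_, w, hw, u, hu, _, rfl⟩ := cd_mem_Rsv.1 (hF3R hf)
      rw [cd_ctr_spec hdis hw hu]
      exact Sym2.mem_mk_left _ _) (by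
      intro v
      rw [hF3def]
      exact cd_heven χ E' D1 D2 hE' hD1 hD2 hD1F hD2E hD12 hF0D v) (by
      intro v u w _ huv hvw hcu hcw
      have key : ∀ x, s(v, x) ∈ F3 → cd_ctr (U \ U1) s(v, x) = v → x ∈ U1 \ U2 := by
        intro x hx hc
        obtain ⟨_, w', hw', u', hu', _, he⟩ := cd_mem_Rsv.1 (hF3R hx)
        rw [he, cd_ctr_spec hdis hw' hu'] at hc
        subst hc
        rw [Sym2.congr_right] at he
        rw [he]
        exact hu'
      have huv' : s(v, u) ∈ F3 := by rw [Sym2.eq_swap]; exact huv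
      have hu := key u huv' (by rw [Sym2.eq_swap]; exact hcu)
      have hw := key w hvw hcw
      have hRuw : R u w := hR v u w (hE'E (hF3E huv')) (hE'E (hF3E hvw))
      have h1 : h * s ^ 3 ≤ (P4 E (U1 \ U2) u w : ℝ) :=
        cd_P4_ge hK1 χ E _ u w _ (fun k k' => hP4 u (hSU hu) w (hSU hw) hRuw k k')
      have h2 : (P4 E (U1 \ U2) u w : ℝ) ≤
          (P4 (cd_H3 (U1 \ U2) E' D2) (U1 \ U2) u w : ℝ) +
            4 * (⌊ρ * (U.card : ℝ)⌋₊ : ℝ) * ((U1 \ U2).card : ℝ) ^ 2 := by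
        exact_mod_cast cd_H3_rich (U := U) χ hin hd hu hw
      have h3 : (⌊ρ * (U.card : ℝ)⌋₊ : ℝ) ≤ ρ * U.card := Nat.floor_le (by positivity)
      have h4 : ρ * U.card ≤ h / (100 * L) * (2 * L * s) :=
        mul_le_mul hρ2 hUs (Nat.cast_nonneg _) (by positivity)
      have h5 : h / (100 * (L : ℝ)) * (2 * L * s) = h * s / 50 := by field_simp; ring
      have h6 : 4 * (⌊ρ * (U.card : ℝ)⌋₊ : ℝ) * ((U1 \ U2).card : ℝ) ^ 2 ≤
          4 * (h * s / 50) * s ^ 2 := by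
        apply mul_le_mul _ (pow_le_pow_left₀ hS0 hSle 2) (by positivity) (by positivity)
        linarith
      have h7 : h / 2 * ((U1 \ U2).card : ℝ) ^ 3 ≤ h / 2 * s ^ 3 :=
        mul_le_mul_of_nonneg_left (pow_le_pow_left₀ hS0 hSle 3) (by positivity)
      have h8 : (0 : ℝ) < h * s ^ 3 := by positivity
      nlinarith) (by
      intro p
      refine le_trans (cd_load χ E' F3 hF3R p) ?_
      exact Nat.le_floor (hcol2 (χ p))) (by
      have hF3c : (F3.card : ℝ) ≤ 4 * L * s ^ 2 / K := by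
        have h1 : (F3.card : ℝ) ≤ ((cd_Rsv (U \ U1) (U1 \ U2) χ E').card : ℝ) := by
          exact_mod_cast Finset.card_le_card hF3R
        have h2 := cd_card_Rsv (U := U) χ E' hcol1
        have h3 : (U.card : ℝ) * (2 * s / K) ≤ (2 * L * s) * (2 * s / K) :=
          mul_le_mul_of_nonneg_right hUs (by positivity)
        have h4 : (2 * L * s) * (2 * s / K) = 4 * L * s ^ 2 / K := by ring
        linarith
      have he : ((⌊2 * (U.card : ℝ) / K⌋₊ : ℕ) : ℝ) ≤ 4 * L * s / K := by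
        have h1 : ((⌊2 * (U.card : ℝ) / K⌋₊ : ℕ) : ℝ) ≤ 2 * (U.card : ℝ) / K :=
          Nat.floor_le (by positivity)
        have h2 : 2 * (U.card : ℝ) / K ≤ 4 * L * s / K := by
          apply div_le_div_of_nonneg_right _ (by positivity)
          linarith
        linarith
      exact cd_num hh hLR (by positivity) hKa hKb hs0' hhs hF3c he (Nat.le_ceil _)
        (Nat.ceil_lt_add_one hqpos.le).le hS3)
  have hD3E : D3 ⊆ E' := hD3sub.trans (Finset.union_subset hF3E hH3E)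
  have hD13 : Disjoint D1 D3 := by
    rw [Finset.disjoint_left]
    intro e he he'
    have h1 := cd_mem_F0.1 (hD1F he)
    have h2 := hD3sub he'
    rw [Finset.mem_union] at h2
    rcases h2 with h2 | h2
    · exact h1.2.2 (hF3R h2)
    · exact h1.2.1 (cd_sym2_mono Finset.sdiff_subset (cd_mem_H3.1 h2).2.2)
  have hD23 : Disjoint D2 D3 := by
    rw [Finset.disjoint_left]
    intro e he he'
    have h2 := hD3sub he'
    rw [Finset.mem_union] at h2
    rcases h2 with h2 | h2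
    · rw [hF3def, Finset.mem_sdiff] at h2
      exact h2.2 he
    · exact (cd_mem_H3.1 h2).2.1 he
  refine ⟨(D1 ∪ D2) ∪ D3, Finset.union_subset (Finset.union_subset hD1E hD2E) hD3E,
    (hD1.union hD2 hD12).union hD3 (Finset.disjoint_union_left.2 ⟨hD13, hD23⟩), ?_, ?_, ?_⟩
  · intro e he
    rw [Finset.mem_sdiff, Finset.mem_union] at he
    obtain ⟨heE, hne⟩ := he
    by_contra hcon
    by_cases hR' : e ∈ cd_Rsv (U \ U1) (U1 \ U2) χ E'
    · by_cases h2 : e ∈ D2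
      · exact hne (Or.inl (Finset.mem_union_right _ h2))
      · apply hne
        right
        apply hF3D3
        rw [hF3def, Finset.mem_sdiff]
        exact ⟨hR', h2⟩
    · exact hne (Or.inl (hF0D (cd_mem_F0.2 ⟨heE, hcon, hR'⟩)))
  · intro e he h2
    have h1 : e ∈ U1.sym2 := cd_sym2_mono hU21 h2
    rw [Finset.mem_union, Finset.mem_union] at he
    rcases he with (he | he) | he
    · exact (cd_mem_F0.1 (hD1F he)).2.1 h1
    · have h3 := hD2sub he
      rw [Finset.mem_union, Finset.mem_sdiff] at h3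
      rcases h3 with h3 | h3
      · exact (cd_mem_F0.1 h3.1).2.1 h1
      · rcases cd_mem_H0.1 h3 with h4 | h4
        · exact h4.2.2 h2
        · exact cd_Rsv_notIn h4 h1
    · have h3 := hD3sub he
      rw [Finset.mem_union] at h3
      rcases h3 with h3 | h3
      · exact cd_Rsv_notIn (hF3R h3) h1
      · have h4 := (cd_mem_H3.1 h3).2.2
        induction e using Sym2.ind with
        | _ p q =>
          rw [Finset.mk_mem_sym2_iff] at h4 h2
          exact (Finset.mem_sdiff.1 h4.1).2 h2.1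
  · intro u hu
    have h1 : dg (D1 ∪ D2 ∪ D3) U2 u ≤ dg (D2 ∩ cd_H0 U U1 U2 χ E') U2 u := by
      unfold dg
      apply Finset.card_le_card
      intro y hy
      rw [Finset.mem_filter] at hy ⊢
      obtain ⟨hyU, hy⟩ := hy
      refine ⟨hyU, ?_⟩
      have hin1 : s(u, y) ∈ U1.sym2 := Finset.mk_mem_sym2_iff.2 ⟨hu, hU21 hyU⟩
      rw [Finset.mem_union, Finset.mem_union] at hy
      rcases hy with (hy | hy) | hy
      · exact absurd hin1 (cd_mem_F0.1 (hD1F hy)).2.1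
      · rw [Finset.mem_inter]
        refine ⟨hy, ?_⟩
        have h3 := hD2sub hy
        rw [Finset.mem_union, Finset.mem_sdiff] at h3
        rcases h3 with h3 | h3
        · exact absurd hin1 (cd_mem_F0.1 h3.1).2.1
        · exact h3
      · have h3 := hD3sub hy
        rw [Finset.mem_union] at h3
        rcases h3 with h3 | h3
        · exact absurd hin1 (cd_Rsv_notIn (hF3R h3))
        · have h4 := (cd_mem_H3.1 h3).2.2
          rw [Finset.mk_mem_sym2_iff] at h4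
          exact absurd hyU (Finset.mem_sdiff.1 h4.2).2
    have h2 : (dg (D1 ∪ D2 ∪ D3) U2 u : ℝ) ≤ ρ * U.card := by
      refine le_trans ?_ (hD2deg u)
      exact_mod_cast le_trans h1 (dg_le_deg _ _ _)
    have h3 : ρ * U.card ≤ θ / (4 * (L : ℝ) ^ 2) * (4 * (L : ℝ) ^ 2 * U2.card) := by
      apply mul_le_mul hρ1 _ (Nat.cast_nonneg _) (by positivity)
      calc (U.card : ℝ) ≤ 2 * L * s := hUs
        _ ≤ 2 * L * (2 * L * U2.card) := mul_le_mul_of_nonneg_left hs2 (by positivity)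
        _ = 4 * (L : ℝ) ^ 2 * U2.card := by ring
    have h4 : θ / (4 * (L : ℝ) ^ 2) * (4 * (L : ℝ) ^ 2 * U2.card) = θ * U2.card := by
      field_simp
    linarith

end H15C6
end S_CD

section S_ITER
/-!
Module ITER.  Iteration of the cover-down step along the vortex.

WLOG `η ≤ 1` (replace `η` by `min η 1`).  Constants: `K, θ, s1` from `cover_down (η/32) L`; `C', s2` from
`vortex_step L K (η/2)`; potential `hpot s := η - C s^(-1/4)` with `C := 20 C'`, `s0 ≥ s1, s2` so large that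
`hpot s ≥ η/2` for `s ≥ s0`.

Claim (strong induction on `|U1|`): for all `U1 ⊆ U` with `s0 ≤ |U1|`, `|U| ≤ 2L|U1|`, `E` (inside `U`) and
`∀ x y ∈ U, R x y → hpot |U1| * |U1|^3 ≤ P4 E U1 x y` there is `X ⊆ U1`, `|X| ≤ M := 2 L s0`, such that for
every `E' ⊆ E` as in the statement there is `D ⊆ E'`, `Dec D`, `E' \ D ⊆ X.sym2`.
`vortex_step` (with `h := hpot |U1|`) gives `U2, χ`; since `|U2| ≤ (2/3)|U1|`,
`|U2|^(-1/4) ≥ 1.1 |U1|^(-1/4)`, so `hpot |U1| - C' |U1|^(-1/4) ≥ hpot |U2|`.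
If `|U2| < s0` take `X := U1` (`|U1| ≤ 2L|U2| ≤ 2 L s0`) and one application of `cover_down`
(with `h := η/32`).  If `|U2| ≥ s0` the induction hypothesis applies to `(U1, U2)` with the graph
`E ∩ U1.sym2`, giving `X ⊆ U2`; for `E'`: `cover_down` gives `D1`, and then `E'' := E' \ D1 ⊆ U1.sym2`
satisfies: it contains all edges of `E` inside `U2`; `dg ((E ∩ U1.sym2) \ E'') U2 u = dg D1 U2 u ≤ θ|U2|` for
`u ∈ U1` (all edges of `E` inside `U1` are in `E'`); even degrees.  `D := D1 ∪ D2`.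
The statement's hypothesis `η * |U1|^3 ≤ P4` implies the one with `hpot`.
-/

open Finset

namespace H15C6

/-- `20 b^(-1/4) ≥ 21 a^(-1/4)` if `b ≤ 2a/3`. -/
theorem iter_rpow (a b : ℕ) (hb : 0 < b) (hab : 3 * b ≤ 2 * a) :
    21 * (a : ℝ) ^ (-(1 / 4 : ℝ)) ≤ 20 * (b : ℝ) ^ (-(1 / 4 : ℝ)) := by
  have hbR : (0 : ℝ) < b := by exact_mod_cast hb
  have haR : (0 : ℝ) < a := by
    have : 0 < a := by omega
    exact_mod_cast this
  have habR : (3 : ℝ) * b ≤ 2 * a := by exact_mod_cast hab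
  have h1 : ((2 / 3 : ℝ) * a) ^ (-(1 / 4 : ℝ)) ≤ (b : ℝ) ^ (-(1 / 4 : ℝ)) :=
    Real.rpow_le_rpow_of_nonpos hbR (by linarith) (by norm_num)
  rw [Real.mul_rpow (by norm_num) haR.le] at h1
  have h2 : (21 / 20 : ℝ) ≤ (2 / 3 : ℝ) ^ (-(1 / 4 : ℝ)) := by
    rw [Real.rpow_neg (by norm_num), ← Real.inv_rpow (by norm_num)]
    have h3 : (21 / 20 : ℝ) = (((21 / 20 : ℝ) ^ 4)) ^ (1 / 4 : ℝ) := by
      have := Real.pow_rpow_inv_natCast (x := (21 / 20 : ℝ)) (n := 4) (by norm_num) (by norm_num)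
      rw [one_div]
      push_cast at this
      exact this.symm
    rw [h3]
    exact Real.rpow_le_rpow (by norm_num) (by norm_num) (by norm_num)
  have h4 : 0 ≤ (a : ℝ) ^ (-(1 / 4 : ℝ)) := Real.rpow_nonneg haR.le _
  have h5 := mul_le_mul_of_nonneg_right h2 h4
  linarith

theorem iter_s0 (C η : ℝ) (hC : 0 < C) (hη : 0 < η) :
    ∃ s0 : ℕ, ∀ s : ℕ, s0 ≤ s → C * (s : ℝ) ^ (-(1 / 4 : ℝ)) ≤ η / 2 := by
  refine ⟨⌈(2 * C / η) ^ 4⌉₊ + 1, fun s hs => ?_⟩
  have h1 : (2 * C / η) ^ 4 ≤ (s : ℝ) := by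
    refine (Nat.le_ceil _).trans ?_
    have : ⌈(2 * C / η) ^ 4⌉₊ ≤ s := by omega
    exact_mod_cast this
  have hpos : 0 < 2 * C / η := by positivity
  have h2 : (s : ℝ) ^ (-(1 / 4 : ℝ)) ≤ ((2 * C / η) ^ 4) ^ (-(1 / 4 : ℝ)) :=
    Real.rpow_le_rpow_of_nonpos (by positivity) h1 (by norm_num)
  have h3 : ((2 * C / η) ^ 4) ^ (-(1 / 4 : ℝ)) = (2 * C / η)⁻¹ := by
    rw [Real.rpow_neg (by positivity)]
    congr 1
    have := Real.pow_rpow_inv_natCast (x := 2 * C / η) (n := 4) hpos.le (by norm_num)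
    rw [one_div]
    push_cast at this
    exact this
  rw [h3] at h2
  have h4 := mul_le_mul_of_nonneg_left h2 hC.le
  have h5 : C * (2 * C / η)⁻¹ = η / 2 := by
    field_simp
  linarith

/-- walks with inner vertices in `U2 ⊆ U1` and ends in `U1` stay inside `U1`. -/
theorem iter_P4 {V : Type} [DecidableEq V] (E : Finset (Sym2 V)) (U1 U2 : Finset V)
    (h21 : U2 ⊆ U1) (x y : V) (hx : x ∈ U1) (hy : y ∈ U1) :
    P4 (E ∩ U1.sym2) U2 x y = P4 E U2 x y := by
  unfold P4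
  congr 1
  ext ⟨a, b, c⟩
  simp only [Finset.mem_filter, Finset.mem_product, Finset.mem_inter, Finset.mk_mem_sym2_iff]
  constructor
  · rintro ⟨h1, h2, h3, h4, h5⟩
    exact ⟨h1, h2.1, h3.1, h4.1, h5.1⟩
  · rintro ⟨⟨ha, hb, hc⟩, h2, h3, h4, h5⟩
    exact ⟨⟨ha, hb, hc⟩, ⟨h2, hx, h21 ha⟩, ⟨h3, h21 ha, h21 hb⟩, ⟨h4, h21 hb, h21 hc⟩,
      ⟨h5, h21 hc, hy⟩⟩

theorem vortex_dec (η : ℝ) (hη : 0 < η) (L : ℕ) (hL : 3 ≤ L) :
    ∃ (M s0 : ℕ) (θ : ℝ), 0 < θ ∧
      ∀ (V : Type) [Fintype V] [DecidableEq V] (U U1 : Finset V) (E : Finset (Sym2 V))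
        (R : V → V → Prop),
      U1 ⊆ U → s0 ≤ U1.card → (U.card : ℝ) ≤ 2 * L * U1.card →
      E ⊆ U.sym2 → Loopless E →
      (∀ v x y, s(v, x) ∈ E → s(v, y) ∈ E → R x y) →
      (∀ x ∈ U, ∀ y ∈ U, R x y → η * (U1.card : ℝ) ^ 3 ≤ (P4 E U1 x y : ℝ)) →
      ∃ X ⊆ U1, X.card ≤ M ∧ ∀ E' ⊆ E, (∀ e ∈ E, e ∈ U1.sym2 → e ∈ E') →
        (∀ u ∈ U, (dg (E \ E') U1 u : ℝ) ≤ θ * U1.card) → EvenDeg E' →
        ∃ D ⊆ E', Dec D ∧ E' \ D ⊆ X.sym2 := by
  obtain ⟨η0, hη0def⟩ : ∃ η0 : ℝ, η0 = min η 1 := ⟨_, rfl⟩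
  have hη0 : 0 < η0 := by rw [hη0def]; exact lt_min hη one_pos
  have hη01 : η0 ≤ 1 := by rw [hη0def]; exact min_le_right _ _
  have hη0η : η0 ≤ η := by rw [hη0def]; exact min_le_left _ _
  obtain ⟨K, hK, θ, hθ, s1, hcd⟩ := cover_down (η0 / 32) (by positivity) L hL
  obtain ⟨C', hC', s2, hvx⟩ := vortex_step L K hL hK (η0 / 2) (by positivity)
  obtain ⟨s3, hs3⟩ := iter_s0 (20 * C') η0 (by positivity) hη0
  obtain ⟨s0, hs0⟩ : ∃ s0 : ℕ, s0 = max (max s1 s2) (max s3 1) := ⟨_, rfl⟩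
  have hs01 : s1 ≤ s0 := by rw [hs0]; exact (le_max_left _ _).trans (le_max_left _ _)
  have hs02 : s2 ≤ s0 := by rw [hs0]; exact (le_max_right _ _).trans (le_max_left _ _)
  have hs03 : s3 ≤ s0 := by rw [hs0]; exact (le_max_left _ _).trans (le_max_right _ _)
  have hs04 : 1 ≤ s0 := by rw [hs0]; exact (le_max_right _ _).trans (le_max_right _ _)
  refine ⟨2 * L * s0, s0, θ, hθ, ?_⟩
  intro V _ _
  have key : ∀ n : ℕ, ∀ (U U1 : Finset V) (E : Finset (Sym2 V)) (R : V → V → Prop),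
      U1.card = n → U1 ⊆ U → s0 ≤ U1.card → (U.card : ℝ) ≤ 2 * L * U1.card →
      E ⊆ U.sym2 → Loopless E →
      (∀ v x y, s(v, x) ∈ E → s(v, y) ∈ E → R x y) →
      (∀ x ∈ U, ∀ y ∈ U, R x y →
        (η0 - 20 * C' * (U1.card : ℝ) ^ (-(1 / 4 : ℝ))) * (U1.card : ℝ) ^ 3 ≤ (P4 E U1 x y : ℝ)) →
      ∃ X ⊆ U1, X.card ≤ 2 * L * s0 ∧ ∀ E' ⊆ E, (∀ e ∈ E, e ∈ U1.sym2 → e ∈ E') →
        (∀ u ∈ U, (dg (E \ E') U1 u : ℝ) ≤ θ * U1.card) → EvenDeg E' →
        ∃ D ⊆ E', Dec D ∧ E' \ D ⊆ X.sym2 := by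
    intro n
    induction n using Nat.strong_induction_on with
    | _ n ih =>
      intro U U1 E R hn hU1 hs hU hE hl hR hP
      have hpot := hs3 U1.card (hs03.trans hs)
      have hr0 : 0 ≤ (U1.card : ℝ) ^ (-(1 / 4 : ℝ)) := Real.rpow_nonneg (Nat.cast_nonneg _) _
      have hpot1 : η0 / 2 ≤ η0 - 20 * C' * (U1.card : ℝ) ^ (-(1 / 4 : ℝ)) := by linarith
      have hpot2 : η0 - 20 * C' * (U1.card : ℝ) ^ (-(1 / 4 : ℝ)) ≤ 1 := by
        have : 0 ≤ 20 * C' * (U1.card : ℝ) ^ (-(1 / 4 : ℝ)) := by positivity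
        linarith
      obtain ⟨U2, h21, χ, h12, h2L, hP2, hPc, hc1, hc2⟩ := hvx V U U1 E R _ hpot1 hpot2 hU1
        (hs02.trans hs) hU hP
      have hPc' : ∀ x ∈ U, ∀ y ∈ U, R x y → ∀ k k' : Fin K,
          η0 / 32 * (U1.card : ℝ) ^ 3 / (K : ℝ) ^ 2 ≤ (P4c E (U1 \ U2) χ k k' x y : ℝ) := by
        intro x hx y hy hxy k k'
        refine le_trans ?_ (hPc x hx y hy hxy k k')
        refine div_le_div_of_nonneg_right ?_ (by positivity)
        refine mul_le_mul_of_nonneg_right ?_ (by positivity)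
        linarith
      have hU2lt : 3 * U2.card ≤ 2 * U1.card := by
        have h1 : (3 : ℝ) * U2.card ≤ 2 * U1.card := by
          have : (3 : ℝ) ≤ L := by exact_mod_cast hL
          have h2 : (3 : ℝ) * U2.card ≤ L * U2.card :=
            mul_le_mul_of_nonneg_right this (Nat.cast_nonneg _)
          linarith
        exact_mod_cast h1
      have hcov : ∀ E' ⊆ E, (∀ e ∈ E, e ∈ U1.sym2 → e ∈ E') →
          (∀ u ∈ U, (dg (E \ E') U1 u : ℝ) ≤ θ * U1.card) → EvenDeg E' →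
          ∃ D ⊆ E', Dec D ∧ (∀ e ∈ E' \ D, e ∈ U1.sym2) ∧ (∀ e ∈ D, e ∉ U2.sym2) ∧
            (∀ u ∈ U1, (dg D U2 u : ℝ) ≤ θ * U2.card) := by
        intro E' hE' hE'1 hE'2 hev
        exact hcd V U U1 U2 E E' R χ hU1 h21 (hs01.trans hs) hU h12 h2L hE hl hR hPc' hc1 hc2 hE'
          hE'1 hE'2 hev
      rcases Nat.lt_or_ge U2.card s0 with hsmall | hbig
      · refine ⟨U1, Finset.Subset.refl _, ?_, ?_⟩
        · have h1 : (U1.card : ℝ) ≤ 2 * L * s0 := by
            have h2 : (U2.card : ℝ) ≤ s0 := by exact_mod_cast hsmall.le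
            have h3 : (2 : ℝ) * L * U2.card ≤ 2 * L * s0 :=
              mul_le_mul_of_nonneg_left h2 (by positivity)
            linarith
          exact_mod_cast h1
        · intro E' hE' hE'1 hE'2 hev
          obtain ⟨D, hD, hDdec, hD1, -, -⟩ := hcov E' hE' hE'1 hE'2 hev
          exact ⟨D, hD, hDdec, fun e he => hD1 e he⟩
      · have hU2pos : 0 < U2.card := lt_of_lt_of_le hs04 hbig
        have hlt : U2.card < n := by omega
        have hih := ih U2.card hlt U1 U2 (E ∩ U1.sym2) R rfl h21 hbig h12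
          Finset.inter_subset_right (hl.mono Finset.inter_subset_left)
          (fun v x y h1 h2 => hR v x y (Finset.mem_inter.1 h1).1 (Finset.mem_inter.1 h2).1) ?_
        · obtain ⟨X, hX, hXc, hXp⟩ := hih
          refine ⟨X, hX.trans h21, hXc, ?_⟩
          intro E' hE' hE'1 hE'2 hev
          obtain ⟨D1, hD1, hD1dec, hD1a, hD1b, hD1c⟩ := hcov E' hE' hE'1 hE'2 hev
          have hE1 : ∀ e ∈ E ∩ U1.sym2, e ∈ E' := fun e he =>
            hE'1 e (Finset.mem_inter.1 he).1 (Finset.mem_inter.1 he).2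
          have g1 : E' \ D1 ⊆ E ∩ U1.sym2 := by
            intro e he
            rw [Finset.mem_inter]
            exact ⟨hE' (Finset.mem_sdiff.1 he).1, hD1a e he⟩
          have g2 : ∀ e ∈ E ∩ U1.sym2, e ∈ U2.sym2 → e ∈ E' \ D1 := by
            intro e he he2
            rw [Finset.mem_sdiff]
            exact ⟨hE1 e he, fun h => hD1b e h he2⟩
          have g3 : ∀ u ∈ U1, (dg ((E ∩ U1.sym2) \ (E' \ D1)) U2 u : ℝ) ≤ θ * U2.card := by
            intro u hu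
            refine le_trans ?_ (hD1c u hu)
            have : dg ((E ∩ U1.sym2) \ (E' \ D1)) U2 u ≤ dg D1 U2 u := by
              apply dg_mono
              intro e he
              rw [Finset.mem_sdiff, Finset.mem_sdiff] at he
              by_contra hcon
              exact he.2 ⟨hE1 e he.1, hcon⟩
            exact_mod_cast this
          obtain ⟨D2, hD2, hD2dec, hD2a⟩ := hXp (E' \ D1) g1 g2 g3 (hev.sdiff hD1dec.even hD1)
          refine ⟨D1 ∪ D2, Finset.union_subset hD1 (hD2.trans Finset.sdiff_subset),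
            hD1dec.union hD2dec ?_, ?_⟩
          · rw [Finset.disjoint_right]
            intro e he
            exact (Finset.mem_sdiff.1 (hD2 he)).2
          · intro e he
            rw [Finset.mem_sdiff, Finset.mem_union] at he
            apply hD2a
            rw [Finset.mem_sdiff, Finset.mem_sdiff]
            exact ⟨⟨he.1, fun h => he.2 (Or.inl h)⟩, fun h => he.2 (Or.inr h)⟩
        · intro x hx y hy hxy
          rw [iter_P4 E U1 U2 h21 x y hx hy]
          refine le_trans ?_ (hP2 x (hU1 hx) y (hU1 hy) hxy)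
          refine mul_le_mul_of_nonneg_right ?_ (by positivity)
          have h1 := iter_rpow U1.card U2.card hU2pos hU2lt
          have h2 := mul_le_mul_of_nonneg_left h1 hC'.le
          linarith
  intro U U1 E R hU1 hs hU hE hl hR hP
  refine key U1.card U U1 E R rfl hU1 hs hU hE hl hR ?_
  intro x hx y hy hxy
  refine le_trans ?_ (hP x hx y hy hxy)
  refine mul_le_mul_of_nonneg_right ?_ (by positivity)
  have : 0 ≤ 20 * C' * (U1.card : ℝ) ^ (-(1 / 4 : ℝ)) := by positivity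
  linarith

end H15C6
end S_ITER

section S_CORE
/-!
Module CORE.  The main decomposition theorem, conditional on the existence of absorbers.

`Absorbs U E P ε M C`: for every small set `X` (`|X| ≤ M`), every forbidden set `Z` (`|Z| ≤ ε|U|`) and
every `H ⊆ E` inside `X` satisfying `P` there is an absorber `A ⊆ E` with at most `C` edges: `A` and
`A ∪ H` are both decomposable, no edge of `A` is inside `X`, and the vertices of `A` outside `X` avoid `Z`.

Proof of `core`.  WLOG `ε ≤ 1`; `L := ⌈8/ε⌉ + 3`.  `M, s0, θ` from `vortex_dec (η/2) L`.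
`vortex_step L 1 η` applied with `U1 := U` gives (large `|U|`) `U1 ⊆ U` with `|U| ≤ 2L|U1|`,
`|U1| ≤ (2/L)|U| ≤ (ε/4)|U|` and `P4 E U1 x y ≥ (η/2)|U1|^3` for `R x y`.  (WLOG `η ≤ 1`.)  Let `X ⊆ U1` be the set from
`vortex_dec`, `|X| ≤ M`.  Enumerate the (at most `2^((M+1)^2)`) sets `H ⊆ E ∩ X.sym2` with `P H` and choose absorbers
`A_H` one after the other with `Z := (U1 ∪ all vertices of earlier absorbers) \ X`,
`|Z| ≤ ε|U|` for large `|U|`.  They are pairwise disjoint: a common edge has an end outside `X`.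
`A := ⋃ A_H`; `Dec A`; `E' := E \ A`: contains every edge of `E` inside `U1` (an edge of `A` inside `U1`
would be inside `X`); `dg (E \ E') U1 u ≤ |A| ≤ θ|U1|`; `P E'` (remove the six-cycles of `A` one by one:
`hPC`), so `EvenDeg E'`.  `vortex_dec` gives `D`, put `H := E' \ D ⊆ X.sym2`; `P H` again by `hPC`.
`E = D ∪ (A_H ∪ H) ∪ ⋃_{H' ≠ H} A_{H'}`.
-/

open Finset

namespace H15C6

theorem core_dec_sdiff {V : Type} [DecidableEq V] {P : Finset (Sym2 V) → Prop}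
    (hPC : ∀ H C', P H → C' ⊆ H → IsC6 C' → P (H \ C')) {D : Finset (Sym2 V)} (hD : Dec D) :
    ∀ H, D ⊆ H → P H → P (H \ D) := by
  induction hD with
  | empty => intro H _ h; simpa using h
  | @add E C hE hC hd ih =>
    intro H hs h
    have h1 : H \ (E ∪ C) = (H \ E) \ C := by
      ext e
      simp only [Finset.mem_sdiff, Finset.mem_union]
      tauto
    rw [h1]
    refine hPC _ _ (ih H (Finset.union_subset_left hs) h) ?_ hC
    intro e he
    rw [Finset.mem_sdiff]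
    exact ⟨hs (Finset.mem_union_right _ he), fun h2 => (Finset.disjoint_left.1 hd) h2 he⟩

theorem core_vs {V : Type} [DecidableEq V] (F : Finset (Sym2 V)) :
    (F.biUnion Sym2.toFinset).card ≤ 2 * F.card := by
  refine le_trans Finset.card_biUnion_le ?_
  rw [mul_comm, ← smul_eq_mul, ← Finset.sum_const]
  refine Finset.sum_le_sum fun e _ => ?_
  rw [Sym2.card_toFinset]
  split_ifs <;> omega

theorem core_abs {V : Type} [DecidableEq V] {U U1 X : Finset V} {E : Finset (Sym2 V)}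
    {P : Finset (Sym2 V) → Prop} {ε : ℝ} {M C B : ℕ} (hA : Absorbs U E P ε M C)
    (hXU1 : X ⊆ U1) (hU1 : U1 ⊆ U) (hX : X.card ≤ M)
    (hB : (U1.card : ℝ) + 2 * (C * B) ≤ ε * U.card)
    (S : Finset (Finset (Sym2 V))) (hS : ∀ H ∈ S, H ⊆ E ∧ H ⊆ X.sym2 ∧ P H) (hSB : S.card ≤ B) :
    ∃ A : Finset (Sym2 V) → Finset (Sym2 V),
      (∀ H ∈ S, A H ⊆ E ∧ Dec (A H) ∧ Dec (A H ∪ H) ∧ (∀ e ∈ A H, e ∉ U1.sym2) ∧
        (A H).card ≤ C) ∧
      (∀ H ∈ S, ∀ H' ∈ S, H ≠ H' → Disjoint (A H) (A H')) := by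
  induction S using Finset.induction_on with
  | empty => exact ⟨fun _ => ∅, by simp, by simp⟩
  | insert a S ha ih =>
    rw [Finset.card_insert_of_notMem ha] at hSB
    obtain ⟨A, h1, h2⟩ := ih (fun H hH => hS H (Finset.mem_insert_of_mem hH)) (by omega)
    obtain ⟨haE, haX, haP⟩ := hS a (Finset.mem_insert_self a S)
    set Z := U1 ∪ (S.biUnion A).biUnion Sym2.toFinset with hZdef
    have hZ : (Z.card : ℝ) ≤ ε * U.card := by
      have h3 : Z.card ≤ U1.card + 2 * (C * B) := by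
        refine (Finset.card_union_le _ _).trans (Nat.add_le_add_left ?_ _)
        refine (core_vs _).trans (Nat.mul_le_mul_left _ ?_)
        refine Finset.card_biUnion_le.trans ?_
        refine (Finset.sum_le_card_nsmul S _ C fun H hH => (h1 H hH).2.2.2.2).trans ?_
        rw [smul_eq_mul, mul_comm]
        exact Nat.mul_le_mul_left _ (by omega)
      have h4 : (Z.card : ℝ) ≤ (U1.card : ℝ) + 2 * (C * B) := by exact_mod_cast h3
      exact h4.trans hB
    obtain ⟨A0, hA0E, hd, hdu, hx, hz, hc⟩ := hA X Z (hXU1.trans hU1) hX hZ a haE haX haP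
    have hout : ∀ e ∈ A0, ∃ x ∈ e, x ∉ Z := by
      intro e he
      have h3 := hx e he
      rw [Finset.mem_sym2_iff] at h3
      push Not at h3
      obtain ⟨x, hxe, hxX⟩ := h3
      exact ⟨x, hxe, hz e he x hxe hxX⟩
    have hdis : ∀ H ∈ S, Disjoint A0 (A H) := by
      intro H hH
      rw [Finset.disjoint_left]
      intro e he he'
      obtain ⟨x, hxe, hxZ⟩ := hout e he
      apply hxZ
      rw [hZdef, Finset.mem_union]
      right
      rw [Finset.mem_biUnion]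
      exact ⟨e, Finset.mem_biUnion.2 ⟨H, hH, he'⟩, Sym2.mem_toFinset.2 hxe⟩
    have hne : ∀ H ∈ S, H ≠ a := fun H hH h => ha (h ▸ hH)
    refine ⟨Function.update A a A0, ?_, ?_⟩
    · intro H hH
      rw [Finset.mem_insert] at hH
      rcases hH with rfl | hH
      · rw [Function.update_self]
        refine ⟨hA0E, hd, hdu, ?_, hc⟩
        intro e he he'
        obtain ⟨x, hxe, hxZ⟩ := hout e he
        rw [Finset.mem_sym2_iff] at he'
        exact hxZ (Finset.mem_union_left _ (he' x hxe))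
      · rw [Function.update_of_ne (hne H hH)]
        exact h1 H hH
    · intro H hH H' hH' hHH'
      rw [Finset.mem_insert] at hH hH'
      rcases hH with rfl | hH <;> rcases hH' with rfl | hH'
      · exact absurd rfl hHH'
      · rw [Function.update_self, Function.update_of_ne (hne H' hH')]
        exact hdis H' hH'
      · rw [Function.update_self, Function.update_of_ne (hne H hH)]
        exact (hdis H hH).symm
      · rw [Function.update_of_ne (hne H' hH'), Function.update_of_ne (hne H hH)]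
        exact h2 H hH H' hH' hHH'

/-- the finite part of the argument -/
theorem core_fin {V : Type} [DecidableEq V] {U U1 X : Finset V} {E : Finset (Sym2 V)}
    {P : Finset (Sym2 V) → Prop} {ε θ : ℝ} {M C : ℕ} (hA : Absorbs U E P ε M C)
    (hXU1 : X ⊆ U1) (hU1 : U1 ⊆ U) (hX : X.card ≤ M)
    (hB : (U1.card : ℝ) + 2 * (C * (2 ^ ((M + 1) ^ 2) : ℕ)) ≤ ε * U.card)
    (hB2 : ((C * 2 ^ ((M + 1) ^ 2) : ℕ) : ℝ) ≤ θ * U1.card)
    (hPE : ∀ H, P H → EvenDeg H)
    (hPC : ∀ H C', P H → C' ⊆ H → IsC6 C' → P (H \ C')) (hP : P E)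
    (hdec : ∀ E' ⊆ E, (∀ e ∈ E, e ∈ U1.sym2 → e ∈ E') →
        (∀ u ∈ U, (dg (E \ E') U1 u : ℝ) ≤ θ * U1.card) → EvenDeg E' →
        ∃ D ⊆ E', Dec D ∧ E' \ D ⊆ X.sym2) : Dec E := by
  classical
  set S : Finset (Finset (Sym2 V)) := (E ∩ X.sym2).powerset.filter (fun H => P H) with hSdef
  have hS : ∀ H ∈ S, H ⊆ E ∧ H ⊆ X.sym2 ∧ P H := by
    intro H hH
    rw [hSdef, Finset.mem_filter, Finset.mem_powerset] at hH
    exact ⟨hH.1.trans Finset.inter_subset_left, hH.1.trans Finset.inter_subset_right, hH.2⟩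
  have hSB : S.card ≤ 2 ^ ((M + 1) ^ 2) := by
    refine (Finset.card_filter_le _ _).trans ?_
    rw [Finset.card_powerset]
    refine Nat.pow_le_pow_right (by norm_num) ?_
    refine (Finset.card_le_card Finset.inter_subset_right).trans ?_
    rw [Finset.card_sym2, Nat.choose_two_right]
    refine (Nat.div_le_self _ _).trans ?_
    rw [Nat.add_sub_cancel]
    nlinarith
  obtain ⟨A, h1, h2⟩ := core_abs hA hXU1 hU1 hX hB S hS hSB
  set AA : Finset (Sym2 V) := S.biUnion A with hAA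
  have hAAE : AA ⊆ E := Finset.biUnion_subset.2 fun H hH => (h1 H hH).1
  have hAAdec : Dec AA := Dec.biUnion (fun H hH => (h1 H hH).2.1) h2
  have hAAcard : AA.card ≤ C * 2 ^ ((M + 1) ^ 2) := by
    refine Finset.card_biUnion_le.trans ?_
    refine (Finset.sum_le_card_nsmul S _ C fun H hH => (h1 H hH).2.2.2.2).trans ?_
    rw [smul_eq_mul, mul_comm]
    exact Nat.mul_le_mul_left _ hSB
  have hE'P : P (E \ AA) := core_dec_sdiff hPC hAAdec E hAAE hP
  have hEE' : E \ (E \ AA) = AA := Finset.sdiff_sdiff_eq_self hAAE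
  obtain ⟨D, hDE', hD, hDX⟩ := hdec (E \ AA) Finset.sdiff_subset
    (by
      intro e he heU
      rw [Finset.mem_sdiff]
      refine ⟨he, fun hA' => ?_⟩
      rw [hAA, Finset.mem_biUnion] at hA'
      obtain ⟨H, hH, heH⟩ := hA'
      exact (h1 H hH).2.2.2.1 e heH heU)
    (by
      intro u _
      rw [hEE']
      refine le_trans ?_ hB2
      have h3 : dg AA U1 u ≤ C * 2 ^ ((M + 1) ^ 2) := by
        refine (dg_le_deg _ _ _).trans (le_trans ?_ hAAcard)
        exact Finset.card_filter_le _ _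
      exact_mod_cast h3)
    (hPE _ hE'P)
  set H : Finset (Sym2 V) := (E \ AA) \ D with hHdef
  have hHP : P H := core_dec_sdiff hPC hD _ hDE' hE'P
  have hHE' : H ⊆ E \ AA := Finset.sdiff_subset
  have hHS : H ∈ S := by
    rw [hSdef, Finset.mem_filter, Finset.mem_powerset]
    exact ⟨Finset.subset_inter (hHE'.trans Finset.sdiff_subset) hDX, hHP⟩
  -- assemble
  have hAE' : ∀ H' ∈ S, Disjoint (E \ AA) (A H') := by
    intro H' hH'
    rw [Finset.disjoint_left]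
    intro e he he'
    exact (Finset.mem_sdiff.1 he).2 (Finset.mem_biUnion.2 ⟨H', hH', he'⟩)
  have hd1 : Dec (D ∪ (A H ∪ H)) := by
    refine Dec.union hD (h1 H hHS).2.2.1 ?_
    rw [Finset.disjoint_union_right]
    exact ⟨Finset.disjoint_of_subset_left hDE' (hAE' H hHS), Finset.disjoint_sdiff⟩
  have hd2 : Dec ((S.erase H).biUnion A) := by
    refine Dec.biUnion (fun H' hH' => (h1 H' (Finset.mem_of_mem_erase hH')).2.1) ?_
    intro H' hH' H'' hH'' hne
    exact h2 H' (Finset.mem_of_mem_erase hH') H'' (Finset.mem_of_mem_erase hH'') hne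
  have hd3 : Disjoint (D ∪ (A H ∪ H)) ((S.erase H).biUnion A) := by
    rw [Finset.disjoint_biUnion_right]
    intro H' hH'
    have hH'S := Finset.mem_of_mem_erase hH'
    rw [Finset.disjoint_union_left, Finset.disjoint_union_left]
    exact ⟨Finset.disjoint_of_subset_left hDE' (hAE' H' hH'S),
      h2 H hHS H' hH'S (Finset.ne_of_mem_erase hH').symm,
      Finset.disjoint_of_subset_left hHE' (hAE' H' hH'S)⟩
  have hfin := Dec.union hd1 hd2 hd3
  have hEeq : D ∪ (A H ∪ H) ∪ (S.erase H).biUnion A = E := by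
    apply Finset.Subset.antisymm
    · refine Finset.union_subset (Finset.union_subset (hDE'.trans Finset.sdiff_subset)
        (Finset.union_subset (h1 H hHS).1 (hHE'.trans Finset.sdiff_subset))) ?_
      exact Finset.biUnion_subset.2 fun H' hH' => (h1 H' (Finset.mem_of_mem_erase hH')).1
    · intro e he
      by_cases heA : e ∈ AA
      · rw [hAA, Finset.mem_biUnion] at heA
        obtain ⟨H', hH', heH'⟩ := heA
        by_cases hHH' : H' = H
        · subst hHH'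
          exact Finset.mem_union_left _ (Finset.mem_union_right _ (Finset.mem_union_left _ heH'))
        · exact Finset.mem_union_right _
            (Finset.mem_biUnion.2 ⟨H', Finset.mem_erase.2 ⟨hHH', hH'⟩, heH'⟩)
      · by_cases heD : e ∈ D
        · exact Finset.mem_union_left _ (Finset.mem_union_left _ heD)
        · refine Finset.mem_union_left _ (Finset.mem_union_right _ (Finset.mem_union_right _ ?_))
          rw [hHdef, Finset.mem_sdiff, Finset.mem_sdiff]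
          exact ⟨⟨he, heA⟩, heD⟩
  rw [hEeq] at hfin
  exact hfin

theorem core (η ε : ℝ) (hη : 0 < η) (hε : 0 < ε) :
    ∃ M : ℕ, ∀ C : ℕ, ∃ n0 : ℕ, ∀ (V : Type) [Fintype V] [DecidableEq V] (U : Finset V)
      (E : Finset (Sym2 V)) (R : V → V → Prop) (P : Finset (Sym2 V) → Prop),
      n0 ≤ U.card → E ⊆ U.sym2 → Loopless E →
      (∀ v x y, s(v, x) ∈ E → s(v, y) ∈ E → R x y) →
      (∀ x ∈ U, ∀ y ∈ U, R x y → η * (U.card : ℝ) ^ 3 ≤ (P4 E U x y : ℝ)) →
      (∀ H, P H → EvenDeg H) →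
      (∀ H C', P H → C' ⊆ H → IsC6 C' → P (H \ C')) →
      P E → Absorbs U E P ε M C → Dec E := by
  set η' : ℝ := min η 1 with hη'
  have hη'0 : 0 < η' := lt_min hη one_pos
  have hη'1 : η' ≤ 1 := min_le_right _ _
  have hη'η : η' ≤ η := min_le_left _ _
  set L : ℕ := ⌈8 / ε⌉₊ + 3 with hL
  have hL3 : 3 ≤ L := by omega
  have hL8 : 8 ≤ ε * L := by
    have h1 : 8 / ε ≤ (⌈8 / ε⌉₊ : ℝ) := Nat.le_ceil _
    rw [div_le_iff₀ hε] at h1
    rw [hL]
    push_cast
    nlinarith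
  obtain ⟨M, s0, θ, hθ, hdec⟩ := vortex_dec (η' / 2) (by positivity) L hL3
  refine ⟨M, fun C => ?_⟩
  obtain ⟨C₁, hC₁, s1, hstep⟩ := vortex_step L 1 hL3 le_rfl η' hη'0
  set B : ℕ := 2 ^ ((M + 1) ^ 2) with hBdef
  have hLpos : (0 : ℝ) < L := by
    have : 0 < L := by omega
    exact_mod_cast this
  -- all conditions hold for large `N`
  have e1 : ∀ᶠ N : ℕ in Filter.atTop, s1 ≤ N := Filter.eventually_ge_atTop s1
  have e2 : ∀ᶠ N : ℕ in Filter.atTop, C₁ * (N : ℝ) ^ (-(1 / 4 : ℝ)) ≤ η' / 2 := by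
    have h1 : Filter.Tendsto (fun N : ℕ => C₁ * (N : ℝ) ^ (-(1 / 4 : ℝ))) Filter.atTop
        (nhds (C₁ * 0)) :=
      ((tendsto_rpow_neg_atTop (by norm_num : (0 : ℝ) < 1 / 4)).comp
        tendsto_natCast_atTop_atTop).const_mul C₁
    rw [mul_zero] at h1
    exact (h1.eventually_lt_const (by positivity : (0 : ℝ) < η' / 2)).mono fun N hN => hN.le
  have e3 : ∀ᶠ N : ℕ in Filter.atTop, 2 * L * s0 ≤ N := Filter.eventually_ge_atTop _
  have e4 : ∀ᶠ N : ℕ in Filter.atTop, 2 * L * ((C * B : ℕ) : ℝ) / θ ≤ (N : ℝ) :=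
    tendsto_natCast_atTop_atTop.eventually_ge_atTop _
  have e5 : ∀ᶠ N : ℕ in Filter.atTop, 4 * ((C * B : ℕ) : ℝ) / ε ≤ (N : ℝ) :=
    tendsto_natCast_atTop_atTop.eventually_ge_atTop _
  obtain ⟨n0, hn0⟩ := Filter.eventually_atTop.1 (e1.and (e2.and (e3.and (e4.and e5))))
  refine ⟨n0, ?_⟩
  intro V _ _ U E R P hU hEU hEl hR hP4 hPE hPC hP hAbs
  obtain ⟨f1, f2, f3, f4, f5⟩ := hn0 U.card hU
  have hUU : (U.card : ℝ) ≤ 2 * L * U.card := by
    have h1 : (1 : ℝ) ≤ 2 * L := by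
      have : (3 : ℝ) ≤ L := by exact_mod_cast hL3
      linarith
    have h2 : (0 : ℝ) ≤ U.card := Nat.cast_nonneg _
    nlinarith
  obtain ⟨U1, hU1U, χ, g1, g2, g3, -, -, -⟩ := hstep V U U E R η' le_rfl hη'1
    (Finset.Subset.refl U) f1 hUU (fun x hx y hy hxy =>
      le_trans (mul_le_mul_of_nonneg_right hη'η (by positivity)) (hP4 x hx y hy hxy))
  have hs0 : s0 ≤ U1.card := by
    have h1 : (U.card : ℝ) ≤ 2 * L * U1.card := g1
    have h2 : U.card ≤ 2 * L * U1.card := by exact_mod_cast h1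
    have h3 : 2 * L * s0 ≤ 2 * L * U1.card := f3.trans h2
    exact Nat.le_of_mul_le_mul_left h3 (by omega)
  obtain ⟨X, hXU1, hXM, hXdec⟩ := hdec V U U1 E R hU1U hs0 g1 hEU hEl hR
    (fun x hx y hy hxy => by
      refine le_trans ?_ (g3 x hx y hy hxy)
      refine mul_le_mul_of_nonneg_right ?_ (by positivity)
      linarith)
  refine core_fin (ε := ε) (θ := θ) (C := C) hAbs hXU1 hU1U hXM ?_ ?_ hPE hPC hP hXdec
  · -- `|U1| + 2 C B ≤ ε |U|`
    have h1 : (8 : ℝ) * U1.card ≤ 2 * ε * U.card := by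
      have h2 : (0 : ℝ) ≤ U1.card := Nat.cast_nonneg _
      nlinarith
    rw [div_le_iff₀ hε] at f5
    push_cast at f5 ⊢
    rw [hBdef] at f5
    push_cast at f5
    nlinarith
  · rw [div_le_iff₀ hθ] at f4
    have h1 : 2 * (L : ℝ) * ((C * B : ℕ) : ℝ) ≤ 2 * L * (θ * U1.card) := by
      refine f4.trans ?_
      have h2 : (U.card : ℝ) * θ ≤ 2 * L * U1.card * θ := mul_le_mul_of_nonneg_right g1 hθ.le
      linarith
    exact le_of_mul_le_mul_left h1 (by positivity)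

end H15C6
end S_CORE
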