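import Pool.Agent.H15.C6F.FA

section S_ADefs
/-!
Definitions for the absorber part.
-/

set_option linter.unusedSectionVars false

open Finset

namespace H15C6

variable {V : Type} [DecidableEq V]

/-- `x ≠ y` have at least `η|U|` common neighbours in `U` -/
def Gam (E : Finset (Sym2 V)) (U : Finset V) (η : ℝ) (x y : V) : Prop :=
  x ≠ y ∧ η * (U.card : ℝ) ≤ (cn E U x y : ℝ)

/-- `J` is a partition of the edge set `F` into cherries -/
def CherryPart (F : Finset (Sym2 V)) (J : Finset (V × V × V)) : Prop :=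
  (∀ t ∈ J, t.1 ≠ t.2.1 ∧ t.2.1 ≠ t.2.2 ∧ t.1 ≠ t.2.2) ∧
  (∀ t ∈ J, ∀ t' ∈ J, t ≠ t' → Disjoint (chE t) (chE t')) ∧
  J.biUnion chE = F

/-- the three sides of a triple -/
def sides (t : V × V × V) : Multiset (Sym2 V) :=
  {s(t.1, t.2.1), s(t.2.1, t.2.2), s(t.2.2, t.1)}

/-- boundary of a list of triples -/
def bd (T : List (V × V × V)) : Multiset (Sym2 V) := (T.map sides).sum

/-- triangle of the relation `Γ` with vertices in `Q` -/
def GTri (Γ : V → V → Prop) (Q : Set V) (t : V × V × V) : Prop :=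
  Γ t.1 t.2.1 ∧ Γ t.2.1 t.2.2 ∧ Γ t.2.2 t.1 ∧ t.1 ∈ Q ∧ t.2.1 ∈ Q ∧ t.2.2 ∈ Q

/-- the multiset `w` becomes a sum of triangles after adding at most `k` triangles -/
def Solv (Γ : V → V → Prop) (Q : Set V) (k : ℕ) (w : Multiset (Sym2 V)) : Prop :=
  ∃ Tp Tm : List (V × V × V), (∀ t ∈ Tp, GTri Γ Q t) ∧ (∀ t ∈ Tm, GTri Γ Q t) ∧
    Tm.length ≤ k ∧ w + bd Tm = bd Tp

theorem Gam.symm {E : Finset (Sym2 V)} {U : Finset V} {η : ℝ} {x y : V} (h : Gam E U η x y) :
    Gam E U η y x := by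
  refine ⟨h.1.symm, ?_⟩
  have : cn E U y x = cn E U x y := by
    unfold cn
    congr 1
    ext m
    simp only [Finset.mem_filter]
    rw [Sym2.eq_swap (a := y) (b := m), Sym2.eq_swap (a := m) (b := x)]
    tauto
  rw [this]
  exact h.2

theorem Gam.irrefl {E : Finset (Sym2 V)} {U : Finset V} {η : ℝ} {x : V} : ¬ Gam E U η x x :=
  fun h => h.1 rfl

/-- distinct representatives avoiding `Q` -/
theorem pick {ι : Type} [DecidableEq ι] [Nonempty V] (J : Finset ι) (cand : ι → Finset V)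
    (Q : Finset V) (h : ∀ j ∈ J, Q.card + J.card < (cand j).card) :
    ∃ f : ι → V, (∀ j ∈ J, f j ∈ cand j ∧ f j ∉ Q) ∧
      (∀ j ∈ J, ∀ j' ∈ J, f j = f j' → j = j') := by
  suffices H : ∀ J' : Finset ι, J' ⊆ J → ∃ f : ι → V, (∀ j ∈ J', f j ∈ cand j ∧ f j ∉ Q) ∧
      (∀ j ∈ J', ∀ j' ∈ J', f j = f j' → j = j') from H J (Finset.Subset.refl J)
  intro J'
  induction J' using Finset.induction_on with
  | empty => intro _; exact ⟨fun _ => Classical.arbitrary V, by simp, by simp⟩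
  | @insert a J' ha ih =>
    intro hs
    obtain ⟨f, hf1, hf2⟩ := ih (fun j hj => hs (Finset.mem_insert_of_mem hj))
    have haJ : a ∈ J := hs (Finset.mem_insert_self a J')
    have hc : (Q ∪ J'.image f).card < (cand a).card := by
      have h1 : (Q ∪ J'.image f).card ≤ Q.card + J'.card :=
        (Finset.card_union_le _ _).trans (Nat.add_le_add_left Finset.card_image_le _)
      have h2 : J'.card ≤ J.card :=
        Finset.card_le_card (fun j hj => hs (Finset.mem_insert_of_mem hj))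
      have h3 := h a haJ
      omega
    obtain ⟨z, hz1, hz2⟩ := Finset.exists_mem_notMem_of_card_lt_card hc
    rw [Finset.mem_union, not_or] at hz2
    refine ⟨Function.update f a z, ?_, ?_⟩
    · intro j hj
      rw [Finset.mem_insert] at hj
      by_cases hja : j = a
      · subst hja; simp [hz1, hz2.1]
      · rw [Function.update_of_ne hja]
        exact hf1 j (hj.resolve_left hja)
    · intro j hj j' hj' he
      rw [Finset.mem_insert] at hj hj'
      by_cases hja : j = a <;> by_cases hja' : j' = a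
      · rw [hja, hja']
      · exfalso
        subst hja
        rw [Function.update_self, Function.update_of_ne hja'] at he
        exact hz2.2 (Finset.mem_image.2 ⟨j', hj'.resolve_left hja', he.symm⟩)
      · exfalso
        subst hja'
        rw [Function.update_self, Function.update_of_ne hja] at he
        exact hz2.2 (Finset.mem_image.2 ⟨j, hj.resolve_left hja, he⟩)
      · rw [Function.update_of_ne hja, Function.update_of_ne hja'] at he
        exact hf2 j (hj.resolve_left hja) j' (hj'.resolve_left hja') he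

end H15C6
end S_ADefs

section S_REG
/-!
Module REG.  Regrouping cherries with private distinct middle vertices: if the ends of the cherries form,
as a multiset of pairs, the boundary of a list of triangles, then the union of the cherries is
decomposable (whatever the assignment of middle vertices).

Proof: induction on `T`.  For `t = (a,b,c) :: T'` the multiset `J.val.map ends` contains
`s(a,b), s(b,c), s(c,a)` (three different pairs), hence there are three different `j1, j2, j3 ∈ J`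
with these ends.  `a, m j1, b, m j2, c, m j3` is a six-cycle whose edge set is the union of the
three `chE`'s.  Remove `j1, j2, j3` from `J`; the `chE`'s of different `j` are disjoint
because all middle vertices are distinct and different from all ends.
-/

open Finset

namespace H15C6

theorem reg_cyc {V : Type} [DecidableEq V] (a p b q c r : V) :
    cyc ![a, p, b, q, c, r] = {s(a, p), s(p, b)} ∪ ({s(b, q), s(q, c)} ∪ {s(c, r), s(r, a)}) := by
  ext e
  rw [mem_cyc]
  simp only [Finset.mem_union, Finset.mem_insert, Finset.mem_singleton]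
  constructor
  · rintro ⟨i, rfl⟩
    fin_cases i <;> simp
  · rintro ((h | h) | (h | h) | (h | h))
    · exact ⟨0, by simp [h]⟩
    · exact ⟨1, by simp [h]⟩
    · exact ⟨2, by simp [h]⟩
    · exact ⟨3, by simp [h]⟩
    · exact ⟨4, by simp [h]⟩
    · exact ⟨5, by simp [h]⟩

theorem reg_inj {V : Type} [DecidableEq V] (a p b q c r : V) (hab : a ≠ b) (hbc : b ≠ c)
    (hca : c ≠ a) (hpq : p ≠ q) (hqr : q ≠ r) (hrp : r ≠ p)
    (hp : p ≠ a ∧ p ≠ b ∧ p ≠ c) (hq : q ≠ a ∧ q ≠ b ∧ q ≠ c) (hr : r ≠ a ∧ r ≠ b ∧ r ≠ c) :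
    Function.Injective ![a, p, b, q, c, r] := by
  obtain ⟨hp1, hp2, hp3⟩ := hp
  obtain ⟨hq1, hq2, hq3⟩ := hq
  obtain ⟨hr1, hr2, hr3⟩ := hr
  intro i j hij
  fin_cases i <;> fin_cases j <;> simp at hij ⊢ <;>
    first
    | exact absurd hij hab
    | exact absurd hij.symm hab
    | exact absurd hij hbc
    | exact absurd hij.symm hbc
    | exact absurd hij hca
    | exact absurd hij.symm hca
    | exact absurd hij hpq
    | exact absurd hij.symm hpq
    | exact absurd hij hqr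
    | exact absurd hij.symm hqr
    | exact absurd hij hrp
    | exact absurd hij.symm hrp
    | exact absurd hij hp1
    | exact absurd hij.symm hp1
    | exact absurd hij hp2
    | exact absurd hij.symm hp2
    | exact absurd hij hp3
    | exact absurd hij.symm hp3
    | exact absurd hij hq1
    | exact absurd hij.symm hq1
    | exact absurd hij hq2
    | exact absurd hij.symm hq2
    | exact absurd hij hq3
    | exact absurd hij.symm hq3
    | exact absurd hij hr1
    | exact absurd hij.symm hr1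
    | exact absurd hij hr2
    | exact absurd hij.symm hr2
    | exact absurd hij hr3
    | exact absurd hij.symm hr3

theorem reg_chE {V : Type} [DecidableEq V] {x m y a b : V} (h : s(x, y) = s(a, b)) :
    chE (x, m, y) = {s(a, m), s(m, b)} := by
  unfold chE
  rcases Sym2.eq_iff.1 h with ⟨rfl, rfl⟩ | ⟨rfl, rfl⟩
  · rfl
  · simp only
    rw [Finset.pair_comm, Sym2.eq_swap (a := m) (b := x), Sym2.eq_swap (a := y) (b := m),
      Finset.pair_comm]

theorem regroup {V ι : Type} [DecidableEq V] [DecidableEq ι] (J : Finset ι) (x m y : ι → V)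
    (T : List (V × V × V))
    (hm : ∀ j ∈ J, ∀ j' ∈ J, m j = m j' → j = j')
    (hmx : ∀ j ∈ J, ∀ j' ∈ J, m j ≠ x j' ∧ m j ≠ y j')
    (hT : ∀ t ∈ T, t.1 ≠ t.2.1 ∧ t.2.1 ≠ t.2.2 ∧ t.2.2 ≠ t.1)
    (hJ : J.val.map (fun j => s(x j, y j)) = bd T) :
    Dec (J.biUnion (fun j => chE (x j, m j, y j))) := by
  induction T generalizing J with
  | nil =>
    have h0 : J.val.map (fun j => s(x j, y j)) = 0 := by
      rw [hJ]; simp [bd]
    rw [Multiset.map_eq_zero, Finset.val_eq_zero] at h0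
    subst h0
    simpa using Dec.empty
  | cons t T ih =>
    obtain ⟨a, b, c⟩ := t
    have hbd : bd ((a, b, c) :: T) = {s(a, b), s(b, c), s(c, a)} + bd T := by
      simp [bd, sides]
    obtain ⟨hab, hbc, hca⟩ := hT (a, b, c) (by simp)
    simp only at hab hbc hca
    rw [hbd] at hJ
    have hmem : ∀ e ∈ ({s(a, b), s(b, c), s(c, a)} : Multiset (Sym2 V)),
        ∃ j ∈ J, s(x j, y j) = e := by
      intro e he
      have : e ∈ J.val.map (fun j => s(x j, y j)) := by
        rw [hJ]; exact Multiset.mem_add.2 (Or.inl he)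
      rw [Multiset.mem_map] at this
      exact this
    obtain ⟨j1, hj1, h1⟩ := hmem s(a, b) (by simp)
    obtain ⟨j2, hj2, h2⟩ := hmem s(b, c) (by simp)
    obtain ⟨j3, hj3, h3⟩ := hmem s(c, a) (by simp)
    have h12 : j1 ≠ j2 := by
      rintro rfl
      rw [h1, Sym2.eq_iff] at h2
      rcases h2 with ⟨h, _⟩ | ⟨h, _⟩
      · exact hab h
      · exact hca h.symm
    have h23 : j2 ≠ j3 := by
      rintro rfl
      rw [h2, Sym2.eq_iff] at h3
      rcases h3 with ⟨h, _⟩ | ⟨h, _⟩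
      · exact hbc h
      · exact hab h.symm
    have h13 : j1 ≠ j3 := by
      rintro rfl
      rw [h1, Sym2.eq_iff] at h3
      rcases h3 with ⟨h, _⟩ | ⟨_, h⟩
      · exact hca h.symm
      · exact hbc h
    set J' := J \ {j1, j2, j3} with hJ'
    have hsub : J' ⊆ J := Finset.sdiff_subset
    have hdisj : Disjoint J' {j1, j2, j3} := Finset.sdiff_disjoint
    have hJun : J = J' ∪ {j1, j2, j3} := by
      rw [hJ', Finset.sdiff_union_of_subset]
      intro j hj
      simp only [Finset.mem_insert, Finset.mem_singleton] at hj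
      rcases hj with rfl | rfl | rfl <;> assumption
    have hval : J.val = J'.val + {j1, j2, j3} := by
      have h123 : (({j1, j2, j3} : Finset ι)).val = ({j1, j2, j3} : Multiset ι) := by
        rw [Finset.insert_val_of_notMem (by simp [h12, h13]),
          Finset.insert_val_of_notMem (by simp [h23]), Finset.singleton_val]
        rfl
      rw [← h123]
      conv_lhs => rw [hJun]
      rw [← Finset.disjUnion_eq_union _ _ hdisj, Finset.disjUnion_val]
    have hmap : J'.val.map (fun j => s(x j, y j)) = bd T := by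
      rw [hval, Multiset.map_add] at hJ
      have h4 : Multiset.map (fun j => s(x j, y j)) ({j1, j2, j3} : Multiset ι) =
          {s(a, b), s(b, c), s(c, a)} := by
        simp [h1, h2, h3]
      rw [h4, add_comm] at hJ
      exact add_left_cancel hJ
    have hD' := ih J' (fun j hj j' hj' => hm j (hsub hj) j' (hsub hj'))
      (fun j hj j' hj' => hmx j (hsub hj) j' (hsub hj'))
      (fun t ht => hT t (List.mem_cons_of_mem _ ht)) hmap
    have hends : ∀ j ∈ J, m j ≠ a ∧ m j ≠ b ∧ m j ≠ c := by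
      intro j hj
      have e1 := hmx j hj j1 hj1
      have e2 := hmx j hj j2 hj2
      refine ⟨?_, ?_, ?_⟩
      · rcases Sym2.eq_iff.1 h1 with ⟨p, q⟩ | ⟨p, q⟩
        · rw [← p]; exact e1.1
        · rw [← q]; exact e1.2
      · rcases Sym2.eq_iff.1 h1 with ⟨p, q⟩ | ⟨p, q⟩
        · rw [← q]; exact e1.2
        · rw [← p]; exact e1.1
      · rcases Sym2.eq_iff.1 h2 with ⟨p, q⟩ | ⟨p, q⟩
        · rw [← q]; exact e2.2
        · rw [← p]; exact e2.1
    have hcyc : IsC6 (({j1, j2, j3} : Finset ι).biUnion (fun j => chE (x j, m j, y j))) := by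
      refine ⟨![a, m j1, b, m j2, c, m j3], ?_, ?_⟩
      · exact reg_inj _ _ _ _ _ _ hab hbc hca (fun h => h12 (hm _ hj1 _ hj2 h))
          (fun h => h23 (hm _ hj2 _ hj3 h)) (fun h => h13 (hm _ hj3 _ hj1 h).symm)
          (hends _ hj1) (hends _ hj2) (hends _ hj3)
      · rw [reg_cyc, Finset.biUnion_insert, Finset.biUnion_insert, Finset.singleton_biUnion,
          reg_chE h1, reg_chE h2, reg_chE h3]
    have hfin : J.biUnion (fun j => chE (x j, m j, y j)) =
        J'.biUnion (fun j => chE (x j, m j, y j)) ∪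
          ({j1, j2, j3} : Finset ι).biUnion (fun j => chE (x j, m j, y j)) := by
      conv_lhs => rw [hJun]
      rw [Finset.union_biUnion]
    rw [hfin]
    refine Dec.add hD' hcyc ?_
    rw [Finset.disjoint_biUnion_left]
    intro j hj
    rw [Finset.disjoint_biUnion_right]
    intro j' hj'
    have hj'J : j' ∈ J := by
      simp only [Finset.mem_insert, Finset.mem_singleton] at hj'
      rcases hj' with rfl | rfl | rfl <;> assumption
    have hne : j ≠ j' := by
      rintro rfl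
      exact (Finset.disjoint_left.1 hdisj) hj hj'
    have hmne : m j ≠ m j' := fun h => hne (hm _ (hsub hj) _ hj'J h)
    rw [Finset.disjoint_left]
    intro e he he'
    have hin : m j ∈ e := by
      simp only [chE, Finset.mem_insert, Finset.mem_singleton] at he
      rcases he with rfl | rfl
      · exact Sym2.mem_mk_right _ _
      · exact Sym2.mem_mk_left _ _
    simp only [chE, Finset.mem_insert, Finset.mem_singleton] at he'
    have hx := hmx j (hsub hj) j' hj'J
    rcases he' with rfl | rfl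
    · rcases Sym2.mem_iff.1 hin with h | h
      · exact hx.1 h
      · exact hmne h
    · rcases Sym2.mem_iff.1 hin with h | h
      · exact hmne h
      · exact hx.2 h

end H15C6
end S_REG

section S_ALGA
/-!
Module ALGA.  Calculus of integer combinations of triangles, and the function `α`.

`e1 x y : Sym2 V → ℤ` is the indicator of `s(x,y)`; `Gen Γ Q k f`: `f` is a sum of at most `k` signed
triangle boundaries (triangles of `Γ` with vertices in `Q`).

Basic calculus (prove first, other modules use it): `Gen.zero`, `Gen.add`, `Gen.neg`, `Gen.sub`,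
`Gen.mono`, `Gen.nsmul`, `Gen.tri`, `Gen.sum_le`.

`alpha_exists`: write `e(xy)` for `e1 x y`, `λ = 2 e(pq)`.
(i) 4-clique `{x,y,z,w}` of `Γ` in `Q`: `2 e(zw) - 2 e(xy) = t(yzw) + t(xzw) - t(xyw) - t(xyz)`: `Gen 4`.
(ii) for every `Γ`-edge `xy` in `S ∩ Q`: `2 e(xy) - λ` is `Gen 8` (K4 for `x,y,p,q`).
(iii) `6 e(pq)`: with `r` adjacent to `p, q`: `2 t(pqr) - (2e(qr) - λ) - (2e(rp) - λ)`: `Gen 18`.
(iv) if `u, u'` are both `Γ`-adjacent to `x` and `c` then `e(ux)+e(uc) - e(u'x)-e(u'c)` is `Gen 20`: take `v`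
  adjacent to `x, c, u, u'`; `e(ux)+e(uc) = t(u,x,v) + t(u,c,v) - e(xv) - e(cv) - 2e(uv)` and the
  same for `u'`.
(v) `α x := e(x, y) + e(y, c)` for one chosen `y` adjacent to `x` and `c` (`y ∈ S ∩ Q`).
  `2 α x - 2 λ` is `Gen 16` by (ii).  For a `Γ`-edge `xz` choose `y` adjacent to `x, z, c`:
  `α x ≡ e(xy)+e(yc)`, `α z ≡ e(zy)+e(yc)` (`Gen 20` each), so
  `α x + α z ≡ e(xy) + e(zy) + 2 e(yc) ≡ (t(x,y,z) - e(xz)) + λ ≡ -e(xz) + 2 e(xz) = e(xz)`:
  altogether `Gen 57`.
-/

open Finset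

namespace H15C6

variable {V : Type} [DecidableEq V]

/-- indicator of the pair `xy` -/
def e1 (x y : V) : Sym2 V → ℤ := fun e => if e = s(x, y) then 1 else 0

/-- boundary of a triple as a function -/
def tf (t : V × V × V) : Sym2 V → ℤ := e1 t.1 t.2.1 + e1 t.2.1 t.2.2 + e1 t.2.2 t.1

/-- `f` is a sum of at most `k` signed boundaries of `Γ`-triangles in `Q` -/
def Gen (Γ : V → V → Prop) (Q : Set V) (k : ℕ) (f : Sym2 V → ℤ) : Prop :=
  ∃ Tp Tm : List (V × V × V), (∀ t ∈ Tp, GTri Γ Q t) ∧ (∀ t ∈ Tm, GTri Γ Q t) ∧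
    Tp.length + Tm.length ≤ k ∧ f = (Tp.map tf).sum - (Tm.map tf).sum

variable {Γ : V → V → Prop} {Q : Set V}

theorem Gen.zero : Gen Γ Q 0 0 :=
  ⟨[], [], by simp, by simp, by simp, by simp⟩

theorem Gen.mono {k l : ℕ} {f : Sym2 V → ℤ} (h : Gen Γ Q k f) (hkl : k ≤ l) : Gen Γ Q l f := by
  obtain ⟨Tp, Tm, h1, h2, h3, h4⟩ := h
  exact ⟨Tp, Tm, h1, h2, h3.trans hkl, h4⟩

theorem Gen.neg {k : ℕ} {f : Sym2 V → ℤ} (h : Gen Γ Q k f) : Gen Γ Q k (-f) := by
  obtain ⟨Tp, Tm, h1, h2, h3, h4⟩ := h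
  refine ⟨Tm, Tp, h2, h1, by omega, ?_⟩
  rw [h4, neg_sub]

theorem Gen.add {k l : ℕ} {f g : Sym2 V → ℤ} (hf : Gen Γ Q k f) (hg : Gen Γ Q l g) :
    Gen Γ Q (k + l) (f + g) := by
  obtain ⟨Tp, Tm, h1, h2, h3, h4⟩ := hf
  obtain ⟨Tp', Tm', h1', h2', h3', h4'⟩ := hg
  refine ⟨Tp ++ Tp', Tm ++ Tm', ?_, ?_, ?_, ?_⟩
  · intro t ht
    rcases List.mem_append.1 ht with h | h
    · exact h1 t h
    · exact h1' t h
  · intro t ht
    rcases List.mem_append.1 ht with h | h
    · exact h2 t h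
    · exact h2' t h
  · rw [List.length_append, List.length_append]
    omega
  · rw [h4, h4', List.map_append, List.map_append, List.sum_append, List.sum_append]
    abel

theorem Gen.sub {k l : ℕ} {f g : Sym2 V → ℤ} (hf : Gen Γ Q k f) (hg : Gen Γ Q l g) :
    Gen Γ Q (k + l) (f - g) := by
  rw [sub_eq_add_neg]
  exact hf.add hg.neg

theorem Gen.nsmul {k : ℕ} {f : Sym2 V → ℤ} (n : ℕ) (hf : Gen Γ Q k f) :
    Gen Γ Q (n * k) (n • f) := by
  induction n with
  | zero => simpa using (Gen.zero : Gen Γ Q 0 0)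
  | succ n ih =>
    rw [succ_nsmul, Nat.succ_mul]
    exact ih.add hf

theorem Gen.tri {t : V × V × V} (ht : GTri Γ Q t) : Gen Γ Q 1 (tf t) := by
  refine ⟨[t], [], ?_, by simp, by simp, by simp⟩
  intro t' ht'
  rw [List.mem_singleton] at ht'
  rw [ht']
  exact ht

/-- sums over multisets -/
theorem Gen.msum {β : Type} (m : Multiset β) (g : β → Sym2 V → ℤ) (k : ℕ)
    (h : ∀ b ∈ m, Gen Γ Q k (g b)) : Gen Γ Q (k * m.card) ((m.map g).sum) := by
  induction m using Multiset.induction_on with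
  | empty => simpa using (Gen.zero : Gen Γ Q 0 0)
  | cons a m ih =>
    rw [Multiset.map_cons, Multiset.sum_cons, Multiset.card_cons, Nat.mul_succ, Nat.add_comm]
    exact (h a (Multiset.mem_cons_self a m)).add
      (ih (fun b hb => h b (Multiset.mem_cons_of_mem hb)))

theorem e1_comm (x y : V) : e1 x y = e1 y x := by
  funext e
  unfold e1
  rw [Sym2.eq_swap]

theorem alga_count_cons (e : Sym2 V) (x y : V) (w : Multiset (Sym2 V)) :
    ((Multiset.count e (s(x, y) ::ₘ w) : ℕ) : ℤ) = e1 x y e + (Multiset.count e w : ℤ) := by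
  unfold e1
  rw [Multiset.count_cons]
  split_ifs with h
  · push_cast; ring
  · push_cast; ring

theorem alga_count_bd (T : List (V × V × V)) (e : Sym2 V) :
    ((Multiset.count e (bd T) : ℕ) : ℤ) = (T.map tf).sum e := by
  induction T with
  | nil => simp [bd]
  | cons t T ih =>
    have h1 : bd (t :: T) = sides t + bd T := by
      unfold bd
      rw [List.map_cons, List.sum_cons]
    have h2 : sides t = s(t.1, t.2.1) ::ₘ s(t.2.1, t.2.2) ::ₘ s(t.2.2, t.1) ::ₘ 0 := rfl
    rw [h1, Multiset.count_add, List.map_cons, List.sum_cons, Pi.add_apply, ← ih, h2]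
    push_cast
    rw [alga_count_cons, alga_count_cons, alga_count_cons, Multiset.count_zero]
    unfold tf
    simp only [Pi.add_apply]
    push_cast
    ring

/-- from a formal identity to an identity of multisets -/
theorem solv_of_gen {k : ℕ} {w : Multiset (Sym2 V)}
    (h : Gen Γ Q k (fun e => (w.count e : ℤ))) : Solv Γ Q k w := by
  obtain ⟨Tp, Tm, h1, h2, h3, h4⟩ := h
  refine ⟨Tp, Tm, h1, h2, by omega, ?_⟩
  ext e
  have h5 := congrFun h4 e
  simp only [Pi.sub_apply] at h5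
  rw [← alga_count_bd, ← alga_count_bd] at h5
  rw [Multiset.count_add]
  omega

/-- the indicator sum of a multiset of pairs -/
theorem count_eq_sum (l : Multiset (V × V)) :
    (fun e => ((l.map (fun p => s(p.1, p.2))).count e : ℤ)) = (l.map (fun p => e1 p.1 p.2)).sum := by
  induction l using Multiset.induction_on with
  | empty => funext e; simp
  | cons a m ih =>
    rw [Multiset.map_cons, Multiset.map_cons, Multiset.sum_cons, ← ih]
    funext e
    rw [alga_count_cons, Pi.add_apply]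

/-- many common neighbours in `Γ` within `S ∩ Q` -/
def K4Prop (Γ : V → V → Prop) (S Q : Set V) : Prop :=
  ∀ x1 ∈ S, ∀ x2 ∈ S, ∀ x3 ∈ S, ∀ x4 ∈ S, ∃ z w, z ∈ S ∧ w ∈ S ∧ z ∈ Q ∧ w ∈ Q ∧ Γ z w ∧
    (Γ z x1 ∧ Γ z x2 ∧ Γ z x3 ∧ Γ z x4) ∧ (Γ w x1 ∧ Γ w x2 ∧ Γ w x3 ∧ Γ w x4)

/-- opposite edges of a clique on four vertices -/
theorem alga_opp (hsym : ∀ x y, Γ x y → Γ y x) {x y z w : V} (hx : x ∈ Q) (hy : y ∈ Q)
    (hz : z ∈ Q) (hw : w ∈ Q) (hxy : Γ x y) (hzw : Γ z w) (hzx : Γ z x) (hzy : Γ z y)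
    (hwx : Γ w x) (hwy : Γ w y) : Gen Γ Q 4 (2 • e1 x y - 2 • e1 z w) := by
  have t1 : Gen Γ Q 1 (tf (x, y, w)) := Gen.tri ⟨hxy, hsym _ _ hwy, hwx, hx, hy, hw⟩
  have t2 : Gen Γ Q 1 (tf (x, y, z)) := Gen.tri ⟨hxy, hsym _ _ hzy, hzx, hx, hy, hz⟩
  have t3 : Gen Γ Q 1 (tf (y, z, w)) := Gen.tri ⟨hsym _ _ hzy, hzw, hwy, hy, hz, hw⟩
  have t4 : Gen Γ Q 1 (tf (x, z, w)) := Gen.tri ⟨hsym _ _ hzx, hzw, hwx, hx, hz, hw⟩
  have h := ((t1.add t2).sub t3).sub t4
  have he : tf (x, y, w) + tf (x, y, z) - tf (y, z, w) - tf (x, z, w) =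
      2 • e1 x y - 2 • e1 z w := by
    simp only [tf]
    rw [e1_comm w y, e1_comm z x]
    abel
  rw [he] at h
  exact h

theorem alpha_exists (hsym : ∀ x y, Γ x y → Γ y x) (hirr : ∀ x, ¬ Γ x x) (S : Set V)
    (hK4 : K4Prop Γ S Q) (p q c : V) (hp : p ∈ S) (hpQ : p ∈ Q) (hqS : q ∈ S) (hqQ : q ∈ Q)
    (hpq : Γ p q) (hc : c ∈ S) (hcQ : c ∈ Q) :
    Gen Γ Q 18 (6 • e1 p q) ∧
    (∀ x y, x ∈ S → x ∈ Q → y ∈ S → y ∈ Q → Γ x y → Gen Γ Q 8 (2 • e1 x y - 2 • e1 p q)) ∧
    ∃ α : V → Sym2 V → ℤ,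
      (∀ x, x ∈ S → x ∈ Q → Gen Γ Q 16 (2 • α x - 4 • e1 p q)) ∧
      (∀ x z, x ∈ S → x ∈ Q → z ∈ S → z ∈ Q → Γ x z → Gen Γ Q 57 (e1 x z - α x - α z)) := by
  have hii : ∀ x y, x ∈ S → x ∈ Q → y ∈ S → y ∈ Q → Γ x y →
      Gen Γ Q 8 (2 • e1 x y - 2 • e1 p q) := by
    intro x y hx hxQ hy hyQ hxy
    obtain ⟨z, w, hz, hw, hzQ, hwQ, hzw, ⟨a1, a2, a3, a4⟩, b1, b2, b3, b4⟩ :=
      hK4 x hx y hy p hp q hqS
    have h1 := alga_opp hsym hxQ hyQ hzQ hwQ hxy hzw a1 a2 b1 b2
    have h2 := alga_opp hsym hpQ hqQ hzQ hwQ hpq hzw a3 a4 b3 b4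
    have h3 := h1.sub h2
    have he : (2 • e1 x y - 2 • e1 z w) - (2 • e1 p q - 2 • e1 z w) =
        2 • e1 x y - 2 • e1 p q := by abel
    rw [he] at h3
    exact h3
  have hiii : Gen Γ Q 18 (6 • e1 p q) := by
    obtain ⟨r, _, hr, _, hrQ, _, _, ⟨a1, a2, _, _⟩, _⟩ := hK4 p hp q hqS p hp q hqS
    have t1 : Gen Γ Q 1 (tf (p, q, r)) := Gen.tri ⟨hpq, hsym _ _ a2, a1, hpQ, hqQ, hrQ⟩
    have h1 := hii q r hqS hqQ hr hrQ (hsym _ _ a2)
    have h2 := hii r p hr hrQ hp hpQ a1
    have h3 := ((t1.nsmul 2).sub h1).sub h2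
    have he : 2 • tf (p, q, r) - (2 • e1 q r - 2 • e1 p q) - (2 • e1 r p - 2 • e1 p q) =
        6 • e1 p q := by
      simp only [tf]
      abel
    rw [he] at h3
    exact h3
  have hiv : ∀ x u u', x ∈ S → x ∈ Q → u ∈ S → u ∈ Q → u' ∈ S → u' ∈ Q → Γ u x → Γ u c →
      Γ u' x → Γ u' c → Gen Γ Q 20 (e1 x u + e1 u c - e1 x u' - e1 u' c) := by
    intro x u u' hx hxQ hu huQ hu' hu'Q h1 h2 h3 h4
    obtain ⟨v, _, hv, _, hvQ, _, _, ⟨a1, a2, a3, a4⟩, _⟩ := hK4 x hx c hc u hu u' hu'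
    have t1 : Gen Γ Q 1 (tf (u, x, v)) := Gen.tri ⟨h1, hsym _ _ a1, a3, huQ, hxQ, hvQ⟩
    have t2 : Gen Γ Q 1 (tf (u, c, v)) := Gen.tri ⟨h2, hsym _ _ a2, a3, huQ, hcQ, hvQ⟩
    have t3 : Gen Γ Q 1 (tf (u', x, v)) := Gen.tri ⟨h3, hsym _ _ a1, a4, hu'Q, hxQ, hvQ⟩
    have t4 : Gen Γ Q 1 (tf (u', c, v)) := Gen.tri ⟨h4, hsym _ _ a2, a4, hu'Q, hcQ, hvQ⟩
    have g1 := hii v u hv hvQ hu huQ a3
    have g2 := hii v u' hv hvQ hu' hu'Q a4
    have h := ((((t1.add t2).sub t3).sub t4).sub g1).add g2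
    have he : tf (u, x, v) + tf (u, c, v) - tf (u', x, v) - tf (u', c, v) -
        (2 • e1 v u - 2 • e1 p q) + (2 • e1 v u' - 2 • e1 p q) =
        e1 x u + e1 u c - e1 x u' - e1 u' c := by
      simp only [tf]
      rw [e1_comm x u, e1_comm x u']
      abel
    rw [he] at h
    exact h
  refine ⟨hiii, hii, ?_⟩
  have hy : ∀ x, ∃ y, x ∈ S → (y ∈ S ∧ y ∈ Q ∧ Γ y x ∧ Γ y c) := by
    intro x
    by_cases hx : x ∈ S
    · obtain ⟨y, _, hy, _, hyQ, _, _, ⟨a1, a2, _, _⟩, _⟩ := hK4 x hx c hc x hx c hc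
      exact ⟨y, fun _ => ⟨hy, hyQ, a1, a2⟩⟩
    · exact ⟨x, fun h => absurd h hx⟩
  choose Y hY using hy
  refine ⟨fun x => e1 x (Y x) + e1 (Y x) c, ?_, ?_⟩
  · intro x hx hxQ
    obtain ⟨b1, b2, b3, b4⟩ := hY x hx
    have g1 := hii x (Y x) hx hxQ b1 b2 (hsym _ _ b3)
    have g2 := hii (Y x) c b1 b2 hc hcQ b4
    have h := g1.add g2
    have he : (2 • e1 x (Y x) - 2 • e1 p q) + (2 • e1 (Y x) c - 2 • e1 p q) =
        2 • (e1 x (Y x) + e1 (Y x) c) - 4 • e1 p q := by abel
    rw [he] at h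
    exact h
  · intro x z hx hxQ hz hzQ hxz
    obtain ⟨b1, b2, b3, b4⟩ := hY x hx
    obtain ⟨c1, c2, c3, c4⟩ := hY z hz
    obtain ⟨y, _, hy, _, hyQ, _, _, ⟨a1, a2, a3, _⟩, _⟩ := hK4 x hx z hz c hc c hc
    have g1 := hiv x (Y x) y hx hxQ b1 b2 hy hyQ b3 b4 a1 a3
    have g2 := hiv z (Y z) y hz hzQ c1 c2 hy hyQ c3 c4 a2 a3
    have g3 := hii x z hx hxQ hz hzQ hxz
    have g4 := hii y c hy hyQ hc hcQ a3
    have t1 : Gen Γ Q 1 (tf (x, y, z)) := Gen.tri ⟨hsym _ _ a1, a2, hsym _ _ hxz, hxQ, hyQ, hzQ⟩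
    have h := (((g3.sub g4).sub t1).sub g1).sub g2
    have he : (2 • e1 x z - 2 • e1 p q) - (2 • e1 y c - 2 • e1 p q) - tf (x, y, z) -
        (e1 x (Y x) + e1 (Y x) c - e1 x y - e1 y c) -
        (e1 z (Y z) + e1 (Y z) c - e1 z y - e1 y c) =
        e1 x z - (e1 x (Y x) + e1 (Y x) c) - (e1 z (Y z) + e1 (Y z) c) := by
      simp only [tf]
      rw [e1_comm z x, e1_comm z y]
      abel
    rw [he] at h
    exact h

end H15C6
end S_ALGA

section S_ALGN
/-!
Module ALGN.  Every even multiset `w` of `Γ`-edges with `3 ∣ card w` is solvable.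

If `w = 0` take empty lists.  Otherwise pick `x1` an end of an edge of `w` and `p, q` from `K4Prop`
(applied to `x1,x1,x1,x1`), `c := p`, and `α` from `alpha_exists`.  Choose a multiset `l` of ordered pairs with
`w = l.map (s(·,·))`.  By `count_eq_sum` the indicator sum of `w` is `∑_{(x,z) ∈ l} e1 x z`; up to `57 card w`
triangles it equals `∑ (α x + α z) = ∑_{v ∈ ends} α v`, where `ends = l.map fst + l.map snd` has
`2 card w` elements and every `v` has even multiplicity in it (`= countP (v ∈ ·) w`, no loops as `Γ` is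
irreflexive), so `ends = 2 • half`, `card half = card w`, and `∑_{ends} α = ∑_{half} 2 α v`, which up to
`16 card w` triangles is `card w • 4 e1 p q = (card w / 3) • 2 • (6 e1 p q)`: `Gen (36 (card w/3))`.
Total at most `100 card w`.  Then `solv_of_gen`.
-/

open Finset

namespace H15C6

theorem algn_fsum {V : Type} [DecidableEq V] {Γ : V → V → Prop} {Q : Set V} (s : Finset V)
    (h : V → ℕ) (g : V → Sym2 V → ℤ) (k : ℕ) (hg : ∀ v ∈ s, Gen Γ Q k (g v)) :
    Gen Γ Q ((∑ v ∈ s, h v) * k) (∑ v ∈ s, h v • g v) := by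
  induction s using Finset.induction_on with
  | empty => simpa using (Gen.zero : Gen Γ Q 0 0)
  | insert v s hv ih =>
    rw [Finset.sum_insert hv, Finset.sum_insert hv, Nat.add_mul]
    exact ((hg v (Finset.mem_insert_self v s)).nsmul (h v)).add
      (ih fun u hu => hg u (Finset.mem_insert_of_mem hu))

theorem algn_count {V : Type} [DecidableEq V] (l : Multiset (V × V)) (hl : ∀ p ∈ l, p.1 ≠ p.2)
    (v : V) : Multiset.count v (l.map Prod.fst + l.map Prod.snd) =
      (l.map (fun p => s(p.1, p.2))).countP (fun e => v ∈ e) := by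
  induction l using Multiset.induction_on with
  | empty => simp
  | cons a m ih =>
    have ih' := ih fun p hp => hl p (Multiset.mem_cons_of_mem hp)
    have ha := hl a (Multiset.mem_cons_self a m)
    rw [Multiset.count_add] at ih' ⊢
    rw [Multiset.map_cons, Multiset.map_cons, Multiset.map_cons, Multiset.count_cons,
      Multiset.count_cons, Multiset.countP_cons, ← ih']
    have h1 : (v ∈ s(a.1, a.2)) ↔ (v = a.1 ∨ v = a.2) := Sym2.mem_iff
    by_cases h2 : v = a.1
    · have h3 : v ≠ a.2 := fun h => ha (h2 ▸ h)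
      rw [if_pos h2, if_neg h3, if_pos (h1.2 (Or.inl h2))]
      omega
    · by_cases h3 : v = a.2
      · rw [if_neg h2, if_pos h3, if_pos (h1.2 (Or.inr h3))]
        omega
      · rw [if_neg h2, if_neg h3, if_neg (fun h => (h1.1 h).elim h2 h3)]
        omega

theorem alg_nb {V : Type} [DecidableEq V] (Γ : V → V → Prop) (hsym : ∀ x y, Γ x y → Γ y x)
    (hirr : ∀ x, ¬ Γ x x) (S Q : Set V) (hK4 : K4Prop Γ S Q)
    (w : Multiset (Sym2 V))
    (hw : ∀ e ∈ w, ∃ x y, e = s(x, y) ∧ x ∈ S ∧ x ∈ Q ∧ y ∈ S ∧ y ∈ Q ∧ Γ x y)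
    (heven : ∀ v, Even (w.countP (fun e => v ∈ e))) (h3 : 3 ∣ w.card) :
    Solv Γ Q (100 * w.card) w := by
  rcases Multiset.empty_or_exists_mem w with hw0 | ⟨e0, he0⟩
  · subst hw0
    exact ⟨[], [], by simp, by simp, by simp, by simp [bd]⟩
  obtain ⟨x1, y1, -, hx1, -⟩ := hw e0 he0
  obtain ⟨p, q, hp, hq, hpQ, hqQ, hpq, -, -⟩ := hK4 x1 hx1 x1 hx1 x1 hx1 x1 hx1
  obtain ⟨h6, -, α, hα1, hα2⟩ :=
    alpha_exists hsym hirr S hK4 p q p hp hpQ hq hqQ hpq hp hpQ
  -- ordered pairs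
  have hch : ∀ e : Sym2 V, ∃ a : V × V, e ∈ w → (e = s(a.1, a.2) ∧ a.1 ∈ S ∧ a.1 ∈ Q ∧ a.2 ∈ S ∧
      a.2 ∈ Q ∧ Γ a.1 a.2) := by
    intro e
    by_cases he : e ∈ w
    · obtain ⟨x, y, h⟩ := hw e he
      exact ⟨(x, y), fun _ => h⟩
    · exact ⟨(p, p), fun h => absurd h he⟩
  choose f hf using hch
  set l : Multiset (V × V) := w.map f with hl
  have hlm : ∀ a ∈ l, a.1 ∈ S ∧ a.1 ∈ Q ∧ a.2 ∈ S ∧ a.2 ∈ Q ∧ Γ a.1 a.2 := by
    intro a ha
    rw [hl, Multiset.mem_map] at ha
    obtain ⟨e, he, rfl⟩ := ha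
    exact (hf e he).2
  have hlw : l.map (fun p => s(p.1, p.2)) = w := by
    rw [hl, Multiset.map_map]
    conv_rhs => rw [← Multiset.map_id w]
    apply Multiset.map_congr rfl
    intro e he
    exact ((hf e he).1).symm
  have hlc : l.card = w.card := by rw [hl, Multiset.card_map]
  clear_value l
  have hne : ∀ a ∈ l, a.1 ≠ a.2 := by
    intro a ha heq
    have := (hlm a ha).2.2.2.2
    rw [heq] at this
    exact hirr _ this
  set ends : Multiset V := l.map Prod.fst + l.map Prod.snd with hends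
  have hcnt : ∀ v, Even (ends.count v) := by
    intro v
    rw [hends, algn_count l hne v, hlw]
    exact heven v
  have hec : ends.card = 2 * w.card := by
    rw [hends, Multiset.card_add, Multiset.card_map, Multiset.card_map, hlc]
    ring
  set h : V → ℕ := fun v => ends.count v / 2 with hh
  have hh2 : ∀ v, ends.count v = 2 * h v := by
    intro v
    obtain ⟨r, hr⟩ := hcnt v
    simp only [hh]
    omega
  have hsum : ∑ v ∈ ends.toFinset, h v = w.card := by
    have h1 := Multiset.toFinset_sum_count_eq ends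
    rw [hec, Finset.sum_congr rfl (fun v _ => hh2 v), ← Finset.mul_sum] at h1
    omega
  -- the three contributions
  have g1 : Gen Γ Q (57 * l.card) ((l.map (fun a => e1 a.1 a.2 - α a.1 - α a.2)).sum) := by
    apply Gen.msum
    intro a ha
    obtain ⟨b1, b2, b3, b4, b5⟩ := hlm a ha
    exact hα2 a.1 a.2 b1 b2 b3 b4 b5
  have g2 : Gen Γ Q ((∑ v ∈ ends.toFinset, h v) * 16)
      (∑ v ∈ ends.toFinset, h v • (2 • α v - 4 • e1 p q)) := by
    apply algn_fsum
    intro v hv
    rw [Multiset.mem_toFinset, hends, Multiset.mem_add, Multiset.mem_map, Multiset.mem_map] at hv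
    rcases hv with ⟨a, ha, rfl⟩ | ⟨a, ha, rfl⟩
    · exact hα1 _ (hlm a ha).1 (hlm a ha).2.1
    · exact hα1 _ (hlm a ha).2.2.1 (hlm a ha).2.2.2.1
  obtain ⟨M, hM⟩ := h3
  have g3 : Gen Γ Q (2 * M * 18) ((2 * M) • (6 • e1 p q)) := h6.nsmul (2 * M)
  have key : (fun e => (w.count e : ℤ)) =
      (l.map (fun a => e1 a.1 a.2 - α a.1 - α a.2)).sum +
        (∑ v ∈ ends.toFinset, h v • (2 • α v - 4 • e1 p q)) + (2 * M) • (6 • e1 p q) := by
    have k1 : (fun e => (w.count e : ℤ)) = (l.map (fun a => e1 a.1 a.2)).sum := by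
      rw [← count_eq_sum, hlw]
    have k2 : (l.map (fun a => e1 a.1 a.2 - α a.1 - α a.2)).sum =
        (l.map (fun a => e1 a.1 a.2)).sum - (ends.map α).sum := by
      rw [hends, Multiset.map_add, Multiset.sum_add, Multiset.map_map, Multiset.map_map,
        ← Multiset.sum_map_add, ← Multiset.sum_map_sub]
      congr 1
      apply Multiset.map_congr rfl
      intro a _
      simp only [Function.comp]
      abel
    have k3 : (ends.map α).sum = ∑ v ∈ ends.toFinset, h v • (2 • α v) := by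
      rw [Finset.sum_multiset_map_count]
      apply Finset.sum_congr rfl
      intro v _
      rw [hh2, mul_comm, mul_smul]
    have k4 : ∑ v ∈ ends.toFinset, h v • (2 • α v - 4 • e1 p q) =
        (∑ v ∈ ends.toFinset, h v • (2 • α v)) - (2 * M) • (6 • e1 p q) := by
      simp_rw [smul_sub]
      rw [Finset.sum_sub_distrib, ← Finset.sum_smul, hsum, hM]
      congr 1
      rw [smul_smul, smul_smul]
      congr 1
      ring
    rw [k1, k2, k3, k4]
    abel
  apply solv_of_gen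
  rw [key]
  refine ((g1.add g2).add g3).mono ?_
  rw [hsum, hlc]
  omega

end H15C6
end S_ALGN

section S_ALGE
/-!
Module ALGE.  The algebra for the exceptional pattern with four classes (`cl = 0,1,2,3` are the classes
`V1,V2,V3,V4`).  `Γ` joins all pairs of distinct vertices except those of types `{0,3}` and `{1,2}`.

`K4Prop` holds for `S1 := {x ∈ S : cl x ≠ 3}` (witnesses `z,w` in class 0) and for
`S4 := {x ∈ S : cl x ≠ 0}` (witnesses in class 3).  Take `p, q, c` all in class 1 (in `S ∩ Q`): `alpha_exists`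
gives `α1` on `S1` and `α4` on `S4`, with the *same* reference edge `pq`.  Every `Γ`-edge lies inside `S1` or
inside `S4`.  For `x` in class 1 or 2 put `δ x := α1 x - α4 x`; `2 δ x` is `Gen 32`; for distinct `x, z` of
the same class (1 or 2) `δ x + δ z` is `Gen 114` (both `≡ e(xz)`), hence `δ x - δ x0` is `Gen 146` for a
fixed `x0` of that class (in `S ∩ Q`).
Let `α := α1` on classes 0,1,2 and `α4` on class 3.  For a `Γ`-edge `xz` not of type `{1,3}`, `{2,3}`:
`e(xz) ≡ α x + α z` (`Gen 57`).  For `x` in class 1 or 2 and `z` in class 3: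
`e(xz) ≡ α4 x + α4 z = α x + α z - δ x`.  Hence the indicator of `w` is, up to `O(card w)` triangles,
`∑_{ends} α - n13 δ(x1) - n23 δ(x2)`, where `nij` is the number of edges of `w` of type `{i,j}`.  The first sum is
treated as in `alg_nb`.  Degree parity: summing even degrees over class 0: `n01 + n02` even (type
`{0,3}` does not occur); over class 1: `n01 + n13` even; over class 3: `n13 + n23` even.
As `n01` is even (`hpar`), `n13` and `n23` are even, and `n13 δ(x1) = (n13/2) (2 δ(x1))` is `Gen (32 n13)`.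
Note: `(w.map (Sym2.map cl)).count s(0,1)` is `n01`.
-/

open Finset

namespace H15C6

/-- pairs of classes without common neighbours -/
def BadPair (a b : Fin 4) : Prop :=
  (a = 0 ∧ b = 3) ∨ (a = 3 ∧ b = 0) ∨ (a = 1 ∧ b = 2) ∨ (a = 2 ∧ b = 1)

instance (a b : Fin 4) : Decidable (BadPair a b) := by unfold BadPair; infer_instance

theorem alge_half {V : Type} [DecidableEq V] (M : Multiset V) (h : ∀ v, Even (M.count v)) :
    ∃ H : Multiset V, M = H + H := by
  refine ⟨∑ v ∈ M.toFinset, (M.count v / 2) • {v}, ?_⟩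
  have h1 := Multiset.toFinset_sum_count_nsmul_eq M
  rw [← Finset.sum_add_distrib]
  conv_lhs => rw [← h1]
  refine Finset.sum_congr rfl fun v _ => ?_
  rw [← add_nsmul]
  obtain ⟨k, hk⟩ := h v
  congr 1
  omega

theorem alge_sum_pair {V A : Type} [AddCommMonoid A] (l : Multiset (V × V)) (f : V → A) :
    ((l.map Prod.fst + l.map Prod.snd).map f).sum = (l.map (fun p => f p.1 + f p.2)).sum := by
  rw [Multiset.map_add, Multiset.sum_add, Multiset.map_map, Multiset.map_map,
    Multiset.sum_map_add]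
  rfl

theorem alge_countP {V : Type} [DecidableEq V] (l : Multiset (V × V)) (v : V)
    (hl : ∀ p ∈ l, p.1 ≠ p.2) :
    (l.map Prod.fst + l.map Prod.snd).count v =
      (l.map (fun p => s(p.1, p.2))).countP (fun e => v ∈ e) := by
  induction l using Multiset.induction_on with
  | empty => simp
  | cons p l ih =>
    have h1 := ih (fun p hp => hl p (Multiset.mem_cons_of_mem hp))
    have h2 := hl p (Multiset.mem_cons_self p l)
    rw [Multiset.map_cons, Multiset.map_cons, Multiset.map_cons, Multiset.countP_cons, ← h1]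
    rw [Multiset.count_add, Multiset.count_add, Multiset.count_cons, Multiset.count_cons]
    have h3 : (if v ∈ s(p.1, p.2) then 1 else 0) =
        (if v = p.1 then 1 else 0) + (if v = p.2 then 1 else 0) := by
      by_cases ha : v = p.1
      · have hb : v ≠ p.2 := fun h => h2 (ha.symm.trans h)
        rw [if_pos ha, if_neg hb, if_pos (Sym2.mem_iff.2 (Or.inl ha))]
      · by_cases hb : v = p.2
        · rw [if_neg ha, if_pos hb, if_pos (Sym2.mem_iff.2 (Or.inr hb))]
        · rw [if_neg ha, if_neg hb, if_neg]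
          rw [Sym2.mem_iff]
          tauto
    rw [h3]
    omega

theorem alge_count {β γ : Type} [DecidableEq γ] (l : Multiset β) (f : β → γ) (a : γ) :
    (l.map f).count a = (l.map (fun b => if f b = a then 1 else 0)).sum := by
  induction l using Multiset.induction_on with
  | empty => simp
  | cons p l ih =>
    rw [Multiset.map_cons, Multiset.count_cons, ih, Multiset.map_cons, Multiset.sum_cons,
      add_comm]
    congr 1
    by_cases h : f p = a
    · rw [if_pos h, if_pos h.symm]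
    · rw [if_neg h, if_neg (fun h' => h h'.symm)]

theorem alge_even {β : Type} (l : Multiset β) (g : β → ℕ) (h : ∀ b ∈ l, Even (g b)) :
    Even (l.map g).sum := by
  induction l using Multiset.induction_on with
  | empty => simp
  | cons p l ih =>
    rw [Multiset.map_cons, Multiset.sum_cons]
    exact (h p (Multiset.mem_cons_self p l)).add
      (ih fun b hb => h b (Multiset.mem_cons_of_mem hb))

theorem alge_le {β : Type} (l : Multiset β) (g : β → ℕ) (h : ∀ b ∈ l, g b ≤ 1) :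
    (l.map g).sum ≤ l.card := by
  induction l using Multiset.induction_on with
  | empty => simp
  | cons p l ih =>
    rw [Multiset.map_cons, Multiset.sum_cons, Multiset.card_cons]
    have h1 := h p (Multiset.mem_cons_self p l)
    have h2 := ih fun b hb => h b (Multiset.mem_cons_of_mem hb)
    omega

theorem alge_nsmul {β A : Type} [AddCommMonoid A] (l : Multiset β) (g : β → ℕ) (y : A) :
    (l.map (fun r => g r • y)).sum = (l.map g).sum • y := by
  induction l using Multiset.induction_on with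
  | empty => simp
  | cons r l ih =>
    rw [Multiset.map_cons, Multiset.sum_cons, ih, Multiset.map_cons, Multiset.sum_cons, add_nsmul]

theorem alge_par1 : ∀ a b : Fin 4, ¬ BadPair a b →
    Even ((if a = 1 then 1 else 0) + (if b = 1 then 1 else 0) +
      ((if s(a, b) = s((0 : Fin 4), 1) then 1 else 0) +
        (if s(a, b) = s((1 : Fin 4), 3) then 1 else 0)) : ℕ) := by
  decide

theorem alge_par3 : ∀ a b : Fin 4, ¬ BadPair a b →
    Even ((if a = 3 then 1 else 0) + (if b = 3 then 1 else 0) +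
      ((if s(a, b) = s((1 : Fin 4), 3) then 1 else 0) +
        (if s(a, b) = s((2 : Fin 4), 3) then 1 else 0)) : ℕ) := by
  decide

theorem alge_K4 {V : Type} [DecidableEq V] {Γ : V → V → Prop} {cl : V → Fin 4} {S Q : Set V}
    (hΓ' : ∀ x y, x ∈ S → y ∈ S → x ≠ y → ¬ BadPair (cl x) (cl y) → Γ x y)
    (hmany : ∀ i : Fin 4, ∀ F : Finset V, F.card ≤ 8 → ∃ z ∈ S, z ∈ Q ∧ cl z = i ∧ z ∉ F)
    (i : Fin 4) (P : Fin 4 → Prop) (hPi : P i) (hP : ∀ a, P a → ¬ BadPair i a) :
    K4Prop Γ {x | x ∈ S ∧ P (cl x)} Q := by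
  intro x1 h1 x2 h2 x3 h3 x4 h4
  obtain ⟨z, hzS, hzQ, hzc, hzF⟩ := hmany i {x1, x2, x3, x4}
    (Finset.card_le_four.trans (by norm_num))
  obtain ⟨w, hwS, hwQ, hwc, hwF⟩ := hmany i (insert z {x1, x2, x3, x4}) (by
    have h5 := Finset.card_insert_le z {x1, x2, x3, x4}
    have h6 : ({x1, x2, x3, x4} : Finset V).card ≤ 4 := Finset.card_le_four
    omega)
  simp only [Finset.mem_insert, Finset.mem_singleton, not_or] at hzF hwF
  obtain ⟨hz1, hz2, hz3, hz4⟩ := hzF
  obtain ⟨hwz, hw1, hw2, hw3, hw4⟩ := hwF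
  have hz : ∀ x, x ∈ S → P (cl x) → z ≠ x → Γ z x := fun x hx hPx hne =>
    hΓ' z x hzS hx hne (by rw [hzc]; exact hP _ hPx)
  have hw : ∀ x, x ∈ S → P (cl x) → w ≠ x → Γ w x := fun x hx hPx hne =>
    hΓ' w x hwS hx hne (by rw [hwc]; exact hP _ hPx)
  refine ⟨z, w, ⟨hzS, by rw [hzc]; exact hPi⟩, ⟨hwS, by rw [hwc]; exact hPi⟩, hzQ, hwQ,
    hz w hwS (by rw [hwc]; exact hPi) (fun h => hwz h.symm), ⟨?_, ?_, ?_, ?_⟩, ?_, ?_, ?_, ?_⟩
  · exact hz x1 h1.1 h1.2 hz1
  · exact hz x2 h2.1 h2.2 hz2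
  · exact hz x3 h3.1 h3.2 hz3
  · exact hz x4 h4.1 h4.2 hz4
  · exact hw x1 h1.1 h1.2 hw1
  · exact hw x2 h2.1 h2.2 hw2
  · exact hw x3 h3.1 h3.2 hw3
  · exact hw x4 h4.1 h4.2 hw4

theorem alg_e3 {V : Type} [DecidableEq V] (Γ : V → V → Prop) (hsym : ∀ x y, Γ x y → Γ y x)
    (hirr : ∀ x, ¬ Γ x x) (cl : V → Fin 4) (S Q : Set V)
    (hΓ : ∀ x y, x ∈ S → y ∈ S → Γ x y → ¬ BadPair (cl x) (cl y))
    (hΓ' : ∀ x y, x ∈ S → y ∈ S → x ≠ y → ¬ BadPair (cl x) (cl y) → Γ x y)
    (hmany : ∀ i : Fin 4, ∀ F : Finset V, F.card ≤ 8 → ∃ z ∈ S, z ∈ Q ∧ cl z = i ∧ z ∉ F)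
    (w : Multiset (Sym2 V))
    (hw : ∀ e ∈ w, ∃ x y, e = s(x, y) ∧ x ∈ S ∧ x ∈ Q ∧ y ∈ S ∧ y ∈ Q ∧ Γ x y)
    (heven : ∀ v, Even (w.countP (fun e => v ∈ e))) (h3 : 3 ∣ w.card)
    (hpar : Even ((w.map (Sym2.map cl)).count s(0, 1))) :
    Solv Γ Q (1000 * w.card) w := by
  obtain ⟨p, hpS, hpQ, hp1, -⟩ := hmany 1 ∅ (by simp)
  obtain ⟨q, hqS, hqQ, hq1, hqp⟩ := hmany 1 {p} (by simp)
  obtain ⟨x2, hx2S, hx2Q, hx2c, -⟩ := hmany 2 ∅ (by simp)
  have hpq : Γ p q := hΓ' p q hpS hqS (by rintro rfl; simp at hqp) (by rw [hp1, hq1]; decide)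
  have hK1 := alge_K4 hΓ' hmany 0 (fun a => a ≠ 3) (by decide) (by decide)
  have hK4 := alge_K4 hΓ' hmany 3 (fun a => a ≠ 0) (by decide) (by decide)
  obtain ⟨h6, -, α1, hα1, hα1'⟩ := alpha_exists hsym hirr _ hK1 p q p ⟨hpS, by rw [hp1]; decide⟩
    hpQ ⟨hqS, by rw [hq1]; decide⟩ hqQ hpq ⟨hpS, by rw [hp1]; decide⟩ hpQ
  obtain ⟨-, -, α4, hα4, hα4'⟩ := alpha_exists hsym hirr _ hK4 p q p ⟨hpS, by rw [hp1]; decide⟩
    hpQ ⟨hqS, by rw [hq1]; decide⟩ hqQ hpq ⟨hpS, by rw [hp1]; decide⟩ hpQ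
  -- the difference
  have hd2 : ∀ x, x ∈ S → x ∈ Q → cl x ≠ 0 → cl x ≠ 3 → Gen Γ Q 32 (2 • (α1 x - α4 x)) := by
    intro x hxS hxQ hx0 hx3
    have h := (hα1 x ⟨hxS, hx3⟩ hxQ).sub (hα4 x ⟨hxS, hx0⟩ hxQ)
    have he : (2 • α1 x - 4 • e1 p q) - (2 • α4 x - 4 • e1 p q) = 2 • (α1 x - α4 x) := by abel
    rwa [he] at h
  have hdd : ∀ x z, x ∈ S → x ∈ Q → z ∈ S → z ∈ Q → cl x ≠ 0 → cl x ≠ 3 → cl z = cl x →
      Gen Γ Q 146 ((α1 x - α4 x) - (α1 z - α4 z)) := by
    intro x z hxS hxQ hzS hzQ hx0 hx3 hzx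
    by_cases hne : x = z
    · rw [hne, sub_self]
      exact Gen.zero.mono (by norm_num)
    · have hg : Γ x z := hΓ' x z hxS hzS hne (by
        rw [hzx]
        generalize cl x = i at hx0 hx3
        revert i
        decide)
      have h1 := hα1' x z ⟨hxS, hx3⟩ hxQ ⟨hzS, by rw [hzx]; exact hx3⟩ hzQ hg
      have h2 := hα4' x z ⟨hxS, hx0⟩ hxQ ⟨hzS, by rw [hzx]; exact hx0⟩ hzQ hg
      have h4 := (h2.sub h1).sub (hd2 z hzS hzQ (by rw [hzx]; exact hx0) (by rw [hzx]; exact hx3))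
      have he : (e1 x z - α4 x - α4 z - (e1 x z - α1 x - α1 z)) - 2 • (α1 z - α4 z) =
          (α1 x - α4 x) - (α1 z - α4 z) := by abel
      rw [he] at h4
      exact h4.mono (by norm_num)
  -- the combined function
  obtain ⟨α, hαdef⟩ : ∃ α : V → Sym2 V → ℤ, ∀ x, α x = if cl x = 3 then α4 x else α1 x :=
    ⟨_, fun _ => rfl⟩
  have hαa : ∀ x, cl x ≠ 3 → α x = α1 x := fun x hx => by rw [hαdef, if_neg hx]
  have hαb : ∀ x, cl x = 3 → α x = α4 x := fun x hx => by rw [hαdef, if_pos hx]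
  have hα2 : ∀ x, x ∈ S → x ∈ Q → Gen Γ Q 16 (2 • α x - 4 • e1 p q) := by
    intro x hxS hxQ
    by_cases hx : cl x = 3
    · rw [hαb x hx]
      exact hα4 x ⟨hxS, by rw [hx]; decide⟩ hxQ
    · rw [hαa x hx]
      exact hα1 x ⟨hxS, hx⟩ hxQ
  -- one orientation
  have hone : ∀ x z, x ∈ S → x ∈ Q → z ∈ S → z ∈ Q → Γ x z → cl z = 3 → cl x ≠ 3 →
      Gen Γ Q 203 (e1 x z - (α x + α z) +
        (if s(cl x, cl z) = s((1 : Fin 4), 3) then 1 else 0) • (α1 p - α4 p) +
        (if s(cl x, cl z) = s((2 : Fin 4), 3) then 1 else 0) • (α1 x2 - α4 x2)) := by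
    intro x z hxS hxQ hzS hzQ hg hz3 hx3
    have hx0 : cl x ≠ 0 := by
      intro h0
      apply hΓ x z hxS hzS hg
      rw [h0, hz3]
      decide
    have h1 := hα4' x z ⟨hxS, hx0⟩ hxQ ⟨hzS, by rw [hz3]; decide⟩ hzQ hg
    have hx12 : cl x = 1 ∨ cl x = 2 := by
      generalize cl x = i at hx0 hx3
      revert i
      decide
    rw [hαa x hx3, hαb z hz3, hz3]
    rcases hx12 with hx1 | hx1
    · have h2 := h1.sub (hdd x p hxS hxQ hpS hpQ hx0 hx3 (by rw [hx1, hp1]))
      have he : e1 x z - α4 x - α4 z - (α1 x - α4 x - (α1 p - α4 p)) =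
        e1 x z - (α1 x + α4 z) +
        (if s(cl x, 3) = s((1 : Fin 4), 3) then 1 else 0) • (α1 p - α4 p) +
        (if s(cl x, 3) = s((2 : Fin 4), 3) then 1 else 0) • (α1 x2 - α4 x2) := by
        rw [hx1, if_pos rfl, if_neg (by decide), one_nsmul, zero_nsmul]
        abel
      rw [he] at h2
      exact h2
    · have h2 := h1.sub (hdd x x2 hxS hxQ hx2S hx2Q hx0 hx3 (by rw [hx1, hx2c]))
      have he : e1 x z - α4 x - α4 z - (α1 x - α4 x - (α1 x2 - α4 x2)) =
        e1 x z - (α1 x + α4 z) +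
        (if s(cl x, 3) = s((1 : Fin 4), 3) then 1 else 0) • (α1 p - α4 p) +
        (if s(cl x, 3) = s((2 : Fin 4), 3) then 1 else 0) • (α1 x2 - α4 x2) := by
        rw [hx1, if_pos rfl, if_neg (by decide), one_nsmul, zero_nsmul]
        abel
      rw [he] at h2
      exact h2
  have hall : ∀ x z, x ∈ S → x ∈ Q → z ∈ S → z ∈ Q → Γ x z →
      Gen Γ Q 203 (e1 x z - (α x + α z) +
        (if s(cl x, cl z) = s((1 : Fin 4), 3) then 1 else 0) • (α1 p - α4 p) +
        (if s(cl x, cl z) = s((2 : Fin 4), 3) then 1 else 0) • (α1 x2 - α4 x2)) := by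
    intro x z hxS hxQ hzS hzQ hg
    by_cases hx : cl x = 3
    · by_cases hz : cl z = 3
      · have h1 := hα4' x z ⟨hxS, by rw [hx]; decide⟩ hxQ ⟨hzS, by rw [hz]; decide⟩ hzQ hg
        rw [hαb x hx, hαb z hz, hx, hz, if_neg (by decide), if_neg (by decide), zero_nsmul,
          zero_nsmul, add_zero, add_zero]
        rw [sub_sub] at h1
        exact h1.mono (by norm_num)
      · have h1 := hone z x hzS hzQ hxS hxQ (hsym x z hg) hx hz
        rw [e1_comm x z, add_comm (α x), Sym2.eq_swap (a := cl x)]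
        exact h1
    · by_cases hz : cl z = 3
      · exact hone x z hxS hxQ hzS hzQ hg hz hx
      · have h1 := hα1' x z ⟨hxS, hx⟩ hxQ ⟨hzS, hz⟩ hzQ hg
        have h2 : s(cl x, cl z) ≠ s((1 : Fin 4), 3) := by
          generalize cl x = i at hx
          generalize cl z = j at hz
          revert i j
          decide
        have h4 : s(cl x, cl z) ≠ s((2 : Fin 4), 3) := by
          generalize cl x = i at hx
          generalize cl z = j at hz
          revert i j
          decide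
        rw [hαa x hx, hαa z hz, if_neg h2, if_neg h4, zero_nsmul,
          zero_nsmul, add_zero, add_zero]
        rw [sub_sub] at h1
        exact h1.mono (by norm_num)
  -- ordered pairs
  obtain ⟨l, hl⟩ : ∃ l : Multiset (V × V), l.map (fun p => s(p.1, p.2)) = w := by
    have h1 : ∀ e : Sym2 V, ∃ p : V × V, s(p.1, p.2) = e := by
      intro e
      induction e using Sym2.ind with
      | _ a b => exact ⟨(a, b), rfl⟩
    choose g hg using h1
    refine ⟨w.map g, ?_⟩
    rw [Multiset.map_map]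
    conv_rhs => rw [← Multiset.map_id w]
    exact Multiset.map_congr rfl fun e _ => hg e
  have hlw : ∀ r ∈ l, r.1 ∈ S ∧ r.1 ∈ Q ∧ r.2 ∈ S ∧ r.2 ∈ Q ∧ Γ r.1 r.2 := by
    intro r hr
    obtain ⟨x, y, hxy, hxS, hxQ, hyS, hyQ, hg⟩ := hw s(r.1, r.2) (by
      rw [← hl]
      exact Multiset.mem_map_of_mem _ hr)
    rw [Sym2.eq_iff] at hxy
    rcases hxy with ⟨h1, h2⟩ | ⟨h1, h2⟩
    · rw [h1, h2]
      exact ⟨hxS, hxQ, hyS, hyQ, hg⟩
    · rw [h1, h2]
      exact ⟨hyS, hyQ, hxS, hxQ, hsym _ _ hg⟩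
  have hcard : w.card = l.card := by rw [← hl, Multiset.card_map]
  have hbad : ∀ r ∈ l, ¬ BadPair (cl r.1) (cl r.2) := fun r hr =>
    hΓ _ _ (hlw r hr).1 (hlw r hr).2.2.1 (hlw r hr).2.2.2.2
  obtain ⟨H, hH⟩ := alge_half (l.map Prod.fst + l.map Prod.snd) (by
    intro v
    rw [alge_countP l v, hl]
    · exact heven v
    · intro r hr h
      have := (hlw r hr).2.2.2.2
      rw [h] at this
      exact hirr _ this)
  have hHcard : H.card = l.card := by
    have h1 := congrArg Multiset.card hH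
    rw [Multiset.card_add, Multiset.card_add, Multiset.card_map, Multiset.card_map] at h1
    omega
  have hHmem : ∀ v ∈ H, v ∈ S ∧ v ∈ Q := by
    intro v hv
    have h1 : v ∈ l.map Prod.fst + l.map Prod.snd := by
      rw [hH]
      exact Multiset.mem_add.2 (Or.inl hv)
    rw [Multiset.mem_add, Multiset.mem_map, Multiset.mem_map] at h1
    rcases h1 with ⟨r, hr, rfl⟩ | ⟨r, hr, rfl⟩
    · exact ⟨(hlw r hr).1, (hlw r hr).2.1⟩
    · exact ⟨(hlw r hr).2.2.1, (hlw r hr).2.2.2.1⟩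
  -- sums over pairs
  have hsumf : ∀ f : V → ℕ, Even (l.map (fun r => f r.1 + f r.2)).sum := by
    intro f
    rw [← alge_sum_pair, hH, Multiset.map_add, Multiset.sum_add]
    exact ⟨_, rfl⟩
  -- the numbers of edges
  have h01 : Even (l.map (fun r => if s(cl r.1, cl r.2) = s((0 : Fin 4), 1) then 1 else 0)).sum := by
    rw [← hl, Multiset.map_map] at hpar
    have h1 := alge_count l (Sym2.map cl ∘ fun p => s(p.1, p.2)) s((0 : Fin 4), 1)
    rw [h1] at hpar
    exact hpar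
  have h13 : Even (l.map (fun r => if s(cl r.1, cl r.2) = s((1 : Fin 4), 3) then 1 else 0)).sum := by
    have h1 := alge_even l (fun r => (if cl r.1 = 1 then 1 else 0) + (if cl r.2 = 1 then 1 else 0) +
      ((if s(cl r.1, cl r.2) = s((0 : Fin 4), 1) then 1 else 0) +
        (if s(cl r.1, cl r.2) = s((1 : Fin 4), 3) then 1 else 0)))
      (fun r hr => alge_par1 _ _ (hbad r hr))
    rw [Multiset.sum_map_add, Multiset.sum_map_add (f := fun r : V × V =>
      (if s(cl r.1, cl r.2) = s((0 : Fin 4), 1) then 1 else 0))] at h1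
    have h2 := hsumf (fun v => if cl v = 1 then 1 else 0)
    exact (Nat.even_add.1 ((Nat.even_add.1 h1).1 h2)).1 h01
  have h23 : Even (l.map (fun r => if s(cl r.1, cl r.2) = s((2 : Fin 4), 3) then 1 else 0)).sum := by
    have h1 := alge_even l (fun r => (if cl r.1 = 3 then 1 else 0) + (if cl r.2 = 3 then 1 else 0) +
      ((if s(cl r.1, cl r.2) = s((1 : Fin 4), 3) then 1 else 0) +
        (if s(cl r.1, cl r.2) = s((2 : Fin 4), 3) then 1 else 0)))
      (fun r hr => alge_par3 _ _ (hbad r hr))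
    rw [Multiset.sum_map_add, Multiset.sum_map_add (f := fun r : V × V =>
      (if s(cl r.1, cl r.2) = s((1 : Fin 4), 3) then 1 else 0))] at h1
    have h2 := hsumf (fun v => if cl v = 3 then 1 else 0)
    exact (Nat.even_add.1 ((Nat.even_add.1 h1).1 h2)).1 h13
  have hl13 := alge_le l (fun r => if s(cl r.1, cl r.2) = s((1 : Fin 4), 3) then 1 else 0)
    (fun r _ => by split_ifs <;> norm_num)
  have hl23 := alge_le l (fun r => if s(cl r.1, cl r.2) = s((2 : Fin 4), 3) then 1 else 0)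
    (fun r _ => by split_ifs <;> norm_num)
  obtain ⟨a, ha⟩ := h13
  obtain ⟨b, hb⟩ := h23
  rw [ha] at hl13
  rw [hb] at hl23
  -- the final computation
  have hA := Gen.msum l (fun r => e1 r.1 r.2 - (α r.1 + α r.2) +
        (if s(cl r.1, cl r.2) = s((1 : Fin 4), 3) then 1 else 0) • (α1 p - α4 p) +
        (if s(cl r.1, cl r.2) = s((2 : Fin 4), 3) then 1 else 0) • (α1 x2 - α4 x2)) 203
    (fun r hr => hall r.1 r.2 (hlw r hr).1 (hlw r hr).2.1 (hlw r hr).2.2.1 (hlw r hr).2.2.2.1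
      (hlw r hr).2.2.2.2)
  have hB := Gen.msum H (fun v => 2 • α v - 4 • e1 p q) 16
    (fun v hv => hα2 v (hHmem v hv).1 (hHmem v hv).2)
  obtain ⟨k, hk⟩ := h3
  have hC := Gen.nsmul (2 * k) h6
  have hD := Gen.nsmul a (hd2 p hpS hpQ (by rw [hp1]; decide) (by rw [hp1]; decide))
  have hE := Gen.nsmul b (hd2 x2 hx2S hx2Q (by rw [hx2c]; decide) (by rw [hx2c]; decide))
  have hfin := (((hA.add hB).add hC).sub hD).sub hE
  apply solv_of_gen
  have hsum : (fun e => (w.count e : ℤ)) = (l.map (fun r => e1 r.1 r.2)).sum := by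
    rw [← hl]
    exact count_eq_sum l
  have hAs : (l.map (fun r => e1 r.1 r.2 - (α r.1 + α r.2) +
        (if s(cl r.1, cl r.2) = s((1 : Fin 4), 3) then 1 else 0) • (α1 p - α4 p) +
        (if s(cl r.1, cl r.2) = s((2 : Fin 4), 3) then 1 else 0) • (α1 x2 - α4 x2))).sum =
      (l.map (fun r => e1 r.1 r.2)).sum - (H.map (fun v => 2 • α v)).sum +
        (a + a) • (α1 p - α4 p) + (b + b) • (α1 x2 - α4 x2) := by
    rw [Multiset.sum_map_add, Multiset.sum_map_add, Multiset.sum_map_sub, ← ha, ← hb,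
      ← alge_sum_pair, hH, Multiset.map_add, Multiset.sum_add]
    rw [alge_nsmul, alge_nsmul]
    congr 2
    rw [← Multiset.sum_map_add]
    congr 2
    refine Multiset.map_congr rfl fun v _ => ?_
    rw [two_nsmul]
  have hBs : (H.map (fun v => 2 • α v - 4 • e1 p q)).sum =
      (H.map (fun v => 2 • α v)).sum - (4 * (3 * k)) • e1 p q := by
    rw [Multiset.sum_map_sub, Multiset.map_const', Multiset.sum_replicate, hHcard, ← hcard, hk,
      ← mul_nsmul']
    ring_nf
  rw [hAs, hBs] at hfin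
  have hfe : (l.map (fun r => e1 r.1 r.2)).sum - (H.map (fun v => 2 • α v)).sum +
        (a + a) • (α1 p - α4 p) + (b + b) • (α1 x2 - α4 x2) +
      ((H.map (fun v => 2 • α v)).sum - (4 * (3 * k)) • e1 p q) +
      (2 * k) • (6 • e1 p q) - a • (2 • (α1 p - α4 p)) - b • (2 • (α1 x2 - α4 x2)) =
      (fun e => (w.count e : ℤ)) := by
    rw [hsum]
    simp only [← mul_nsmul', add_nsmul]
    have h1 : 4 * (3 * k) = 2 * k * 6 := by ring
    rw [h1, show a * 2 = a + a by ring, show b * 2 = b + b by ring, add_nsmul, add_nsmul]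
    abel
  rw [hfe] at hfin
  refine hfin.mono ?_
  rw [hHcard]
  omega

end H15C6
end S_ALGE
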