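import Pool.Agent.H15.C6F.FA
import Pool.Agent.H15.C6F.FC
import Pool.Agent.H15.C6F.FD
import Pool.Agent.H15.C6F.FE

section S_HUB
/-!
Module HUB.  For an even graph `H` with an even number of edges inside a small set `X`, and a hub
`w0`, there is a decomposable set `N` of new edges such that `H ∪ N` can be partitioned into cherries.

Proof.  Choose any centre function `ctr` for `H` (`assign` with `X = B = univ`, or by choice) and take
`J0, M` from `cherry_pairing`: `M` has at most one edge `m_x` for every centre `x`; let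
`O := {x : some edge of M has centre x} ⊆ X`.  `|M| = |O| ≡ |H| ≡ 0 (mod 2)`.
For every `x ∈ O`, `x ≠ w0`, choose six... four private vertices: `q, q'` with `s(x,q) ∈ E`,
`Gam q w0` (at least `ζ|U|` candidates; use `pick` with index set `(O \ {w0}) × Fin 2`, avoiding
`Z ∪ X ∪ {w0}`), and then `p, p'` common neighbours of `w0` and `q` (resp. `q'`), again by `pick`, avoiding also
the `q`'s.  `c_x = w0 p q x q' p'` is a six-cycle; `N := ⋃ c_x` (edge-disjoint: every edge has a private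
end, or is `w0 p`).  Cherries of `H ∪ N`: those of `J0`; for `x ∈ O \ {w0}` with `m_x = s(y,x)`:
`(y,x,q)`, `(q,p,w0)`, `(x,q',p')`; and there remain the edges `s(p'_x, w0)`, `x ∈ O \ {w0}`, and `m_{w0}` if
`w0 ∈ O`: an even number of edges at `w0`, paired arbitrarily (apply `cherry_pairing` with constant
centre `w0`).
-/

open Finset

namespace H15C6

/-- an edge set with a centre function all of whose fibres are even is a union of cherries -/
theorem hub_even {V : Type} [Fintype V] [DecidableEq V] (F : Finset (Sym2 V)) (hF : Loopless F)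
    (ctr : Sym2 V → V) (hctr : ∀ e ∈ F, ctr e ∈ e)
    (hev : ∀ v, Even (F.filter (fun e => ctr e = v)).card) : ∃ J, CherryPart F J := by
  obtain ⟨J, M, hMF, hJ1, hJ2, hJ3, -, -, hM⟩ := cherry_pairing F hF ctr hctr
  have hM0 : M = ∅ := by
    rw [Finset.eq_empty_iff_forall_notMem]
    intro e he
    have h1 := (hM (ctr e)).1 ⟨e, he, rfl⟩
    exact (Nat.not_even_iff_odd.2 h1) (hev (ctr e))
  subst hM0
  rw [Finset.sdiff_empty] at hJ3
  refine ⟨J, ?_, hJ2, hJ3⟩
  intro t ht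
  obtain ⟨h1, h2, h3, -, -⟩ := hJ1 t ht
  rw [Finset.sdiff_empty] at h2 h3
  exact ⟨hF.ne h2, hF.ne h3, h1⟩

theorem hub_union {V : Type} [DecidableEq V] {F F' : Finset (Sym2 V)}
    {J J' : Finset (V × V × V)} (h : CherryPart F J) (h' : CherryPart F' J')
    (hd : Disjoint F F') : CherryPart (F ∪ F') (J ∪ J') := by
  have hsub : ∀ t ∈ J, chE t ⊆ F := fun t ht => h.2.2 ▸ Finset.subset_biUnion_of_mem chE ht
  have hsub' : ∀ t ∈ J', chE t ⊆ F' := fun t ht => h'.2.2 ▸ Finset.subset_biUnion_of_mem chE ht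
  refine ⟨?_, ?_, ?_⟩
  · intro t ht
    rcases Finset.mem_union.1 ht with ht | ht
    · exact h.1 t ht
    · exact h'.1 t ht
  · intro t ht t' ht' hne
    rcases Finset.mem_union.1 ht with ht | ht <;> rcases Finset.mem_union.1 ht' with ht' | ht'
    · exact h.2.1 t ht t' ht' hne
    · exact Finset.disjoint_of_subset_left (hsub t ht)
        (Finset.disjoint_of_subset_right (hsub' t' ht') hd)
    · exact Finset.disjoint_of_subset_left (hsub' t ht)
        (Finset.disjoint_of_subset_right (hsub t' ht') hd.symm)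
    · exact h'.2.1 t ht t' ht' hne
  · rw [Finset.union_biUnion, h.2.2, h'.2.2]

theorem hub_cyc_mem {V : Type} [DecidableEq V] (v : Fin 6 → V) (e : Sym2 V) :
    e ∈ cyc v ↔ s(v 0, v 1) = e ∨ s(v 1, v 2) = e ∨ s(v 2, v 3) = e ∨ s(v 3, v 4) = e ∨
      s(v 4, v 5) = e ∨ s(v 5, v 0) = e := by
  rw [mem_cyc]
  constructor
  · rintro ⟨i, hi⟩
    fin_cases i
    · left; exact hi
    · right; left; exact hi
    · right; right; left; exact hi
    · right; right; right; left; exact hi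
    · right; right; right; right; left; exact hi
    · right; right; right; right; right; exact hi
  · rintro (h | h | h | h | h | h)
    · exact ⟨0, h⟩
    · exact ⟨1, h⟩
    · exact ⟨2, h⟩
    · exact ⟨3, h⟩
    · exact ⟨4, h⟩
    · exact ⟨5, h⟩

/-- the three edges of the path from the vertex to the hub -/
def hubP {V : Type} [DecidableEq V] (w0 : V) (f g : V × Bool → V) (j : V × Bool) :
    Finset (Sym2 V) := {s(j.1, f j), s(f j, g j), s(g j, w0)}

/-- the cherry taken from this path -/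
def hubT {V : Type} (w0 : V) (f g : V × Bool → V) (j : V × Bool) : V × V × V :=
  if j.2 then (f j, g j, w0) else (j.1, f j, g j)

/-- the remaining edge -/
def hubR {V : Type} (w0 : V) (f g : V × Bool → V) (j : V × Bool) : Sym2 V :=
  if j.2 then s(j.1, f j) else s(g j, w0)

/-- its centre -/
def hubC {V : Type} (w0 : V) (j : V × Bool) : V := if j.2 then j.1 else w0

theorem hubP_eq {V : Type} [DecidableEq V] (w0 : V) (f g : V × Bool → V) (j : V × Bool) :
    hubP w0 f g j = {hubR w0 f g j} ∪ chE (hubT w0 f g j) := by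
  obtain ⟨x, b⟩ := j
  cases b
  · simp only [hubP, hubR, hubT, chE, Bool.false_eq_true, if_false]
    ext e
    simp only [Finset.mem_insert, Finset.mem_singleton, Finset.mem_union]
    tauto
  · simp only [hubP, hubR, hubT, chE, if_true]
    ext e
    simp only [Finset.mem_insert, Finset.mem_singleton, Finset.mem_union]

/-- the data of the construction -/
structure HubD {V : Type} [DecidableEq V] (X : Finset V) (w0 : V) (I : Finset (V × Bool))
    (f g : V × Bool → V) : Prop where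
  mem : ∀ j ∈ I, j.1 ∈ X
  ne : ∀ j ∈ I, j.1 ≠ w0
  fX : ∀ j ∈ I, f j ∉ X
  gX : ∀ j ∈ I, g j ∉ X
  fw : ∀ j ∈ I, f j ≠ w0
  gw : ∀ j ∈ I, g j ≠ w0
  fi : ∀ j ∈ I, ∀ j' ∈ I, f j = f j' → j = j'
  gi : ∀ j ∈ I, ∀ j' ∈ I, g j = g j' → j = j'
  fg : ∀ j ∈ I, ∀ j' ∈ I, g j ≠ f j'

theorem HubD.xf {V : Type} [DecidableEq V] {X : Finset V} {w0 : V} {I : Finset (V × Bool)}
    {f g : V × Bool → V} (h : HubD X w0 I f g) {j j' : V × Bool} (hj : j ∈ I) (hj' : j' ∈ I) :
    j.1 ≠ f j' := fun e => h.fX j' hj' (e ▸ h.mem j hj)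

theorem HubD.xg {V : Type} [DecidableEq V] {X : Finset V} {w0 : V} {I : Finset (V × Bool)}
    {f g : V × Bool → V} (h : HubD X w0 I f g) {j j' : V × Bool} (hj : j ∈ I) (hj' : j' ∈ I) :
    j.1 ≠ g j' := fun e => h.gX j' hj' (e ▸ h.mem j hj)

theorem hub_priv {V : Type} [DecidableEq V] {w0 : V} {f g : V × Bool → V} {j : V × Bool}
    {e : Sym2 V} (he : e ∈ hubP w0 f g j) :
    (f j ∈ e ∨ g j ∈ e) ∧ ∀ v ∈ e, v = j.1 ∨ v = f j ∨ v = g j ∨ v = w0 := by
  simp only [hubP, Finset.mem_insert, Finset.mem_singleton] at he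
  rcases he with rfl | rfl | rfl
  · refine ⟨Or.inl (Sym2.mem_mk_right _ _), fun v hv => ?_⟩
    rw [Sym2.mem_iff] at hv; tauto
  · refine ⟨Or.inl (Sym2.mem_mk_left _ _), fun v hv => ?_⟩
    rw [Sym2.mem_iff] at hv; tauto
  · refine ⟨Or.inr (Sym2.mem_mk_left _ _), fun v hv => ?_⟩
    rw [Sym2.mem_iff] at hv; tauto

theorem hub_disj {V : Type} [DecidableEq V] {X : Finset V} {w0 : V} {I : Finset (V × Bool)}
    {f g : V × Bool → V} (h : HubD X w0 I f g) {j j' : V × Bool} (hj : j ∈ I) (hj' : j' ∈ I)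
    (hne : j ≠ j') : Disjoint (hubP w0 f g j) (hubP w0 f g j') := by
  rw [Finset.disjoint_left]
  intro e he he'
  obtain ⟨h1, -⟩ := hub_priv he
  obtain ⟨-, h2⟩ := hub_priv he'
  rcases h1 with h1 | h1
  · rcases h2 _ h1 with e1 | e1 | e1 | e1
    · exact h.xf hj' hj e1.symm
    · exact hne (h.fi j hj j' hj' e1)
    · exact h.fg j' hj' j hj e1.symm
    · exact h.fw j hj e1
  · rcases h2 _ h1 with e1 | e1 | e1 | e1
    · exact h.xg hj' hj e1.symm
    · exact h.fg j hj j' hj' e1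
    · exact hne (h.gi j hj j' hj' e1)
    · exact h.gw j hj e1

theorem hub_notX {V : Type} [DecidableEq V] {X : Finset V} {w0 : V} {I : Finset (V × Bool)}
    {f g : V × Bool → V} (h : HubD X w0 I f g) {j : V × Bool} (hj : j ∈ I) {e : Sym2 V}
    (he : e ∈ hubP w0 f g j) : e ∉ X.sym2 := by
  intro hX
  rw [Finset.mem_sym2_iff] at hX
  rcases (hub_priv he).1 with h1 | h1
  · exact h.fX j hj (hX _ h1)
  · exact h.gX j hj (hX _ h1)

theorem hub_R_notin {V : Type} [DecidableEq V] {X : Finset V} {w0 : V} {I : Finset (V × Bool)}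
    {f g : V × Bool → V} (h : HubD X w0 I f g) {j : V × Bool} (hj : j ∈ I) :
    hubR w0 f g j ∉ chE (hubT w0 f g j) := by
  have a1 := h.xg hj hj
  have a2 := h.xf hj hj
  have a3 := h.fg j hj j hj
  have a4 := h.fw j hj
  have a5 := h.gw j hj
  have a6 := h.ne j hj
  obtain ⟨x, b⟩ := j
  cases b
  · simp only [hubR, hubT, chE, Bool.false_eq_true, if_false, Finset.mem_insert,
      Finset.mem_singleton, Sym2.eq_iff, not_or, not_and]
    refine ⟨⟨fun e => absurd e a1.symm, fun e => absurd e a3⟩, ⟨fun e => absurd e a3, fun _ e => ?_⟩⟩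
    exact a4 e.symm
  · simp only [hubR, hubT, chE, if_true, Finset.mem_insert,
      Finset.mem_singleton, Sym2.eq_iff, not_or, not_and]
    exact ⟨⟨fun e => absurd e a2, fun e => absurd e a1⟩, ⟨fun e => absurd e a1, fun e => absurd e a6⟩⟩

theorem hub_cyc {V : Type} [DecidableEq V] {X : Finset V} {w0 : V} {I : Finset (V × Bool)}
    {f g : V × Bool → V} (h : HubD X w0 I f g) {x : V} (h1 : (x, true) ∈ I) (h2 : (x, false) ∈ I) :
    IsC6 (hubP w0 f g (x, true) ∪ hubP w0 f g (x, false)) := by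
  have hne : ((x, true) : V × Bool) ≠ (x, false) := by simp
  have a1 := h.xf h1 h1
  have a2 := h.xf h1 h2
  have a3 := h.xg h1 h1
  have a4 := h.xg h1 h2
  have a5 := h.ne _ h1
  have a6 := h.fw _ h1
  have a7 := h.fw _ h2
  have a8 := h.gw _ h1
  have a9 := h.gw _ h2
  have b1 : f (x, true) ≠ f (x, false) := fun e => hne (h.fi _ h1 _ h2 e)
  have b2 : g (x, true) ≠ g (x, false) := fun e => hne (h.gi _ h1 _ h2 e)
  have b3 := h.fg _ h1 _ h1
  have b4 := h.fg _ h1 _ h2
  have b5 := h.fg _ h2 _ h1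
  have b6 := h.fg _ h2 _ h2
  simp only at a1 a2 a3 a4 a5
  refine ⟨![w0, g (x, true), f (x, true), x, f (x, false), g (x, false)], ?_, ?_⟩
  · intro i k hik
    fin_cases i <;> fin_cases k <;> first
      | rfl
      | (exfalso; simp at hik; first
          | exact a1 hik | exact a2 hik | exact a3 hik | exact a4 hik | exact a5 hik
          | exact a6 hik | exact a7 hik | exact a8 hik | exact a9 hik | exact b1 hik
          | exact b2 hik | exact b3 hik | exact b4 hik | exact b5 hik | exact b6 hik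
          | exact a1 hik.symm | exact a2 hik.symm | exact a3 hik.symm | exact a4 hik.symm
          | exact a5 hik.symm | exact a6 hik.symm | exact a7 hik.symm | exact a8 hik.symm
          | exact a9 hik.symm | exact b1 hik.symm | exact b2 hik.symm | exact b3 hik.symm
          | exact b4 hik.symm | exact b5 hik.symm | exact b6 hik.symm)
  · ext e
    rw [hub_cyc_mem]
    simp only [hubP, Finset.mem_union, Finset.mem_insert, Finset.mem_singleton]
    change _ ↔ s(w0, g (x, true)) = e ∨ s(g (x, true), f (x, true)) = e ∨ s(f (x, true), x) = e ∨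
      s(x, f (x, false)) = e ∨ s(f (x, false), g (x, false)) = e ∨ s(g (x, false), w0) = e
    rw [Sym2.eq_swap (a := w0), Sym2.eq_swap (a := g (x, true)) (b := f (x, true)),
      Sym2.eq_swap (a := f (x, true)) (b := x)]
    constructor
    · rintro ((h | h | h) | (h | h | h)) <;> simp [h]
    · rintro (h | h | h | h | h | h) <;> simp [h]

theorem hub_dec {V : Type} [DecidableEq V] {X : Finset V} {w0 : V} {O : Finset V}
    {f g : V × Bool → V} (h : HubD X w0 (O ×ˢ Finset.univ) f g) :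
    Dec ((O ×ˢ (Finset.univ : Finset Bool)).biUnion (hubP w0 f g)) := by
  have e : (O ×ˢ (Finset.univ : Finset Bool)).biUnion (hubP w0 f g) =
      O.biUnion (fun x => hubP w0 f g (x, true) ∪ hubP w0 f g (x, false)) := by
    ext e
    simp only [Finset.mem_biUnion, Finset.mem_product, Finset.mem_univ, and_true, Prod.exists,
      Bool.exists_bool, Finset.mem_union]
    constructor
    · rintro ⟨x, h1 | h1⟩
      · exact ⟨x, h1.1, Or.inr h1.2⟩
      · exact ⟨x, h1.1, Or.inl h1.2⟩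
    · rintro ⟨x, h1, h2 | h2⟩
      · exact ⟨x, Or.inr ⟨h1, h2⟩⟩
      · exact ⟨x, Or.inl ⟨h1, h2⟩⟩
  rw [e]
  have hm : ∀ x ∈ O, ∀ b : Bool, (x, b) ∈ O ×ˢ (Finset.univ : Finset Bool) := by
    intro x hx b
    simp [hx]
  apply Dec.biUnion
  · intro x hx
    exact (hub_cyc h (hm x hx true) (hm x hx false)).dec
  · intro x hx y hy hxy
    rw [Finset.disjoint_union_left, Finset.disjoint_union_right, Finset.disjoint_union_right]
    refine ⟨⟨?_, ?_⟩, ⟨?_, ?_⟩⟩ <;>
      exact hub_disj h (hm x hx _) (hm y hy _) (by simp [hxy])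

theorem hub_T_part {V : Type} [DecidableEq V] {X : Finset V} {w0 : V} {I : Finset (V × Bool)}
    {f g : V × Bool → V} (h : HubD X w0 I f g) :
    CherryPart ((I.image (hubT w0 f g)).biUnion chE) (I.image (hubT w0 f g)) := by
  refine ⟨?_, ?_, rfl⟩
  · intro t ht
    obtain ⟨j, hj, rfl⟩ := Finset.mem_image.1 ht
    have a1 := h.xg hj hj
    have a2 := h.xf hj hj
    have a3 := h.fg j hj j hj
    have a4 := h.fw j hj
    have a5 := h.gw j hj
    obtain ⟨x, b⟩ := j
    cases b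
    · simp only [hubT, Bool.false_eq_true, if_false]
      exact ⟨a2, a3.symm, a1⟩
    · simp only [hubT, if_true]
      exact ⟨a3.symm, a5, a4⟩
  · intro t ht t' ht' hne
    obtain ⟨j, hj, rfl⟩ := Finset.mem_image.1 ht
    obtain ⟨j', hj', rfl⟩ := Finset.mem_image.1 ht'
    have hjj : j ≠ j' := fun e => hne (by rw [e])
    have hd := hub_disj h hj hj' hjj
    refine Finset.disjoint_of_subset_left ?_ (Finset.disjoint_of_subset_right ?_ hd)
    · rw [hubP_eq]; exact Finset.subset_union_right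
    · rw [hubP_eq]; exact Finset.subset_union_right

theorem hub_R_inj {V : Type} [DecidableEq V] {X : Finset V} {w0 : V} {I : Finset (V × Bool)}
    {f g : V × Bool → V} (h : HubD X w0 I f g) {j j' : V × Bool} (hj : j ∈ I) (hj' : j' ∈ I)
    (he : hubR w0 f g j = hubR w0 f g j') : j = j' := by
  by_contra hne
  have hd := hub_disj h hj hj' hne
  have h1 : hubR w0 f g j ∈ hubP w0 f g j := by
    rw [hubP_eq]; exact Finset.mem_union_left _ (Finset.mem_singleton_self _)
  have h2 : hubR w0 f g j ∈ hubP w0 f g j' := by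
    rw [hubP_eq, he]; exact Finset.mem_union_left _ (Finset.mem_singleton_self _)
  exact Finset.disjoint_left.1 hd h1 h2

theorem hub_count {V : Type} [DecidableEq V] (O : Finset V) (w0 v : V) :
    ((O ×ˢ (Finset.univ : Finset Bool)).filter (fun j => hubC w0 j = v)).card =
      (if v ∈ O then 1 else 0) + (if w0 = v then O.card else 0) := by
  rw [Finset.card_filter, Finset.sum_product]
  simp only [Fintype.sum_bool, hubC, if_true, Bool.false_eq_true, if_false]
  rw [Finset.sum_add_distrib, Finset.sum_const]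
  congr 1
  · simp
  · split_ifs <;> simp

theorem hub_R_part {V : Type} [Fintype V] [DecidableEq V] {X : Finset V} {w0 : V}
    {H : Finset (Sym2 V)} (hH : Loopless H) (hHX : H ⊆ X.sym2) (h2 : 2 ∣ H.card)
    {ct : Sym2 V → V} (hct : ∀ e, ct e ∈ e)
    {O : Finset V} (hO : O = (X.filter (fun v => Odd (H.filter (fun e => ct e = v)).card)).erase w0)
    {f g : V × Bool → V} (h : HubD X w0 (O ×ˢ Finset.univ) f g) :
    ∃ J, CherryPart (H ∪ (O ×ˢ (Finset.univ : Finset Bool)).image (hubR w0 f g)) J := by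
  classical
  set I := O ×ˢ (Finset.univ : Finset Bool) with hI
  have hRP : ∀ j ∈ I, hubR w0 f g j ∈ hubP w0 f g j := by
    intro j _
    rw [hubP_eq]; exact Finset.mem_union_left _ (Finset.mem_singleton_self _)
  have hRH : ∀ j ∈ I, hubR w0 f g j ∉ H := fun j hj hjH => hub_notX h hj (hRP j hj) (hHX hjH)
  set c : Sym2 V → V := fun e =>
    if e ∈ H then ct e else if hx : ∃ j ∈ I, hubR w0 f g j = e then hubC w0 hx.choose else ct e with hc
  have hcH : ∀ e ∈ H, c e = ct e := by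
    intro e he
    simp only [hc, if_pos he]
  have hcR : ∀ j ∈ I, c (hubR w0 f g j) = hubC w0 j := by
    intro j hj
    have hx : ∃ j' ∈ I, hubR w0 f g j' = hubR w0 f g j := ⟨j, hj, rfl⟩
    simp only [hc, if_neg (hRH j hj), dif_pos hx]
    have h3 := hx.choose_spec
    rw [hub_R_inj h h3.1 hj h3.2]
  have hd : Disjoint H (I.image (hubR w0 f g)) := by
    rw [Finset.disjoint_right]
    intro e he
    obtain ⟨j, hj, rfl⟩ := Finset.mem_image.1 he
    exact hRH j hj
  apply hub_even _ _ c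
  · intro e he
    rcases Finset.mem_union.1 he with he | he
    · rw [hcH e he]; exact hct e
    · obtain ⟨j, hj, rfl⟩ := Finset.mem_image.1 he
      rw [hcR j hj]
      obtain ⟨x, b⟩ := j
      cases b
      · simp only [hubC, hubR, Bool.false_eq_true, if_false]
        exact Sym2.mem_mk_right _ _
      · simp only [hubC, hubR, if_true]
        exact Sym2.mem_mk_left _ _
  · intro v
    have e1 : (H ∪ I.image (hubR w0 f g)).filter (fun e => c e = v) =
        (H.filter (fun e => ct e = v)) ∪ (I.filter (fun j => hubC w0 j = v)).image (hubR w0 f g) := by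
      rw [Finset.filter_union]
      congr 1
      · apply Finset.filter_congr
        intro e he
        rw [hcH e he]
      · ext e
        simp only [Finset.mem_filter, Finset.mem_image]
        constructor
        · rintro ⟨⟨j, hj, rfl⟩, hv⟩
          rw [hcR j hj] at hv
          exact ⟨j, ⟨hj, hv⟩, rfl⟩
        · rintro ⟨j, ⟨hj, hv⟩, rfl⟩
          refine ⟨⟨j, hj, rfl⟩, ?_⟩
          rw [hcR j hj]
          exact hv
    rw [e1, Finset.card_union_of_disjoint, Finset.card_image_of_injOn, hub_count]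
    · -- parity
      set a : V → ℕ := fun v => (H.filter (fun e => ct e = v)).card with ha
      have hzero : ∀ v, v ∉ X → a v = 0 := by
        intro v hv
        simp only [ha]
        rw [Finset.card_eq_zero, Finset.filter_eq_empty_iff]
        intro e he hev
        have := hHX he
        rw [Finset.mem_sym2_iff] at this
        exact hv (hev ▸ this _ (hct e))
      have hsum : ∑ v ∈ X, a v = H.card := by
        rw [← Finset.card_eq_sum_card_fiberwise]
        intro e he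
        have := hHX he
        rw [Finset.mem_sym2_iff] at this
        exact this _ (hct e)
      have hev : Even (X.filter (fun v => Odd (a v))).card := by
        rw [← Finset.even_sum_iff_even_card_odd, hsum]
        exact even_iff_two_dvd.2 h2
      change Even (a v + ((if v ∈ O then 1 else 0) + (if w0 = v then O.card else 0)))
      by_cases hw : w0 = v
      · subst hw
        have h3 : w0 ∉ O := by rw [hO]; simp
        rw [if_neg h3, if_pos rfl, zero_add]
        by_cases h4 : w0 ∈ X.filter (fun v => Odd (a v))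
        · have h5 : O.card + 1 = (X.filter (fun v => Odd (a v))).card := by
            rw [hO]; exact Finset.card_erase_add_one h4
          have h6 : Odd (a w0) := (Finset.mem_filter.1 h4).2
          rw [← h5] at hev
          have h7 : Odd O.card := by
            rcases Nat.even_or_odd O.card with h8 | h8
            · exfalso
              rw [Nat.even_add_one] at hev
              exact hev h8
            · exact h8
          exact h6.add_odd h7
        · have h5 : O = X.filter (fun v => Odd (a v)) := by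
            rw [hO]; exact Finset.erase_eq_of_notMem h4
          have h6 : Even (a w0) := by
            by_cases hX : w0 ∈ X
            · rw [← Nat.not_odd_iff_even]
              intro h7
              exact h4 (Finset.mem_filter.2 ⟨hX, h7⟩)
            · rw [hzero w0 hX]; exact Even.zero
          rw [← h5] at hev
          exact h6.add hev
      · rw [if_neg hw, add_zero]
        by_cases h3 : v ∈ O
        · rw [if_pos h3]
          have h4 : v ∈ X.filter (fun v => Odd (a v)) := by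
            rw [hO] at h3; exact Finset.mem_of_mem_erase h3
          exact (Finset.mem_filter.1 h4).2.add_one
        · rw [if_neg h3, add_zero]
          by_cases hX : v ∈ X
          · rw [← Nat.not_odd_iff_even]
            intro h7
            apply h3
            rw [hO]
            exact Finset.mem_erase.2 ⟨fun e => hw e.symm, Finset.mem_filter.2 ⟨hX, h7⟩⟩
          · rw [hzero v hX]; exact Even.zero
    · intro j hj j' hj' he
      exact hub_R_inj h (Finset.mem_filter.1 hj).1 (Finset.mem_filter.1 hj').1 he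
    · rw [Finset.disjoint_left]
      intro e he he'
      obtain ⟨j, hj, rfl⟩ := Finset.mem_image.1 he'
      exact hRH j (Finset.mem_filter.1 hj).1 (Finset.mem_filter.1 he).1
  · apply Loopless.union hH
    intro x hx
    obtain ⟨j, hj, he⟩ := Finset.mem_image.1 hx
    have a2 := h.xf hj hj
    have a5 := h.gw j hj
    obtain ⟨y, b⟩ := j
    cases b
    · simp only [hubR, Bool.false_eq_true, if_false, Sym2.eq_iff] at he
      rcases he with ⟨e1, e2⟩ | ⟨e1, e2⟩ <;> exact a5 (e1.trans e2.symm)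
    · simp only [hubR, if_true, Sym2.eq_iff] at he
      rcases he with ⟨e1, e2⟩ | ⟨e1, e2⟩ <;> exact a2 (e1.trans e2.symm)

theorem hub_cherries (ζ η : ℝ) (hζ : 0 < ζ) (hη : 0 < η) :
    ∃ ε : ℝ, 0 < ε ∧ ∀ k : ℕ, ∃ n0 : ℕ, ∀ (V : Type) [Fintype V] [DecidableEq V]
      (U : Finset V) (E : Finset (Sym2 V)) (X Z : Finset V) (H : Finset (Sym2 V)) (w0 : V),
      n0 ≤ U.card → E ⊆ U.sym2 → Loopless E → X ⊆ U → X.card ≤ k →
      (Z.card : ℝ) ≤ ε * U.card → H ⊆ E → H ⊆ X.sym2 → EvenDeg H → 2 ∣ H.card →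
      w0 ∈ U → w0 ∉ Z →
      (∀ x ∈ U, x ≠ w0 → ∀ Q : Finset V, (Q.card : ℝ) < ζ * U.card →
        ∃ q ∈ U, q ∉ Q ∧ s(x, q) ∈ E ∧ Gam E U η q w0) →
      ∃ (N : Finset (Sym2 V)) (J : Finset (V × V × V)), N ⊆ E ∧ Disjoint H N ∧ Dec N ∧
        CherryPart (H ∪ N) J ∧ (∀ e ∈ N, e ∉ X.sym2) ∧ (∀ e ∈ N, ∀ x ∈ e, x ∉ X → x ∉ Z) ∧
        N.card ≤ 6 * X.card := by
  classical
  set m := min ζ η with hm
  have hm0 : 0 < m := lt_min hζ hη
  refine ⟨m / 2, by positivity, fun k => ⟨⌈(5 * (k : ℝ) + 2) / (m / 2)⌉₊ + 1, ?_⟩⟩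
  intro V _ _ U E X Z H w0 hn hEU hEL hXU hXk hZ hHE hHX hHev hH2 hw0U hw0Z hyp
  haveI : Nonempty V := ⟨w0⟩
  have hbig : 5 * (k : ℝ) + 2 < m / 2 * U.card := by
    have h1 : (5 * (k : ℝ) + 2) / (m / 2) ≤ ⌈(5 * (k : ℝ) + 2) / (m / 2)⌉₊ := Nat.le_ceil _
    have h2 : ((⌈(5 * (k : ℝ) + 2) / (m / 2)⌉₊ + 1 : ℕ) : ℝ) ≤ U.card := by exact_mod_cast hn
    push_cast at h2
    have h3 : (5 * (k : ℝ) + 2) / (m / 2) < U.card := by linarith
    rw [div_lt_iff₀ (by positivity)] at h3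
    linarith
  have hmζ : m * U.card ≤ ζ * U.card := by gcongr; exact min_le_left _ _
  have hmη : m * U.card ≤ η * U.card := by gcongr; exact min_le_right _ _
  set ct : Sym2 V → V := fun e => e.out.1 with hctd
  have hct : ∀ e, ct e ∈ e := fun e => Sym2.out_fst_mem e
  set O := (X.filter (fun v => Odd (H.filter (fun e => ct e = v)).card)).erase w0 with hO
  have hOX : O ⊆ X := (Finset.erase_subset _ _).trans (Finset.filter_subset _ _)
  have hOk : O.card ≤ k := (Finset.card_le_card hOX).trans hXk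
  set I := O ×ˢ (Finset.univ : Finset Bool) with hI
  have hIk : I.card ≤ 2 * k := by
    rw [hI, Finset.card_product, Finset.card_univ, Fintype.card_bool]
    omega
  set Q1 := Z ∪ X ∪ {w0} with hQ1
  have hQ1c : (Q1.card : ℝ) ≤ m / 2 * U.card + k + 1 := by
    have h1 : Q1.card ≤ Z.card + X.card + 1 := by
      refine (Finset.card_union_le _ _).trans ?_
      rw [Finset.card_singleton]
      exact Nat.add_le_add_right (Finset.card_union_le _ _) 1
    have h2 : (Q1.card : ℝ) ≤ (Z.card : ℝ) + X.card + 1 := by exact_mod_cast h1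
    have h3 : (X.card : ℝ) ≤ k := by exact_mod_cast hXk
    linarith
  have hIkR : (I.card : ℝ) ≤ 2 * k := by exact_mod_cast hIk
  -- first choice
  set cand1 : V × Bool → Finset V := fun j =>
    U.filter (fun q => s(j.1, q) ∈ E ∧ Gam E U η q w0) with hcand1
  have hc1 : ∀ j ∈ I, Q1.card + I.card < (cand1 j).card := by
    intro j hj
    have hjO : j.1 ∈ O := (Finset.mem_product.1 hj).1
    have hjw : j.1 ≠ w0 := (Finset.mem_erase.1 hjO).1
    have h1 : ζ * U.card ≤ (cand1 j).card := by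
      by_contra h2
      rw [not_le] at h2
      obtain ⟨q, hqU, hqQ, hq1, hq2⟩ := hyp j.1 (hXU (hOX hjO)) hjw _ h2
      exact hqQ (Finset.mem_filter.2 ⟨hqU, hq1, hq2⟩)
    have h3 : ((Q1.card + I.card : ℕ) : ℝ) < (cand1 j).card := by
      push_cast
      have hk0 : (0 : ℝ) ≤ k := Nat.cast_nonneg k
      linarith
    exact_mod_cast h3
  obtain ⟨f, hf1, hf2⟩ := pick I cand1 Q1 hc1
  -- second choice
  set Q2 := Q1 ∪ I.image f with hQ2
  set cand2 : V × Bool → Finset V := fun j =>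
    U.filter (fun q => s(f j, q) ∈ E ∧ s(q, w0) ∈ E) with hcand2
  have hc2 : ∀ j ∈ I, Q2.card + I.card < (cand2 j).card := by
    intro j hj
    have hg := (Finset.mem_filter.1 (hf1 j hj).1).2.2
    have h1 : η * U.card ≤ (cand2 j).card := hg.2
    have h2 : Q2.card ≤ Q1.card + I.card :=
      (Finset.card_union_le _ _).trans (Nat.add_le_add_left Finset.card_image_le _)
    have h2R : (Q2.card : ℝ) ≤ Q1.card + I.card := by exact_mod_cast h2
    have h3 : ((Q2.card + I.card : ℕ) : ℝ) < (cand2 j).card := by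
      push_cast
      have hk0 : (0 : ℝ) ≤ k := Nat.cast_nonneg k
      linarith
    exact_mod_cast h3
  obtain ⟨g, hg1, hg2⟩ := pick I cand2 Q2 hc2
  have fQ : ∀ j ∈ I, f j ∉ Z ∧ f j ∉ X ∧ f j ≠ w0 := by
    intro j hj
    have h1 := (hf1 j hj).2
    simp only [hQ1, Finset.mem_union, Finset.mem_singleton, not_or] at h1
    exact ⟨h1.1.1, h1.1.2, h1.2⟩
  have gQ : ∀ j ∈ I, g j ∉ Z ∧ g j ∉ X ∧ g j ≠ w0 ∧ g j ∉ I.image f := by
    intro j hj
    have h1 := (hg1 j hj).2
    simp only [hQ2, hQ1, Finset.mem_union, Finset.mem_singleton, not_or] at h1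
    exact ⟨h1.1.1.1, h1.1.1.2, h1.1.2, h1.2⟩
  have hD : HubD X w0 I f g := by
    refine ⟨?_, ?_, fun j hj => (fQ j hj).2.1, fun j hj => (gQ j hj).2.1,
      fun j hj => (fQ j hj).2.2, fun j hj => (gQ j hj).2.2.1, hf2, hg2, ?_⟩
    · intro j hj; exact hOX (Finset.mem_product.1 hj).1
    · intro j hj; exact (Finset.mem_erase.1 (Finset.mem_product.1 hj).1).1
    · intro j hj j' hj' he
      exact (gQ j hj).2.2.2 (Finset.mem_image.2 ⟨j', hj', he.symm⟩)
  have hHL : Loopless H := hEL.mono hHE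
  obtain ⟨J1, hJ1⟩ := hub_R_part hHL hHX hH2 hct hO hD
  have hJ2 := hub_T_part hD
  have hNeq : I.biUnion (hubP w0 f g) =
      I.image (hubR w0 f g) ∪ (I.image (hubT w0 f g)).biUnion chE := by
    ext e
    simp only [Finset.mem_biUnion, Finset.mem_union, Finset.mem_image, hubP_eq,
      Finset.mem_singleton]
    constructor
    · rintro ⟨j, hj, h1 | h1⟩
      · exact Or.inl ⟨j, hj, h1.symm⟩
      · exact Or.inr ⟨_, ⟨j, hj, rfl⟩, h1⟩
    · rintro (⟨j, hj, h1⟩ | ⟨_, ⟨j, hj, rfl⟩, h1⟩)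
      · exact ⟨j, hj, Or.inl h1.symm⟩
      · exact ⟨j, hj, Or.inr h1⟩
  have hNX : ∀ e ∈ I.biUnion (hubP w0 f g), e ∉ X.sym2 := by
    intro e he
    obtain ⟨j, hj, h1⟩ := Finset.mem_biUnion.1 he
    exact hub_notX hD hj h1
  refine ⟨I.biUnion (hubP w0 f g), J1 ∪ I.image (hubT w0 f g), ?_, ?_, hub_dec hD, ?_, hNX, ?_, ?_⟩
  · intro e he
    obtain ⟨j, hj, h1⟩ := Finset.mem_biUnion.1 he
    have h2 := (Finset.mem_filter.1 (hf1 j hj).1).2
    have h3 := (Finset.mem_filter.1 (hg1 j hj).1).2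
    simp only [hubP, Finset.mem_insert, Finset.mem_singleton] at h1
    rcases h1 with rfl | rfl | rfl
    · exact h2.1
    · exact h3.1
    · exact h3.2
  · rw [Finset.disjoint_right]
    intro e he heH
    exact hNX e he (hHX heH)
  · rw [hNeq, ← Finset.union_assoc]
    refine hub_union hJ1 hJ2 ?_
    rw [Finset.disjoint_left]
    intro e he he'
    obtain ⟨t, ht, h1⟩ := Finset.mem_biUnion.1 he'
    obtain ⟨j, hj, rfl⟩ := Finset.mem_image.1 ht
    have h2 : e ∈ hubP w0 f g j := by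
      rw [hubP_eq]; exact Finset.mem_union_right _ h1
    rcases Finset.mem_union.1 he with he | he
    · exact hub_notX hD hj h2 (hHX he)
    · obtain ⟨j', hj', rfl⟩ := Finset.mem_image.1 he
      have h3 : hubR w0 f g j' ∈ hubP w0 f g j' := by
        rw [hubP_eq]; exact Finset.mem_union_left _ (Finset.mem_singleton_self _)
      by_cases hjj : j = j'
      · subst hjj
        exact hub_R_notin hD hj h1
      · exact Finset.disjoint_left.1 (hub_disj hD hj hj' hjj) h2 h3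
  · intro e he x hx hxX
    obtain ⟨j, hj, h1⟩ := Finset.mem_biUnion.1 he
    rcases (hub_priv h1).2 x hx with rfl | rfl | rfl | rfl
    · exact absurd (hOX (Finset.mem_product.1 hj).1) hxX
    · exact (fQ j hj).1
    · exact (gQ j hj).1
    · exact hw0Z
  · refine Finset.card_biUnion_le.trans ?_
    have h3 : ∀ j ∈ I, (hubP w0 f g j).card ≤ 3 := fun j _ => Finset.card_le_three
    refine (Finset.sum_le_card_nsmul _ _ 3 h3).trans ?_
    rw [smul_eq_mul, hI, Finset.card_product, Finset.card_univ, Fintype.card_bool]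
    have := Finset.card_le_card hOX
    omega

end H15C6
end S_HUB

section S_AFC
/-!
Module AFC.  From a cherry partition to an absorber.  `F0 = H ∪ N` is partitioned into the cherries of
`J`.  Output `W, R` with `Dec (F0 ∪ W)`, `Dec R`, `Dec (W ∪ R)`.

Proof.  (Constants: everything except `Z` has bounded size `≤ C(k)`; `ε := min(ε0,η)/4`.)
1. For each `t ∈ J` choose successively a vertex `z_t ∈ S` with `Gam t.1 z_t`, `Gam z_t t.2.2`, all `z_t`
 distinct and outside `Z ∪ X ∪ V(F0)` (hypothesis `hcom` with `Z'` = that set plus earlier choices).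
2. By `pick` (index set `J × Fin 2`) choose distinct private `m1_t` (common neighbour of `t.1, z_t`) and `m2_t`
 (common neighbour of `z_t, t.2.2`) in `U`, outside `Z ∪ X ∪ V(F0) ∪ {z's}`.
 `J' := {(t.1, m1_t, z_t)} ∪ {(z_t, m2_t, t.2.2)}`, `W := J'.biUnion chE`.  For `t = (x,m,y)`:
 `x m y m2 z m1` is a six-cycle, so `Dec (F0 ∪ W)`.
3. `w := J'.val.map (ends)`, `card w = 2|J| = |F0|`, so `3 ∣ card w`.  Degrees of `w` are even: for `v`,
 `#{t : v is an end of t} ≡ deg F0 v (mod 2)` (a cherry centred at `v` contributes 2), and each `z_t`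
 is in two pairs.  `π w` by `hπ`.  Apply `hsolv` with `Z' := Z ∪ {all m's} ` (so the triangle vertices are
 outside `Z` and are no middle vertices, or vertices of `w`): lists `Tp, Tm`.
4. By `pick` choose for every triangle of `Tm` (index `Fin Tm.length × Fin 3`) private middle vertices for its
 three sides, outside `Z ∪ X ∪ V(F0) ∪ {z's, m's} ∪ V(Tp) ∪ V(Tm)`.  `R :=` union of these cherries.
 `Dec R` by `regroup` with `T = Tm`; `Dec (W ∪ R)` by `regroup` with `T = Tp` (index a sum type; the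
 multiset of ends is `w + bd Tm = bd Tp`).
 `Tp.length` is determined: `3 Tp.length = card w + 3 Tm.length`.
Every edge of `W ∪ R` has a private middle vertex as one end (outside `X ∪ Z ∪ V(F0)`), so it is not inside
`X` and not in `F0`; its other end is in `X`, or in `V(F0)` (`hF0Z`), or a chosen vertex outside `Z`.
-/

open Finset

namespace H15C6

section afc

variable {V ι : Type} [DecidableEq V]

theorem afc_mem_chE {t : V × V × V} {e : Sym2 V} :
    e ∈ chE t ↔ e = s(t.1, t.2.1) ∨ e = s(t.2.1, t.2.2) := by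
  simp [chE]

theorem afc_mid {t : V × V × V} {e : Sym2 V} (he : e ∈ chE t) : t.2.1 ∈ e := by
  rcases afc_mem_chE.1 he with rfl | rfl
  · exact Sym2.mem_mk_right _ _
  · exact Sym2.mem_mk_left _ _

theorem afc_ends {t : V × V × V} {e : Sym2 V} {v : V} (he : e ∈ chE t) (hv : v ∈ e) :
    v = t.1 ∨ v = t.2.1 ∨ v = t.2.2 := by
  rcases afc_mem_chE.1 he with rfl | rfl <;> rw [Sym2.mem_iff] at hv <;> tauto

theorem afc_disj {I : Finset ι} {x m y : ι → V}
    (hm : ∀ j ∈ I, ∀ j' ∈ I, m j = m j' → j = j')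
    (hmx : ∀ j ∈ I, ∀ j' ∈ I, m j ≠ x j' ∧ m j ≠ y j') :
    ∀ j ∈ I, ∀ j' ∈ I, j ≠ j' → Disjoint (chE (x j, m j, y j)) (chE (x j', m j', y j')) := by
  intro j hj j' hj' hne
  rw [Finset.disjoint_left]
  intro e he he'
  rcases afc_ends he' (afc_mid he) with h | h | h
  · exact (hmx j hj j' hj').1 h
  · exact hne (hm j hj j' hj' h)
  · exact (hmx j hj j' hj').2 h

theorem afc_deg_chE {x m y v : V} (h1 : x ≠ m) (h2 : m ≠ y) (h3 : x ≠ y) :
    Even (deg (chE (x, m, y)) v + if v ∈ s(x, y) then 1 else 0) := by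
  have hne : s(x, m) ≠ s(m, y) := by
    intro h
    rw [Sym2.eq_iff] at h
    rcases h with ⟨h, _⟩ | ⟨h, _⟩
    · exact h1 h
    · exact h3 h
  have hd : deg (chE (x, m, y)) v = (if v ∈ s(x, m) then 1 else 0) + if v ∈ s(m, y) then 1 else 0 := by
    unfold deg
    rw [Finset.card_filter]
    show ∑ e ∈ ({s(x, m), s(m, y)} : Finset (Sym2 V)), (if v ∈ e then 1 else 0) = _
    rw [Finset.sum_pair hne]
  rw [hd]
  simp only [Sym2.mem_iff]
  by_cases hvx : v = x
  · subst hvx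
    simp [h1, h3]
  · by_cases hvm : v = m
    · subst hvm
      simp [hvx, h2]
    · by_cases hvy : v = y
      · subst hvy
        simp [hvx, hvm]
      · simp [hvx, hvm, hvy]

theorem afc_parity [DecidableEq ι] {I : Finset ι} {x m y : ι → V}
    (hm : ∀ j ∈ I, ∀ j' ∈ I, m j = m j' → j = j')
    (hmx : ∀ j ∈ I, ∀ j' ∈ I, m j ≠ x j' ∧ m j ≠ y j') (hxy : ∀ j ∈ I, x j ≠ y j)
    (hE : EvenDeg (I.biUnion (fun j => chE (x j, m j, y j)))) (v : V) :
    Even (I.filter (fun j => v ∈ s(x j, y j))).card := by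
  have h1 : deg (I.biUnion (fun j => chE (x j, m j, y j))) v =
      ∑ j ∈ I, deg (chE (x j, m j, y j)) v := by
    unfold deg
    rw [Finset.filter_biUnion, Finset.card_biUnion]
    intro j hj j' hj' hne
    exact Finset.disjoint_filter_filter (afc_disj hm hmx j hj j' hj' hne)
  have h2 := hE v
  rw [h1] at h2
  have h3 : Even (∑ j ∈ I, (deg (chE (x j, m j, y j)) v + if v ∈ s(x j, y j) then 1 else 0)) := by
    refine Finset.even_sum _ fun j hj => ?_
    exact afc_deg_chE (fun h => (hmx j hj j hj).1 h.symm) (hmx j hj j hj).2 (hxy j hj)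
  rw [Finset.sum_add_distrib, ← Finset.card_filter] at h3
  exact (Nat.even_add.1 h3).1 h2

/-- a cherry and two private cherries with a common end form a six-cycle -/
theorem afc_isC6 {x m y m2 z m1 : V} (h01 : x ≠ m) (h02 : x ≠ y) (h03 : x ≠ m2) (h04 : x ≠ z)
    (h05 : x ≠ m1) (h12 : m ≠ y) (h13 : m ≠ m2) (h14 : m ≠ z) (h15 : m ≠ m1) (h23 : y ≠ m2)
    (h24 : y ≠ z) (h25 : y ≠ m1) (h34 : m2 ≠ z) (h35 : m2 ≠ m1) (h45 : z ≠ m1) :
    IsC6 (chE (x, m, y) ∪ (chE (x, m1, z) ∪ chE (z, m2, y))) := by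
  refine ⟨![x, m, y, m2, z, m1], ?_, ?_⟩
  · intro i j hij
    fin_cases i <;> fin_cases j <;> simp_all
  · ext e
    simp only [mem_cyc, Finset.mem_union, afc_mem_chE, Fin.exists_fin_succ]
    simp
    constructor
    · rintro ((h | h) | (h | h) | (h | h))
      · left; exact h.symm
      · right; left; exact h.symm
      · right; right; right; right; right; rw [h]; exact Sym2.eq_swap
      · right; right; right; right; left; rw [h]; exact Sym2.eq_swap
      · right; right; right; left; rw [h]; exact Sym2.eq_swap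
      · right; right; left; rw [h]; exact Sym2.eq_swap
    · rintro (h | h | h | h | h | h)
      · left; left; exact h.symm
      · left; right; exact h.symm
      · right; right; right; rw [← h]; exact Sym2.eq_swap
      · right; right; left; rw [← h]; exact Sym2.eq_swap
      · right; left; right; rw [← h]; exact Sym2.eq_swap
      · right; left; left; rw [← h]; exact Sym2.eq_swap

/-- middle vertices -/
theorem afc_mids [DecidableEq ι] [Nonempty V] {E : Finset (Sym2 V)} {U : Finset V} {η : ℝ}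
    (I : Finset ι) (x y : ι → V) (hG : ∀ j ∈ I, Gam E U η (x j) (y j)) (Q : Finset V)
    (hQ : ((Q.card + I.card : ℕ) : ℝ) < η * U.card) :
    ∃ m : ι → V, (∀ j ∈ I, m j ∈ U ∧ s(x j, m j) ∈ E ∧ s(m j, y j) ∈ E ∧ m j ∉ Q) ∧
      (∀ j ∈ I, ∀ j' ∈ I, m j = m j' → j = j') := by
  obtain ⟨f, hf1, hf2⟩ := pick I (fun j => U.filter (fun m => s(x j, m) ∈ E ∧ s(m, y j) ∈ E)) Q (by
    intro j hj
    have h1 := (hG j hj).2
    have h2 : ((Q.card + I.card : ℕ) : ℝ) < (cn E U (x j) (y j) : ℝ) := lt_of_lt_of_le hQ h1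
    exact_mod_cast h2)
  refine ⟨f, fun j hj => ?_, hf2⟩
  have := hf1 j hj
  rw [Finset.mem_filter] at this
  exact ⟨this.1.1, this.1.2.1, this.1.2.2, this.2⟩

/-- the vertices `z_t` -/
theorem afc_zs [Nonempty V] {E : Finset (Sym2 V)} {U S : Finset V} {η ε0 : ℝ}
    (J : Finset (V × V × V))
    (hcom : ∀ t ∈ J, ∀ Z' : Finset V, (Z'.card : ℝ) ≤ ε0 * U.card →
      ∃ z ∈ S, z ∉ Z' ∧ Gam E U η t.1 z ∧ Gam E U η z t.2.2) (Q : Finset V)
    (hQ : ((Q.card + J.card : ℕ) : ℝ) < ε0 * U.card) :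
    ∃ z : V × V × V → V, (∀ t ∈ J, z t ∈ S ∧ Gam E U η t.1 (z t) ∧ Gam E U η (z t) t.2.2 ∧
      z t ∉ Q) ∧ ∀ t ∈ J, ∀ t' ∈ J, z t = z t' → t = t' := by
  classical
  obtain ⟨f, hf1, hf2⟩ := pick J
    (fun t => S.filter (fun z => Gam E U η t.1 z ∧ Gam E U η z t.2.2)) Q (by
    intro t ht
    by_contra hlt
    rw [not_lt] at hlt
    have h1 : (((S.filter (fun z => Gam E U η t.1 z ∧ Gam E U η z t.2.2)).card : ℕ) : ℝ) ≤
        ε0 * U.card := by
      have h2 : (((S.filter (fun z => Gam E U η t.1 z ∧ Gam E U η z t.2.2)).card : ℕ) : ℝ) ≤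
        ((Q.card + J.card : ℕ) : ℝ) := by exact_mod_cast hlt
      linarith
    obtain ⟨z, hzS, hz1, hz2⟩ := hcom t ht _ h1
    exact hz1 (Finset.mem_filter.2 ⟨hzS, hz2⟩))
  refine ⟨f, fun j hj => ?_, hf2⟩
  have := hf1 j hj
  rw [Finset.mem_filter] at this
  exact ⟨this.1.1, this.1.2.1, this.1.2.2, this.2⟩

/-- vertices of an edge set -/
def afc_V (F : Finset (Sym2 V)) : Finset V := F.biUnion Sym2.toFinset

theorem afc_mem_V {F : Finset (Sym2 V)} {v : V} : v ∈ afc_V F ↔ ∃ e ∈ F, v ∈ e := by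
  simp [afc_V]

theorem afc_card_V (F : Finset (Sym2 V)) : (afc_V F).card ≤ 2 * F.card := by
  unfold afc_V
  refine Finset.card_biUnion_le.trans ?_
  rw [mul_comm]
  refine Finset.sum_le_card_nsmul _ _ _ fun e _ => ?_
  rw [Sym2.card_toFinset]
  split_ifs <;> norm_num

theorem afc_card_chE {t : V × V × V} (h : t.1 ≠ t.2.2) (h2 : t.1 ≠ t.2.1) : (chE t).card = 2 := by
  unfold chE
  rw [Finset.card_pair]
  intro h'
  rw [Sym2.eq_iff] at h'
  rcases h' with ⟨h', _⟩ | ⟨h', _⟩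
  · exact h2 h'
  · exact h h'

theorem afc_card_chE_le (t : V × V × V) : (chE t).card ≤ 2 := by
  unfold chE
  exact Finset.card_le_two

theorem afc_card_J {F : Finset (Sym2 V)} {J : Finset (V × V × V)} (h : CherryPart F J) :
    F.card = 2 * J.card := by
  rw [← h.2.2, Finset.card_biUnion]
  · rw [Finset.sum_congr rfl (fun t ht => afc_card_chE (h.1 t ht).2.2 (h.1 t ht).1)]
    simp [mul_comm]
  · intro t ht t' ht' hne
    exact h.2.1 t ht t' ht' hne

theorem afc_mem_bd {T : List (V × V × V)} {e : Sym2 V} (h : e ∈ bd T) :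
    ∃ t ∈ T, e = s(t.1, t.2.1) ∨ e = s(t.2.1, t.2.2) ∨ e = s(t.2.2, t.1) := by
  induction T with
  | nil => simp [bd] at h
  | cons a T ih =>
    have h1 : bd (a :: T) = sides a + bd T := by simp [bd]
    rw [h1, Multiset.mem_add] at h
    rcases h with h | h
    · refine ⟨a, List.mem_cons_self, ?_⟩
      simpa [sides] using h
    · obtain ⟨t, ht, ht2⟩ := ih h
      exact ⟨t, List.mem_cons_of_mem _ ht, ht2⟩

theorem afc_card_bd (T : List (V × V × V)) : (bd T).card = 3 * T.length := by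
  induction T with
  | nil => simp [bd]
  | cons a T ih =>
    have h1 : bd (a :: T) = sides a + bd T := by simp [bd]
    rw [h1, Multiset.card_add, ih]
    simp [sides]
    ring

end afc


theorem absorb_from_cherries (η ε0 : ℝ) (hη : 0 < η) (hε0 : 0 < ε0) (k0 : ℕ) :
    ∃ ε : ℝ, 0 < ε ∧ ∀ k : ℕ, ∃ C n0 : ℕ, ∀ (V : Type) [Fintype V] [DecidableEq V]
      (U S : Finset V) (E : Finset (Sym2 V)) (π : Multiset (Sym2 V) → Prop) (X Z : Finset V)
      (F0 : Finset (Sym2 V)) (J : Finset (V × V × V)),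
      n0 ≤ U.card → E ⊆ U.sym2 → Loopless E → S ⊆ U → X ⊆ U → X.card ≤ k →
      (Z.card : ℝ) ≤ ε * U.card → F0 ⊆ E → EvenDeg F0 → 6 ∣ F0.card → F0.card ≤ k →
      CherryPart F0 J → (∀ t ∈ J, t.1 ∈ S ∧ t.2.2 ∈ S) →
      (∀ e ∈ F0, ∀ x ∈ e, x ∉ X → x ∉ Z) →
      (∀ t ∈ J, ∀ Z' : Finset V, (Z'.card : ℝ) ≤ ε0 * U.card →
        ∃ z ∈ S, z ∉ Z' ∧ Gam E U η t.1 z ∧ Gam E U η z t.2.2) →
      (∀ (w : Multiset (Sym2 V)) (Z' : Finset V), (Z'.card : ℝ) ≤ ε0 * U.card →
        (∀ e ∈ w, ∃ x y, e = s(x, y) ∧ x ∈ S ∧ y ∈ S ∧ Gam E U η x y) →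
        (∀ v, Even (w.countP (fun e => v ∈ e))) → 3 ∣ w.card → π w →
        Solv (Gam E U η) {v | v ∈ S ∧ (v ∉ Z' ∨ ∃ e ∈ w, v ∈ e)} (k0 * w.card) w) →
      (∀ J' : Finset (V × V × V), (∀ t ∈ J', t.1 ≠ t.2.1 ∧ t.2.1 ≠ t.2.2 ∧ t.1 ≠ t.2.2) →
        (∀ t ∈ J', ∀ t' ∈ J', t ≠ t' → Disjoint (chE t) (chE t')) →
        J'.biUnion chE ⊆ E → Disjoint F0 (J'.biUnion chE) → Dec (F0 ∪ J'.biUnion chE) →
        π (J'.val.map (fun t => s(t.1, t.2.2)))) →
      ∃ W R : Finset (Sym2 V), W ⊆ E ∧ R ⊆ E ∧ Disjoint F0 W ∧ Disjoint F0 R ∧ Disjoint W R ∧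
        Dec (F0 ∪ W) ∧ Dec R ∧ Dec (W ∪ R) ∧ (∀ e ∈ W ∪ R, e ∉ X.sym2) ∧
        (∀ e ∈ W ∪ R, ∀ x ∈ e, x ∉ X → x ∉ Z) ∧ W.card + R.card ≤ C := by
  set δ : ℝ := min ε0 η with hδ
  have hδ0 : 0 < δ := lt_min hε0 hη
  refine ⟨δ / 4, by positivity, fun k => ?_⟩
  set B : ℕ := (k + 1) * (k0 + 1) with hB
  refine ⟨2 * k + 6 * (k0 * k), ⌈100 * (B : ℝ) / δ⌉₊ + 1, ?_⟩
  intro V _ _ U S E π X Z F0 J hn0 hEU hEl hSU hXU hXk hZ hF0E hF0ev hF06 hF0k hJ hJS hF0Z hcom
    hsolv hπ
  classical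
  -- numbers
  have hkB : k ≤ B := by rw [hB]; nlinarith
  have hkkB : k0 * k ≤ B := by rw [hB]; nlinarith
  have hB1 : 1 ≤ B := by rw [hB]; nlinarith
  have hBN : 100 * (B : ℝ) ≤ δ * U.card := by
    have h1 : 100 * (B : ℝ) / δ ≤ ⌈100 * (B : ℝ) / δ⌉₊ := Nat.le_ceil _
    have h2 : ((⌈100 * (B : ℝ) / δ⌉₊ : ℕ) : ℝ) ≤ U.card := by
      exact_mod_cast (by omega : ⌈100 * (B : ℝ) / δ⌉₊ ≤ U.card)
    have h3 := h1.trans h2
    rw [div_le_iff₀ hδ0] at h3
    linarith
  have hB1' : (1 : ℝ) ≤ B := by exact_mod_cast hB1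
  have hnum : ∀ a : ℕ, a ≤ Z.card + 14 * B → (a : ℝ) < δ * U.card := by
    intro a ha
    have h1 : (a : ℝ) ≤ Z.card + 14 * B := by exact_mod_cast ha
    linarith
  have hδε : δ * U.card ≤ ε0 * U.card :=
    mul_le_mul_of_nonneg_right (min_le_left _ _) (Nat.cast_nonneg _)
  have hδη : δ * U.card ≤ η * U.card :=
    mul_le_mul_of_nonneg_right (min_le_right _ _) (Nat.cast_nonneg _)
  have hUpos : 0 < U.card := by omega
  obtain ⟨v0, hv0⟩ := Finset.card_pos.1 hUpos
  have : Nonempty V := ⟨v0⟩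
  have hFJ := afc_card_J hJ
  have hVF := afc_card_V F0
  -- the vertices z
  set Q0 : Finset V := Z ∪ X ∪ afc_V F0 with hQ0
  have hQ0c : Q0.card ≤ Z.card + X.card + (afc_V F0).card :=
    (Finset.card_union_le _ _).trans (Nat.add_le_add_right (Finset.card_union_le _ _) _)
  obtain ⟨z, hz, hzinj⟩ := afc_zs J hcom Q0 (lt_of_lt_of_le (hnum _ (by omega)) hδε)
  have hVJ : ∀ t ∈ J, t.1 ∈ afc_V F0 ∧ t.2.1 ∈ afc_V F0 ∧ t.2.2 ∈ afc_V F0 := by
    intro t ht
    have h1 : s(t.1, t.2.1) ∈ F0 := by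
      rw [← hJ.2.2]
      exact Finset.mem_biUnion.2 ⟨t, ht, afc_mem_chE.2 (Or.inl rfl)⟩
    have h2 : s(t.2.1, t.2.2) ∈ F0 := by
      rw [← hJ.2.2]
      exact Finset.mem_biUnion.2 ⟨t, ht, afc_mem_chE.2 (Or.inr rfl)⟩
    exact ⟨afc_mem_V.2 ⟨_, h1, Sym2.mem_mk_left _ _⟩, afc_mem_V.2 ⟨_, h1, Sym2.mem_mk_right _ _⟩,
      afc_mem_V.2 ⟨_, h2, Sym2.mem_mk_right _ _⟩⟩
  have hzQ : ∀ t ∈ J, z t ∉ Z ∧ z t ∉ X ∧ z t ∉ afc_V F0 := by
    intro t ht
    have h1 := (hz t ht).2.2.2
    simp only [hQ0, Finset.mem_union, not_or] at h1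
    exact ⟨h1.1.1, h1.1.2, h1.2⟩
  -- the cherries of `W`
  set I1 : Finset ((V × V × V) × Bool) := J ×ˢ Finset.univ with hI1
  set x1 : (V × V × V) × Bool → V := fun j => cond j.2 (z j.1) j.1.1 with hx1
  set y1 : (V × V × V) × Bool → V := fun j => cond j.2 j.1.2.2 (z j.1) with hy1
  have hI1c : I1.card = 2 * J.card := by
    rw [hI1, Finset.card_product]
    simp [mul_comm]
  have hI1J : ∀ j ∈ I1, j.1 ∈ J := fun j hj => (Finset.mem_product.1 hj).1
  have hG1 : ∀ j ∈ I1, Gam E U η (x1 j) (y1 j) := by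
    rintro ⟨t, b⟩ hj
    have ht := hI1J _ hj
    cases b
    · exact (hz t ht).2.1
    · exact (hz t ht).2.2.1
  set Q1 : Finset V := Q0 ∪ J.image z with hQ1
  have hQ1c : Q1.card ≤ Q0.card + J.card :=
    (Finset.card_union_le _ _).trans (Nat.add_le_add_left Finset.card_image_le _)
  obtain ⟨m1, hm1, hm1inj⟩ := afc_mids I1 x1 y1 hG1 Q1 (lt_of_lt_of_le (hnum _ (by omega)) hδη)
  -- ends of the cherries of `W`
  have hend1 : ∀ j ∈ I1, (x1 j ∈ afc_V F0 ∨ x1 j ∈ J.image z) ∧ (y1 j ∈ afc_V F0 ∨ y1 j ∈ J.image z) := by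
    rintro ⟨t, b⟩ hj
    have ht := hI1J _ hj
    cases b
    · exact ⟨Or.inl (hVJ t ht).1, Or.inr (Finset.mem_image_of_mem _ ht)⟩
    · exact ⟨Or.inr (Finset.mem_image_of_mem _ ht), Or.inl (hVJ t ht).2.2⟩
  have hm1Q : ∀ j ∈ I1, m1 j ∉ Z ∧ m1 j ∉ X ∧ m1 j ∉ afc_V F0 ∧ m1 j ∉ J.image z := by
    intro j hj
    have h1 := (hm1 j hj).2.2.2
    simp only [hQ1, hQ0, Finset.mem_union, not_or] at h1
    exact ⟨h1.1.1.1, h1.1.1.2, h1.1.2, h1.2⟩
  have hmx1 : ∀ j ∈ I1, ∀ j' ∈ I1, m1 j ≠ x1 j' ∧ m1 j ≠ y1 j' := by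
    intro j hj j' hj'
    have h1 := hm1Q j hj
    have h2 := hend1 j' hj'
    constructor
    · intro h
      rw [h] at h1
      rcases h2.1 with h3 | h3
      · exact h1.2.2.1 h3
      · exact h1.2.2.2 h3
    · intro h
      rw [h] at h1
      rcases h2.2 with h3 | h3
      · exact h1.2.2.1 h3
      · exact h1.2.2.2 h3
  set W : Finset (Sym2 V) := I1.biUnion (fun j => chE (x1 j, m1 j, y1 j)) with hW
  have hWE : W ⊆ E := by
    intro e he
    obtain ⟨j, hj, he⟩ := Finset.mem_biUnion.1 he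
    rcases afc_mem_chE.1 he with rfl | rfl
    · exact (hm1 j hj).2.1
    · exact (hm1 j hj).2.2.1
  have hF0W : Disjoint F0 W := by
    rw [Finset.disjoint_left]
    intro e he he'
    obtain ⟨j, hj, he'⟩ := Finset.mem_biUnion.1 he'
    exact (hm1Q j hj).2.2.1 (afc_mem_V.2 ⟨e, he, afc_mid he'⟩)
  have hdis1 := afc_disj hm1inj hmx1
  have hDec1 : Dec (F0 ∪ W) := by
    have h1 : F0 ∪ W = J.biUnion (fun t => chE t ∪ (chE (t.1, m1 (t, false), z t) ∪
        chE (z t, m1 (t, true), t.2.2))) := by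
      rw [← hJ.2.2, hW, hI1]
      ext e
      rw [Finset.mem_union, Finset.mem_biUnion, Finset.mem_biUnion, Finset.mem_biUnion]
      constructor
      · rintro (⟨t, ht, he⟩ | ⟨⟨t, b⟩, hj, he⟩)
        · exact ⟨t, ht, Finset.mem_union.2 (Or.inl he)⟩
        · have ht := (Finset.mem_product.1 hj).1
          cases b
          · exact ⟨t, ht, Finset.mem_union.2 (Or.inr (Finset.mem_union.2 (Or.inl he)))⟩
          · exact ⟨t, ht, Finset.mem_union.2 (Or.inr (Finset.mem_union.2 (Or.inr he)))⟩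
      · rintro ⟨t, ht, he⟩
        rw [Finset.mem_union, Finset.mem_union] at he
        rcases he with he | he | he
        · exact Or.inl ⟨t, ht, he⟩
        · exact Or.inr ⟨(t, false), Finset.mem_product.2 ⟨ht, Finset.mem_univ _⟩, he⟩
        · exact Or.inr ⟨(t, true), Finset.mem_product.2 ⟨ht, Finset.mem_univ _⟩, he⟩
    have hmemI : ∀ t ∈ J, ∀ b, (t, b) ∈ I1 := fun t ht b =>
      Finset.mem_product.2 ⟨ht, Finset.mem_univ _⟩
    rw [h1]
    refine Dec.biUnion ?_ ?_
    · intro t ht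
      have hd := hJ.1 t ht
      have hv := hVJ t ht
      have hzt := hzQ t ht
      have hf := hm1Q (t, false) (hmemI t ht false)
      have hg := hm1Q (t, true) (hmemI t ht true)
      have hzi : z t ∈ J.image z := Finset.mem_image_of_mem _ ht
      have hfg : m1 (t, true) ≠ m1 (t, false) := by
        intro h
        have := hm1inj _ (hmemI t ht true) _ (hmemI t ht false) h
        simp at this
      refine (afc_isC6 (m2 := m1 (t, true)) (z := z t) (m1 := m1 (t, false)) hd.1 hd.2.2 (fun h => hg.2.2.1 (h ▸ hv.1)) (fun h => hzt.2.2 (h ▸ hv.1))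
        (fun h => hf.2.2.1 (h ▸ hv.1)) hd.2.1 (fun h => hg.2.2.1 (h ▸ hv.2.1))
        (fun h => hzt.2.2 (h ▸ hv.2.1)) (fun h => hf.2.2.1 (h ▸ hv.2.1))
        (fun h => hg.2.2.1 (h ▸ hv.2.2)) (fun h => hzt.2.2 (h ▸ hv.2.2))
        (fun h => hf.2.2.1 (h ▸ hv.2.2)) (fun h => hg.2.2.2 (h ▸ hzi)) hfg
        (fun h => hf.2.2.2 (h ▸ hzi))).dec
    · intro t ht t' ht' hne
      rw [Finset.disjoint_left]
      intro e he he'
      have hcase : ∀ s ∈ J, e ∈ chE s ∪ (chE (s.1, m1 (s, false), z s) ∪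
          chE (z s, m1 (s, true), s.2.2)) → e ∈ chE s ∨
            ∃ b, e ∈ chE (x1 (s, b), m1 (s, b), y1 (s, b)) := by
        intro s hs hes
        rw [Finset.mem_union, Finset.mem_union] at hes
        rcases hes with hes | hes | hes
        · exact Or.inl hes
        · exact Or.inr ⟨false, hes⟩
        · exact Or.inr ⟨true, hes⟩
      have hF : ∀ s ∈ J, e ∈ chE s → e ∈ F0 := by
        intro s hs hes
        rw [← hJ.2.2]
        exact Finset.mem_biUnion.2 ⟨s, hs, hes⟩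
      have hWm : ∀ s ∈ J, ∀ b, e ∈ chE (x1 (s, b), m1 (s, b), y1 (s, b)) → e ∈ W := by
        intro s hs b hes
        exact Finset.mem_biUnion.2 ⟨(s, b), hmemI s hs b, hes⟩
      rcases hcase t ht he with h2 | ⟨b, h2⟩ <;> rcases hcase t' ht' he' with h3 | ⟨b', h3⟩
      · exact Finset.disjoint_left.1 (hJ.2.1 t ht t' ht' hne) h2 h3
      · exact Finset.disjoint_left.1 hF0W (hF t ht h2) (hWm t' ht' b' h3)
      · exact Finset.disjoint_left.1 hF0W (hF t' ht' h3) (hWm t ht b h2)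
      · refine Finset.disjoint_left.1 (hdis1 (t, b) (hmemI t ht b) (t', b') (hmemI t' ht' b') ?_) h2 h3
        intro h
        exact hne (congrArg Prod.fst h)
  -- the multiset of ends
  have hinj1 : Set.InjOn (fun j => (x1 j, m1 j, y1 j)) (I1 : Set ((V × V × V) × Bool)) := by
    intro j hj j' hj' h
    exact hm1inj j hj j' hj' (congrArg (fun q : V × V × V => q.2.1) h)
  set J' : Finset (V × V × V) := I1.image (fun j => (x1 j, m1 j, y1 j)) with hJ'
  have hJ'W : J'.biUnion chE = W := by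
    rw [hJ', Finset.image_biUnion]
  have hmap : J'.val.map (fun t => s(t.1, t.2.2)) = I1.val.map (fun j => s(x1 j, y1 j)) := by
    rw [hJ', Finset.image_val_of_injOn hinj1, Multiset.map_map]
    rfl
  have hπw := hπ J' (by
      intro t ht
      obtain ⟨j, hj, rfl⟩ := Finset.mem_image.1 ht
      exact ⟨fun h => (hmx1 j hj j hj).1 h.symm, (hmx1 j hj j hj).2, (hG1 j hj).1⟩) (by
      intro t ht t' ht' hne
      obtain ⟨j, hj, rfl⟩ := Finset.mem_image.1 ht
      obtain ⟨j', hj', rfl⟩ := Finset.mem_image.1 ht'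
      exact hdis1 j hj j' hj' (fun h => hne (by rw [h])))
    (by rw [hJ'W]; exact hWE) (by rw [hJ'W]; exact hF0W) (by rw [hJ'W]; exact hDec1)
  rw [hmap] at hπw
  set w : Multiset (Sym2 V) := I1.val.map (fun j => s(x1 j, y1 j)) with hw
  have hwc : w.card = F0.card := by
    rw [hw, Multiset.card_map, hFJ]
    exact hI1c
  have hEvW : EvenDeg W := by
    have h1 := EvenDeg.sdiff hDec1.even hF0ev Finset.subset_union_left
    rwa [Finset.union_sdiff_cancel_left hF0W] at h1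
  have hweven : ∀ v, Even (w.countP (fun e => v ∈ e)) := by
    intro v
    rw [hw, Multiset.countP_map]
    exact afc_parity hm1inj hmx1 (fun j hj => (hG1 j hj).1) hEvW v
  have hends : ∀ j ∈ I1, x1 j ∈ S ∧ y1 j ∈ S := by
    rintro ⟨t, b⟩ hj
    have ht := hI1J _ hj
    cases b
    · exact ⟨(hJS t ht).1, (hz t ht).1⟩
    · exact ⟨(hz t ht).1, (hJS t ht).2⟩
  obtain ⟨Tp, Tm, hTp, hTm, hTml, hTT⟩ := hsolv w (Z ∪ I1.image m1) (by
      have h1 : ((Z ∪ I1.image m1).card : ℝ) < δ * U.card := hnum _ (by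
        have h2 := Finset.card_union_le Z (I1.image m1)
        have h3 : (I1.image m1).card ≤ I1.card := Finset.card_image_le
        omega)
      linarith) (by
      intro e he
      obtain ⟨j, hj, rfl⟩ := Multiset.mem_map.1 he
      exact ⟨x1 j, y1 j, rfl, (hends j hj).1, (hends j hj).2, hG1 j hj⟩) hweven (by
      rw [hwc]
      exact dvd_trans (by norm_num) hF06) hπw
  -- vertices of the pairs of `w`
  have hwv : ∀ e ∈ w, ∀ v ∈ e, (v ∈ afc_V F0 ∨ v ∈ J.image z) := by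
    intro e he v hv
    obtain ⟨j, hj, rfl⟩ := Multiset.mem_map.1 he
    rcases Sym2.mem_iff.1 hv with rfl | rfl
    · exact (hend1 j hj).1
    · exact (hend1 j hj).2
  have hQm : ∀ v, (v ∈ S ∧ (v ∉ Z ∪ I1.image m1 ∨ ∃ e ∈ w, v ∈ e)) → ∀ j ∈ I1, m1 j ≠ v := by
    rintro v ⟨_, hv⟩ j hj rfl
    rcases hv with hv | ⟨e, he, hv⟩
    · exact hv (Finset.mem_union_right _ (Finset.mem_image_of_mem _ hj))
    · rcases hwv e he _ hv with h | h
      · exact (hm1Q j hj).2.2.1 h
      · exact (hm1Q j hj).2.2.2 h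
  have hXZ : ∀ v, (v ∈ afc_V F0 ∨ v ∈ J.image z) → v ∉ X → v ∉ Z := by
    intro v hv hvX
    rcases hv with hv | hv
    · obtain ⟨e, he, hve⟩ := afc_mem_V.1 hv
      exact hF0Z e he v hve hvX
    · obtain ⟨t, ht, rfl⟩ := Finset.mem_image.1 hv
      exact (hzQ t ht).1
  have hQZ : ∀ v, (v ∈ S ∧ (v ∉ Z ∪ I1.image m1 ∨ ∃ e ∈ w, v ∈ e)) → v ∉ X → v ∉ Z := by
    rintro v ⟨_, hv⟩ hvX
    rcases hv with hv | ⟨e, he, hv⟩
    · exact fun h => hv (Finset.mem_union_left _ h)
    · exact hXZ v (hwv e he v hv) hvX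
  -- the sides of the triangles of `Tm`
  have hrep : ∀ e : Sym2 V, ∃ p : V × V, s(p.1, p.2) = e := by
    intro e
    induction e using Sym2.ind with
    | _ a b => exact ⟨(a, b), rfl⟩
  choose rep hrep using hrep
  set I2 : Finset (Sym2 V × ℕ) := (bd Tm).toEnumFinset with hI2
  set x2 : Sym2 V × ℕ → V := fun j => (rep j.1).1 with hx2
  set y2 : Sym2 V × ℕ → V := fun j => (rep j.1).2 with hy2
  have hxy2 : ∀ j, s(x2 j, y2 j) = j.1 := fun j => hrep j.1
  have hmap2 : I2.val.map (fun j => s(x2 j, y2 j)) = bd Tm := by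
    rw [Multiset.map_congr rfl (fun j _ => hxy2 j)]
    exact Multiset.map_toEnumFinset_fst _
  have hI2c : I2.card = 3 * Tm.length := by
    rw [← afc_card_bd, ← hmap2, Multiset.card_map]
    rfl
  have hI2c' : I2.card ≤ 3 * (k0 * k) := by
    rw [hI2c]
    refine Nat.mul_le_mul_left 3 (hTml.trans ?_)
    rw [hwc]
    exact Nat.mul_le_mul_left _ hF0k
  have hG2 : ∀ j ∈ I2, Gam E U η (x2 j) (y2 j) ∧
      (x2 j ∈ S ∧ (x2 j ∉ Z ∪ I1.image m1 ∨ ∃ e ∈ w, x2 j ∈ e)) ∧
      (y2 j ∈ S ∧ (y2 j ∉ Z ∪ I1.image m1 ∨ ∃ e ∈ w, y2 j ∈ e)) := by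
    intro j hj
    have h1 := Multiset.mem_of_mem_toEnumFinset hj
    obtain ⟨t, ht, h2⟩ := afc_mem_bd h1
    obtain ⟨g1, g2, g3, q1, q2, q3⟩ := hTm t ht
    rw [← hxy2 j] at h2
    rcases h2 with h2 | h2 | h2 <;> rw [Sym2.eq_iff] at h2 <;>
      rcases h2 with ⟨h2, h3⟩ | ⟨h2, h3⟩ <;> rw [h2, h3]
    · exact ⟨g1, q1, q2⟩
    · exact ⟨g1.symm, q2, q1⟩
    · exact ⟨g2, q2, q3⟩
    · exact ⟨g2.symm, q3, q2⟩
    · exact ⟨g3, q3, q1⟩
    · exact ⟨g3.symm, q1, q3⟩
  set Q2 : Finset V := Q1 ∪ I1.image m1 ∪ (I2.image x2 ∪ I2.image y2) with hQ2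
  have hQ2c : Q2.card ≤ Q1.card + I1.card + (I2.card + I2.card) := by
    refine (Finset.card_union_le _ _).trans (Nat.add_le_add ?_ ?_)
    · exact (Finset.card_union_le _ _).trans (Nat.add_le_add_left Finset.card_image_le _)
    · exact (Finset.card_union_le _ _).trans (Nat.add_le_add Finset.card_image_le
        Finset.card_image_le)
  obtain ⟨m2, hm2, hm2inj⟩ := afc_mids I2 x2 y2 (fun j hj => (hG2 j hj).1) Q2
    (lt_of_lt_of_le (hnum _ (by omega)) hδη)
  have hm2Q : ∀ j ∈ I2, m2 j ∉ Z ∧ m2 j ∉ X ∧ m2 j ∉ afc_V F0 ∧ m2 j ∉ J.image z ∧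
      m2 j ∉ I1.image m1 ∧ m2 j ∉ I2.image x2 ∧ m2 j ∉ I2.image y2 := by
    intro j hj
    have h1 := (hm2 j hj).2.2.2
    simp only [hQ2, hQ1, hQ0, Finset.mem_union, not_or] at h1
    exact ⟨h1.1.1.1.1.1, h1.1.1.1.1.2, h1.1.1.1.2, h1.1.1.2, h1.1.2, h1.2.1, h1.2.2⟩
  have hmx2 : ∀ j ∈ I2, ∀ j' ∈ I2, m2 j ≠ x2 j' ∧ m2 j ≠ y2 j' := by
    intro j hj j' hj'
    have h1 := hm2Q j hj
    exact ⟨fun h => h1.2.2.2.2.2.1 (h ▸ Finset.mem_image_of_mem _ hj'),
      fun h => h1.2.2.2.2.2.2 (h ▸ Finset.mem_image_of_mem _ hj')⟩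
  have hmx21 : ∀ j ∈ I2, ∀ j' ∈ I1, m2 j ≠ x1 j' ∧ m2 j ≠ m1 j' ∧ m2 j ≠ y1 j' := by
    intro j hj j' hj'
    have h1 := hm2Q j hj
    have h2 := hend1 j' hj'
    refine ⟨fun h => ?_, fun h => h1.2.2.2.2.1 (h ▸ Finset.mem_image_of_mem _ hj'), fun h => ?_⟩
    · rw [h] at h1
      rcases h2.1 with h3 | h3
      · exact h1.2.2.1 h3
      · exact h1.2.2.2.1 h3
    · rw [h] at h1
      rcases h2.2 with h3 | h3
      · exact h1.2.2.1 h3
      · exact h1.2.2.2.1 h3
  have hmx12 : ∀ j ∈ I1, ∀ j' ∈ I2, m1 j ≠ x2 j' ∧ m1 j ≠ y2 j' := by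
    intro j hj j' hj'
    exact ⟨hQm _ (hG2 j' hj').2.1 j hj, hQm _ (hG2 j' hj').2.2 j hj⟩
  set R : Finset (Sym2 V) := I2.biUnion (fun j => chE (x2 j, m2 j, y2 j)) with hR
  have hRE : R ⊆ E := by
    intro e he
    obtain ⟨j, hj, he⟩ := Finset.mem_biUnion.1 he
    rcases afc_mem_chE.1 he with rfl | rfl
    · exact (hm2 j hj).2.1
    · exact (hm2 j hj).2.2.1
  have hF0R : Disjoint F0 R := by
    rw [Finset.disjoint_left]
    intro e he he'
    obtain ⟨j, hj, he'⟩ := Finset.mem_biUnion.1 he'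
    exact (hm2Q j hj).2.2.1 (afc_mem_V.2 ⟨e, he, afc_mid he'⟩)
  have hWR : Disjoint W R := by
    rw [Finset.disjoint_left]
    intro e he he'
    obtain ⟨j', hj', he⟩ := Finset.mem_biUnion.1 he
    obtain ⟨j, hj, he'⟩ := Finset.mem_biUnion.1 he'
    have h1 := hmx21 j hj j' hj'
    rcases afc_ends he (afc_mid he') with h | h | h
    · exact h1.1 h
    · exact h1.2.1 h
    · exact h1.2.2 h
  have htri : ∀ (T : List (V × V × V)) (Q : Set V), (∀ t ∈ T, GTri (Gam E U η) Q t) →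
      ∀ t ∈ T, t.1 ≠ t.2.1 ∧ t.2.1 ≠ t.2.2 ∧ t.2.2 ≠ t.1 := by
    intro T Q hT t ht
    exact ⟨(hT t ht).1.1, (hT t ht).2.1.1, (hT t ht).2.2.1.1⟩
  have hDecR : Dec R := regroup I2 x2 m2 y2 Tm hm2inj hmx2 (htri _ _ hTm) hmap2
  have hDecWR : Dec (W ∪ R) := by
    have h1 := regroup (I1.disjSum I2) (Sum.elim x1 x2) (Sum.elim m1 m2) (Sum.elim y1 y2) Tp
      (by
        intro j hj j' hj' h
        rcases j with j | j <;> rcases j' with j' | j'
        · rw [Finset.inl_mem_disjSum] at hj hj'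
          exact congrArg Sum.inl (hm1inj j hj j' hj' h)
        · rw [Finset.inl_mem_disjSum] at hj
          rw [Finset.inr_mem_disjSum] at hj'
          exact absurd h.symm (hmx21 j' hj' j hj).2.1
        · rw [Finset.inr_mem_disjSum] at hj
          rw [Finset.inl_mem_disjSum] at hj'
          exact absurd h (hmx21 j hj j' hj').2.1
        · rw [Finset.inr_mem_disjSum] at hj hj'
          exact congrArg Sum.inr (hm2inj j hj j' hj' h))
      (by
        intro j hj j' hj'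
        rcases j with j | j <;> rcases j' with j' | j'
        · rw [Finset.inl_mem_disjSum] at hj hj'
          exact hmx1 j hj j' hj'
        · rw [Finset.inl_mem_disjSum] at hj
          rw [Finset.inr_mem_disjSum] at hj'
          exact hmx12 j hj j' hj'
        · rw [Finset.inr_mem_disjSum] at hj
          rw [Finset.inl_mem_disjSum] at hj'
          exact ⟨(hmx21 j hj j' hj').1, (hmx21 j hj j' hj').2.2⟩
        · rw [Finset.inr_mem_disjSum] at hj hj'
          exact hmx2 j hj j' hj')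
      (htri _ _ hTp) (by
        rw [← hTT, ← hmap2, hw, Finset.val_disjSum, Multiset.disjSum, Multiset.map_add,
          Multiset.map_map, Multiset.map_map]
        rfl)
    have h2 : (I1.disjSum I2).biUnion (fun j => chE (Sum.elim x1 x2 j, Sum.elim m1 m2 j,
        Sum.elim y1 y2 j)) = W ∪ R := by
      ext e
      rw [Finset.mem_union, Finset.mem_biUnion, Finset.mem_biUnion, Finset.mem_biUnion]
      constructor
      · rintro ⟨j, hj, he⟩
        rcases j with j | j
        · rw [Finset.inl_mem_disjSum] at hj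
          exact Or.inl ⟨j, hj, he⟩
        · rw [Finset.inr_mem_disjSum] at hj
          exact Or.inr ⟨j, hj, he⟩
      · rintro (⟨j, hj, he⟩ | ⟨j, hj, he⟩)
        · exact ⟨Sum.inl j, Finset.inl_mem_disjSum.2 hj, he⟩
        · exact ⟨Sum.inr j, Finset.inr_mem_disjSum.2 hj, he⟩
    rwa [h2] at h1
  refine ⟨W, R, hWE, hRE, hF0W, hF0R, hWR, hDec1, hDecR, hDecWR, ?_, ?_, ?_⟩
  · intro e he heX
    rw [Finset.mem_sym2_iff] at heX
    rcases Finset.mem_union.1 he with he | he
    · obtain ⟨j, hj, he⟩ := Finset.mem_biUnion.1 he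
      exact (hm1Q j hj).2.1 (heX _ (afc_mid he))
    · obtain ⟨j, hj, he⟩ := Finset.mem_biUnion.1 he
      exact (hm2Q j hj).2.1 (heX _ (afc_mid he))
  · intro e he v hv hvX
    rcases Finset.mem_union.1 he with he | he
    · obtain ⟨j, hj, he⟩ := Finset.mem_biUnion.1 he
      rcases afc_ends he hv with h | h | h
      · rw [h] at hvX ⊢
        exact hXZ _ (hend1 j hj).1 hvX
      · rw [h]
        exact (hm1Q j hj).1
      · rw [h] at hvX ⊢
        exact hXZ _ (hend1 j hj).2 hvX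
    · obtain ⟨j, hj, he⟩ := Finset.mem_biUnion.1 he
      rcases afc_ends he hv with h | h | h
      · rw [h] at hvX ⊢
        exact hQZ _ (hG2 j hj).2.1 hvX
      · rw [h]
        exact (hm2Q j hj).1
      · rw [h] at hvX ⊢
        exact hQZ _ (hG2 j hj).2.2 hvX
  · have h1 : W.card ≤ I1.card * 2 :=
      Finset.card_biUnion_le.trans (Finset.sum_le_card_nsmul _ _ _ fun j _ => afc_card_chE_le _)
    have h2 : R.card ≤ I2.card * 2 :=
      Finset.card_biUnion_le.trans (Finset.sum_le_card_nsmul _ _ _ fun j _ => afc_card_chE_le _)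
    omega

end H15C6
end S_AFC

section S_ABN1
/-!
Module ABN1 (part of ABN).  Absorbers in graphs with the robust K4 property (non-bipartite case), and in bipartite
graphs.

`absorb_nb`: for `H` with even degrees and `6 ∣ |H|`: choose a hub `w0 ∉ Z` (`hhub`), `hub_cherries` gives `N, J`;
`F0 := H ∪ N` (`|N| ≤ 6M`, `6 ∣ |N|` by `Dec.six_dvd`, even degrees, `|H| ≤ (M+1)^2`).  `absorb_from_cherries`
with `S = U`, `π = fun _ => True`, `k0 = 100`: the common neighbour hypothesis and the `Solv` hypothesis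
follow from `hK4` (`K4Prop (Gam E U η) S Q` for `S = ↑U`, `Q = {v | v ∈ U ∧ (v ∉ Z' ∨ ..)}`) and `alg_nb`.
`A := N ∪ W ∪ R`; `Dec A = Dec N + Dec (W ∪ R)`, `Dec (A ∪ H) = Dec (F0 ∪ W) + Dec R`.
The hypothesis `hhub` of this theorem is used with sets `Q`, `|Q| < ζ|U|`.

`absorb_bip`: `E` has all its edges between the disjoint sets `A` and `B`.  `N = ∅`; `J` from `cherry_pairing` with
centre the end in `B` (all counts are even degrees of `H`), so ends of cherries are in `A`;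
`S = A`, `π = True`; `K4Prop` on `S = ↑A`.
-/

open Finset

namespace H15C6

theorem absorb_nb (η ζ ε0 : ℝ) (hη : 0 < η) (hζ : 0 < ζ) (hε0 : 0 < ε0) :
    ∃ ε : ℝ, 0 < ε ∧ ∀ M : ℕ, ∃ C n0 : ℕ, ∀ (V : Type) [Fintype V] [DecidableEq V]
      (U : Finset V) (E : Finset (Sym2 V)), n0 ≤ U.card → E ⊆ U.sym2 → Loopless E →
      (∀ x1 ∈ U, ∀ x2 ∈ U, ∀ x3 ∈ U, ∀ x4 ∈ U, ∀ Z : Finset V, (Z.card : ℝ) ≤ ε0 * U.card →
        ∃ z ∈ U, ∃ w ∈ U, z ∉ Z ∧ w ∉ Z ∧ Gam E U η z w ∧
          (Gam E U η z x1 ∧ Gam E U η z x2 ∧ Gam E U η z x3 ∧ Gam E U η z x4) ∧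
          (Gam E U η w x1 ∧ Gam E U η w x2 ∧ Gam E U η w x3 ∧ Gam E U η w x4)) →
      (∀ Z : Finset V, (Z.card : ℝ) ≤ ε0 * U.card → ∃ w0 ∈ U, w0 ∉ Z ∧ ∀ x ∈ U, x ≠ w0 →
        ∀ Q : Finset V, (Q.card : ℝ) < ζ * U.card →
          ∃ q ∈ U, q ∉ Q ∧ s(x, q) ∈ E ∧ Gam E U η q w0) →
      Absorbs U E (fun H => EvenDeg H ∧ 6 ∣ H.card) ε M C := by
  obtain ⟨εh, hεh, hub⟩ := hub_cherries ζ η hζ hη
  obtain ⟨εa, hεa, afc⟩ := absorb_from_cherries η ε0 hη hε0 100
  refine ⟨min (min εh εa) ε0, lt_min (lt_min hεh hεa) hε0, ?_⟩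
  intro M
  obtain ⟨nh, hub⟩ := hub M
  obtain ⟨C0, na, afc⟩ := afc ((M + 1) ^ 2 + 6 * M)
  refine ⟨C0 + 6 * M, max nh na, ?_⟩
  intro V _ _ U E hn hEU hlE hK4 hhub X Z hXU hXM hZ H hHE hHX hP
  obtain ⟨hHeven, hH6⟩ := hP
  have hUnn : (0 : ℝ) ≤ U.card := Nat.cast_nonneg _
  have hZh : (Z.card : ℝ) ≤ εh * U.card := hZ.trans
    (mul_le_mul_of_nonneg_right ((min_le_left _ _).trans (min_le_left _ _)) hUnn)
  have hZa : (Z.card : ℝ) ≤ εa * U.card := hZ.trans
    (mul_le_mul_of_nonneg_right ((min_le_left _ _).trans (min_le_right _ _)) hUnn)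
  have hZ0 : (Z.card : ℝ) ≤ ε0 * U.card := hZ.trans
    (mul_le_mul_of_nonneg_right (min_le_right _ _) hUnn)
  obtain ⟨w0, hw0U, hw0Z, hw0⟩ := hhub Z hZ0
  have h2 : 2 ∣ H.card := dvd_trans (by norm_num) hH6
  obtain ⟨N, J, hNE, hHN, hND, hJ, hNX, hNZ, hNc⟩ := hub V U E X Z H w0
    ((le_max_left _ _).trans hn) hEU hlE hXU hXM hZh hHE hHX hHeven h2 hw0U hw0Z hw0
  have hF0E : H ∪ N ⊆ E := Finset.union_subset hHE hNE
  have hHc : H.card ≤ (M + 1) ^ 2 := by
    calc H.card ≤ X.sym2.card := Finset.card_le_card hHX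
      _ = (X.card + 1).choose 2 := Finset.card_sym2 X
      _ ≤ (X.card + 1) ^ 2 := Nat.choose_le_pow _ _
      _ ≤ (M + 1) ^ 2 := Nat.pow_le_pow_left (by omega) 2
  have hF0c : (H ∪ N).card ≤ (M + 1) ^ 2 + 6 * M := by
    rw [Finset.card_union_of_disjoint hHN]
    have : N.card ≤ 6 * M := hNc.trans (by omega)
    omega
  have hF06 : 6 ∣ (H ∪ N).card := by
    rw [Finset.card_union_of_disjoint hHN]
    exact dvd_add hH6 hND.six_dvd
  have hF0e : EvenDeg (H ∪ N) := hHeven.union hND.even hHN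
  have hF0Z : ∀ e ∈ H ∪ N, ∀ x ∈ e, x ∉ X → x ∉ Z := by
    intro e he x hx hxX
    rw [Finset.mem_union] at he
    rcases he with he | he
    · exact absurd (Finset.mem_sym2_iff.1 (hHX he) x hx) hxX
    · exact hNZ e he x hx hxX
  have hends : ∀ t ∈ J, t.1 ∈ U ∧ t.2.2 ∈ U := by
    intro t ht
    have h1 : ∀ f ∈ chE t, f ∈ U.sym2 := by
      intro f hf
      apply hEU
      apply hF0E
      rw [← hJ.2.2]
      exact Finset.mem_biUnion.2 ⟨t, ht, hf⟩
    have h3 := h1 s(t.1, t.2.1) (by simp [chE])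
    have h4 := h1 s(t.2.1, t.2.2) (by simp [chE])
    rw [Finset.mk_mem_sym2_iff] at h3 h4
    exact ⟨h3.1, h4.2⟩
  obtain ⟨W, R, hWE, hRE, hFW, hFR, hWR, hD1, hD2, hD3, hX1, hZ1, hc1⟩ := afc V U U E
    (fun _ => True) X Z (H ∪ N) J ((le_max_right _ _).trans hn) hEU hlE (Finset.Subset.refl U) hXU
    (hXM.trans (by nlinarith [sq_nonneg M])) hZa hF0E hF0e hF06 hF0c hJ hends hF0Z
    (by
      intro t ht Z' hZ'
      obtain ⟨h1, h3⟩ := hends t ht
      obtain ⟨z, hz, w, hw, hzZ, _, _, ⟨g1, g2, _, _⟩, _⟩ :=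
        hK4 t.1 h1 t.2.2 h3 t.1 h1 t.2.2 h3 Z' hZ'
      exact ⟨z, hz, hzZ, g1.symm, g2⟩)
    (by
      intro w Z' hZ' hw hev h3 _
      apply alg_nb (Gam E U η) (fun x y hxy => hxy.symm) (fun x => Gam.irrefl) (↑U : Set V) _
      · intro x1 hx1 x2 hx2 x3 hx3 x4 hx4
        obtain ⟨z, hz, w', hw', hzZ, hwZ, g0, g1, g2⟩ :=
          hK4 x1 (by simpa using hx1) x2 (by simpa using hx2) x3 (by simpa using hx3) x4
            (by simpa using hx4) Z' hZ'
        refine ⟨z, w', by simpa using hz, by simpa using hw', ?_, ?_, g0, g1, g2⟩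
        · exact ⟨hz, Or.inl hzZ⟩
        · exact ⟨hw', Or.inl hwZ⟩
      · intro e he
        obtain ⟨x, y, rfl, hx, hy, hxy⟩ := hw e he
        refine ⟨x, y, rfl, by simpa using hx, ?_, by simpa using hy, ?_, hxy⟩
        · exact ⟨hx, Or.inr ⟨_, he, Sym2.mem_mk_left _ _⟩⟩
        · exact ⟨hy, Or.inr ⟨_, he, Sym2.mem_mk_right _ _⟩⟩
      · exact hev
      · exact h3)
    (fun _ _ _ _ _ _ => trivial)
  have hNW : Disjoint N W := (Finset.disjoint_union_left.1 hFW).2
  have hNR : Disjoint N R := (Finset.disjoint_union_left.1 hFR).2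
  have hHW : Disjoint H W := (Finset.disjoint_union_left.1 hFW).1
  have hHR : Disjoint H R := (Finset.disjoint_union_left.1 hFR).1
  refine ⟨N ∪ (W ∪ R), Finset.union_subset hNE (Finset.union_subset hWE hRE), ?_, ?_, ?_, ?_, ?_⟩
  · exact hND.union hD3 (Finset.disjoint_union_right.2 ⟨hNW, hNR⟩)
  · have h5 : N ∪ (W ∪ R) ∪ H = (H ∪ N ∪ W) ∪ R := by
      ext e
      simp only [Finset.mem_union]
      tauto
    rw [h5]
    refine hD1.union hD2 ?_
    rw [Finset.disjoint_union_left]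
    exact ⟨hFR, hWR⟩
  · intro e he
    rw [Finset.mem_union] at he
    rcases he with he | he
    · exact hNX e he
    · exact hX1 e he
  · intro e he x hx hxX
    rw [Finset.mem_union] at he
    rcases he with he | he
    · exact hNZ e he x hx hxX
    · exact hZ1 e he x hx hxX
  · calc (N ∪ (W ∪ R)).card ≤ N.card + (W ∪ R).card := Finset.card_union_le _ _
      _ ≤ N.card + (W.card + R.card) := by
        have := Finset.card_union_le W R
        omega
      _ ≤ C0 + 6 * M := by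
        have : N.card ≤ 6 * M := hNc.trans (by omega)
        omega

end H15C6
end S_ABN1

section S_ABN2
/-!
Module ABN2 (part of ABN).  Absorbers in graphs with the robust K4 property (non-bipartite case), and in bipartite
graphs.

`absorb_nb`: for `H` with even degrees and `6 ∣ |H|`: choose a hub `w0 ∉ Z` (`hhub`), `hub_cherries` gives `N, J`;
`F0 := H ∪ N` (`|N| ≤ 6M`, `6 ∣ |N|` by `Dec.six_dvd`, even degrees, `|H| ≤ (M+1)^2`).  `absorb_from_cherries`
with `S = U`, `π = fun _ => True`, `k0 = 100`: the common neighbour hypothesis and the `Solv` hypothesis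
follow from `hK4` (`K4Prop (Gam E U η) S Q` for `S = ↑U`, `Q = {v | v ∈ U ∧ (v ∉ Z' ∨ ..)}`) and `alg_nb`.
`A := N ∪ W ∪ R`; `Dec A = Dec N + Dec (W ∪ R)`, `Dec (A ∪ H) = Dec (F0 ∪ W) + Dec R`.
The hypothesis `hhub` of this theorem is used with sets `Q`, `|Q| < ζ|U|`.

`absorb_bip`: `E` has all its edges between the disjoint sets `A` and `B`.  `N = ∅`; `J` from `cherry_pairing` with
centre the end in `B` (all counts are even degrees of `H`), so ends of cherries are in `A`;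
`S = A`, `π = True`; `K4Prop` on `S = ↑A`.
-/

open Finset

namespace H15C6

theorem absorb_bip (η ε0 : ℝ) (hη : 0 < η) (hε0 : 0 < ε0) :
    ∃ ε : ℝ, 0 < ε ∧ ∀ M : ℕ, ∃ C n0 : ℕ, ∀ (V : Type) [Fintype V] [DecidableEq V]
      (U A B : Finset V) (E : Finset (Sym2 V)), n0 ≤ U.card → Disjoint A B → U = A ∪ B →
      (∀ e ∈ E, ∃ a b, e = s(a, b) ∧ a ∈ A ∧ b ∈ B) →
      (∀ x1 ∈ A, ∀ x2 ∈ A, ∀ x3 ∈ A, ∀ x4 ∈ A, ∀ Z : Finset V, (Z.card : ℝ) ≤ ε0 * U.card →
        ∃ z ∈ A, ∃ w ∈ A, z ∉ Z ∧ w ∉ Z ∧ Gam E U η z w ∧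
          (Gam E U η z x1 ∧ Gam E U η z x2 ∧ Gam E U η z x3 ∧ Gam E U η z x4) ∧
          (Gam E U η w x1 ∧ Gam E U η w x2 ∧ Gam E U η w x3 ∧ Gam E U η w x4)) →
      Absorbs U E (fun H => EvenDeg H ∧ 6 ∣ H.card) ε M C := by
  obtain ⟨εa, hεa, afc⟩ := absorb_from_cherries η ε0 hη hε0 100
  refine ⟨min εa ε0, lt_min hεa hε0, ?_⟩
  intro M
  obtain ⟨C0, na, afc⟩ := afc ((M + 1) ^ 2 + 6 * M)
  refine ⟨C0, na, ?_⟩
  intro V _ _ U A B E hn hAB hU hE hK4 X Z hXU hXM hZ H hHE hHX hP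
  obtain ⟨hHeven, hH6⟩ := hP
  have hUnn : (0 : ℝ) ≤ U.card := Nat.cast_nonneg _
  have hZa : (Z.card : ℝ) ≤ εa * U.card := hZ.trans
    (mul_le_mul_of_nonneg_right (min_le_left _ _) hUnn)
  have hAU : A ⊆ U := by
    rw [hU]
    exact Finset.subset_union_left
  have hnAB : ∀ x, x ∈ A → x ∉ B := fun x hx hxB => (Finset.disjoint_left.1 hAB) hx hxB
  have hEU : E ⊆ U.sym2 := by
    intro e he
    obtain ⟨a, b, rfl, ha, hb⟩ := hE e he
    rw [Finset.mk_mem_sym2_iff, hU]
    exact ⟨Finset.mem_union_left _ ha, Finset.mem_union_right _ hb⟩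
  have hlE : Loopless E := by
    intro x hx
    obtain ⟨a, b, hab, ha, hb⟩ := hE _ hx
    rw [Sym2.eq_iff] at hab
    rcases hab with ⟨h1, h2⟩ | ⟨h1, h2⟩
    · exact hnAB a ha (by rw [← h1, h2]; exact hb)
    · exact hnAB a ha (by rw [← h2, h1]; exact hb)
  have hlH : Loopless H := hlE.mono hHE
  -- the centre of an edge
  let ctr : Sym2 V → V := fun e => if h : ∃ b ∈ B, b ∈ e then h.choose else (Quot.out e).1
  have hctrB : ∀ e : Sym2 V, (∃ b ∈ B, b ∈ e) → ctr e ∈ B ∧ ctr e ∈ e := by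
    intro e h
    have h1 : ctr e = h.choose := dif_pos h
    rw [h1]
    exact h.choose_spec
  have hctr : ∀ a b : V, a ∈ A → b ∈ B → ctr s(a, b) = b := by
    intro a b ha hb
    obtain ⟨h1, h2⟩ := hctrB s(a, b) ⟨b, hb, Sym2.mem_mk_right _ _⟩
    rw [Sym2.mem_iff] at h2
    rcases h2 with h2 | h2
    · rw [h2] at h1
      exact absurd h1 (hnAB a ha)
    · exact h2
  have hctrmem : ∀ e ∈ H, ctr e ∈ e := by
    intro e he
    obtain ⟨a, b, rfl, ha, hb⟩ := hE e (hHE he)
    exact (hctrB _ ⟨b, hb, Sym2.mem_mk_right _ _⟩).2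
  obtain ⟨J, M', hM'H, hJ, hdis, hbi, hcard, _, hpar⟩ := cherry_pairing H hlH ctr hctrmem
  have hM' : M' = ∅ := by
    rw [Finset.eq_empty_iff_forall_notMem]
    intro e he
    have hodd := (hpar (ctr e)).1 ⟨e, he, rfl⟩
    obtain ⟨a, b, rfl, ha, hb⟩ := hE e (hHE (hM'H he))
    rw [hctr a b ha hb] at hodd
    have h1 : H.filter (fun e => ctr e = b) = H.filter (fun e => b ∈ e) := by
      apply Finset.filter_congr
      intro f hf
      obtain ⟨a', b', rfl, ha', hb'⟩ := hE f (hHE hf)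
      rw [hctr a' b' ha' hb', Sym2.mem_iff]
      constructor
      · rintro rfl
        exact Or.inr rfl
      · rintro (rfl | rfl)
        · exact absurd hb (hnAB b ha')
        · rfl
    rw [h1] at hodd
    exact (Nat.not_even_iff_odd.2 hodd) (hHeven b)
  subst hM'
  rw [Finset.sdiff_empty] at hbi
  have hends : ∀ t ∈ J, t.1 ∈ A ∧ t.2.2 ∈ A ∧ t.2.1 ∈ B := by
    intro t ht
    obtain ⟨h1, h2, h3, h4, h5⟩ := hJ t ht
    rw [Finset.sdiff_empty] at h2 h3
    have key : ∀ x y : V, s(x, y) ∈ H → ctr s(x, y) = y → x ∈ A ∧ y ∈ B := by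
      intro x y hxy hc
      obtain ⟨a, b, hab, ha, hb⟩ := hE _ (hHE hxy)
      rw [hab, hctr a b ha hb] at hc
      rw [Sym2.eq_iff] at hab
      rcases hab with ⟨g1, g2⟩ | ⟨g1, g2⟩
      · rw [g1, g2]
        exact ⟨ha, hb⟩
      · exact absurd hb (by rw [hc, g2]; exact hnAB a ha)
    obtain ⟨k1, k2⟩ := key _ _ h2 h4
    rw [Sym2.eq_swap] at h3 h5
    obtain ⟨k3, _⟩ := key _ _ h3 h5
    exact ⟨k1, k3, k2⟩
  have hJpart : CherryPart H J := by
    refine ⟨?_, hdis, hbi⟩
    intro t ht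
    obtain ⟨h1, h2, h3, _, _⟩ := hJ t ht
    rw [Finset.sdiff_empty] at h2 h3
    exact ⟨hlH.ne h2, hlH.ne h3, h1⟩
  have hHc : H.card ≤ (M + 1) ^ 2 := by
    calc H.card ≤ X.sym2.card := Finset.card_le_card hHX
      _ = (X.card + 1).choose 2 := Finset.card_sym2 X
      _ ≤ (X.card + 1) ^ 2 := Nat.choose_le_pow _ _
      _ ≤ (M + 1) ^ 2 := Nat.pow_le_pow_left (by omega) 2
  have hHZ : ∀ e ∈ H, ∀ x ∈ e, x ∉ X → x ∉ Z := by
    intro e he x hx hxX
    exact absurd (Finset.mem_sym2_iff.1 (hHX he) x hx) hxX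
  obtain ⟨W, R, hWE, hRE, hFW, hFR, hWR, hD1, hD2, hD3, hX1, hZ1, hc1⟩ := afc V U A E
    (fun _ => True) X Z H J hn hEU hlE hAU hXU
    (hXM.trans (by nlinarith [sq_nonneg M])) hZa hHE hHeven hH6 (hHc.trans (by omega)) hJpart
    (fun t ht => ⟨(hends t ht).1, (hends t ht).2.1⟩) hHZ
    (by
      intro t ht Z' hZ'
      obtain ⟨h1, h3, _⟩ := hends t ht
      obtain ⟨z, hz, w, hw, hzZ, _, _, ⟨g1, g2, _, _⟩, _⟩ :=
        hK4 t.1 h1 t.2.2 h3 t.1 h1 t.2.2 h3 Z' hZ'
      exact ⟨z, hz, hzZ, g1.symm, g2⟩)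
    (by
      intro w Z' hZ' hw hev h3 _
      apply alg_nb (Gam E U η) (fun x y hxy => hxy.symm) (fun x => Gam.irrefl) (↑A : Set V) _
      · intro x1 hx1 x2 hx2 x3 hx3 x4 hx4
        obtain ⟨z, hz, w', hw', hzZ, hwZ, g0, g1, g2⟩ :=
          hK4 x1 (by simpa using hx1) x2 (by simpa using hx2) x3 (by simpa using hx3) x4
            (by simpa using hx4) Z' hZ'
        refine ⟨z, w', by simpa using hz, by simpa using hw', ?_, ?_, g0, g1, g2⟩
        · exact ⟨hz, Or.inl hzZ⟩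
        · exact ⟨hw', Or.inl hwZ⟩
      · intro e he
        obtain ⟨x, y, rfl, hx, hy, hxy⟩ := hw e he
        refine ⟨x, y, rfl, by simpa using hx, ?_, by simpa using hy, ?_, hxy⟩
        · exact ⟨hx, Or.inr ⟨_, he, Sym2.mem_mk_left _ _⟩⟩
        · exact ⟨hy, Or.inr ⟨_, he, Sym2.mem_mk_right _ _⟩⟩
      · exact hev
      · exact h3)
    (fun _ _ _ _ _ _ => trivial)
  refine ⟨W ∪ R, Finset.union_subset hWE hRE, hD3, ?_, hX1, hZ1, ?_⟩
  · have h5 : W ∪ R ∪ H = (H ∪ W) ∪ R := by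
      ext e
      simp only [Finset.mem_union]
      tauto
    rw [h5]
    refine hD1.union hD2 ?_
    rw [Finset.disjoint_union_left]
    exact ⟨hFR, hWR⟩
  · exact (Finset.card_union_le _ _).trans hc1

end H15C6
end S_ABN2

section S_ABE1
/-!
Module ABE1 (part of ABE).  The four-class pattern (classes `cl = 0,1,2,3` for `V1,V2,V3,V4`): edges allowed inside classes
0 and 3 and between 0-1, 1-2, 2-3.

(1) `c6_even_V1`: a six-cycle whose edges are all allowed has an even number of edges of type `{0,0}`.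
  Proof: put `f i = cl (v i) : Fin 6 → Fin 4`; the number of `i` with `f i = f (i+1) = 0` is even for every
  `f` with all consecutive pairs allowed: `decide` over `Fin 6 → Fin 4` (4096 functions; if too slow,
  case on `f 0, f 1, f 2` first), then transfer through injectivity of `i ↦ s(v i, v (i+1))`.
(2) `absorb_e3`: `P H := H ⊆ E ∧ EvenDeg H ∧ 6 ∣ |H| ∧` (number of edges of type `{0,0}` in `H` is even).
  As `absorb_nb`, with hub `w0` in class 0 (`V1`): each `x ≠ w0` has more than `ζ|U|` neighbours `q` with `Gam q w0`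
  (for `x` in class 0,1,2,3 take `q` in class 0,0,1,2: classes of neighbours `q` adjacent in `Γ` to class 0 are
  0,1,2; fine).  `S = U`, `k0 = 1000`,
  `π w := Even ((w.map (Sym2.map cl)).count s(0,1))`.  `hπ`: `F0 = H ∪ N` has an even number of `{0,0}`-edges
  (`N` decomposable), so has `F0 ∪ W`, hence `W`; a cherry `x m y` in `E` contributes an odd number of
  `{0,0}`-edges iff its ends are of type `{0,1}`: (ends, middle) possibilities for allowed edges:
  `m` in class 0: `x, y ∈ {0,1}` contributes `#{ends in class 0}`; `m` in another class: none and then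
  the ends are not of type `{0,1}` (common neighbours of classes 0 and 1 are in class 0 only).
  `hcom`: any two vertices have many common `Γ`-neighbours.  `alg_e3` for `Solv`; `Gam` between two vertices of
  bad types fails as they have no common neighbour, and holds for good types (`η` small).
-/

open Finset

namespace H15C6

/-- allowed pairs of classes -/
def PatE (a b : Fin 4) : Prop :=
  (a = 0 ∧ b = 0) ∨ (a = 3 ∧ b = 3) ∨ (a = 0 ∧ b = 1) ∨ (a = 1 ∧ b = 0) ∨ (a = 1 ∧ b = 2) ∨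
    (a = 2 ∧ b = 1) ∨ (a = 2 ∧ b = 3) ∨ (a = 3 ∧ b = 2)

instance (a b : Fin 4) : Decidable (PatE a b) := by unfold PatE; infer_instance

/-- number of edges with both ends in class 0 -/
def nV1 {V : Type} [DecidableEq V] (cl : V → Fin 4) (H : Finset (Sym2 V)) : ℕ :=
  (H.filter (fun e => Sym2.map cl e = s(0, 0))).card

/-- indicator of `a = b = 0` -/
def abe1I (a b : Fin 4) : ℕ := if a = 0 ∧ b = 0 then 1 else 0

set_option synthInstance.maxSize 4096 in
set_option maxRecDepth 8000 in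
theorem abe1_dec : ∀ a0 a1 : Fin 4, PatE a0 a1 → ∀ a2, PatE a1 a2 → ∀ a3, PatE a2 a3 →
    ∀ a4, PatE a3 a4 → ∀ a5, PatE a4 a5 → PatE a5 a0 →
      (abe1I a0 a1 + abe1I a1 a2 + abe1I a2 a3 + abe1I a3 a4 + abe1I a4 a5 + abe1I a5 a0) % 2 = 0 := by
  decide

theorem c6_even_V1 {V : Type} [DecidableEq V] (cl : V → Fin 4) (C : Finset (Sym2 V)) (hC : IsC6 C)
    (hpat : ∀ x y, s(x, y) ∈ C → PatE (cl x) (cl y)) : Even (nV1 cl C) := by
  obtain ⟨v, hv, rfl⟩ := hC
  have hp : ∀ i : Fin 6, PatE (cl (v i)) (cl (v (i + 1))) := fun i =>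
    hpat _ _ (mem_cyc.2 ⟨i, rfl⟩)
  have hcard : nV1 cl (cyc v) = ∑ i : Fin 6, abe1I (cl (v i)) (cl (v (i + 1))) := by
    unfold nV1 cyc
    rw [Finset.filter_image, Finset.card_image_of_injective _ (cyc_inj hv), Finset.card_filter]
    refine Finset.sum_congr rfl (fun i _ => ?_)
    unfold abe1I
    have : (Sym2.map cl s(v i, v (i + 1)) = s(0, 0)) ↔ (cl (v i) = 0 ∧ cl (v (i + 1)) = 0) := by
      rw [Sym2.map_mk, Sym2.eq_iff]
      tauto
    simp only [this]
  rw [hcard, Fin.sum_univ_six, Nat.even_iff]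
  exact abe1_dec (cl (v 0)) (cl (v 1)) (hp 0) (cl (v 2)) (hp 1) (cl (v 3)) (hp 2) (cl (v 4)) (hp 3)
    (cl (v 5)) (hp 4) (hp 5)

theorem dec_even_V1 {V : Type} [DecidableEq V] (cl : V → Fin 4) (D : Finset (Sym2 V)) (hD : Dec D)
    (hpat : ∀ x y, s(x, y) ∈ D → PatE (cl x) (cl y)) : Even (nV1 cl D) := by
  induction hD with
  | empty => simp [nV1]
  | @add E C hE hC hd ih =>
    have h1 : nV1 cl (E ∪ C) = nV1 cl E + nV1 cl C := by
      unfold nV1
      rw [Finset.filter_union, Finset.card_union_of_disjoint (Finset.disjoint_filter_filter hd)]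
    rw [h1]
    exact (ih fun x y h => hpat x y (Finset.mem_union_left _ h)).add
      (c6_even_V1 cl C hC fun x y h => hpat x y (Finset.mem_union_right _ h))

end H15C6
end S_ABE1

section S_ABE2
/-!
Module ABE2 (part of ABE).  The four-class pattern (classes `cl = 0,1,2,3` for `V1,V2,V3,V4`): edges allowed inside classes
0 and 3 and between 0-1, 1-2, 2-3.

(1) `c6_even_V1`: a six-cycle whose edges are all allowed has an even number of edges of type `{0,0}`.
  Proof: put `f i = cl (v i) : Fin 6 → Fin 4`; the number of `i` with `f i = f (i+1) = 0` is even for every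
  `f` with all consecutive pairs allowed: `decide` over `Fin 6 → Fin 4` (4096 functions; if too slow,
  case on `f 0, f 1, f 2` first), then transfer through injectivity of `i ↦ s(v i, v (i+1))`.
(2) `absorb_e3`: `P H := H ⊆ E ∧ EvenDeg H ∧ 6 ∣ |H| ∧` (number of edges of type `{0,0}` in `H` is even).
  As `absorb_nb`, with hub `w0` in class 0 (`V1`): each `x ≠ w0` has more than `ζ|U|` neighbours `q` with `Gam q w0`
  (for `x` in class 0,1,2,3 take `q` in class 0,0,1,2: classes of neighbours `q` adjacent in `Γ` to class 0 are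
  0,1,2; fine).  `S = U`, `k0 = 1000`,
  `π w := Even ((w.map (Sym2.map cl)).count s(0,1))`.  `hπ`: `F0 = H ∪ N` has an even number of `{0,0}`-edges
  (`N` decomposable), so has `F0 ∪ W`, hence `W`; a cherry `x m y` in `E` contributes an odd number of
  `{0,0}`-edges iff its ends are of type `{0,1}`: (ends, middle) possibilities for allowed edges:
  `m` in class 0: `x, y ∈ {0,1}` contributes `#{ends in class 0}`; `m` in another class: none and then
  the ends are not of type `{0,1}` (common neighbours of classes 0 and 1 are in class 0 only).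
  `hcom`: any two vertices have many common `Γ`-neighbours.  `alg_e3` for `Solv`; `Gam` between two vertices of
  bad types fails as they have no common neighbour, and holds for good types (`η` small).
-/

open Finset

namespace H15C6

private theorem abe2_pat1 : ∀ a b : Fin 4, ¬ BadPair a b → ∃ m, PatE a m ∧ PatE m b := by decide

private theorem abe2_pat2 : ∀ a b m : Fin 4, PatE a m → PatE m b → ¬ BadPair a b := by decide

private theorem abe2_pat3 : ∀ a b : Fin 4, PatE a b → PatE b a := by decide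

private theorem abe2_pat4 : ∀ a b : Fin 4, ∃ c, ¬ BadPair a c ∧ ¬ BadPair c b := by decide

private theorem abe2_pat5 : ∀ a : Fin 4, ∃ c, PatE a c ∧ ¬ BadPair c 0 := by decide

private theorem abe2_par : ∀ a b c : Fin 4, PatE a b → PatE b c →
    ((if s(a, b) = s(0, 0) then 1 else 0) + (if s(b, c) = s(0, 0) then 1 else 0) : ℕ) % 2 =
      (if s(a, c) = s(0, 1) then 1 else 0) := by decide

/-- parity of the number of class 0 edges of a union of cherries -/
private theorem abe2_count {V : Type} [DecidableEq V] (cl : V → Fin 4) (E : Finset (Sym2 V))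
    (hpat : ∀ x y, s(x, y) ∈ E → PatE (cl x) (cl y)) (J : Finset (V × V × V))
    (h1 : ∀ t ∈ J, t.1 ≠ t.2.1 ∧ t.2.1 ≠ t.2.2 ∧ t.1 ≠ t.2.2)
    (h2 : ∀ t ∈ J, ∀ t' ∈ J, t ≠ t' → Disjoint (chE t) (chE t')) (h3 : J.biUnion chE ⊆ E) :
    nV1 cl (J.biUnion chE) % 2 =
      (((J.val.map (fun t => s(t.1, t.2.2))).map (Sym2.map cl)).count s(0, 1)) % 2 := by
  induction J using Finset.induction_on with
  | empty => simp [nV1]
  | @insert a J ha ih =>
    have ih' := ih (fun t ht => h1 t (Finset.mem_insert_of_mem ht))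
      (fun t ht t' ht' => h2 t (Finset.mem_insert_of_mem ht) t' (Finset.mem_insert_of_mem ht'))
      (fun e he => h3 (by rw [Finset.biUnion_insert]; exact Finset.mem_union_right _ he))
    have hd : Disjoint (chE a) (J.biUnion chE) := by
      rw [Finset.disjoint_biUnion_right]
      intro j hj
      exact h2 a (Finset.mem_insert_self a J) j (Finset.mem_insert_of_mem hj)
        (fun h => ha (h ▸ hj))
    have e1 : nV1 cl ((insert a J).biUnion chE) = nV1 cl (chE a) + nV1 cl (J.biUnion chE) := by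
      rw [Finset.biUnion_insert]
      unfold nV1
      rw [Finset.filter_union, Finset.card_union_of_disjoint (Finset.disjoint_filter_filter hd)]
    obtain ⟨x, m, y⟩ := a
    have hxy := h1 (x, m, y) (Finset.mem_insert_self _ _)
    simp only at hxy
    have hsub : chE (x, m, y) ⊆ E := fun e he => h3 (by
      rw [Finset.biUnion_insert]; exact Finset.mem_union_left _ he)
    have p1 : PatE (cl x) (cl m) := hpat x m (hsub (by simp [chE]))
    have p2 : PatE (cl m) (cl y) := hpat m y (hsub (by simp [chE]))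
    have hne : s(x, m) ≠ s(m, y) := by
      intro h
      rw [Sym2.eq_iff] at h
      rcases h with ⟨h, _⟩ | ⟨h, _⟩
      · exact hxy.1 h
      · exact hxy.2.2 h
    have e2 : nV1 cl (chE (x, m, y)) = (if s(cl x, cl m) = s(0, 0) then 1 else 0) +
        (if s(cl m, cl y) = s(0, 0) then 1 else 0) := by
      unfold nV1 chE
      rw [Finset.card_filter, Finset.sum_pair hne]
      rfl
    have e3 : (((insert (x, m, y) J).val.map (fun t => s(t.1, t.2.2))).map (Sym2.map cl)).count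
        s(0, 1) = ((J.val.map (fun t => s(t.1, t.2.2))).map (Sym2.map cl)).count s(0, 1) +
          (if s(cl x, cl y) = s(0, 1) then 1 else 0) := by
      rw [Finset.insert_val_of_notMem ha, Multiset.map_cons, Multiset.map_cons]
      by_cases h : s(cl x, cl y) = s(0, 1)
      · rw [if_pos h, show Sym2.map cl s((x, m, y).1, (x, m, y).2.2) = s(0, 1) from h,
          Multiset.count_cons_self]
      · have h' : s(0, 1) ≠ Sym2.map cl s((x, m, y).1, (x, m, y).2.2) := fun h' => h h'.symm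
        rw [if_neg h, Multiset.count_cons_of_ne h', add_zero]
    rw [e1, e3, Nat.add_mod, e2, abe2_par _ _ _ p1 p2, ih', add_comm, Nat.add_mod
      (Multiset.count _ _)]
    congr 1
    congr 1
    split_ifs <;> rfl

theorem absorb_e3 (t : ℝ) (ht : 0 < t) :
    ∃ τ ε : ℝ, 0 < τ ∧ 0 < ε ∧ ∀ M : ℕ, ∃ C n0 : ℕ, ∀ (V : Type) [Fintype V] [DecidableEq V]
      (U : Finset V) (E : Finset (Sym2 V)) (cl : V → Fin 4), n0 ≤ U.card → E ⊆ U.sym2 →
      Loopless E → (∀ x y, s(x, y) ∈ E → PatE (cl x) (cl y)) →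
      (∀ i : Fin 4, t * U.card ≤ ((U.filter (fun x => cl x = i)).card : ℝ)) →
      (∀ x ∈ U, ((U.filter (fun y => PatE (cl x) (cl y) ∧ s(x, y) ∉ E)).card : ℝ) ≤ τ * U.card) →
      Absorbs U E (fun H => H ⊆ E ∧ EvenDeg H ∧ 6 ∣ H.card ∧ Even (nV1 cl H)) ε M C := by
  obtain ⟨εA, hεA, hA⟩ := absorb_from_cherries (t / 2) (t / 2) (by positivity) (by positivity) 1000
  obtain ⟨εH, hεH, hH⟩ := hub_cherries (t / 2) (t / 2) (by positivity) (by positivity)
  refine ⟨t / 4, min εA (min εH (t / 2)), by positivity,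
    lt_min hεA (lt_min hεH (by positivity)), fun M => ?_⟩
  obtain ⟨C, n1, hA⟩ := hA ((M + 1) ^ 2 + 6 * M)
  obtain ⟨n2, hH⟩ := hH ((M + 1) ^ 2 + 6 * M)
  refine ⟨C + 6 * M, max n1 (max n2 (⌈32 / t⌉₊ + 1)), ?_⟩
  intro V _ _ U E cl hn hEU hl hpat hcl hmis X Z hXU hXM hZ H hHE hHX hPH
  obtain ⟨_, hHeven, hH6, hHV⟩ := hPH
  have hn1 : n1 ≤ U.card := (le_max_left _ _).trans hn
  have hn2 : n2 ≤ U.card := ((le_max_left _ _).trans (le_max_right _ _)).trans hn
  have hn3 : ⌈32 / t⌉₊ + 1 ≤ U.card := ((le_max_right _ _).trans (le_max_right _ _)).trans hn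
  have hbig : 32 < t * U.card := by
    have h1 : 32 / t ≤ (⌈32 / t⌉₊ : ℝ) := Nat.le_ceil _
    have h2 : ((⌈32 / t⌉₊ : ℝ) + 1) ≤ U.card := by exact_mod_cast hn3
    have h3 : 32 / t < U.card := by linarith
    rw [div_lt_iff₀ ht] at h3
    linarith
  have hU0 : (0 : ℝ) ≤ U.card := Nat.cast_nonneg _
  have hZA : (Z.card : ℝ) ≤ εA * U.card :=
    hZ.trans (mul_le_mul_of_nonneg_right (min_le_left _ _) hU0)
  have hZH : (Z.card : ℝ) ≤ εH * U.card :=
    hZ.trans (mul_le_mul_of_nonneg_right ((min_le_right _ _).trans (min_le_left _ _)) hU0)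
  have hZt : (Z.card : ℝ) ≤ t / 2 * U.card :=
    hZ.trans (mul_le_mul_of_nonneg_right ((min_le_right _ _).trans (min_le_right _ _)) hU0)
  -- vertices in a given class
  have hcls : ∀ (i : Fin 4) (B : Finset V), (B.card : ℝ) < t * U.card →
      ∃ z ∈ U, cl z = i ∧ z ∉ B := by
    intro i B hB
    have h1 : B.card < (U.filter (fun x => cl x = i)).card := by
      have := hcl i
      exact_mod_cast lt_of_lt_of_le hB this
    obtain ⟨z, hz1, hz2⟩ := Finset.exists_mem_notMem_of_card_lt_card h1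
    rw [Finset.mem_filter] at hz1
    exact ⟨z, hz1.1, hz1.2, hz2⟩
  -- neighbours in a given class
  have hnb : ∀ x ∈ U, ∀ i : Fin 4, PatE (cl x) i → ∀ B : Finset V,
      (B.card : ℝ) < 3 * t / 4 * U.card → ∃ z ∈ U, cl z = i ∧ z ∉ B ∧ s(x, z) ∈ E := by
    intro x hx i hi B hB
    have h1 := hmis x hx
    set Mx := U.filter (fun y => PatE (cl x) (cl y) ∧ s(x, y) ∉ E) with hMx
    have h2 : ((B ∪ Mx).card : ℝ) ≤ B.card + Mx.card := by
      exact_mod_cast Finset.card_union_le B Mx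
    obtain ⟨z, hzU, hzi, hz⟩ := hcls i (B ∪ Mx) (by linarith)
    rw [Finset.mem_union, not_or] at hz
    refine ⟨z, hzU, hzi, hz.1, ?_⟩
    by_contra hE
    exact hz.2 (Finset.mem_filter.2 ⟨hzU, by rw [hzi]; exact hi, hE⟩)
  have hG1 : ∀ x y, x ∈ U → y ∈ U → x ≠ y → ¬ BadPair (cl x) (cl y) → Gam E U (t / 2) x y := by
    intro x y hx hy hxy hbad
    refine ⟨hxy, ?_⟩
    obtain ⟨m, hm1, hm2⟩ := abe2_pat1 _ _ hbad
    have h1 := hmis x hx
    have h2 := hmis y hy
    set Mx := U.filter (fun z => PatE (cl x) (cl z) ∧ s(x, z) ∉ E) with hMx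
    set My := U.filter (fun z => PatE (cl y) (cl z) ∧ s(y, z) ∉ E) with hMy
    have h3 : (U.filter (fun z => cl z = m)) ⊆
        (U.filter (fun z => s(x, z) ∈ E ∧ s(z, y) ∈ E)) ∪ (Mx ∪ My) := by
      intro z hz
      rw [Finset.mem_filter] at hz
      rw [Finset.mem_union, Finset.mem_union, Finset.mem_filter, hMx, hMy, Finset.mem_filter,
        Finset.mem_filter, hz.2]
      by_cases ha : s(x, z) ∈ E
      · by_cases hb : s(z, y) ∈ E
        · exact Or.inl ⟨hz.1, ha, hb⟩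
        · right; right
          refine ⟨hz.1, abe2_pat3 _ _ hm2, ?_⟩
          rw [Sym2.eq_swap]; exact hb
      · exact Or.inr (Or.inl ⟨hz.1, hm1, ha⟩)
    have h4 := Finset.card_le_card h3
    have h5 : (((U.filter (fun z => s(x, z) ∈ E ∧ s(z, y) ∈ E)) ∪ (Mx ∪ My)).card : ℝ) ≤
        (cn E U x y : ℝ) + (Mx.card + My.card) := by
      have h6 := Finset.card_union_le (U.filter (fun z => s(x, z) ∈ E ∧ s(z, y) ∈ E)) (Mx ∪ My)
      have h7 := Finset.card_union_le Mx My
      have h8 : ((U.filter (fun z => s(x, z) ∈ E ∧ s(z, y) ∈ E)) ∪ (Mx ∪ My)).card ≤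
        cn E U x y + (Mx.card + My.card) := by
        unfold cn
        omega
      exact_mod_cast h8
    have h9 : (((U.filter (fun z => cl z = m)).card : ℕ) : ℝ) ≤
        (((U.filter (fun z => s(x, z) ∈ E ∧ s(z, y) ∈ E)) ∪ (Mx ∪ My)).card : ℝ) := by
      exact_mod_cast h4
    have h10 := hcl m
    linarith
  have hG2 : ∀ x y, Gam E U (t / 2) x y → ¬ BadPair (cl x) (cl y) := by
    intro x y hG
    have h1 := hG.2
    have h2 : 0 < cn E U x y := by
      by_contra h0
      have h3 : cn E U x y = 0 := by omega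
      rw [h3] at h1
      push_cast at h1
      linarith
    unfold cn at h2
    obtain ⟨m, hm⟩ := Finset.card_pos.1 h2
    rw [Finset.mem_filter] at hm
    exact abe2_pat2 _ _ (cl m) (hpat _ _ hm.2.1) (hpat _ _ hm.2.2)
  -- the hub
  obtain ⟨w0, hw0U, hw0c, hw0Z⟩ := hcls 0 Z (by linarith)
  obtain ⟨N, J, hNE, hHN, hNdec, hJ, hNX, hNZ, hNc⟩ := hH V U E X Z H w0 hn2 hEU hl hXU
    (hXM.trans (by nlinarith)) hZH hHE hHX hHeven ((by norm_num : 2 ∣ 6).trans hH6) hw0U hw0Z (by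
      intro x hxU hxw Q hQ
      obtain ⟨c, hc1, hc2⟩ := abe2_pat5 (cl x)
      have hcard : ((insert w0 Q).card : ℝ) ≤ Q.card + 1 := by
        exact_mod_cast Finset.card_insert_le w0 Q
      obtain ⟨q, hqU, hqc, hqQ, hqE⟩ := hnb x hxU c hc1 (insert w0 Q) (by linarith)
      rw [Finset.mem_insert, not_or] at hqQ
      exact ⟨q, hqU, hqQ.2, hqE, hG1 q w0 hqU hw0U hqQ.1 (by rw [hqc, hw0c]; exact hc2)⟩)
  have hHc : H.card ≤ (M + 1) ^ 2 := by
    refine (Finset.card_le_card hHX).trans ?_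
    rw [Finset.card_sym2]
    calc (X.card + 1).choose 2 ≤ (M + 1).choose 2 := Nat.choose_le_choose 2 (by omega)
      _ ≤ (M + 1) ^ 2 := Nat.choose_le_pow _ _
  have hNc' : N.card ≤ 6 * M := hNc.trans (by omega)
  have hF0E : H ∪ N ⊆ E := Finset.union_subset hHE hNE
  have hF0even : EvenDeg (H ∪ N) := hHeven.union hNdec.even hHN
  have hF06 : 6 ∣ (H ∪ N).card := by
    rw [Finset.card_union_of_disjoint hHN]
    exact (Nat.dvd_add_right hH6).2 hNdec.six_dvd
  have hF0c : (H ∪ N).card ≤ (M + 1) ^ 2 + 6 * M :=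
    (Finset.card_union_le _ _).trans (by omega)
  have hNeven : Even (nV1 cl N) := dec_even_V1 cl N hNdec fun x y h => hpat x y (hNE h)
  have hnV1 : ∀ A B : Finset (Sym2 V), Disjoint A B → nV1 cl (A ∪ B) = nV1 cl A + nV1 cl B := by
    intro A B hAB
    unfold nV1
    rw [Finset.filter_union, Finset.card_union_of_disjoint (Finset.disjoint_filter_filter hAB)]
  obtain ⟨W, R, hWE, hRE, hFW, hFR, hWR, hdFW, hdR, hdWR, hx1, hx2, hWRc⟩ := hA V U U E
    (fun w => Even ((w.map (Sym2.map cl)).count s(0, 1))) X Z (H ∪ N) J hn1 hEU hl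
    (Finset.Subset.refl _) hXU (hXM.trans (by nlinarith)) hZA hF0E hF0even hF06 hF0c hJ
    (by
      intro u hu
      have h1 : chE u ⊆ E := by
        refine Finset.Subset.trans ?_ hF0E
        rw [← hJ.2.2]
        exact Finset.subset_biUnion_of_mem chE hu
      have h2 : s(u.1, u.2.1) ∈ U.sym2 := hEU (h1 (by simp [chE]))
      have h3 : s(u.2.1, u.2.2) ∈ U.sym2 := hEU (h1 (by simp [chE]))
      rw [Finset.mk_mem_sym2_iff] at h2 h3
      exact ⟨h2.1, h3.2⟩)
    (by
      intro e he x hxe hxX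
      rcases Finset.mem_union.1 he with h | h
      · have := hHX h
        rw [Finset.mem_sym2_iff] at this
        exact absurd (this x hxe) hxX
      · exact hNZ e h x hxe hxX)
    (by
      intro u hu Z' hZ'
      have h1 : chE u ⊆ E := by
        refine Finset.Subset.trans ?_ hF0E
        rw [← hJ.2.2]
        exact Finset.subset_biUnion_of_mem chE hu
      have h2 : s(u.1, u.2.1) ∈ U.sym2 := hEU (h1 (by simp [chE]))
      have h3 : s(u.2.1, u.2.2) ∈ U.sym2 := hEU (h1 (by simp [chE]))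
      rw [Finset.mk_mem_sym2_iff] at h2 h3
      obtain ⟨c, hc1, hc2⟩ := abe2_pat4 (cl u.1) (cl u.2.2)
      have hcard : ((insert u.1 (insert u.2.2 Z')).card : ℝ) ≤ Z'.card + 2 := by
        have h4 := Finset.card_insert_le u.1 (insert u.2.2 Z')
        have h5 := Finset.card_insert_le u.2.2 Z'
        have h6 : (insert u.1 (insert u.2.2 Z')).card ≤ Z'.card + 2 := by omega
        exact_mod_cast h6
      obtain ⟨z, hzU, hzc, hz⟩ := hcls c (insert u.1 (insert u.2.2 Z')) (by linarith)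
      rw [Finset.mem_insert, not_or, Finset.mem_insert, not_or] at hz
      exact ⟨z, hzU, hz.2.2, hG1 _ _ h2.1 hzU (Ne.symm hz.1) (by rw [hzc]; exact hc1),
        hG1 _ _ hzU h3.2 hz.2.1 (by rw [hzc]; exact hc2)⟩)
    (by
      intro w Z' hZ' hw hev h3 hpar
      refine alg_e3 (Gam E U (t / 2)) (fun x y h => h.symm) (fun x => Gam.irrefl) cl (↑U)
        {v | v ∈ U ∧ (v ∉ Z' ∨ ∃ e ∈ w, v ∈ e)} (fun x y _ _ h => hG2 x y h)
        (fun x y hx hy hxy hb => hG1 x y hx hy hxy hb) ?_ w ?_ hev h3 hpar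
      · intro i F hF
        have hcard : ((F ∪ Z').card : ℝ) ≤ 8 + Z'.card := by
          have h4 := Finset.card_union_le F Z'
          have h6 : (F ∪ Z').card ≤ 8 + Z'.card := by omega
          exact_mod_cast h6
        obtain ⟨z, hzU, hzc, hz⟩ := hcls i (F ∪ Z') (by linarith)
        rw [Finset.mem_union, not_or] at hz
        exact ⟨z, hzU, ⟨hzU, Or.inl hz.2⟩, hzc, hz.1⟩
      · intro e he
        obtain ⟨x, y, rfl, hx, hy, hxy⟩ := hw e he
        exact ⟨x, y, rfl, hx, ⟨hx, Or.inr ⟨_, he, Sym2.mem_mk_left x y⟩⟩, hy,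
          ⟨hy, Or.inr ⟨_, he, Sym2.mem_mk_right x y⟩⟩, hxy⟩)
    (by
      intro J' h1 h2 h3 h4 h5
      have h6 : Even (nV1 cl ((H ∪ N) ∪ J'.biUnion chE)) := dec_even_V1 cl _ h5 (by
        intro x y hxy
        rcases Finset.mem_union.1 hxy with h | h
        · exact hpat x y (hF0E h)
        · exact hpat x y (h3 h))
      rw [hnV1 _ _ h4, hnV1 _ _ hHN] at h6
      have h7 : Even (nV1 cl (J'.biUnion chE)) := (Nat.even_add.1 h6).1 (hHV.add hNeven)
      have h8 := abe2_count cl E hpat J' h1 h2 h3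
      rw [Nat.even_iff] at h7
      show Even _
      rw [Nat.even_iff, ← h8]
      exact h7)
  have hNW : Disjoint N W := Finset.disjoint_of_subset_left Finset.subset_union_right hFW
  have hNR : Disjoint N R := Finset.disjoint_of_subset_left Finset.subset_union_right hFR
  have hNWR : Disjoint N (W ∪ R) := Finset.disjoint_union_right.2 ⟨hNW, hNR⟩
  refine ⟨N ∪ (W ∪ R), Finset.union_subset hNE (Finset.union_subset hWE hRE),
    hNdec.union hdWR hNWR, ?_, ?_, ?_, ?_⟩
  · have h1 : N ∪ (W ∪ R) ∪ H = ((H ∪ N) ∪ W) ∪ R := by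
      ext e; simp only [Finset.mem_union]; tauto
    rw [h1]
    exact hdFW.union hdR (Finset.disjoint_union_left.2 ⟨hFR, hWR⟩)
  · intro e he
    rcases Finset.mem_union.1 he with h | h
    · exact hNX e h
    · exact hx1 e h
  · intro e he
    rcases Finset.mem_union.1 he with h | h
    · exact hNZ e h
    · exact hx2 e h
  · have h1 := Finset.card_union_le N (W ∪ R)
    have h2 := Finset.card_union_le W R
    omega

end H15C6
end S_ABE2

section S_NCT1
/-!
Module NCT1 (part of NCT).  Decomposition of nearly complete structures: near-complete graphs (`nct`), near-complete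
bipartite graphs (`bipt`), near-complete blow-ups of the four-class pattern (`e3t`).
All by `core` + absorbers; `|U| = n`.

`nct`: all vertices have degree `≥ c n`; all vertices of `A ⊆ U` (`|U \ A| ≤ ε n`) have degree `≥ (1-ε) n`.
`R = True`; for `x, y ∈ U`: `≥ (c-ε) n` choices each for `a ∈ N(x) ∩ A`, `c' ∈ N(y) ∩ A`, then `b` adjacent to both:
`≥ (1-2ε)n`, so `P4 ≥ (c/2)^2/2 n^3` (`η := c^2/16`).  `Gam` with `η' := c/2`: every vertex of `A` is `Gam`-adjacent to
every other vertex; `hK4`: any two vertices of `A` outside `Z ∪ {x_i}`; hub: any vertex of `A \ Z`,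
`ζ := c/2`.
`bipt`: `U = A ∪ B`, all edges between `A` and `B`; `R x y :=` same side.  Vertices of `A' ⊆ A` (resp. `B' ⊆ B`) are adjacent
to all but `ε n` vertices of `B` (resp. `A`), all vertices have degree `≥ c n`.
`e3t`: from `absorb_e3`; `R = True`; `P4 ≥ η n^3` for all pairs of vertices: between any two classes there is a
walk of length four in the pattern (loops at 0 and 3, path 0-1-2-3), choose the classes along it.
-/

open Finset

namespace H15C6

theorem nct1_cn (V : Type) [Fintype V] [DecidableEq V] (U : Finset V) (E : Finset (Sym2 V))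
    (hEU : E ⊆ U.sym2) (a u : V) : deg E a + deg E u ≤ cn E U a u + U.card := by
  rw [deg_eq_dg hEU, deg_eq_dg hEU]
  exact cn_ge E U a u

theorem nct (c : ℝ) (hc : 0 < c) :
    ∃ ε : ℝ, 0 < ε ∧ ∃ n0 : ℕ, ∀ (V : Type) [Fintype V] [DecidableEq V] (U A : Finset V)
      (E : Finset (Sym2 V)), n0 ≤ U.card → A ⊆ U → E ⊆ U.sym2 → Loopless E → EvenDeg E →
      6 ∣ E.card → ((U \ A).card : ℝ) ≤ ε * U.card →
      (∀ a ∈ A, (1 - ε) * (U.card : ℝ) ≤ (deg E a : ℝ)) →
      (∀ u ∈ U, c * (U.card : ℝ) ≤ (deg E u : ℝ)) → Dec E := by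
  obtain ⟨d, hd0, hdc, hd1⟩ : ∃ d : ℝ, 0 < d ∧ d ≤ c ∧ d ≤ 1 :=
    ⟨min c 1, lt_min hc one_pos, min_le_left _ _, min_le_right _ _⟩
  obtain ⟨εa, hεa, habs⟩ := absorb_nb (d / 2) (d / 2) (1 / 4) (by positivity) (by positivity)
    (by norm_num)
  obtain ⟨M, hcore⟩ := core (d ^ 2 / 16) εa (by positivity) hεa
  obtain ⟨C, na, habs⟩ := habs M
  obtain ⟨nc, hcore⟩ := hcore C
  refine ⟨d / 8, by positivity, max (max na nc) (max 100 (⌈8 / d⌉₊ + 1)), ?_⟩
  intro V _ _ U A E hn hAU hEU hl hev h6 hUA hA hU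
  have hna : na ≤ U.card := (le_max_left _ _).trans ((le_max_left _ _).trans hn)
  have hnc : nc ≤ U.card := (le_max_right _ _).trans ((le_max_left _ _).trans hn)
  have hn100 : 100 ≤ U.card := (le_max_left _ _).trans ((le_max_right _ _).trans hn)
  have hn8 : 8 / d < U.card := by
    have h1 : ⌈8 / d⌉₊ + 1 ≤ U.card := (le_max_right _ _).trans ((le_max_right _ _).trans hn)
    have h2 : 8 / d ≤ ⌈8 / d⌉₊ := Nat.le_ceil _
    have h3 : ((⌈8 / d⌉₊ + 1 : ℕ) : ℝ) ≤ U.card := by exact_mod_cast h1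
    push_cast at h3
    linarith
  have hnR : (100 : ℝ) ≤ U.card := by exact_mod_cast hn100
  have hnpos : (0 : ℝ) < U.card := by linarith
  have hd8 : 8 ≤ d * U.card := by
    rw [div_lt_iff₀ hd0] at hn8
    linarith
  have hAc : (1 - d / 8) * (U.card : ℝ) ≤ A.card := by
    have h1 : U.card ≤ A.card + (U \ A).card := by
      have := Finset.card_sdiff_add_card_eq_card hAU
      omega
    have h2 : (U.card : ℝ) ≤ A.card + ((U \ A).card : ℝ) := by exact_mod_cast h1
    linarith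
  have hdeg : ∀ u ∈ U, d * (U.card : ℝ) ≤ deg E u := fun u hu =>
    (mul_le_mul_of_nonneg_right hdc hnpos.le).trans (hU u hu)
  -- common neighbours
  have hcnA : ∀ a ∈ A, ∀ u ∈ U, d / 2 * (U.card : ℝ) ≤ (cn E U a u : ℝ) := by
    intro a ha u hu
    have h1 := nct1_cn V U E hEU a u
    have h2 : (deg E a : ℝ) + deg E u ≤ cn E U a u + U.card := by exact_mod_cast h1
    have h3 := hA a ha
    have h4 := hdeg u hu
    nlinarith
  have hcnAA : ∀ a ∈ A, ∀ u ∈ A, 1 / 2 * (U.card : ℝ) ≤ (cn E U a u : ℝ) := by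
    intro a ha u hu
    have h1 := nct1_cn V U E hEU a u
    have h2 : (deg E a : ℝ) + deg E u ≤ cn E U a u + U.card := by exact_mod_cast h1
    have h3 := hA a ha
    have h4 := hA u hu
    nlinarith
  have hGam : ∀ a ∈ A, ∀ u ∈ U, a ≠ u → Gam E U (d / 2) a u := fun a ha u hu hne =>
    ⟨hne, hcnA a ha u hu⟩
  -- many neighbours in A
  have hnA : ∀ u ∈ U, d / 2 * (U.card : ℝ) ≤ (dg E A u : ℝ) := by
    intro u hu
    have h1 := dg_le_add E U A u
    rw [← deg_eq_dg hEU] at h1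
    have h2 : (deg E u : ℝ) ≤ dg E A u + (U \ A).card := by exact_mod_cast h1
    have h3 := hdeg u hu
    nlinarith
  have hpickA : ∀ Z : Finset V, (Z.card : ℝ) ≤ 1 / 4 * U.card → ∀ F : Finset V, F.card ≤ 6 →
      ∃ z ∈ A, z ∉ Z ∧ z ∉ F := by
    intro Z hZ F hF
    have h1 : ((Z ∪ F).card : ℝ) < A.card := by
      have h2 : ((Z ∪ F).card : ℝ) ≤ Z.card + F.card := by exact_mod_cast Finset.card_union_le Z F
      have h3 : (F.card : ℝ) ≤ 6 := by exact_mod_cast hF
      nlinarith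
    obtain ⟨z, hz1, hz2⟩ := Finset.exists_mem_notMem_of_card_lt_card
      (show (Z ∪ F).card < A.card by exact_mod_cast h1)
    rw [Finset.mem_union, not_or] at hz2
    exact ⟨z, hz1, hz2.1, hz2.2⟩
  refine hcore V U E (fun _ _ => True) (fun H => EvenDeg H ∧ 6 ∣ H.card) hnc hEU hl
    (fun _ _ _ _ _ => trivial) ?_ (fun H hH => hH.1) ?_ ⟨hev, h6⟩ ?_
  · intro x hx y hy _
    have h1 := P4_ge_real E U (nbr E A x) (nbr E A y) x y (d / 2 * U.card) (d / 2 * U.card)
      (1 / 2 * U.card) (by positivity) (by positivity) (by positivity)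
      (fun v hv => hAU (mem_nbr.1 hv).1) (fun v hv => hAU (mem_nbr.1 hv).1)
      (fun v hv => (mem_nbr.1 hv).2)
      (fun v hv => by rw [Sym2.eq_swap]; exact (mem_nbr.1 hv).2)
      (hnA x hx) (hnA y hy)
      (fun v hv w hw => hcnAA v (mem_nbr.1 hv).1 w (mem_nbr.1 hw).1)
    refine le_trans ?_ h1
    have h2 : 0 < (U.card : ℝ) ^ 3 := by positivity
    nlinarith
  · intro H C' hH hC' hC6
    refine ⟨hH.1.sdiff hC6.even hC', ?_⟩
    have h1 := Finset.card_sdiff_add_card_eq_card hC'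
    rw [hC6.card] at h1
    obtain ⟨m, hm⟩ := hH.2
    refine ⟨m - 1, ?_⟩
    omega
  · refine habs V U E hna hEU hl ?_ ?_
    · intro x1 hx1 x2 hx2 x3 hx3 x4 hx4 Z hZ
      obtain ⟨z, hzA, hzZ, hzF⟩ := hpickA Z hZ {x1, x2, x3, x4} (Finset.card_le_four.trans (by norm_num))
      obtain ⟨w, hwA, hwZ, hwF⟩ := hpickA Z hZ {z, x1, x2, x3, x4}
        (Finset.card_le_five.trans (by norm_num))
      simp only [Finset.mem_insert, Finset.mem_singleton, not_or] at hzF hwF
      exact ⟨z, hAU hzA, w, hAU hwA, hzZ, hwZ, hGam z hzA w (hAU hwA) (Ne.symm hwF.1),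
        ⟨hGam z hzA x1 hx1 hzF.1, hGam z hzA x2 hx2 hzF.2.1, hGam z hzA x3 hx3 hzF.2.2.1,
          hGam z hzA x4 hx4 hzF.2.2.2⟩,
        ⟨hGam w hwA x1 hx1 hwF.2.1, hGam w hwA x2 hx2 hwF.2.2.1, hGam w hwA x3 hx3 hwF.2.2.2.1,
          hGam w hwA x4 hx4 hwF.2.2.2.2⟩⟩
    · intro Z hZ
      obtain ⟨w0, hw0A, hw0Z, _⟩ := hpickA Z hZ ∅ (by simp)
      refine ⟨w0, hAU hw0A, hw0Z, ?_⟩
      intro x hx hxw Q hQ
      have h1 : (insert w0 Q).card < (nbr E U x).card := by
        have h2 : ((insert w0 Q).card : ℝ) ≤ Q.card + 1 := by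
          exact_mod_cast Finset.card_insert_le w0 Q
        have h3 : d * (U.card : ℝ) ≤ ((nbr E U x).card : ℝ) := by
          rw [card_nbr, ← deg_eq_dg hEU]
          exact hdeg x hx
        have h4 : ((insert w0 Q).card : ℝ) < ((nbr E U x).card : ℝ) := by nlinarith
        exact_mod_cast h4
      obtain ⟨q, hq1, hq2⟩ := Finset.exists_mem_notMem_of_card_lt_card h1
      rw [Finset.mem_insert, not_or] at hq2
      rw [mem_nbr] at hq1
      exact ⟨q, hq1.1, hq2.2, hq1.2, (hGam w0 hw0A q hq1.1 (Ne.symm hq2.1)).symm⟩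

end H15C6
end S_NCT1

section S_NCT2
/-!
Module NCT2 (part of NCT).  Decomposition of nearly complete structures: near-complete graphs (`nct`), near-complete
bipartite graphs (`bipt`), near-complete blow-ups of the four-class pattern (`e3t`).
All by `core` + absorbers; `|U| = n`.

`nct`: all vertices have degree `≥ c n`; all vertices of `A ⊆ U` (`|U \ A| ≤ ε n`) have degree `≥ (1-ε) n`.
`R = True`; for `x, y ∈ U`: `≥ (c-ε) n` choices each for `a ∈ N(x) ∩ A`, `c' ∈ N(y) ∩ A`, then `b` adjacent to both: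
`≥ (1-2ε)n`, so `P4 ≥ (c/2)^2/2 n^3` (`η := c^2/16`).  `Gam` with `η' := c/2`: every vertex of `A` is `Gam`-adjacent to
every other vertex; `hK4`: any two vertices of `A` outside `Z ∪ {x_i}`; hub: any vertex of `A \ Z`,
`ζ := c/2`.
`bipt`: `U = A ∪ B`, all edges between `A` and `B`; `R x y :=` same side.  Vertices of `A' ⊆ A` (resp. `B' ⊆ B`) are adjacent
to all but `ε n` vertices of `B` (resp. `A`), all vertices have degree `≥ c n`.
`e3t`: from `absorb_e3`; `R = True`; `P4 ≥ η n^3` for all pairs of vertices: between any two classes there is a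
walk of length four in the pattern (loops at 0 and 3, path 0-1-2-3), choose the classes along it.
-/

open Finset

namespace H15C6

private theorem nct2_P4 {V : Type} [DecidableEq V] {E : Finset (Sym2 V)} {U S : Finset V}
    (hS : S ⊆ U) {x y : V} {p q : ℝ} (hp : 0 ≤ p) (hq : 0 ≤ q) (h1 : p ≤ (dg E S x : ℝ))
    (h2 : p ≤ (dg E S y : ℝ)) (h3 : ∀ a ∈ S, ∀ c ∈ S, q ≤ (cn E U a c : ℝ)) :
    p * p * q ≤ (P4 E U x y : ℝ) := by
  set Na := S.filter (fun a => s(x, a) ∈ E) with hNa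
  set Nc := S.filter (fun c => s(y, c) ∈ E) with hNc
  set F := (Na ×ˢ Nc).sigma (fun r => U.filter (fun m => s(r.1, m) ∈ E ∧ s(m, r.2) ∈ E)) with hF
  have c1 : F.card ≤ P4 E U x y := by
    unfold P4
    apply Finset.card_le_card_of_injOn (fun r : (Σ _ : V × V, V) => (r.1.1, r.2, r.1.2))
    · rintro ⟨⟨a, c⟩, b⟩ hr
      have hr' := Finset.mem_sigma.1 (Finset.mem_coe.1 hr)
      simp only [Finset.mem_product, Finset.mem_filter, hNa, hNc] at hr'
      obtain ⟨⟨⟨haS, hxa⟩, hcS, hyc⟩, hbU, hab, hbc⟩ := hr'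
      refine Finset.mem_coe.2 (Finset.mem_filter.2 ⟨?_, ?_⟩)
      · simp only [Finset.mem_product]
        exact ⟨hS haS, hbU, hS hcS⟩
      · exact ⟨hxa, hab, hbc, by rw [Sym2.eq_swap]; exact hyc⟩
    · rintro ⟨⟨a, c⟩, b⟩ _ ⟨⟨a', c'⟩, b'⟩ _ h
      simp only [Prod.mk.injEq] at h
      obtain ⟨rfl, rfl, rfl⟩ := h
      rfl
  have c2 : ((Na ×ˢ Nc).card : ℝ) * q ≤ (F.card : ℝ) := by
    rw [hF, Finset.card_sigma]
    push_cast
    rw [← nsmul_eq_mul]
    apply Finset.card_nsmul_le_sum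
    rintro ⟨a, c⟩ hr
    simp only [Finset.mem_product, Finset.mem_filter, hNa, hNc] at hr
    exact h3 a hr.1.1 c hr.2.1
  have c3 : ((Na ×ˢ Nc).card : ℝ) = (dg E S x : ℝ) * (dg E S y : ℝ) := by
    rw [Finset.card_product]; push_cast; rfl
  calc p * p * q ≤ (dg E S x : ℝ) * (dg E S y : ℝ) * q := by gcongr
    _ = ((Na ×ˢ Nc).card : ℝ) * q := by rw [c3]
    _ ≤ (F.card : ℝ) := c2
    _ ≤ _ := by exact_mod_cast c1

private theorem nct2_cn {V : Type} [DecidableEq V] {E : Finset (Sym2 V)} {U T : Finset V}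
    (hT : T ⊆ U) (a c : V) : dg E T a + dg E T c ≤ cn E U a c + T.card := by
  unfold dg cn
  rw [← Finset.card_union_add_card_inter]
  have h1 : ((T.filter (fun y => s(a, y) ∈ E)) ∪ (T.filter (fun y => s(c, y) ∈ E))).card ≤ T.card :=
    Finset.card_le_card (Finset.union_subset (Finset.filter_subset _ _) (Finset.filter_subset _ _))
  have h2 : ((T.filter (fun y => s(a, y) ∈ E)) ∩ (T.filter (fun y => s(c, y) ∈ E))).card ≤
      (U.filter (fun m => s(a, m) ∈ E ∧ s(m, c) ∈ E)).card := by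
    apply Finset.card_le_card
    intro m hm
    rw [Finset.mem_inter, Finset.mem_filter, Finset.mem_filter] at hm
    refine Finset.mem_filter.2 ⟨hT hm.1.1, hm.1.2, ?_⟩
    rw [Sym2.eq_swap]; exact hm.2.2
  omega

private theorem nct2_dg_sub {V : Type} [DecidableEq V] {E : Finset (Sym2 V)} {T T' : Finset V}
    (x : V) : dg E T x ≤ dg E T' x + (T \ T').card := by
  unfold dg
  refine le_trans (Finset.card_le_card ?_) (Finset.card_union_le _ _)
  intro y hy
  rw [Finset.mem_filter] at hy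
  by_cases h : y ∈ T'
  · exact Finset.mem_union_left _ (Finset.mem_filter.2 ⟨h, hy.2⟩)
  · exact Finset.mem_union_right _ (Finset.mem_sdiff.2 ⟨hy.1, h⟩)

theorem bipt (c : ℝ) (hc : 0 < c) :
    ∃ ε : ℝ, 0 < ε ∧ ∃ n0 : ℕ, ∀ (V : Type) [Fintype V] [DecidableEq V] (U A B A' B' : Finset V)
      (E : Finset (Sym2 V)), n0 ≤ U.card → Disjoint A B → U = A ∪ B → A' ⊆ A → B' ⊆ B →
      (∀ e ∈ E, ∃ a b, e = s(a, b) ∧ a ∈ A ∧ b ∈ B) → EvenDeg E → 6 ∣ E.card →
      c * (U.card : ℝ) ≤ (A.card : ℝ) → c * (U.card : ℝ) ≤ (B.card : ℝ) →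
      ((U \ (A' ∪ B')).card : ℝ) ≤ ε * U.card →
      (∀ a ∈ A', (B.card : ℝ) - ε * U.card ≤ (deg E a : ℝ)) →
      (∀ b ∈ B', (A.card : ℝ) - ε * U.card ≤ (deg E b : ℝ)) →
      (∀ u ∈ U, c * (U.card : ℝ) ≤ (deg E u : ℝ)) → Dec E := by
  obtain ⟨εA, hεA, hA⟩ := absorb_bip (c / 2) (c / 4) (by positivity) (by positivity)
  obtain ⟨M, hM⟩ := core ((c / 2) ^ 3) εA (by positivity) hεA
  obtain ⟨C, n1, hC⟩ := hA M
  obtain ⟨n2, hn2⟩ := hM C
  refine ⟨c / 8, by positivity, max n1 (max n2 (⌈80 / c⌉₊ + 1)), ?_⟩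
  intro V _ _ U A B A' B' E hn hAB hUAB hA' hB' hE hev h6 hcA hcB hU hdA hdB hdU
  have hn1 : n1 ≤ U.card := (le_max_left _ _).trans hn
  have hn2' : n2 ≤ U.card := ((le_max_left _ _).trans (le_max_right _ _)).trans hn
  have hn3 : ⌈80 / c⌉₊ + 1 ≤ U.card := ((le_max_right _ _).trans (le_max_right _ _)).trans hn
  have hbig : 80 < c * U.card := by
    have h1 : 80 / c ≤ (⌈80 / c⌉₊ : ℝ) := Nat.le_ceil _
    have h2 : ((⌈80 / c⌉₊ : ℝ) + 1) ≤ U.card := by exact_mod_cast hn3
    have h3 : 80 / c < U.card := by linarith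
    rw [div_lt_iff₀ hc] at h3
    linarith
  have hU0 : (0 : ℝ) ≤ U.card := Nat.cast_nonneg _
  have hAU : A ⊆ U := by rw [hUAB]; exact Finset.subset_union_left
  have hBU : B ⊆ U := by rw [hUAB]; exact Finset.subset_union_right
  have hEU : E ⊆ U.sym2 := by
    intro e he
    obtain ⟨a, b, rfl, ha, hb⟩ := hE e he
    rw [Finset.mk_mem_sym2_iff]
    exact ⟨hAU ha, hBU hb⟩
  have hside : ∀ x y, s(x, y) ∈ E → (x ∈ A ∧ y ∈ B) ∨ (x ∈ B ∧ y ∈ A) := by
    intro x y hxy
    obtain ⟨a, b, hab, ha, hb⟩ := hE _ hxy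
    rw [Sym2.eq_iff] at hab
    rcases hab with ⟨rfl, rfl⟩ | ⟨rfl, rfl⟩
    · exact Or.inl ⟨ha, hb⟩
    · exact Or.inr ⟨hb, ha⟩
  have hloop : Loopless E := by
    intro x hx
    rcases hside x x hx with h | h
    · exact Finset.disjoint_left.1 hAB h.1 h.2
    · exact Finset.disjoint_left.1 hAB h.2 h.1
  have hdegA : ∀ a ∈ A, deg E a = dg E B a := by
    intro a ha
    rw [deg_eq_dg hEU]
    unfold dg
    congr 1
    ext y
    rw [Finset.mem_filter, Finset.mem_filter]
    constructor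
    · rintro ⟨_, h⟩
      rcases hside a y h with h' | h'
      · exact ⟨h'.2, h⟩
      · exact absurd h'.1 (Finset.disjoint_left.1 hAB ha)
    · rintro ⟨h, h'⟩
      exact ⟨hBU h, h'⟩
  have hdegB : ∀ b ∈ B, deg E b = dg E A b := by
    intro b hb
    rw [deg_eq_dg hEU]
    unfold dg
    congr 1
    ext y
    rw [Finset.mem_filter, Finset.mem_filter]
    constructor
    · rintro ⟨_, h⟩
      rcases hside b y h with h' | h'
      · exact absurd hb (Finset.disjoint_left.1 hAB h'.1)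
      · exact ⟨h'.2, h⟩
    · rintro ⟨h, h'⟩
      exact ⟨hAU h, h'⟩
  have hcA' : ((A \ A').card : ℝ) ≤ c / 8 * U.card := by
    refine le_trans ?_ hU
    exact_mod_cast Finset.card_le_card (fun x hx => by
      rw [Finset.mem_sdiff] at hx
      rw [Finset.mem_sdiff, Finset.mem_union, not_or]
      exact ⟨hAU hx.1, hx.2, fun h => Finset.disjoint_left.1 hAB hx.1 (hB' h)⟩)
  have hcB' : ((B \ B').card : ℝ) ≤ c / 8 * U.card := by
    refine le_trans ?_ hU
    exact_mod_cast Finset.card_le_card (fun x hx => by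
      rw [Finset.mem_sdiff] at hx
      rw [Finset.mem_sdiff, Finset.mem_union, not_or]
      exact ⟨hBU hx.1, fun h => Finset.disjoint_left.1 hAB (hA' h) hx.1, hx.2⟩)
  -- absorbers
  have hGam : ∀ z ∈ A', ∀ x ∈ A, z ≠ x → Gam E U (c / 2) z x := by
    intro z hz x hx hzx
    refine ⟨hzx, ?_⟩
    have h1 : ((dg E B z + dg E B x : ℕ) : ℝ) ≤ ((cn E U z x + B.card : ℕ) : ℝ) := by
      exact_mod_cast nct2_cn hBU z x
    rw [← hdegA z (hA' hz), ← hdegA x hx] at h1
    push_cast at h1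
    have h2 := hdA z hz
    have h3 := hdU x (hAU hx)
    nlinarith
  have hGam' : ∀ z ∈ A', ∀ x ∈ A, x ≠ z → Gam E U (c / 2) z x := fun z hz x hx h =>
    hGam z hz x hx h.symm
  have hpickA : ∀ Q : Finset V, (Q.card : ℝ) < 7 * c / 8 * U.card → ∃ z ∈ A', z ∉ Q := by
    intro Q hQ
    have h1 : (A.card : ℝ) ≤ A'.card + (A \ A').card := by
      have : A.card ≤ A'.card + (A \ A').card := by
        have := Finset.card_sdiff_add_card_eq_card hA'
        omega
      exact_mod_cast this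
    have h2 : (Q.card : ℝ) < A'.card := by nlinarith
    exact Finset.exists_mem_notMem_of_card_lt_card (by exact_mod_cast h2)
  have habs := hC V U A B E hn1 hAB hUAB hE (by
    intro x1 hx1 x2 hx2 x3 hx3 x4 hx4 Z hZ
    have hcard : (((Z ∪ {x1, x2, x3, x4} : Finset V)).card : ℝ) ≤ Z.card + 4 := by
      have h1 := Finset.card_union_le Z ({x1, x2, x3, x4} : Finset V)
      have h2 : ({x1, x2, x3, x4} : Finset V).card ≤ 4 := Finset.card_le_four
      have h3 : (Z ∪ {x1, x2, x3, x4} : Finset V).card ≤ Z.card + 4 := by omega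
      exact_mod_cast h3
    obtain ⟨z, hzA, hz⟩ := hpickA (Z ∪ {x1, x2, x3, x4}) (by nlinarith)
    have hcard2 : ((insert z (Z ∪ {x1, x2, x3, x4} : Finset V)).card : ℝ) ≤ Z.card + 5 := by
      have h1 : ((insert z (Z ∪ {x1, x2, x3, x4} : Finset V)).card : ℝ) ≤
          (Z ∪ {x1, x2, x3, x4} : Finset V).card + 1 := by
        exact_mod_cast Finset.card_insert_le _ _
      linarith
    obtain ⟨w, hwA, hw⟩ := hpickA (insert z (Z ∪ {x1, x2, x3, x4})) (by nlinarith)
    simp only [Finset.mem_insert, Finset.mem_union, Finset.mem_singleton, not_or] at hz hw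
    refine ⟨z, hA' hzA, w, hA' hwA, hz.1, hw.2.1, hGam z hzA w (hA' hwA) (Ne.symm hw.1),
      ⟨hGam z hzA x1 hx1 hz.2.1, hGam z hzA x2 hx2 hz.2.2.1, hGam z hzA x3 hx3 hz.2.2.2.1,
        hGam z hzA x4 hx4 hz.2.2.2.2⟩,
      ⟨hGam w hwA x1 hx1 hw.2.2.1, hGam w hwA x2 hx2 hw.2.2.2.1, hGam w hwA x3 hx3 hw.2.2.2.2.1,
        hGam w hwA x4 hx4 hw.2.2.2.2.2⟩⟩)
  -- walks of length four
  refine hn2 V U E (fun x y => (x ∈ A ∧ y ∈ A) ∨ (x ∈ B ∧ y ∈ B))
    (fun H => EvenDeg H ∧ 6 ∣ H.card) hn2' hEU hloop ?_ ?_ (fun H h => h.1) ?_ ⟨hev, h6⟩ habs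
  · intro v x y hx hy
    rcases hside v x hx with h | h <;> rcases hside v y hy with h' | h'
    · exact Or.inr ⟨h.2, h'.2⟩
    · exact absurd h'.1 (Finset.disjoint_left.1 hAB h.1)
    · exact absurd h.1 (Finset.disjoint_left.1 hAB h'.1)
    · exact Or.inl ⟨h.2, h'.2⟩
  · intro x hx y hy hR
    have hpoly : (c / 2) ^ 3 * (U.card : ℝ) ^ 3 =
        (c / 2 * U.card) * (c / 2 * U.card) * (c / 2 * U.card) := by ring
    rw [hpoly]
    rcases hR with ⟨hxA, hyA⟩ | ⟨hxB, hyB⟩
    · refine nct2_P4 (S := B') (hB'.trans hBU) (by positivity) (by positivity) ?_ ?_ ?_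
      · have h1 : ((dg E B x : ℕ) : ℝ) ≤ ((dg E B' x + (B \ B').card : ℕ) : ℝ) := by
          exact_mod_cast nct2_dg_sub x
        rw [← hdegA x hxA] at h1
        push_cast at h1
        nlinarith [hdU x hx]
      · have h1 : ((dg E B y : ℕ) : ℝ) ≤ ((dg E B' y + (B \ B').card : ℕ) : ℝ) := by
          exact_mod_cast nct2_dg_sub y
        rw [← hdegA y hyA] at h1
        push_cast at h1
        nlinarith [hdU y hy]
      · intro a ha d hd
        have h1 : ((dg E A a + dg E A d : ℕ) : ℝ) ≤ ((cn E U a d + A.card : ℕ) : ℝ) := by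
          exact_mod_cast nct2_cn hAU a d
        rw [← hdegB a (hB' ha), ← hdegB d (hB' hd)] at h1
        push_cast at h1
        nlinarith [hdB a ha, hdB d hd]
    · refine nct2_P4 (S := A') (hA'.trans hAU) (by positivity) (by positivity) ?_ ?_ ?_
      · have h1 : ((dg E A x : ℕ) : ℝ) ≤ ((dg E A' x + (A \ A').card : ℕ) : ℝ) := by
          exact_mod_cast nct2_dg_sub x
        rw [← hdegB x hxB] at h1
        push_cast at h1
        nlinarith [hdU x hx]
      · have h1 : ((dg E A y : ℕ) : ℝ) ≤ ((dg E A' y + (A \ A').card : ℕ) : ℝ) := by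
          exact_mod_cast nct2_dg_sub y
        rw [← hdegB y hyB] at h1
        push_cast at h1
        nlinarith [hdU y hy]
      · intro a ha d hd
        have h1 : ((dg E B a + dg E B d : ℕ) : ℝ) ≤ ((cn E U a d + B.card : ℕ) : ℝ) := by
          exact_mod_cast nct2_cn hBU a d
        rw [← hdegA a (hA' ha), ← hdegA d (hA' hd)] at h1
        push_cast at h1
        nlinarith [hdA a ha, hdA d hd]
  · intro H C' hH hC' hC6
    refine ⟨hH.1.sdiff hC6.even hC', ?_⟩
    have h1 := Finset.card_sdiff_add_card_eq_card hC'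
    have h2 := hC6.card
    have h3 := hH.2
    rw [← h1, h2] at h3
    exact (Nat.dvd_add_left (dvd_refl 6)).1 h3

end H15C6
end S_NCT2

section S_NCT3
/-!
Module NCT3 (part of NCT).  Decomposition of nearly complete structures: near-complete graphs (`nct`), near-complete
bipartite graphs (`bipt`), near-complete blow-ups of the four-class pattern (`e3t`).
All by `core` + absorbers; `|U| = n`.

`nct`: all vertices have degree `≥ c n`; all vertices of `A ⊆ U` (`|U \ A| ≤ ε n`) have degree `≥ (1-ε) n`.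
`R = True`; for `x, y ∈ U`: `≥ (c-ε) n` choices each for `a ∈ N(x) ∩ A`, `c' ∈ N(y) ∩ A`, then `b` adjacent to both:
`≥ (1-2ε)n`, so `P4 ≥ (c/2)^2/2 n^3` (`η := c^2/16`).  `Gam` with `η' := c/2`: every vertex of `A` is `Gam`-adjacent to
every other vertex; `hK4`: any two vertices of `A` outside `Z ∪ {x_i}`; hub: any vertex of `A \ Z`,
`ζ := c/2`.
`bipt`: `U = A ∪ B`, all edges between `A` and `B`; `R x y :=` same side.  Vertices of `A' ⊆ A` (resp. `B' ⊆ B`) are adjacent
to all but `ε n` vertices of `B` (resp. `A`), all vertices have degree `≥ c n`.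
`e3t`: from `absorb_e3`; `R = True`; `P4 ≥ η n^3` for all pairs of vertices: between any two classes there is a
walk of length four in the pattern (loops at 0 and 3, path 0-1-2-3), choose the classes along it.
-/

open Finset

namespace H15C6

theorem nct3_walk : ∀ i j : Fin 4, ∃ p q r : Fin 4, PatE i p ∧ PatE p q ∧ PatE q r ∧ PatE r j := by
  decide

theorem nct3_symm : ∀ i j : Fin 4, PatE i j → PatE j i := by
  decide

section aux

variable {V : Type} [DecidableEq V]

theorem nct3_nbrs {U : Finset V} {E : Finset (Sym2 V)} {cl : V → Fin 4} {t τ : ℝ}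
    (hcl : ∀ i : Fin 4, t * U.card ≤ ((U.filter (fun x => cl x = i)).card : ℝ))
    (hmiss : ∀ x ∈ U, ((U.filter (fun y => PatE (cl x) (cl y) ∧ s(x, y) ∉ E)).card : ℝ) ≤
      τ * U.card) {x : V} (hx : x ∈ U) {p : Fin 4} (hp : PatE (cl x) p) :
    (t - τ) * U.card ≤ ((U.filter (fun a => cl a = p ∧ s(x, a) ∈ E)).card : ℝ) := by
  have hsub : U.filter (fun a => cl a = p) ⊆ U.filter (fun a => cl a = p ∧ s(x, a) ∈ E) ∪
      U.filter (fun y => PatE (cl x) (cl y) ∧ s(x, y) ∉ E) := by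
    intro a ha
    rw [Finset.mem_filter] at ha
    rw [Finset.mem_union, Finset.mem_filter, Finset.mem_filter]
    by_cases h : s(x, a) ∈ E
    · exact Or.inl ⟨ha.1, ha.2, h⟩
    · exact Or.inr ⟨ha.1, by rw [ha.2]; exact hp, h⟩
  have h1 := le_trans (Finset.card_le_card hsub) (Finset.card_union_le _ _)
  have h2 : ((U.filter (fun a => cl a = p)).card : ℝ) ≤
      ((U.filter (fun a => cl a = p ∧ s(x, a) ∈ E)).card : ℝ) +
        ((U.filter (fun y => PatE (cl x) (cl y) ∧ s(x, y) ∉ E)).card : ℝ) := by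
    exact_mod_cast h1
  have h3 := hcl p
  have h4 := hmiss x hx
  linarith

theorem nct3_mid {U : Finset V} {E : Finset (Sym2 V)} {cl : V → Fin 4} {t τ : ℝ}
    (hcl : ∀ i : Fin 4, t * U.card ≤ ((U.filter (fun x => cl x = i)).card : ℝ))
    (hmiss : ∀ x ∈ U, ((U.filter (fun y => PatE (cl x) (cl y) ∧ s(x, y) ∉ E)).card : ℝ) ≤
      τ * U.card) {a c : V} (ha : a ∈ U) (hc : c ∈ U) {q : Fin 4} (haq : PatE (cl a) q)
    (hcq : PatE (cl c) q) :
    (t - 2 * τ) * U.card ≤
      ((U.filter (fun b => s(a, b) ∈ E ∧ s(b, c) ∈ E)).card : ℝ) := by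
  have hsub : U.filter (fun b => cl b = q) ⊆ U.filter (fun b => s(a, b) ∈ E ∧ s(b, c) ∈ E) ∪
      (U.filter (fun y => PatE (cl a) (cl y) ∧ s(a, y) ∉ E) ∪
        U.filter (fun y => PatE (cl c) (cl y) ∧ s(c, y) ∉ E)) := by
    intro b hb
    rw [Finset.mem_filter] at hb
    rw [Finset.mem_union, Finset.mem_union, Finset.mem_filter, Finset.mem_filter,
      Finset.mem_filter]
    by_cases h : s(a, b) ∈ E
    · by_cases h' : s(c, b) ∈ E
      · rw [Sym2.eq_swap] at h'
        exact Or.inl ⟨hb.1, h, h'⟩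
      · exact Or.inr (Or.inr ⟨hb.1, by rw [hb.2]; exact hcq, h'⟩)
    · exact Or.inr (Or.inl ⟨hb.1, by rw [hb.2]; exact haq, h⟩)
  have h1 := le_trans (Finset.card_le_card hsub) (le_trans (Finset.card_union_le _ _)
    (Nat.add_le_add_left (Finset.card_union_le _ _) _))
  have h2 : ((U.filter (fun b => cl b = q)).card : ℝ) ≤
      ((U.filter (fun b => s(a, b) ∈ E ∧ s(b, c) ∈ E)).card : ℝ) +
        (((U.filter (fun y => PatE (cl a) (cl y) ∧ s(a, y) ∉ E)).card : ℝ) +
          ((U.filter (fun y => PatE (cl c) (cl y) ∧ s(c, y) ∉ E)).card : ℝ)) := by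
    exact_mod_cast h1
  have h3 := hcl q
  have h4 := hmiss a ha
  have h5 := hmiss c hc
  linarith

theorem nct3_P4 {U : Finset V} {E : Finset (Sym2 V)} (Ac Cc : Finset V) {x y : V} {m : ℝ}
    (hA : ∀ a ∈ Ac, a ∈ U ∧ s(x, a) ∈ E) (hC : ∀ c ∈ Cc, c ∈ U ∧ s(c, y) ∈ E)
    (hB : ∀ a ∈ Ac, ∀ c ∈ Cc, m ≤ ((U.filter (fun b => s(a, b) ∈ E ∧ s(b, c) ∈ E)).card : ℝ)) :
    (Ac.card : ℝ) * Cc.card * m ≤ (P4 E U x y : ℝ) := by
  have h1 : ((Ac ×ˢ Cc).sigma (fun p => U.filter (fun b => s(p.1, b) ∈ E ∧ s(b, p.2) ∈ E))).card ≤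
      P4 E U x y := by
    unfold P4
    apply Finset.card_le_card_of_injOn (fun z => (z.1.1, z.2, z.1.2))
    · rintro ⟨⟨a, c⟩, b⟩ hz
      have hz' := Finset.mem_sigma.1 (Finset.mem_coe.1 hz)
      obtain ⟨h1, h2⟩ := hz'
      rw [Finset.mem_product] at h1
      rw [Finset.mem_filter] at h2
      obtain ⟨ha, hc⟩ := h1
      apply Finset.mem_coe.2
      rw [Finset.mem_filter, Finset.mem_product, Finset.mem_product]
      exact ⟨⟨(hA a ha).1, h2.1, (hC c hc).1⟩, (hA a ha).2, h2.2.1, h2.2.2, (hC c hc).2⟩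
    · rintro ⟨⟨a, c⟩, b⟩ _ ⟨⟨a', c'⟩, b'⟩ _ h
      simp only [Prod.mk.injEq] at h
      obtain ⟨rfl, rfl, rfl⟩ := h
      rfl
  rw [Finset.card_sigma] at h1
  have h2 : (Ac.card : ℝ) * Cc.card * m ≤
      ∑ p ∈ Ac ×ˢ Cc, ((U.filter (fun b => s(p.1, b) ∈ E ∧ s(b, p.2) ∈ E)).card : ℝ) := by
    have h3 : ∑ _p ∈ Ac ×ˢ Cc, m = (Ac.card : ℝ) * Cc.card * m := by
      rw [Finset.sum_const, Finset.card_product, nsmul_eq_mul]
      push_cast
      ring
    rw [← h3]
    apply Finset.sum_le_sum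
    intro p hp
    rw [Finset.mem_product] at hp
    exact hB p.1 hp.1 p.2 hp.2
  refine le_trans h2 ?_
  exact_mod_cast h1

theorem nct3_nV1_sdiff (cl : V → Fin 4) {H C : Finset (Sym2 V)} (h : C ⊆ H) :
    nV1 cl (H \ C) + nV1 cl C = nV1 cl H := by
  unfold nV1
  rw [← Finset.card_union_of_disjoint (Finset.disjoint_filter_filter Finset.sdiff_disjoint),
    ← Finset.filter_union, Finset.sdiff_union_of_subset h]

end aux

theorem e3t (t : ℝ) (ht : 0 < t) :
    ∃ τ : ℝ, 0 < τ ∧ ∃ n0 : ℕ, ∀ (V : Type) [Fintype V] [DecidableEq V] (U : Finset V)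
      (E : Finset (Sym2 V)) (cl : V → Fin 4), n0 ≤ U.card → E ⊆ U.sym2 → Loopless E →
      EvenDeg E → 6 ∣ E.card → (∀ x y, s(x, y) ∈ E → PatE (cl x) (cl y)) →
      (∀ i : Fin 4, t * U.card ≤ ((U.filter (fun x => cl x = i)).card : ℝ)) →
      (∀ x ∈ U, ((U.filter (fun y => PatE (cl x) (cl y) ∧ s(x, y) ∉ E)).card : ℝ) ≤ τ * U.card) →
      Even (nV1 cl E) → Dec E := by
  obtain ⟨τ₀, ε, hτ₀, hε, habs⟩ := absorb_e3 t ht
  obtain ⟨M, hM⟩ := core ((t / 2) ^ 3) ε (by positivity) hε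
  obtain ⟨C, n1, hC⟩ := habs M
  obtain ⟨n2, hcore⟩ := hM C
  refine ⟨min τ₀ (t / 4), by positivity, max n1 n2, ?_⟩
  intro V _ _ U E cl hn hEU hE hev h6 hpat hcl hmiss heven
  have hU0 : (0 : ℝ) ≤ U.card := Nat.cast_nonneg _
  have hmiss0 : ∀ x ∈ U, ((U.filter (fun y => PatE (cl x) (cl y) ∧ s(x, y) ∉ E)).card : ℝ) ≤
      τ₀ * U.card := fun x hx => le_trans (hmiss x hx)
    (mul_le_mul_of_nonneg_right (min_le_left _ _) hU0)
  have hmiss1 : ∀ x ∈ U, ((U.filter (fun y => PatE (cl x) (cl y) ∧ s(x, y) ∉ E)).card : ℝ) ≤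
      (t / 4) * U.card := fun x hx => le_trans (hmiss x hx)
    (mul_le_mul_of_nonneg_right (min_le_right _ _) hU0)
  refine hcore V U E (fun _ _ => True) (fun H => H ⊆ E ∧ EvenDeg H ∧ 6 ∣ H.card ∧
    Even (nV1 cl H)) (le_trans (le_max_right _ _) hn) hEU hE (fun _ _ _ _ _ => trivial) ?_
    (fun H h => h.2.1) ?_ ⟨Finset.Subset.refl _, hev, h6, heven⟩
    (hC V U E cl (le_trans (le_max_left _ _) hn) hEU hE hpat hcl hmiss0)
  · intro x hx y hy _
    obtain ⟨p, q, r, h1, h2, h3, h4⟩ := nct3_walk (cl x) (cl y)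
    have hA := nct3_nbrs hcl hmiss1 hx h1
    have hCc := nct3_nbrs hcl hmiss1 hy (nct3_symm _ _ h4)
    have key := nct3_P4 (U := U) (E := E) (x := x) (y := y) (m := (t - 2 * (t / 4)) * U.card)
      (U.filter (fun a => cl a = p ∧ s(x, a) ∈ E)) (U.filter (fun a => cl a = r ∧ s(y, a) ∈ E))
      (by
        intro a ha
        rw [Finset.mem_filter] at ha
        exact ⟨ha.1, ha.2.2⟩) (by
        intro c hc
        rw [Finset.mem_filter] at hc
        exact ⟨hc.1, by rw [Sym2.eq_swap]; exact hc.2.2⟩) (by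
        intro a ha c hc
        rw [Finset.mem_filter] at ha hc
        exact nct3_mid hcl hmiss1 ha.1 hc.1 (q := q) (by rw [ha.2.1]; exact h2)
          (by rw [hc.2.1]; exact nct3_symm _ _ h3))
    refine le_trans ?_ key
    have hA' : t / 2 * U.card ≤ ((U.filter (fun a => cl a = p ∧ s(x, a) ∈ E)).card : ℝ) := by
      refine le_trans ?_ hA
      apply mul_le_mul_of_nonneg_right _ hU0
      linarith
    have hC' : t / 2 * U.card ≤ ((U.filter (fun a => cl a = r ∧ s(y, a) ∈ E)).card : ℝ) := by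
      refine le_trans ?_ hCc
      apply mul_le_mul_of_nonneg_right _ hU0
      linarith
    have e1 : (t - 2 * (t / 4)) * (U.card : ℝ) = t / 2 * U.card := by ring
    rw [e1]
    have h0 : 0 ≤ t / 2 * (U.card : ℝ) := by positivity
    calc (t / 2) ^ 3 * (U.card : ℝ) ^ 3 = (t / 2 * U.card) * (t / 2 * U.card) *
          (t / 2 * U.card) := by ring
      _ ≤ _ := mul_le_mul_of_nonneg_right (mul_le_mul hA' hC' h0 (le_trans h0 hA')) h0
  · rintro H C' ⟨hHE, hHev, hH6, hHV⟩ hCH hC6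
    refine ⟨Finset.sdiff_subset.trans hHE, hHev.sdiff hC6.even hCH, ?_, ?_⟩
    · have h1 := Finset.card_sdiff_add_card_eq_card hCH
      rw [hC6.card] at h1
      omega
    · have h1 := nct3_nV1_sdiff cl hCH
      have h2 := c6_even_V1 cl C' hC6 (fun x y hxy => hpat x y (hHE (hCH hxy)))
      rw [← h1] at hHV
      exact (Nat.even_add.1 hHV).2 h2

end H15C6
end S_NCT3
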