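import Mathlib
import Pool.Agent.H15.C6F.FE
import Pool.Agent.H15.C6F.FF

section S_SDefs
/-!
Definitions for the stability part (all graphs on a finite type `V`, `n = |V|`).
-/

open Finset

namespace H15C6

variable {V : Type} [Fintype V] [DecidableEq V]

/-- number of vertices -/
abbrev nV (V : Type) [Fintype V] : ℝ := (Fintype.card V : ℝ)

/-- `x` and `w` have fewer than `η n` common neighbours -/
def Small (E : Finset (Sym2 V)) (η : ℝ) (x w : V) : Prop := (cn E Finset.univ x w : ℝ) < η * nV V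

open Classical in
/-- no four sets `S_x` cover almost all vertices -/
def NE4 (E : Finset (Sym2 V)) (η μ : ℝ) : Prop :=
  ∀ x1 x2 x3 x4 : V, μ * nV V ≤ ((Finset.univ.filter (fun w => ¬ Small E η x1 w ∧
    ¬ Small E η x2 w ∧ ¬ Small E η x3 w ∧ ¬ Small E η x4 w)).card : ℝ)

/-- the neighbourhood of every vertex of `A` is `T` up to `ε n` vertices -/
def NbrsLike (E : Finset (Sym2 V)) (ε : ℝ) (A T : Finset V) : Prop :=
  ∀ a ∈ A, ((Finset.univ.filter (fun y => s(a, y) ∈ E ∧ y ∉ T)).card : ℝ) ≤ ε * nV V ∧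
    ((T.filter (fun y => s(a, y) ∉ E)).card : ℝ) ≤ ε * nV V

/-- two almost complete halves -/
def Ext1 (E : Finset (Sym2 V)) (ε : ℝ) : Prop :=
  ∃ A B : Finset V, Disjoint A B ∧ (1 / 2 - ε) * nV V ≤ A.card ∧ (1 / 2 - ε) * nV V ≤ B.card ∧
    NbrsLike E ε A A ∧ NbrsLike E ε B B

/-- almost complete bipartite -/
def Ext2 (E : Finset (Sym2 V)) (ε : ℝ) : Prop :=
  ∃ A B : Finset V, Disjoint A B ∧ (1 / 2 - ε) * nV V ≤ A.card ∧ (1 / 2 - ε) * nV V ≤ B.card ∧
    NbrsLike E ε A B ∧ NbrsLike E ε B A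

/-- almost complete blow-up of the path with loops at both ends -/
def Ext3 (E : Finset (Sym2 V)) (t ε : ℝ) : Prop :=
  ∃ V1 V2 V3 V4 : Finset V, Disjoint V1 V2 ∧ Disjoint V1 V3 ∧ Disjoint V1 V4 ∧ Disjoint V2 V3 ∧
    Disjoint V2 V4 ∧ Disjoint V3 V4 ∧
    t * nV V ≤ V1.card ∧ t * nV V ≤ V2.card ∧ t * nV V ≤ V3.card ∧ t * nV V ≤ V4.card ∧
    (1 - ε) * nV V ≤ ((V1 ∪ V2 ∪ V3 ∪ V4).card : ℝ) ∧
    NbrsLike E ε V1 (V1 ∪ V2) ∧ NbrsLike E ε V2 (V1 ∪ V3) ∧ NbrsLike E ε V3 (V2 ∪ V4) ∧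
    NbrsLike E ε V4 (V3 ∪ V4)

end H15C6
end S_SDefs

section S_CLS
/-!
Module CLS.  Finite classification of weighted patterns with at most four classes.

`I` = set of (large) classes, `c i ≥ 100 s` their weights with total in `[1-4s, 1]`, `P` a symmetric
relation such that every row `r i = {j ∈ I : P i j}` has weight `1/2 ± 5s`.

Write `wt A = ∑_{j ∈ A} c j`.  For subsets `A, B ⊆ I`: `|wt A - wt B| ≤ 20 s` and `A ⊆ B` imply `A = B`.
(a) `r i ⊆ r j → r i = r j`; (b) `r i ∩ r j = ∅ → r i ∪ r j = I`; (c) `r i ∪ r j = I → r i ∩ r j = ∅`;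
(d) `r i ≠ ∅`, `r i ≠ I`.
(e) If some row is a singleton `{a}`: every row is `{a}` (if it contains `a`, by (a)) or `I \ {a}`
  (by (b)).  Row `a` is `{a}` or `I \ {a}`.  By symmetry `P j b ↔ ¬ P j a` for all `b ≠ a`, and `P j a ↔ P a j`.
  If `r a = {a}`: `P j a ↔ j = a`, so `r j = I \ {a}` for `j ≠ a`: two cliques (`f j = 0` iff `j = a`).
  If `r a = I \ {a}`: `r j = {a}` for `j ≠ a`: bipartite.
(f) If some row has `|I| - 1` elements, `r i = I \ {a}`: rows containing `a` are `{a}` by (c), all others are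
  contained in `I \ {a}`, hence equal to it.  If no row is `{a}` then all rows are `I \ {a}`, but then
  `P a j` is false.. for `j ≠ a` row `j` does not contain `a`, so by symmetry row `a` contains no `j ≠ a`,
  and it does not contain `a`: empty, contradiction with (d).  So (e) applies.
(g) Otherwise `|I| = 4` and all rows have exactly two elements.  If `P i i` for no `i`: the graph is a
  4-cycle: bipartite.  If `P a a`, row `a = {a,b}`; row `b` is `{a,b}` (then the other two classes form a clique: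
  two cliques) or `{a,c}` with `c ≠ a,b`; then row `c` contains `b`, not `a`; `r c = {b,c}` would leave row
  `d ⊆ {d}`; so `r c = {b,d}` and `r d = {c,d}`: the path `a b c d` with loops at the ends.
  (This finite step can also be done by `decide` on Boolean matrices.)
-/

open Finset

namespace H15C6

/-- the three extremal patterns: `0` two cliques, `1` bipartite, `2` path with loops at both ends -/
def Pat (k : Fin 3) (a b : Fin 4) : Prop :=
  (k = 0 ∧ a = b) ∨ (k = 1 ∧ a ≠ b) ∨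
  (k = 2 ∧ ((a = 0 ∧ b = 0) ∨ (a = 3 ∧ b = 3) ∨ (a = 0 ∧ b = 1) ∨ (a = 1 ∧ b = 0) ∨
    (a = 1 ∧ b = 2) ∨ (a = 2 ∧ b = 1) ∨ (a = 2 ∧ b = 3) ∨ (a = 3 ∧ b = 2)))

/-! ### the finite check for four classes and rows of size two -/

def clsM (a00 a01 a02 a03 a11 a12 a13 a22 a23 a33 : Bool) : Fin 4 → Fin 4 → Bool :=
  ![![a00, a01, a02, a03], ![a01, a11, a12, a13], ![a02, a12, a22, a23], ![a03, a13, a23, a33]]

def clsPat (k : Fin 3) (a b : Fin 4) : Bool :=
  (decide (k = 0) && decide (a = b)) || (decide (k = 1) && decide (a ≠ b)) ||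
  (decide (k = 2) && ((decide (a = 0) && decide (b = 0)) || (decide (a = 3) && decide (b = 3)) ||
    (decide (a = 0) && decide (b = 1)) || (decide (a = 1) && decide (b = 0)) ||
    (decide (a = 1) && decide (b = 2)) || (decide (a = 2) && decide (b = 1)) ||
    (decide (a = 2) && decide (b = 3)) || (decide (a = 3) && decide (b = 2))))

theorem clsPat_iff : ∀ (k : Fin 3) (a b : Fin 4), clsPat k a b = true ↔ Pat k a b := by
  intro k a b
  unfold clsPat Pat
  simp only [Bool.or_eq_true, Bool.and_eq_true, decide_eq_true_eq, or_assoc]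

def clsCnt (a b c d : Bool) : Bool :=
  (a && b && !c && !d) || (a && !b && c && !d) || (a && !b && !c && d) ||
  (!a && b && c && !d) || (!a && b && !c && d) || (!a && !b && c && d)

def clsAll (p : Fin 4 → Bool) : Bool := p 0 && p 1 && p 2 && p 3

theorem clsAll_spec {p : Fin 4 → Bool} (h : clsAll p = true) : ∀ i, p i = true := by
  unfold clsAll at h
  simp only [Bool.and_eq_true] at h
  intro i
  fin_cases i
  · exact h.1.1.1
  · exact h.1.1.2
  · exact h.1.2
  · exact h.2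

def clsF (t : Fin 3 × Fin 4 × Fin 4 × Fin 4 × Fin 4) : Fin 4 → Fin 4 :=
  ![t.2.1, t.2.2.1, t.2.2.2.1, t.2.2.2.2]

def clsL : List (Fin 3 × Fin 4 × Fin 4 × Fin 4 × Fin 4) :=
  [(0,0,0,1,1),(0,0,1,0,1),(0,0,1,1,0),(1,0,0,1,1),(1,0,1,0,1),(1,0,1,1,0)] ++
  (([0,1,2,3].product ([0,1,2,3].product ([0,1,2,3].product [0,1,2,3]))).map
    (fun t => ((2 : Fin 3), t.1, t.2.1, t.2.2.1, t.2.2.2))).filter
    (fun t => t.2.1 ≠ t.2.2.1 ∧ t.2.1 ≠ t.2.2.2.1 ∧ t.2.1 ≠ t.2.2.2.2 ∧ t.2.2.1 ≠ t.2.2.2.1 ∧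
      t.2.2.1 ≠ t.2.2.2.2 ∧ t.2.2.2.1 ≠ t.2.2.2.2)

theorem clsL_spec : ∀ t ∈ clsL,
    (t.1 ≠ 2 → (∀ i, clsF t i = 0 ∨ clsF t i = 1) ∧ (∃ i, clsF t i = 0) ∧ (∃ i, clsF t i = 1)) ∧
      (t.1 = 2 → ∀ i j, clsF t i = clsF t j → i = j) := by
  decide +kernel

theorem cls_fin : ∀ a00 a01 a02 a03 a11 a12 a13 a22 a23 a33 : Bool,
    clsCnt a00 a01 a02 a03 = true → clsCnt a01 a11 a12 a13 = true →
    clsCnt a02 a12 a22 a23 = true → clsCnt a03 a13 a23 a33 = true →
    clsL.any (fun t => clsAll (fun i => clsAll (fun j =>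
      clsM a00 a01 a02 a03 a11 a12 a13 a22 a23 a33 i j == clsPat t.1 (clsF t i) (clsF t j)))) =
        true := by
  decide +kernel

theorem cls_card_filter (q : Fin 4 → Prop) [DecidablePred q]
    (h : (Finset.univ.filter q).card = 2) :
    clsCnt (decide (q 0)) (decide (q 1)) (decide (q 2)) (decide (q 3)) = true := by
  rw [Finset.card_filter, Fin.sum_univ_four] at h
  by_cases h0 : q 0 <;> by_cases h1 : q 1 <;> by_cases h2 : q 2 <;> by_cases h3 : q 3 <;>
    simp [h0, h1, h2, h3, clsCnt] at h ⊢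

theorem cls_four (P : Fin 4 → Fin 4 → Prop) [DecidableRel P] (hsym : ∀ i j, P i j → P j i)
    (hcard : ∀ i, (Finset.univ.filter (fun j => P i j)).card = 2) :
    ∃ (k : Fin 3) (f : Fin 4 → Fin 4), (∀ i j, P i j ↔ Pat k (f i) (f j)) ∧
      (k ≠ 2 → (∀ i, f i = 0 ∨ f i = 1) ∧ (∃ i, f i = 0) ∧ (∃ i, f i = 1)) ∧
      (k = 2 → Function.Bijective f) := by
  have hs : ∀ i j, decide (P i j) = decide (P j i) := by
    intro i j
    exact decide_eq_decide.2 ⟨hsym i j, hsym j i⟩
  have h0 := cls_card_filter _ (hcard 0)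
  have h1 := cls_card_filter _ (hcard 1)
  have h2 := cls_card_filter _ (hcard 2)
  have h3 := cls_card_filter _ (hcard 3)
  rw [hs 1 0] at h1
  rw [hs 2 0, hs 2 1] at h2
  rw [hs 3 0, hs 3 1, hs 3 2] at h3
  have h := cls_fin _ _ _ _ _ _ _ _ _ _ h0 h1 h2 h3
  rw [List.any_eq_true] at h
  obtain ⟨t, ht, h⟩ := h
  have h4 : ∀ i j, clsM (decide (P 0 0)) (decide (P 0 1)) (decide (P 0 2)) (decide (P 0 3))
      (decide (P 1 1)) (decide (P 1 2)) (decide (P 1 3)) (decide (P 2 2)) (decide (P 2 3))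
      (decide (P 3 3)) i j = clsPat t.1 (clsF t i) (clsF t j) := by
    intro i j
    exact beq_iff_eq.1 (clsAll_spec (clsAll_spec h i) j)
  have h5 : ∀ i j, clsM (decide (P 0 0)) (decide (P 0 1)) (decide (P 0 2)) (decide (P 0 3))
      (decide (P 1 1)) (decide (P 1 2)) (decide (P 1 3)) (decide (P 2 2)) (decide (P 2 3))
      (decide (P 3 3)) i j = decide (P i j) := by
    intro i j
    fin_cases i <;> fin_cases j <;> simp only [clsM] <;> first | rfl | exact hs _ _
  obtain ⟨hs1, hs2⟩ := clsL_spec t ht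
  refine ⟨t.1, clsF t, ?_, hs1, ?_⟩
  · intro i j
    rw [← clsPat_iff, ← h4, h5, decide_eq_true_eq]
  · intro hk
    exact Finite.injective_iff_bijective.1 (fun i j hij => hs2 hk i j hij)

/-! ### rows with one element -/

theorem cls_single (I : Finset (Fin 4)) (P : Fin 4 → Fin 4 → Prop) [DecidableRel P]
    (hsym : ∀ i ∈ I, ∀ j ∈ I, P i j → P j i)
    (ha : ∀ i ∈ I, ∀ j ∈ I, I.filter (fun x => P i x) ⊆ I.filter (fun x => P j x) →
      I.filter (fun x => P i x) = I.filter (fun x => P j x))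
    (hb : ∀ i ∈ I, ∀ j ∈ I, I.filter (fun x => P i x) ∩ I.filter (fun x => P j x) = ∅ →
      I.filter (fun x => P i x) ∪ I.filter (fun x => P j x) = I)
    (hd : ∀ i ∈ I, I.filter (fun x => P i x) ≠ ∅)
    (hd' : ∀ i ∈ I, I.filter (fun x => P i x) ≠ I)
    (i0 : Fin 4) (hi0 : i0 ∈ I) (a : Fin 4) (hr : I.filter (fun x => P i0 x) = {a}) :
    ∃ (k : Fin 3) (f : Fin 4 → Fin 4), (∀ i ∈ I, ∀ j ∈ I, P i j ↔ Pat k (f i) (f j)) ∧
      (k ≠ 2 → (∀ i ∈ I, f i = 0 ∨ f i = 1) ∧ (∃ i ∈ I, f i = 0) ∧ (∃ i ∈ I, f i = 1)) ∧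
      (k = 2 → I = Finset.univ ∧ Function.Bijective f) := by
  have haI : a ∈ I := by
    have : a ∈ I.filter (fun x => P i0 x) := by rw [hr]; exact Finset.mem_singleton_self a
    exact (Finset.mem_filter.1 this).1
  have hne : ∃ b ∈ I, b ≠ a := by
    by_contra hcon
    push Not at hcon
    apply hd' i0 hi0
    rw [hr]
    ext x
    rw [Finset.mem_singleton]
    exact ⟨fun h => h ▸ haI, fun h => hcon x h⟩
  -- rows containing `a`
  have h1 : ∀ j ∈ I, P j a → ∀ x ∈ I, P j x ↔ x = a := by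
    intro j hj hja x hx
    have h2 := ha i0 hi0 j hj (by
      rw [hr, Finset.singleton_subset_iff, Finset.mem_filter]
      exact ⟨haI, hja⟩)
    rw [hr] at h2
    have h3 : x ∈ ({a} : Finset (Fin 4)) ↔ x ∈ I.filter (fun x => P j x) := by rw [h2]
    rw [Finset.mem_singleton, Finset.mem_filter] at h3
    exact ⟨fun h => h3.2 ⟨hx, h⟩, fun h => (h3.1 h).2⟩
  have h2 : ∀ j ∈ I, ¬ P j a → ∀ x ∈ I, P j x ↔ x ≠ a := by
    intro j hj hja x hx
    have h3 := hb i0 hi0 j hj (by
      rw [hr, Finset.eq_empty_iff_forall_notMem]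
      intro y hy
      rw [Finset.mem_inter, Finset.mem_singleton, Finset.mem_filter] at hy
      exact hja (hy.1 ▸ hy.2.2))
    rw [hr] at h3
    have h4 : x ∈ {a} ∪ I.filter (fun x => P j x) ↔ x ∈ I := by rw [h3]
    rw [Finset.mem_union, Finset.mem_singleton, Finset.mem_filter] at h4
    constructor
    · intro h hxa
      exact hja (hxa ▸ h)
    · intro h
      exact ((h4.2 hx).resolve_left h).2
  have h3 : ∀ j ∈ I, P j a ↔ P a j := fun j hj => ⟨hsym j hj a haI, hsym a haI j hj⟩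
  obtain ⟨b, hb1, hb2⟩ := hne
  by_cases hPa : P a a
  · refine ⟨0, fun i => if i = a then 0 else 1, ?_, ?_, fun h => absurd h (by decide)⟩
    · intro i hi j hj
      have h4 : P i a ↔ i = a := by rw [h3 i hi]; exact h1 a haI hPa i hi
      unfold Pat
      by_cases hia : i = a
      · subst hia
        rw [h1 i hi hPa j hj]
        by_cases hji : j = i <;> simp [hji]
      · have h5 : ¬ P i a := fun h => hia (h4.1 h)
        rw [h2 i hi h5 j hj]
        by_cases hja : j = a <;> simp [hja, hia]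
    · intro _
      refine ⟨?_, ⟨a, haI, by simp⟩, ⟨b, hb1, by simp [hb2]⟩⟩
      intro i _
      by_cases hia : i = a <;> simp [hia]
  · refine ⟨1, fun i => if i = a then 0 else 1, ?_, ?_, fun h => absurd h (by decide)⟩
    · intro i hi j hj
      have h4 : P i a ↔ i ≠ a := by rw [h3 i hi]; exact h2 a haI hPa i hi
      unfold Pat
      by_cases hia : i = a
      · subst hia
        rw [h2 i hi hPa j hj]
        by_cases hji : j = i
        · simp [hji]
        · simp [hji]
      · have h5 : P i a := h4.2 hia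
        rw [h1 i hi h5 j hj]
        by_cases hja : j = a
        · simp [hja, hia]
        · simp [hja, hia]
    · intro _
      refine ⟨?_, ⟨a, haI, by simp⟩, ⟨b, hb1, by simp [hb2]⟩⟩
      intro i _
      by_cases hia : i = a <;> simp [hia]

theorem cls_comb (I : Finset (Fin 4)) (P : Fin 4 → Fin 4 → Prop) [DecidableRel P]
    (hI : I.Nonempty) (hsym : ∀ i ∈ I, ∀ j ∈ I, P i j → P j i)
    (ha : ∀ i ∈ I, ∀ j ∈ I, I.filter (fun x => P i x) ⊆ I.filter (fun x => P j x) →
      I.filter (fun x => P i x) = I.filter (fun x => P j x))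
    (hb : ∀ i ∈ I, ∀ j ∈ I, I.filter (fun x => P i x) ∩ I.filter (fun x => P j x) = ∅ →
      I.filter (fun x => P i x) ∪ I.filter (fun x => P j x) = I)
    (hc : ∀ i ∈ I, ∀ j ∈ I, I.filter (fun x => P i x) ∪ I.filter (fun x => P j x) = I →
      I.filter (fun x => P i x) ∩ I.filter (fun x => P j x) = ∅)
    (hd : ∀ i ∈ I, I.filter (fun x => P i x) ≠ ∅)
    (hd' : ∀ i ∈ I, I.filter (fun x => P i x) ≠ I) :
    ∃ (k : Fin 3) (f : Fin 4 → Fin 4), (∀ i ∈ I, ∀ j ∈ I, P i j ↔ Pat k (f i) (f j)) ∧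
      (k ≠ 2 → (∀ i ∈ I, f i = 0 ∨ f i = 1) ∧ (∃ i ∈ I, f i = 0) ∧ (∃ i ∈ I, f i = 1)) ∧
      (k = 2 → I = Finset.univ ∧ Function.Bijective f) := by
  classical
  by_cases hsing : ∃ i ∈ I, ∃ a, I.filter (fun x => P i x) = {a}
  · obtain ⟨i0, hi0, a, hr⟩ := hsing
    exact cls_single I P hsym ha hb hd hd' i0 hi0 a hr
  push Not at hsing
  -- no row misses exactly one class
  have hco : ∀ i ∈ I, ∀ a ∈ I, I.filter (fun x => P i x) ≠ I.erase a := by
    intro i hi a haI he
    have h1 : ∀ j ∈ I, ¬ P j a := by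
      intro j hj hja
      have h2 : I.filter (fun x => P i x) ∪ I.filter (fun x => P j x) = I := by
        rw [he]
        ext x
        simp only [Finset.mem_union, Finset.mem_erase, Finset.mem_filter]
        constructor
        · rintro (h | h)
          · exact h.2
          · exact h.1
        · intro h
          by_cases hxa : x = a
          · right; rw [hxa]; exact ⟨haI, hja⟩
          · left; exact ⟨hxa, h⟩
      have h3 := hc i hi j hj h2
      apply hsing j hj a
      ext x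
      rw [Finset.mem_singleton, Finset.mem_filter]
      constructor
      · intro h
        by_contra hxa
        have : x ∈ I.filter (fun x => P i x) ∩ I.filter (fun x => P j x) := by
          rw [Finset.mem_inter, he, Finset.mem_erase, Finset.mem_filter]
          exact ⟨⟨hxa, h.1⟩, h⟩
        rw [h3] at this
        exact Finset.notMem_empty _ this
      · intro h
        rw [h]
        exact ⟨haI, hja⟩
    apply hd a haI
    rw [Finset.filter_eq_empty_iff]
    intro x hx hax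
    exact h1 x hx (hsym a haI x hx hax)
  -- sizes of the rows
  have hlow : ∀ i ∈ I, 2 ≤ (I.filter (fun x => P i x)).card := by
    intro i hi
    have h1 : (I.filter (fun x => P i x)).card ≠ 0 := fun h => hd i hi (Finset.card_eq_zero.1 h)
    have h2 : (I.filter (fun x => P i x)).card ≠ 1 := by
      intro h
      obtain ⟨a, h3⟩ := Finset.card_eq_one.1 h
      exact hsing i hi a h3
    omega
  have hupp : ∀ i ∈ I, (I.filter (fun x => P i x)).card + 2 ≤ I.card := by
    intro i hi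
    have h1 : (I \ I.filter (fun x => P i x)).card + (I.filter (fun x => P i x)).card = I.card :=
      Finset.card_sdiff_add_card_eq_card (Finset.filter_subset _ _)
    have h2 : (I \ I.filter (fun x => P i x)).card ≠ 0 := by
      intro h
      apply hd' i hi
      apply Finset.Subset.antisymm (Finset.filter_subset _ _)
      rw [← Finset.sdiff_eq_empty_iff_subset]
      exact Finset.card_eq_zero.1 h
    have h3 : (I \ I.filter (fun x => P i x)).card ≠ 1 := by
      intro h
      obtain ⟨a, h4⟩ := Finset.card_eq_one.1 h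
      have haI : a ∈ I := by
        have : a ∈ I \ I.filter (fun x => P i x) := by rw [h4]; exact Finset.mem_singleton_self a
        exact (Finset.mem_sdiff.1 this).1
      apply hco i hi a haI
      rw [Finset.erase_eq, ← h4, Finset.sdiff_sdiff_eq_self (Finset.filter_subset _ _)]
    omega
  obtain ⟨i1, hi1⟩ := hI
  have hIcard : I.card ≤ 4 := by
    have := Finset.card_le_univ I
    simpa using this
  have hIu : I = Finset.univ := by
    apply Finset.eq_univ_of_card
    have h1 := hlow i1 hi1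
    have h2 := hupp i1 hi1
    rw [Fintype.card_fin]
    omega
  subst hIu
  have hcard : ∀ i, (Finset.univ.filter (fun j => P i j)).card = 2 := by
    intro i
    have h1 := hlow i (Finset.mem_univ i)
    have h2 := hupp i (Finset.mem_univ i)
    omega
  obtain ⟨k, f, h1, h2, h3⟩ := cls_four P
    (fun i j => hsym i (Finset.mem_univ i) j (Finset.mem_univ j)) hcard
  refine ⟨k, f, fun i _ j _ => h1 i j, ?_, fun hk => ⟨rfl, h3 hk⟩⟩
  intro hk
  obtain ⟨h4, ⟨i, h5⟩, ⟨j, h6⟩⟩ := h2 hk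
  exact ⟨fun i _ => h4 i, ⟨i, Finset.mem_univ i, h5⟩, ⟨j, Finset.mem_univ j, h6⟩⟩

theorem classify (s : ℝ) (hs : 0 < s) (hs1 : s ≤ 1 / 1000) (I : Finset (Fin 4)) (c : Fin 4 → ℝ)
    (hc : ∀ i ∈ I, 100 * s ≤ c i) (hsum : 1 - 4 * s ≤ ∑ i ∈ I, c i) (hsum' : ∑ i ∈ I, c i ≤ 1)
    (P : Fin 4 → Fin 4 → Prop) [DecidableRel P] (hsym : ∀ i ∈ I, ∀ j ∈ I, P i j → P j i)
    (hrow : ∀ i ∈ I, 1 / 2 - 5 * s ≤ ∑ j ∈ I.filter (fun j => P i j), c j)
    (hrow' : ∀ i ∈ I, ∑ j ∈ I.filter (fun j => P i j), c j ≤ 1 / 2 + 5 * s) :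
    ∃ (k : Fin 3) (f : Fin 4 → Fin 4), (∀ i ∈ I, ∀ j ∈ I, P i j ↔ Pat k (f i) (f j)) ∧
      (k ≠ 2 → (∀ i ∈ I, f i = 0 ∨ f i = 1) ∧ (∃ i ∈ I, f i = 0) ∧ (∃ i ∈ I, f i = 1)) ∧
      (k = 2 → I = Finset.univ ∧ Function.Bijective f) := by
  classical
  have key : ∀ A B : Finset (Fin 4), A ⊆ B → B ⊆ I → ∑ j ∈ B, c j < ∑ j ∈ A, c j + 100 * s →
      A = B := by
    intro A B hAB hBI hlt
    apply Finset.Subset.antisymm hAB
    intro x hxB
    by_contra hxA
    have h1 : insert x A ⊆ B := Finset.insert_subset hxB hAB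
    have h2 : ∑ j ∈ insert x A, c j ≤ ∑ j ∈ B, c j := by
      apply Finset.sum_le_sum_of_subset_of_nonneg h1
      intro j hj _
      have := hc j (hBI hj)
      linarith
    rw [Finset.sum_insert hxA] at h2
    have := hc x (hBI hxB)
    linarith
  have hsub : ∀ i, I.filter (fun j => P i j) ⊆ I := fun i => Finset.filter_subset _ _
  apply cls_comb I P
  · rw [Finset.nonempty_iff_ne_empty]
    rintro rfl
    simp only [Finset.sum_empty] at hsum
    linarith
  · exact hsym
  · intro i hi j hj h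
    exact key _ _ h (hsub j) (by linarith [hrow i hi, hrow' j hj])
  · intro i hi j hj h
    apply key _ _ (Finset.union_subset (hsub i) (hsub j)) (Finset.Subset.refl _)
    rw [Finset.sum_union (Finset.disjoint_iff_inter_eq_empty.2 h)]
    linarith [hrow i hi, hrow j hj]
  · intro i hi j hj h
    symm
    apply key _ _ (Finset.empty_subset _) (Finset.inter_subset_left.trans (hsub i))
    have h1 := Finset.sum_union_inter (s₁ := I.filter (fun x => P i x))
      (s₂ := I.filter (fun x => P j x)) (f := c)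
    rw [h] at h1
    rw [Finset.sum_empty]
    linarith [hrow' i hi, hrow' j hj]
  · intro i hi h
    have := hrow i hi
    rw [h, Finset.sum_empty] at this
    linarith
  · intro i hi h
    have := hrow' i hi
    rw [h] at this
    linarith

end H15C6
end S_CLS

section S_STA1A
/-!
Module STA1A (part of STA1).  Three lemmas for the stability theorem.  `n = |V|`.

`twin_classes`: `x_1..x_4` from `¬ NE4`; `C i := {w : Small x_i w} \ ⋃_{j<i} {w : Small x_j w}`,
`M i := V \ N(x_i)`.  For `w ∈ C i`: `|N(w) \ M i| = |N(w) ∩ N(x_i)| < η n`, and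
`|M i \ N(w)| = |M i| - |N(w)| + |N(w) \ M i| ≤ (n+1)/2 - (n-1)/2 + η n ≤ 2 η n` for large `n`.
-/

open Finset

namespace H15C6

theorem sta1a_deg {V : Type} [Fintype V] [DecidableEq V] (E : Finset (Sym2 V)) (x : V) :
    deg E x = dg E Finset.univ x := by
  unfold deg dg
  symm
  apply Finset.card_bij (fun y _ => s(x, y))
  · intro y hy
    rw [Finset.mem_filter] at hy ⊢
    exact ⟨hy.2, by simp⟩
  · intro y _ y' _ h
    exact Sym2.congr_right.1 h
  · intro e he
    rw [Finset.mem_filter] at he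
    obtain ⟨y, rfl⟩ := he.2
    exact ⟨y, by simpa using he.1, rfl⟩

/-- basic counting for a vertex `w` with few common neighbours with `x` -/
theorem sta1a_count {V : Type} [Fintype V] [DecidableEq V] (E : Finset (Sym2 V)) (η : ℝ)
    (hd : ∀ v, Fintype.card V ≤ 2 * deg E v + 1) (hn : 1 ≤ η * nV V) (x w : V)
    (h : Small E η x w) :
    (((Finset.univ.filter (fun y => s(w, y) ∈ E ∧
        y ∉ Finset.univ.filter (fun y => s(x, y) ∉ E))).card : ℝ) ≤ 2 * η * nV V ∧
      (((Finset.univ.filter (fun y => s(x, y) ∉ E)).filter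
        (fun y => s(w, y) ∉ E)).card : ℝ) ≤ 2 * η * nV V) ∧
    (1 / 2 - 2 * η) * nV V ≤ ((Finset.univ.filter (fun y => s(x, y) ∉ E)).card : ℝ) ∧
    ((Finset.univ.filter (fun y => s(x, y) ∉ E)).card : ℝ) ≤ (1 / 2 + 2 * η) * nV V := by
  have e1 : (Finset.univ.filter (fun y => s(w, y) ∈ E ∧
        y ∉ Finset.univ.filter (fun y => s(x, y) ∉ E))).card = cn E Finset.univ x w := by
    unfold cn
    congr 1
    ext y
    simp only [Finset.mem_filter, Finset.mem_univ, true_and, not_not]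
    rw [Sym2.eq_swap (a := w) (b := y)]
    tauto
  have e2 : dg E Finset.univ x + (Finset.univ.filter (fun y => s(x, y) ∉ E)).card =
      Fintype.card V := by
    unfold dg
    rw [Finset.card_filter_add_card_filter_not]
    rfl
  -- the number of neighbours of `w`
  have e3 : dg E Finset.univ w = cn E Finset.univ x w +
      ((Finset.univ.filter (fun y => s(x, y) ∉ E)).filter (fun y => s(w, y) ∈ E)).card := by
    rw [← e1]
    unfold dg
    rw [← Finset.card_filter_add_card_filter_not (s := Finset.univ.filter (fun y => s(w, y) ∈ E))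
      (fun y => y ∉ Finset.univ.filter (fun y => s(x, y) ∉ E))]
    congr 1
    · congr 1
      ext y
      simp only [Finset.mem_filter, Finset.mem_univ, true_and, not_not]
    · congr 1
      ext y
      simp only [Finset.mem_filter, Finset.mem_univ, true_and, not_not]
      tauto
  have e4 : ((Finset.univ.filter (fun y => s(x, y) ∉ E)).filter (fun y => s(w, y) ∈ E)).card +
      ((Finset.univ.filter (fun y => s(x, y) ∉ E)).filter (fun y => s(w, y) ∉ E)).card =
      (Finset.univ.filter (fun y => s(x, y) ∉ E)).card :=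
    Finset.card_filter_add_card_filter_not _
  have dx := hd x
  have dw := hd w
  rw [sta1a_deg] at dx dw
  have hs : (cn E Finset.univ x w : ℝ) < η * nV V := h
  rw [e1]
  set a := ((Finset.univ.filter (fun y => s(x, y) ∉ E)).filter (fun y => s(w, y) ∈ E)).card
  set b := ((Finset.univ.filter (fun y => s(x, y) ∉ E)).filter (fun y => s(w, y) ∉ E)).card
  set m := (Finset.univ.filter (fun y => s(x, y) ∉ E)).card
  set c := cn E Finset.univ x w
  set p := dg E Finset.univ x
  set q := dg E Finset.univ w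
  have f2 : (p : ℝ) + m = nV V := by unfold nV; exact_mod_cast e2
  have f3 : (q : ℝ) = c + a := by exact_mod_cast e3
  have f4 : (a : ℝ) + b = m := by exact_mod_cast e4
  have f5 : nV V ≤ 2 * (p : ℝ) + 1 := by unfold nV; exact_mod_cast dx
  have f6 : nV V ≤ 2 * (q : ℝ) + 1 := by unfold nV; exact_mod_cast dw
  have hb : (0 : ℝ) ≤ b := Nat.cast_nonneg _
  refine ⟨⟨?_, ?_⟩, ?_, ?_⟩ <;> nlinarith

theorem twin_classes (η μ : ℝ) (hη : 0 < η) (hη' : η ≤ 1 / 10) :
    ∃ n0 : ℕ, ∀ (V : Type) [Fintype V] [DecidableEq V] (E : Finset (Sym2 V)),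
      n0 ≤ Fintype.card V → Loopless E → (∀ v, Fintype.card V ≤ 2 * deg E v + 1) →
      ¬ NE4 E η μ →
      ∃ C M : Fin 4 → Finset V, (∀ i j, i ≠ j → Disjoint (C i) (C j)) ∧
        (1 - μ) * nV V ≤ ((Finset.univ.biUnion C).card : ℝ) ∧
        (∀ i, (C i).Nonempty → (1 / 2 - 2 * η) * nV V ≤ ((M i).card : ℝ) ∧
          ((M i).card : ℝ) ≤ (1 / 2 + 2 * η) * nV V) ∧
        (∀ i, NbrsLike E (2 * η) (C i) (M i)) := by
  obtain ⟨n0, hn0⟩ := exists_nat_gt (1 / η)
  refine ⟨n0, ?_⟩
  intro V _ _ E hcard _ hd hne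
  classical
  have hn : 1 ≤ η * nV V := by
    have h1 : (1 / η : ℝ) < nV V := lt_of_lt_of_le hn0 (by unfold nV; exact_mod_cast hcard)
    rw [div_lt_iff₀ hη] at h1
    linarith
  unfold NE4 at hne
  push Not at hne
  obtain ⟨x1, x2, x3, x4, hx⟩ := hne
  let X : Fin 4 → V := ![x1, x2, x3, x4]
  let C : Fin 4 → Finset V := fun i =>
    Finset.univ.filter (fun w => Small E η (X i) w ∧ ∀ j, j < i → ¬ Small E η (X j) w)
  refine ⟨C, fun i => Finset.univ.filter (fun y => s(X i, y) ∉ E), ?_, ?_, ?_, ?_⟩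
  · intro i j hij
    rw [Finset.disjoint_left]
    intro w hw hw'
    simp only [C, Finset.mem_filter, Finset.mem_univ, true_and] at hw hw'
    rcases lt_or_gt_of_ne hij with h | h
    · exact hw'.2 i h hw.1
    · exact hw.2 j h hw'.1
  · -- the union
    have h1 : (Finset.univ.filter (fun w => ¬ Small E η x1 w ∧
        ¬ Small E η x2 w ∧ ¬ Small E η x3 w ∧ ¬ Small E η x4 w)) ∪ Finset.univ.biUnion C =
        Finset.univ := by
      rw [Finset.eq_univ_iff_forall]
      intro w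
      rw [Finset.mem_union, Finset.mem_filter, Finset.mem_biUnion]
      by_cases h : ∃ i, Small E η (X i) w
      · right
        obtain ⟨i, hi, hmin⟩ : ∃ i, Small E η (X i) w ∧ ∀ j, j < i → ¬ Small E η (X j) w := by
          by_cases h0 : Small E η (X 0) w
          · exact ⟨0, h0, fun j hj => absurd hj (by simp)⟩
          by_cases h1 : Small E η (X 1) w
          · refine ⟨1, h1, fun j hj => ?_⟩
            fin_cases j
            · exact h0
            all_goals exact absurd hj (by decide)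
          by_cases h2 : Small E η (X 2) w
          · refine ⟨2, h2, fun j hj => ?_⟩
            fin_cases j
            · exact h0
            · exact h1
            all_goals exact absurd hj (by decide)
          obtain ⟨i, hi⟩ := h
          fin_cases i
          · exact absurd hi h0
          · exact absurd hi h1
          · exact absurd hi h2
          refine ⟨3, hi, fun j hj => ?_⟩
          fin_cases j
          · exact h0
          · exact h1
          · exact h2
          all_goals exact absurd hj (by decide)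
        exact ⟨i, Finset.mem_univ _, by
          simp only [C, Finset.mem_filter, Finset.mem_univ, true_and]; exact ⟨hi, hmin⟩⟩
      · left
        push Not at h
        exact ⟨Finset.mem_univ _, h 0, h 1, h 2, h 3⟩
    have h2 : Fintype.card V ≤ (Finset.univ.filter (fun w => ¬ Small E η x1 w ∧
        ¬ Small E η x2 w ∧ ¬ Small E η x3 w ∧ ¬ Small E η x4 w)).card +
        (Finset.univ.biUnion C).card := by
      have h3 := congrArg Finset.card h1
      rw [Finset.card_univ] at h3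
      rw [← h3]
      exact Finset.card_union_le _ _
    have h3 : nV V ≤ ((Finset.univ.filter (fun w => ¬ Small E η x1 w ∧
        ¬ Small E η x2 w ∧ ¬ Small E η x3 w ∧ ¬ Small E η x4 w)).card : ℝ) +
        ((Finset.univ.biUnion C).card : ℝ) := by unfold nV; exact_mod_cast h2
    linarith
  · rintro i ⟨w, hw⟩
    simp only [C, Finset.mem_filter, Finset.mem_univ, true_and] at hw
    exact (sta1a_count E η hd hn (X i) w hw.1).2
  · intro i w hw
    simp only [C, Finset.mem_filter, Finset.mem_univ, true_and] at hw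
    exact (sta1a_count E η hd hn (X i) w hw.1).1

end H15C6
end S_STA1A

section S_STA1B
/-!
Module STA1B (part of STA1).  Three lemmas for the stability theorem.  `n = |V|`.

`twin_classes`: `x_1..x_4` from `¬ NE4`; `C i := {w : Small x_i w} \ ⋃_{j<i} {w : Small x_j w}`,
`M i := V \ N(x_i)`.  For `w ∈ C i`: `|N(w) \ M i| = |N(w) ∩ N(x_i)| < η n`, and
`|M i \ N(w)| = |M i| - |N(w)| + |N(w) \ M i| ≤ (n+1)/2 - (n-1)/2 + η n ≤ 2 η n` for large `n`.

`zero_one`: for `(w,u) ∈ Ci × Cj` the number of pairs with `[wu ∈ E] ≠ [u ∈ Mi]` is at most `4 η n |Ci|`, the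
number with `[wu ∈ E] ≠ [w ∈ Mj]` at most `4 η n |Cj|`.  So with `p = |Mi ∩ Cj|`, `q = |Mj ∩ Ci|`:
`p (|Ci| - q) + (|Cj| - p) q ≤ 8 η n²`.  If `q ≤ |Ci|/2` then `p ≤ 16 η n/s' ≤ |Cj|/2` and then
`q ≤ 16 η n/s'`; else `|Cj| - p ≤ 16 η n/s'`, so `p ≥ |Cj|/2` and `|Ci| - q ≤ 16 η n/s'`.

`scales`: define `sc 5, sc 4, ..., sc 0` downwards by `sc i := min (stuff) (G (sc (i+1)))`.
Pigeonhole: if for every `i < 5` some `c j ∈ [sc i, sc (i+1))`, the map `i ↦ j` is injective
(disjoint intervals, `sc` increasing), impossible from `Fin 5` to `Fin 4`.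
-/

open Finset

namespace H15C6

theorem sta1b_row {V : Type} [Fintype V] [DecidableEq V] (E : Finset (Sym2 V)) (η : ℝ)
    (A B M : Finset V) (h : NbrsLike E (2 * η) A M) :
    (((A ×ˢ B).filter (fun t => ¬ (s(t.1, t.2) ∈ E ↔ t.2 ∈ M))).card : ℝ) ≤
      A.card * (4 * η * nV V) := by
  have h1 : ((A ×ˢ B).filter (fun t => ¬ (s(t.1, t.2) ∈ E ↔ t.2 ∈ M))).card =
      ∑ w ∈ A, (B.filter (fun u => ¬ (s(w, u) ∈ E ↔ u ∈ M))).card := by
    rw [Finset.card_filter, Finset.sum_product]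
    refine Finset.sum_congr rfl fun w _ => ?_
    rw [Finset.card_filter]
  rw [h1]
  push_cast
  rw [← nsmul_eq_mul]
  refine Finset.sum_le_card_nsmul _ _ _ fun w hw => ?_
  obtain ⟨e1, e2⟩ := h w hw
  have h2 : (B.filter (fun u => ¬ (s(w, u) ∈ E ↔ u ∈ M))) ⊆
      (Finset.univ.filter (fun y => s(w, y) ∈ E ∧ y ∉ M)) ∪ (M.filter (fun y => s(w, y) ∉ E)) := by
    intro u hu
    simp only [Finset.mem_filter, Finset.mem_union, Finset.mem_univ, true_and] at hu ⊢
    tauto
  have h3 : ((B.filter (fun u => ¬ (s(w, u) ∈ E ↔ u ∈ M))).card : ℝ) ≤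
      ((Finset.univ.filter (fun y => s(w, y) ∈ E ∧ y ∉ M)).card : ℝ) +
        ((M.filter (fun y => s(w, y) ∉ E)).card : ℝ) := by
    exact_mod_cast (Finset.card_le_card h2).trans (Finset.card_union_le _ _)
  linarith

theorem sta1b_num {a b p q n η s' : ℝ} (hη : 0 < η) (hs' : 0 < s') (hηs : 32 * η ≤ s' ^ 2)
    (hn : 0 < n) (ha : s' * n ≤ a) (hb : s' * n ≤ b) (hp : 0 ≤ p) (hq : 0 ≤ q) (hqa : q ≤ a)
    (hpb : p ≤ b) (h : p * (a - q) + (b - p) * q ≤ 8 * η * n ^ 2) :
    (p ≤ 16 * η / s' * n ∧ q ≤ 16 * η / s' * n) ∨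
      (b - p ≤ 16 * η / s' * n ∧ a - q ≤ 16 * η / s' * n) := by
  have key : ∀ x y : ℝ, 0 ≤ x → s' * n / 2 ≤ y → x * y ≤ 8 * η * n ^ 2 →
      x ≤ 16 * η / s' * n := by
    intro x y hx hy hxy
    have h1 : x * (s' * n / 2) ≤ 8 * η * n ^ 2 := (mul_le_mul_of_nonneg_left hy hx).trans hxy
    rw [div_mul_eq_mul_div, le_div_iff₀ hs']
    have h2 : (x * s') * n ≤ (16 * η * n) * n := by nlinarith
    exact le_of_mul_le_mul_right h2 hn
  have hsmall : 16 * η / s' * n ≤ s' * n / 2 := by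
    rw [div_mul_eq_mul_div, div_le_iff₀ hs']
    nlinarith
  have hp1 : 0 ≤ p * (a - q) := mul_nonneg hp (by linarith)
  have hq1 : 0 ≤ (b - p) * q := mul_nonneg (by linarith) hq
  by_cases hc : q ≤ a / 2
  · left
    have e1 : p ≤ 16 * η / s' * n := key p (a - q) hp (by linarith) (by linarith)
    refine ⟨e1, ?_⟩
    exact key q (b - p) hq (by linarith) (by linarith)
  · right
    push Not at hc
    have e1 : b - p ≤ 16 * η / s' * n := key (b - p) q (by linarith) (by linarith) (by linarith)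
    refine ⟨e1, ?_⟩
    exact key (a - q) p (by linarith) (by linarith) (by linarith)

theorem zero_one {V : Type} [Fintype V] [DecidableEq V] (E : Finset (Sym2 V)) (η s' : ℝ)
    (hη : 0 < η) (hs' : 0 < s') (hηs : 32 * η ≤ s' ^ 2) (Ci Cj Mi Mj : Finset V)
    (hCi : s' * nV V ≤ (Ci.card : ℝ)) (hCj : s' * nV V ≤ (Cj.card : ℝ)) (hn : 0 < nV V)
    (hi : NbrsLike E (2 * η) Ci Mi) (hj : NbrsLike E (2 * η) Cj Mj) :
    (((Mi ∩ Cj).card : ℝ) ≤ 16 * η / s' * nV V ∧ ((Mj ∩ Ci).card : ℝ) ≤ 16 * η / s' * nV V) ∨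
    (((Cj \ Mi).card : ℝ) ≤ 16 * η / s' * nV V ∧ ((Ci \ Mj).card : ℝ) ≤ 16 * η / s' * nV V) := by
  have r1 := sta1b_row E η Ci Cj Mi hi
  have r2 := sta1b_row E η Cj Ci Mj hj
  -- the second count in the other order
  have r3 : (((Ci ×ˢ Cj).filter (fun t => ¬ (s(t.1, t.2) ∈ E ↔ t.1 ∈ Mj))).card : ℝ) ≤
      Cj.card * (4 * η * nV V) := by
    refine le_trans (le_of_eq ?_) r2
    congr 1
    refine Finset.card_bij (fun t _ => (t.2, t.1)) ?_ ?_ ?_
    · intro t ht
      simp only [Finset.mem_filter, Finset.mem_product] at ht ⊢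
      rw [Sym2.eq_swap (a := t.2) (b := t.1)]
      exact ⟨⟨ht.1.2, ht.1.1⟩, ht.2⟩
    · intro t _ t' _ h
      simp only [Prod.mk.injEq] at h
      exact Prod.ext h.2 h.1
    · intro t ht
      simp only [Finset.mem_filter, Finset.mem_product] at ht
      refine ⟨(t.2, t.1), ?_, rfl⟩
      simp only [Finset.mem_filter, Finset.mem_product]
      rw [Sym2.eq_swap (a := t.2) (b := t.1)]
      exact ⟨⟨ht.1.2, ht.1.1⟩, ht.2⟩
  have hsub : ((Ci \ Mj) ×ˢ (Cj ∩ Mi)) ∪ ((Ci ∩ Mj) ×ˢ (Cj \ Mi)) ⊆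
      ((Ci ×ˢ Cj).filter (fun t => ¬ (s(t.1, t.2) ∈ E ↔ t.2 ∈ Mi))) ∪
      ((Ci ×ˢ Cj).filter (fun t => ¬ (s(t.1, t.2) ∈ E ↔ t.1 ∈ Mj))) := by
    intro t ht
    simp only [Finset.mem_filter, Finset.mem_union, Finset.mem_product, Finset.mem_sdiff,
      Finset.mem_inter] at ht ⊢
    tauto
  have hdisj : Disjoint ((Ci \ Mj) ×ˢ (Cj ∩ Mi)) ((Ci ∩ Mj) ×ˢ (Cj \ Mi)) := by
    rw [Finset.disjoint_left]
    intro t h1 h2
    simp only [Finset.mem_product, Finset.mem_sdiff, Finset.mem_inter] at h1 h2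
    exact h1.1.2 h2.1.2
  have hcard := Finset.card_le_card hsub
  rw [Finset.card_union_of_disjoint hdisj, Finset.card_product, Finset.card_product] at hcard
  have hcard2 : (((Ci \ Mj).card * (Cj ∩ Mi).card + (Ci ∩ Mj).card * (Cj \ Mi).card : ℕ) : ℝ) ≤
      (((Ci ×ˢ Cj).filter (fun t => ¬ (s(t.1, t.2) ∈ E ↔ t.2 ∈ Mi))).card : ℝ) +
      (((Ci ×ˢ Cj).filter (fun t => ¬ (s(t.1, t.2) ∈ E ↔ t.1 ∈ Mj))).card : ℝ) := by
    exact_mod_cast hcard.trans (Finset.card_union_le _ _)
  push_cast at hcard2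
  have hCin : (Ci.card : ℝ) ≤ nV V := by exact_mod_cast Finset.card_le_univ Ci
  have hCjn : (Cj.card : ℝ) ≤ nV V := by exact_mod_cast Finset.card_le_univ Cj
  have e1 : ((Ci \ Mj).card : ℝ) = Ci.card - (Mj ∩ Ci).card := by
    rw [Finset.inter_comm, eq_sub_iff_add_eq]
    exact_mod_cast Finset.card_sdiff_add_card_inter Ci Mj
  have e2 : ((Cj \ Mi).card : ℝ) = Cj.card - (Mi ∩ Cj).card := by
    rw [Finset.inter_comm, eq_sub_iff_add_eq]
    exact_mod_cast Finset.card_sdiff_add_card_inter Cj Mi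
  rw [Finset.inter_comm Cj Mi, Finset.inter_comm Ci Mj] at hcard2
  rw [e1, e2] at hcard2 ⊢
  refine sta1b_num hη hs' hηs hn hCi hCj (Nat.cast_nonneg _) (Nat.cast_nonneg _) ?_ ?_ ?_
  · exact_mod_cast Finset.card_le_card Finset.inter_subset_right
  · exact_mod_cast Finset.card_le_card Finset.inter_subset_right
  · have h4 : 0 ≤ 4 * η * nV V := by positivity
    have h5 : (Ci.card : ℝ) * (4 * η * nV V) ≤ nV V * (4 * η * nV V) :=
      mul_le_mul_of_nonneg_right hCin h4
    have h6 : (Cj.card : ℝ) * (4 * η * nV V) ≤ nV V * (4 * η * nV V) :=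
      mul_le_mul_of_nonneg_right hCjn h4
    nlinarith

/-- the scales -/
noncomputable def sta1b_f (G : ℝ → ℝ) (a : ℝ) : ℕ → ℝ
  | 0 => a
  | (k + 1) => min (G (sta1b_f G a k)) (sta1b_f G a k / 100)

theorem scales (G : ℝ → ℝ) (hG : ∀ t, 0 < t → 0 < G t) (a : ℝ) (ha : 0 < a) :
    ∃ sc : Fin 6 → ℝ, (∀ i, 0 < sc i) ∧ (∀ i, sc i ≤ a) ∧
      (∀ i : Fin 5, sc i.castSucc ≤ G (sc i.succ) ∧ 100 * sc i.castSucc ≤ sc i.succ) ∧
      ∀ c : Fin 4 → ℝ, ∃ i : Fin 5, ∀ j, c j < sc i.castSucc ∨ sc i.succ ≤ c j := by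
  have hpos : ∀ k, 0 < sta1b_f G a k := by
    intro k
    induction k with
    | zero => exact ha
    | succ k ih => exact lt_min (hG _ ih) (by positivity)
  have hanti : Antitone (sta1b_f G a) := by
    refine antitone_nat_of_succ_le fun k => ?_
    show min (G (sta1b_f G a k)) (sta1b_f G a k / 100) ≤ sta1b_f G a k
    refine (min_le_right _ _).trans ?_
    have := hpos k
    linarith
  have hstep : ∀ i : Fin 5, (5 - (i.castSucc : Fin 6).val) = (5 - (i.succ : Fin 6).val) + 1 := by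
    intro i
    have := i.isLt
    simp only [Fin.val_castSucc, Fin.val_succ]
    omega
  refine ⟨fun i => sta1b_f G a (5 - i.val), fun i => hpos _, fun i => ?_, fun i => ?_, ?_⟩
  · exact hanti (Nat.zero_le _)
  · show sta1b_f G a (5 - (i.castSucc : Fin 6).val) ≤ G (sta1b_f G a (5 - (i.succ : Fin 6).val)) ∧
      100 * sta1b_f G a (5 - (i.castSucc : Fin 6).val) ≤ sta1b_f G a (5 - (i.succ : Fin 6).val)
    rw [hstep i]
    refine ⟨min_le_left _ _, ?_⟩
    have : sta1b_f G a (5 - (i.succ : Fin 6).val + 1) ≤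
      sta1b_f G a (5 - (i.succ : Fin 6).val) / 100 := min_le_right _ _
    linarith
  · intro c
    by_contra hcon
    push Not at hcon
    choose j hj1 hj2 using hcon
    have hinj : Function.Injective j := by
      have hlt : ∀ i i' : Fin 5, i < i' → j i ≠ j i' := by
        intro i i' hii heq
        have h1 := hj2 i
        have h2 := hj1 i'
        rw [heq] at h1
        have h3 : sta1b_f G a (5 - (i.succ : Fin 6).val) ≤
            sta1b_f G a (5 - (i'.castSucc : Fin 6).val) := by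
          apply hanti
          have : i.val < i'.val := hii
          simp only [Fin.val_castSucc, Fin.val_succ]
          omega
        exact absurd (h2.trans_lt h1) (not_lt.2 h3)
      intro i i' heq
      rcases lt_trichotomy i i' with h | h | h
      · exact absurd heq (hlt i i' h)
      · exact h
      · exact absurd heq.symm (hlt i' i h)
    have := Fintype.card_le_of_injective j hinj
    simp at this

end H15C6
end S_STA1B

section S_STA2
/-!
Module STA2.  The stability theorem.  `n = |V|`.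

Take `sc` from `scales` with `a := min (ε2/12) (1/1000)` and `G t := min (g t) 1 / 12`.  Put
`s0 := sc 0` (the smallest one; all others are larger), `μ := s0/4`, `η := s0^3/10^6`.  `T :=` image of `sc`.
Assume `¬ NE4 E η μ`; `twin_classes` gives `C, M`.  `c j := |C j|/n`; choose `i : Fin 5` by the pigeonhole,
`s := sc i.castSucc`, `s' := sc i.succ`; `I := {j : s' ≤ c j}`, for `j ∉ I` `c j < s`.
`κ := 16 η/s' ≤ s/64`.  For `i, j ∈ I` put `P i j :⇔ |C j \ M i| ≤ κ n`; by `zero_one` (and `κ n < |C j|/2`) `P` is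
symmetric, and `¬ P i j → |M i ∩ C j| ≤ κ n`.  With `T_i := ⋃_{j ∈ I, P i j} C j`:
`|M i \ T_i| ≤ (μ + 3 s + 4 κ) n` (the set of vertices outside `⋃_{j ∈ I} C j` has at most `(μ + 3s) n`
elements), `|T_i \ M i| ≤ 4 κ n`, so `NbrsLike E (6 s) (C i) T_i` and
`| |T_i| - n/2 | ≤ 5 s n`.  Apply `classify` (with weights `c`, parameter `s`).
`k = 0`: `A := ⋃_{i ∈ I, f i = 0} C i`, `B := ⋃_{i ∈ I, f i = 1} C i`: `T_i = A` for `f i = 0`, etc.: `Ext1 E (6s)`;
`k = 1`: `Ext2`; `k = 2`: `V_m := C (f⁻¹ m)`: `Ext3 E s' (6 s)` and `6 s ≤ g s'`.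
`NbrsLike` and `Ext*` are monotone in the error parameter.
-/

open Finset

namespace H15C6

section Aux

variable {V : Type} [Fintype V] [DecidableEq V] {E : Finset (Sym2 V)}

theorem sta2_mono {ε ε' : ℝ} {A T : Finset V} (h : NbrsLike E ε A T) (hε : ε ≤ ε') :
    NbrsLike E ε' A T := by
  intro a ha
  have h0 : (0:ℝ) ≤ nV V := Nat.cast_nonneg _
  obtain ⟨h1, h2⟩ := h a ha
  have h3 := mul_le_mul_of_nonneg_right hε h0
  exact ⟨h1.trans h3, h2.trans h3⟩

theorem sta2_biUnion {ε : ℝ} {J : Finset (Fin 4)} {C : Fin 4 → Finset V} {T : Finset V}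
    (h : ∀ j ∈ J, NbrsLike E ε (C j) T) : NbrsLike E ε (J.biUnion C) T := by
  intro a ha
  obtain ⟨j, hj, haj⟩ := Finset.mem_biUnion.1 ha
  exact h j hj a haj

theorem sta2_change {a b : ℝ} {A M T : Finset V} (h : NbrsLike E a A M)
    (h1 : ((T \ M).card : ℝ) ≤ b * nV V) (h2 : ((M \ T).card : ℝ) ≤ b * nV V) :
    NbrsLike E (a + b) A T := by
  intro x hx
  obtain ⟨h3, h4⟩ := h x hx
  constructor
  · have h5 : (univ.filter (fun y => s(x, y) ∈ E ∧ y ∉ T)) ⊆
        (univ.filter (fun y => s(x, y) ∈ E ∧ y ∉ M)) ∪ (M \ T) := by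
      intro y hy
      simp only [mem_filter, mem_univ, true_and, mem_union, mem_sdiff] at hy ⊢
      tauto
    have h6 := (card_le_card h5).trans (card_union_le _ _)
    have h7 : ((univ.filter (fun y => s(x, y) ∈ E ∧ y ∉ T)).card : ℝ) ≤
        ((univ.filter (fun y => s(x, y) ∈ E ∧ y ∉ M)).card : ℝ) + ((M \ T).card : ℝ) := by
      exact_mod_cast h6
    rw [add_mul]; linarith
  · have h5 : (T.filter (fun y => s(x, y) ∉ E)) ⊆
        (M.filter (fun y => s(x, y) ∉ E)) ∪ (T \ M) := by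
      intro y hy
      simp only [mem_filter, mem_union, mem_sdiff] at hy ⊢
      tauto
    have h6 := (card_le_card h5).trans (card_union_le _ _)
    have h7 : ((T.filter (fun y => s(x, y) ∉ E)).card : ℝ) ≤
        ((M.filter (fun y => s(x, y) ∉ E)).card : ℝ) + ((T \ M).card : ℝ) := by
      exact_mod_cast h6
    rw [add_mul]; linarith

omit [Fintype V] in
theorem sta2_union_le {J : Finset (Fin 4)} {D : Fin 4 → Finset V} {t : ℝ} (ht : 0 ≤ t)
    (h : ∀ j ∈ J, ((D j).card : ℝ) ≤ t) : ((J.biUnion D).card : ℝ) ≤ 4 * t := by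
  have h1 : ((J.biUnion D).card : ℝ) ≤ ∑ j ∈ J, ((D j).card : ℝ) := by
    exact_mod_cast card_biUnion_le
  have h2 : ∑ j ∈ J, ((D j).card : ℝ) ≤ J.card * t := by
    have := Finset.sum_le_card_nsmul J (fun j => ((D j).card : ℝ)) t h
    rwa [nsmul_eq_mul] at this
  have h3 : (J.card : ℝ) ≤ 4 := by
    have : J.card ≤ 4 := (card_le_univ J).trans (by simp)
    exact_mod_cast this
  have h4 := mul_le_mul_of_nonneg_right h3 ht
  linarith

/-- comparison of the model neighbourhood with the union of the classes -/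
theorem sta2_row {C : Fin 4 → Finset V} {M : Finset V} {I : Finset (Fin 4)} {P : Fin 4 → Prop}
    [DecidablePred P] {κ ν : ℝ} (hκ : 0 ≤ κ)
    (h1 : ∀ j ∈ I, P j → ((C j \ M).card : ℝ) ≤ κ * nV V)
    (h2 : ∀ j ∈ I, ¬ P j → ((M ∩ C j).card : ℝ) ≤ κ * nV V)
    (h3 : ((univ \ I.biUnion C).card : ℝ) ≤ ν * nV V) :
    ((((I.filter P).biUnion C) \ M).card : ℝ) ≤ 4 * κ * nV V ∧
      ((M \ ((I.filter P).biUnion C)).card : ℝ) ≤ (ν + 4 * κ) * nV V := by
  have h0 : (0:ℝ) ≤ nV V := Nat.cast_nonneg _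
  have hκ' : 0 ≤ κ * nV V := mul_nonneg hκ h0
  constructor
  · have h4 : ((I.filter P).biUnion C) \ M ⊆ (I.filter P).biUnion (fun j => C j \ M) := by
      intro y hy
      simp only [mem_sdiff, mem_biUnion, mem_filter] at hy ⊢
      obtain ⟨⟨j, hj, hyj⟩, hyM⟩ := hy
      exact ⟨j, hj, hyj, hyM⟩
    have h5 : (((((I.filter P).biUnion C) \ M).card : ℝ)) ≤
        (((I.filter P).biUnion (fun j => C j \ M)).card : ℝ) := by
      exact_mod_cast card_le_card h4
    have h6 := sta2_union_le (J := I.filter P) (D := fun j => C j \ M) hκ'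
      (fun j hj => h1 j (mem_filter.1 hj).1 (mem_filter.1 hj).2)
    linarith
  · have h4 : M \ ((I.filter P).biUnion C) ⊆
        (univ \ I.biUnion C) ∪ (I.filter (fun j => ¬ P j)).biUnion (fun j => M ∩ C j) := by
      intro y hy
      rw [mem_sdiff] at hy
      rw [mem_union]
      by_cases hyI : y ∈ I.biUnion C
      · right
        obtain ⟨j, hj, hyj⟩ := mem_biUnion.1 hyI
        refine mem_biUnion.2 ⟨j, mem_filter.2 ⟨hj, fun hP => hy.2 ?_⟩, mem_inter.2 ⟨hy.1, hyj⟩⟩
        exact mem_biUnion.2 ⟨j, mem_filter.2 ⟨hj, hP⟩, hyj⟩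
      · left
        exact mem_sdiff.2 ⟨mem_univ _, hyI⟩
    have h5 : ((M \ ((I.filter P).biUnion C)).card : ℝ) ≤ ((univ \ I.biUnion C).card : ℝ) +
        (((I.filter (fun j => ¬ P j)).biUnion (fun j => M ∩ C j)).card : ℝ) := by
      exact_mod_cast (card_le_card h4).trans (card_union_le _ _)
    have h6 := sta2_union_le (J := I.filter (fun j => ¬ P j)) (D := fun j => M ∩ C j) hκ'
      (fun j hj => h2 j (mem_filter.1 hj).1 (mem_filter.1 hj).2)
    linarith

omit [Fintype V] in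
theorem sta2_card_le (M T : Finset V) : (M.card : ℝ) ≤ (T.card : ℝ) + ((M \ T).card : ℝ) := by
  have h : M ⊆ T ∪ (M \ T) := by
    intro y hy
    by_cases hT : y ∈ T
    · exact mem_union_left _ hT
    · exact mem_union_right _ (mem_sdiff.2 ⟨hy, hT⟩)
  exact_mod_cast (card_le_card h).trans (card_union_le _ _)

end Aux

theorem sta2_fin4 : ∀ x : Fin 4, x = 0 ∨ x = 1 ∨ x = 2 ∨ x = 3 := by decide

theorem sta2_fin3 : ∀ x : Fin 3, x = 0 ∨ x = 1 ∨ x = 2 := by decide

set_option maxHeartbeats 2000000 in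
theorem stability (ε2 : ℝ) (hε2 : 0 < ε2) (g : ℝ → ℝ) (hg : ∀ t, 0 < t → 0 < g t) :
    ∃ (η μ : ℝ) (T : Finset ℝ), 0 < η ∧ η ≤ 1 / 10 ∧ 0 < μ ∧ μ ≤ 1 / 10 ∧ (∀ t ∈ T, 0 < t) ∧
    ∃ n0 : ℕ, ∀ (V : Type) [Fintype V] [DecidableEq V] (E : Finset (Sym2 V)),
      n0 ≤ Fintype.card V → Loopless E → (∀ v, Fintype.card V ≤ 2 * deg E v + 1) →
      NE4 E η μ ∨ Ext1 E ε2 ∨ Ext2 E ε2 ∨ ∃ t ∈ T, Ext3 E t (g t) := by
  classical
  obtain ⟨sc, hsc0, hsca, hscG, hpig⟩ := scales (fun t => min (g t) 1 / 12)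
    (fun t ht => by have := hg t ht; positivity) (min (ε2 / 12) (1 / 1000)) (by positivity)
  have hmon : ∀ i : Fin 5, sc i.castSucc ≤ sc i.succ := fun i => by
    have h1 := (hscG i).2
    have h2 := hsc0 i.castSucc
    linarith
  have hsmono : Monotone sc := Fin.monotone_iff_le_succ.2 hmon
  have hs0 : 0 < sc 0 := hsc0 0
  have hs0' : sc 0 ≤ 1 / 1000 := (hsca 0).trans (min_le_right _ _)
  have hcube : sc 0 ^ 3 ≤ sc 0 := by
    have : sc 0 ^ 2 ≤ 1 := by nlinarith
    calc sc 0 ^ 3 = sc 0 ^ 2 * sc 0 := by ring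
      _ ≤ 1 * sc 0 := mul_le_mul_of_nonneg_right this hs0.le
      _ = sc 0 := one_mul _
  have hη0 : 0 < sc 0 ^ 3 / 10 ^ 6 := by positivity
  have hη1 : sc 0 ^ 3 / 10 ^ 6 ≤ sc 0 / 10 ^ 6 := by gcongr
  obtain ⟨n0, H⟩ := twin_classes (sc 0 ^ 3 / 10 ^ 6) (sc 0 / 4) hη0 (by linarith)
  refine ⟨sc 0 ^ 3 / 10 ^ 6, sc 0 / 4, univ.image sc, hη0, by linarith, by positivity, by linarith,
    ?_, max n0 1, ?_⟩
  · intro t ht
    obtain ⟨i, -, rfl⟩ := mem_image.1 ht
    exact hsc0 i
  intro V _ _ E hn hl hdeg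
  by_cases hNE : NE4 E (sc 0 ^ 3 / 10 ^ 6) (sc 0 / 4)
  · exact Or.inl hNE
  right
  obtain ⟨C, M, hdis, hcov, hM, hNb⟩ := H V E (le_trans (le_max_left _ _) hn) hl hdeg hNE
  have hn1 : (1:ℝ) ≤ nV V := by
    have : 1 ≤ Fintype.card V := le_trans (le_max_right _ _) hn
    exact_mod_cast this
  have hnpos : (0:ℝ) < nV V := by linarith
  set η := sc 0 ^ 3 / 10 ^ 6 with hη
  obtain ⟨i0, hi0⟩ := hpig (fun j => ((C j).card : ℝ) / nV V)
  set s := sc i0.castSucc with hs
  set s' := sc i0.succ with hs'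
  have hspos : 0 < s := hsc0 _
  have hspos' : 0 < s' := hsc0 _
  have hs0s : sc 0 ≤ s := hsmono (Fin.zero_le _)
  have hss' : 100 * s ≤ s' := (hscG i0).2
  have hsG : s ≤ min (g s') 1 / 12 := (hscG i0).1
  have hsg : 12 * s ≤ g s' := by
    have := min_le_left (g s') 1
    linarith
  have hsmall : s ≤ 1 / 1000 := (hsca _).trans (min_le_right _ _)
  have hsmall' : s' ≤ 1 / 1000 := (hsca _).trans (min_le_right _ _)
  have hsε : s ≤ ε2 / 12 := (hsca _).trans (min_le_left _ _)
  have hηs : η ≤ s / 10 ^ 6 := hη1.trans (by gcongr)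
  -- κ
  set κ := 16 * η / s' with hκ
  have hκ0 : 0 < κ := by positivity
  have hκs : κ ≤ s / 64 := by
    rw [hκ, div_le_iff₀ hspos']
    have h1 : η ≤ s ^ 3 / 10 ^ 6 := by
      rw [hη]; gcongr
    have h2 : s ^ 3 / 10 ^ 6 ≤ s * s / 10 ^ 6 := by
      have h3 : s ^ 3 ≤ s * s := by nlinarith [mul_pos hspos hspos]
      gcongr
    have h3 : s * (100 * s) ≤ s * s' := mul_le_mul_of_nonneg_left hss' hspos.le
    nlinarith [mul_pos hspos hspos]
  -- the set of large classes
  let I : Finset (Fin 4) := univ.filter fun j => s' ≤ ((C j).card : ℝ) / nV V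
  have hI : ∀ j, j ∈ I ↔ s' ≤ ((C j).card : ℝ) / nV V := fun j => by simp [I]
  have hIc : ∀ j, j ∈ I → s' * nV V ≤ ((C j).card : ℝ) := fun j hj => by
    have := (hI j).1 hj
    rwa [le_div_iff₀ hnpos] at this
  have hIn : ∀ j, j ∉ I → ((C j).card : ℝ) ≤ s * nV V := fun j hj => by
    rcases hi0 j with h | h
    · rw [div_lt_iff₀ hnpos] at h
      exact h.le
    · exact absurd ((hI j).2 h) hj
  have hcardU : ((univ.biUnion C).card : ℝ) = ∑ j, ((C j).card : ℝ) := by
    rw [card_biUnion (fun i _ j _ hij => hdis i j hij)]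
    push_cast; rfl
  have hcardI : ((I.biUnion C).card : ℝ) = ∑ j ∈ I, ((C j).card : ℝ) := by
    rw [card_biUnion (fun i _ j _ hij => hdis i j hij)]
    push_cast; rfl
  have hsplit : ∑ j, ((C j).card : ℝ) = ∑ j ∈ I, ((C j).card : ℝ) + ∑ j ∈ Iᶜ, ((C j).card : ℝ) :=
    (Finset.sum_add_sum_compl I _).symm
  have hcompl : ∑ j ∈ Iᶜ, ((C j).card : ℝ) ≤ Iᶜ.card * (s * nV V) := by
    have := Finset.sum_le_card_nsmul Iᶜ (fun j => ((C j).card : ℝ)) (s * nV V)
      (fun j hj => hIn j (mem_compl.1 hj))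
    rwa [nsmul_eq_mul] at this
  have hsn : 0 < s * nV V := by positivity
  have hIne : I.Nonempty := by
    by_contra hcon
    rw [not_nonempty_iff_eq_empty] at hcon
    rw [hcon] at hcompl
    simp only [compl_empty, card_univ, Fintype.card_fin] at hcompl
    rw [hcardU] at hcov
    push_cast at hcompl
    have h1 : (1 - sc 0 / 4) * nV V ≤ 4 * s * nV V := by linarith
    have h2 := le_of_mul_le_mul_right h1 hnpos
    linarith
  have hIcard : (Iᶜ.card : ℝ) ≤ 3 := by
    have h1 : Iᶜ.card ≤ 3 := by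
      rw [card_compl, Fintype.card_fin]
      have := hIne.card_pos
      omega
    exact_mod_cast h1
  have hsumI : (1 - 4 * s) * nV V ≤ ∑ j ∈ I, ((C j).card : ℝ) := by
    have h1 : ∑ j ∈ Iᶜ, ((C j).card : ℝ) ≤ 3 * (s * nV V) :=
      hcompl.trans (mul_le_mul_of_nonneg_right hIcard hsn.le)
    rw [hcardU, hsplit] at hcov
    have h2 : sc 0 / 4 * nV V ≤ s * nV V := by
      refine mul_le_mul_of_nonneg_right ?_ hnpos.le
      linarith
    nlinarith
  have hsumI' : ∑ j ∈ I, ((C j).card : ℝ) ≤ nV V := by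
    rw [← hcardI]
    exact_mod_cast card_le_univ _
  have hout : ((univ \ I.biUnion C).card : ℝ) ≤ 4 * s * nV V := by
    have h1 : (univ \ I.biUnion C).card + (I.biUnion C).card = Fintype.card V := by
      rw [card_sdiff_add_card_eq_card (subset_univ _), card_univ]
    have h2 : ((univ \ I.biUnion C).card : ℝ) + ((I.biUnion C).card : ℝ) = nV V := by
      exact_mod_cast h1
    rw [hcardI] at h2
    linarith
  -- the relation
  let P : Fin 4 → Fin 4 → Prop := fun i j => ((C j \ M i).card : ℝ) ≤ κ * nV V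
  have hzo : ∀ i ∈ I, ∀ j ∈ I,
      (((M i ∩ C j).card : ℝ) ≤ κ * nV V ∧ ((M j ∩ C i).card : ℝ) ≤ κ * nV V) ∨
      (((C j \ M i).card : ℝ) ≤ κ * nV V ∧ ((C i \ M j).card : ℝ) ≤ κ * nV V) := by
    intro i hi j hj
    refine zero_one E η s' hη0 hspos' ?_ (C i) (C j) (M i) (M j) (hIc i hi) (hIc j hj) hnpos
      (hNb i) (hNb j)
    have h1 : η ≤ s' ^ 2 / 100 := by
      have h2 : η ≤ sc 0 ^ 2 / 10 ^ 6 := by
        rw [hη]
        have : sc 0 ^ 3 ≤ sc 0 ^ 2 := by nlinarith [sq_nonneg (sc 0)]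
        gcongr
      have h3 : sc 0 ^ 2 ≤ s' ^ 2 := by
        have : sc 0 ≤ s' := by linarith
        gcongr
      nlinarith
    nlinarith
  have hPn : ∀ i ∈ I, ∀ j ∈ I, ¬ P i j → ((M i ∩ C j).card : ℝ) ≤ κ * nV V := by
    intro i hi j hj hP
    rcases hzo i hi j hj with h | h
    · exact h.1
    · exact absurd h.1 hP
  have hPs : ∀ i ∈ I, ∀ j ∈ I, P i j → P j i := by
    intro i hi j hj hP
    rcases hzo i hi j hj with h | h
    · exfalso
      have h1 : (C j).card = (C j ∩ M i).card + (C j \ M i).card :=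
        (card_inter_add_card_sdiff (C j) (M i)).symm
      rw [inter_comm] at h1
      have h2 : ((C j).card : ℝ) = ((M i ∩ C j).card : ℝ) + ((C j \ M i).card : ℝ) := by
        exact_mod_cast h1
      have h3 := hIc j hj
      have h4 : ((C j \ M i).card : ℝ) ≤ κ * nV V := hP
      have h5 : s' * nV V ≤ (2 * κ) * nV V := by linarith [h.1]
      have h6 := le_of_mul_le_mul_right h5 hnpos
      linarith
    · exact h.2
  -- rows
  have hrows : ∀ i ∈ I, NbrsLike E (6 * s) (C i) ((I.filter (P i)).biUnion C) ∧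
      (1 / 2 - 5 * s) * nV V ≤ (((I.filter (P i)).biUnion C).card : ℝ) ∧
      (((I.filter (P i)).biUnion C).card : ℝ) ≤ (1 / 2 + 5 * s) * nV V := by
    intro i hi
    obtain ⟨h1, h2⟩ := sta2_row (C := C) (M := M i) (I := I) (P := P i) hκ0.le
      (fun j _ h => h) (fun j hj h => hPn i hi j hj h) hout
    have hne : (C i).Nonempty := by
      rw [← card_pos]
      have := hIc i hi
      have h3 : (0:ℝ) < (C i).card := lt_of_lt_of_le (by positivity) this
      exact_mod_cast h3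
    obtain ⟨h3, h4⟩ := hM i hne
    have h5 : 4 * κ * nV V ≤ (4 * s + 4 * κ) * nV V :=
      mul_le_mul_of_nonneg_right (by linarith) hnpos.le
    refine ⟨sta2_mono (sta2_change (hNb i) (h1.trans h5) h2) (by linarith), ?_, ?_⟩
    · have h6 := sta2_card_le (M i) ((I.filter (P i)).biUnion C)
      have h7 : (2 * η + (4 * s + 4 * κ)) * nV V ≤ 5 * s * nV V :=
        mul_le_mul_of_nonneg_right (by linarith) hnpos.le
      linarith
    · have h6 := sta2_card_le ((I.filter (P i)).biUnion C) (M i)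
      have h7 : (2 * η + (4 * s + 4 * κ)) * nV V ≤ 5 * s * nV V :=
        mul_le_mul_of_nonneg_right (by linarith) hnpos.le
      linarith
  have hTsum : ∀ i, ∑ j ∈ I.filter (P i), ((C j).card : ℝ) / nV V =
      (((I.filter (P i)).biUnion C).card : ℝ) / nV V := by
    intro i
    rw [← Finset.sum_div, card_biUnion (fun i _ j _ hij => hdis i j hij)]
    push_cast; rfl
  obtain ⟨k, f, hf, hk1, hk2⟩ := classify s hspos hsmall I (fun j => ((C j).card : ℝ) / nV V)
    (fun i hi => by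
      have := (hI i).1 hi
      linarith)
    (by rw [← Finset.sum_div, le_div_iff₀ hnpos]; exact hsumI)
    (by rw [← Finset.sum_div, div_le_iff₀ hnpos, one_mul]; exact hsumI')
    P hPs
    (fun i hi => by rw [hTsum i, le_div_iff₀ hnpos]; exact (hrows i hi).2.1)
    (fun i hi => by rw [hTsum i, div_le_iff₀ hnpos]; exact (hrows i hi).2.2)
  have hdisAB : Disjoint ((I.filter (fun j => f j = 0)).biUnion C)
      ((I.filter (fun j => f j = 1)).biUnion C) := by
    rw [disjoint_biUnion_left]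
    intro i hi
    rw [disjoint_biUnion_right]
    intro j hj
    refine hdis i j ?_
    rintro rfl
    have h1 := (mem_filter.1 hi).2
    have h2 := (mem_filter.1 hj).2
    rw [h1] at h2
    exact absurd h2 (by decide)
  have hε5 : 5 * s ≤ ε2 := by linarith
  have hε6 : 6 * s ≤ ε2 := by linarith
  have hmul5 : (1 / 2 - ε2) * nV V ≤ (1 / 2 - 5 * s) * nV V :=
    mul_le_mul_of_nonneg_right (by linarith) hnpos.le
  have hk : k = 0 ∨ k = 1 ∨ k = 2 := sta2_fin3 k
  rcases hk with rfl | rfl | rfl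
  · -- two cliques
    left
    obtain ⟨h01, ⟨i, hi, hfi⟩, ⟨j, hj, hfj⟩⟩ := hk1 (by decide)
    have hT : ∀ i ∈ I, ∀ a : Fin 4, f i = a →
        (I.filter (P i)).biUnion C = (I.filter (fun j => f j = a)).biUnion C := by
      intro i hi a ha
      congr 1
      refine filter_congr fun j hj => ?_
      rw [hf i hi j hj]
      unfold Pat
      rw [ha]
      constructor
      · rintro (⟨-, h⟩ | ⟨h, -⟩ | ⟨h, -⟩)
        · exact h.symm
        · exact absurd h (by decide)
        · exact absurd h (by decide)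
      · intro h
        exact Or.inl ⟨rfl, h.symm⟩
    refine ⟨(I.filter (fun j => f j = 0)).biUnion C, (I.filter (fun j => f j = 1)).biUnion C,
      hdisAB, ?_, ?_, ?_, ?_⟩
    · rw [← hT i hi 0 hfi]; exact hmul5.trans (hrows i hi).2.1
    · rw [← hT j hj 1 hfj]; exact hmul5.trans (hrows j hj).2.1
    · refine sta2_biUnion fun l hl => ?_
      obtain ⟨hl1, hl2⟩ := mem_filter.1 hl
      have := (hrows l hl1).1
      rw [hT l hl1 0 hl2] at this
      exact sta2_mono this hε6
    · refine sta2_biUnion fun l hl => ?_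
      obtain ⟨hl1, hl2⟩ := mem_filter.1 hl
      have := (hrows l hl1).1
      rw [hT l hl1 1 hl2] at this
      exact sta2_mono this hε6
  · -- bipartite
    right; left
    obtain ⟨h01, ⟨i, hi, hfi⟩, ⟨j, hj, hfj⟩⟩ := hk1 (by decide)
    have hT : ∀ i ∈ I, ∀ a b : Fin 4, f i = a → ((a = 0 ∧ b = 1) ∨ (a = 1 ∧ b = 0)) →
        (I.filter (P i)).biUnion C = (I.filter (fun j => f j = b)).biUnion C := by
      intro i hi a b ha hab
      congr 1
      refine filter_congr fun j hj => ?_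
      rw [hf i hi j hj]
      unfold Pat
      rw [ha]
      have hj01 := h01 j hj
      constructor
      · rintro (⟨h, -⟩ | ⟨-, h⟩ | ⟨h, -⟩)
        · exact absurd h (by decide)
        · rcases hab with ⟨rfl, rfl⟩ | ⟨rfl, rfl⟩
          · rcases hj01 with h1 | h1
            · exact absurd h1.symm h
            · exact h1
          · rcases hj01 with h1 | h1
            · exact h1
            · exact absurd h1.symm h
        · exact absurd h (by decide)
      · intro h
        refine Or.inr (Or.inl ⟨rfl, ?_⟩)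
        rw [h]
        rcases hab with ⟨rfl, rfl⟩ | ⟨rfl, rfl⟩ <;> decide
    refine ⟨(I.filter (fun j => f j = 0)).biUnion C, (I.filter (fun j => f j = 1)).biUnion C,
      hdisAB, ?_, ?_, ?_, ?_⟩
    · rw [← hT j hj 1 0 hfj (Or.inr ⟨rfl, rfl⟩)]; exact hmul5.trans (hrows j hj).2.1
    · rw [← hT i hi 0 1 hfi (Or.inl ⟨rfl, rfl⟩)]; exact hmul5.trans (hrows i hi).2.1
    · refine sta2_biUnion fun l hl => ?_
      obtain ⟨hl1, hl2⟩ := mem_filter.1 hl
      have := (hrows l hl1).1
      rw [hT l hl1 0 1 hl2 (Or.inl ⟨rfl, rfl⟩)] at this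
      exact sta2_mono this hε6
    · refine sta2_biUnion fun l hl => ?_
      obtain ⟨hl1, hl2⟩ := mem_filter.1 hl
      have := (hrows l hl1).1
      rw [hT l hl1 1 0 hl2 (Or.inr ⟨rfl, rfl⟩)] at this
      exact sta2_mono this hε6
  · -- path with loops
    right; right
    obtain ⟨hIu, hbij⟩ := hk2 rfl
    refine ⟨s', mem_image.2 ⟨_, mem_univ _, rfl⟩, ?_⟩
    let φ := Equiv.ofBijective f hbij
    have hφ : ∀ m, f (φ.symm m) = m := fun m => Equiv.ofBijective_apply_symm_apply f hbij m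
    have hφ' : ∀ i, φ.symm (f i) = i := fun i => Equiv.ofBijective_symm_apply_apply f hbij i
    have hmem : ∀ i, i ∈ I := fun i => by rw [hIu]; exact mem_univ _
    have hD : ∀ m m' : Fin 4, m ≠ m' → Disjoint (C (φ.symm m)) (C (φ.symm m')) := by
      intro m m' hmm
      exact hdis _ _ (fun h => hmm (φ.symm.injective h))
    have hTm : ∀ m, NbrsLike E (g s') (C (φ.symm m))
        ((univ.filter (fun b => Pat 2 m b)).biUnion (fun b => C (φ.symm b))) := by
      intro m
      have h1 := (hrows (φ.symm m) (hmem _)).1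
      have h2 : (I.filter (P (φ.symm m))).biUnion C =
          (univ.filter (fun b => Pat 2 m b)).biUnion (fun b => C (φ.symm b)) := by
        ext y
        simp only [mem_biUnion, mem_filter, mem_univ, true_and]
        constructor
        · rintro ⟨j, ⟨-, hj⟩, hy⟩
          refine ⟨f j, ?_, by rw [hφ']; exact hy⟩
          have := (hf _ (hmem (φ.symm m)) j (hmem j)).1 hj
          rwa [hφ] at this
        · rintro ⟨b, hb, hy⟩
          refine ⟨φ.symm b, ⟨hmem _, ?_⟩, hy⟩
          rw [hf _ (hmem _) _ (hmem _), hφ, hφ]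
          exact hb
      rw [h2] at h1
      exact sta2_mono h1 (by linarith)
    have hT0 : (univ.filter (fun b => Pat 2 0 b)).biUnion (fun b => C (φ.symm b)) =
        C (φ.symm 0) ∪ C (φ.symm 1) := by
      have : (univ.filter (fun b => Pat 2 0 b)) = {0, 1} := by
        ext b; fin_cases b <;> simp [Pat]
      rw [this, biUnion_insert, singleton_biUnion]
    have hT1 : (univ.filter (fun b => Pat 2 1 b)).biUnion (fun b => C (φ.symm b)) =
        C (φ.symm 0) ∪ C (φ.symm 2) := by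
      have : (univ.filter (fun b => Pat 2 1 b)) = {0, 2} := by
        ext b; fin_cases b <;> simp [Pat]
      rw [this, biUnion_insert, singleton_biUnion]
    have hT2 : (univ.filter (fun b => Pat 2 2 b)).biUnion (fun b => C (φ.symm b)) =
        C (φ.symm 1) ∪ C (φ.symm 3) := by
      have : (univ.filter (fun b => Pat 2 2 b)) = {1, 3} := by
        ext b; fin_cases b <;> simp [Pat]
      rw [this, biUnion_insert, singleton_biUnion]
    have hT3 : (univ.filter (fun b => Pat 2 3 b)).biUnion (fun b => C (φ.symm b)) =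
        C (φ.symm 2) ∪ C (φ.symm 3) := by
      have : (univ.filter (fun b => Pat 2 3 b)) = {2, 3} := by
        ext b; fin_cases b <;> simp [Pat]
      rw [this, biUnion_insert, singleton_biUnion]
    refine ⟨C (φ.symm 0), C (φ.symm 1), C (φ.symm 2), C (φ.symm 3), hD _ _ (by decide),
      hD _ _ (by decide), hD _ _ (by decide), hD _ _ (by decide), hD _ _ (by decide),
      hD _ _ (by decide), hIc _ (hmem _), hIc _ (hmem _), hIc _ (hmem _), hIc _ (hmem _), ?_,
      by rw [← hT0]; exact hTm 0, by rw [← hT1]; exact hTm 1, by rw [← hT2]; exact hTm 2,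
      by rw [← hT3]; exact hTm 3⟩
    have hsub : univ.biUnion C ⊆ C (φ.symm 0) ∪ C (φ.symm 1) ∪ C (φ.symm 2) ∪ C (φ.symm 3) := by
      intro y hy
      obtain ⟨j, -, hyj⟩ := mem_biUnion.1 hy
      rw [← hφ' j] at hyj
      have hfj : f j = 0 ∨ f j = 1 ∨ f j = 2 ∨ f j = 3 := sta2_fin4 (f j)
      simp only [mem_union]
      rcases hfj with h | h | h | h <;> rw [h] at hyj
      · exact Or.inl (Or.inl (Or.inl hyj))
      · exact Or.inl (Or.inl (Or.inr hyj))
      · exact Or.inl (Or.inr hyj)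
      · exact Or.inr hyj
    have h1 : ((univ.biUnion C).card : ℝ) ≤
        ((C (φ.symm 0) ∪ C (φ.symm 1) ∪ C (φ.symm 2) ∪ C (φ.symm 3)).card : ℝ) := by
      exact_mod_cast card_le_card hsub
    refine le_trans ?_ (hcov.trans h1)
    exact mul_le_mul_of_nonneg_right (by linarith) hnpos.le

end H15C6
end S_STA2

section S_NEQ
/-!
Module NEQ.  The non-extremal case.  `n = |V|`, all degrees at least `(n-1)/2`.

* `R = True`, `P4 E univ x y ≥ μ η² n³`: choose `b` with `¬ Small x b`, `¬ Small y b` (`≥ μ n` choices), then `a`,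
  `c` among the common neighbours.
* K4 property with `ε0 := μ/2` and `Gam E univ η`: among three vertices outside `Z ∪ {x_i}` with
  `¬ Small x_i ·` two are not `Small` for each other: otherwise the three neighbourhoods are nearly
  disjoint, `3 (n-1)/2 ≤ n + 3 η n`, impossible.
* hub: call `w` heavy if `#{y : Small w y} > (1/2 - μ/2) n`.  If `w` is heavy and `Small w w'` then `w'` is not
  heavy: the sets `S_w = {y : Small w y}`, `S_w'` are disjoint (again no three pairwise `Small` vertices;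
  note `¬ Small y y`), and `NE4` gives `|S_w| + |S_w'| ≤ (1-μ) n`.  So either no vertex is heavy or at least
  `(1/2-μ/2) n` vertices are not heavy; in any case some `w0 ∉ Z` is not heavy.  For `x ≠ w0`:
  `#{q : s(x,q) ∈ E, ¬ Small w0 q} ≥ (n-1)/2 - (1/2-μ/2) n ≥ (μ/3) n`, so `ζ := μ/4`
  (also `q ≠ w0`).
Then `absorb_nb` and `core` with `U = univ`, `P H = EvenDeg H ∧ 6 ∣ |H|`.
-/

open Finset

namespace H15C6

section

variable {V : Type} [Fintype V] [DecidableEq V]

/-- the neighbourhood -/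
def neq_N (E : Finset (Sym2 V)) (v : V) : Finset V := Finset.univ.filter (fun y => s(v, y) ∈ E)

omit [DecidableEq V] in
theorem neq_sub (E : Finset (Sym2 V)) : E ⊆ (Finset.univ : Finset V).sym2 := by
  intro e _
  rw [Finset.mem_sym2_iff]
  intro a _
  exact Finset.mem_univ a

theorem neq_card_N (E : Finset (Sym2 V)) (v : V) : (neq_N E v).card = deg E v :=
  (deg_eq_dg (neq_sub E) v).symm

theorem neq_cn (E : Finset (Sym2 V)) (x y : V) :
    cn E Finset.univ x y = (neq_N E x ∩ neq_N E y).card := by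
  unfold cn neq_N
  congr 1
  ext m
  simp only [Finset.mem_filter, Finset.mem_univ, true_and, Finset.mem_inter]
  rw [Sym2.eq_swap (a := m) (b := y)]

theorem neq_cn_comm (E : Finset (Sym2 V)) (x y : V) :
    cn E Finset.univ x y = cn E Finset.univ y x := by
  rw [neq_cn, neq_cn, Finset.inter_comm]

theorem neq_small_comm {E : Finset (Sym2 V)} {η : ℝ} {x y : V} (h : Small E η x y) :
    Small E η y x := by
  unfold Small at h ⊢
  rwa [neq_cn_comm]

theorem neq_three (A B C : Finset V) :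
    A.card + B.card + C.card ≤ Fintype.card V + ((A ∩ B).card + (A ∩ C).card + (B ∩ C).card) := by
  have h1 := Finset.card_union_add_card_inter A B
  have h2 := Finset.card_union_add_card_inter (A ∪ B) C
  have h3 : ((A ∪ B) ∩ C).card ≤ (A ∩ C).card + (B ∩ C).card := by
    rw [Finset.union_inter_distrib_right]
    exact Finset.card_union_le _ _
  have h4 : ((A ∪ B) ∪ C).card ≤ Fintype.card V := Finset.card_le_univ _
  omega

/-- no three pairwise small vertices -/
theorem neq_no_three {E : Finset (Sym2 V)} {η : ℝ} (hη' : η ≤ 1 / 10) (hn : 100 ≤ Fintype.card V)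
    (hdeg : ∀ v, Fintype.card V ≤ 2 * deg E v + 1) {a b c : V} (hab : Small E η a b)
    (hac : Small E η a c) (hbc : Small E η b c) : False := by
  have h := neq_three (neq_N E a) (neq_N E b) (neq_N E c)
  rw [neq_card_N, neq_card_N, neq_card_N, ← neq_cn, ← neq_cn, ← neq_cn] at h
  have h1 := hdeg a
  have h2 := hdeg b
  have h3 := hdeg c
  unfold Small nV at hab hac hbc
  have h' : ((deg E a + deg E b + deg E c : ℕ) : ℝ) ≤ ((Fintype.card V + (cn E univ a b + cn E univ a c +
    cn E univ b c) : ℕ) : ℝ) := by exact_mod_cast h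
  have h1' : (Fintype.card V : ℝ) ≤ 2 * deg E a + 1 := by exact_mod_cast h1
  have h2' : (Fintype.card V : ℝ) ≤ 2 * deg E b + 1 := by exact_mod_cast h2
  have h3' : (Fintype.card V : ℝ) ≤ 2 * deg E c + 1 := by exact_mod_cast h3
  have hn' : (100 : ℝ) ≤ Fintype.card V := by exact_mod_cast hn
  have h5 : η * (Fintype.card V : ℝ) ≤ 1 / 10 * Fintype.card V := by gcongr
  push_cast at h'
  linarith

theorem neq_P4 (E : Finset (Sym2 V)) (x y : V) :
    P4 E Finset.univ x y = ∑ b : V, cn E Finset.univ x b * cn E Finset.univ b y := by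
  unfold P4 cn
  simp only [Finset.card_filter, Finset.sum_product, Finset.sum_mul_sum]
  rw [Finset.sum_comm]
  refine Finset.sum_congr rfl (fun b _ => ?_)
  refine Finset.sum_congr rfl (fun a _ => ?_)
  refine Finset.sum_congr rfl (fun c _ => ?_)
  by_cases h1 : s(x, a) ∈ E ∧ s(a, b) ∈ E
  · by_cases h2 : s(b, c) ∈ E ∧ s(c, y) ∈ E
    · rw [if_pos ⟨h1.1, h1.2, h2.1, h2.2⟩, if_pos h1, if_pos h2, mul_one]
    · rw [if_neg (fun h => h2 ⟨h.2.2.1, h.2.2.2⟩), if_neg h2, mul_zero]
  · rw [if_neg (fun h => h1 ⟨h.1, h.2.1⟩), if_neg h1, zero_mul]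

/-- the number of walks of length four -/
theorem neq_P4_ge {E : Finset (Sym2 V)} {η μ : ℝ} (hη : 0 < η) (hne : NE4 E η μ) (x y : V) :
    μ * η ^ 2 * (Fintype.card V : ℝ) ^ 3 ≤ (P4 E Finset.univ x y : ℝ) := by
  classical
  rw [neq_P4]
  push_cast
  have h1 := hne x x y y
  set G := Finset.univ.filter (fun w => ¬ Small E η x w ∧ ¬ Small E η x w ∧ ¬ Small E η y w ∧
    ¬ Small E η y w) with hG
  have h2 : ∑ b ∈ G, (η * nV V) * (η * nV V) ≤
      ∑ b ∈ G, (cn E Finset.univ x b : ℝ) * (cn E Finset.univ b y : ℝ) := by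
    refine Finset.sum_le_sum (fun b hb => ?_)
    have hb' := (Finset.mem_filter.1 hb).2
    have h3 : η * nV V ≤ (cn E Finset.univ x b : ℝ) := not_lt.1 hb'.1
    have h4 : η * nV V ≤ (cn E Finset.univ b y : ℝ) := by
      rw [neq_cn_comm]
      exact not_lt.1 hb'.2.2.1
    have h5 : 0 ≤ η * nV V := by positivity
    gcongr
  have h6 : ∑ b ∈ G, (cn E Finset.univ x b : ℝ) * (cn E Finset.univ b y : ℝ) ≤
      ∑ b : V, (cn E Finset.univ x b : ℝ) * (cn E Finset.univ b y : ℝ) :=
    Finset.sum_le_sum_of_subset_of_nonneg (Finset.subset_univ _) (fun _ _ _ => by positivity)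
  refine le_trans ?_ (h2.trans h6)
  rw [Finset.sum_const, nsmul_eq_mul]
  calc μ * η ^ 2 * (Fintype.card V : ℝ) ^ 3 = (μ * nV V) * ((η * nV V) * (η * nV V)) := by
        unfold nV; ring
    _ ≤ (G.card : ℝ) * ((η * nV V) * (η * nV V)) := by
        gcongr

/-- Gam from not Small -/
theorem neq_gam {E : Finset (Sym2 V)} {η : ℝ} {x y : V} (hne : x ≠ y) (h : ¬ Small E η x y) :
    Gam E Finset.univ η x y := by
  refine ⟨hne, ?_⟩
  rw [Finset.card_univ]
  exact not_lt.1 h

/-- the K4 property -/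
theorem neq_K4 {E : Finset (Sym2 V)} {η μ : ℝ} (hη' : η ≤ 1 / 10) (hμ : 0 < μ) (hμ' : μ ≤ 1 / 10)
    (hn : 100 / μ ≤ (Fintype.card V : ℝ)) (hdeg : ∀ v, Fintype.card V ≤ 2 * deg E v + 1)
    (hne : NE4 E η μ) (x1 x2 x3 x4 : V) (Z : Finset V)
    (hZ : (Z.card : ℝ) ≤ μ / 2 * (Fintype.card V : ℝ)) :
    ∃ z w : V, z ∉ Z ∧ w ∉ Z ∧ Gam E Finset.univ η z w ∧
      (Gam E Finset.univ η z x1 ∧ Gam E Finset.univ η z x2 ∧ Gam E Finset.univ η z x3 ∧
        Gam E Finset.univ η z x4) ∧
      (Gam E Finset.univ η w x1 ∧ Gam E Finset.univ η w x2 ∧ Gam E Finset.univ η w x3 ∧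
        Gam E Finset.univ η w x4) := by
  classical
  have hn1 : 100 ≤ μ * (Fintype.card V : ℝ) := by
    rw [div_le_iff₀ hμ] at hn
    linarith
  have hn2 : 100 ≤ Fintype.card V := by
    have h0 : (0 : ℝ) ≤ Fintype.card V := by positivity
    have : (100 : ℝ) ≤ Fintype.card V := by nlinarith
    exact_mod_cast this
  set G := Finset.univ.filter (fun w => ¬ Small E η x1 w ∧ ¬ Small E η x2 w ∧ ¬ Small E η x3 w ∧
    ¬ Small E η x4 w) with hG
  have h1 : μ * nV V ≤ (G.card : ℝ) := hne x1 x2 x3 x4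
  set W := G \ (Z ∪ {x1, x2, x3, x4}) with hW
  have h2 : G.card ≤ W.card + (Z.card + 4) := by
    have h3 : G.card ≤ (G \ (Z ∪ {x1, x2, x3, x4})).card + (Z ∪ {x1, x2, x3, x4}).card :=
      Finset.card_le_card_sdiff_add_card
    rw [← hW] at h3
    have h4 : (Z ∪ {x1, x2, x3, x4}).card ≤ Z.card + 4 :=
      (Finset.card_union_le _ _).trans (Nat.add_le_add_left Finset.card_le_four _)
    omega
  have h3 : 2 < W.card := by
    have h4 : (G.card : ℝ) ≤ W.card + (Z.card + 4) := by exact_mod_cast h2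
    unfold nV at h1
    have : (2 : ℝ) < W.card := by linarith
    exact_mod_cast this
  obtain ⟨z1, z2, z3, hz1, hz2, hz3, h12, h13, h23⟩ := Finset.two_lt_card_iff.1 h3
  have key : ∀ z ∈ W, z ∉ Z ∧ (Gam E Finset.univ η z x1 ∧ Gam E Finset.univ η z x2 ∧
      Gam E Finset.univ η z x3 ∧ Gam E Finset.univ η z x4) := by
    intro z hz
    rw [hW, Finset.mem_sdiff, Finset.mem_union, not_or] at hz
    obtain ⟨hzG, hzZ, hzx⟩ := hz
    have hzG' := (Finset.mem_filter.1 hzG).2
    simp only [Finset.mem_insert, Finset.mem_singleton, not_or] at hzx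
    refine ⟨hzZ, (neq_gam (Ne.symm hzx.1) hzG'.1).symm, (neq_gam (Ne.symm hzx.2.1) hzG'.2.1).symm,
      (neq_gam (Ne.symm hzx.2.2.1) hzG'.2.2.1).symm, (neq_gam (Ne.symm hzx.2.2.2) hzG'.2.2.2).symm⟩
  have hpair : ∃ z ∈ W, ∃ w ∈ W, z ≠ w ∧ ¬ Small E η z w := by
    by_contra hcon
    push Not at hcon
    exact neq_no_three hη' hn2 hdeg (hcon z1 hz1 z2 hz2 h12) (hcon z1 hz1 z3 hz3 h13)
      (hcon z2 hz2 z3 hz3 h23)
  obtain ⟨z, hz, w, hw, hzw, hs⟩ := hpair
  exact ⟨z, w, (key z hz).1, (key w hw).1, neq_gam hzw hs, (key z hz).2, (key w hw).2⟩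

/-- the hub -/
theorem neq_hub {E : Finset (Sym2 V)} {η μ : ℝ} (hη' : η ≤ 1 / 10) (hμ : 0 < μ) (hμ' : μ ≤ 1 / 10)
    (hn : 100 / μ ≤ (Fintype.card V : ℝ)) (hdeg : ∀ v, Fintype.card V ≤ 2 * deg E v + 1)
    (hne : NE4 E η μ) (Z : Finset V) (hZ : (Z.card : ℝ) ≤ μ / 2 * (Fintype.card V : ℝ)) :
    ∃ w0 : V, w0 ∉ Z ∧ ∀ x : V, ∀ Q : Finset V, (Q.card : ℝ) < μ / 4 * (Fintype.card V : ℝ) →
      ∃ q : V, q ∉ Q ∧ s(x, q) ∈ E ∧ Gam E Finset.univ η q w0 := by
  classical
  have hn1 : 100 ≤ μ * (Fintype.card V : ℝ) := by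
    rw [div_le_iff₀ hμ] at hn
    linarith
  have hn2' : (100 : ℝ) ≤ Fintype.card V := by
    have h0 : (0 : ℝ) ≤ Fintype.card V := by positivity
    nlinarith
  have hn2 : 100 ≤ Fintype.card V := by exact_mod_cast hn2'
  have hμn : μ * (Fintype.card V : ℝ) ≤ 1 / 10 * Fintype.card V := by gcongr
  set S : V → Finset V := fun w => Finset.univ.filter (fun y => Small E η w y) with hS
  have hex : ∃ w0 : V, w0 ∉ Z ∧ ((S w0).card : ℝ) ≤ (1 / 2 - μ / 2) * (Fintype.card V : ℝ) := by
    by_cases hh : ∃ w, (1 / 2 - μ / 2) * (Fintype.card V : ℝ) < ((S w).card : ℝ)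
    · obtain ⟨w, hw⟩ := hh
      have hlt : Z.card < (S w).card := by
        have : (Z.card : ℝ) < (S w).card := by linarith
        exact_mod_cast this
      obtain ⟨w0, hw0, hw0Z⟩ := Finset.exists_mem_notMem_of_card_lt_card hlt
      refine ⟨w0, hw0Z, ?_⟩
      have hsm : Small E η w w0 := (Finset.mem_filter.1 hw0).2
      have hdis : Disjoint (S w) (S w0) := by
        rw [Finset.disjoint_left]
        intro y hy1 hy2
        exact neq_no_three hη' hn2 hdeg hsm (Finset.mem_filter.1 hy1).2 (Finset.mem_filter.1 hy2).2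
      have h1 := hne w w w0 w0
      have h2 : (Finset.univ.filter (fun y => ¬ Small E η w y ∧ ¬ Small E η w y ∧ ¬ Small E η w0 y ∧
          ¬ Small E η w0 y)).card + (S w ∪ S w0).card ≤ Fintype.card V := by
        rw [← Finset.card_union_of_disjoint]
        · exact Finset.card_le_univ _
        · rw [Finset.disjoint_left]
          intro y hy1 hy2
          have h3 := (Finset.mem_filter.1 hy1).2
          rcases Finset.mem_union.1 hy2 with h4 | h4
          · exact h3.1 (Finset.mem_filter.1 h4).2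
          · exact h3.2.2.1 (Finset.mem_filter.1 h4).2
      rw [Finset.card_union_of_disjoint hdis] at h2
      have h2' : ((Finset.univ.filter (fun y => ¬ Small E η w y ∧ ¬ Small E η w y ∧ ¬ Small E η w0 y ∧
          ¬ Small E η w0 y)).card : ℝ) + ((S w).card + (S w0).card) ≤ Fintype.card V := by
        exact_mod_cast h2
      unfold nV at h1
      linarith
    · push Not at hh
      have hlt : Z.card < (Finset.univ : Finset V).card := by
        rw [Finset.card_univ]
        have : (Z.card : ℝ) < Fintype.card V := by linarith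
        exact_mod_cast this
      obtain ⟨w0, -, hw0Z⟩ := Finset.exists_mem_notMem_of_card_lt_card hlt
      exact ⟨w0, hw0Z, hh w0⟩
  obtain ⟨w0, hw0Z, hw0⟩ := hex
  refine ⟨w0, hw0Z, fun x Q hQ => ?_⟩
  have hlt : (S w0 ∪ insert w0 Q).card < (neq_N E x).card := by
    rw [neq_card_N]
    have h1 : (S w0 ∪ insert w0 Q).card ≤ (S w0).card + (Q.card + 1) :=
      (Finset.card_union_le _ _).trans (Nat.add_le_add_left (Finset.card_insert_le _ _) _)
    have h1' : ((S w0 ∪ insert w0 Q).card : ℝ) ≤ (S w0).card + (Q.card + 1) := by exact_mod_cast h1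
    have h2 : (Fintype.card V : ℝ) ≤ 2 * deg E x + 1 := by exact_mod_cast hdeg x
    have : ((S w0 ∪ insert w0 Q).card : ℝ) < deg E x := by linarith
    exact_mod_cast this
  obtain ⟨q, hq1, hq2⟩ := Finset.exists_mem_notMem_of_card_lt_card hlt
  rw [Finset.mem_union, Finset.mem_insert, not_or, not_or] at hq2
  refine ⟨q, hq2.2.2, (Finset.mem_filter.1 hq1).2, (neq_gam (Ne.symm hq2.2.1) ?_).symm⟩
  intro h
  exact hq2.1 (Finset.mem_filter.2 ⟨Finset.mem_univ _, h⟩)

end

theorem ne4_dec (η μ : ℝ) (hη : 0 < η) (hη' : η ≤ 1 / 10) (hμ : 0 < μ) (hμ' : μ ≤ 1 / 10) :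
    ∃ n0 : ℕ, ∀ (V : Type) [Fintype V] [DecidableEq V] (E : Finset (Sym2 V)),
      n0 ≤ Fintype.card V → Loopless E → EvenDeg E → 6 ∣ E.card →
      (∀ v, Fintype.card V ≤ 2 * deg E v + 1) → NE4 E η μ → Dec E := by
  obtain ⟨ε, hε, habs⟩ := absorb_nb η (μ / 4) (μ / 2) hη (by positivity) (by positivity)
  obtain ⟨M, hM⟩ := core (μ * η ^ 2) ε (by positivity) hε
  obtain ⟨C, n1, hC⟩ := habs M
  obtain ⟨n2, hn2⟩ := hM C
  refine ⟨max (max n1 n2) ⌈100 / μ⌉₊, ?_⟩
  intro V _ _ E hn hl hev h6 hdeg hne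
  have hn1' : n1 ≤ (Finset.univ : Finset V).card := by
    rw [Finset.card_univ]
    exact (le_max_left _ _).trans ((le_max_left _ _).trans hn)
  have hn2' : n2 ≤ (Finset.univ : Finset V).card := by
    rw [Finset.card_univ]
    exact (le_max_right _ _).trans ((le_max_left _ _).trans hn)
  have hn3 : 100 / μ ≤ (Fintype.card V : ℝ) := by
    refine (Nat.le_ceil _).trans ?_
    exact_mod_cast (le_max_right _ _).trans hn
  refine hn2 V Finset.univ E (fun _ _ => True) (fun H => EvenDeg H ∧ 6 ∣ H.card) hn2' (neq_sub E) hl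
    (fun _ _ _ _ _ => trivial) ?_ (fun H h => h.1) ?_ ⟨hev, h6⟩ ?_
  · intro x _ y _ _
    rw [Finset.card_univ]
    exact neq_P4_ge hη hne x y
  · intro H C' hH hsub hC'
    refine ⟨hH.1.sdiff hC'.even hsub, ?_⟩
    rw [Finset.card_sdiff_of_subset hsub, hC'.card]
    exact Nat.dvd_sub hH.2 (dvd_refl 6)
  · refine hC V Finset.univ E hn1' (neq_sub E) hl ?_ ?_
    · intro x1 _ x2 _ x3 _ x4 _ Z hZ
      rw [Finset.card_univ] at hZ
      obtain ⟨z, w, h1, h2, h3, h4, h5⟩ := neq_K4 hη' hμ hμ' hn3 hdeg hne x1 x2 x3 x4 Z hZ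
      exact ⟨z, Finset.mem_univ _, w, Finset.mem_univ _, h1, h2, h3, h4, h5⟩
    · intro Z hZ
      rw [Finset.card_univ] at hZ
      obtain ⟨w0, h1, h2⟩ := neq_hub hη' hμ hμ' hn3 hdeg hne Z hZ
      refine ⟨w0, Finset.mem_univ _, h1, fun x _ _ Q hQ => ?_⟩
      rw [Finset.card_univ] at hQ
      obtain ⟨q, h3, h4, h5⟩ := h2 x Q hQ
      exact ⟨q, Finset.mem_univ _, h3, h4, h5⟩

end H15C6
end S_NEQ
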