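import Pool.Agent.H15.C6F.FC
import Pool.Agent.H15.C6F.FF
import Pool.Agent.H15.C6F.FH

section S_E1A1
/-!
Module E1A1 (part of E1A).  Extremal case 1 (two almost complete halves): preparation.

`prep1`: given the sets `A', B'` of `Ext1 E ε` and `ε ≤ τ`:
`X := {v : τ n < dg E A' v and τ n < dg E B' v}`, `A0 := {v ∉ X : dg E B' v ≤ τ n}`,
`B0 := {v ∉ X : τ n < dg E B' v}` (then `dg E A' v ≤ τ n`).  `A' ⊆ A0` as `dg E B' a ≤ ε n ≤ τ n`; for `b ∈ B'`:
`dg E B' b ≥ |B'| - εn > τ n` and `dg E A' b ≤ εn`, so `b ∈ B0`.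

`rich1_*`: walk counts in a host `H` of inner edges.  `H ⊆ E` loses at most `θ n` edges at every vertex.
For `A := A0 ∪ X`: every `u ∈ A` has at least `(τ/2) n` neighbours in `A'` through `H`
(`a ∈ A0`: `dg E A' a ≥ (n-1)/2 - τ n - 2 ε n`), two vertices of `A'` are adjacent in `H` for all but
`(ε+θ) n` choices.  Hence `P4 H S u w ≥ h n³`, `P3 H S u w ≥ h n²` for all `u, w ∈ A`, with `h = τ²/16`,
and `cn H S u w ≥ h n` if `u ∈ A0` (typical) and `dg E A' w ≥ 2τ n + 4 ε n + 2θ n + h n`.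
Two typical vertices of `A0` have `≥ n/5` common neighbours (`τ ≤ 1/20`).
The same for `B0`.
-/

open Finset

namespace H15C6

/-- `A'` and `B'` disjoint: few neighbours in `B'` -/
theorem e1a1_dg_le {V : Type} [Fintype V] [DecidableEq V] {E : Finset (Sym2 V)} {ε : ℝ}
    {A' B' : Finset V} (hd : Disjoint A' B') (h : NbrsLike E ε A' A') {a : V} (ha : a ∈ A') :
    (dg E B' a : ℝ) ≤ ε * nV V := by
  refine le_trans ?_ (h a ha).1
  unfold dg
  have h1 : B'.filter (fun y => s(a, y) ∈ E) ⊆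
      Finset.univ.filter (fun y => s(a, y) ∈ E ∧ y ∉ A') := by
    intro y hy
    rw [Finset.mem_filter] at hy
    rw [Finset.mem_filter]
    exact ⟨Finset.mem_univ y, hy.2, fun hyA => (Finset.disjoint_left.1 hd) hyA hy.1⟩
  exact_mod_cast Finset.card_le_card h1

/-- many neighbours in `A'` -/
theorem e1a1_le_dg {V : Type} [Fintype V] [DecidableEq V] {E : Finset (Sym2 V)} {ε : ℝ}
    {A' : Finset V} (h : NbrsLike E ε A' A') {a : V} (ha : a ∈ A') :
    (A'.card : ℝ) - ε * nV V ≤ (dg E A' a : ℝ) := by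
  have h1 := (h a ha).2
  have h2 : (A'.filter (fun y => s(a, y) ∈ E)).card + (A'.filter (fun y => s(a, y) ∉ E)).card
      = A'.card := Finset.card_filter_add_card_filter_not _
  have h3 : (dg E A' a : ℝ) + ((A'.filter (fun y => s(a, y) ∉ E)).card : ℝ) = (A'.card : ℝ) := by
    unfold dg
    exact_mod_cast h2
  linarith

theorem prep1 (ε τ : ℝ) (hε : 0 < ε) (hετ : ε ≤ τ) (hτ : τ ≤ 1 / 10) :
    ∃ n0 : ℕ, ∀ (V : Type) [Fintype V] [DecidableEq V] (E : Finset (Sym2 V)) (A' B' : Finset V),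
      n0 ≤ Fintype.card V → Loopless E → (∀ v, Fintype.card V ≤ 2 * deg E v + 1) →
      Disjoint A' B' → (1 / 2 - ε) * nV V ≤ A'.card → (1 / 2 - ε) * nV V ≤ B'.card →
      NbrsLike E ε A' A' → NbrsLike E ε B' B' →
      ∃ A0 B0 X : Finset V, Env1 E ε τ A0 B0 X A' B' ∧
        ∀ v, v ∈ X ↔ (τ * nV V < (dg E A' v : ℝ) ∧ τ * nV V < (dg E B' v : ℝ)) := by
  refine ⟨0, ?_⟩
  intro V _ _ E A' B' _ hl hdeg hd hA hB hNA hNB
  classical
  have hn : (0 : ℝ) ≤ nV V := Nat.cast_nonneg _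
  have hετn : ε * nV V ≤ τ * nV V := mul_le_mul_of_nonneg_right hετ hn
  let X : Finset V := Finset.univ.filter
    (fun v => τ * nV V < (dg E A' v : ℝ) ∧ τ * nV V < (dg E B' v : ℝ))
  let A0 : Finset V := Finset.univ.filter (fun v => (dg E B' v : ℝ) ≤ τ * nV V)
  let B0 : Finset V := Finset.univ.filter
    (fun v => (dg E A' v : ℝ) ≤ τ * nV V ∧ τ * nV V < (dg E B' v : ℝ))
  have hX : ∀ v, v ∈ X ↔ (τ * nV V < (dg E A' v : ℝ) ∧ τ * nV V < (dg E B' v : ℝ)) := by
    intro v; simp [X]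
  have hA0 : ∀ v, v ∈ A0 ↔ (dg E B' v : ℝ) ≤ τ * nV V := by
    intro v; simp [A0]
  have hB0 : ∀ v, v ∈ B0 ↔ ((dg E A' v : ℝ) ≤ τ * nV V ∧ τ * nV V < (dg E B' v : ℝ)) := by
    intro v; simp [B0]
  refine ⟨A0, B0, X, ?_, hX⟩
  refine
    { dAB := ?_, dAX := ?_, dBX := ?_, cover := ?_, subA := ?_, subB := ?_, sizeA := hA,
      sizeB := hB, nA := fun a ha => (hNA a ha).2, nA' := fun a ha => e1a1_dg_le hd hNA ha,
      nB := fun b hb => (hNB b hb).2, nB' := fun b hb => e1a1_dg_le hd.symm hNB hb,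
      tA := fun a ha => (hA0 a).1 ha, tB := fun b hb => ((hB0 b).1 hb).1,
      mX := fun x hx => ⟨((hX x).1 hx).1.le, ((hX x).1 hx).2.le⟩, mindeg := hdeg }
  · rw [Finset.disjoint_left]
    intro v h1 h2
    rw [hA0] at h1
    rw [hB0] at h2
    exact absurd h2.2 (not_lt.2 h1)
  · rw [Finset.disjoint_left]
    intro v h1 h2
    rw [hA0] at h1
    rw [hX] at h2
    exact absurd h2.2 (not_lt.2 h1)
  · rw [Finset.disjoint_left]
    intro v h1 h2
    rw [hB0] at h1
    rw [hX] at h2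
    exact absurd h2.1 (not_lt.2 h1.1)
  · ext v
    simp only [Finset.mem_union, Finset.mem_univ, iff_true]
    rw [hA0, hB0, hX]
    by_cases h1 : (dg E B' v : ℝ) ≤ τ * nV V
    · exact Or.inl (Or.inl h1)
    · by_cases h2 : (dg E A' v : ℝ) ≤ τ * nV V
      · exact Or.inl (Or.inr ⟨h2, not_le.1 h1⟩)
      · exact Or.inr ⟨not_le.1 h2, not_le.1 h1⟩
  · intro a ha
    rw [hA0]
    exact (e1a1_dg_le hd hNA ha).trans hετn
  · intro b hb
    rw [hB0]
    refine ⟨(e1a1_dg_le hd.symm hNB hb).trans hετn, ?_⟩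
    have h1 := e1a1_le_dg hNB hb
    have hpos : (0 : ℝ) < nV V := by
      have : 0 < Fintype.card V := Fintype.card_pos_iff.2 ⟨b⟩
      exact_mod_cast this
    nlinarith

/-- swapping the two sides -/
theorem Env1.swap {V : Type} [Fintype V] [DecidableEq V] {E : Finset (Sym2 V)} {ε τ : ℝ}
    {A0 B0 X A' B' : Finset V} (h : Env1 E ε τ A0 B0 X A' B') : Env1 E ε τ B0 A0 X B' A' where
  dAB := h.dAB.symm
  dAX := h.dBX
  dBX := h.dAX
  cover := by rw [Finset.union_comm B0 A0]; exact h.cover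
  subA := h.subB
  subB := h.subA
  sizeA := h.sizeB
  sizeB := h.sizeA
  nA := h.nB
  nA' := h.nB'
  nB := h.nA
  nB' := h.nA'
  tA := h.tB
  tB := h.tA
  mX := fun x hx => (h.mX x hx).symm
  mindeg := h.mindeg

/-- the degree splits -/
theorem e1a1_deg_le {V : Type} [Fintype V] [DecidableEq V] (E : Finset (Sym2 V))
    (A' B' : Finset V) (v : V) :
    deg E v ≤ dg E A' v + dg E B' v + (Finset.univ \ (A' ∪ B')).card := by
  have h1 : deg E v = dg E Finset.univ v := by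
    apply deg_eq_dg
    intro e _
    rw [Finset.mem_sym2_iff]
    intro x _
    exact Finset.mem_univ x
  rw [h1]
  unfold dg
  have h2 : Finset.univ.filter (fun y => s(v, y) ∈ E) ⊆
      (A'.filter (fun y => s(v, y) ∈ E) ∪ B'.filter (fun y => s(v, y) ∈ E)) ∪
        (Finset.univ \ (A' ∪ B')) := by
    intro y hy
    simp only [Finset.mem_filter, Finset.mem_univ, true_and, Finset.mem_union,
      Finset.mem_sdiff] at hy ⊢
    tauto
  refine (Finset.card_le_card h2).trans ((Finset.card_union_le _ _).trans ?_)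
  exact Nat.add_le_add_right (Finset.card_union_le _ _) _

theorem e1a1_disj {V : Type} [Fintype V] [DecidableEq V] {E : Finset (Sym2 V)} {ε τ : ℝ}
    {A0 B0 X A' B' : Finset V} (h : Env1 E ε τ A0 B0 X A' B') : Disjoint A' B' :=
  Finset.disjoint_of_subset_left h.subA (Finset.disjoint_of_subset_right h.subB h.dAB)

theorem e1a1_card {V : Type} [Fintype V] [DecidableEq V] {E : Finset (Sym2 V)} {ε τ : ℝ}
    {A0 B0 X A' B' : Finset V} (h : Env1 E ε τ A0 B0 X A' B') :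
    (A'.card : ℝ) ≤ (1 / 2 + ε) * nV V ∧
    (((Finset.univ \ (A' ∪ B')).card : ℝ) ≤ 2 * ε * nV V) := by
  have h1 : (Finset.univ \ (A' ∪ B')).card + (A'.card + B'.card) = Fintype.card V := by
    rw [← Finset.card_union_of_disjoint (e1a1_disj h), Finset.card_sdiff_add_card_eq_card
      (Finset.subset_univ _), Finset.card_univ]
  have h2 : (((Finset.univ \ (A' ∪ B')).card : ℝ)) + ((A'.card : ℝ) + (B'.card : ℝ)) = nV V := by
    exact_mod_cast h1
  have h3 := h.sizeA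
  have h4 := h.sizeB
  have h5 : (0 : ℝ) ≤ (((Finset.univ \ (A' ∪ B')).card : ℝ)) := Nat.cast_nonneg _
  constructor <;> linarith

theorem e1a1_low {V : Type} [Fintype V] [DecidableEq V] {E : Finset (Sym2 V)} {ε τ : ℝ}
    {A0 B0 X A' B' : Finset V} (h : Env1 E ε τ A0 B0 X A' B') {a : V} (ha : a ∈ A0) :
    (1 / 2 - τ - 2 * ε) * nV V - 1 ≤ (dg E A' a : ℝ) := by
  have h1 := h.mindeg a
  have h2 := e1a1_deg_le E A' B' a
  have h3 := h.tA a ha
  have h4 := (e1a1_card h).2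
  have h5 : (nV V : ℝ) ≤ 2 * (deg E a : ℝ) + 1 := by exact_mod_cast h1
  have h6 : (deg E a : ℝ) ≤ (dg E A' a : ℝ) + (dg E B' a : ℝ) +
      ((Finset.univ \ (A' ∪ B')).card : ℝ) := by exact_mod_cast h2
  linarith

/-- all basic inequalities of the environment -/
theorem Env1.basic {V : Type} [Fintype V] [DecidableEq V] {E : Finset (Sym2 V)} {ε τ : ℝ}
    {A0 B0 X A' B' : Finset V} (h : Env1 E ε τ A0 B0 X A' B') (hl : Loopless E) :
    (A'.card : ℝ) ≤ (1 / 2 + ε) * nV V ∧ (B'.card : ℝ) ≤ (1 / 2 + ε) * nV V ∧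
    (((Finset.univ \ (A' ∪ B')).card : ℝ) ≤ 2 * ε * nV V) ∧
    (∀ v, deg E v ≤ dg E A' v + dg E B' v + (Finset.univ \ (A' ∪ B')).card) ∧
    (∀ a ∈ A0, (1 / 2 - τ - 2 * ε) * nV V - 1 ≤ (dg E A' a : ℝ)) ∧
    (∀ b ∈ B0, (1 / 2 - τ - 2 * ε) * nV V - 1 ≤ (dg E B' b : ℝ)) ∧
    (((crs E (A0 ∪ X) B0).card : ℝ) ≤ 3 * ε * nV V ^ 2) := by
  refine ⟨(e1a1_card h).1, (e1a1_card h.swap).1, (e1a1_card h).2, e1a1_deg_le E A' B',
    fun a ha => e1a1_low h ha, fun b hb => e1a1_low h.swap hb, ?_⟩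
  set R : Finset V := Finset.univ \ (A' ∪ B') with hR
  have hn : (0 : ℝ) ≤ nV V := Nat.cast_nonneg _
  -- the covering
  have hcov : crs E (A0 ∪ X) B0 ⊆ (R ×ˢ Finset.univ).image (fun p : V × V => s(p.1, p.2)) ∪
      A'.biUnion (fun a => (B'.filter (fun y => s(a, y) ∈ E)).image (fun y => s(a, y))) := by
    intro e he
    induction e using Sym2.ind with
    | _ x y =>
      unfold crs at he
      simp only [Finset.mem_sdiff, Finset.mk_mem_sym2_iff] at he
      obtain ⟨⟨heE, h1⟩, h2⟩ := he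
      have hc : ∀ z : V, z ∈ A0 ∪ X ∨ z ∈ B0 := by
        intro z
        have hz := Finset.mem_univ z
        rw [← h.cover, Finset.mem_union, Finset.mem_union] at hz
        rw [Finset.mem_union]
        tauto
      have hnB : ∀ z : V, z ∈ A0 ∪ X → z ∉ B' := by
        intro z hz hzB
        rw [Finset.mem_union] at hz
        rcases hz with hz | hz
        · exact (Finset.disjoint_left.1 h.dAB) hz (h.subB hzB)
        · exact (Finset.disjoint_left.1 h.dBX) (h.subB hzB) hz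
      have hnA : ∀ z : V, z ∈ B0 → z ∉ A' := by
        intro z hz hzA
        exact (Finset.disjoint_left.1 h.dAB) (h.subA hzA) hz
      have key : ∀ x y : V, s(x, y) ∈ E → x ∈ A0 ∪ X → y ∈ B0 →
          s(x, y) ∈ (R ×ˢ Finset.univ).image (fun p : V × V => s(p.1, p.2)) ∪
          A'.biUnion (fun a => (B'.filter (fun y => s(a, y) ∈ E)).image (fun y => s(a, y))) := by
        intro x y hE hx hy
        rw [Finset.mem_union]
        by_cases hxR : x ∈ R
        · left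
          exact Finset.mem_image.2 ⟨(x, y), Finset.mem_product.2 ⟨hxR, Finset.mem_univ _⟩, rfl⟩
        by_cases hyR : y ∈ R
        · left
          exact Finset.mem_image.2 ⟨(y, x), Finset.mem_product.2 ⟨hyR, Finset.mem_univ _⟩,
            Sym2.eq_swap⟩
        right
        have hx' : x ∈ A' := by
          rw [hR, Finset.mem_sdiff, not_and, not_not, Finset.mem_union] at hxR
          exact (hxR (Finset.mem_univ x)).resolve_right (hnB x hx)
        have hy' : y ∈ B' := by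
          rw [hR, Finset.mem_sdiff, not_and, not_not, Finset.mem_union] at hyR
          exact (hyR (Finset.mem_univ y)).resolve_left (hnA y hy)
        exact Finset.mem_biUnion.2 ⟨x, hx', Finset.mem_image.2 ⟨y,
          Finset.mem_filter.2 ⟨hy', hE⟩, rfl⟩⟩
      rcases hc x with hx | hx
      · rcases hc y with hy | hy
        · exact absurd ⟨hx, hy⟩ h1
        · exact key x y heE hx hy
      · rcases hc y with hy | hy
        · have := key y x (by rw [Sym2.eq_swap]; exact heE) hy hx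
          rw [Sym2.eq_swap] at this
          exact this
        · exact absurd ⟨hx, hy⟩ h2
  have h1 : (crs E (A0 ∪ X) B0).card ≤ R.card * Fintype.card V + ∑ a ∈ A', dg E B' a := by
    refine (Finset.card_le_card hcov).trans ((Finset.card_union_le _ _).trans ?_)
    refine Nat.add_le_add ?_ ?_
    · refine Finset.card_image_le.trans ?_
      rw [Finset.card_product, Finset.card_univ]
    · refine Finset.card_biUnion_le.trans ?_
      refine Finset.sum_le_sum fun a _ => ?_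
      exact Finset.card_image_le
  have h2 : ((crs E (A0 ∪ X) B0).card : ℝ) ≤ (R.card : ℝ) * nV V + ∑ a ∈ A', (dg E B' a : ℝ) := by
    exact_mod_cast h1
  have h3 : (∑ a ∈ A', (dg E B' a : ℝ)) ≤ A'.card * (ε * nV V) := by
    have := Finset.sum_le_card_nsmul A' (fun a => (dg E B' a : ℝ)) (ε * nV V) h.nA'
    simpa [nsmul_eq_mul] using this
  have h4 : (A'.card : ℝ) ≤ nV V := by
    have := Finset.card_le_univ A'
    exact_mod_cast this
  have h5 : (0 : ℝ) ≤ ε * nV V := by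
    rcases A'.eq_empty_or_nonempty with hA | ⟨a, ha⟩
    · have h6 := h.sizeA
      rw [hA] at h6
      simp only [Finset.card_empty, Nat.cast_zero] at h6
      linarith
    · exact le_trans (Nat.cast_nonneg _) (h.nA' a ha)
  have h6 : (A'.card : ℝ) * (ε * nV V) ≤ nV V * (ε * nV V) := mul_le_mul_of_nonneg_right h4 h5
  have h7 : (R.card : ℝ) * nV V ≤ 2 * ε * nV V * nV V :=
    mul_le_mul_of_nonneg_right (e1a1_card h).2 hn
  nlinarith

end H15C6
end S_E1A1

section S_E1A2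
/-!
Module E1A2 (part of E1A).  Extremal case 1 (two almost complete halves): preparation.

`prep1`: given the sets `A', B'` of `Ext1 E ε` and `ε ≤ τ`:
`X := {v : τ n < dg E A' v and τ n < dg E B' v}`, `A0 := {v ∉ X : dg E B' v ≤ τ n}`,
`B0 := {v ∉ X : τ n < dg E B' v}` (then `dg E A' v ≤ τ n`).  `A' ⊆ A0` as `dg E B' a ≤ ε n ≤ τ n`; for `b ∈ B'`:
`dg E B' b ≥ |B'| - εn > τ n` and `dg E A' b ≤ εn`, so `b ∈ B0`.

`rich1_*`: walk counts in a host `H` of inner edges.  `H ⊆ E` loses at most `θ n` edges at every vertex.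
For `A := A0 ∪ X`: every `u ∈ A` has at least `(τ/2) n` neighbours in `A'` through `H`
(`a ∈ A0`: `dg E A' a ≥ (n-1)/2 - τ n - 2 ε n`), two vertices of `A'` are adjacent in `H` for all but
`(ε+θ) n` choices.  Hence `P4 H S u w ≥ h n³`, `P3 H S u w ≥ h n²` for all `u, w ∈ A`, with `h = τ²/16`,
and `cn H S u w ≥ h n` if `u ∈ A0` (typical) and `dg E A' w ≥ 2τ n + 4 ε n + 2θ n + h n`.
Two typical vertices of `A0` have `≥ n/5` common neighbours (`τ ≤ 1/20`).
The same for `B0`.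
-/

set_option linter.unusedSectionVars false

open Finset

namespace H15C6

section Side

variable {V : Type} [Fintype V] [DecidableEq V]

/-- degrees through `H` -/
theorem e1a2_dg {E H : Finset (Sym2 V)} {Y Y' : Finset V} (hY : Y' ⊆ Y) {u : V} (hu : u ∈ Y) :
    dg E Y' u ≤ dg H Y' u + deg (inn E Y \ H) u := by
  refine le_trans ?_ (Nat.add_le_add_left (dg_le_deg (inn E Y \ H) Y' u) _)
  unfold dg
  refine le_trans (Finset.card_le_card ?_) (Finset.card_union_le _ _)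
  intro y hy
  simp only [Finset.mem_filter, Finset.mem_union, Finset.mem_sdiff, inn, Finset.mem_inter,
    Finset.mk_mem_sym2_iff] at hy ⊢
  by_cases hH : s(u, y) ∈ H
  · left; exact ⟨hy.1, hH⟩
  · right; exact ⟨hy.1, ⟨hy.2, hu, hY hy.1⟩, hH⟩

/-- missing neighbours through `H` -/
theorem e1a2_miss {E H : Finset (Sym2 V)} {Y Y' : Finset V} (hY : Y' ⊆ Y) {u : V} (hu : u ∈ Y) :
    (Y'.filter (fun y => s(u, y) ∉ H)).card ≤
      (Y'.filter (fun y => s(u, y) ∉ E)).card + deg (inn E Y \ H) u := by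
  refine le_trans ?_ (Nat.add_le_add_left (dg_le_deg (inn E Y \ H) Y' u) _)
  unfold dg
  refine le_trans (Finset.card_le_card ?_) (Finset.card_union_le _ _)
  intro y hy
  simp only [Finset.mem_filter, Finset.mem_union, Finset.mem_sdiff, inn, Finset.mem_inter,
    Finset.mk_mem_sym2_iff] at hy ⊢
  by_cases hE : s(u, y) ∈ E
  · right; exact ⟨hy.1, ⟨hE, hu, hY hy.1⟩, hy.2⟩
  · left; exact ⟨hy.1, hE⟩

theorem e1a2_cn {H : Finset (Sym2 V)} {S Y' : Finset V} (hS : Y' ⊆ S) (u w : V) :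
    dg H Y' u + dg H Y' w ≤ cn H S u w + Y'.card := by
  unfold dg cn
  have h1 : (Y'.filter (fun y => s(u, y) ∈ H) ∩ Y'.filter (fun y => s(w, y) ∈ H)).card ≤
      (S.filter (fun m => s(u, m) ∈ H ∧ s(m, w) ∈ H)).card := by
    apply Finset.card_le_card
    intro y hy
    simp only [Finset.mem_filter, Finset.mem_inter] at hy ⊢
    refine ⟨hS hy.1.1, hy.1.2, ?_⟩
    rw [Sym2.eq_swap]
    exact hy.2.2
  have h2 : (Y'.filter (fun y => s(u, y) ∈ H) ∪ Y'.filter (fun y => s(w, y) ∈ H)).card ≤ Y'.card :=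
    Finset.card_le_card (Finset.union_subset (Finset.filter_subset _ _) (Finset.filter_subset _ _))
  have h3 := Finset.card_union_add_card_inter (Y'.filter (fun y => s(u, y) ∈ H))
    (Y'.filter (fun y => s(w, y) ∈ H))
  omega

theorem e1a2_P3 {H : Finset (Sym2 V)} {S Y' : Finset V} (hS : Y' ⊆ S) (u w : V) {m : ℕ}
    (hm : ∀ a ∈ Y', (Y'.filter (fun y => s(a, y) ∉ H)).card ≤ m) :
    dg H Y' u * (dg H Y' w - m) ≤ P3 H S u w := by
  unfold P3
  rw [Finset.card_filter, Finset.sum_product]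
  have h1 : ∀ a ∈ Y'.filter (fun y => s(u, y) ∈ H), dg H Y' w - m ≤
      ∑ b ∈ S, if s(u, a) ∈ H ∧ s(a, b) ∈ H ∧ s(b, w) ∈ H then 1 else 0 := by
    intro a ha
    rw [Finset.mem_filter] at ha
    rw [← Finset.card_filter]
    have h2 : (Y'.filter (fun y => s(w, y) ∈ H)).card ≤
        (S.filter (fun b => s(u, a) ∈ H ∧ s(a, b) ∈ H ∧ s(b, w) ∈ H)).card +
          (Y'.filter (fun y => s(a, y) ∉ H)).card := by
      refine le_trans (Finset.card_le_card ?_) (Finset.card_union_le _ _)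
      intro y hy
      simp only [Finset.mem_filter, Finset.mem_union] at hy ⊢
      by_cases h : s(a, y) ∈ H
      · left
        refine ⟨hS hy.1, ha.2, h, ?_⟩
        rw [Sym2.eq_swap]
        exact hy.2
      · right; exact ⟨hy.1, h⟩
    have h3 := hm a ha.1
    unfold dg
    omega
  have h2 := Finset.card_nsmul_le_sum (Y'.filter (fun y => s(u, y) ∈ H)) _ _ h1
  rw [smul_eq_mul] at h2
  refine le_trans h2 (Finset.sum_le_sum_of_subset ?_)
  exact (Finset.filter_subset _ _).trans hS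

theorem e1a2_P4 {H : Finset (Sym2 V)} {S Y' : Finset V} (hS : Y' ⊆ S) (u w : V) {m : ℕ}
    (hm : ∀ a ∈ Y', (Y'.filter (fun y => s(a, y) ∉ H)).card ≤ m) :
    dg H Y' u * (dg H Y' w * (Y'.card - 2 * m)) ≤ P4 H S u w := by
  unfold P4
  rw [Finset.card_filter, Finset.sum_product]
  simp_rw [Finset.sum_product_right]
  have h1 : ∀ a ∈ Y'.filter (fun y => s(u, y) ∈ H), dg H Y' w * (Y'.card - 2 * m) ≤
      ∑ c ∈ S, ∑ b ∈ S, if s(u, a) ∈ H ∧ s(a, b) ∈ H ∧ s(b, c) ∈ H ∧ s(c, w) ∈ H then 1 else 0 := by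
    intro a ha
    rw [Finset.mem_filter] at ha
    have h2 : ∀ c ∈ Y'.filter (fun y => s(w, y) ∈ H), Y'.card - 2 * m ≤
        ∑ b ∈ S, if s(u, a) ∈ H ∧ s(a, b) ∈ H ∧ s(b, c) ∈ H ∧ s(c, w) ∈ H then 1 else 0 := by
      intro c hc
      rw [Finset.mem_filter] at hc
      rw [← Finset.card_filter]
      have h3 : Y'.card ≤ ((S.filter (fun b => s(u, a) ∈ H ∧ s(a, b) ∈ H ∧ s(b, c) ∈ H ∧
          s(c, w) ∈ H)).card + (Y'.filter (fun y => s(a, y) ∉ H)).card) +
          (Y'.filter (fun y => s(c, y) ∉ H)).card := by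
        refine le_trans (Finset.card_le_card (t := (S.filter (fun b => s(u, a) ∈ H ∧ s(a, b) ∈ H ∧
          s(b, c) ∈ H ∧ s(c, w) ∈ H) ∪ Y'.filter (fun y => s(a, y) ∉ H)) ∪
          Y'.filter (fun y => s(c, y) ∉ H)) ?_) ?_
        · intro y hy
          simp only [Finset.mem_filter, Finset.mem_union]
          by_cases h : s(a, y) ∈ H
          · by_cases h' : s(c, y) ∈ H
            · left; left
              refine ⟨hS hy, ha.2, h, ?_, ?_⟩
              · rw [Sym2.eq_swap]; exact h'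
              · rw [Sym2.eq_swap]; exact hc.2
            · right; exact ⟨hy, h'⟩
          · left; right; exact ⟨hy, h⟩
        · refine le_trans (Finset.card_union_le _ _) ?_
          exact Nat.add_le_add_right (Finset.card_union_le _ _) _
      have h4 := hm a ha.1
      have h5 := hm c hc.1
      omega
    have h3 := Finset.card_nsmul_le_sum (Y'.filter (fun y => s(w, y) ∈ H)) _ _ h2
    rw [smul_eq_mul] at h3
    refine le_trans h3 (Finset.sum_le_sum_of_subset ?_)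
    exact (Finset.filter_subset _ _).trans hS
  have h2 := Finset.card_nsmul_le_sum (Y'.filter (fun y => s(u, y) ∈ H)) _ _ h1
  rw [smul_eq_mul] at h2
  refine le_trans h2 (Finset.sum_le_sum_of_subset ?_)
  exact (Finset.filter_subset _ _).trans hS

/-- the counts on one side -/
theorem e1a2_side {τ : ℝ} (hτ : 0 < τ) (hτ' : τ ≤ 1 / 20) {E H : Finset (Sym2 V)}
    {Y Y0 Y' S : Finset V} (hn : 8 / τ + 20 ≤ nV V) (hS : Y' ⊆ S) (hY0 : Y0 ⊆ Y) (hY' : Y' ⊆ Y0)
    (h1 : (1 / 2 - τ / 40) * nV V ≤ (Y'.card : ℝ)) (h2 : (Y'.card : ℝ) ≤ (1 / 2 + τ / 40) * nV V)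
    (h3 : ∀ a ∈ Y', ((Y'.filter (fun y => s(a, y) ∉ E)).card : ℝ) ≤ τ / 40 * nV V)
    (h4 : ∀ v, (deg (inn E Y \ H) v : ℝ) ≤ τ / 40 * nV V)
    (h5 : ∀ a ∈ Y0, (1 / 2 - τ - 2 * (τ / 40)) * nV V - 1 ≤ (dg E Y' a : ℝ))
    (h6 : ∀ a ∈ Y, τ * nV V ≤ (dg E Y' a : ℝ)) :
    (∀ u ∈ Y, ∀ w ∈ Y, τ ^ 2 / 16 * nV V ^ 3 ≤ (P4 H S u w : ℝ) ∧
        τ ^ 2 / 16 * nV V ^ 2 ≤ (P3 H S u w : ℝ)) ∧
      (∀ u ∈ Y0, ∀ w ∈ Y0, 1 / 5 * nV V ≤ (cn H S u w : ℝ)) ∧
      (∀ u ∈ Y0, ∀ w ∈ Y, 2 * τ * nV V ≤ (dg E Y' w : ℝ) → τ / 2 * nV V ≤ (cn H S u w : ℝ)) := by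
  have hn20 : (20 : ℝ) ≤ nV V := by
    have : 0 < 8 / τ := by positivity
    linarith
  have hτn : 8 ≤ τ * nV V := by
    have h7 : 8 / τ ≤ nV V := by linarith
    rw [div_le_iff₀ hτ] at h7
    linarith
  have hn0 : (0 : ℝ) < nV V := by linarith
  have hYY : Y' ⊆ Y := hY'.trans hY0
  -- degrees through `H`
  have hdeg : ∀ u ∈ Y, (dg E Y' u : ℝ) - τ / 40 * nV V ≤ (dg H Y' u : ℝ) := by
    intro u hu
    have h7 : (dg E Y' u : ℝ) ≤ (dg H Y' u : ℝ) + (deg (inn E Y \ H) u : ℝ) := by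
      exact_mod_cast e1a2_dg (E := E) (H := H) hYY hu
    have h8 := h4 u
    linarith
  have hdeg2 : ∀ u ∈ Y, τ / 2 * nV V ≤ (dg H Y' u : ℝ) := by
    intro u hu
    have h7 := hdeg u hu
    have h8 := h6 u hu
    have h9 : 0 < τ * nV V := by positivity
    nlinarith
  have hm : ∀ a ∈ Y', (Y'.filter (fun y => s(a, y) ∉ H)).card ≤ ⌊τ / 20 * nV V⌋₊ := by
    intro a ha
    apply Nat.le_floor
    have h7 : ((Y'.filter (fun y => s(a, y) ∉ H)).card : ℝ) ≤
        ((Y'.filter (fun y => s(a, y) ∉ E)).card : ℝ) + (deg (inn E Y \ H) a : ℝ) := by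
      exact_mod_cast e1a2_miss (E := E) (H := H) hYY (hYY ha)
    have h8 := h4 a
    have h9 := h3 a ha
    linarith
  have hfl : ((⌊τ / 20 * nV V⌋₊ : ℕ) : ℝ) ≤ τ / 20 * nV V := Nat.floor_le (by positivity)
  refine ⟨fun u hu w hw => ⟨?_, ?_⟩, fun u hu w hw => ?_, fun u hu w hw hdw => ?_⟩
  · -- walks of length four
    have h7 := e1a2_P4 (H := H) hS u w hm
    have h8 : (((dg H Y' u * (dg H Y' w * (Y'.card - 2 * ⌊τ / 20 * nV V⌋₊)) : ℕ)) : ℝ) ≤
        (P4 H S u w : ℝ) := by exact_mod_cast h7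
    refine le_trans ?_ h8
    push_cast
    have h9 : (1 / 4 : ℝ) * nV V ≤ ((Y'.card - 2 * ⌊τ / 20 * nV V⌋₊ : ℕ) : ℝ) := by
      have h10 : (Y'.card : ℝ) ≤ ((Y'.card - 2 * ⌊τ / 20 * nV V⌋₊ : ℕ) : ℝ) +
          2 * (⌊τ / 20 * nV V⌋₊ : ℕ) := by
        have : Y'.card ≤ (Y'.card - 2 * ⌊τ / 20 * nV V⌋₊) + 2 * ⌊τ / 20 * nV V⌋₊ := by omega
        exact_mod_cast this
      nlinarith
    have h10 : (τ / 2 * nV V) * ((τ / 2 * nV V) * (1 / 4 * nV V)) ≤
        (dg H Y' u : ℝ) * ((dg H Y' w : ℝ) * ((Y'.card - 2 * ⌊τ / 20 * nV V⌋₊ : ℕ) : ℝ)) := by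
      have := hdeg2 u hu
      have := hdeg2 w hw
      gcongr
    have h11 : (τ / 2 * nV V) * ((τ / 2 * nV V) * (1 / 4 * nV V)) = τ ^ 2 / 16 * nV V ^ 3 := by
      ring
    rw [← h11]
    exact h10
  · have h7 := e1a2_P3 (H := H) hS u w hm
    have h8 : (((dg H Y' u * (dg H Y' w - ⌊τ / 20 * nV V⌋₊) : ℕ)) : ℝ) ≤
        (P3 H S u w : ℝ) := by exact_mod_cast h7
    refine le_trans ?_ h8
    push_cast
    have h9 : τ / 4 * nV V ≤ ((dg H Y' w - ⌊τ / 20 * nV V⌋₊ : ℕ) : ℝ) := by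
      have h10 : (dg H Y' w : ℝ) ≤ ((dg H Y' w - ⌊τ / 20 * nV V⌋₊ : ℕ) : ℝ) +
          (⌊τ / 20 * nV V⌋₊ : ℕ) := by
        have : dg H Y' w ≤ (dg H Y' w - ⌊τ / 20 * nV V⌋₊) + ⌊τ / 20 * nV V⌋₊ := by omega
        exact_mod_cast this
      have h11 := hdeg2 w hw
      have h12 : 0 < τ * nV V := by positivity
      nlinarith
    have h10 : (τ / 2 * nV V) * (τ / 4 * nV V) ≤
        (dg H Y' u : ℝ) * ((dg H Y' w - ⌊τ / 20 * nV V⌋₊ : ℕ) : ℝ) := by
      have := hdeg2 u hu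
      gcongr
    have h11 : 0 < τ ^ 2 * nV V ^ 2 := by positivity
    nlinarith
  · have h7 : (dg H Y' u : ℝ) + (dg H Y' w : ℝ) ≤ (cn H S u w : ℝ) + (Y'.card : ℝ) := by
      exact_mod_cast e1a2_cn (H := H) hS u w
    have h8 := hdeg u (hY0 hu)
    have h9 := hdeg w (hY0 hw)
    have h10 := h5 u hu
    have h11 := h5 w hw
    nlinarith
  · have h7 : (dg H Y' u : ℝ) + (dg H Y' w : ℝ) ≤ (cn H S u w : ℝ) + (Y'.card : ℝ) := by
      exact_mod_cast e1a2_cn (H := H) hS u w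
    have h8 := hdeg u (hY0 hu)
    have h9 := hdeg w hw
    have h10 := h5 u hu
    nlinarith

end Side

theorem rich1_P4 (τ : ℝ) (hτ : 0 < τ) (hτ' : τ ≤ 1 / 20) :
    ∃ ε θ : ℝ, 0 < ε ∧ 0 < θ ∧ ∃ n0 : ℕ, ∀ (V : Type) [Fintype V] [DecidableEq V]
      (E H : Finset (Sym2 V)) (A0 B0 X A' B' : Finset V), n0 ≤ Fintype.card V → Loopless E →
      Env1 E ε τ A0 B0 X A' B' → H ⊆ E →
      (∀ v, (deg ((inn E (A0 ∪ X) ∪ inn E B0) \ H) v : ℝ) ≤ θ * nV V) →
      (∀ u ∈ A0 ∪ X, ∀ w ∈ A0 ∪ X, τ ^ 2 / 16 * nV V ^ 3 ≤ (P4 H (A' ∪ B') u w : ℝ) ∧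
        τ ^ 2 / 16 * nV V ^ 2 ≤ (P3 H (A' ∪ B') u w : ℝ)) ∧
      (∀ u ∈ B0, ∀ w ∈ B0, τ ^ 2 / 16 * nV V ^ 3 ≤ (P4 H (A' ∪ B') u w : ℝ) ∧
        τ ^ 2 / 16 * nV V ^ 2 ≤ (P3 H (A' ∪ B') u w : ℝ)) ∧
      (∀ u ∈ A0, ∀ w ∈ A0, 1 / 5 * nV V ≤ (cn H (A' ∪ B') u w : ℝ)) ∧
      (∀ u ∈ B0, ∀ w ∈ B0, 1 / 5 * nV V ≤ (cn H (A' ∪ B') u w : ℝ)) ∧
      (∀ u ∈ A0, ∀ w ∈ A0 ∪ X, 2 * τ * nV V ≤ (dg E A' w : ℝ) →
        τ / 2 * nV V ≤ (cn H (A' ∪ B') u w : ℝ)) := by
  refine ⟨τ / 40, τ / 40, by positivity, by positivity, ⌈8 / τ + 20⌉₊, ?_⟩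
  intro V _ _ E H A0 B0 X A' B' hn hl hEnv hH hθ
  have hn' : 8 / τ + 20 ≤ nV V := le_trans (Nat.le_ceil _) (by exact_mod_cast hn)
  have hn20 : (20 : ℝ) ≤ nV V := by
    have : 0 < 8 / τ := by positivity
    linarith
  obtain ⟨b1, b2, -, -, b5, b6, -⟩ := hEnv.basic hl
  have hA := e1a2_side (V := V) hτ hτ' (E := E) (H := H) (Y := A0 ∪ X) (Y0 := A0) (Y' := A')
    (S := A' ∪ B') hn' Finset.subset_union_left Finset.subset_union_left hEnv.subA hEnv.sizeA b1
    hEnv.nA (fun v => le_trans (by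
      exact_mod_cast deg_mono (Finset.sdiff_subset_sdiff Finset.subset_union_left
        (Finset.Subset.refl H)) v) (hθ v)) b5 (by
      intro a ha
      rcases Finset.mem_union.1 ha with h | h
      · have h1 := b5 a h
        nlinarith
      · exact (hEnv.mX a h).1)
  have hB := e1a2_side (V := V) hτ hτ' (E := E) (H := H) (Y := B0) (Y0 := B0) (Y' := B')
    (S := A' ∪ B') hn' Finset.subset_union_right (Finset.Subset.refl _) hEnv.subB hEnv.sizeB b2
    hEnv.nB (fun v => le_trans (by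
      exact_mod_cast deg_mono (Finset.sdiff_subset_sdiff Finset.subset_union_right
        (Finset.Subset.refl H)) v) (hθ v)) b6 (by
      intro a ha
      have h1 := b6 a ha
      nlinarith)
  exact ⟨hA.1, hB.1, hA.2.1, hB.2.1, hA.2.2⟩

end H15C6
end S_E1A2

section S_E1B
/-!
Module E1B.  Extremal case 1: covering an even set `F` of cross edges (between `A = A0 ∪ X` and `B0`) by
six-cycles, using few edges of the host `H` (inner edges) at every vertex.  `n = |V|`, `S := A' ∪ B'`.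

Split `F = F0 ∪ FX`, `FX` the edges meeting `X`, `F0` between `A0` and `B0`.
(0) `ctr` for `F0` from `assign` (`X = ∅`, `B = {v : deg F0 v > lam}`), `cherry_pairing F0` gives `M2`:
   at most one edge per centre, `|M2| ≤ n`, `deg M2 ≤ lam + 1`, `F0 \ M2` has even counts.
(1) `Xodd := {x ∈ X : deg FX x odd}`; `|F|` even gives `|Xodd| ≡ |M2| (mod 2)`.
   If `|Xodd|` is odd choose `xs ∈ Xodd` and `ms = s(a,b) ∈ M2` (`a ∈ A0`, `b ∈ B0`), otherwise neither.
(2) The single cycle for `xs, ms` (if `|Xodd|` is odd): `dg E A' xs ≥ n/5` or `dg E B' xs ≥ n/5`.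
   First case: choose `b' ∈ B'`, `s(xs,b') ∈ F`, `b' ≠ b`, cycle `a b c b' xs c'` with `c` a common neighbour of `b, b'`,
   `c'` a common neighbour of `xs, a` (through `H`).  Second case: choose `b' ∈ B'` with `s(xs,b') ∈ F`
   and `s(b',b) ∈ H` (`b` typical: it misses at most `(2τ) n` vertices of `B'`), cycle
   `a b b' xs c c'`, path `xs c c' a` of length three (`P3`).
(3) The rest of `Xodd` is split into pairs `(x1,x2)`: by two applications of `pick` choose distinct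
   `b1 ∈ B'` with `s(x1,b1) ∈ F`, then `b2 ∈ B'` with `s(x2,b2) ∈ F`, `s(b1,b2) ∈ H`; all `b`'s distinct (and
   different from `b, b'` of (2)).  Requests `cB x1 b1 b2 x2`; host `H` minus the edges `b1b2` and minus the
   cycle of (2); `greedy_complete` (`rich_cB`, `P3`), `e = 1`, `|J| ≤ |X| ≤ 2 ε n`.
(4) Now every `x ∈ X` has an even number of uncovered edges of `FX` and an even number of edges of `F0` is left at
   every centre, apart from `M2' := M2 \ {ms}`, `|M2'|` even.  `cherry_cover` for the rest of `FX` with centre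
   the end in `X` (load `≤ |X|`), for `F0 \ M2`, and `pair_cover` for `M2'` (two disjoint edges `s(a,b), s(a',b')`:
   `p = a, q = b, p' = b', q' = a'`; typical vertices have many common neighbours).
In every step the host is reduced by the host edges used before (small degrees).
Constants: `lam = ⌈c n⌉`, `ε ≪ c ≪ ρ, τ`.
-/

open Finset

namespace H15C6

section e1bCov

variable {V : Type} [DecidableEq V]

/-- the edge set `F` can be covered by six-cycles using few edges of the host `H` -/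
def e1b_Cov (H F : Finset (Sym2 V)) (κ : ℕ) : Prop :=
  ∃ D : Finset (Sym2 V), Dec D ∧ F ⊆ D ∧ D ⊆ F ∪ H ∧ ∀ v, deg (D ∩ H) v ≤ κ

/-- the same after removal of a set `R` of host edges of maximum degree `N` -/
def e1b_All (H F : Finset (Sym2 V)) (κ N : ℕ) : Prop :=
  ∀ R ⊆ H, (∀ v, deg R v ≤ N) → e1b_Cov (H \ R) F κ

theorem e1b_seq {H F1 F2 D1 : Finset (Sym2 V)} {κ1 κ2 : ℕ} (hd : Disjoint F1 F2)
    (h2 : Disjoint F2 H) (hD : Dec D1) (h3 : F1 ⊆ D1) (h4 : D1 ⊆ F1 ∪ H)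
    (h5 : ∀ v, deg (D1 ∩ H) v ≤ κ1) (h6 : e1b_Cov (H \ D1) F2 κ2) :
    e1b_Cov H (F1 ∪ F2) (κ1 + κ2) := by
  obtain ⟨D2, hD2, h7, h8, h9⟩ := h6
  have hdis : Disjoint D1 D2 := by
    rw [Finset.disjoint_left]
    intro e he1 he2
    rcases Finset.mem_union.1 (h8 he2) with h | h
    · rcases Finset.mem_union.1 (h4 he1) with h' | h'
      · exact (Finset.disjoint_left.1 hd) h' h
      · exact (Finset.disjoint_left.1 h2) h h'
    · exact (Finset.mem_sdiff.1 h).2 he1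
  refine ⟨D1 ∪ D2, hD.union hD2 hdis, ?_, ?_, ?_⟩
  · exact Finset.union_subset_union h3 h7
  · intro e he
    rcases Finset.mem_union.1 he with h | h
    · rcases Finset.mem_union.1 (h4 h) with h' | h'
      · exact Finset.mem_union_left _ (Finset.mem_union_left _ h')
      · exact Finset.mem_union_right _ h'
    · rcases Finset.mem_union.1 (h8 h) with h' | h'
      · exact Finset.mem_union_left _ (Finset.mem_union_right _ h')
      · exact Finset.mem_union_right _ (Finset.mem_sdiff.1 h').1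
  · intro v
    rw [Finset.union_inter_distrib_right]
    refine (deg_union_le _ _ v).trans (Nat.add_le_add (h5 v) ?_)
    refine (deg_mono ?_ v).trans (h9 v)
    intro e he
    obtain ⟨he1, he2⟩ := Finset.mem_inter.1 he
    refine Finset.mem_inter.2 ⟨he1, ?_⟩
    rcases Finset.mem_union.1 (h8 he1) with h | h
    · exact absurd he2 ((Finset.disjoint_left.1 h2) h)
    · exact h

theorem e1b_All.union {H F1 F2 : Finset (Sym2 V)} {κ1 κ2 N : ℕ} (hd : Disjoint F1 F2)
    (h2 : Disjoint F2 H) (A1 : e1b_All H F1 κ1 N) (A2 : e1b_All H F2 κ2 (N + κ1)) :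
    e1b_All H (F1 ∪ F2) (κ1 + κ2) N := by
  intro R hR hdeg
  obtain ⟨D1, hD1, h3, h4, h5⟩ := A1 R hR hdeg
  refine e1b_seq hd (h2.mono_right Finset.sdiff_subset) hD1 h3 h4 h5 ?_
  have h6 := A2 (R ∪ (D1 ∩ (H \ R))) (by
    intro e he
    rcases Finset.mem_union.1 he with h | h
    · exact hR h
    · exact (Finset.mem_sdiff.1 (Finset.mem_inter.1 h).2).1) (by
    intro v
    exact (deg_union_le _ _ v).trans (Nat.add_le_add (hdeg v) (h5 v)))
  have h7 : (H \ R) \ D1 = H \ (R ∪ (D1 ∩ (H \ R))) := by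
    ext e
    simp only [Finset.mem_sdiff, Finset.mem_union, Finset.mem_inter]
    tauto
  rw [h7]
  exact h6

theorem e1b_All.mono {H F : Finset (Sym2 V)} {κ N N' : ℕ} (h : e1b_All H F κ N) (hN : N' ≤ N) :
    e1b_All H F κ N' := fun R hR hdeg => h R hR fun v => (hdeg v).trans hN

theorem e1b_All.cov {H F : Finset (Sym2 V)} {κ N : ℕ} (h : e1b_All H F κ N) : e1b_Cov H F κ := by
  have := h ∅ (Finset.empty_subset _) (fun v => by simp)
  simpa using this

theorem e1b_cov_empty (H : Finset (Sym2 V)) : e1b_Cov H ∅ 0 :=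
  ⟨∅, Dec.empty, by simp, by simp, fun v => by simp⟩

theorem e1b_deg_cyc {v : Fin 6 → V} (hv : Function.Injective v) (x : V) : deg (cyc v) x ≤ 2 := by
  by_cases hx : ∃ i, v i = x
  · obtain ⟨i, rfl⟩ := hx
    rw [deg_cyc_mem hv]
  · rw [deg_cyc_notMem (fun i hi => hx ⟨i, hi⟩)]
    exact Nat.zero_le _

/-- the set of six-cycle edges, explicitly -/
theorem e1b_mem_cyc {a b c d e f : V} {x : Sym2 V} : x ∈ cyc ![a, b, c, d, e, f] ↔
    x = s(a, b) ∨ x = s(b, c) ∨ x = s(c, d) ∨ x = s(d, e) ∨ x = s(e, f) ∨ x = s(f, a) := by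
  rw [mem_cyc]
  constructor
  · rintro ⟨i, rfl⟩
    fin_cases i <;> simp
  · rintro (rfl | rfl | rfl | rfl | rfl | rfl)
    · exact ⟨0, rfl⟩
    · exact ⟨1, rfl⟩
    · exact ⟨2, rfl⟩
    · exact ⟨3, rfl⟩
    · exact ⟨4, rfl⟩
    · exact ⟨5, rfl⟩

/-- covering two edges by one cycle `a b c d e f` -/
theorem e1b_one {H : Finset (Sym2 V)} {a b c d e f : V}
    (hinj : Function.Injective ![a, b, c, d, e, f]) {F1 : Finset (Sym2 V)}
    (hF : F1 ⊆ cyc ![a, b, c, d, e, f]) (hH : cyc ![a, b, c, d, e, f] ⊆ F1 ∪ H) :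
    Dec (cyc ![a, b, c, d, e, f]) ∧ F1 ⊆ cyc ![a, b, c, d, e, f] ∧
      cyc ![a, b, c, d, e, f] ⊆ F1 ∪ H ∧ ∀ v, deg (cyc ![a, b, c, d, e, f] ∩ H) v ≤ 2 :=
  ⟨IsC6.dec ⟨_, hinj, rfl⟩, hF, hH, fun v => (deg_mono Finset.inter_subset_left v).trans
    (e1b_deg_cyc hinj v)⟩

theorem e1b_inj {a b c d e f : V} (h1 : a ≠ b) (h2 : a ≠ c) (h3 : a ≠ d) (h4 : a ≠ e) (h5 : a ≠ f)
    (h6 : b ≠ c) (h7 : b ≠ d) (h8 : b ≠ e) (h9 : b ≠ f) (h10 : c ≠ d) (h11 : c ≠ e) (h12 : c ≠ f)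
    (h13 : d ≠ e) (h14 : d ≠ f) (h15 : e ≠ f) : Function.Injective ![a, b, c, d, e, f] := by
  intro i j hij
  fin_cases i <;> fin_cases j <;> simp_all

end e1bCov

section e1bSides

variable {V : Type} [Fintype V] [DecidableEq V]

theorem Env1.e1b_mono {E : Finset (Sym2 V)} {ε ε' τ : ℝ} {A0 B0 X A' B' : Finset V}
    (h : Env1 E ε τ A0 B0 X A' B') (hε : ε ≤ ε') : Env1 E ε' τ A0 B0 X A' B' := by
  have hn : (0 : ℝ) ≤ nV V := Nat.cast_nonneg _
  have h1 : ε * nV V ≤ ε' * nV V := mul_le_mul_of_nonneg_right hε hn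
  exact { h with
    sizeA := le_trans (by nlinarith) h.sizeA
    sizeB := le_trans (by nlinarith) h.sizeB
    nA := fun a ha => (h.nA a ha).trans h1
    nA' := fun a ha => (h.nA' a ha).trans h1
    nB := fun a ha => (h.nB a ha).trans h1
    nB' := fun a ha => (h.nB' a ha).trans h1 }

/-- every vertex is in exactly one of the two sides -/
theorem Env1.e1b_side {E : Finset (Sym2 V)} {ε τ : ℝ} {A0 B0 X A' B' : Finset V}
    (h : Env1 E ε τ A0 B0 X A' B') (v : V) : v ∈ A0 ∪ X ∨ v ∈ B0 := by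
  have := Finset.mem_univ v
  rw [← h.cover] at this
  simp only [Finset.mem_union] at this ⊢
  tauto

theorem Env1.e1b_disj {E : Finset (Sym2 V)} {ε τ : ℝ} {A0 B0 X A' B' : Finset V}
    (h : Env1 E ε τ A0 B0 X A' B') {v : V} (h1 : v ∈ A0 ∪ X) (h2 : v ∈ B0) : False := by
  rcases Finset.mem_union.1 h1 with h3 | h3
  · exact (Finset.disjoint_left.1 h.dAB) h3 h2
  · exact (Finset.disjoint_left.1 h.dBX) h2 h3

/-- cross edges -/
theorem Env1.e1b_crs {E : Finset (Sym2 V)} {ε τ : ℝ} {A0 B0 X A' B' : Finset V}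
    (h : Env1 E ε τ A0 B0 X A' B') {u v : V} : s(u, v) ∈ crs E (A0 ∪ X) B0 ↔
      s(u, v) ∈ E ∧ ((u ∈ A0 ∪ X ∧ v ∈ B0) ∨ (u ∈ B0 ∧ v ∈ A0 ∪ X)) := by
  unfold crs
  rw [Finset.mem_sdiff, Finset.mem_sdiff, Finset.mk_mem_sym2_iff, Finset.mk_mem_sym2_iff]
  rcases h.e1b_side u with hu | hu <;> rcases h.e1b_side v with hv | hv
  · have h1 : ¬ (v ∈ B0) := fun h' => h.e1b_disj hv h'
    have h2 : ¬ (u ∈ B0) := fun h' => h.e1b_disj hu h'
    tauto
  · have h1 : ¬ (v ∈ A0 ∪ X) := fun h' => h.e1b_disj h' hv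
    have h2 : ¬ (u ∈ B0) := fun h' => h.e1b_disj hu h'
    tauto
  · have h1 : ¬ (v ∈ B0) := fun h' => h.e1b_disj hv h'
    have h2 : ¬ (u ∈ A0 ∪ X) := fun h' => h.e1b_disj h' hu
    tauto
  · have h1 : ¬ (v ∈ A0 ∪ X) := fun h' => h.e1b_disj h' hv
    have h2 : ¬ (u ∈ A0 ∪ X) := fun h' => h.e1b_disj h' hu
    tauto

/-- inner edges -/
theorem e1b_inner {E : Finset (Sym2 V)} {A B : Finset V} {u v : V} :
    s(u, v) ∈ inn E A ∪ inn E B ↔
      s(u, v) ∈ E ∧ ((u ∈ A ∧ v ∈ A) ∨ (u ∈ B ∧ v ∈ B)) := by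
  unfold inn
  rw [Finset.mem_union, Finset.mem_inter, Finset.mem_inter, Finset.mk_mem_sym2_iff,
    Finset.mk_mem_sym2_iff]
  tauto

theorem Env1.e1b_dis {E : Finset (Sym2 V)} {ε τ : ℝ} {A0 B0 X A' B' : Finset V}
    (h : Env1 E ε τ A0 B0 X A' B') :
    Disjoint (crs E (A0 ∪ X) B0) (inn E (A0 ∪ X) ∪ inn E B0) := by
  rw [Finset.disjoint_left]
  intro e
  induction e using Sym2.ind with
  | _ u v =>
    intro h1 h2
    rw [h.e1b_crs] at h1
    rw [e1b_inner] at h2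
    rcases h1.2 with ⟨h3, h4⟩ | ⟨h3, h4⟩ <;> rcases h2.2 with ⟨h5, h6⟩ | ⟨h5, h6⟩
    · exact h.e1b_disj h6 h4
    · exact h.e1b_disj h3 h5
    · exact h.e1b_disj h5 h3
    · exact h.e1b_disj h4 h6

end e1bSides

end H15C6


namespace H15C6

section e1bRich

variable {V : Type} [Fintype V] [DecidableEq V]

/-- richness of a host -/
structure E1bRich (H : Finset (Sym2 V)) (A0 B0 X S : Finset V) (h : ℝ) : Prop where
  pA : ∀ u ∈ A0 ∪ X, ∀ w ∈ A0 ∪ X, h * nV V ^ 3 ≤ (P4 H S u w : ℝ)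
  qA : ∀ u ∈ A0 ∪ X, ∀ w ∈ A0 ∪ X, h * nV V ^ 2 ≤ (P3 H S u w : ℝ)
  pB : ∀ u ∈ B0, ∀ w ∈ B0, h * nV V ^ 3 ≤ (P4 H S u w : ℝ)
  cA : ∀ u ∈ A0, ∀ w ∈ A0, 1 / 5 * nV V ≤ (cn H S u w : ℝ)
  cB : ∀ u ∈ B0, ∀ w ∈ B0, 1 / 5 * nV V ≤ (cn H S u w : ℝ)

theorem e1b_card_le (S : Finset V) : (S.card : ℝ) ≤ nV V := by
  unfold nV
  exact_mod_cast Finset.card_le_univ S

/-- cherries -/
theorem e1b_cherry {E H F : Finset (Sym2 V)} {ε τ h : ℝ} {A0 B0 X A' B' : Finset V}
    (S : Finset V) (hl : Loopless E) (henv : Env1 E ε τ A0 B0 X A' B')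
    (hH : H ⊆ inn E (A0 ∪ X) ∪ inn E B0)
    (hF : F ⊆ crs E (A0 ∪ X) B0) (hr : E1bRich H A0 B0 X S h) (hh : 0 ≤ h)
    (ctr : Sym2 V → V) {L : ℕ} (hL : 1 ≤ L)
    (hctr : ∀ f ∈ F, ctr f ∈ f) (heven : ∀ v, Even (F.filter (fun f => ctr f = v)).card)
    (hload : ∀ p, (F.filter (fun f => p ∈ f ∧ ctr f ≠ p)).card ≤ L)
    (hnum : 18 * (F.card : ℝ) / L + 12 * L + 12 * L + 8 < h * S.card) :
    e1b_Cov H F (4 * L) := by
  have hHE : H ⊆ E := fun e he => by
    rcases Finset.mem_union.1 (hH he) with h | h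
    · exact (Finset.mem_inter.1 h).1
    · exact (Finset.mem_inter.1 h).1
  have hFE : F ⊆ E := fun e he =>
    (Finset.mem_sdiff.1 (Finset.mem_sdiff.1 (hF he)).1).1
  have hS3 : h * (S.card : ℝ) ^ 3 ≤ h * nV V ^ 3 :=
    mul_le_mul_of_nonneg_left (pow_le_pow_left₀ (Nat.cast_nonneg _) (e1b_card_le S) 3) hh
  obtain ⟨D, h1, h2, h3, h4⟩ := cherry_cover S H F ctr h L L hL (hl.mono hHE) (hl.mono hFE)
    (henv.e1b_dis.mono hF hH) hctr heven (by
      intro v u w huw h1 h2 _ _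
      have h3 := henv.e1b_crs.1 (hF h1)
      have h4 := henv.e1b_crs.1 (hF h2)
      refine hS3.trans ?_
      rcases h3.2 with ⟨h5, h6⟩ | ⟨h5, h6⟩ <;> rcases h4.2 with ⟨h7, h8⟩ | ⟨h7, h8⟩
      · exact absurd h6 (fun h6 => henv.e1b_disj h7 h6)
      · exact hr.pA u h5 w h8
      · exact hr.pB u h5 w h8
      · exact absurd h7 (fun h7 => henv.e1b_disj h6 h7)) hload hnum
  refine ⟨D, h1, h2, h3, fun v => (h4 v).trans (by omega)⟩

/-- a cross edge not meeting `X` -/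
theorem e1b_rep {E : Finset (Sym2 V)} {ε τ : ℝ} {A0 B0 X A' B' : Finset V}
    (henv : Env1 E ε τ A0 B0 X A' B') {e : Sym2 V} (he : e ∈ crs E (A0 ∪ X) B0) :
    ∃ a ∈ A0 ∪ X, ∃ b ∈ B0, e = s(a, b) ∧ s(a, b) ∈ E := by
  induction e using Sym2.ind with
  | _ u v =>
    have h := henv.e1b_crs.1 he
    rcases h.2 with ⟨h1, h2⟩ | ⟨h1, h2⟩
    · exact ⟨u, h1, v, h2, rfl, h.1⟩
    · refine ⟨v, h2, u, h1, Sym2.eq_swap, ?_⟩
      rw [Sym2.eq_swap]
      exact h.1

/-- left-over edges -/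
theorem e1b_pairs {E H M : Finset (Sym2 V)} {ε τ h : ℝ} {A0 B0 X A' B' : Finset V}
    (S : Finset V) (hl : Loopless E) (henv : Env1 E ε τ A0 B0 X A' B')
    (hH : H ⊆ inn E (A0 ∪ X) ∪ inn E B0)
    (hM : M ⊆ crs E (A0 ∪ X) B0) (hMX : ∀ e ∈ M, ∀ x ∈ X, x ∉ e)
    (hr : E1bRich H A0 B0 X S h) (hh : 0 ≤ h) (hh1 : h ≤ 1 / 25)
    {L : ℕ} (hL : 1 ≤ L) (heven : Even M.card) (hload : ∀ p, deg M p ≤ L + 1)
    (hnum : 18 * (M.card : ℝ) / L + 12 * (L + 1 : ℕ) + 12 * L + 8 < h * S.card) :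
    e1b_Cov H M (4 * L + 2) := by
  have hHE : H ⊆ E := fun e he => by
    rcases Finset.mem_union.1 (hH he) with h | h
    · exact (Finset.mem_inter.1 h).1
    · exact (Finset.mem_inter.1 h).1
  have hME : M ⊆ E := fun e he =>
    (Finset.mem_sdiff.1 (Finset.mem_sdiff.1 (hM he)).1).1
  have hn : (0 : ℝ) ≤ nV V := Nat.cast_nonneg _
  have hS3 : h * (S.card : ℝ) ^ 3 ≤ h * nV V ^ 3 :=
    mul_le_mul_of_nonneg_left (pow_le_pow_left₀ (Nat.cast_nonneg _) (e1b_card_le S) 3) hh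
  have hS2 : h * (S.card : ℝ) ^ 2 ≤ (1 / 5 * nV V) * (1 / 5 * nV V) := by
    have h1 : h * (S.card : ℝ) ^ 2 ≤ h * nV V ^ 2 :=
      mul_le_mul_of_nonneg_left (pow_le_pow_left₀ (Nat.cast_nonneg _) (e1b_card_le S) 2) hh
    have h2 : h * nV V ^ 2 ≤ 1 / 25 * nV V ^ 2 := mul_le_mul_of_nonneg_right hh1 (by positivity)
    nlinarith
  obtain ⟨D, h1, h2, h3, h4⟩ := pair_cover S H M h (L + 1) L hL (hl.mono hHE) (hl.mono hME)
    (henv.e1b_dis.mono hM hH) heven (by
      intro u v w huw h1 h2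
      have h3 := henv.e1b_crs.1 (hM h1)
      have h4 := henv.e1b_crs.1 (hM h2)
      refine hS3.trans ?_
      rcases h3.2 with ⟨h5, h6⟩ | ⟨h5, h6⟩ <;> rcases h4.2 with ⟨h7, h8⟩ | ⟨h7, h8⟩
      · exact absurd h6 (fun h6 => henv.e1b_disj h7 h6)
      · exact hr.pA u h5 w h8
      · exact hr.pB u h5 w h8
      · exact absurd h7 (fun h7 => henv.e1b_disj h6 h7)) (by
      intro m hm m' hm' _
      obtain ⟨a, ha, b, hb, rfl, _⟩ := e1b_rep henv (hM hm)
      obtain ⟨a', ha', b', hb', rfl, _⟩ := e1b_rep henv (hM hm')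
      have ha0 : a ∈ A0 := by
        rcases Finset.mem_union.1 ha with h | h
        · exact h
        · exact absurd (Sym2.mem_mk_left a b) (hMX _ hm a h)
      have ha0' : a' ∈ A0 := by
        rcases Finset.mem_union.1 ha' with h | h
        · exact h
        · exact absurd (Sym2.mem_mk_left a' b') (hMX _ hm' a' h)
      refine ⟨a, b, b', a', rfl, Sym2.eq_swap, hS2.trans ?_⟩
      exact mul_le_mul (hr.cB b hb b' hb') (hr.cA a' ha0' a ha0) (by positivity)
        (Nat.cast_nonneg _)) hload hnum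
  refine ⟨D, h1, h2, h3, fun v => (h4 v).trans (by omega)⟩

end e1bRich

end H15C6


namespace H15C6

section e1bOdd

variable {V : Type} [Fintype V] [DecidableEq V]

/-- every edge of `FX` has exactly one end in `X` -/
theorem e1b_sum_deg {E FX : Finset (Sym2 V)} {ε τ : ℝ} {A0 B0 X A' B' : Finset V}
    (henv : Env1 E ε τ A0 B0 X A' B') (hF : FX ⊆ crs E (A0 ∪ X) B0)
    (hX : ∀ e ∈ FX, ∃ x ∈ X, x ∈ e) : ∑ x ∈ X, deg FX x = FX.card := by
  unfold deg
  simp_rw [Finset.card_filter]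
  rw [Finset.sum_comm]
  have : ∀ e ∈ FX, (∑ x ∈ X, if x ∈ e then 1 else 0) = 1 := by
    intro e he
    obtain ⟨x, hx, hxe⟩ := hX e he
    obtain ⟨a, ha, b, hb, rfl, _⟩ := e1b_rep henv (hF he)
    rw [← Finset.card_filter, Finset.card_eq_one]
    have hbX : ∀ y ∈ X, y ≠ b := by
      rintro y hy rfl
      exact henv.e1b_disj (Finset.mem_union_right _ hy) hb
    have hxa : x = a := (Sym2.mem_iff.1 hxe).resolve_right (hbX x hx)
    refine ⟨x, ?_⟩
    ext y
    rw [Finset.mem_filter, Finset.mem_singleton, Sym2.mem_iff]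
    constructor
    · rintro ⟨h1, h2 | h2⟩
      · rw [h2, hxa]
      · exact absurd h2 (hbX y h1)
    · rintro rfl
      exact ⟨hx, Or.inl hxa⟩
  rw [Finset.sum_congr rfl this]
  simp

theorem e1b_odd {E G FX : Finset (Sym2 V)} {ε τ h : ℝ} {A0 B0 X A' B' S : Finset V}
    [Nonempty V] (hl : Loopless E) (henv : Env1 E ε τ A0 B0 X A' B')
    (hG : G ⊆ inn E (A0 ∪ X) ∪ inn E B0)
    (hF : FX ⊆ crs E (A0 ∪ X) B0) (hX : ∀ e ∈ FX, ∃ x ∈ X, x ∈ e) (heven : Even FX.card)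
    {m0 m1 : ℕ} (hm0 : ∀ x ∈ X, m0 ≤ dg FX B' x)
    (hm1 : ∀ b ∈ B', (B'.filter (fun y => s(b, y) ∉ G)).card ≤ m1)
    (hm : 2 * X.card + m1 < m0) (hh : 0 ≤ h)
    (hr : ∀ R ⊆ G, (∀ v, deg R v ≤ 1) → E1bRich (G \ R) A0 B0 X S h)
    {L : ℕ} (hL : 1 ≤ L) (hn : 12 ≤ h * nV V)
    (hnum : 36 * (X.card : ℝ) / L + 12 * (1 : ℕ) + 12 * L < h / 2 * S.card) :
    ∃ F2 ⊆ FX, (∀ x ∈ X, Even (deg (FX \ F2) x)) ∧ e1b_Cov G F2 (2 * L + 3) := by
  classical
  have hGE : G ⊆ E := fun e he => by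
    rcases Finset.mem_union.1 (hG he) with h | h
    · exact (Finset.mem_inter.1 h).1
    · exact (Finset.mem_inter.1 h).1
  have hB'X : ∀ x ∈ X, ∀ b ∈ B', x ≠ b := by
    rintro x hx b hb rfl
    exact (Finset.disjoint_left.1 henv.dBX) (henv.subB hb) hx
  set Y := X.filter (fun x => Odd (deg FX x)) with hY
  have hYeven : Even Y.card := by
    rw [hY, ← Finset.even_sum_iff_even_card_odd, e1b_sum_deg henv hF hX]
    exact heven
  obtain ⟨m, hm2⟩ := hYeven
  have hmX : m ≤ X.card := by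
    have : Y.card ≤ X.card := Finset.card_filter_le _ _
    omega
  have hcard : Fintype.card (Fin m ⊕ Fin m) = Fintype.card Y := by
    simp [hm2]
  let e : Fin m ⊕ Fin m ≃ Y := Fintype.equivOfCardEq hcard
  let x1 : Fin m → V := fun i => (e (Sum.inl i) : V)
  let x2 : Fin m → V := fun i => (e (Sum.inr i) : V)
  have hx1 : ∀ i, x1 i ∈ X ∧ Odd (deg FX (x1 i)) := fun i => Finset.mem_filter.1 (e (Sum.inl i)).2
  have hx2 : ∀ i, x2 i ∈ X ∧ Odd (deg FX (x2 i)) := fun i => Finset.mem_filter.1 (e (Sum.inr i)).2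
  have hx11 : ∀ i j, x1 i = x1 j → i = j := by
    intro i j hij
    have := e.injective (Subtype.ext hij)
    exact Sum.inl_injective this
  have hx22 : ∀ i j, x2 i = x2 j → i = j := by
    intro i j hij
    have := e.injective (Subtype.ext hij)
    exact Sum.inr_injective this
  have hx12 : ∀ i j, x1 i ≠ x2 j := by
    intro i j hij
    have := e.injective (Subtype.ext hij)
    exact absurd this (by simp)
  have hxsurj : ∀ x ∈ Y, (∃ i, x = x1 i) ∨ ∃ i, x = x2 i := by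
    intro x hx
    obtain ⟨s, hs⟩ := e.surjective ⟨x, hx⟩
    rcases s with i | i
    · left
      exact ⟨i, (congrArg Subtype.val hs).symm⟩
    · right
      exact ⟨i, (congrArg Subtype.val hs).symm⟩
  -- the vertices `b1 i`
  obtain ⟨b1, hb1, hb1i⟩ := pick (Finset.univ : Finset (Fin m))
    (fun i => B'.filter (fun y => s(x1 i, y) ∈ FX)) (∅ : Finset V) (by
      intro i _
      have h1 : m0 ≤ (B'.filter (fun y => s(x1 i, y) ∈ FX)).card := hm0 _ (hx1 i).1
      rw [Finset.card_empty, Finset.card_univ, Fintype.card_fin]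
      omega)
  have hb1B : ∀ i, b1 i ∈ B' := fun i => (Finset.mem_filter.1 (hb1 i (Finset.mem_univ i)).1).1
  have hb1F : ∀ i, s(x1 i, b1 i) ∈ FX := fun i =>
    (Finset.mem_filter.1 (hb1 i (Finset.mem_univ i)).1).2
  have hb11 : ∀ i j, b1 i = b1 j → i = j := fun i j hij =>
    hb1i i (Finset.mem_univ i) j (Finset.mem_univ j) hij
  -- the vertices `b2 i`
  obtain ⟨b2, hb2, hb2i⟩ := pick (Finset.univ : Finset (Fin m))
    (fun i => B'.filter (fun y => s(x2 i, y) ∈ FX ∧ s(b1 i, y) ∈ G))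
    (Finset.univ.image b1) (by
      intro i _
      have h1 : m0 ≤ (B'.filter (fun y => s(x2 i, y) ∈ FX)).card := hm0 _ (hx2 i).1
      have h2 := hm1 (b1 i) (hb1B i)
      have h3 : (B'.filter (fun y => s(x2 i, y) ∈ FX)).card ≤
          (B'.filter (fun y => s(x2 i, y) ∈ FX ∧ s(b1 i, y) ∈ G)).card +
            (B'.filter (fun y => s(b1 i, y) ∉ G)).card := by
        refine le_trans (Finset.card_le_card ?_) (Finset.card_union_le _ _)
        intro y hy
        simp only [Finset.mem_union, Finset.mem_filter] at hy ⊢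
        tauto
      have h4 : (Finset.univ.image b1).card ≤ m := by
        refine Finset.card_image_le.trans ?_
        rw [Finset.card_univ, Fintype.card_fin]
      rw [Finset.card_univ, Fintype.card_fin]
      omega)
  have hb2B : ∀ i, b2 i ∈ B' := fun i => (Finset.mem_filter.1 (hb2 i (Finset.mem_univ i)).1).1
  have hb2F : ∀ i, s(x2 i, b2 i) ∈ FX := fun i =>
    (Finset.mem_filter.1 (hb2 i (Finset.mem_univ i)).1).2.1
  have hb2G : ∀ i, s(b1 i, b2 i) ∈ G := fun i =>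
    (Finset.mem_filter.1 (hb2 i (Finset.mem_univ i)).1).2.2
  have hb22 : ∀ i j, b2 i = b2 j → i = j := fun i j hij =>
    hb2i i (Finset.mem_univ i) j (Finset.mem_univ j) hij
  have hb12 : ∀ i j, b1 i ≠ b2 j := by
    intro i j hij
    exact (hb2 j (Finset.mem_univ j)).2 (Finset.mem_image.2 ⟨i, Finset.mem_univ i, hij⟩)
  -- edge sets
  set F2 : Finset (Sym2 V) := Finset.univ.image (fun i => s(x1 i, b1 i)) ∪
    Finset.univ.image (fun i => s(x2 i, b2 i)) with hF2
  have hF2mem : ∀ f, f ∈ F2 ↔ (∃ i, f = s(x1 i, b1 i)) ∨ ∃ i, f = s(x2 i, b2 i) := by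
    intro f
    rw [hF2, Finset.mem_union, Finset.mem_image, Finset.mem_image]
    simp only [Finset.mem_univ, true_and, eq_comm]
  set Ebb : Finset (Sym2 V) := Finset.univ.image (fun i => s(b1 i, b2 i)) with hEbb
  have hEbbmem : ∀ f, f ∈ Ebb ↔ ∃ i, f = s(b1 i, b2 i) := by
    intro f
    rw [hEbb, Finset.mem_image]
    simp only [Finset.mem_univ, true_and, eq_comm]
  have hF2F : F2 ⊆ FX := by
    intro f hf
    rcases (hF2mem f).1 hf with ⟨i, rfl⟩ | ⟨i, rfl⟩
    · exact hb1F i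
    · exact hb2F i
  have hEbbG : Ebb ⊆ G := by
    intro f hf
    obtain ⟨i, rfl⟩ := (hEbbmem f).1 hf
    exact hb2G i
  have hEbbdeg : ∀ v, deg Ebb v ≤ 1 := by
    intro v
    unfold deg
    rw [Finset.card_le_one]
    intro f hf g hg
    rw [Finset.mem_filter] at hf hg
    obtain ⟨i, rfl⟩ := (hEbbmem f).1 hf.1
    obtain ⟨j, rfl⟩ := (hEbbmem g).1 hg.1
    have hij : i = j := by
      rcases Sym2.mem_iff.1 hf.2 with h1 | h1 <;> rcases Sym2.mem_iff.1 hg.2 with h2 | h2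
      · exact hb11 i j (h1.symm.trans h2)
      · exact absurd (h1.symm.trans h2) (hb12 i j)
      · exact absurd (h2.symm.trans h1) (hb12 j i)
      · exact hb22 i j (h1.symm.trans h2)
    rw [hij]
  have hrich := hr Ebb hEbbG hEbbdeg
  -- parity
  have hpar : ∀ x ∈ X, Even (deg (FX \ F2) x) := by
    intro x hx
    have h1 := deg_sdiff hF2F x
    by_cases hxY : x ∈ Y
    · have hodd : Odd (deg FX x) := (Finset.mem_filter.1 hxY).2
      have h2 : deg F2 x = 1 := by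
        unfold deg
        rw [Finset.card_eq_one]
        rcases hxsurj x hxY with ⟨i, hi⟩ | ⟨i, hi⟩
        · refine ⟨s(x1 i, b1 i), ?_⟩
          ext f
          rw [Finset.mem_filter, Finset.mem_singleton, hF2mem]
          constructor
          · rintro ⟨⟨j, rfl⟩ | ⟨j, rfl⟩, h3⟩
            · rcases Sym2.mem_iff.1 h3 with h4 | h4
              · rw [hx11 i j (hi.symm.trans h4)]
              · exact absurd h4 (hB'X x hx _ (hb1B j))
            · rcases Sym2.mem_iff.1 h3 with h4 | h4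
              · exact absurd (hi.symm.trans h4) (hx12 i j)
              · exact absurd h4 (hB'X x hx _ (hb2B j))
          · rintro rfl
            exact ⟨Or.inl ⟨i, rfl⟩, by rw [hi]; exact Sym2.mem_mk_left _ _⟩
        · refine ⟨s(x2 i, b2 i), ?_⟩
          ext f
          rw [Finset.mem_filter, Finset.mem_singleton, hF2mem]
          constructor
          · rintro ⟨⟨j, rfl⟩ | ⟨j, rfl⟩, h3⟩
            · rcases Sym2.mem_iff.1 h3 with h4 | h4
              · exact absurd (h4.symm.trans hi) (hx12 j i)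
              · exact absurd h4 (hB'X x hx _ (hb1B j))
            · rcases Sym2.mem_iff.1 h3 with h4 | h4
              · rw [hx22 i j (hi.symm.trans h4)]
              · exact absurd h4 (hB'X x hx _ (hb2B j))
          · rintro rfl
            exact ⟨Or.inr ⟨i, rfl⟩, by rw [hi]; exact Sym2.mem_mk_left _ _⟩
      rw [← h1, h2] at hodd
      rw [Nat.odd_add] at hodd
      have h3 : ¬ Even 1 := by decide
      by_contra h4
      rw [Nat.not_even_iff_odd] at h4
      exact h3 (hodd.1 h4)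
    · have heq : deg F2 x = 0 := by
        unfold deg
        rw [Finset.card_eq_zero, Finset.filter_eq_empty_iff]
        intro f hf h3
        rcases (hF2mem f).1 hf with ⟨j, rfl⟩ | ⟨j, rfl⟩
        · rcases Sym2.mem_iff.1 h3 with h4 | h4
          · apply hxY
            rw [h4]
            exact (e (Sum.inl j)).2
          · exact absurd h4 (hB'X x hx _ (hb1B j))
        · rcases Sym2.mem_iff.1 h3 with h4 | h4
          · apply hxY
            rw [h4]
            exact (e (Sum.inr j)).2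
          · exact absurd h4 (hB'X x hx _ (hb2B j))
      have hev : Even (deg FX x) := by
        rw [← Nat.not_odd_iff_even]
        exact fun ho => hxY (Finset.mem_filter.2 ⟨hx, ho⟩)
      rw [← h1, heq, add_zero] at hev
      exact hev
  refine ⟨F2, hF2F, hpar, ?_⟩
  -- the requests
  have hSn := e1b_card_le S
  have hn0 : (0 : ℝ) ≤ nV V := Nat.cast_nonneg _
  have hdisj : Disjoint FX (inn E (A0 ∪ X) ∪ inn E B0) := henv.e1b_dis.mono_left hF
  obtain ⟨D, hD1, hD2, hD3, hD4⟩ := greedy_complete (Finset.univ : Finset (Fin m))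
    (fun i => cB (x1 i) (b1 i) (b2 i) (x2 i)) S (G \ Ebb) (h / 2) 1 L hL
    (fun j _ => by rw [unk_cB]; norm_num) (by
      intro i _
      rw [unk_cB]
      have h1 := rich_cB (S := S) (H := G \ Ebb) (hl.mono (Finset.sdiff_subset.trans hGE))
        (hB'X _ (hx1 i).1 _ (hb1B i)) (hB'X _ (hx1 i).1 _ (hb2B i)) (hx12 i i) (hb12 i i)
        (hB'X _ (hx2 i).1 _ (hb1B i)).symm (hB'X _ (hx2 i).1 _ (hb2B i)).symm
      have h2 := hrich.qA (x2 i) (Finset.mem_union_right _ (hx2 i).1) (x1 i)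
        (Finset.mem_union_right _ (hx1 i).1)
      have h3 : (P3 (G \ Ebb) S (x2 i) (x1 i) : ℝ) ≤
          ((compl6 S (G \ Ebb) (cB (x1 i) (b1 i) (b2 i) (x2 i))).card : ℝ) + 6 * S.card := by
        exact_mod_cast h1
      have h4 : h / 2 * (S.card : ℝ) ^ 2 ≤ h / 2 * nV V ^ 2 :=
        mul_le_mul_of_nonneg_left (pow_le_pow_left₀ (Nat.cast_nonneg _) hSn 2) (by linarith)
      have h5 : 6 * (S.card : ℝ) ≤ h / 2 * nV V ^ 2 := by
        have h6 : 12 * nV V ≤ h * nV V * nV V := mul_le_mul_of_nonneg_right hn hn0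
        nlinarith
      nlinarith) (by
      intro p
      rw [Finset.card_le_one]
      intro i hi j hj
      rw [Finset.mem_filter] at hi hj
      rcases isPort_cB hi.2 with h1 | h1 <;> rcases isPort_cB hj.2 with h2 | h2
      · exact hx11 i j (h1.symm.trans h2)
      · exact absurd (h1.symm.trans h2) (hx12 i j)
      · exact absurd (h2.symm.trans h1) (hx12 j i)
      · exact hx22 i j (h1.symm.trans h2)) (by
      rw [Finset.card_univ, Fintype.card_fin]
      refine lt_of_le_of_lt ?_ hnum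
      have h1 : (m : ℝ) ≤ X.card := by exact_mod_cast hmX
      have h2 : 36 * (m : ℝ) / L ≤ 36 * (X.card : ℝ) / L := by gcongr
      linarith) (by
      intro i _ j _ hij
      rw [Finset.disjoint_left]
      intro f hf hg
      rw [fixE_cB] at hf hg
      simp only [Finset.mem_insert, Finset.mem_singleton] at hf hg
      have key : ∃ v ∈ f, v = b1 i ∨ v = b2 i := by
        rcases hf with rfl | rfl | rfl
        · exact ⟨b1 i, Sym2.mem_mk_right _ _, Or.inl rfl⟩
        · exact ⟨b1 i, Sym2.mem_mk_left _ _, Or.inl rfl⟩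
        · exact ⟨b2 i, Sym2.mem_mk_left _ _, Or.inr rfl⟩
      obtain ⟨v, hv, hv'⟩ := key
      have key2 : v = x1 j ∨ v = b1 j ∨ v = b2 j ∨ v = x2 j := by
        rcases hg with rfl | rfl | rfl <;> rw [Sym2.mem_iff] at hv <;> tauto
      rcases hv' with rfl | rfl
      · rcases key2 with h1 | h1 | h1 | h1
        · exact hB'X _ (hx1 j).1 _ (hb1B i) h1.symm
        · exact hij (hb11 i j h1)
        · exact hb12 i j h1
        · exact hB'X _ (hx2 j).1 _ (hb1B i) h1.symm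
      · rcases key2 with h1 | h1 | h1 | h1
        · exact hB'X _ (hx1 j).1 _ (hb2B i) h1.symm
        · exact hb12 j i h1.symm
        · exact hij (hb22 i j h1)
        · exact hB'X _ (hx2 j).1 _ (hb2B i) h1.symm) (by
      intro i _
      rw [Finset.disjoint_left]
      intro f hf hg
      rw [fixE_cB] at hf
      simp only [Finset.mem_insert, Finset.mem_singleton] at hf
      rw [Finset.mem_sdiff] at hg
      rcases hf with rfl | rfl | rfl
      · exact (Finset.disjoint_left.1 hdisj) (hb1F i) (hG hg.1)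
      · exact hg.2 ((hEbbmem _).2 ⟨i, rfl⟩)
      · rw [Sym2.eq_swap] at hg
        exact (Finset.disjoint_left.1 hdisj) (hb2F i) (hG hg.1))
  refine ⟨D, hD1, ?_, ?_, ?_⟩
  · intro f hf
    rcases (hF2mem f).1 hf with ⟨i, rfl⟩ | ⟨i, rfl⟩
    · refine hD2 i (Finset.mem_univ i) ?_
      rw [fixE_cB]
      simp
    · refine hD2 i (Finset.mem_univ i) ?_
      rw [fixE_cB, Sym2.eq_swap]
      simp
  · intro f hf
    rcases Finset.mem_union.1 (hD3 hf) with h1 | h1
    · exact Finset.mem_union_right _ (Finset.mem_sdiff.1 h1).1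
    · obtain ⟨i, _, hi⟩ := Finset.mem_biUnion.1 h1
      rw [fixE_cB] at hi
      simp only [Finset.mem_insert, Finset.mem_singleton] at hi
      rcases hi with rfl | rfl | rfl
      · exact Finset.mem_union_left _ ((hF2mem _).2 (Or.inl ⟨i, rfl⟩))
      · exact Finset.mem_union_right _ (hb2G i)
      · exact Finset.mem_union_left _ ((hF2mem _).2 (Or.inr ⟨i, Sym2.eq_swap⟩))
  · intro v
    have h1 : D ∩ G ⊆ (D ∩ (G \ Ebb)) ∪ Ebb := by
      intro f hf
      rw [Finset.mem_inter] at hf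
      by_cases h2 : f ∈ Ebb
      · exact Finset.mem_union_right _ h2
      · exact Finset.mem_union_left _ (Finset.mem_inter.2 ⟨hf.1, Finset.mem_sdiff.2 ⟨hf.2, h2⟩⟩)
    refine (deg_mono h1 v).trans ((deg_union_le _ _ v).trans ?_)
    have h2 := hD4 v
    have h3 := hEbbdeg v
    omega

end e1bOdd

end H15C6


namespace H15C6

section e1bSingle

variable {V : Type} [Fintype V] [DecidableEq V]

theorem e1b_single {E F H : Finset (Sym2 V)} {ε τ : ℝ} {A0 B0 X A' B' : Finset V}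
    (hl : Loopless E) (henv : Env1 E ε τ A0 B0 X A' B')
    (hH : H ⊆ inn E (A0 ∪ X) ∪ inn E B0) {xs a b : V} (hxs : xs ∈ X) (ha : a ∈ A0) (hb : b ∈ B0)
    (hc : (∃ b' ∈ B', s(xs, b') ∈ F ∧ b' ≠ b ∧ 0 < cn H (A' ∪ B') b b' ∧
        0 < cn H (A' ∪ B') xs a) ∨
      (∃ b' ∈ B', s(xs, b') ∈ F ∧ s(b', b) ∈ H ∧ (A' ∪ B').card < P3 H (A' ∪ B') xs a)) :
    ∃ b' ∈ B', s(xs, b') ∈ F ∧ ∃ D : Finset (Sym2 V), Dec D ∧
      ({s(a, b), s(xs, b')} : Finset (Sym2 V)) ⊆ D ∧
      D ⊆ ({s(a, b), s(xs, b')} : Finset (Sym2 V)) ∪ H ∧ ∀ v, deg (D ∩ H) v ≤ 2 := by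
  have hHE : H ⊆ E := fun e he => by
    rcases Finset.mem_union.1 (hH he) with h | h
    · exact (Finset.mem_inter.1 h).1
    · exact (Finset.mem_inter.1 h).1
  have hlH : Loopless H := hl.mono hHE
  have hAB : ∀ u v, u ∈ A0 ∪ X → v ∈ B0 → u ≠ v := by
    rintro u v hu hv rfl
    exact henv.e1b_disj hu hv
  have haA : a ∈ A0 ∪ X := Finset.mem_union_left _ ha
  have hxA : xs ∈ A0 ∪ X := Finset.mem_union_right _ hxs
  have hax : a ≠ xs := by
    rintro rfl
    exact (Finset.disjoint_left.1 henv.dAX) ha hxs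
  have sideA : ∀ u v, u ∈ A0 ∪ X → s(u, v) ∈ H → v ∈ A0 ∪ X := by
    intro u v hu huv
    rcases (e1b_inner.1 (hH huv)).2 with ⟨h1, h2⟩ | ⟨h1, h2⟩
    · exact h2
    · exact absurd rfl (hAB u u hu h1)
  have sideB : ∀ u v, u ∈ B0 → s(u, v) ∈ H → v ∈ B0 := by
    intro u v hu huv
    rcases (e1b_inner.1 (hH huv)).2 with ⟨h1, h2⟩ | ⟨h1, h2⟩
    · exact absurd rfl (hAB u u h1 hu)
    · exact h2
  rcases hc with ⟨b', hb', hxF, hbb, h1, h2⟩ | ⟨b', hb', hxF, hbH, h1⟩
  · have hb'B : b' ∈ B0 := henv.subB hb'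
    unfold cn at h1 h2
    rw [Finset.card_pos] at h1 h2
    obtain ⟨c, hc⟩ := h1
    obtain ⟨c', hc'⟩ := h2
    rw [Finset.mem_filter] at hc hc'
    obtain ⟨_, hc1, hc2⟩ := hc
    obtain ⟨_, hc1', hc2'⟩ := hc'
    have hcB : c ∈ B0 := sideB b c hb hc1
    have hc'A : c' ∈ A0 ∪ X := sideA xs c' hxA hc1'
    have hinj : Function.Injective ![a, b, c, b', xs, c'] :=
      e1b_inj (hAB a b haA hb) (hAB a c haA hcB) (hAB a b' haA hb'B) hax (hlH.ne hc2').symm
        (hlH.ne hc1) hbb.symm (hAB xs b hxA hb).symm (hAB c' b hc'A hb).symm (hlH.ne hc2)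
        (hAB xs c hxA hcB).symm (hAB c' c hc'A hcB).symm (hAB xs b' hxA hb'B).symm
        (hAB c' b' hc'A hb'B).symm (hlH.ne hc1')
    refine ⟨b', hb', hxF, _, e1b_one hinj ?_ ?_⟩
    · intro f hf
      rw [Finset.mem_insert, Finset.mem_singleton] at hf
      rw [e1b_mem_cyc]
      rcases hf with rfl | rfl
      · exact Or.inl rfl
      · exact Or.inr (Or.inr (Or.inr (Or.inl Sym2.eq_swap)))
    · intro f hf
      rw [e1b_mem_cyc] at hf
      rw [Finset.mem_union, Finset.mem_insert, Finset.mem_singleton]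
      rcases hf with rfl | rfl | rfl | rfl | rfl | rfl
      · exact Or.inl (Or.inl rfl)
      · exact Or.inr hc1
      · exact Or.inr hc2
      · exact Or.inl (Or.inr Sym2.eq_swap)
      · exact Or.inr hc1'
      · exact Or.inr hc2'
  · have hb'B : b' ∈ B0 := henv.subB hb'
    obtain ⟨c, c', hcS, hcS', hc1, hc2, hc3, hca⟩ : ∃ c c', c ∈ A' ∪ B' ∧ c' ∈ A' ∪ B' ∧
        s(xs, c) ∈ H ∧ s(c, c') ∈ H ∧ s(c', a) ∈ H ∧ c ≠ a := by
      by_contra hcon
      push Not at hcon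
      have h2 : P3 H (A' ∪ B') xs a ≤ ((A' ∪ B').image fun c' => (a, c')).card := by
        unfold P3
        refine Finset.card_le_card ?_
        intro t ht
        rw [Finset.mem_filter, Finset.mem_product] at ht
        have h3 : t.1 = a := hcon t.1 t.2 ht.1.1 ht.1.2 ht.2.1 ht.2.2.1 ht.2.2.2
        rw [Finset.mem_image]
        exact ⟨t.2, ht.1.2, Prod.ext h3.symm rfl⟩
      have h3 : ((A' ∪ B').image fun c' => (a, c')).card ≤ (A' ∪ B').card :=
        Finset.card_image_le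
      omega
    have hcA : c ∈ A0 ∪ X := sideA xs c hxA hc1
    have hc'A : c' ∈ A0 ∪ X := sideA c c' hcA hc2
    have hxc' : xs ≠ c' := by
      rintro rfl
      rcases Finset.mem_union.1 hcS' with h | h
      · exact (Finset.disjoint_left.1 henv.dAX) (henv.subA h) hxs
      · exact (Finset.disjoint_left.1 henv.dBX) (henv.subB h) hxs
    have hinj : Function.Injective ![a, b, b', xs, c, c'] :=
      e1b_inj (hAB a b haA hb) (hAB a b' haA hb'B) hax hca.symm (hlH.ne hc3).symm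
        (hlH.ne hbH).symm (hAB xs b hxA hb).symm (hAB c b hcA hb).symm (hAB c' b hc'A hb).symm
        (hAB xs b' hxA hb'B).symm (hAB c b' hcA hb'B).symm (hAB c' b' hc'A hb'B).symm
        (hlH.ne hc1) hxc' (hlH.ne hc2)
    refine ⟨b', hb', hxF, _, e1b_one hinj ?_ ?_⟩
    · intro f hf
      rw [Finset.mem_insert, Finset.mem_singleton] at hf
      rw [e1b_mem_cyc]
      rcases hf with rfl | rfl
      · exact Or.inl rfl
      · exact Or.inr (Or.inr (Or.inl Sym2.eq_swap))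
    · intro f hf
      rw [e1b_mem_cyc] at hf
      rw [Finset.mem_union, Finset.mem_insert, Finset.mem_singleton]
      rcases hf with rfl | rfl | rfl | rfl | rfl | rfl
      · exact Or.inl (Or.inl rfl)
      · right
        rw [Sym2.eq_swap]
        exact hbH
      · exact Or.inl (Or.inr Sym2.eq_swap)
      · exact Or.inr hc1
      · exact Or.inr hc2
      · exact Or.inr hc3

end e1bSingle

section e1bMain

variable {V : Type} [Fintype V] [DecidableEq V]

theorem e1b_main {E F H : Finset (Sym2 V)} {ε τ h : ℝ} {A0 B0 X A' B' : Finset V} [Nonempty V]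
    (hl : Loopless E) (henv : Env1 E ε τ A0 B0 X A' B')
    (hF : F ⊆ crs E (A0 ∪ X) B0) (heven : Even F.card)
    (hH : H ⊆ inn E (A0 ∪ X) ∪ inn E B0) {L m0 m1 : ℕ} (hL : 1 ≤ L)
    (hh : 0 ≤ h) (hh1 : h ≤ 1 / 25)
    (hr : ∀ R ⊆ H, (∀ v, deg R v ≤ 10 * L + 5) → E1bRich (H \ R) A0 B0 X (A' ∪ B') h)
    (hm0 : ∀ x ∈ X, m0 + 1 ≤ dg F B' x)
    (hm1 : ∀ b ∈ B', (B'.filter (fun y => s(b, y) ∉ H)).card + 2 ≤ m1)
    (hm : 2 * X.card + m1 < m0) (hXL : X.card ≤ L) (hLF : 2 * F.card ≤ L * L)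
    (hsingle : ∀ xs ∈ X, ∀ a ∈ A0, ∀ b ∈ B0,
      (∃ b' ∈ B', s(xs, b') ∈ F ∧ b' ≠ b ∧ 0 < cn H (A' ∪ B') b b' ∧
        0 < cn H (A' ∪ B') xs a) ∨
      (∃ b' ∈ B', s(xs, b') ∈ F ∧ s(b', b) ∈ H ∧ (A' ∪ B').card < P3 H (A' ∪ B') xs a))
    (hn : 12 ≤ h * nV V)
    (hnum1 : 18 * (F.card : ℝ) / L + 12 * L + 12 * L + 8 < h * (A' ∪ B').card)
    (hnum2 : 36 * (X.card : ℝ) / L + 12 * (1 : ℕ) + 12 * L < h / 2 * (A' ∪ B').card)
    (hnum3 : 18 * nV V / L + 12 * (L + 1 : ℕ) + 12 * L + 8 < h * (A' ∪ B').card) :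
    e1b_Cov H F (14 * L + 7) := by
  classical
  have hFE : F ⊆ E := fun e he => (Finset.mem_sdiff.1 (Finset.mem_sdiff.1 (hF he)).1).1
  have hlF : Loopless F := hl.mono hFE
  have hFH : Disjoint F H := henv.e1b_dis.mono hF hH
  set FX : Finset (Sym2 V) := F.filter (fun e => ∃ x ∈ X, x ∈ e) with hFX
  set F0 : Finset (Sym2 V) := F.filter (fun e => ¬ ∃ x ∈ X, x ∈ e) with hF0
  have hFXF : FX ⊆ F := Finset.filter_subset _ _
  have hF0F : F0 ⊆ F := Finset.filter_subset _ _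
  have hsplit : FX.card + F0.card = F.card := Finset.card_filter_add_card_filter_not _
  have hdisX0 : Disjoint FX F0 := Finset.disjoint_filter_filter_not _ _ _
  have hFXX : ∀ e ∈ FX, ∃ x ∈ X, x ∈ e := fun e he => (Finset.mem_filter.1 he).2
  have hF0X : ∀ e ∈ F0, ∀ x ∈ X, x ∉ e := fun e he x hx hxe => (Finset.mem_filter.1 he).2 ⟨x, hx, hxe⟩
  -- the vertices of large degree
  set Bg : Finset V := Finset.univ.filter (fun v => L < deg F0 v) with hBg
  have hBgcard : Bg.card ≤ L := by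
    have h1 : ∑ v ∈ Bg, L ≤ ∑ v ∈ Bg, deg F0 v :=
      Finset.sum_le_sum fun v hv => (Finset.mem_filter.1 hv).2.le
    have h2 : ∑ v ∈ Bg, deg F0 v ≤ ∑ v, deg F0 v :=
      Finset.sum_le_sum_of_subset (Finset.subset_univ _)
    have h3 : ∑ v, deg F0 v = 2 * F0.card :=
      sum_deg (fun e _ => by simp) (hlF.mono hF0F)
    have h4 : F0.card ≤ F.card := Finset.card_le_card hF0F
    rw [Finset.sum_const, smul_eq_mul] at h1
    have h5 : Bg.card * L ≤ L * L := by omega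
    exact Nat.le_of_mul_le_mul_right h5 (by omega)
  obtain ⟨ctr0, hc1, -, -, hc4⟩ := assign F0 (hlF.mono hF0F) ∅ Bg (Finset.empty_subset _) L
    (by
      intro v hv
      by_contra h1
      exact hv (Finset.mem_filter.2 ⟨Finset.mem_univ v, not_le.1 h1⟩)) hBgcard
  obtain ⟨J, M2, hM1, -, -, -, hM5, hM6, hM7⟩ := cherry_pairing F0 (hlF.mono hF0F) ctr0 hc1
  have hM2card : (M2.card : ℝ) ≤ nV V := by
    have h1 : M2.card ≤ (Finset.univ : Finset V).card :=
      Finset.card_le_card_of_injOn ctr0 (fun e _ => Finset.mem_coe.2 (Finset.mem_univ _)) (by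
        intro e he e' he' hee
        exact hM6 e (Finset.mem_coe.1 he) e' (Finset.mem_coe.1 he') hee)
    rw [Finset.card_univ] at h1
    unfold nV
    exact_mod_cast h1
  have hM2one : ∀ v, (M2.filter (fun e => ctr0 e = v)).card ≤ 1 := by
    intro v
    rw [Finset.card_le_one]
    intro e he e' he'
    rw [Finset.mem_filter] at he he'
    exact hM6 e he.1 e' he'.1 (he.2.trans he'.2.symm)
  have hM2deg : ∀ v, deg M2 v ≤ L + 1 := by
    intro v
    have h1 : M2.filter (fun e => v ∈ e) ⊆ F0.filter (fun e => v ∈ e ∧ ctr0 e ≠ v) ∪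
        M2.filter (fun e => ctr0 e = v) := by
      intro e he
      rw [Finset.mem_filter] at he
      by_cases h2 : ctr0 e = v
      · exact Finset.mem_union_right _ (Finset.mem_filter.2 ⟨he.1, h2⟩)
      · exact Finset.mem_union_left _ (Finset.mem_filter.2 ⟨hM1 he.1, he.2, h2⟩)
    exact (Finset.card_le_card h1).trans ((Finset.card_union_le _ _).trans
      (Nat.add_le_add (hc4 v) (hM2one v)))
  -- first step
  obtain ⟨F1, D1, hF1F, hD1, hF1D1, hD1F, hD1deg, hF1M, hE1, hE2, hF1x⟩ :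
      ∃ F1 D1 : Finset (Sym2 V), F1 ⊆ F ∧ Dec D1 ∧ F1 ⊆ D1 ∧ D1 ⊆ F1 ∪ H ∧
        (∀ v, deg (D1 ∩ H) v ≤ 2) ∧ (∀ f ∈ F1, f ∈ F0 → f ∈ M2) ∧ Even (M2 \ F1).card ∧
        Even (FX \ F1).card ∧ ∀ x ∈ X, dg F1 B' x ≤ 1 := by
    by_cases hpar : Even M2.card
    · refine ⟨∅, ∅, by simp, Dec.empty, by simp, by simp, by simp, by simp, by simpa using hpar,
        ?_, by simp [dg]⟩
      rw [Finset.sdiff_empty]
      have h1 : Even (2 * J.card + M2.card + FX.card) := by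
        have : 2 * J.card + M2.card + FX.card = F.card := by omega
        rw [this]
        exact heven
      rw [Nat.even_add] at h1
      exact h1.1 ((even_two_mul _).add hpar)
    · have hodd : Odd M2.card := Nat.not_even_iff_odd.1 hpar
      have hFXodd : Odd FX.card := by
        rw [← Nat.not_even_iff_odd]
        intro h1
        apply hpar
        have h2 : Even (FX.card + 2 * J.card + M2.card) := by
          have : FX.card + 2 * J.card + M2.card = F.card := by omega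
          rw [this]
          exact heven
        rw [Nat.even_add] at h2
        exact h2.1 (h1.add (even_two_mul _))
      obtain ⟨ms, hms⟩ : M2.Nonempty := by
        rw [← Finset.card_pos]
        exact hodd.pos
      obtain ⟨fx, hfx⟩ : FX.Nonempty := by
        rw [← Finset.card_pos]
        exact hFXodd.pos
      obtain ⟨xs, hxs, -⟩ := hFXX fx hfx
      obtain ⟨a, ha, b, hb, rfl, -⟩ := e1b_rep henv (hF (hF0F (hM1 hms)))
      have ha0 : a ∈ A0 := by
        rcases Finset.mem_union.1 ha with h1 | h1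
        · exact h1
        · exact absurd (Sym2.mem_mk_left a b) (hF0X _ (hM1 hms) a h1)
      obtain ⟨b', hb', hxF, D1, hD1, hD2, hD3, hD4⟩ :=
        e1b_single hl henv hH hxs ha0 hb (hsingle xs hxs a ha0 b hb)
      have hxFX : s(xs, b') ∈ FX := Finset.mem_filter.2 ⟨hxF, xs, hxs, Sym2.mem_mk_left _ _⟩
      have hnot1 : s(xs, b') ∉ M2 := fun h1 =>
        (Finset.disjoint_left.1 hdisX0) hxFX (hM1 h1)
      have hnot2 : s(a, b) ∉ FX := fun h1 =>
        (Finset.disjoint_left.1 hdisX0) h1 (hM1 hms)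
      refine ⟨{s(a, b), s(xs, b')}, D1, ?_, hD1, hD2, hD3, hD4, ?_, ?_, ?_, ?_⟩
      · intro f hf
        rw [Finset.mem_insert, Finset.mem_singleton] at hf
        rcases hf with rfl | rfl
        · exact hF0F (hM1 hms)
        · exact hxF
      · intro f hf hf0
        rw [Finset.mem_insert, Finset.mem_singleton] at hf
        rcases hf with rfl | rfl
        · exact hms
        · exact absurd hf0 (fun h1 => (Finset.disjoint_left.1 hdisX0) hxFX h1)
      · have h1 : M2 \ {s(a, b), s(xs, b')} = M2.erase s(a, b) := by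
          ext f
          rw [Finset.mem_sdiff, Finset.mem_insert, Finset.mem_singleton, Finset.mem_erase]
          constructor
          · rintro ⟨h1, h2⟩
            exact ⟨fun h3 => h2 (Or.inl h3), h1⟩
          · rintro ⟨h1, h2⟩
            refine ⟨h2, ?_⟩
            rintro (h3 | rfl)
            · exact h1 h3
            · exact hnot1 h2
        rw [h1, Finset.card_erase_of_mem hms]
        obtain ⟨k, hk⟩ := hodd
        exact ⟨k, by omega⟩
      · have h1 : FX \ {s(a, b), s(xs, b')} = FX.erase s(xs, b') := by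
          ext f
          rw [Finset.mem_sdiff, Finset.mem_insert, Finset.mem_singleton, Finset.mem_erase]
          constructor
          · rintro ⟨h1, h2⟩
            exact ⟨fun h3 => h2 (Or.inr h3), h1⟩
          · rintro ⟨h1, h2⟩
            refine ⟨h2, ?_⟩
            rintro (rfl | h3)
            · exact hnot2 h2
            · exact h1 h3
        rw [h1, Finset.card_erase_of_mem hxFX]
        obtain ⟨k, hk⟩ := hFXodd
        exact ⟨k, by omega⟩
      · intro x hx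
        unfold dg
        rw [Finset.card_le_one]
        intro y hy z hz
        rw [Finset.mem_filter, Finset.mem_insert, Finset.mem_singleton] at hy hz
        have key : ∀ y ∈ B', (s(x, y) = s(a, b) ∨ s(x, y) = s(xs, b')) → y = b' := by
          intro y hy h1
          rcases h1 with h1 | h1
          · exfalso
            have h2 : x ∈ s(a, b) := by
              rw [← h1]
              exact Sym2.mem_mk_left _ _
            exact hF0X _ (hM1 hms) x hx h2
          · rcases Sym2.eq_iff.1 h1 with ⟨h2, h3⟩ | ⟨h2, h3⟩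
            · exact h3
            · exfalso
              rw [h3] at hy
              exact (Finset.disjoint_left.1 henv.dBX) (henv.subB hy) hxs
        rw [key y hy.1 hy.2, key z hz.1 hz.2]
  -- second step
  have hFX' : FX \ F1 ⊆ crs E (A0 ∪ X) B0 := fun f hf =>
    hF (hFXF (Finset.mem_sdiff.1 hf).1)
  obtain ⟨F2, hF2, hpar2, D2, hD2, hF2D2, hD2F, hD2deg⟩ := e1b_odd (S := A' ∪ B') (G := H \ D1)
    (FX := FX \ F1) (m0 := m0) (m1 := m1) (h := h) (L := L) hl henv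
    (Finset.sdiff_subset.trans hH) hFX' (fun f hf => hFXX f (Finset.mem_sdiff.1 hf).1) hE2 (by
      intro x hx
      have h1 := hm0 x hx
      have h2 : dg F B' x ≤ dg (FX \ F1) B' x + dg F1 B' x := by
        unfold dg
        refine le_trans (Finset.card_le_card ?_) (Finset.card_union_le _ _)
        intro y hy
        rw [Finset.mem_filter] at hy
        rw [Finset.mem_union, Finset.mem_filter, Finset.mem_filter, Finset.mem_sdiff]
        by_cases h3 : s(x, y) ∈ F1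
        · exact Or.inr ⟨hy.1, h3⟩
        · exact Or.inl ⟨hy.1, Finset.mem_filter.2 ⟨hy.2, x, hx, Sym2.mem_mk_left _ _⟩, h3⟩
      have h3 := hF1x x hx
      omega) (by
      intro b hb
      have h1 := hm1 b hb
      have h2 : (B'.filter (fun y => s(b, y) ∉ H \ D1)).card ≤
          (B'.filter (fun y => s(b, y) ∉ H)).card + dg (D1 ∩ H) B' b := by
        unfold dg
        refine le_trans (Finset.card_le_card ?_) (Finset.card_union_le _ _)
        intro y hy
        rw [Finset.mem_filter, Finset.mem_sdiff] at hy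
        rw [Finset.mem_union, Finset.mem_filter, Finset.mem_filter, Finset.mem_inter]
        by_cases h3 : s(b, y) ∈ H
        · refine Or.inr ⟨hy.1, ?_, h3⟩
          by_contra h4
          exact hy.2 ⟨h3, h4⟩
        · exact Or.inl ⟨hy.1, h3⟩
      have h3 := (dg_le_deg (D1 ∩ H) B' b).trans (hD1deg b)
      omega) hm hh (by
      intro R hR hRdeg
      have h1 : (H \ D1) \ R = H \ ((D1 ∩ H) ∪ R) := by
        ext f
        simp only [Finset.mem_sdiff, Finset.mem_union, Finset.mem_inter]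
        tauto
      rw [h1]
      refine hr _ ?_ ?_
      · intro f hf
        rcases Finset.mem_union.1 hf with h2 | h2
        · exact (Finset.mem_inter.1 h2).2
        · exact (Finset.mem_sdiff.1 (hR h2)).1
      · intro v
        have h2 := deg_union_le (D1 ∩ H) R v
        have h3 := hD1deg v
        have h4 := hRdeg v
        omega) hL hn hnum2
  -- the remaining steps
  set G3 : Finset (Sym2 V) := (H \ D1) \ D2 with hG3
  have hG3H : G3 ⊆ H := Finset.sdiff_subset.trans Finset.sdiff_subset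
  have hrich3 : ∀ R ⊆ G3, (∀ v, deg R v ≤ 8 * L) →
      E1bRich (G3 \ R) A0 B0 X (A' ∪ B') h := by
    intro R hR hRdeg
    have h1 : G3 \ R = H \ (((D1 ∩ H) ∪ (D2 ∩ (H \ D1))) ∪ R) := by
      ext f
      simp only [hG3, Finset.mem_sdiff, Finset.mem_union, Finset.mem_inter]
      tauto
    rw [h1]
    refine hr _ ?_ ?_
    · intro f hf
      rcases Finset.mem_union.1 hf with h2 | h2
      · rcases Finset.mem_union.1 h2 with h3 | h3
        · exact (Finset.mem_inter.1 h3).2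
        · exact (Finset.mem_sdiff.1 (Finset.mem_inter.1 h3).2).1
      · exact hG3H (hR h2)
    · intro v
      have h2 := deg_union_le ((D1 ∩ H) ∪ (D2 ∩ (H \ D1))) R v
      have h3 := deg_union_le (D1 ∩ H) (D2 ∩ (H \ D1)) v
      have h4 := hD1deg v
      have h5 := hRdeg v
      have h6 := hD2deg v
      omega
  set F3 : Finset (Sym2 V) := (FX \ F1) \ F2 with hF3
  set F4 : Finset (Sym2 V) := F0 \ M2 with hF4
  set F5 : Finset (Sym2 V) := M2 \ F1 with hF5
  have hF3FX : F3 ⊆ FX := Finset.sdiff_subset.trans Finset.sdiff_subset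
  have hF4F0 : F4 ⊆ F0 := Finset.sdiff_subset
  have hF5F0 : F5 ⊆ F0 := Finset.sdiff_subset.trans hM1
  have hnumF : ∀ F' ⊆ F, 18 * (F'.card : ℝ) / L + 12 * L + 12 * L + 8 < h * (A' ∪ B').card := by
    intro F' hF'
    have h1 : (F'.card : ℝ) ≤ F.card := by exact_mod_cast Finset.card_le_card hF'
    have h2 : 18 * (F'.card : ℝ) / L ≤ 18 * (F.card : ℝ) / L := by gcongr
    linarith
  have A3 : e1b_All G3 F3 (4 * L) 0 := by
    intro R hR hRdeg
    obtain ⟨ctr, hct1, hct2, -, hct4⟩ := assign F3 (hlF.mono (hF3FX.trans hFXF)) X X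
      (Finset.Subset.refl _) L (by
        intro v hv
        have h1 : F3.filter (fun e => v ∈ e) ⊆ X.image (fun x => s(x, v)) := by
          intro e he
          rw [Finset.mem_filter] at he
          obtain ⟨x, hx, hxe⟩ := hFXX e (hF3FX he.1)
          rw [Finset.mem_image]
          refine ⟨x, hx, ?_⟩
          have hxv : x ≠ v := by
            rintro rfl
            exact hv hx
          exact ((Sym2.mem_and_mem_iff hxv).1 ⟨hxe, he.2⟩).symm
        exact (Finset.card_le_card h1).trans (Finset.card_image_le.trans hXL)) hXL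
    refine e1b_cherry (A' ∪ B') hl henv ((Finset.sdiff_subset.trans hG3H).trans hH)
      ((hF3FX.trans hFXF).trans hF) (hrich3 R hR fun v => (hRdeg v).trans (Nat.zero_le _)) hh ctr hL
      hct1 ?_ hct4 (hnumF _ (hF3FX.trans hFXF))
    intro v
    by_cases hv : v ∈ X
    · have h1 : F3.filter (fun f => ctr f = v) = F3.filter (fun f => v ∈ f) := by
        ext f
        rw [Finset.mem_filter, Finset.mem_filter]
        constructor
        · rintro ⟨h1, rfl⟩
          exact ⟨h1, hct1 f h1⟩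
        · rintro ⟨h1, h2⟩
          refine ⟨h1, ?_⟩
          have h3 : ctr f ∈ X := hct2 f h1 ⟨v, h2, hv⟩
          have h4 : ctr f ∈ f := hct1 f h1
          obtain ⟨a, ha, b, hb, rfl, -⟩ := e1b_rep henv (hF (hFXF (hF3FX h1)))
          have hXb : ∀ y ∈ X, y ≠ b := by
            rintro y hy rfl
            exact henv.e1b_disj (Finset.mem_union_right _ hy) hb
          rw [(Sym2.mem_iff.1 h4).resolve_right (hXb _ h3),
            (Sym2.mem_iff.1 h2).resolve_right (hXb _ hv)]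
      rw [h1]
      exact hpar2 v hv
    · have h1 : F3.filter (fun f => ctr f = v) = ∅ := by
        rw [Finset.filter_eq_empty_iff]
        rintro f hf rfl
        obtain ⟨x, hx, hxf⟩ := hFXX f (hF3FX hf)
        exact hv (hct2 f hf ⟨x, hxf, hx⟩)
      rw [h1]
      simp
  have A4 : e1b_All G3 F4 (4 * L) (0 + 4 * L) := by
    intro R hR hRdeg
    refine e1b_cherry (A' ∪ B') hl henv ((Finset.sdiff_subset.trans hG3H).trans hH)
      ((hF4F0.trans hF0F).trans hF) (hrich3 R hR fun v => (hRdeg v).trans (by omega)) hh ctr0 hL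
      (fun f hf => hc1 f (hF4F0 hf)) ?_ ?_ (hnumF _ (hF4F0.trans hF0F))
    · intro v
      have h1 : (F4.filter (fun f => ctr0 f = v)).card + (M2.filter (fun f => ctr0 f = v)).card =
          (F0.filter (fun f => ctr0 f = v)).card := by
        rw [← Finset.card_union_of_disjoint]
        · congr 1
          ext f
          simp only [hF4, Finset.mem_union, Finset.mem_filter, Finset.mem_sdiff]
          constructor
          · rintro (⟨⟨h1, _⟩, h2⟩ | ⟨h1, h2⟩)
            · exact ⟨h1, h2⟩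
            · exact ⟨hM1 h1, h2⟩
          · rintro ⟨h1, h2⟩
            by_cases h3 : f ∈ M2
            · exact Or.inr ⟨h3, h2⟩
            · exact Or.inl ⟨⟨h1, h3⟩, h2⟩
        · rw [Finset.disjoint_left]
          intro f hf hg
          rw [Finset.mem_filter] at hf hg
          exact (Finset.mem_sdiff.1 hf.1).2 hg.1
      by_cases hodd : Odd (F0.filter (fun f => ctr0 f = v)).card
      · obtain ⟨e, he, hev⟩ := (hM7 v).2 hodd
        have h2 : (M2.filter (fun f => ctr0 f = v)).card = 1 := by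
          refine le_antisymm (hM2one v) ?_
          rw [Nat.one_le_iff_ne_zero, ← Nat.pos_iff_ne_zero, Finset.card_pos]
          exact ⟨e, Finset.mem_filter.2 ⟨he, hev⟩⟩
        rw [h2] at h1
        obtain ⟨k, hk⟩ := hodd
        exact ⟨k, by omega⟩
      · have h2 : (M2.filter (fun f => ctr0 f = v)).card = 0 := by
          rw [Finset.card_eq_zero, Finset.filter_eq_empty_iff]
          intro f hf hfv
          exact hodd ((hM7 v).1 ⟨f, hf, hfv⟩)
        rw [h2, add_zero] at h1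
        rw [h1]
        exact Nat.not_odd_iff_even.1 hodd
    · intro p
      refine le_trans (Finset.card_le_card ?_) (hc4 p)
      exact Finset.filter_subset_filter _ hF4F0
  have A5 : e1b_All G3 F5 (4 * L + 2) (0 + 4 * L + 4 * L) := by
    intro R hR hRdeg
    refine e1b_pairs (A' ∪ B') hl henv ((Finset.sdiff_subset.trans hG3H).trans hH)
      ((hF5F0.trans hF0F).trans hF) (fun e he => hF0X e (hF5F0 he))
      (hrich3 R hR fun v => (hRdeg v).trans (by omega)) hh hh1 hL hE1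
      (fun p => (deg_mono Finset.sdiff_subset p).trans (hM2deg p)) ?_
    have h1 : (F5.card : ℝ) ≤ nV V := by
      have h2 : (F5.card : ℝ) ≤ M2.card := by
        exact_mod_cast Finset.card_le_card (Finset.sdiff_subset : F5 ⊆ M2)
      exact h2.trans hM2card
    have h2 : 18 * (F5.card : ℝ) / L ≤ 18 * nV V / L := by gcongr
    linarith
  -- assembly
  have dH : ∀ F' ⊆ F, ∀ G ⊆ H, Disjoint F' G := fun F' h1 G h2 => hFH.mono h1 h2
  have d45 : Disjoint F4 F5 := by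
    rw [Finset.disjoint_left]
    intro f hf hg
    exact (Finset.mem_sdiff.1 hf).2 (Finset.mem_sdiff.1 hg).1
  have d345 : Disjoint F3 (F4 ∪ F5) :=
    hdisX0.mono hF3FX (Finset.union_subset hF4F0 hF5F0)
  have A45 := A4.union d45 (dH F5 (hF5F0.trans hF0F) G3 hG3H) A5
  have A345 := A3.union d345 (dH (F4 ∪ F5)
    ((Finset.union_subset hF4F0 hF5F0).trans hF0F) G3 hG3H) A45
  have hF2FX : F2 ⊆ FX := hF2.trans Finset.sdiff_subset
  have h345F : F3 ∪ (F4 ∪ F5) ⊆ F :=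
    Finset.union_subset (hF3FX.trans hFXF) ((Finset.union_subset hF4F0 hF5F0).trans hF0F)
  have d2 : Disjoint F2 (F3 ∪ (F4 ∪ F5)) := by
    rw [Finset.disjoint_union_right]
    refine ⟨?_, hdisX0.mono hF2FX (Finset.union_subset hF4F0 hF5F0)⟩
    rw [Finset.disjoint_left]
    intro f hf hg
    exact (Finset.mem_sdiff.1 hg).2 hf
  have B2 := e1b_seq d2 (dH _ h345F (H \ D1) Finset.sdiff_subset) hD2 hF2D2 hD2F hD2deg A345.cov
  have d1 : Disjoint F1 (F2 ∪ (F3 ∪ (F4 ∪ F5))) := by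
    rw [Finset.disjoint_left]
    intro f hf hg
    rcases Finset.mem_union.1 hg with h1 | h1
    · exact (Finset.mem_sdiff.1 (hF2 h1)).2 hf
    · rcases Finset.mem_union.1 h1 with h2 | h2
      · exact (Finset.mem_sdiff.1 (Finset.mem_sdiff.1 h2).1).2 hf
      · rcases Finset.mem_union.1 h2 with h3 | h3
        · exact (Finset.mem_sdiff.1 h3).2 (hF1M f hf (Finset.mem_sdiff.1 h3).1)
        · exact (Finset.mem_sdiff.1 h3).2 hf
  have B1 := e1b_seq d1 (dH _ (Finset.union_subset (hF2FX.trans hFXF) h345F) H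
    (Finset.Subset.refl _)) hD1 hF1D1 hD1F hD1deg B2
  have hFeq : F1 ∪ (F2 ∪ (F3 ∪ (F4 ∪ F5))) = F := by
    refine Finset.Subset.antisymm (Finset.union_subset hF1F
      (Finset.union_subset (hF2FX.trans hFXF) h345F)) ?_
    intro f hf
    by_cases h1 : f ∈ F1
    · exact Finset.mem_union_left _ h1
    · refine Finset.mem_union_right _ ?_
      by_cases h2 : ∃ x ∈ X, x ∈ f
      · have h3 : f ∈ FX \ F1 := Finset.mem_sdiff.2 ⟨Finset.mem_filter.2 ⟨hf, h2⟩, h1⟩
        by_cases h4 : f ∈ F2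
        · exact Finset.mem_union_left _ h4
        · exact Finset.mem_union_right _ (Finset.mem_union_left _ (Finset.mem_sdiff.2 ⟨h3, h4⟩))
      · have h3 : f ∈ F0 := Finset.mem_filter.2 ⟨hf, h2⟩
        refine Finset.mem_union_right _ (Finset.mem_union_right _ ?_)
        by_cases h4 : f ∈ M2
        · exact Finset.mem_union_right _ (Finset.mem_sdiff.2 ⟨h4, h1⟩)
        · exact Finset.mem_union_left _ (Finset.mem_sdiff.2 ⟨h3, h4⟩)
  rw [hFeq] at B1
  obtain ⟨D, h1, h2, h3, h4⟩ := B1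
  exact ⟨D, h1, h2, h3, fun v => (h4 v).trans (by omega)⟩

end e1bMain

end H15C6


namespace H15C6

section e1bFinal

variable {V : Type} [Fintype V] [DecidableEq V]

theorem e1b_crossX {E F : Finset (Sym2 V)} {ε τ θ : ℝ} {A0 B0 X A' B' : Finset V}
    (henv : Env1 E ε τ A0 B0 X A' B')
    (hXdeg : ∀ x ∈ X, (deg (crs E (A0 ∪ X) B0 \ F) x : ℝ) ≤ θ * nV V) :
    ∀ x ∈ X, (dg E B' x : ℝ) - θ * nV V ≤ dg F B' x := by
  intro x hx
  have h1 : dg E B' x ≤ dg F B' x + dg (crs E (A0 ∪ X) B0 \ F) B' x := by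
    unfold dg
    refine le_trans (Finset.card_le_card ?_) (Finset.card_union_le _ _)
    intro y hy
    rw [Finset.mem_filter] at hy
    rw [Finset.mem_union, Finset.mem_filter, Finset.mem_filter, Finset.mem_sdiff, henv.e1b_crs]
    by_cases h2 : s(x, y) ∈ F
    · exact Or.inl ⟨hy.1, h2⟩
    · exact Or.inr ⟨hy.1, ⟨hy.2, Or.inl ⟨Finset.mem_union_right _ hx, henv.subB hy.1⟩⟩, h2⟩
  have h2 : (dg E B' x : ℝ) ≤ dg F B' x + dg (crs E (A0 ∪ X) B0 \ F) B' x := by
    exact_mod_cast h1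
  have h3 : (dg (crs E (A0 ∪ X) B0 \ F) B' x : ℝ) ≤ deg (crs E (A0 ∪ X) B0 \ F) x := by
    exact_mod_cast dg_le_deg _ _ _
  have h4 := hXdeg x hx
  linarith only [h2, h3, h4]

theorem e1b_nonB {E H : Finset (Sym2 V)} {ε τ θ : ℝ} {A0 B0 X A' B' : Finset V}
    (henv : Env1 E ε τ A0 B0 X A' B')
    (hHdeg : ∀ v, (deg ((inn E (A0 ∪ X) ∪ inn E B0) \ H) v : ℝ) ≤ θ * nV V) :
    ∀ b ∈ B0, ((B'.filter (fun y => s(b, y) ∉ H)).card : ℝ) ≤
      (B'.filter (fun y => s(b, y) ∉ E)).card + θ * nV V := by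
  intro b hb
  have h1 : (B'.filter (fun y => s(b, y) ∉ H)).card ≤
      (B'.filter (fun y => s(b, y) ∉ E)).card +
        dg ((inn E (A0 ∪ X) ∪ inn E B0) \ H) B' b := by
    unfold dg
    refine le_trans (Finset.card_le_card ?_) (Finset.card_union_le _ _)
    intro y hy
    rw [Finset.mem_filter] at hy
    rw [Finset.mem_union, Finset.mem_filter, Finset.mem_filter, Finset.mem_sdiff, e1b_inner]
    by_cases h2 : s(b, y) ∈ E
    · exact Or.inr ⟨hy.1, ⟨h2, Or.inr ⟨hb, henv.subB hy.1⟩⟩, hy.2⟩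
    · exact Or.inl ⟨hy.1, h2⟩
  have h2 : ((B'.filter (fun y => s(b, y) ∉ H)).card : ℝ) ≤
      (B'.filter (fun y => s(b, y) ∉ E)).card +
        dg ((inn E (A0 ∪ X) ∪ inn E B0) \ H) B' b := by
    exact_mod_cast h1
  have h3 : (dg ((inn E (A0 ∪ X) ∪ inn E B0) \ H) B' b : ℝ) ≤
      deg ((inn E (A0 ∪ X) ∪ inn E B0) \ H) b := by
    exact_mod_cast dg_le_deg _ _ _
  have h4 := hHdeg b
  linarith only [h2, h3, h4]

theorem e1b_degH {E H : Finset (Sym2 V)} {θ θ₁ : ℝ} {A0 B0 X : Finset V} {N : ℕ}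
    (hHdeg : ∀ v, (deg ((inn E (A0 ∪ X) ∪ inn E B0) \ H) v : ℝ) ≤ θ * nV V)
    (hN : θ * nV V + N ≤ θ₁ * nV V) :
    ∀ R ⊆ H, (∀ v, deg R v ≤ N) →
      ∀ v, (deg ((inn E (A0 ∪ X) ∪ inn E B0) \ (H \ R)) v : ℝ) ≤ θ₁ * nV V := by
  intro R hR hRdeg v
  have h1 : (inn E (A0 ∪ X) ∪ inn E B0) \ (H \ R) ⊆
      ((inn E (A0 ∪ X) ∪ inn E B0) \ H) ∪ R := by
    intro f hf
    rw [Finset.mem_sdiff, Finset.mem_sdiff] at hf
    by_cases h2 : f ∈ H
    · refine Finset.mem_union_right _ ?_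
      by_contra h3
      exact hf.2 ⟨h2, h3⟩
    · exact Finset.mem_union_left _ (Finset.mem_sdiff.2 ⟨hf.1, h2⟩)
  have h2 : (deg ((inn E (A0 ∪ X) ∪ inn E B0) \ (H \ R)) v : ℝ) ≤
      deg ((inn E (A0 ∪ X) ∪ inn E B0) \ H) v + deg R v := by
    exact_mod_cast (deg_mono h1 v).trans (deg_union_le _ _ v)
  have h3 : (deg R v : ℝ) ≤ N := by exact_mod_cast hRdeg v
  have h4 := hHdeg v
  linarith only [h2, h3, h4, hN]

theorem e1b_hsingle {E F H : Finset (Sym2 V)} {ε τ θ : ℝ} {A0 B0 X A' B' : Finset V}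
    (henv : Env1 E ε τ A0 B0 X A' B') (hτ0 : 0 < τ)
    (i2 : (B'.card : ℝ) ≤ (1 / 2 + ε) * nV V)
    (i3 : ((Finset.univ \ (A' ∪ B')).card : ℝ) ≤ 2 * ε * nV V)
    (i4 : ∀ v, deg E v ≤ dg E A' v + dg E B' v + (Finset.univ \ (A' ∪ B')).card)
    (i6 : ∀ b ∈ B0, (1 / 2 - τ - 2 * ε) * nV V - 1 ≤ (dg E B' b : ℝ))
    (hcrossX : ∀ x ∈ X, (dg E B' x : ℝ) - θ * nV V ≤ dg F B' x)
    (hnonB : ∀ b ∈ B0, ((B'.filter (fun y => s(b, y) ∉ H)).card : ℝ) ≤
      (B'.filter (fun y => s(b, y) ∉ E)).card + θ * nV V)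
    (s1 : ∀ u ∈ A0 ∪ X, ∀ w ∈ A0 ∪ X, τ ^ 2 / 16 * nV V ^ 3 ≤ (P4 H (A' ∪ B') u w : ℝ) ∧
        τ ^ 2 / 16 * nV V ^ 2 ≤ (P3 H (A' ∪ B') u w : ℝ))
    (s4 : ∀ u ∈ B0, ∀ w ∈ B0, 1 / 5 * nV V ≤ (cn H (A' ∪ B') u w : ℝ))
    (s5 : ∀ u ∈ A0, ∀ w ∈ A0 ∪ X, 2 * τ * nV V ≤ (dg E A' w : ℝ) →
        τ / 2 * nV V ≤ (cn H (A' ∪ B') u w : ℝ))
    (hn : 10 ^ 4 ≤ nV V) (hτn0 : 10 ^ 4 ≤ τ * nV V) (hτ2n : 10 ^ 4 ≤ τ ^ 2 * nV V)
    (hτn : τ * nV V ≤ nV V / 20) (hεn : ε * nV V ≤ τ * nV V / 40)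
    (hθn : θ * nV V ≤ τ * nV V / 8) :
    ∀ xs ∈ X, ∀ a ∈ A0, ∀ b ∈ B0,
      (∃ b' ∈ B', s(xs, b') ∈ F ∧ b' ≠ b ∧ 0 < cn H (A' ∪ B') b b' ∧
        0 < cn H (A' ∪ B') xs a) ∨
      (∃ b' ∈ B', s(xs, b') ∈ F ∧ s(b', b) ∈ H ∧ (A' ∪ B').card < P3 H (A' ∪ B') xs a) := by
  intro xs hxs a ha b hb
  have hcommA : cn H (A' ∪ B') a xs = cn H (A' ∪ B') xs a := cn_comm _ _ _ _
  have h1 := hcrossX xs hxs
  by_cases hcase : 2 * τ * nV V ≤ (dg E A' xs : ℝ)
  · left
    have h2 := (henv.mX xs hxs).2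
    have h3 : (1 : ℝ) < dg F B' xs := by linarith only [h1, h2, hτn0, hθn]
    have h4 : 1 < dg F B' xs := by exact_mod_cast h3
    unfold dg at h4
    obtain ⟨y, hy, z, hz, hyz⟩ := Finset.one_lt_card.1 h4
    obtain ⟨b', hb', hbb⟩ : ∃ b' ∈ B'.filter (fun y => s(xs, y) ∈ F), b' ≠ b := by
      by_cases h5 : y = b
      · exact ⟨z, hz, fun h6 => hyz (h5.trans h6.symm)⟩
      · exact ⟨y, hy, h5⟩
    rw [Finset.mem_filter] at hb'
    refine ⟨b', hb'.1, hb'.2, hbb, ?_, ?_⟩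
    · have h5 := s4 b hb b' (henv.subB hb'.1)
      have h6 : (0 : ℝ) < cn H (A' ∪ B') b b' := by linarith only [h5, hn]
      exact_mod_cast h6
    · have h5 := s5 a ha xs (Finset.mem_union_right _ hxs) hcase
      rw [hcommA] at h5
      have h6 : (0 : ℝ) < cn H (A' ∪ B') xs a := by linarith only [h5, hτn0]
      exact_mod_cast h6
  · right
    push Not at hcase
    have h2 : (deg E xs : ℝ) ≤ dg E A' xs + dg E B' xs +
        (Finset.univ \ (A' ∪ B')).card := by exact_mod_cast i4 xs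
    have h3 : nV V ≤ 2 * (deg E xs : ℝ) + 1 := by
      have := henv.mindeg xs
      unfold nV
      exact_mod_cast this
    have h4 : nV V / 3 - θ * nV V ≤ (dg F B' xs : ℝ) := by
      linarith only [h1, h2, h3, i3, hcase, hn, hτn, hεn]
    -- non-neighbours of b
    have h5 := hnonB b hb
    have h6 : ((B'.filter (fun y => s(b, y) ∉ E)).card : ℝ) + dg E B' b = B'.card := by
      have h7 : (B'.filter (fun y => s(b, y) ∈ E)).card +
          (B'.filter (fun y => ¬ s(b, y) ∈ E)).card = B'.card :=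
        Finset.card_filter_add_card_filter_not _
      have h8 : (B'.filter (fun y => s(b, y) ∉ E)).card + dg E B' b = B'.card := by
        unfold dg
        omega
      exact_mod_cast h8
    have h7 := i6 b hb
    have h8 : ((B'.filter (fun y => s(b, y) ∉ H)).card : ℝ) < dg F B' xs := by
      linarith only [h4, h5, h6, h7, i2, hn, hτn, hεn, hθn]
    have h9 : (B'.filter (fun y => s(b, y) ∉ H)).card < dg F B' xs := by exact_mod_cast h8
    obtain ⟨b', hb', hb''⟩ := Finset.exists_mem_notMem_of_card_lt_card h9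
    rw [Finset.mem_filter] at hb'
    have hbH : s(b, b') ∈ H := by
      by_contra h10
      exact hb'' (Finset.mem_filter.2 ⟨hb'.1, h10⟩)
    refine ⟨b', hb'.1, hb'.2, by rw [Sym2.eq_swap]; exact hbH, ?_⟩
    have h10 := (s1 xs (Finset.mem_union_right _ hxs) a (Finset.mem_union_left _ ha)).2
    have hSn : ((A' ∪ B').card : ℝ) ≤ nV V := e1b_card_le _
    have h11 : ((A' ∪ B').card : ℝ) < P3 H (A' ∪ B') xs a := by
      have h12 : nV V < τ ^ 2 / 16 * nV V ^ 2 := by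
        have h13 : 10 ^ 4 * nV V ≤ (τ ^ 2 * nV V) * nV V :=
          mul_le_mul_of_nonneg_right hτ2n (by linarith only [hn])
        have h14 : τ ^ 2 / 16 * nV V ^ 2 = (τ ^ 2 * nV V) * nV V / 16 := by ring
        rw [h14]
        linarith only [h13, hn]
      linarith only [h12, h10, hSn]
    exact_mod_cast h11

end e1bFinal

theorem e1b_numbers {c τ ρ θ₁ n L : ℝ} (hc : 0 < c) (hτ : 0 < τ) (hτ' : τ ≤ 1 / 20)
    (f1 : 10 ^ 4 ≤ c * τ ^ 2 * n) (f2 : c ≤ τ ^ 2 / 4000) (f3 : c ≤ ρ / 40) (f4 : c ≤ θ₁ / 80)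
    (hL2 : L ≤ c * n + 1) :
    10 ^ 4 ≤ c * n ∧ 10 ^ 4 ≤ n ∧ 4000 * (c * n) ≤ τ ^ 2 * n ∧ 40 * (c * n) ≤ ρ * n ∧
      80 * (c * n) ≤ θ₁ * n ∧ τ ^ 2 * n ≤ τ * n ∧ L ≤ 2 * (c * n) := by
  have hτ2 : τ ^ 2 ≤ 1 := by nlinarith
  have hτ2' : 0 < τ ^ 2 := by positivity
  have hn : 0 < n := by
    by_contra h
    push Not at h
    have : c * τ ^ 2 * n ≤ 0 := mul_nonpos_of_nonneg_of_nonpos (by positivity) h
    linarith
  have hcn : 0 < c * n := by positivity
  have h1 : c * τ ^ 2 * n ≤ c * n := by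
    have : c * τ ^ 2 * n = (c * n) * τ ^ 2 := by ring
    rw [this]
    exact mul_le_of_le_one_right hcn.le hτ2
  have h2 : c ≤ 1 := by nlinarith
  have h3 : c * n ≤ n := mul_le_of_le_one_left hn.le h2
  refine ⟨by linarith, by linarith, ?_, ?_, ?_, ?_, by linarith⟩
  · nlinarith
  · nlinarith
  · nlinarith
  · refine mul_le_mul_of_nonneg_right ?_ hn.le
    nlinarith

theorem e1b_numbers2 {c τ ε θ θ₁ n : ℝ} (hc : 0 < c) (hτ : 0 < τ) (hτ' : τ ≤ 1 / 20)
    (hε : 0 < ε) (hθ : 0 < θ) (hc1 : c ≤ τ ^ 2 / 4000) (g2 : ε ≤ c ^ 2 / 6) (g3 : ε ≤ τ / 40)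
    (k1 : θ ≤ θ₁ / 2) (k2 : θ ≤ τ / 8) (hn : 0 ≤ n) :
    τ * n ≤ n / 20 ∧ ε * n ≤ τ * n / 40 ∧ θ * n ≤ τ * n / 8 ∧ θ * n ≤ θ₁ * n / 2 ∧
      0 ≤ ε * n ∧ 0 ≤ θ * n ∧ c ≤ 1 ∧ 6 * (ε * n) ≤ c * (c * n) ∧ 0 ≤ c * n ∧
      2 * (ε * n) ≤ c * n := by
  have a1 : τ * n ≤ 1 / 20 * n := mul_le_mul_of_nonneg_right hτ' hn
  have a2 : ε * n ≤ τ / 40 * n := mul_le_mul_of_nonneg_right g3 hn
  have a3 : θ * n ≤ τ / 8 * n := mul_le_mul_of_nonneg_right k2 hn
  have a4 : θ * n ≤ θ₁ / 2 * n := mul_le_mul_of_nonneg_right k1 hn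
  have a5 : ε * n ≤ c ^ 2 / 6 * n := mul_le_mul_of_nonneg_right g2 hn
  have a6 : c ≤ 1 := by nlinarith
  have a7 : 0 ≤ c * n := by positivity
  have a8 : c * (c * n) ≤ 1 * (c * n) := mul_le_mul_of_nonneg_right a6 a7
  have a9 : 6 * (ε * n) ≤ c * (c * n) := by nlinarith
  refine ⟨by linarith, by linarith, by linarith, by linarith, by positivity, by positivity, a6,
    a9, a7, ?_⟩
  have : 0 ≤ ε * n := by positivity
  linarith

theorem e1b_numbers3 {c τ n L F X S : ℝ} (hc : 0 < c) (hτ : 0 < τ)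
    (f1 : 10 ^ 4 ≤ c * τ ^ 2 * n) (hL1 : c * n ≤ L) (hLpos : 0 < L) (hcn : 0 ≤ c * n)
    (hn : 0 ≤ n) (hF : 2 * F ≤ (c * n) * (c * n)) (hXL : X ≤ L) (hS : n / 2 ≤ S) :
    18 * F / L ≤ 9 * (c * n) ∧ 36 * X / L ≤ 36 ∧ 18 * n / L ≤ 18 / 10 ^ 4 * (τ ^ 2 * n) ∧
      τ ^ 2 * n / 32 ≤ τ ^ 2 / 16 * S := by
  refine ⟨?_, ?_, ?_, ?_⟩
  · rw [div_le_iff₀ hLpos]
    have h1 : (c * n) * (c * n) ≤ (c * n) * L := mul_le_mul_of_nonneg_left hL1 hcn
    linarith only [h1, hF]
  · rw [div_le_iff₀ hLpos]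
    linarith only [hXL]
  · rw [div_le_iff₀ hLpos]
    have h1 : 18 / 10 ^ 4 * (τ ^ 2 * n) * (c * n) ≤ 18 / 10 ^ 4 * (τ ^ 2 * n) * L :=
      mul_le_mul_of_nonneg_left hL1 (by positivity)
    have h2 : 18 / 10 ^ 4 * (τ ^ 2 * n) * (c * n) = 18 / 10 ^ 4 * n * (c * τ ^ 2 * n) := by ring
    have h3 : 18 / 10 ^ 4 * n * 10 ^ 4 ≤ 18 / 10 ^ 4 * n * (c * τ ^ 2 * n) :=
      mul_le_mul_of_nonneg_left f1 (by positivity)
    linarith only [h1, h2, h3]
  · have : τ ^ 2 / 16 * (n / 2) ≤ τ ^ 2 / 16 * S :=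
      mul_le_mul_of_nonneg_left hS (by positivity)
    linarith only [this]

theorem proc1 (τ ρ : ℝ) (hτ : 0 < τ) (hτ' : τ ≤ 1 / 20) (hρ : 0 < ρ) :
    ∃ ε θ : ℝ, 0 < ε ∧ 0 < θ ∧ ∃ n0 : ℕ, ∀ (V : Type) [Fintype V] [DecidableEq V]
      (E F H : Finset (Sym2 V)) (A0 B0 X A' B' : Finset V), n0 ≤ Fintype.card V → Loopless E →
      Env1 E ε τ A0 B0 X A' B' → F ⊆ crs E (A0 ∪ X) B0 → Even F.card →
      H ⊆ inn E (A0 ∪ X) ∪ inn E B0 →
      (∀ v, (deg ((inn E (A0 ∪ X) ∪ inn E B0) \ H) v : ℝ) ≤ θ * nV V) →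
      (∀ x ∈ X, (deg (crs E (A0 ∪ X) B0 \ F) x : ℝ) ≤ θ * nV V) →
      ∃ D : Finset (Sym2 V), Dec D ∧ F ⊆ D ∧ D ⊆ F ∪ H ∧ ∀ v, (deg (D ∩ H) v : ℝ) ≤ ρ * nV V := by
  obtain ⟨ε₁, θ₁, hε₁, hθ₁, n₁, hrich⟩ := rich1_P4 τ hτ hτ'
  obtain ⟨c, hc, f2, f3, f4⟩ : ∃ c : ℝ, 0 < c ∧ c ≤ τ ^ 2 / 4000 ∧ c ≤ ρ / 40 ∧ c ≤ θ₁ / 80 := by
    refine ⟨min (τ ^ 2 / 4000) (min (ρ / 40) (θ₁ / 80)), ?_, min_le_left _ _,
      (min_le_right _ _).trans (min_le_left _ _), (min_le_right _ _).trans (min_le_right _ _)⟩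
    exact lt_min (by positivity) (lt_min (by positivity) (by positivity))
  obtain ⟨ε, hε, g1, g2, g3⟩ : ∃ ε : ℝ, 0 < ε ∧ ε ≤ ε₁ ∧ ε ≤ c ^ 2 / 6 ∧ ε ≤ τ / 40 := by
    refine ⟨min ε₁ (min (c ^ 2 / 6) (τ / 40)), ?_, min_le_left _ _,
      (min_le_right _ _).trans (min_le_left _ _), (min_le_right _ _).trans (min_le_right _ _)⟩
    exact lt_min hε₁ (lt_min (by positivity) (by positivity))
  obtain ⟨θ, hθ, k1, k2⟩ : ∃ θ : ℝ, 0 < θ ∧ θ ≤ θ₁ / 2 ∧ θ ≤ τ / 8 := by
    refine ⟨min (θ₁ / 2) (τ / 8), ?_, min_le_left _ _, min_le_right _ _⟩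
    exact lt_min (by positivity) (by positivity)
  refine ⟨ε, θ, hε, hθ, max n₁ ⌈10 ^ 4 / (c * τ ^ 2)⌉₊, ?_⟩
  intro V _ _ E F H A0 B0 X A' B' hn0 hl henv hF heven hH hHdeg hXdeg
  have hn1 : n₁ ≤ Fintype.card V := (le_max_left _ _).trans hn0
  have hnK : 10 ^ 4 / (c * τ ^ 2) ≤ nV V := by
    refine (Nat.le_ceil _).trans ?_
    unfold nV
    exact_mod_cast (le_max_right _ _).trans hn0
  have f1 : 10 ^ 4 ≤ c * τ ^ 2 * nV V := by
    rw [div_le_iff₀ (by positivity)] at hnK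
    linarith only [hnK]
  obtain ⟨n, hn⟩ : ∃ n : ℝ, n = nV V := ⟨_, rfl⟩
  obtain ⟨L, hLdef⟩ : ∃ L : ℕ, L = ⌈c * n⌉₊ := ⟨_, rfl⟩
  have hn00 : 0 ≤ n := by rw [hn]; exact Nat.cast_nonneg _
  rw [← hn] at f1
  have hL1 : c * n ≤ L := by rw [hLdef]; exact Nat.le_ceil _
  have hL2 : (L : ℝ) ≤ c * n + 1 := by
    rw [hLdef]; exact (Nat.ceil_lt_add_one (by positivity)).le
  obtain ⟨e1, e2, e3, e4, e5, e6, e7⟩ := e1b_numbers hc hτ hτ' f1 f2 f3 f4 hL2
  obtain ⟨hτn, hεn, hθn, hθn1, hεn0, hθn0, hc1, hεc, hcn, hεc2⟩ :=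
    e1b_numbers2 hc hτ hτ' hε hθ f2 g2 g3 k1 k2 hn00
  have hLpos : (0 : ℝ) < L := by linarith only [hL1, e1]
  have hL : 1 ≤ L := by
    have : (0 : ℝ) < L := hLpos
    exact_mod_cast this
  obtain ⟨i1, i2, i3, i4, i5, i6, i7⟩ := henv.basic hl
  -- cardinality of S
  have hdAB' : Disjoint A' B' := henv.dAB.mono henv.subA henv.subB
  have hS : n / 2 ≤ ((A' ∪ B').card : ℝ) := by
    rw [Finset.card_union_of_disjoint hdAB']
    push_cast
    have h1 := henv.sizeA
    have h2 := henv.sizeB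
    rw [← hn] at h1 h2
    linarith only [h1, h2, hεn, hτn, hn00]
  -- cardinality of X
  have hXcard : (X.card : ℝ) ≤ 2 * (ε * n) := by
    have h1 : X ⊆ Finset.univ \ (A' ∪ B') := by
      intro x hx
      rw [Finset.mem_sdiff, Finset.mem_union, not_or]
      refine ⟨Finset.mem_univ x, fun h => ?_, fun h => ?_⟩
      · exact (Finset.disjoint_left.1 henv.dAX) (henv.subA h) hx
      · exact (Finset.disjoint_left.1 henv.dBX) (henv.subB h) hx
    have h2 : (X.card : ℝ) ≤ ((Finset.univ \ (A' ∪ B')).card : ℝ) := by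
      exact_mod_cast Finset.card_le_card h1
    rw [← hn] at i3
    linarith only [h2, i3]
  have hXL : X.card ≤ L := by
    have : (X.card : ℝ) ≤ L := by linarith only [hXcard, hεc2, hL1]
    exact_mod_cast this
  have hXL' : (X.card : ℝ) ≤ L := by exact_mod_cast hXL
  -- cardinality of F
  have hFcard : (F.card : ℝ) ≤ 3 * ε * n ^ 2 := by
    have h2 : (F.card : ℝ) ≤ ((crs E (A0 ∪ X) B0).card : ℝ) := by
      exact_mod_cast Finset.card_le_card hF
    rw [hn]
    exact h2.trans i7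
  have hFcard2 : 2 * (F.card : ℝ) ≤ (c * n) * (c * n) := by
    have h1 : 6 * (ε * n) * n ≤ c * (c * n) * n := mul_le_mul_of_nonneg_right hεc hn00
    have h2 : c * (c * n) * n = (c * n) * (c * n) := by ring
    have h3 : 6 * (ε * n) * n = 2 * (3 * ε * n ^ 2) := by ring
    linarith only [h1, h2, h3, hFcard]
  have hcnL : (c * n) * (c * n) ≤ (L : ℝ) * L := mul_le_mul hL1 hL1 hcn hLpos.le
  have hLF : 2 * F.card ≤ L * L := by
    have : 2 * (F.card : ℝ) ≤ (L : ℝ) * L := hFcard2.trans hcnL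
    exact_mod_cast this
  obtain ⟨hF18, hX36, hn18, hhS⟩ :=
    e1b_numbers3 hc hτ f1 hL1 hLpos hcn hn00 hFcard2 hXL' hS
  -- richness
  have hHE : H ⊆ E := fun e he => by
    rcases Finset.mem_union.1 (hH he) with h | h
    · exact (Finset.mem_inter.1 h).1
    · exact (Finset.mem_inter.1 h).1
  have hall := e1b_degH (θ₁ := θ₁) (N := 10 * L + 5) hHdeg (by
    rw [← hn]
    push_cast
    linarith only [hθn1, e5, e7, e1])
  have henv1 := henv.e1b_mono g1
  have hr : ∀ R ⊆ H, (∀ v, deg R v ≤ 10 * L + 5) →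
      E1bRich (H \ R) A0 B0 X (A' ∪ B') (τ ^ 2 / 16) := by
    intro R hR hRdeg
    obtain ⟨r1, r2, r3, r4, -⟩ := hrich V E (H \ R) A0 B0 X A' B' hn1 hl henv1
      (Finset.sdiff_subset.trans hHE) (hall R hR hRdeg)
    exact ⟨fun u hu w hw => (r1 u hu w hw).1, fun u hu w hw => (r1 u hu w hw).2,
      fun u hu w hw => (r2 u hu w hw).1, r3, r4⟩
  obtain ⟨s1, -, -, s4, s5⟩ := hrich V E H A0 B0 X A' B' hn1 hl henv1 hHE (by
    have := hall ∅ (Finset.empty_subset _) (fun v => by simp)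
    simpa using this)
  have hcrossX := e1b_crossX henv hXdeg
  have hnonB := e1b_nonB henv hHdeg
  have hVne : Nonempty V := by
    rw [← Fintype.card_pos_iff]
    have : (0 : ℝ) < nV V := by rw [← hn]; linarith only [e2]
    unfold nV at this
    exact_mod_cast this
  have hsingle := e1b_hsingle (F := F) henv hτ i2 i3 i4 i6 hcrossX hnonB s1 s4 s5
    (by rw [← hn]; exact e2) (by rw [← hn]; linarith only [e1, e3, e6])
    (by rw [← hn]; linarith only [e1, e3])
    (by rw [← hn]; exact hτn) (by rw [← hn]; exact hεn) (by rw [← hn]; exact hθn)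
  have hmA : ∀ x ∈ X, ⌊τ * n / 2⌋₊ + 1 ≤ dg F B' x := by
    intro x hx
    have h1 := hcrossX x hx
    have h2 := (henv.mX x hx).2
    rw [← hn] at h1 h2
    have h3 : ((⌊τ * n / 2⌋₊ : ℕ) : ℝ) ≤ τ * n / 2 := Nat.floor_le (by positivity)
    have h4 : ((⌊τ * n / 2⌋₊ + 1 : ℕ) : ℝ) ≤ dg F B' x := by
      push_cast
      linarith only [h1, h2, h3, hθn, e1, e3, e6]
    exact_mod_cast h4
  have hmB : ∀ b ∈ B', (B'.filter (fun y => s(b, y) ∉ H)).card + 2 ≤ ⌈(ε + θ) * n⌉₊ + 2 := by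
    intro b hb
    have h1 := hnonB b (henv.subB hb)
    have h2 := henv.nB b hb
    rw [← hn] at h1 h2
    have h3 : (ε + θ) * n ≤ ((⌈(ε + θ) * n⌉₊ : ℕ) : ℝ) := Nat.le_ceil _
    have h4 : ((B'.filter (fun y => s(b, y) ∉ H)).card : ℝ) ≤ ((⌈(ε + θ) * n⌉₊ : ℕ) : ℝ) := by
      linarith only [h1, h2, h3]
    have h5 : (B'.filter (fun y => s(b, y) ∉ H)).card ≤ ⌈(ε + θ) * n⌉₊ := by exact_mod_cast h4
    exact Nat.add_le_add_right h5 2
  have hmC : 2 * X.card + (⌈(ε + θ) * n⌉₊ + 2) < ⌊τ * n / 2⌋₊ := by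
    have h1 : ((⌈(ε + θ) * n⌉₊ : ℕ) : ℝ) < (ε + θ) * n + 1 :=
      Nat.ceil_lt_add_one (by positivity)
    have h2 : τ * n / 2 < ((⌊τ * n / 2⌋₊ : ℕ) : ℝ) + 1 := Nat.lt_floor_add_one _
    have h3 : ((2 * X.card + (⌈(ε + θ) * n⌉₊ + 2) : ℕ) : ℝ) < ((⌊τ * n / 2⌋₊ : ℕ) : ℝ) := by
      push_cast
      linarith only [h1, h2, hXcard, hεn, hθn, e1, e3, e6]
    exact_mod_cast h3
  have hq1 : (12 : ℝ) ≤ τ ^ 2 / 16 * nV V := by
    rw [← hn]
    linarith only [e1, e3]
  have hq2 : 18 * (F.card : ℝ) / L + 12 * L + 12 * L + 8 < τ ^ 2 / 16 * (A' ∪ B').card := by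
    linarith only [hF18, hhS, e7, e3, e1]
  have hq3 : 36 * (X.card : ℝ) / L + 12 * (1 : ℕ) + 12 * L <
      τ ^ 2 / 16 / 2 * (A' ∪ B').card := by
    push_cast
    linarith only [hX36, hhS, e7, e3, e1]
  have hq4 : 18 * nV V / L + 12 * (L + 1 : ℕ) + 12 * L + 8 <
      τ ^ 2 / 16 * (A' ∪ B').card := by
    rw [← hn]
    push_cast
    linarith only [hn18, hhS, e7, e3, e1]
  have hτ16 : τ ^ 2 / 16 ≤ 1 / 25 := by nlinarith only [hτ, hτ']
  obtain ⟨D, hD1, hD2, hD3, hD4⟩ := e1b_main (h := τ ^ 2 / 16)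
    (L := L) (m0 := ⌊τ * n / 2⌋₊) (m1 := ⌈(ε + θ) * n⌉₊ + 2) hl henv hF heven hH hL
    (by positivity) hτ16 hr hmA hmB hmC hXL hLF hsingle hq1 hq2 hq3 hq4
  refine ⟨D, hD1, hD2, hD3, fun v => ?_⟩
  have h1 : (deg (D ∩ H) v : ℝ) ≤ 14 * L + 7 := by exact_mod_cast hD4 v
  rw [← hn]
  linarith only [h1, e7, e4, e1]

end H15C6
end S_E1B

section S_E1C
/-!
Module E1C.  Extremal case 1 with five switches.  `A := A0 ∪ X`, `B := B0`, `V = A ⊔ B`.

Let `Sw := ⋃ (c0 i ∪ c1 i)` (at most 60 edges).  `F := crs E A B \ Sw`, `H := (inn E A ∪ inn E B) \ Sw`.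
`|crs E A B|` is even (sum of even degrees over `A`), each switch has an even number of cross edges (a closed walk
crosses the cut an even number of times, or: `par`-argument with degrees of a cycle), and
`crs (c0 i) = crs (c1 i)`, so `|F|` is even.  `proc1` gives `D`.
For `j ≤ 5` let `Q_j := ⋃_{i < j} c1 i ∪ ⋃_{i ≥ j} c0 i` and `G_j := E \ D \ Q_j`: no cross edges, even degrees,
`|inn G_j A| = |inn G_0 A| - j`; choose `j` with `6 ∣ |inn G_j A|`.  `6 ∣ |G_j|` gives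
`6 ∣ |inn G_j B|`.  `nct` (with `c := τ/4`) decomposes `inn G_j A` (inside `U = A`, strongly typical set `A'`) and
`inn G_j B` (`U = B`, `B'`).  Degrees: a vertex of `A'` misses at most
`ε n + |A \ A'| + ρ n + O(1)` vertices of `A`; all vertices of `A` have degree `≥ (τ - ρ) n - O(1)`.
-/

open Finset

namespace H15C6

theorem e1c_par {V : Type} [DecidableEq V] [Fintype V] {E : Finset (Sym2 V)} {A B : Finset V}
    (hl : Loopless E) (hd : Disjoint A B) (hc : A ∪ B = Finset.univ) :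
    ∑ x ∈ A, deg E x = 2 * (inn E A).card + (crs E A B).card := by
  unfold deg
  simp_rw [Finset.card_filter]
  rw [Finset.sum_comm]
  have h1 : (inn E A).card = ∑ e ∈ E, if e ∈ A.sym2 then 1 else 0 := by
    rw [← Finset.card_filter, inn, Finset.filter_mem_eq_inter]
  have h2 : (crs E A B).card = ∑ e ∈ E, if e ∉ A.sym2 ∧ e ∉ B.sym2 then 1 else 0 := by
    rw [← Finset.card_filter]
    congr 1
    ext e
    simp only [crs, Finset.mem_sdiff, Finset.mem_filter]
    tauto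
  rw [h1, h2, Finset.mul_sum, ← Finset.sum_add_distrib]
  have hB : ∀ x, x ∈ B ↔ x ∉ A := by
    intro x
    constructor
    · exact fun hx hx' => (Finset.disjoint_left.1 hd) hx' hx
    · intro hx
      have : x ∈ A ∪ B := by rw [hc]; exact Finset.mem_univ x
      exact (Finset.mem_union.1 this).resolve_left hx
  refine Finset.sum_congr rfl fun e he => ?_
  induction e using Sym2.ind with
  | _ a b =>
    have hab : a ≠ b := hl.ne he
    simp only [Finset.mk_mem_sym2_iff, Sym2.mem_iff, hB]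
    rw [← Finset.card_filter]
    by_cases ha : a ∈ A <;> by_cases hb : b ∈ A
    · have h3 : A.filter (fun x => x = a ∨ x = b) = {a, b} := by
        ext x
        simp only [Finset.mem_filter, Finset.mem_insert, Finset.mem_singleton]
        constructor
        · exact fun h => h.2
        · rintro (rfl | rfl)
          · exact ⟨ha, Or.inl rfl⟩
          · exact ⟨hb, Or.inr rfl⟩
      rw [h3, Finset.card_pair hab]
      simp [ha, hb]
    · have h3 : A.filter (fun x => x = a ∨ x = b) = {a} := by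
        ext x
        simp only [Finset.mem_filter, Finset.mem_singleton]
        constructor
        · rintro ⟨h, rfl | rfl⟩
          · rfl
          · exact absurd h hb
        · rintro rfl
          exact ⟨ha, Or.inl rfl⟩
      rw [h3]
      simp [ha, hb]
    · have h3 : A.filter (fun x => x = a ∨ x = b) = {b} := by
        ext x
        simp only [Finset.mem_filter, Finset.mem_singleton]
        constructor
        · rintro ⟨h, rfl | rfl⟩
          · exact absurd h ha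
          · rfl
        · rintro rfl
          exact ⟨hb, Or.inr rfl⟩
      rw [h3]
      simp [ha, hb]
    · have h3 : A.filter (fun x => x = a ∨ x = b) = ∅ := by
        ext x
        simp only [Finset.mem_filter, Finset.notMem_empty, iff_false]
        rintro ⟨h, rfl | rfl⟩
        · exact ha h
        · exact hb h
      rw [h3]
      simp [ha, hb]

/-- an even graph has an even number of cross edges -/
theorem e1c_even_crs {V : Type} [DecidableEq V] [Fintype V] {E : Finset (Sym2 V)} {A B : Finset V}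
    (hl : Loopless E) (he : EvenDeg E) (hd : Disjoint A B) (hc : A ∪ B = Finset.univ) :
    Even (crs E A B).card := by
  have h1 := e1c_par hl hd hc
  have h2 : Even (∑ x ∈ A, deg E x) := by
    refine Finset.sum_induction _ Even (fun a b => Even.add) Even.zero (fun x _ => he x)
  rw [h1] at h2
  have h3 : Even (2 * (inn E A).card) := even_two_mul _
  exact (Nat.even_add.1 h2).1 h3

/-- if there are no cross edges, the part inside `A` has even degrees -/
theorem e1c_even_inn {V : Type} [DecidableEq V] {G : Finset (Sym2 V)} {A B : Finset V}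
    (he : EvenDeg G) (hd : Disjoint A B) (hG : ∀ e ∈ G, e ∈ A.sym2 ∨ e ∈ B.sym2) :
    EvenDeg (inn G A) := by
  intro x
  by_cases hx : x ∈ A
  · have h1 : deg (inn G A) x = deg G x := by
      unfold deg inn
      congr 1
      ext e
      simp only [Finset.mem_filter, Finset.mem_inter]
      constructor
      · rintro ⟨⟨h1, h2⟩, h3⟩
        exact ⟨h1, h3⟩
      · rintro ⟨h1, h3⟩
        refine ⟨⟨h1, ?_⟩, h3⟩
        rcases hG e h1 with h | h
        · exact h
        · exfalso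
          rw [Finset.mem_sym2_iff] at h
          exact (Finset.disjoint_left.1 hd) hx (h x h3)
    rw [h1]
    exact he x
  · have h1 : deg (inn G A) x = 0 := by
      unfold deg inn
      rw [Finset.card_eq_zero, Finset.filter_eq_empty_iff]
      intro e h1 h3
      rw [Finset.mem_inter, Finset.mem_sym2_iff] at h1
      exact hx (h1.2 x h3)
    rw [h1]
    exact Even.zero

/-- degrees in the part inside `A` of `E \ D \ Q` -/
theorem e1c_deg {V : Type} [DecidableEq V] {E D F H Q : Finset (Sym2 V)} {A : Finset V}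
    (hD : D ⊆ F ∪ H) (hF : ∀ e ∈ F, e ∉ A.sym2) {u : V} (hu : u ∈ A) :
    dg E A u ≤ deg (inn ((E \ D) \ Q) A) u + deg (D ∩ H) u + deg Q u := by
  have h1 := dg_le_sdiff_add E ((D ∩ H) ∪ Q) A u
  have h2 := deg_union_le (D ∩ H) Q u
  have h3 : dg (E \ ((D ∩ H) ∪ Q)) A u ≤ dg (inn ((E \ D) \ Q) A) A u := by
    unfold dg
    refine Finset.card_le_card fun y hy => ?_
    rw [Finset.mem_filter] at hy ⊢
    obtain ⟨hyA, hy⟩ := hy
    refine ⟨hyA, ?_⟩
    have hAs : s(u, y) ∈ A.sym2 := Finset.mk_mem_sym2_iff.2 ⟨hu, hyA⟩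
    rw [Finset.mem_sdiff, Finset.mem_union, not_or, Finset.mem_inter] at hy
    rw [inn, Finset.mem_inter, Finset.mem_sdiff, Finset.mem_sdiff]
    refine ⟨⟨⟨hy.1, fun hyD => ?_⟩, hy.2.2⟩, hAs⟩
    rcases Finset.mem_union.1 (hD hyD) with h | h
    · exact hF _ h hAs
    · exact hy.2.1 ⟨hyD, h⟩
  have h4 := dg_le_deg (inn ((E \ D) \ Q) A) A u
  omega

/-- the decomposition of one half -/
theorem e1c_half {V : Type} [Fintype V] [DecidableEq V] {c ε₁ ε ρ τ : ℝ} {n1 : ℕ}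
    (hnct : ∀ (V : Type) [Fintype V] [DecidableEq V] (U A : Finset V)
      (E : Finset (Sym2 V)), n1 ≤ U.card → A ⊆ U → E ⊆ U.sym2 → Loopless E → EvenDeg E →
      6 ∣ E.card → ((U \ A).card : ℝ) ≤ ε₁ * U.card →
      (∀ a ∈ A, (1 - ε₁) * (U.card : ℝ) ≤ (deg E a : ℝ)) →
      (∀ u ∈ U, c * (U.card : ℝ) ≤ (deg E u : ℝ)) → Dec E)
    (hc : c = τ / 4) (hτ : 0 < τ) (hε : ε ≤ ε₁ / 48) (hε4 : ε ≤ 1 / 4)
    (hε₁ : 0 < ε₁) (hρ₁ : ρ ≤ ε₁ / 16)
    (hρ₂ : ρ ≤ τ / 4) (hn1 : (n1 : ℝ) ≤ nV V / 4) (hn2 : 30 ≤ ε₁ / 16 * nV V)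
    (hn3 : 30 ≤ τ / 4 * nV V)
    {E D F H Q : Finset (Sym2 V)} {A B A' : Finset V} (hd : Disjoint A B)
    (hAB : A ∪ B = Finset.univ) (hA' : A' ⊆ A)
    (hD : D ⊆ F ∪ H) (hF : ∀ e ∈ F, e ∉ A.sym2) (hl : Loopless E)
    (hcr : ∀ e ∈ (E \ D) \ Q, e ∈ A.sym2 ∨ e ∈ B.sym2) (hev : EvenDeg ((E \ D) \ Q))
    (h6 : 6 ∣ (inn ((E \ D) \ Q) A).card) (hQ : Q.card ≤ 30)
    (hDH : ∀ v, (deg (D ∩ H) v : ℝ) ≤ ρ * nV V)
    (hsA : (1 / 2 - ε) * nV V ≤ (A'.card : ℝ)) (hsB : (1 / 2 - ε) * nV V ≤ (B.card : ℝ))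
    (hnA : ∀ a ∈ A', ((A'.filter (fun y => s(a, y) ∉ E)).card : ℝ) ≤ ε * nV V)
    (hlow : ∀ u ∈ A, τ * nV V ≤ (dg E A u : ℝ)) :
    Dec (inn ((E \ D) \ Q) A) := by
  have hn0 : (0 : ℝ) ≤ nV V := Nat.cast_nonneg _
  have hcardAB : (A.card : ℝ) + B.card = nV V := by
    have h1 : (A ∪ B).card = A.card + B.card := Finset.card_union_of_disjoint hd
    rw [hAB, Finset.card_univ] at h1
    rw [nV, h1]
    push_cast
    ring
  have hAle : (A.card : ℝ) ≤ (1 / 2 + ε) * nV V := by linarith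
  have hA'le : (A'.card : ℝ) ≤ A.card := by exact_mod_cast Finset.card_le_card hA'
  have hAge : nV V / 4 ≤ (A.card : ℝ) := by
    have : (1 / 4 : ℝ) * nV V ≤ (1 / 2 - ε) * nV V := mul_le_mul_of_nonneg_right (by linarith) hn0
    linarith
  have hAn : (A.card : ℝ) ≤ nV V := by
    have : (0 : ℝ) ≤ B.card := Nat.cast_nonneg _
    linarith
  have hdeg : ∀ u ∈ A, (dg E A u : ℝ) - ρ * nV V - 30 ≤ (deg (inn ((E \ D) \ Q) A) u : ℝ) := by
    intro u hu
    have h1 := e1c_deg (E := E) (Q := Q) hD hF hu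
    have h2 := hDH u
    have h3 : deg Q u ≤ 30 := (Finset.card_filter_le _ _).trans hQ
    have h4 : (dg E A u : ℝ) ≤ (deg (inn ((E \ D) \ Q) A) u : ℝ) + deg (D ∩ H) u + 30 := by
      have : dg E A u ≤ deg (inn ((E \ D) \ Q) A) u + deg (D ∩ H) u + 30 := by omega
      exact_mod_cast this
    linarith
  have hcardsd : ((A \ A').card : ℝ) = A.card - A'.card := by
    rw [Finset.card_sdiff_of_subset hA', Nat.cast_sub (Finset.card_le_card hA')]
  have hεn : ε * nV V ≤ ε₁ / 48 * nV V := mul_le_mul_of_nonneg_right hε hn0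
  have hρn1 : ρ * nV V ≤ ε₁ / 16 * nV V := mul_le_mul_of_nonneg_right hρ₁ hn0
  have hρn2 : ρ * nV V ≤ τ / 4 * nV V := mul_le_mul_of_nonneg_right hρ₂ hn0
  have hεA : ε₁ / 4 * nV V ≤ ε₁ * A.card := by
    have := mul_le_mul_of_nonneg_left hAge hε₁.le
    linarith
  refine hnct V A A' (inn ((E \ D) \ Q) A) ?_ hA' Finset.inter_subset_right ?_ ?_ h6 ?_ ?_ ?_
  · have : (n1 : ℝ) ≤ A.card := by linarith
    exact_mod_cast this
  · exact hl.mono (Finset.inter_subset_left.trans (Finset.sdiff_subset.trans Finset.sdiff_subset))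
  · exact e1c_even_inn hev hd hcr
  · rw [hcardsd]
    nlinarith
  · intro a ha
    have h1 := hdeg a (hA' ha)
    have h2 : (A'.card : ℝ) - ε * nV V ≤ dg E A a := by
      have h3 : A'.card ≤ dg E A' a + (A'.filter (fun y => s(a, y) ∉ E)).card := by
        unfold dg
        rw [Finset.card_filter_add_card_filter_not]
      have h4 : (A'.card : ℝ) ≤ dg E A' a + (A'.filter (fun y => s(a, y) ∉ E)).card := by
        exact_mod_cast h3
      have h5 : (dg E A' a : ℝ) ≤ dg E A a := by exact_mod_cast dg_mono_right E hA' a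
      have h6 := hnA a ha
      linarith
    nlinarith
  · intro u hu
    have h1 := hdeg u hu
    have h2 := hlow u hu
    have h3 : τ / 4 * (A.card : ℝ) ≤ τ / 4 * nV V :=
      mul_le_mul_of_nonneg_left hAn (by linarith)
    rw [hc]
    nlinarith

theorem e1c_card_inn {V : Type} [DecidableEq V] {E D Q : Finset (Sym2 V)} {A : Finset V}
    (hD : D ⊆ E) (hQ : Q ⊆ E) (hDQ : Disjoint D Q) :
    (inn ((E \ D) \ Q) A).card + (inn D A).card + (inn Q A).card = (inn E A).card := by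
  have h1 : inn E A = (inn ((E \ D) \ Q) A ∪ inn D A) ∪ inn Q A := by
    ext e
    simp only [inn, Finset.mem_union, Finset.mem_inter, Finset.mem_sdiff]
    constructor
    · rintro ⟨h1, h2⟩
      by_cases hD' : e ∈ D
      · exact Or.inl (Or.inr ⟨hD', h2⟩)
      · by_cases hQ' : e ∈ Q
        · exact Or.inr ⟨hQ', h2⟩
        · exact Or.inl (Or.inl ⟨⟨⟨h1, hD'⟩, hQ'⟩, h2⟩)
    · rintro ((⟨⟨⟨h1, _⟩, _⟩, h2⟩ | ⟨h1, h2⟩) | ⟨h1, h2⟩)
      · exact ⟨h1, h2⟩
      · exact ⟨hD h1, h2⟩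
      · exact ⟨hQ h1, h2⟩
  have h2 : Disjoint (inn ((E \ D) \ Q) A) (inn D A) := by
    rw [Finset.disjoint_left]
    intro e he he'
    simp only [inn, Finset.mem_inter, Finset.mem_sdiff] at he he'
    exact he.1.1.2 he'.1
  have h3 : Disjoint (inn ((E \ D) \ Q) A ∪ inn D A) (inn Q A) := by
    rw [Finset.disjoint_left]
    intro e he he'
    simp only [inn, Finset.mem_inter, Finset.mem_sdiff, Finset.mem_union] at he he'
    rcases he with he | he
    · exact he.1.2 he'.1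
    · exact (Finset.disjoint_left.1 hDQ) he.1 he'.1
  rw [h1, Finset.card_union_of_disjoint h3, Finset.card_union_of_disjoint h2]

theorem e1c_env_mono {V : Type} [Fintype V] [DecidableEq V] {E : Finset (Sym2 V)} {ε ε' τ : ℝ}
    {A0 B0 X A' B' : Finset V} (h : Env1 E ε τ A0 B0 X A' B') (hε : ε ≤ ε') :
    Env1 E ε' τ A0 B0 X A' B' := by
  have hn0 : (0 : ℝ) ≤ nV V := Nat.cast_nonneg _
  have h1 : ε * nV V ≤ ε' * nV V := mul_le_mul_of_nonneg_right hε hn0
  exact
    { dAB := h.dAB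
      dAX := h.dAX
      dBX := h.dBX
      cover := h.cover
      subA := h.subA
      subB := h.subB
      sizeA := by have := h.sizeA; linarith
      sizeB := by have := h.sizeB; linarith
      nA := fun a ha => (h.nA a ha).trans h1
      nA' := fun a ha => (h.nA' a ha).trans h1
      nB := fun a ha => (h.nB a ha).trans h1
      nB' := fun a ha => (h.nB' a ha).trans h1
      tA := h.tA
      tB := h.tB
      mX := h.mX
      mindeg := h.mindeg }

/-- the union of the chosen cycles of the switches -/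
def e1cQ {V : Type} [DecidableEq V] (c0 c1 : Fin 5 → Finset (Sym2 V)) (j : ℕ) :
    Finset (Sym2 V) := Finset.univ.biUnion (fun i : Fin 5 => if (i : ℕ) < j then c1 i else c0 i)

theorem e1c_card_Q_inn {V : Type} [DecidableEq V] {c0 c1 : Fin 5 → Finset (Sym2 V)}
    {A : Finset V} (h1 : ∀ i, (inn (c1 i) A).card = (inn (c0 i) A).card + 1)
    (h2 : ∀ i j, i ≠ j → Disjoint (c0 i ∪ c1 i) (c0 j ∪ c1 j)) (j : ℕ) (hj : j ≤ 5) :
    (inn (e1cQ c0 c1 j) A).card = (inn (e1cQ c0 c1 0) A).card + j := by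
  have hsub : ∀ (j : ℕ) (i : Fin 5), (if (i : ℕ) < j then c1 i else c0 i) ⊆ c0 i ∪ c1 i := by
    intro j i
    split_ifs
    · exact Finset.subset_union_right
    · exact Finset.subset_union_left
  have key : ∀ j : ℕ, (inn (e1cQ c0 c1 j) A).card =
      ∑ i : Fin 5, (inn (if (i : ℕ) < j then c1 i else c0 i) A).card := by
    intro j
    have h3 : inn (e1cQ c0 c1 j) A = Finset.univ.biUnion
        (fun i : Fin 5 => inn (if (i : ℕ) < j then c1 i else c0 i) A) := by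
      ext e
      simp only [inn, e1cQ, Finset.mem_inter, Finset.mem_biUnion, Finset.mem_univ, true_and]
      constructor
      · rintro ⟨⟨i, hi⟩, h⟩
        exact ⟨i, hi, h⟩
      · rintro ⟨i, hi, h⟩
        exact ⟨⟨i, hi⟩, h⟩
    rw [h3, Finset.card_biUnion]
    intro i _ i' _ hii'
    refine Finset.disjoint_of_subset_left (Finset.inter_subset_left.trans (hsub j i)) ?_
    refine Finset.disjoint_of_subset_right (Finset.inter_subset_left.trans (hsub j i')) ?_
    exact h2 i i' hii'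
  rw [key, key]
  have h4 : ∀ i : Fin 5, (inn (if (i : ℕ) < j then c1 i else c0 i) A).card =
      (inn (if (i : ℕ) < 0 then c1 i else c0 i) A).card + (if (i : ℕ) < j then 1 else 0) := by
    intro i
    simp only [Nat.not_lt_zero, if_false]
    split_ifs
    · exact h1 i
    · rfl
  rw [Finset.sum_congr rfl (fun i _ => h4 i), Finset.sum_add_distrib]
  congr 1
  interval_cases j <;> rfl

theorem fin1 (τ : ℝ) (hτ : 0 < τ) (hτ' : τ ≤ 1 / 20) :
    ∃ ε : ℝ, 0 < ε ∧ ∃ n0 : ℕ, ∀ (V : Type) [Fintype V] [DecidableEq V]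
      (E : Finset (Sym2 V)) (A0 B0 X A' B' : Finset V), n0 ≤ Fintype.card V → Loopless E →
      EvenDeg E → 6 ∣ E.card → Env1 E ε τ A0 B0 X A' B' → Switch5 E (A0 ∪ X) B0 → Dec E := by
  obtain ⟨ε₁, hε₁, n1, hnct⟩ := nct (τ / 4) (by linarith)
  obtain ⟨ρ, hρ⟩ : ∃ ρ : ℝ, ρ = min (τ / 4) (ε₁ / 16) := ⟨_, rfl⟩
  have hρ0 : 0 < ρ := by rw [hρ]; exact lt_min (by linarith) (by linarith)
  have hρ1 : ρ ≤ τ / 4 := by rw [hρ]; exact min_le_left _ _
  have hρ2 : ρ ≤ ε₁ / 16 := by rw [hρ]; exact min_le_right _ _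
  obtain ⟨ε₂, θ, hε₂, hθ, n2, hproc⟩ := proc1 τ ρ hτ hτ' hρ0
  obtain ⟨ε, hε⟩ : ∃ ε : ℝ, ε = min (min ε₂ (ε₁ / 48)) (1 / 20) := ⟨_, rfl⟩
  have hε0 : 0 < ε := by
    rw [hε]
    exact lt_min (lt_min hε₂ (by linarith)) (by norm_num)
  have hε1 : ε ≤ ε₂ := by rw [hε]; exact (min_le_left _ _).trans (min_le_left _ _)
  have hε2 : ε ≤ ε₁ / 48 := by rw [hε]; exact (min_le_left _ _).trans (min_le_right _ _)
  have hε3 : ε ≤ 1 / 20 := by rw [hε]; exact min_le_right _ _
  obtain ⟨n3, hn3⟩ := exists_nat_ge (max (max (4 * (n1 : ℝ)) (60 / θ))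
    (max (480 / ε₁) (max (120 / τ) 10)))
  refine ⟨ε, hε0, max n2 n3, ?_⟩
  intro V _ _ E A0 B0 X A' B' hn hl hev h6 henv hsw
  have hnn2 : n2 ≤ Fintype.card V := (le_max_left _ _).trans hn
  have hnn3 : (n3 : ℝ) ≤ nV V := by
    rw [nV]
    exact_mod_cast (le_max_right n2 n3).trans hn
  have hb := hn3.trans hnn3
  have hb1 : 4 * (n1 : ℝ) ≤ nV V := ((le_max_left _ _).trans (le_max_left _ _)).trans hb
  have hb2 : 60 ≤ θ * nV V := by
    have := ((le_max_right _ _).trans (le_max_left _ _)).trans hb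
    rw [div_le_iff₀ hθ] at this
    linarith
  have hb3 : 30 ≤ ε₁ / 16 * nV V := by
    have := ((le_max_left _ _).trans (le_max_right _ _)).trans hb
    rw [div_le_iff₀ hε₁] at this
    linarith
  have hb4 : 30 ≤ τ / 4 * nV V := by
    have := ((le_max_left _ _).trans ((le_max_right _ _).trans (le_max_right _ _))).trans hb
    rw [div_le_iff₀ hτ] at this
    linarith
  have hb5 : (10 : ℝ) ≤ nV V :=
    ((le_max_right _ _).trans ((le_max_right _ _).trans (le_max_right _ _))).trans hb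
  have hn0 : (0 : ℝ) ≤ nV V := by linarith
  obtain ⟨A, hA⟩ : ∃ A : Finset V, A = A0 ∪ X := ⟨_, rfl⟩
  rw [← hA] at hsw
  obtain ⟨c0, c1, hsw1, hsw2⟩ := hsw
  have hdAB : Disjoint A B0 := by
    rw [hA, Finset.disjoint_union_left]
    exact ⟨henv.dAB, henv.dBX.symm⟩
  have hcov : A ∪ B0 = Finset.univ := by
    rw [hA, Finset.union_right_comm]
    exact henv.cover
  obtain ⟨Sw, hSw⟩ : ∃ Sw : Finset (Sym2 V), Sw = Finset.univ.biUnion (fun i => c0 i ∪ c1 i) :=
    ⟨_, rfl⟩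
  have hSwcard : Sw.card ≤ 60 := by
    rw [hSw]
    refine Finset.card_biUnion_le.trans ?_
    calc ∑ i : Fin 5, (c0 i ∪ c1 i).card ≤ ∑ i : Fin 5, 12 := by
          refine Finset.sum_le_sum fun i _ => ?_
          refine (Finset.card_union_le _ _).trans ?_
          rw [(hsw1 i).1.card, (hsw1 i).2.1.card]
      _ = 60 := by simp
  obtain ⟨F, hF⟩ : ∃ F : Finset (Sym2 V), F = crs E A B0 \ Sw := ⟨_, rfl⟩
  obtain ⟨H, hH⟩ : ∃ H : Finset (Sym2 V), H = (inn E A ∪ inn E B0) \ Sw := ⟨_, rfl⟩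
  have hQE : ∀ j, e1cQ c0 c1 j ⊆ E := by
    intro j e he
    rw [e1cQ, Finset.mem_biUnion] at he
    obtain ⟨i, -, hi⟩ := he
    split_ifs at hi
    · exact (hsw1 i).2.2.2.1 hi
    · exact (hsw1 i).2.2.1 hi
  have hQSw : ∀ j, e1cQ c0 c1 j ⊆ Sw := by
    intro j e he
    rw [e1cQ, Finset.mem_biUnion] at he
    obtain ⟨i, -, hi⟩ := he
    rw [hSw, Finset.mem_biUnion]
    refine ⟨i, Finset.mem_univ i, ?_⟩
    split_ifs at hi
    · exact Finset.mem_union_right _ hi
    · exact Finset.mem_union_left _ hi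
  have hcrsQ : ∀ j, ∀ e ∈ Sw, e ∉ A.sym2 → e ∉ B0.sym2 → e ∈ e1cQ c0 c1 j := by
    intro j e he h1 h2
    rw [hSw, Finset.mem_biUnion] at he
    obtain ⟨i, -, hi⟩ := he
    have h3 := (hsw1 i).2.2.2.2.1
    have h4 : e ∈ c0 i ↔ e ∈ c1 i := by
      have h5 : e ∈ crs (c0 i) A B0 ↔ e ∈ crs (c1 i) A B0 := by rw [h3]
      simp only [crs, Finset.mem_sdiff, h1, h2, not_false_eq_true, and_true] at h5
      exact h5
    rw [e1cQ, Finset.mem_biUnion]
    refine ⟨i, Finset.mem_univ i, ?_⟩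
    rw [Finset.mem_union] at hi
    split_ifs
    · rcases hi with hi | hi
      · exact h4.1 hi
      · exact hi
    · rcases hi with hi | hi
      · exact hi
      · exact h4.2 hi
  have hQDec : ∀ j, Dec (e1cQ c0 c1 j) := by
    intro j
    refine Dec.biUnion ?_ ?_
    · intro i _
      split_ifs
      · exact (hsw1 i).2.1.dec
      · exact (hsw1 i).1.dec
    · intro i _ i' _ hne
      refine Finset.disjoint_of_subset_left ?_ (Finset.disjoint_of_subset_right ?_ (hsw2 i i' hne))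
      · split_ifs
        · exact Finset.subset_union_right
        · exact Finset.subset_union_left
      · split_ifs
        · exact Finset.subset_union_right
        · exact Finset.subset_union_left
  have hQcard : ∀ j, (e1cQ c0 c1 j).card ≤ 30 := by
    intro j
    refine Finset.card_biUnion_le.trans ?_
    calc ∑ i : Fin 5, (if (i : ℕ) < j then c1 i else c0 i).card ≤ ∑ i : Fin 5, 6 := by
          refine Finset.sum_le_sum fun i _ => ?_
          split_ifs
          · rw [(hsw1 i).2.1.card]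
          · rw [(hsw1 i).1.card]
      _ = 30 := by simp
  have hFeven : Even F.card := by
    have h1 : F = crs (E \ e1cQ c0 c1 0) A B0 := by
      rw [hF]
      ext e
      simp only [crs, Finset.mem_sdiff]
      constructor
      · rintro ⟨⟨⟨h1, h2⟩, h3⟩, h4⟩
        exact ⟨⟨⟨h1, fun h => h4 (hQSw 0 h)⟩, h2⟩, h3⟩
      · rintro ⟨⟨⟨h1, h4⟩, h2⟩, h3⟩
        exact ⟨⟨⟨h1, h2⟩, h3⟩, fun h => h4 (hcrsQ 0 e h h2 h3)⟩
    rw [h1]
    exact e1c_even_crs (hl.mono Finset.sdiff_subset) (hev.sdiff (hQDec 0).even (hQE 0)) hdAB hcov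
  have hdegSw : ∀ (G : Finset (Sym2 V)), G ⊆ Sw → ∀ v, (deg G v : ℝ) ≤ θ * nV V := by
    intro G hG v
    have h1 : deg G v ≤ 60 :=
      ((Finset.card_filter_le _ _).trans (Finset.card_le_card hG)).trans hSwcard
    have h2 : (deg G v : ℝ) ≤ 60 := by exact_mod_cast h1
    linarith
  obtain ⟨D, hDdec, hFD, hDFH, hDH⟩ := hproc V E F H A0 B0 X A' B' hnn2 hl
    (e1c_env_mono henv hε1) (by rw [hF, hA]; exact Finset.sdiff_subset) hFeven
    (by rw [hH, hA]; exact Finset.sdiff_subset)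
    (by
      intro v
      refine hdegSw _ ?_ v
      rw [hH, hA]
      intro e he
      rw [Finset.mem_sdiff, Finset.mem_sdiff] at he
      by_contra h
      exact he.2 ⟨he.1, h⟩)
    (by
      intro v _
      refine hdegSw _ ?_ v
      rw [hF, hA]
      intro e he
      rw [Finset.mem_sdiff, Finset.mem_sdiff] at he
      by_contra h
      exact he.2 ⟨he.1, h⟩)
  have hDSw : Disjoint D Sw := by
    rw [Finset.disjoint_left]
    intro e he heS
    rcases Finset.mem_union.1 (hDFH he) with h | h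
    · rw [hF, Finset.mem_sdiff] at h
      exact h.2 heS
    · rw [hH, Finset.mem_sdiff] at h
      exact h.2 heS
  have hDE : D ⊆ E := by
    intro e he
    rcases Finset.mem_union.1 (hDFH he) with h | h
    · rw [hF, Finset.mem_sdiff, crs, Finset.mem_sdiff, Finset.mem_sdiff] at h
      exact h.1.1.1
    · rw [hH, Finset.mem_sdiff, Finset.mem_union, inn, inn, Finset.mem_inter,
        Finset.mem_inter] at h
      rcases h.1 with h | h
      · exact h.1
      · exact h.1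
  have hDQ : ∀ j, Disjoint D (e1cQ c0 c1 j) := fun j =>
    Finset.disjoint_of_subset_right (hQSw j) hDSw
  -- the choice of `j`
  obtain ⟨j, hj⟩ : ∃ j : ℕ, j = (inn ((E \ D) \ e1cQ c0 c1 0) A).card % 6 := ⟨_, rfl⟩
  have hj5 : j ≤ 5 := by omega
  obtain ⟨Q, hQ⟩ : ∃ Q : Finset (Sym2 V), Q = e1cQ c0 c1 j := ⟨_, rfl⟩
  have hcA : 6 ∣ (inn ((E \ D) \ Q) A).card := by
    have h1 := e1c_card_inn (A := A) hDE (hQE j) (hDQ j)
    have h2 := e1c_card_inn (A := A) hDE (hQE 0) (hDQ 0)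
    have h3 := e1c_card_Q_inn (A := A) (fun i => (hsw1 i).2.2.2.2.2) hsw2 j hj5
    rw [hQ]
    omega
  have hcrG : ∀ e ∈ (E \ D) \ Q, e ∈ A.sym2 ∨ e ∈ B0.sym2 := by
    intro e he
    rw [Finset.mem_sdiff, Finset.mem_sdiff] at he
    by_contra h
    rw [not_or] at h
    by_cases hS : e ∈ Sw
    · refine he.2 ?_
      rw [hQ]
      exact hcrsQ j e hS h.1 h.2
    · refine he.1.2 (hFD ?_)
      rw [hF, Finset.mem_sdiff, crs, Finset.mem_sdiff, Finset.mem_sdiff]
      exact ⟨⟨⟨he.1.1, h.1⟩, h.2⟩, hS⟩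
  have hQsub : Q ⊆ E \ D := by
    intro e he
    rw [Finset.mem_sdiff]
    rw [hQ] at he
    exact ⟨hQE j he, fun h => (Finset.disjoint_left.1 (hDQ j)) h he⟩
  have hQDec' : Dec Q := by rw [hQ]; exact hQDec j
  have hevG : EvenDeg ((E \ D) \ Q) := (hev.sdiff hDdec.even hDE).sdiff hQDec'.even hQsub
  have hGsplit : (E \ D) \ Q = inn ((E \ D) \ Q) A ∪ inn ((E \ D) \ Q) B0 := by
    ext e
    rw [Finset.mem_union, inn, inn, Finset.mem_inter, Finset.mem_inter]
    constructor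
    · intro he
      rcases hcrG e he with h | h
      · exact Or.inl ⟨he, h⟩
      · exact Or.inr ⟨he, h⟩
    · rintro (h | h)
      · exact h.1
      · exact h.1
  have hGdisj : Disjoint (inn ((E \ D) \ Q) A) (inn ((E \ D) \ Q) B0) := by
    rw [Finset.disjoint_left]
    intro e he he'
    rw [inn, Finset.mem_inter] at he he'
    induction e using Sym2.ind with
    | _ a b =>
      rw [Finset.mk_mem_sym2_iff] at he he'
      exact (Finset.disjoint_left.1 hdAB) he.2.1 he'.2.1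
  have hcG : 6 ∣ ((E \ D) \ Q).card := by
    have h1 : ((E \ D) \ Q).card + Q.card = (E \ D).card := by
      rw [← Finset.card_union_of_disjoint Finset.sdiff_disjoint, Finset.sdiff_union_of_subset hQsub]
    have h2 : (E \ D).card + D.card = E.card := by
      rw [← Finset.card_union_of_disjoint Finset.sdiff_disjoint, Finset.sdiff_union_of_subset hDE]
    have h3 := hDdec.six_dvd
    have h4 := hQDec'.six_dvd
    omega
  have hcB : 6 ∣ (inn ((E \ D) \ Q) B0).card := by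
    have h1 : ((E \ D) \ Q).card = (inn ((E \ D) \ Q) A).card + (inn ((E \ D) \ Q) B0).card := by
      conv_lhs => rw [hGsplit]
      exact Finset.card_union_of_disjoint hGdisj
    omega
  -- sizes
  have hA'A : A' ⊆ A := by rw [hA]; exact henv.subA.trans Finset.subset_union_left
  have hsA := henv.sizeA
  have hsB := henv.sizeB
  have hA'le : (A'.card : ℝ) ≤ A.card := by exact_mod_cast Finset.card_le_card hA'A
  have hB'le : (B'.card : ℝ) ≤ B0.card := by exact_mod_cast Finset.card_le_card henv.subB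
  have hcardAB : (A.card : ℝ) + B0.card = nV V := by
    have h1 : (A ∪ B0).card = A.card + B0.card := Finset.card_union_of_disjoint hdAB
    rw [hcov, Finset.card_univ] at h1
    rw [nV, h1]
    push_cast
    ring
  have hεn : ε * nV V ≤ 1 / 20 * nV V := mul_le_mul_of_nonneg_right hε3 hn0
  have hτn : τ * nV V ≤ 1 / 20 * nV V := mul_le_mul_of_nonneg_right hτ' hn0
  have hdsum : ∀ u, deg E u = dg E A u + dg E B0 u := by
    intro u
    have h1 : deg E u = dg E Finset.univ u := deg_eq_dg (by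
      intro e _
      rw [Finset.mem_sym2_iff]
      intro x _
      exact Finset.mem_univ x) u
    rw [h1, ← hcov]
    unfold dg
    rw [Finset.filter_union, Finset.card_union_of_disjoint
      (Finset.disjoint_filter_filter hdAB)]
  have hdsub : ∀ (T T' : Finset V), T' ⊆ T → ∀ u, (dg E T u : ℝ) ≤ dg E T' u + (T.card - T'.card) := by
    intro T T' hT u
    have h1 : dg E T u ≤ dg E T' u + (T \ T').card := by
      unfold dg
      refine le_trans (Finset.card_le_card ?_) (Finset.card_union_le _ _)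
      intro y hy
      rw [Finset.mem_filter] at hy
      rw [Finset.mem_union, Finset.mem_filter, Finset.mem_sdiff]
      by_cases h : y ∈ T'
      · exact Or.inl ⟨h, hy.2⟩
      · exact Or.inr ⟨hy.1, h⟩
    have h2 : ((T \ T').card : ℝ) = T.card - T'.card := by
      rw [Finset.card_sdiff_of_subset hT, Nat.cast_sub (Finset.card_le_card hT)]
    have h3 : (dg E T u : ℝ) ≤ dg E T' u + (T \ T').card := by exact_mod_cast h1
    linarith
  have hmd : ∀ u, nV V ≤ 2 * ((dg E A u : ℝ) + dg E B0 u) + 1 := by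
    intro u
    have h1 := henv.mindeg u
    rw [hdsum u] at h1
    rw [nV]
    exact_mod_cast h1
  have hlowA : ∀ u ∈ A, τ * nV V ≤ (dg E A u : ℝ) := by
    intro u hu
    rw [hA, Finset.mem_union] at hu
    rcases hu with hu | hu
    · have h1 := henv.tA u hu
      have h2 := hdsub B0 B' henv.subB u
      have h3 := hmd u
      nlinarith
    · have h1 := (henv.mX u hu).1
      have h2 : (dg E A' u : ℝ) ≤ dg E A u := by exact_mod_cast dg_mono_right E hA'A u
      linarith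
  have hlowB : ∀ u ∈ B0, τ * nV V ≤ (dg E B0 u : ℝ) := by
    intro u hu
    have h1 := henv.tB u hu
    have h2 := hdsub A A' hA'A u
    have h3 := hmd u
    nlinarith
  have hFA : ∀ e ∈ F, e ∉ A.sym2 := by
    intro e he
    rw [hF, Finset.mem_sdiff, crs, Finset.mem_sdiff, Finset.mem_sdiff] at he
    exact he.1.1.2
  have hFB : ∀ e ∈ F, e ∉ B0.sym2 := by
    intro e he
    rw [hF, Finset.mem_sdiff, crs, Finset.mem_sdiff, Finset.mem_sdiff] at he
    exact he.1.2
  have hdA : Dec (inn ((E \ D) \ Q) A) :=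
    e1c_half hnct rfl hτ hε2 (by linarith) hε₁ hρ2 hρ1 (by linarith) hb3 hb4 hdAB hcov hA'A
      hDFH hFA hl hcrG hevG hcA (by rw [hQ]; exact hQcard j) hDH hsA (hsB.trans hB'le) henv.nA hlowA
  have hdB : Dec (inn ((E \ D) \ Q) B0) :=
    e1c_half hnct rfl hτ hε2 (by linarith) hε₁ hρ2 hρ1 (by linarith) hb3 hb4 hdAB.symm
      (by rw [Finset.union_comm]; exact hcov) henv.subB
      hDFH hFB hl (fun e he => (hcrG e he).symm) hevG hcB (by rw [hQ]; exact hQcard j) hDH hsB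
      (hsA.trans hA'le) henv.nB hlowB
  have hG : Dec ((E \ D) \ Q) := by
    rw [hGsplit]
    exact hdA.union hdB hGdisj
  have hED : Dec (E \ D) := by
    rw [← Finset.sdiff_union_of_subset hQsub]
    exact hG.union hQDec' Finset.sdiff_disjoint
  rw [← Finset.sdiff_union_of_subset hDE]
  exact hED.union hDdec Finset.sdiff_disjoint

end H15C6
end S_E1C

section S_E1T1
/-!
Module E1T1 (part of E1T).  Extremal case 1: existence of five switches.  `A := A0 ∪ X`, `n = |V|`.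
All auxiliary vertices are chosen in `A'`, `B'` (private, outside everything chosen before; every vertex of
`A'` is adjacent to all but `ε n` vertices of `A'`, etc.).

`sw_T1`: every vertex of `A0` has a neighbour in `B0`.  Choose greedily, for `i = 0..4`, `a, a' ∈ A'` adjacent with
neighbours `b ≠ b'` in `B0` (each `b ∈ B0` has at most `(τ + 2ε) n` neighbours in `A0`, so given `a, b` there is `a'`
among the `≥ (1/2 - 2ε) n` neighbours of `a` in `A'` not adjacent to `b`), all ten `a`'s distinct.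
`c0 = a b c c' b' a'` (path `b c c' b'`, inner edges of `A`: only `a'a`: 1), `c1 = a b c'' b' a' d` (2 inner edges of
`A`); all `c, c', c'', d` private.
`sw_T1'`: every vertex of `B0` has a neighbour in `A0`.  Symmetric choice of adjacent `b, b' ∈ B'` with
neighbours `a ≠ a'` in `A0`: `c0 = a b c b' a' d` (inner edges of `A`: 2), `c1 = b a d d' a' b'` with `b'b` an edge
(inner edges of `A`: 3).
`sw_T2`: `x ∈ X` with `dg E A' x, dg E B' x ≥ 3τ n` and at least five edges `s(a_i,b_i)` between `A0` and `B0`.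
For each choose private `b' ∈ B'` adjacent to `x` and to `b_i` (possible: `b_i` misses at most `(τ+4ε) n` vertices of
`B'`).  `c0 = a_i b_i c b' x d` (`c` common neighbour of `b_i, b'`; `d` common neighbour of `x, a_i`; inner edges of
`A`: 2), `c1 = a_i b_i b' x d' d''` (path `x d' d'' a_i`; inner edges of `A`: 3).
`sw_T3`: `x ≠ x' ∈ X` with at least `τ n` common neighbours in `A'`.  Five times: private `b, b' ∈ B'` with `x b`, `b b'`,
`b' x'` edges; `c0 = x b c b' x' d` (`d` common neighbour of `x, x'` in `A'`; inner: 2),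
`c1 = x b b' x' d' d''` (path of length three from `x'` to `x`; inner: 3).
-/

open Finset

namespace H15C6

theorem e1t1_greedy {V α : Type} [DecidableEq V] (sup : α → Finset V) (s N k : ℕ)
    (P : ℕ → α → Prop) (hs : ∀ i x, P i x → (sup x).card ≤ s) (G : Finset V)
    (hN : G.card + k * s ≤ N) (hne : Nonempty α)
    (h : ∀ i, i < k → ∀ F : Finset V, F.card ≤ N → ∃ x, P i x ∧ Disjoint (sup x) F) :
    ∃ x : ℕ → α, ∀ i, i < k → P i (x i) ∧ Disjoint (sup (x i)) G ∧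
      ∀ j, j < i → Disjoint (sup (x i)) (sup (x j)) := by
  suffices H : ∀ l, l ≤ k → ∃ x : ℕ → α, ∀ i, i < l → P i (x i) ∧ Disjoint (sup (x i)) G ∧
      ∀ j, j < i → Disjoint (sup (x i)) (sup (x j)) from H k le_rfl
  intro l
  induction l with
  | zero => intro _; exact ⟨fun _ => Classical.choice hne, fun i hi => absurd hi (by omega)⟩
  | succ l ih =>
    intro hl
    obtain ⟨x, hx⟩ := ih (by omega)
    have hU : ((Finset.range l).biUnion (fun i => sup (x i))).card ≤ l * s := by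
      refine Finset.card_biUnion_le_card_mul _ _ _ ?_ |>.trans (by rw [Finset.card_range])
      intro i hi
      exact hs i _ (hx i (Finset.mem_range.1 hi)).1
    have hls : l * s ≤ k * s := Nat.mul_le_mul_right s (by omega)
    obtain ⟨y, hy, hyd⟩ := h l (by omega) (G ∪ (Finset.range l).biUnion (fun i => sup (x i)))
      ((Finset.card_union_le _ _).trans (by omega))
    rw [Finset.disjoint_union_right, Finset.disjoint_biUnion_right] at hyd
    refine ⟨fun i => if i < l then x i else y, fun i hi => ?_⟩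
    rcases Nat.lt_or_ge i l with hil | hil
    · obtain ⟨h1, h2, h3⟩ := hx i hil
      simp only [if_pos hil]
      refine ⟨h1, h2, fun j hj => ?_⟩
      rw [if_pos (hj.trans hil)]
      exact h3 j hj
    · have hie : i = l := by omega
      subst hie
      simp only [lt_irrefl, if_false]
      refine ⟨hy, hyd.1, fun j hj => ?_⟩
      rw [if_pos hj]
      exact hyd.2 j (Finset.mem_range.2 hj)

/-- the facts about the environment which are used -/
structure E1t1Half {V : Type} [DecidableEq V] (E : Finset (Sym2 V)) (A0 A' B0 B' : Finset V) :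
    Prop where
  subA : A' ⊆ A0
  subB : B' ⊆ B0
  dis : Disjoint A0 B0
  ha : ∀ F : Finset V, F.card ≤ 60 → ∃ z ∈ A', z ∉ F
  ca : ∀ x ∈ A0, ∀ y ∈ A0, ∀ F : Finset V, F.card ≤ 60 →
    ∃ z ∈ A', z ∉ F ∧ s(x, z) ∈ E ∧ s(z, y) ∈ E
  cb : ∀ x ∈ B0, ∀ y ∈ B0, ∀ F : Finset V, F.card ≤ 60 →
    ∃ z ∈ B', z ∉ F ∧ s(x, z) ∈ E ∧ s(z, y) ∈ E
  da : ∀ x ∈ A0, ∀ y ∈ B0, ∀ F : Finset V, F.card ≤ 60 →
    ∃ z ∈ A', z ∉ F ∧ s(x, z) ∈ E ∧ s(y, z) ∉ E

/-- a configuration: two six-cycles `x y c c' y' x'` and `x y c'' y' x' d` -/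
structure E1t1Cfg {V : Type} [DecidableEq V] (E : Finset (Sym2 V)) (A0 B0 : Finset V)
    (x y x' y' c c' c'' d : V) : Prop where
  hx : x ∈ A0
  hy : y ∈ B0
  hx' : x' ∈ A0
  hy' : y' ∈ B0
  hc : c ∈ B0
  hc' : c' ∈ B0
  hc'' : c'' ∈ B0
  hd : d ∈ A0
  xy : s(x, y) ∈ E
  yc : s(y, c) ∈ E
  cc : s(c, c') ∈ E
  cy : s(c', y') ∈ E
  yx : s(y', x') ∈ E
  xx : s(x', x) ∈ E
  yc2 : s(y, c'') ∈ E
  cy2 : s(c'', y') ∈ E
  xd : s(x', d) ∈ E
  dx : s(d, x) ∈ E
  n1 : x ≠ x'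
  n2 : y ≠ y'
  n3 : c ≠ c'
  n4 : c ≠ y
  n5 : c ≠ y'
  n6 : c' ≠ y
  n7 : c' ≠ y'
  n8 : c'' ≠ y
  n9 : c'' ≠ y'
  n10 : d ≠ x
  n11 : d ≠ x'

theorem e1t1_cfgs {V : Type} [DecidableEq V] {E : Finset (Sym2 V)} {A0 A' B0 B' : Finset V}
    (hH : E1t1Half E A0 A' B0 B') (hl : Loopless E) (hnb : ∀ a ∈ A0, ∃ b ∈ B0, s(a, b) ∈ E) :
    ∃ x y x' y' c c' c'' d : ℕ → V,
      (∀ i, i < 5 → E1t1Cfg E A0 B0 (x i) (y i) (x' i) (y' i) (c i) (c' i) (c'' i) (d i)) ∧
      (∀ i j, i < 5 → j < i →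
        Disjoint ({x i, x' i, c i, c' i, c'' i, d i} : Finset V)
          {x j, x' j, c j, c' j, c'' j, d j, y j, y' j}) := by
  obtain ⟨v0, _, _⟩ := hH.ha ∅ (by simp)
  obtain ⟨t, ht⟩ := e1t1_greedy (α := V × V × V × V) (fun t => {t.1, t.2.2.1}) 2 10 5
    (fun _ t => (t.1 ∈ A' ∧ t.2.1 ∈ B0 ∧ t.2.2.1 ∈ A' ∧ t.2.2.2 ∈ B0) ∧ s(t.1, t.2.1) ∈ E ∧
      s(t.2.2.1, t.2.2.2) ∈ E ∧ s(t.1, t.2.2.1) ∈ E ∧ t.2.1 ≠ t.2.2.2)
    (fun _ t _ => Finset.card_le_two) ∅ (by simp) ⟨(v0, v0, v0, v0)⟩ (by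
      intro _ _ F hF
      obtain ⟨x, hx, hxF⟩ := hH.ha F (by omega)
      obtain ⟨y, hy, hxy⟩ := hnb x (hH.subA hx)
      obtain ⟨x', hx', hxF', hxx, hyx⟩ := hH.da x (hH.subA hx) y hy F (by omega)
      obtain ⟨y', hy', hxy'⟩ := hnb x' (hH.subA hx')
      have hyy : y ≠ y' := by
        intro hyy
        rw [← hyy, Sym2.eq_swap] at hxy'
        exact hyx hxy'
      refine ⟨(x, y, x', y'), ⟨⟨hx, hy, hx', hy'⟩, hxy, hxy', hxx, hyy⟩, ?_⟩
      rw [Finset.disjoint_left]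
      intro z hz
      simp only [Finset.mem_insert, Finset.mem_singleton] at hz
      rcases hz with rfl | rfl
      · exact hxF
      · exact hxF')
  obtain ⟨r, hr⟩ := e1t1_greedy (α := V × V × V × V)
    (fun r => {r.1, r.2.1, r.2.2.1, r.2.2.2}) 4 40 5
    (fun i r => (r.1 ∈ B' ∧ r.2.1 ∈ B' ∧ r.2.2.1 ∈ B' ∧ r.2.2.2 ∈ A') ∧
      (s((t i).2.1, r.1) ∈ E ∧ s(r.1, r.2.1) ∈ E ∧ s(r.2.1, (t i).2.2.2) ∈ E) ∧
      (s((t i).2.1, r.2.2.1) ∈ E ∧ s(r.2.2.1, (t i).2.2.2) ∈ E) ∧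
      (s((t i).2.2.1, r.2.2.2) ∈ E ∧ s(r.2.2.2, (t i).1) ∈ E))
    (fun _ r _ => Finset.card_le_four)
    ((Finset.range 5).biUnion (fun i => {(t i).1, (t i).2.1, (t i).2.2.1, (t i).2.2.2})) (by
      have h1 : ((Finset.range 5).biUnion (fun i =>
          ({(t i).1, (t i).2.1, (t i).2.2.1, (t i).2.2.2} : Finset V))).card ≤ 5 * 4 := by
        refine Finset.card_biUnion_le_card_mul _ _ _ (fun i _ => Finset.card_le_four) |>.trans ?_
        rw [Finset.card_range]
      omega) ⟨(v0, v0, v0, v0)⟩ (by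
      intro i hi F hF
      obtain ⟨⟨⟨h1, h2, h3, h4⟩, h5, h6, h7, h8⟩, -, -⟩ := ht i hi
      obtain ⟨c, hc, hcF, hc1, hc2⟩ := hH.cb _ h2 _ h2 F (by omega)
      obtain ⟨c', hc', hcF', hc1', hc2'⟩ := hH.cb c (hH.subB hc) _ h4 F (by omega)
      obtain ⟨c'', hc'', hcF'', hc1'', hc2''⟩ := hH.cb _ h2 _ h4 F (by omega)
      obtain ⟨d, hd, hdF, hd1, hd2⟩ := hH.ca _ (hH.subA h3) _ (hH.subA h1) F (by omega)
      refine ⟨(c, c', c'', d), ⟨⟨hc, hc', hc'', hd⟩, ⟨hc1, hc1', hc2'⟩, ⟨hc1'', hc2''⟩, hd1, hd2⟩,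
        ?_⟩
      rw [Finset.disjoint_left]
      intro z hz
      simp only [Finset.mem_insert, Finset.mem_singleton] at hz
      rcases hz with rfl | rfl | rfl | rfl <;> assumption)
  -- the second family avoids the first
  have hG : ∀ i, i < 5 → ∀ j, j < 5 → ∀ z, (z = (t j).1 ∨ z = (t j).2.1 ∨ z = (t j).2.2.1 ∨
      z = (t j).2.2.2) → z ≠ (r i).1 ∧ z ≠ (r i).2.1 ∧ z ≠ (r i).2.2.1 ∧ z ≠ (r i).2.2.2 := by
    intro i hi j hj z hz
    have h1 := (hr i hi).2.1
    rw [Finset.disjoint_left] at h1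
    have h2 : z ∈ (Finset.range 5).biUnion (fun i =>
        ({(t i).1, (t i).2.1, (t i).2.2.1, (t i).2.2.2} : Finset V)) := by
      rw [Finset.mem_biUnion]
      refine ⟨j, Finset.mem_range.2 hj, ?_⟩
      simp only [Finset.mem_insert, Finset.mem_singleton]
      exact hz
    refine ⟨?_, ?_, ?_, ?_⟩ <;> rintro rfl <;> exact h1 (by simp) h2
  refine ⟨fun i => (t i).1, fun i => (t i).2.1, fun i => (t i).2.2.1, fun i => (t i).2.2.2,
    fun i => (r i).1, fun i => (r i).2.1, fun i => (r i).2.2.1, fun i => (r i).2.2.2, ?_, ?_⟩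
  · intro i hi
    obtain ⟨⟨⟨h1, h2, h3, h4⟩, h5, h6, h7, h8⟩, -, -⟩ := ht i hi
    obtain ⟨⟨⟨k1, k2, k3, k4⟩, ⟨k5, k6, k7⟩, ⟨k8, k9⟩, k10, k11⟩, -, -⟩ := hr i hi
    have g1 := hG i hi i hi (t i).1 (Or.inl rfl)
    have g2 := hG i hi i hi (t i).2.1 (Or.inr (Or.inl rfl))
    have g3 := hG i hi i hi (t i).2.2.1 (Or.inr (Or.inr (Or.inl rfl)))
    have g4 := hG i hi i hi (t i).2.2.2 (Or.inr (Or.inr (Or.inr rfl)))
    exact ⟨hH.subA h1, h2, hH.subA h3, h4, hH.subB k1, hH.subB k2, hH.subB k3, hH.subA k4, h5,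
      k5, k6, k7, by rw [Sym2.eq_swap]; exact h6, by rw [Sym2.eq_swap]; exact h7, k8, k9, k10, k11,
      hl.ne h7, h8, hl.ne k6, g2.1.symm, g4.1.symm, g2.2.1.symm, g4.2.1.symm, g2.2.2.1.symm,
      g4.2.2.1.symm, g1.2.2.2.symm, g3.2.2.2.symm⟩
  · intro i j hi hj
    have hj5 : j < 5 := by omega
    obtain ⟨⟨⟨h1, h2, h3, h4⟩, h5, h6, h7, h8⟩, -, hd1⟩ := ht i hi
    obtain ⟨⟨⟨k1, k2, k3, k4⟩, ⟨k5, k6, k7⟩, ⟨k8, k9⟩, k10, k11⟩, -, hd2⟩ := hr i hi
    obtain ⟨⟨⟨m1, m2, m3, m4⟩, -⟩, -, -⟩ := ht j hj5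
    have hd1' := hd1 j hj
    have hd2' := hd2 j hj
    rw [Finset.disjoint_left] at hd1' hd2' ⊢
    simp only [Finset.mem_insert, Finset.mem_singleton] at hd1' hd2' ⊢
    have hAB : ∀ z, z ∈ A' → z ∈ B0 → False := fun z hz hz' =>
      Finset.disjoint_left.1 hH.dis (hH.subA hz) hz'
    intro z hz hz'
    have q1 : (z = (t i).1 ∨ z = (t i).2.2.1) ∨ (z = (r i).1 ∨ z = (r i).2.1 ∨ z = (r i).2.2.1 ∨
        z = (r i).2.2.2) := by
      rcases hz with h | h | h | h | h | h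
      · exact Or.inl (Or.inl h)
      · exact Or.inl (Or.inr h)
      · exact Or.inr (Or.inl h)
      · exact Or.inr (Or.inr (Or.inl h))
      · exact Or.inr (Or.inr (Or.inr (Or.inl h)))
      · exact Or.inr (Or.inr (Or.inr (Or.inr h)))
    have q2 : (z = (t j).1 ∨ z = (t j).2.2.1) ∨ (z = (r j).1 ∨ z = (r j).2.1 ∨ z = (r j).2.2.1 ∨
        z = (r j).2.2.2) ∨ (z = (t j).2.1 ∨ z = (t j).2.2.2) := by
      rcases hz' with h | h | h | h | h | h | h | h
      · exact Or.inl (Or.inl h)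
      · exact Or.inl (Or.inr h)
      · exact Or.inr (Or.inl (Or.inl h))
      · exact Or.inr (Or.inl (Or.inr (Or.inl h)))
      · exact Or.inr (Or.inl (Or.inr (Or.inr (Or.inl h))))
      · exact Or.inr (Or.inl (Or.inr (Or.inr (Or.inr h))))
      · exact Or.inr (Or.inr (Or.inl h))
      · exact Or.inr (Or.inr (Or.inr h))
    clear hz hz'
    have hno : ∀ {i}, (z ≠ (r i).1 ∧ z ≠ (r i).2.1 ∧ z ≠ (r i).2.2.1 ∧ z ≠ (r i).2.2.2) →
        (z = (r i).1 ∨ z = (r i).2.1 ∨ z = (r i).2.2.1 ∨ z = (r i).2.2.2) → False := by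
      rintro i ⟨g1, g2, g3, g4⟩ (h | h | h | h)
      · exact g1 h
      · exact g2 h
      · exact g3 h
      · exact g4 h
    rcases q1 with q1 | q1
    · have hzA : z ∈ A' := by
        rcases q1 with h | h
        · rw [h]; exact h1
        · rw [h]; exact h3
      rcases q2 with q2 | q2 | q2
      · exact hd1' q1 q2
      · refine hno (hG j hj5 i hi z ?_) q2
        rcases q1 with h | h
        · exact Or.inl h
        · exact Or.inr (Or.inr (Or.inl h))
      · rcases q2 with q2 | q2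
        · exact hAB z hzA (q2 ▸ m2)
        · exact hAB z hzA (q2 ▸ m4)
    · rcases q2 with q2 | q2 | q2
      · refine hno (hG i hi j hj5 z ?_) q1
        rcases q2 with h | h
        · exact Or.inl h
        · exact Or.inr (Or.inr (Or.inl h))
      · exact hd2' q1 q2
      · refine hno (hG i hi j hj5 z ?_) q1
        rcases q2 with h | h
        · exact Or.inr (Or.inl h)
        · exact Or.inr (Or.inr (Or.inr h))

theorem e1t1_inj {V : Type} {a b c d e f : V} (h1 : a ≠ b) (h2 : a ≠ c) (h3 : a ≠ d) (h4 : a ≠ e)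
    (h5 : a ≠ f) (h6 : b ≠ c) (h7 : b ≠ d) (h8 : b ≠ e) (h9 : b ≠ f) (h10 : c ≠ d) (h11 : c ≠ e)
    (h12 : c ≠ f) (h13 : d ≠ e) (h14 : d ≠ f) (h15 : e ≠ f) :
    Function.Injective (![a, b, c, d, e, f] : Fin 6 → V) := by
  intro i j hij
  fin_cases i <;> fin_cases j <;>
    first
    | rfl
    | exact absurd hij h1
    | exact absurd hij.symm h1
    | exact absurd hij h2
    | exact absurd hij.symm h2
    | exact absurd hij h3
    | exact absurd hij.symm h3
    | exact absurd hij h4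
    | exact absurd hij.symm h4
    | exact absurd hij h5
    | exact absurd hij.symm h5
    | exact absurd hij h6
    | exact absurd hij.symm h6
    | exact absurd hij h7
    | exact absurd hij.symm h7
    | exact absurd hij h8
    | exact absurd hij.symm h8
    | exact absurd hij h9
    | exact absurd hij.symm h9
    | exact absurd hij h10
    | exact absurd hij.symm h10
    | exact absurd hij h11
    | exact absurd hij.symm h11
    | exact absurd hij h12
    | exact absurd hij.symm h12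
    | exact absurd hij h13
    | exact absurd hij.symm h13
    | exact absurd hij h14
    | exact absurd hij.symm h14
    | exact absurd hij h15
    | exact absurd hij.symm h15

theorem e1t1_inn {V : Type} [DecidableEq V] {v : Fin 6 → V} (hv : Function.Injective v)
    (A : Finset V) (T : Finset (Fin 6)) (hT : ∀ i, i ∈ T ↔ (v i ∈ A ∧ v (i + 1) ∈ A)) :
    (inn (cyc v) A).card = T.card := by
  have h1 : inn (cyc v) A = T.image (fun i : Fin 6 => s(v i, v (i + 1))) := by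
    ext e
    unfold inn
    rw [Finset.mem_inter, mem_cyc, Finset.mem_image]
    constructor
    · rintro ⟨⟨i, rfl⟩, h⟩
      rw [Finset.mk_mem_sym2_iff] at h
      exact ⟨i, (hT i).2 h, rfl⟩
    · rintro ⟨i, hi, rfl⟩
      refine ⟨⟨i, rfl⟩, ?_⟩
      rw [Finset.mk_mem_sym2_iff]
      exact (hT i).1 hi
  rw [h1, Finset.card_image_of_injective _ (cyc_inj hv)]

theorem e1t1_crs {V : Type} [DecidableEq V] (v : Fin 6 → V)
    (A B : Finset V) (T : Finset (Fin 6)) (hT : ∀ i, i ∈ T ↔ (¬ (v i ∈ A ∧ v (i + 1) ∈ A) ∧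
      ¬ (v i ∈ B ∧ v (i + 1) ∈ B))) :
    crs (cyc v) A B = T.image (fun i : Fin 6 => s(v i, v (i + 1))) := by
  ext e
  unfold crs
  rw [Finset.mem_sdiff, Finset.mem_sdiff, mem_cyc, Finset.mem_image]
  constructor
  · rintro ⟨⟨⟨i, rfl⟩, h⟩, h'⟩
    rw [Finset.mk_mem_sym2_iff] at h h'
    exact ⟨i, (hT i).2 ⟨h, h'⟩, rfl⟩
  · rintro ⟨i, hi, rfl⟩
    refine ⟨⟨⟨i, rfl⟩, ?_⟩, ?_⟩
    · rw [Finset.mk_mem_sym2_iff]
      exact ((hT i).1 hi).1
    · rw [Finset.mk_mem_sym2_iff]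
      exact ((hT i).1 hi).2

theorem e1t1_six {p : Fin 6 → Prop} (h0 : p 0) (h1 : p 1) (h2 : p 2) (h3 : p 3) (h4 : p 4)
    (h5 : p 5) : ∀ i, p i := by
  intro i
  fin_cases i
  · exact h0
  · exact h1
  · exact h2
  · exact h3
  · exact h4
  · exact h5

section Cfg

variable {V : Type} [DecidableEq V] {E : Finset (Sym2 V)} {A0 B0 : Finset V}
  {x y x' y' c c' c'' d : V}

theorem E1t1Cfg.ne (h : E1t1Cfg E A0 B0 x y x' y' c c' c'' d) (hd : Disjoint A0 B0) :
    ∀ a ∈ A0, ∀ b ∈ B0, a ≠ b := by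
  rintro a ha b hb rfl
  exact Finset.disjoint_left.1 hd ha hb

theorem E1t1Cfg.inj0 (h : E1t1Cfg E A0 B0 x y x' y' c c' c'' d) (hd : Disjoint A0 B0) :
    Function.Injective (![x, y, c, c', y', x'] : Fin 6 → V) := by
  have hne := h.ne hd
  exact e1t1_inj (hne x h.hx y h.hy) (hne x h.hx c h.hc) (hne x h.hx c' h.hc')
    (hne x h.hx y' h.hy') h.n1 h.n4.symm h.n6.symm h.n2 (hne x' h.hx' y h.hy).symm h.n3 h.n5
    (hne x' h.hx' c h.hc).symm h.n7 (hne x' h.hx' c' h.hc').symm (hne x' h.hx' y' h.hy').symm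

theorem E1t1Cfg.inj1 (h : E1t1Cfg E A0 B0 x y x' y' c c' c'' d) (hd : Disjoint A0 B0) :
    Function.Injective (![x, y, c'', y', x', d] : Fin 6 → V) := by
  have hne := h.ne hd
  exact e1t1_inj (hne x h.hx y h.hy) (hne x h.hx c'' h.hc'') (hne x h.hx y' h.hy') h.n1
    h.n10.symm h.n8.symm h.n2 (hne x' h.hx' y h.hy).symm (hne d h.hd y h.hy).symm h.n9
    (hne x' h.hx' c'' h.hc'').symm (hne d h.hd c'' h.hc'').symm (hne x' h.hx' y' h.hy').symm
    (hne d h.hd y' h.hy').symm h.n11.symm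

theorem E1t1Cfg.sub0 (h : E1t1Cfg E A0 B0 x y x' y' c c' c'' d) :
    cyc ![x, y, c, c', y', x'] ⊆ E := by
  intro e he
  rw [mem_cyc] at he
  obtain ⟨i, rfl⟩ := he
  exact e1t1_six (p := fun i : Fin 6 => s((![x, y, c, c', y', x'] : Fin 6 → V) i,
    (![x, y, c, c', y', x'] : Fin 6 → V) (i + 1)) ∈ E) h.xy h.yc h.cc h.cy h.yx h.xx i

theorem E1t1Cfg.sub1 (h : E1t1Cfg E A0 B0 x y x' y' c c' c'' d) :
    cyc ![x, y, c'', y', x', d] ⊆ E := by
  intro e he
  rw [mem_cyc] at he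
  obtain ⟨i, rfl⟩ := he
  exact e1t1_six (p := fun i : Fin 6 => s((![x, y, c'', y', x', d] : Fin 6 → V) i,
    (![x, y, c'', y', x', d] : Fin 6 → V) (i + 1)) ∈ E) h.xy h.yc2 h.cy2 h.yx h.xd h.dx i

/-- all edges contain a private vertex -/
theorem E1t1Cfg.priv (h : E1t1Cfg E A0 B0 x y x' y' c c' c'' d) {e : Sym2 V}
    (he : e ∈ cyc ![x, y, c, c', y', x'] ∪ cyc ![x, y, c'', y', x', d]) :
    ∃ z ∈ e, z ∈ ({x, x', c, c', c'', d} : Finset V) := by
  rw [Finset.mem_union, mem_cyc, mem_cyc] at he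
  rcases he with ⟨i, rfl⟩ | ⟨i, rfl⟩
  · exact e1t1_six (p := fun i : Fin 6 => ∃ z ∈ s((![x, y, c, c', y', x'] : Fin 6 → V) i,
      (![x, y, c, c', y', x'] : Fin 6 → V) (i + 1)), z ∈ ({x, x', c, c', c'', d} : Finset V))
      ⟨x, Sym2.mem_mk_left _ _, by simp⟩ ⟨c, Sym2.mem_mk_right _ _, by simp⟩
      ⟨c, Sym2.mem_mk_left _ _, by simp⟩ ⟨c', Sym2.mem_mk_left _ _, by simp⟩
      ⟨x', Sym2.mem_mk_right _ _, by simp⟩ ⟨x, Sym2.mem_mk_right _ _, by simp⟩ i
  · exact e1t1_six (p := fun i : Fin 6 => ∃ z ∈ s((![x, y, c'', y', x', d] : Fin 6 → V) i,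
      (![x, y, c'', y', x', d] : Fin 6 → V) (i + 1)), z ∈ ({x, x', c, c', c'', d} : Finset V))
      ⟨x, Sym2.mem_mk_left _ _, by simp⟩ ⟨c'', Sym2.mem_mk_right _ _, by simp⟩
      ⟨c'', Sym2.mem_mk_left _ _, by simp⟩ ⟨x', Sym2.mem_mk_right _ _, by simp⟩
      ⟨x', Sym2.mem_mk_left _ _, by simp⟩ ⟨x, Sym2.mem_mk_right _ _, by simp⟩ i

theorem E1t1Cfg.all (h : E1t1Cfg E A0 B0 x y x' y' c c' c'' d) {e : Sym2 V}
    (he : e ∈ cyc ![x, y, c, c', y', x'] ∪ cyc ![x, y, c'', y', x', d]) :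
    ∀ z ∈ e, z ∈ ({x, x', c, c', c'', d, y, y'} : Finset V) := by
  have h0 : ∀ i, (![x, y, c, c', y', x'] : Fin 6 → V) i ∈
      ({x, x', c, c', c'', d, y, y'} : Finset V) :=
    e1t1_six (by simp) (by simp) (by simp) (by simp) (by simp) (by simp)
  have h1 : ∀ i, (![x, y, c'', y', x', d] : Fin 6 → V) i ∈
      ({x, x', c, c', c'', d, y, y'} : Finset V) :=
    e1t1_six (by simp) (by simp) (by simp) (by simp) (by simp) (by simp)
  rw [Finset.mem_union, mem_cyc, mem_cyc] at he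
  intro z hz
  rcases he with ⟨i, rfl⟩ | ⟨i, rfl⟩
  · rw [Sym2.mem_iff] at hz
    rcases hz with rfl | rfl
    · exact h0 _
    · exact h0 _
  · rw [Sym2.mem_iff] at hz
    rcases hz with rfl | rfl
    · exact h1 _
    · exact h1 _

/-- the edges between the two parts and the numbers of inner edges -/
theorem E1t1Cfg.count (h : E1t1Cfg E A0 B0 x y x' y' c c' c'' d) {A B : Finset V}
    (hA : A0 ⊆ A) (hB : B0 ⊆ B) (hAB : Disjoint A B) :
    crs (cyc ![x, y, c, c', y', x']) A B = crs (cyc ![x, y, c'', y', x', d]) A B ∧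
    crs (cyc ![x, y, c, c', y', x']) B A = crs (cyc ![x, y, c'', y', x', d]) B A ∧
    (inn (cyc ![x, y, c'', y', x', d]) A).card = (inn (cyc ![x, y, c, c', y', x']) A).card + 1 ∧
    (inn (cyc ![x, y, c, c', y', x']) B).card = (inn (cyc ![x, y, c'', y', x', d]) B).card + 1 := by
  have hd : Disjoint A0 B0 := Finset.disjoint_of_subset_left hA (Finset.disjoint_of_subset_right hB hAB)
  have a1 := hA h.hx
  have a2 := hA h.hx'
  have a3 := hA h.hd
  have b1 := hB h.hy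
  have b2 := hB h.hy'
  have b3 := hB h.hc
  have b4 := hB h.hc'
  have b5 := hB h.hc''
  have na : ∀ {z}, z ∈ A → z ∉ B := fun hz hz' => Finset.disjoint_left.1 hAB hz hz'
  have nb : ∀ {z}, z ∈ B → z ∉ A := fun hz hz' => Finset.disjoint_left.1 hAB hz' hz
  have c1 := na a1
  have c2 := na a2
  have c3 := na a3
  have d1 := nb b1
  have d2 := nb b2
  have d3 := nb b3
  have d4 := nb b4
  have d5 := nb b5
  have e0 : crs (cyc ![x, y, c, c', y', x']) A B = {s(x, y), s(y', x')} := by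
    rw [e1t1_crs _ A B {0, 4} (e1t1_six (by simp [*]) (by simp [*]) (by simp [*]) (by simp [*])
      (by simp [*]) (by simp [*]))]
    rw [Finset.image_insert, Finset.image_singleton]
    rfl
  have e1 : crs (cyc ![x, y, c'', y', x', d]) A B = {s(x, y), s(y', x')} := by
    rw [e1t1_crs _ A B {0, 3} (e1t1_six (by simp [*]) (by simp [*]) (by simp [*]) (by simp [*])
      (by simp [*]) (by simp [*]))]
    rw [Finset.image_insert, Finset.image_singleton]
    rfl
  have e2 : crs (cyc ![x, y, c, c', y', x']) B A = {s(x, y), s(y', x')} := by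
    rw [e1t1_crs _ B A {0, 4} (e1t1_six (by simp [*]) (by simp [*]) (by simp [*]) (by simp [*])
      (by simp [*]) (by simp [*]))]
    rw [Finset.image_insert, Finset.image_singleton]
    rfl
  have e3 : crs (cyc ![x, y, c'', y', x', d]) B A = {s(x, y), s(y', x')} := by
    rw [e1t1_crs _ B A {0, 3} (e1t1_six (by simp [*]) (by simp [*]) (by simp [*]) (by simp [*])
      (by simp [*]) (by simp [*]))]
    rw [Finset.image_insert, Finset.image_singleton]
    rfl
  refine ⟨e0.trans e1.symm, e2.trans e3.symm, ?_, ?_⟩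
  · rw [e1t1_inn (h.inj1 hd) A {4, 5} (e1t1_six (by simp [*]) (by simp [*]) (by simp [*])
      (by simp [*]) (by simp [*]) (by simp [*])),
      e1t1_inn (h.inj0 hd) A {5} (e1t1_six (by simp [*]) (by simp [*]) (by simp [*])
      (by simp [*]) (by simp [*]) (by simp [*]))]
    rfl
  · rw [e1t1_inn (h.inj0 hd) B {1, 2, 3} (e1t1_six (by simp [*]) (by simp [*]) (by simp [*])
      (by simp [*]) (by simp [*]) (by simp [*])),
      e1t1_inn (h.inj1 hd) B {1, 2} (e1t1_six (by simp [*]) (by simp [*]) (by simp [*])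
      (by simp [*]) (by simp [*]) (by simp [*]))]
    rfl

end Cfg

theorem e1t1_switch {V : Type} [Fintype V] [DecidableEq V] {E : Finset (Sym2 V)}
    {A0 A' B0 B' : Finset V} (hH : E1t1Half E A0 A' B0 B') (hl : Loopless E)
    (hnb : ∀ a ∈ A0, ∃ b ∈ B0, s(a, b) ∈ E) {A B : Finset V} (hA : A0 ⊆ A) (hB : B0 ⊆ B)
    (hAB : Disjoint A B) : Switch5 E A B ∧ Switch5 E B A := by
  obtain ⟨x, y, x', y', c, c', c'', d, hcfg, hdis⟩ := e1t1_cfgs hH hl hnb
  have hd0 : Disjoint A0 B0 := hH.dis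
  have hdd : ∀ i j : Fin 5, i ≠ j → Disjoint
      (cyc ![x i, y i, c i, c' i, y' i, x' i] ∪ cyc ![x i, y i, c'' i, y' i, x' i, d i])
      (cyc ![x j, y j, c j, c' j, y' j, x' j] ∪ cyc ![x j, y j, c'' j, y' j, x' j, d j]) := by
    have key : ∀ i j : Fin 5, j < i → Disjoint
      (cyc ![x i, y i, c i, c' i, y' i, x' i] ∪ cyc ![x i, y i, c'' i, y' i, x' i, d i])
      (cyc ![x j, y j, c j, c' j, y' j, x' j] ∪ cyc ![x j, y j, c'' j, y' j, x' j, d j]) := by
      intro i j hij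
      rw [Finset.disjoint_left]
      intro e he he'
      obtain ⟨z, hze, hz⟩ := (hcfg i i.2).priv he
      have hz' := (hcfg j j.2).all he' z hze
      exact Finset.disjoint_left.1 (hdis i j i.2 (Fin.lt_def.1 hij)) hz hz'
    intro i j hij
    rcases lt_or_gt_of_ne hij with h | h
    · exact (key j i h).symm
    · exact key i j h
  have h6 : ∀ i : Fin 5, IsC6 (cyc ![x i, y i, c i, c' i, y' i, x' i]) :=
    fun i => ⟨_, (hcfg i i.2).inj0 hd0, rfl⟩
  have h6' : ∀ i : Fin 5, IsC6 (cyc ![x i, y i, c'' i, y' i, x' i, d i]) :=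
    fun i => ⟨_, (hcfg i i.2).inj1 hd0, rfl⟩
  constructor
  · refine ⟨fun i => cyc ![x i, y i, c i, c' i, y' i, x' i],
      fun i => cyc ![x i, y i, c'' i, y' i, x' i, d i], fun i => ?_, hdd⟩
    have hc := (hcfg i i.2).count hA hB hAB
    exact ⟨h6 i, h6' i, (hcfg i i.2).sub0, (hcfg i i.2).sub1, hc.1, hc.2.2.1⟩
  · refine ⟨fun i => cyc ![x i, y i, c'' i, y' i, x' i, d i],
      fun i => cyc ![x i, y i, c i, c' i, y' i, x' i], fun i => ?_, fun i j hij => ?_⟩
    · have hc := (hcfg i i.2).count hA hB hAB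
      exact ⟨h6' i, h6 i, (hcfg i i.2).sub1, (hcfg i i.2).sub0, hc.2.1.symm, hc.2.2.2⟩
    · have := hdd i j hij
      rw [Finset.union_comm, Finset.union_comm (cyc ![x j, y j, c'' j, y' j, x' j, d j])]
      exact this

section Env

variable {V : Type} [Fintype V] [DecidableEq V] {E : Finset (Sym2 V)} {ε τ : ℝ}
  {A0 B0 X A' B' : Finset V}

theorem e1t1_swap (h : Env1 E ε τ A0 B0 X A' B') : Env1 E ε τ B0 A0 X B' A' where
  dAB := h.dAB.symm
  dAX := h.dBX
  dBX := h.dAX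
  cover := by rw [Finset.union_comm B0]; exact h.cover
  subA := h.subB
  subB := h.subA
  sizeA := h.sizeB
  sizeB := h.sizeA
  nA := h.nB
  nA' := h.nB'
  nB := h.nA
  nB' := h.nA'
  tA := h.tB
  tB := h.tA
  mX := fun x hx => ⟨(h.mX x hx).2, (h.mX x hx).1⟩
  mindeg := h.mindeg

theorem e1t1_split (h : Env1 E ε τ A0 B0 X A' B') (x : V) :
    (deg E x : ℝ) ≤ dg E A' x + dg E B' x + (nV V - A'.card - B'.card) := by
  have hd : Disjoint A' B' :=
    Finset.disjoint_of_subset_left h.subA (Finset.disjoint_of_subset_right h.subB h.dAB)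
  have h1 : deg E x = dg E Finset.univ x := deg_eq_dg (by
    rw [Finset.sym2_univ]
    exact Finset.subset_univ _) x
  have h2 : dg E Finset.univ x ≤ dg E A' x + dg E B' x + ((A' ∪ B')ᶜ).card := by
    unfold dg
    have h3 : (Finset.univ.filter fun y => s(x, y) ∈ E) ⊆
        ((A'.filter fun y => s(x, y) ∈ E) ∪ (B'.filter fun y => s(x, y) ∈ E)) ∪ (A' ∪ B')ᶜ := by
      intro y hy
      simp only [Finset.mem_filter, Finset.mem_univ, true_and, Finset.mem_union,
        Finset.mem_compl] at hy ⊢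
      tauto
    refine (Finset.card_le_card h3).trans ((Finset.card_union_le _ _).trans ?_)
    exact Nat.add_le_add_right (Finset.card_union_le _ _) _
  have h4 : (A' ∪ B').card + ((A' ∪ B')ᶜ).card = Fintype.card V := Finset.card_add_card_compl _
  rw [Finset.card_union_of_disjoint hd] at h4
  have h5 : ((A'.card + B'.card + ((A' ∪ B')ᶜ).card : ℕ) : ℝ) = (Fintype.card V : ℝ) := by
    rw [h4]
  push_cast at h5
  have h6 : (deg E x : ℝ) ≤ ((dg E A' x + dg E B' x + ((A' ∪ B')ᶜ).card : ℕ) : ℝ) := by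
    rw [h1]
    exact_mod_cast h2
  push_cast at h6
  show _ ≤ _ + _ + ((Fintype.card V : ℝ) - A'.card - B'.card)
  linarith

theorem e1t1_cardle (h : Env1 E ε τ A0 B0 X A' B') :
    (A'.card : ℝ) ≤ (1 / 2 + ε) * nV V := by
  have hd : Disjoint A' B' :=
    Finset.disjoint_of_subset_left h.subA (Finset.disjoint_of_subset_right h.subB h.dAB)
  have h1 : (A' ∪ B').card ≤ Fintype.card V := Finset.card_le_univ _
  rw [Finset.card_union_of_disjoint hd] at h1
  have h2 : (A'.card : ℝ) + B'.card ≤ nV V := by exact_mod_cast h1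
  have h3 := h.sizeB
  linarith

theorem e1t1_low (h : Env1 E ε τ A0 B0 X A' B') {x : V} (hx : x ∈ A0) :
    (1 / 2 - τ - 2 * ε) * nV V - 1 / 2 ≤ (dg E A' x : ℝ) := by
  have h1 := e1t1_split h x
  have h2 := h.tA x hx
  have h3 : (Fintype.card V : ℝ) ≤ 2 * deg E x + 1 := by exact_mod_cast h.mindeg x
  have h4 := h.sizeA
  have h5 := h.sizeB
  have h6 : (Fintype.card V : ℝ) = nV V := rfl
  rw [h6] at h3
  linarith

theorem e1t1_pick {A' F : Finset V} (P : V → Prop) [DecidablePred P] (hF : F.card ≤ 60)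
    (h : (60 : ℝ) < ((A'.filter P).card : ℝ)) : ∃ z ∈ A', z ∉ F ∧ P z := by
  have h1 : F.card < (A'.filter P).card := by
    have : 60 < (A'.filter P).card := by exact_mod_cast h
    omega
  obtain ⟨z, hz1, hz2⟩ := Finset.exists_mem_notMem_of_card_lt_card h1
  rw [Finset.mem_filter] at hz1
  exact ⟨z, hz1.1, hz2, hz1.2⟩

theorem e1t1_ca (h : Env1 E ε τ A0 B0 X A' B') (hτ' : τ ≤ 1 / 20) (hε : ε = 1 / 100)
    (hn : 200 ≤ Fintype.card V) :
    ∀ x ∈ A0, ∀ y ∈ A0, ∀ F : Finset V, F.card ≤ 60 →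
    ∃ z ∈ A', z ∉ F ∧ s(x, z) ∈ E ∧ s(z, y) ∈ E := by
  intro x hx y hy F hF
  apply e1t1_pick (fun z => s(x, z) ∈ E ∧ s(z, y) ∈ E) hF
  have hn' : (200 : ℝ) ≤ nV V := by exact_mod_cast hn
  have h1 := e1t1_low h hx
  have h2 := e1t1_low h hy
  have h3 := e1t1_cardle h
  have h4 : dg E A' x + dg E A' y ≤
      A'.card + (A'.filter fun z => s(x, z) ∈ E ∧ s(z, y) ∈ E).card := by
    unfold dg
    have h5 := Finset.card_union_add_card_inter (A'.filter fun z => s(x, z) ∈ E)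
      (A'.filter fun z => s(y, z) ∈ E)
    have h6 : (A'.filter fun z => s(x, z) ∈ E) ∪ (A'.filter fun z => s(y, z) ∈ E) ⊆ A' :=
      Finset.union_subset (Finset.filter_subset _ _) (Finset.filter_subset _ _)
    have h7 : (A'.filter fun z => s(x, z) ∈ E) ∩ (A'.filter fun z => s(y, z) ∈ E) ⊆
        A'.filter fun z => s(x, z) ∈ E ∧ s(z, y) ∈ E := by
      intro z hz
      rw [Finset.mem_inter, Finset.mem_filter, Finset.mem_filter] at hz
      rw [Finset.mem_filter]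
      refine ⟨hz.1.1, hz.1.2, ?_⟩
      rw [Sym2.eq_swap]
      exact hz.2.2
    have h8 := Finset.card_le_card h6
    have h9 := Finset.card_le_card h7
    omega
  have h5 : (dg E A' x : ℝ) + dg E A' y ≤
      A'.card + (A'.filter fun z => s(x, z) ∈ E ∧ s(z, y) ∈ E).card := by exact_mod_cast h4
  subst hε
  nlinarith

theorem e1t1_da (h : Env1 E ε τ A0 B0 X A' B') (hτ' : τ ≤ 1 / 20) (hε : ε = 1 / 100)
    (hn : 200 ≤ Fintype.card V) :
    ∀ x ∈ A0, ∀ y ∈ B0, ∀ F : Finset V, F.card ≤ 60 →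
    ∃ z ∈ A', z ∉ F ∧ s(x, z) ∈ E ∧ s(y, z) ∉ E := by
  intro x hx y hy F hF
  apply e1t1_pick (fun z => s(x, z) ∈ E ∧ s(y, z) ∉ E) hF
  have hn' : (200 : ℝ) ≤ nV V := by exact_mod_cast hn
  have h1 := e1t1_low h hx
  have h2 := h.tB y hy
  have h4 : dg E A' x ≤ dg E A' y + (A'.filter fun z => s(x, z) ∈ E ∧ s(y, z) ∉ E).card := by
    unfold dg
    refine (Finset.card_le_card ?_).trans (Finset.card_union_le _ _)
    intro z hz
    rw [Finset.mem_filter] at hz
    rw [Finset.mem_union, Finset.mem_filter, Finset.mem_filter]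
    by_cases hyz : s(y, z) ∈ E
    · exact Or.inl ⟨hz.1, hyz⟩
    · exact Or.inr ⟨hz.1, hz.2, hyz⟩
  have h5 : (dg E A' x : ℝ) ≤
      dg E A' y + (A'.filter fun z => s(x, z) ∈ E ∧ s(y, z) ∉ E).card := by exact_mod_cast h4
  subst hε
  nlinarith

theorem e1t1_half (h : Env1 E ε τ A0 B0 X A' B') (hτ' : τ ≤ 1 / 20) (hε : ε = 1 / 100)
    (hn : 200 ≤ Fintype.card V) : E1t1Half E A0 A' B0 B' where
  subA := h.subA
  subB := h.subB
  dis := h.dAB
  ha := by
    intro F hF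
    have hn' : (200 : ℝ) ≤ nV V := by exact_mod_cast hn
    have h1 := h.sizeA
    obtain ⟨z, hz, hzF, -⟩ := e1t1_pick (A' := A') (F := F) (fun _ => True) hF (by
      rw [Finset.filter_true]
      subst hε
      nlinarith)
    exact ⟨z, hz, hzF⟩
  ca := e1t1_ca h hτ' hε hn
  cb := e1t1_ca (e1t1_swap h) hτ' hε hn
  da := e1t1_da h hτ' hε hn

end Env

theorem sw_T1 (τ : ℝ) (hτ : 0 < τ) (hτ' : τ ≤ 1 / 20) :
    ∃ ε : ℝ, 0 < ε ∧ ∃ n0 : ℕ, ∀ (V : Type) [Fintype V] [DecidableEq V]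
      (E : Finset (Sym2 V)) (A0 B0 X A' B' : Finset V), n0 ≤ Fintype.card V → Loopless E →
      Env1 E ε τ A0 B0 X A' B' → (∀ a ∈ A0, ∃ b ∈ B0, s(a, b) ∈ E) →
      Switch5 E (A0 ∪ X) B0 := by
  refine ⟨1 / 100, by norm_num, 200, fun V _ _ E A0 B0 X A' B' hn hl h hnb => ?_⟩
  refine (e1t1_switch (e1t1_half h hτ' rfl hn) hl hnb Finset.subset_union_left
    (Finset.Subset.refl B0) ?_).1
  rw [Finset.disjoint_union_left]
  exact ⟨h.dAB, h.dBX.symm⟩

theorem sw_T1' (τ : ℝ) (hτ : 0 < τ) (hτ' : τ ≤ 1 / 20) :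
    ∃ ε : ℝ, 0 < ε ∧ ∃ n0 : ℕ, ∀ (V : Type) [Fintype V] [DecidableEq V]
      (E : Finset (Sym2 V)) (A0 B0 X A' B' : Finset V), n0 ≤ Fintype.card V → Loopless E →
      Env1 E ε τ A0 B0 X A' B' → (∀ b ∈ B0, ∃ a ∈ A0, s(a, b) ∈ E) →
      Switch5 E (A0 ∪ X) B0 := by
  refine ⟨1 / 100, by norm_num, 200, fun V _ _ E A0 B0 X A' B' hn hl h hnb => ?_⟩
  refine (e1t1_switch (e1t1_half (e1t1_swap h) hτ' rfl hn) hl ?_ (Finset.Subset.refl B0)
    (Finset.subset_union_left (s₂ := X)) ?_).2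
  · intro b hb
    obtain ⟨a, ha, hab⟩ := hnb b hb
    exact ⟨a, ha, by rw [Sym2.eq_swap]; exact hab⟩
  · rw [Finset.disjoint_union_right]
    exact ⟨h.dAB.symm, h.dBX⟩

end H15C6
end S_E1T1

section S_E1T2
/-!
Module E1T2 (part of E1T).  Extremal case 1: existence of five switches.  `A := A0 ∪ X`, `n = |V|`.
All auxiliary vertices are chosen in `A'`, `B'` (private, outside everything chosen before; every vertex of
`A'` is adjacent to all but `ε n` vertices of `A'`, etc.).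

`sw_T1`: every vertex of `A0` has a neighbour in `B0`.  Choose greedily, for `i = 0..4`, `a, a' ∈ A'` adjacent with
neighbours `b ≠ b'` in `B0` (each `b ∈ B0` has at most `(τ + 2ε) n` neighbours in `A0`, so given `a, b` there is `a'`
among the `≥ (1/2 - 2ε) n` neighbours of `a` in `A'` not adjacent to `b`), all ten `a`'s distinct.
`c0 = a b c c' b' a'` (path `b c c' b'`, inner edges of `A`: only `a'a`: 1), `c1 = a b c'' b' a' d` (2 inner edges of
`A`); all `c, c', c'', d` private.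
`sw_T1'`: every vertex of `B0` has a neighbour in `A0`.  Symmetric choice of adjacent `b, b' ∈ B'` with
neighbours `a ≠ a'` in `A0`: `c0 = a b c b' a' d` (inner edges of `A`: 2), `c1 = b a d d' a' b'` with `b'b` an edge
(inner edges of `A`: 3).
`sw_T2`: `x ∈ X` with `dg E A' x, dg E B' x ≥ 3τ n` and at least five edges `s(a_i,b_i)` between `A0` and `B0`.
For each choose private `b' ∈ B'` adjacent to `x` and to `b_i` (possible: `b_i` misses at most `(τ+4ε) n` vertices of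
`B'`).  `c0 = a_i b_i c b' x d` (`c` common neighbour of `b_i, b'`; `d` common neighbour of `x, a_i`; inner edges of
`A`: 2), `c1 = a_i b_i b' x d' d''` (path `x d' d'' a_i`; inner edges of `A`: 3).
`sw_T3`: `x ≠ x' ∈ X` with at least `τ n` common neighbours in `A'`.  Five times: private `b, b' ∈ B'` with `x b`, `b b'`,
`b' x'` edges; `c0 = x b c b' x' d` (`d` common neighbour of `x, x'` in `A'`; inner: 2),
`c1 = x b b' x' d' d''` (path of length three from `x'` to `x`; inner: 3).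
-/

open Finset

namespace H15C6

/-- picking a vertex outside a small forbidden set -/
theorem e1t2_pick {V : Type} [DecidableEq V] (U Z : Finset V) (p q : V → Prop) [DecidablePred p]
    [DecidablePred q] {α β : ℝ} (h1 : α ≤ ((U.filter p).card : ℝ))
    (h2 : ((U.filter (fun y => ¬ q y)).card : ℝ) ≤ β) (h3 : (Z.card : ℝ) < α - β) :
    ∃ y ∈ U, y ∉ Z ∧ p y ∧ q y := by
  by_contra hcon
  push Not at hcon
  have h0 : U.filter p ⊆ Z ∪ U.filter (fun y => ¬ q y) := by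
    intro y hy
    rw [mem_filter] at hy
    rw [mem_union, mem_filter]
    by_cases hz : y ∈ Z
    · exact Or.inl hz
    · exact Or.inr ⟨hy.1, hcon y hy.1 hz hy.2⟩
  have h4 := (card_le_card h0).trans (card_union_le _ _)
  have h5 : ((U.filter p).card : ℝ) ≤ Z.card + (U.filter (fun y => ¬ q y)).card := by
    exact_mod_cast h4
  linarith

theorem e1t2_inj6 {V : Type} {a b c d e f : V} (h1 : a ≠ b) (h2 : a ≠ c) (h3 : a ≠ d)
    (h4 : a ≠ e) (h5 : a ≠ f) (h6 : b ≠ c) (h7 : b ≠ d) (h8 : b ≠ e) (h9 : b ≠ f) (h10 : c ≠ d)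
    (h11 : c ≠ e) (h12 : c ≠ f) (h13 : d ≠ e) (h14 : d ≠ f) (h15 : e ≠ f) :
    Function.Injective ![a, b, c, d, e, f] := by
  intro i j hij
  fin_cases i <;> fin_cases j <;> simp_all

theorem e1t2_mem_cyc {V : Type} [DecidableEq V] {a b c d e f : V} {t : Sym2 V} :
    t ∈ cyc ![a, b, c, d, e, f] ↔ t = s(a, b) ∨ t = s(b, c) ∨ t = s(c, d) ∨ t = s(d, e) ∨
      t = s(e, f) ∨ t = s(f, a) := by
  rw [mem_cyc]
  constructor
  · rintro ⟨i, hi⟩
    fin_cases i <;> simp_all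
  · rintro (h | h | h | h | h | h)
    · exact ⟨0, by simp [h]⟩
    · exact ⟨1, by simp [h]⟩
    · exact ⟨2, by simp [h]⟩
    · exact ⟨3, by simp [h]⟩
    · exact ⟨4, by simp [h]⟩
    · exact ⟨5, by simp [h]⟩

theorem e1t2_inn_card {V : Type} [DecidableEq V] {v : Fin 6 → V} (hv : Function.Injective v)
    (A : Finset V) :
    (inn (cyc v) A).card = (Finset.univ.filter (fun i : Fin 6 => v i ∈ A ∧ v (i + 1) ∈ A)).card := by
  have : inn (cyc v) A =
      (Finset.univ.filter (fun i : Fin 6 => v i ∈ A ∧ v (i + 1) ∈ A)).image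
        (fun i => s(v i, v (i + 1))) := by
    ext t
    simp only [inn, mem_inter, mem_cyc, mem_image, mem_filter, mem_univ, true_and]
    constructor
    · rintro ⟨⟨i, rfl⟩, h2⟩
      rw [Finset.mk_mem_sym2_iff] at h2
      exact ⟨i, h2, rfl⟩
    · rintro ⟨i, h1, rfl⟩
      exact ⟨⟨i, rfl⟩, Finset.mk_mem_sym2_iff.2 h1⟩
  rw [this, Finset.card_image_of_injective _ (cyc_inj hv)]

/-- the two six-cycles of a switch with private vertices `P` -/
structure e1t2_Sw {V : Type} [DecidableEq V] (E : Finset (Sym2 V)) (A B : Finset V) (a b x : V)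
    (P : Finset V) (c0 c1 : Finset (Sym2 V)) : Prop where
  h0 : IsC6 c0
  h1 : IsC6 c1
  s0 : c0 ⊆ E
  s1 : c1 ⊆ E
  cr : crs c0 A B = crs c1 A B
  ic : (inn c1 A).card = (inn c0 A).card + 1
  pr : ∀ e ∈ c0 ∪ c1, e = s(a, b) ∨ ∃ p ∈ P, p ∈ e
  vs : ∀ e ∈ c0 ∪ c1, ∀ v ∈ e, v ∈ P ∨ v = a ∨ v = b ∨ v = x

/-- greedy choice of private sets -/
theorem e1t2_greedy {V : Type} [DecidableEq V] (K : ℕ) (Z0 : Finset V) :
    ∀ (m : ℕ) (Q : Fin m → Finset V → Prop),
      (∀ i, ∀ Z : Finset V, Z0 ⊆ Z → Z.card ≤ Z0.card + m * K →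
        ∃ P : Finset V, P.card ≤ K ∧ Disjoint P Z ∧ Q i P) →
      ∃ P : Fin m → Finset V, (∀ i, Q i (P i)) ∧ (∀ i, (P i).card ≤ K) ∧
        (∀ i, Disjoint (P i) Z0) ∧ ∀ i j, i ≠ j → Disjoint (P i) (P j) := by
  intro m
  induction m with
  | zero =>
    intro Q _
    exact ⟨fun i => i.elim0, fun i => i.elim0, fun i => i.elim0, fun i => i.elim0,
      fun i => i.elim0⟩
  | succ m ih =>
    intro Q hQ
    obtain ⟨P, h1, h2, h3, h4⟩ := ih (fun i => Q i.castSucc) (fun i Z hZ hc =>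
      hQ i.castSucc Z hZ (hc.trans (Nat.add_le_add_left (Nat.mul_le_mul_right _ (Nat.le_succ m)) _)))
    have hcard : (Z0 ∪ Finset.univ.biUnion P).card ≤ Z0.card + (m + 1) * K := by
      refine (card_union_le _ _).trans (Nat.add_le_add_left ?_ _)
      refine (card_biUnion_le).trans ?_
      refine (Finset.sum_le_sum (fun i _ => h2 i)).trans ?_
      simp only [sum_const, card_univ, Fintype.card_fin, smul_eq_mul]
      exact Nat.mul_le_mul_right _ (Nat.le_succ m)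
    obtain ⟨R, r1, r2, r3⟩ := hQ (Fin.last m) (Z0 ∪ Finset.univ.biUnion P) subset_union_left hcard
    rw [disjoint_union_right] at r2
    have r4 : ∀ i, Disjoint R (P i) := by
      intro i
      have := r2.2
      rw [disjoint_biUnion_right] at this
      exact this i (mem_univ i)
    refine ⟨Fin.snoc P R, ?_, ?_, ?_, ?_⟩
    · intro i
      refine Fin.lastCases ?_ (fun i => ?_) i
      · simpa using r3
      · simpa using h1 i
    · intro i
      refine Fin.lastCases ?_ (fun i => ?_) i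
      · simpa using r1
      · simpa using h2 i
    · intro i
      refine Fin.lastCases ?_ (fun i => ?_) i
      · simpa using r2.1
      · simpa using h3 i
    · intro i
      refine Fin.lastCases ?_ (fun i => ?_) i
      · intro j
        refine Fin.lastCases ?_ (fun j => ?_) j
        · intro h; exact absurd rfl h
        · intro _
          simpa using r4 j
      · intro j
        refine Fin.lastCases ?_ (fun j => ?_) j
        · intro _
          simpa using (r4 i).symm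
        · intro hne
          simp only [Fin.snoc_castSucc]
          exact h4 i j (fun h => hne (by rw [h]))

/-- one switch -/
theorem e1t2_one {V : Type} [Fintype V] [DecidableEq V] {E : Finset (Sym2 V)} {τ : ℝ}
    {A0 B0 X A' B' : Finset V} (hτ : 0 < τ) (hτ' : τ ≤ 1 / 20) (hn : 1000 ≤ τ * nV V)
    (hl : Loopless E) (hE : Env1 E (τ / 10) τ A0 B0 X A' B') {x : V} (hx : x ∈ X)
    (hxA : 3 * τ * nV V ≤ (dg E A' x : ℝ)) (hxB : 3 * τ * nV V ≤ (dg E B' x : ℝ))
    {a b : V} (ha : a ∈ A0) (hb : b ∈ B0) (hab : s(a, b) ∈ E) (Z : Finset V) (hZ : Z.card ≤ 100)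
    (haZ : a ∈ Z) (hbZ : b ∈ Z) :
    ∃ P : Finset V, P.card ≤ 4 ∧ Disjoint P Z ∧
      ∃ c0 c1, e1t2_Sw E (A0 ∪ X) B0 a b x P c0 c1 := by
  obtain ⟨b1, b2, -, -, b5, b6, -⟩ := hE.basic hl
  have hnn : (20000 : ℝ) ≤ nV V := by nlinarith
  have hZ' : (Z.card : ℝ) ≤ 100 := by exact_mod_cast hZ
  -- number of non-neighbours of `b` in `B'`
  have nb : ((B'.filter (fun y => ¬ s(b, y) ∈ E)).card : ℝ) ≤ (τ + 3 * (τ / 10)) * nV V + 1 := by
    have h1 := Finset.card_filter_add_card_filter_not (s := B') (fun y => s(b, y) ∈ E)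
    have h2 : ((dg E B' b : ℕ) : ℝ) + ((B'.filter (fun y => ¬ s(b, y) ∈ E)).card : ℝ) = B'.card := by
      exact_mod_cast h1
    have h3 := b6 b hb
    linarith
  have na : ((A'.filter (fun y => ¬ s(a, y) ∈ E)).card : ℝ) ≤ (τ + 3 * (τ / 10)) * nV V + 1 := by
    have h1 := Finset.card_filter_add_card_filter_not (s := A') (fun y => s(a, y) ∈ E)
    have h2 : ((dg E A' a : ℕ) : ℝ) + ((A'.filter (fun y => ¬ s(a, y) ∈ E)).card : ℝ) = A'.card := by
      exact_mod_cast h1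
    have h3 := b5 a ha
    linarith
  obtain ⟨b', hb'1, hb'2, hb'3, hb'4⟩ := e1t2_pick B' Z (fun y => s(x, y) ∈ E)
    (fun y => s(b, y) ∈ E) hxB nb (by nlinarith)
  obtain ⟨c, hc1, hc2, hc3, hc4⟩ := e1t2_pick B' Z (fun y => s(b, y) ∈ E)
    (fun y => s(b', y) ∈ E) (b6 b hb) (hE.nB b' hb'1) (by nlinarith)
  obtain ⟨d, hd1, hd2, hd3, hd4⟩ := e1t2_pick A' Z (fun y => s(x, y) ∈ E)
    (fun y => s(a, y) ∈ E) hxA na (by nlinarith)
  obtain ⟨e, he1, he2, he3, he4⟩ := e1t2_pick A' Z (fun y => s(a, y) ∈ E)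
    (fun y => s(d, y) ∈ E) (b5 a ha) (hE.nA d hd1) (by nlinarith)
  -- memberships
  have mdA := hE.subA hd1
  have meA := hE.subA he1
  have mcB := hE.subB hc1
  have mbB := hE.subB hb'1
  have AB : ∀ {u w : V}, u ∈ A0 → w ∈ B0 → u ≠ w := fun hu hw h =>
    (Finset.disjoint_left.1 hE.dAB) hu (h ▸ hw)
  have AX : ∀ {u w : V}, u ∈ A0 → w ∈ X → u ≠ w := fun hu hw h =>
    (Finset.disjoint_left.1 hE.dAX) hu (h ▸ hw)
  have BX : ∀ {u w : V}, u ∈ B0 → w ∈ X → u ≠ w := fun hu hw h =>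
    (Finset.disjoint_left.1 hE.dBX) hu (h ▸ hw)
  have nz : ∀ {u w : V}, u ∈ Z → w ∉ Z → u ≠ w := fun hu hw h => hw (h ▸ hu)
  have inA : ∀ {u : V}, u ∈ A0 → u ∈ A0 ∪ X := fun hu => mem_union_left _ hu
  have nB : ∀ {u : V}, u ∈ A0 → u ∉ B0 := fun hu h => (Finset.disjoint_left.1 hE.dAB) hu h
  have nA : ∀ {u : V}, u ∈ B0 → u ∉ A0 ∪ X := by
    intro u hu h
    rw [mem_union] at h
    rcases h with h | h
    · exact (Finset.disjoint_left.1 hE.dAB) h hu
    · exact (Finset.disjoint_left.1 hE.dBX) hu h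
  have xA : x ∈ A0 ∪ X := mem_union_right _ hx
  have xB : x ∉ B0 := fun h => (Finset.disjoint_left.1 hE.dBX) h hx
  have i0 : Function.Injective ![a, b, c, b', x, d] :=
    e1t2_inj6 (AB ha hb) (AB ha mcB) (AB ha mbB) (AX ha hx) (nz haZ hd2) (nz hbZ hc2)
      (nz hbZ hb'2) (BX hb hx) (AB mdA hb).symm (hl.ne hc4).symm (BX mcB hx)
      (AB mdA mcB).symm (BX mbB hx) (AB mdA mbB).symm (AX mdA hx).symm
  have i1 : Function.Injective ![a, b, b', x, d, e] :=
    e1t2_inj6 (AB ha hb) (AB ha mbB) (AX ha hx) (nz haZ hd2) (nz haZ he2) (nz hbZ hb'2)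
      (BX hb hx) (AB mdA hb).symm (AB meA hb).symm (BX mbB hx) (AB mdA mbB).symm
      (AB meA mbB).symm (AX mdA hx).symm (AX meA hx).symm (hl.ne he4)
  refine ⟨{b', c, d, e}, ?_, ?_, cyc ![a, b, c, b', x, d], cyc ![a, b, b', x, d, e], ?_⟩
  · exact Finset.card_le_four
  · rw [Finset.disjoint_left]
    intro y hy
    simp only [mem_insert, mem_singleton] at hy
    rcases hy with rfl | rfl | rfl | rfl <;> assumption
  · refine ⟨⟨_, i0, rfl⟩, ⟨_, i1, rfl⟩, ?_, ?_, ?_, ?_, ?_, ?_⟩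
    · intro t ht
      rw [e1t2_mem_cyc] at ht
      rcases ht with rfl | rfl | rfl | rfl | rfl | rfl
      · exact hab
      · exact hc3
      · rw [Sym2.eq_swap]; exact hc4
      · rw [Sym2.eq_swap]; exact hb'3
      · exact hd3
      · rw [Sym2.eq_swap]; exact hd4
    · intro t ht
      rw [e1t2_mem_cyc] at ht
      rcases ht with rfl | rfl | rfl | rfl | rfl | rfl
      · exact hab
      · exact hb'4
      · rw [Sym2.eq_swap]; exact hb'3
      · exact hd3
      · exact he4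
      · rw [Sym2.eq_swap]; exact he3
    · have k0 : crs (cyc ![a, b, c, b', x, d]) (A0 ∪ X) B0 = {s(a, b), s(b', x)} := by
        ext t
        simp only [crs, mem_sdiff, e1t2_mem_cyc, mem_insert, mem_singleton]
        constructor
        · rintro ⟨⟨ht, h1⟩, h2⟩
          rcases ht with rfl | rfl | rfl | rfl | rfl | rfl
          · exact Or.inl rfl
          · exact absurd (Finset.mk_mem_sym2_iff.2 ⟨hb, mcB⟩) h2
          · exact absurd (Finset.mk_mem_sym2_iff.2 ⟨mcB, mbB⟩) h2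
          · exact Or.inr rfl
          · exact absurd (Finset.mk_mem_sym2_iff.2 ⟨xA, inA mdA⟩) h1
          · exact absurd (Finset.mk_mem_sym2_iff.2 ⟨inA mdA, inA ha⟩) h1
        · rintro (rfl | rfl)
          · exact ⟨⟨Or.inl rfl, fun h => nA hb (Finset.mk_mem_sym2_iff.1 h).2⟩,
              fun h => nB ha (Finset.mk_mem_sym2_iff.1 h).1⟩
          · exact ⟨⟨Or.inr (Or.inr (Or.inr (Or.inl rfl))),
              fun h => nA mbB (Finset.mk_mem_sym2_iff.1 h).1⟩,
              fun h => xB (Finset.mk_mem_sym2_iff.1 h).2⟩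
      have k1 : crs (cyc ![a, b, b', x, d, e]) (A0 ∪ X) B0 = {s(a, b), s(b', x)} := by
        ext t
        simp only [crs, mem_sdiff, e1t2_mem_cyc, mem_insert, mem_singleton]
        constructor
        · rintro ⟨⟨ht, h1⟩, h2⟩
          rcases ht with rfl | rfl | rfl | rfl | rfl | rfl
          · exact Or.inl rfl
          · exact absurd (Finset.mk_mem_sym2_iff.2 ⟨hb, mbB⟩) h2
          · exact Or.inr rfl
          · exact absurd (Finset.mk_mem_sym2_iff.2 ⟨xA, inA mdA⟩) h1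
          · exact absurd (Finset.mk_mem_sym2_iff.2 ⟨inA mdA, inA meA⟩) h1
          · exact absurd (Finset.mk_mem_sym2_iff.2 ⟨inA meA, inA ha⟩) h1
        · rintro (rfl | rfl)
          · exact ⟨⟨Or.inl rfl, fun h => nA hb (Finset.mk_mem_sym2_iff.1 h).2⟩,
              fun h => nB ha (Finset.mk_mem_sym2_iff.1 h).1⟩
          · exact ⟨⟨Or.inr (Or.inr (Or.inl rfl)),
              fun h => nA mbB (Finset.mk_mem_sym2_iff.1 h).1⟩,
              fun h => xB (Finset.mk_mem_sym2_iff.1 h).2⟩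
      rw [k0, k1]
    · rw [e1t2_inn_card i0, e1t2_inn_card i1, Finset.card_filter, Finset.card_filter,
        Fin.sum_univ_six, Fin.sum_univ_six]
      simp [inA ha, nA hb, nA mcB, nA mbB, xA, inA mdA, inA meA, -mem_union]
    · intro t ht
      rw [mem_union, e1t2_mem_cyc, e1t2_mem_cyc] at ht
      rcases ht with (rfl | rfl | rfl | rfl | rfl | rfl) | (rfl | rfl | rfl | rfl | rfl | rfl) <;>
        simp
    · intro t ht v hv
      rw [mem_union, e1t2_mem_cyc, e1t2_mem_cyc] at ht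
      simp only [mem_insert, mem_singleton]
      rcases ht with (rfl | rfl | rfl | rfl | rfl | rfl) | (rfl | rfl | rfl | rfl | rfl | rfl) <;>
        (rw [Sym2.mem_iff] at hv; clear * - hv; rcases hv with rfl | rfl <;> simp)

theorem sw_T2 (τ : ℝ) (hτ : 0 < τ) (hτ' : τ ≤ 1 / 20) :
    ∃ ε : ℝ, 0 < ε ∧ ∃ n0 : ℕ, ∀ (V : Type) [Fintype V] [DecidableEq V]
      (E : Finset (Sym2 V)) (A0 B0 X A' B' : Finset V), n0 ≤ Fintype.card V → Loopless E →
      Env1 E ε τ A0 B0 X A' B' → 5 ≤ (crs E (A0 ∪ X) (B0 ∪ X)).card →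
      (∃ x ∈ X, 3 * τ * nV V ≤ (dg E A' x : ℝ) ∧ 3 * τ * nV V ≤ (dg E B' x : ℝ)) →
      Switch5 E (A0 ∪ X) B0 := by
  refine ⟨τ / 10, by positivity, ⌈1000 / τ⌉₊, ?_⟩
  intro V _ _ E A0 B0 X A' B' hn0 hl hE h5 ⟨x, hx, hxA, hxB⟩
  have hn : 1000 ≤ τ * nV V := by
    have h1 : 1000 / τ ≤ nV V := (Nat.le_ceil _).trans (by exact_mod_cast hn0)
    rw [div_le_iff₀ hτ] at h1
    linarith
  -- five edges
  have hemb : Nonempty (Fin 5 ↪ {e // e ∈ crs E (A0 ∪ X) (B0 ∪ X)}) := by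
    apply Function.Embedding.nonempty_of_card_le
    rw [Fintype.card_fin, Fintype.card_coe]
    exact h5
  obtain ⟨g⟩ := hemb
  have hg : ∀ i, ∃ a b : V, a ∈ A0 ∧ b ∈ B0 ∧ s(a, b) ∈ E ∧ (g i : Sym2 V) = s(a, b) := by
    intro i
    obtain ⟨t, ht⟩ := g i
    simp only
    induction t using Sym2.ind with
    | _ u w =>
      simp only [crs, mem_sdiff, Finset.mk_mem_sym2_iff] at ht
      obtain ⟨⟨h1, h2⟩, h3⟩ := ht
      have hc : ∀ v : V, v ∈ A0 ∨ v ∈ B0 ∨ v ∈ X := by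
        intro v
        have : v ∈ A0 ∪ B0 ∪ X := by rw [hE.cover]; exact mem_univ v
        simp only [mem_union] at this
        tauto
      have hu := hc u
      have hw := hc w
      simp only [mem_union] at h2 h3
      by_cases hu' : u ∈ A0
      · exact ⟨u, w, hu', by tauto, h1, rfl⟩
      · exact ⟨w, u, by tauto, by tauto, by rw [Sym2.eq_swap]; exact h1, Sym2.eq_swap⟩
  choose fa fb hfa hfb hfe hge using hg
  set Z0 : Finset V := insert x (Finset.univ.image fa ∪ Finset.univ.image fb) with hZ0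
  have hZ0c : Z0.card ≤ 11 := by
    refine (card_insert_le _ _).trans (Nat.succ_le_succ ((card_union_le _ _).trans ?_))
    have h1 : (Finset.univ.image fa).card ≤ 5 := by
      refine card_image_le.trans (by simp)
    have h2 : (Finset.univ.image fb).card ≤ 5 := by
      refine card_image_le.trans (by simp)
    omega
  have hxZ : x ∈ Z0 := mem_insert_self _ _
  have haZ : ∀ i, fa i ∈ Z0 := fun i => by simp [hZ0]
  have hbZ : ∀ i, fb i ∈ Z0 := fun i => by simp [hZ0]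
  obtain ⟨P, p1, -, p3, p4⟩ := e1t2_greedy 4 Z0 5
    (fun i P => ∃ c0 c1, e1t2_Sw E (A0 ∪ X) B0 (fa i) (fb i) x P c0 c1)
    (fun i Z hZ hc => e1t2_one hτ hτ' hn hl hE hx hxA hxB (hfa i) (hfb i) (hfe i) Z
      (by omega) (hZ (haZ i)) (hZ (hbZ i)))
  choose c0 c1 hc using p1
  refine ⟨c0, c1, fun i => ⟨(hc i).h0, (hc i).h1, (hc i).s0, (hc i).s1, (hc i).cr, (hc i).ic⟩, ?_⟩
  -- a private vertex of `i` is in no edge of `j`
  have key : ∀ i j, i ≠ j → ∀ e ∈ c0 i ∪ c1 i, e ∈ c0 j ∪ c1 j → e = s(fa i, fb i) := by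
    intro i j hij e hi hj
    rcases (hc i).pr e hi with h | ⟨p, hp, hpe⟩
    · exact h
    · exfalso
      have hp0 : p ∉ Z0 := fun h => (Finset.disjoint_left.1 (p3 i)) hp h
      rcases (hc j).vs e hj p hpe with h | h | h | h
      · exact (Finset.disjoint_left.1 (p4 i j hij)) hp h
      · exact hp0 (h ▸ haZ j)
      · exact hp0 (h ▸ hbZ j)
      · exact hp0 (h ▸ hxZ)
  intro i j hij
  rw [Finset.disjoint_left]
  intro e hi hj
  have h1 := key i j hij e hi hj
  have h2 := key j i hij.symm e hj hi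
  apply hij
  apply g.injective
  apply Subtype.ext
  rw [hge i, hge j, ← h1, h2]

end H15C6
end S_E1T2

section S_E1T3
/-!
Module E1T3 (part of E1T).  Extremal case 1: existence of five switches.  `A := A0 ∪ X`, `n = |V|`.
All auxiliary vertices are chosen in `A'`, `B'` (private, outside everything chosen before; every vertex of
`A'` is adjacent to all but `ε n` vertices of `A'`, etc.).

`sw_T1`: every vertex of `A0` has a neighbour in `B0`.  Choose greedily, for `i = 0..4`, `a, a' ∈ A'` adjacent with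
neighbours `b ≠ b'` in `B0` (each `b ∈ B0` has at most `(τ + 2ε) n` neighbours in `A0`, so given `a, b` there is `a'`
among the `≥ (1/2 - 2ε) n` neighbours of `a` in `A'` not adjacent to `b`), all ten `a`'s distinct.
`c0 = a b c c' b' a'` (path `b c c' b'`, inner edges of `A`: only `a'a`: 1), `c1 = a b c'' b' a' d` (2 inner edges of
`A`); all `c, c', c'', d` private.
`sw_T1'`: every vertex of `B0` has a neighbour in `A0`.  Symmetric choice of adjacent `b, b' ∈ B'` with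
neighbours `a ≠ a'` in `A0`: `c0 = a b c b' a' d` (inner edges of `A`: 2), `c1 = b a d d' a' b'` with `b'b` an edge
(inner edges of `A`: 3).
`sw_T2`: `x ∈ X` with `dg E A' x, dg E B' x ≥ 3τ n` and at least five edges `s(a_i,b_i)` between `A0` and `B0`.
For each choose private `b' ∈ B'` adjacent to `x` and to `b_i` (possible: `b_i` misses at most `(τ+4ε) n` vertices of
`B'`).  `c0 = a_i b_i c b' x d` (`c` common neighbour of `b_i, b'`; `d` common neighbour of `x, a_i`; inner edges of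
`A`: 2), `c1 = a_i b_i b' x d' d''` (path `x d' d'' a_i`; inner edges of `A`: 3).
`sw_T3`: `x ≠ x' ∈ X` with at least `τ n` common neighbours in `A'`.  Five times: private `b, b' ∈ B'` with `x b`, `b b'`,
`b' x'` edges; `c0 = x b c b' x' d` (`d` common neighbour of `x, x'` in `A'`; inner: 2),
`c1 = x b b' x' d' d''` (path of length three from `x'` to `x`; inner: 3).
-/

open Finset

namespace H15C6

/-- greedy choice of private six-tuples -/
theorem e1t3_greedy {V : Type} [DecidableEq V] {Q : (Fin 6 → V) → Prop} (M : ℕ) (F0 : Finset V)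
    (h : ∀ F : Finset V, F.card ≤ M → ∃ g, Q g ∧ ∀ k, g k ∉ F) :
    ∀ m : ℕ, F0.card + 6 * m ≤ M + 6 → ∃ g : Fin m → Fin 6 → V, (∀ i, Q (g i)) ∧
      (∀ i k, g i k ∉ F0) ∧ ∀ i j, i ≠ j → ∀ k l, g i k ≠ g j l := by
  intro m
  induction m with
  | zero =>
    intro _
    exact ⟨fun i => i.elim0, fun i => i.elim0, fun i => i.elim0, fun i => i.elim0⟩
  | succ m ih =>
    intro hm
    obtain ⟨g, h1, h2, h3⟩ := ih (by omega)
    have hF : (F0 ∪ Finset.univ.biUnion (fun i : Fin m => Finset.univ.image (g i))).card ≤ M := by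
      refine (Finset.card_union_le _ _).trans ?_
      have h4 : (Finset.univ.biUnion (fun i : Fin m => Finset.univ.image (g i))).card ≤ m * 6 := by
        refine (Finset.card_biUnion_le_card_mul _ _ 6 ?_).trans ?_
        · intro i _
          exact Finset.card_image_le.trans (by simp)
        · simp
      omega
    obtain ⟨g', hg1, hg2⟩ := h _ hF
    have hg3 : ∀ k, g' k ∉ F0 := fun k hk => hg2 k (Finset.mem_union_left _ hk)
    have hg4 : ∀ k i l, g' k ≠ g i l := by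
      intro k i l he
      apply hg2 k
      rw [he]
      exact Finset.mem_union_right _ (Finset.mem_biUnion.2 ⟨i, Finset.mem_univ _,
        Finset.mem_image.2 ⟨l, Finset.mem_univ _, rfl⟩⟩)
    refine ⟨Fin.cons g' g, ?_, ?_, ?_⟩
    · intro i
      refine Fin.cases ?_ (fun i => ?_) i
      · exact hg1
      · exact h1 i
    · intro i
      refine Fin.cases ?_ (fun i => ?_) i
      · exact hg3
      · exact h2 i
    · intro i j
      refine Fin.cases ?_ (fun i => ?_) i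
      · refine Fin.cases ?_ (fun j => ?_) j
        · exact fun h => absurd rfl h
        · intro _ k l
          exact hg4 k j l
      · refine Fin.cases ?_ (fun j => ?_) j
        · intro _ k l he
          exact hg4 l i k he.symm
        · intro hij k l
          exact h3 i j (fun h => hij (by rw [h])) k l

theorem e1t3_cyc {V : Type} [DecidableEq V] (a b c d e f : V) :
    cyc ![a, b, c, d, e, f] = {s(a, b), s(b, c), s(c, d), s(d, e), s(e, f), s(f, a)} := by
  ext p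
  rw [mem_cyc]
  simp only [Finset.mem_insert, Finset.mem_singleton]
  constructor
  · rintro ⟨i, rfl⟩
    fin_cases i <;> simp
  · rintro (rfl | rfl | rfl | rfl | rfl | rfl)
    · exact ⟨0, rfl⟩
    · exact ⟨1, rfl⟩
    · exact ⟨2, rfl⟩
    · exact ⟨3, rfl⟩
    · exact ⟨4, rfl⟩
    · exact ⟨5, rfl⟩

theorem e1t3_inj {V : Type} {a b c d e f : V} (h1 : a ≠ b) (h2 : a ≠ c) (h3 : a ≠ d) (h4 : a ≠ e)
    (h5 : a ≠ f) (h6 : b ≠ c) (h7 : b ≠ d) (h8 : b ≠ e) (h9 : b ≠ f) (h10 : c ≠ d) (h11 : c ≠ e)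
    (h12 : c ≠ f) (h13 : d ≠ e) (h14 : d ≠ f) (h15 : e ≠ f) :
    Function.Injective ![a, b, c, d, e, f] := by
  have hl : [a, b, c, d, e, f].Nodup := by
    simp [h1, h2, h3, h4, h5, h6, h7, h8, h9, h10, h11, h12, h13, h14, h15]
  have hg : (![a, b, c, d, e, f] : Fin 6 → V) = fun i => [a, b, c, d, e, f].get i := by
    funext i
    fin_cases i <;> rfl
  rw [hg]
  exact List.nodup_iff_injective_get.1 hl

/-- the requirements for one group `b, c, b', d, d', d''` -/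
structure E1t3Q {V : Type} [DecidableEq V] (E : Finset (Sym2 V)) (A' B' : Finset V) (x x' : V)
    (g : Fin 6 → V) : Prop where
  b : g 0 ∈ B'
  c : g 1 ∈ B'
  b' : g 2 ∈ B'
  d : g 3 ∈ A'
  d' : g 4 ∈ A'
  d'' : g 5 ∈ A'
  bc : g 0 ≠ g 1
  bb : g 0 ≠ g 2
  cb : g 1 ≠ g 2
  dd : g 4 ≠ g 5
  e1 : s(x, g 0) ∈ E
  e2 : s(g 0, g 1) ∈ E
  e3 : s(g 1, g 2) ∈ E
  e4 : s(g 2, x') ∈ E
  e5 : s(x', g 3) ∈ E
  e6 : s(g 3, x) ∈ E
  e7 : s(g 0, g 2) ∈ E
  e8 : s(x', g 4) ∈ E
  e9 : s(g 4, g 5) ∈ E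
  e10 : s(g 5, x) ∈ E

theorem e1t3_pick {V : Type} [DecidableEq V] {S F : Finset V} (h : F.card < S.card) :
    ∃ v ∈ S, v ∉ F := Finset.exists_mem_notMem_of_card_lt_card h

theorem e1t3_card {V : Type} [DecidableEq V] (S : Finset V) (p : V → Prop) [DecidablePred p]
    (q : V → Prop) [DecidablePred q] :
    (S.filter p).card ≤ (S.filter (fun y => p y ∧ q y)).card + (S.filter (fun y => ¬ q y)).card := by
  refine (Finset.card_le_card ?_).trans (Finset.card_union_le _ _)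
  intro y hy
  rw [Finset.mem_filter] at hy
  rw [Finset.mem_union, Finset.mem_filter, Finset.mem_filter]
  by_cases hq : q y
  · exact Or.inl ⟨hy.1, hy.2, hq⟩
  · exact Or.inr ⟨hy.1, hq⟩

theorem e1t3_step {V : Type} [Fintype V] [DecidableEq V] {τ : ℝ} (hτ : 0 < τ) (hτ' : τ ≤ 1 / 20)
    {E : Finset (Sym2 V)} {A0 B0 X A' B' : Finset V} (hl : Loopless E)
    (hE : Env1 E (τ / 4) τ A0 B0 X A' B') (hn : 100 ≤ τ * nV V) {x x' : V} (hx : x ∈ X)
    (hx' : x' ∈ X) (hcn : τ * nV V ≤ (cn E A' x x' : ℝ)) (F : Finset V) (hF : F.card ≤ 26) :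
    ∃ g, E1t3Q E A' B' x x' g ∧ ∀ k, g k ∉ F := by
  have hF' : (F.card : ℝ) ≤ 26 := by exact_mod_cast hF
  -- b
  obtain ⟨b, hb, hbF⟩ : ∃ b ∈ B'.filter (fun y => s(x, y) ∈ E), b ∉ F := by
    apply e1t3_pick
    have h1 : τ * nV V ≤ ((B'.filter (fun y => s(x, y) ∈ E)).card : ℝ) := (hE.mX x hx).2
    have h2 : (F.card : ℝ) < ((B'.filter (fun y => s(x, y) ∈ E)).card : ℝ) := by linarith
    exact_mod_cast h2
  rw [Finset.mem_filter] at hb
  -- b'
  obtain ⟨b', hb', hb'F⟩ : ∃ b' ∈ B'.filter (fun y => s(x', y) ∈ E ∧ s(b, y) ∈ E), b' ∉ F := by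
    apply e1t3_pick
    have h1 : τ * nV V ≤ ((B'.filter (fun y => s(x', y) ∈ E)).card : ℝ) := (hE.mX x' hx').2
    have h2 := e1t3_card B' (fun y => s(x', y) ∈ E) (fun y => s(b, y) ∈ E)
    have h3 := hE.nB b hb.1
    have h4 : ((B'.filter (fun y => s(x', y) ∈ E)).card : ℝ) ≤
      ((B'.filter (fun y => s(x', y) ∈ E ∧ s(b, y) ∈ E)).card : ℝ) +
        ((B'.filter (fun y => s(b, y) ∉ E)).card : ℝ) := by exact_mod_cast h2
    have h5 : (F.card : ℝ) < ((B'.filter (fun y => s(x', y) ∈ E ∧ s(b, y) ∈ E)).card : ℝ) := by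
      linarith
    exact_mod_cast h5
  rw [Finset.mem_filter] at hb'
  have hbb : b ≠ b' := hl.ne hb'.2.2
  -- c
  obtain ⟨c, hc, hcF⟩ : ∃ c ∈ B'.filter (fun y => s(b, y) ∈ E ∧ s(b', y) ∈ E), c ∉ F := by
    apply e1t3_pick
    have h1 : (1 / 2 - τ / 4) * nV V ≤ (B'.card : ℝ) := hE.sizeB
    have h2 := e1t3_card B' (fun y => s(b, y) ∈ E) (fun y => s(b', y) ∈ E)
    have h2' := e1t3_card B' (fun _ => True) (fun y => s(b, y) ∈ E)
    have h3 := hE.nB b hb.1
    have h3' := hE.nB b' hb'.1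
    simp only [Finset.filter_true, true_and] at h2'
    have h4 : ((B'.filter (fun y => s(b, y) ∈ E)).card : ℝ) ≤
      ((B'.filter (fun y => s(b, y) ∈ E ∧ s(b', y) ∈ E)).card : ℝ) +
        ((B'.filter (fun y => s(b', y) ∉ E)).card : ℝ) := by exact_mod_cast h2
    have h4' : (B'.card : ℝ) ≤
      ((B'.filter (fun y => s(b, y) ∈ E)).card : ℝ) +
        ((B'.filter (fun y => s(b, y) ∉ E)).card : ℝ) := by exact_mod_cast h2'
    have hn0 : 0 ≤ nV V := Nat.cast_nonneg _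
    have h6 : τ * nV V ≤ 1 / 20 * nV V := by gcongr
    have h5 : (F.card : ℝ) < ((B'.filter (fun y => s(b, y) ∈ E ∧ s(b', y) ∈ E)).card : ℝ) := by
      linarith
    exact_mod_cast h5
  rw [Finset.mem_filter] at hc
  -- d
  obtain ⟨d, hd, hdF⟩ : ∃ d ∈ A'.filter (fun m => s(x, m) ∈ E ∧ s(m, x') ∈ E), d ∉ F := by
    apply e1t3_pick
    have h2 : (F.card : ℝ) < ((A'.filter (fun m => s(x, m) ∈ E ∧ s(m, x') ∈ E)).card : ℝ) := by
      have : τ * nV V ≤ ((A'.filter (fun m => s(x, m) ∈ E ∧ s(m, x') ∈ E)).card : ℝ) := hcn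
      linarith
    exact_mod_cast h2
  rw [Finset.mem_filter] at hd
  -- d'
  obtain ⟨d', hd', hd'F⟩ : ∃ d' ∈ A'.filter (fun y => s(x', y) ∈ E), d' ∉ F := by
    apply e1t3_pick
    have h1 : τ * nV V ≤ ((A'.filter (fun y => s(x', y) ∈ E)).card : ℝ) := (hE.mX x' hx').1
    have h2 : (F.card : ℝ) < ((A'.filter (fun y => s(x', y) ∈ E)).card : ℝ) := by linarith
    exact_mod_cast h2
  rw [Finset.mem_filter] at hd'
  -- d''
  obtain ⟨d'', hd'', hd''F⟩ : ∃ d'' ∈ A'.filter (fun y => s(x, y) ∈ E ∧ s(d', y) ∈ E), d'' ∉ F := by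
    apply e1t3_pick
    have h1 : τ * nV V ≤ ((A'.filter (fun y => s(x, y) ∈ E)).card : ℝ) := (hE.mX x hx).1
    have h2 := e1t3_card A' (fun y => s(x, y) ∈ E) (fun y => s(d', y) ∈ E)
    have h3 := hE.nA d' hd'.1
    have h4 : ((A'.filter (fun y => s(x, y) ∈ E)).card : ℝ) ≤
      ((A'.filter (fun y => s(x, y) ∈ E ∧ s(d', y) ∈ E)).card : ℝ) +
        ((A'.filter (fun y => s(d', y) ∉ E)).card : ℝ) := by exact_mod_cast h2
    have h5 : (F.card : ℝ) < ((A'.filter (fun y => s(x, y) ∈ E ∧ s(d', y) ∈ E)).card : ℝ) := by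
      linarith
    exact_mod_cast h5
  rw [Finset.mem_filter] at hd''
  refine ⟨![b, c, b', d, d', d''], ?_, ?_⟩
  · exact
      { b := hb.1
        c := hc.1
        b' := hb'.1
        d := hd.1
        d' := hd'.1
        d'' := hd''.1
        bc := hl.ne hc.2.1
        bb := hbb
        cb := (hl.ne hc.2.2).symm
        dd := hl.ne hd''.2.2
        e1 := hb.2
        e2 := hc.2.1
        e3 := by rw [Sym2.eq_swap]; exact hc.2.2
        e4 := by rw [Sym2.eq_swap]; exact hb'.2.1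
        e5 := by rw [Sym2.eq_swap]; exact hd.2.2
        e6 := by rw [Sym2.eq_swap]; exact hd.2.1
        e7 := hb'.2.2
        e8 := hd'.2
        e9 := hd''.2.2
        e10 := by rw [Sym2.eq_swap]; exact hd''.2.1 }
  · intro k
    fin_cases k
    · exact hbF
    · exact hcF
    · exact hb'F
    · exact hdF
    · exact hd'F
    · exact hd''F

theorem e1t3_mem_inn {V : Type} [DecidableEq V] {E : Finset (Sym2 V)} {A : Finset V} :
    inn E A = E.filter (fun e => e ∈ A.sym2) := by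
  unfold inn
  exact (Finset.filter_mem_eq_inter).symm

theorem e1t3_mem_crs {V : Type} [DecidableEq V] {E : Finset (Sym2 V)} {A B : Finset V} :
    crs E A B = E.filter (fun e => e ∉ A.sym2 ∧ e ∉ B.sym2) := by
  unfold crs
  ext e
  rw [Finset.mem_sdiff, Finset.mem_sdiff, Finset.mem_filter]
  tauto

theorem e1t3_group {V : Type} [Fintype V] [DecidableEq V] {ε τ : ℝ}
    {E : Finset (Sym2 V)} {A0 B0 X A' B' : Finset V}
    (hE : Env1 E ε τ A0 B0 X A' B') {x x' : V} (hx : x ∈ X)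
    (hx' : x' ∈ X) (hne : x ≠ x') {g : Fin 6 → V} (hg : E1t3Q E A' B' x x' g) :
    IsC6 (cyc ![x, g 0, g 1, g 2, x', g 3]) ∧ IsC6 (cyc ![x, g 0, g 2, x', g 4, g 5]) ∧
    cyc ![x, g 0, g 1, g 2, x', g 3] ⊆ E ∧ cyc ![x, g 0, g 2, x', g 4, g 5] ⊆ E ∧
    crs (cyc ![x, g 0, g 1, g 2, x', g 3]) (A0 ∪ X) B0 =
      crs (cyc ![x, g 0, g 2, x', g 4, g 5]) (A0 ∪ X) B0 ∧
    (inn (cyc ![x, g 0, g 2, x', g 4, g 5]) (A0 ∪ X)).card =
      (inn (cyc ![x, g 0, g 1, g 2, x', g 3]) (A0 ∪ X)).card + 1 := by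
  obtain ⟨b, c, b', d, d', d'', bc, bb, cb, dd, e1, e2, e3, e4, e5, e6, e7, e8, e9, e10⟩ := hg
  generalize g 0 = vb at *
  generalize g 1 = vc at *
  generalize g 2 = vb' at *
  generalize g 3 = vd at *
  generalize g 4 = vd' at *
  generalize g 5 = vd'' at *
  have memA : ∀ v, v ∈ A' → v ∈ A0 ∪ X := fun v hv => Finset.mem_union_left _ (hE.subA hv)
  have memX : ∀ v, v ∈ X → v ∈ A0 ∪ X := fun v hv => Finset.mem_union_right _ hv
  have memB : ∀ v, v ∈ B' → v ∈ B0 := fun v hv => hE.subB hv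
  have notA : ∀ v, v ∈ B0 → v ∉ A0 ∪ X := by
    intro v hv hv'
    rcases Finset.mem_union.1 hv' with h | h
    · exact Finset.disjoint_left.1 hE.dAB h hv
    · exact Finset.disjoint_left.1 hE.dBX hv h
  have notB : ∀ v, v ∈ A0 ∪ X → v ∉ B0 := fun v hv hv' => notA v hv' hv
  have neAB : ∀ u v, u ∈ A0 ∪ X → v ∈ B0 → u ≠ v := by
    rintro u v hu hv rfl
    exact notA u hv hu
  have neAX : ∀ u v, u ∈ A' → v ∈ X → u ≠ v := by
    rintro u v hu hv rfl
    exact Finset.disjoint_left.1 hE.dAX (hE.subA hu) hv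
  have hxA := memX x hx
  have hx'A := memX x' hx'
  have hdA := memA vd d
  have hd'A := memA vd' d'
  have hd''A := memA vd'' d''
  have hbB := memB vb b
  have hcB := memB vc c
  have hb'B := memB vb' b'
  have hbA := notA vb hbB
  have hcA := notA vc hcB
  have hb'A := notA vb' hb'B
  have hxB := notB x hxA
  have hx'B := notB x' hx'A
  have hdB := notB vd hdA
  have hd'B := notB vd' hd'A
  have hd''B := notB vd'' hd''A
  refine ⟨⟨_, e1t3_inj (neAB _ _ hxA hbB) (neAB _ _ hxA hcB) (neAB _ _ hxA hb'B) hne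
      (neAX _ _ d hx).symm bc bb (neAB _ _ hx'A hbB).symm (neAB _ _ hdA hbB).symm cb
      (neAB _ _ hx'A hcB).symm (neAB _ _ hdA hcB).symm (neAB _ _ hx'A hb'B).symm
      (neAB _ _ hdA hb'B).symm (neAX _ _ d hx').symm, rfl⟩,
    ⟨_, e1t3_inj (neAB _ _ hxA hbB) (neAB _ _ hxA hb'B) hne (neAX _ _ d' hx).symm
      (neAX _ _ d'' hx).symm bb (neAB _ _ hx'A hbB).symm (neAB _ _ hd'A hbB).symm
      (neAB _ _ hd''A hbB).symm (neAB _ _ hx'A hb'B).symm (neAB _ _ hd'A hb'B).symm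
      (neAB _ _ hd''A hb'B).symm (neAX _ _ d' hx').symm (neAX _ _ d'' hx').symm dd, rfl⟩,
    ?_, ?_, ?_, ?_⟩
  · rw [e1t3_cyc]
    intro e he
    simp only [Finset.mem_insert, Finset.mem_singleton] at he
    rcases he with rfl | rfl | rfl | rfl | rfl | rfl <;> assumption
  · rw [e1t3_cyc]
    intro e he
    simp only [Finset.mem_insert, Finset.mem_singleton] at he
    rcases he with rfl | rfl | rfl | rfl | rfl | rfl <;> assumption
  · rw [e1t3_cyc, e1t3_cyc, e1t3_mem_crs, e1t3_mem_crs]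
    simp only [Finset.filter_insert, Finset.filter_singleton, Finset.mk_mem_sym2_iff, hxA, hx'A, hdA,
      hd'A, hd''A, hbA, hcA, hb'A, hbB, hcB, hb'B, hxB, hx'B, hdB, hd'B, hd''B, and_true, and_false,
      true_and, false_and, not_true, not_false_iff, if_true, if_false]
  · have i0 : inn (cyc ![x, vb, vc, vb', x', vd]) (A0 ∪ X) = {s(x', vd), s(vd, x)} := by
      rw [e1t3_cyc, e1t3_mem_inn]
      simp only [Finset.filter_insert, Finset.filter_singleton, Finset.mk_mem_sym2_iff, hxA, hx'A,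
        hdA, hbA, hcA, hb'A, and_true, and_false, false_and, if_true,
        if_false]
    have i1 : inn (cyc ![x, vb, vb', x', vd', vd'']) (A0 ∪ X) =
        {s(x', vd'), s(vd', vd''), s(vd'', x)} := by
      rw [e1t3_cyc, e1t3_mem_inn]
      simp only [Finset.filter_insert, Finset.filter_singleton, Finset.mk_mem_sym2_iff, hxA, hx'A,
        hd'A, hd''A, hbA, hb'A, and_true, and_false, false_and, if_true,
        if_false]
    have n1 : vd ≠ x := neAX _ _ d hx
    have n2 : vd ≠ x' := neAX _ _ d hx'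
    have n3 : vd' ≠ x := neAX _ _ d' hx
    have n4 : vd' ≠ x' := neAX _ _ d' hx'
    have n5 : vd'' ≠ x := neAX _ _ d'' hx
    have n6 : vd'' ≠ x' := neAX _ _ d'' hx'
    rw [i0, i1, Finset.card_pair, Finset.card_insert_of_notMem, Finset.card_pair]
    · intro h
      rw [Sym2.eq_iff] at h
      rcases h with h | h
      · exact dd h.1
      · exact n3 h.1
    · intro h
      rw [Finset.mem_insert, Finset.mem_singleton, Sym2.eq_iff, Sym2.eq_iff] at h
      rcases h with (h | h) | (h | h)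
      · exact n4 h.1.symm
      · exact n6 h.1.symm
      · exact n6 h.1.symm
      · exact hne h.1.symm
    · intro h
      rw [Sym2.eq_iff] at h
      rcases h with h | h
      · exact n2 h.1.symm
      · exact hne h.1.symm

/-- every edge of a group contains a private vertex, and only `x`, `x'` besides -/
theorem e1t3_priv {V : Type} [DecidableEq V] {x x' : V} {g : Fin 6 → V} {e : Sym2 V}
    (he : e ∈ cyc ![x, g 0, g 1, g 2, x', g 3] ∪ cyc ![x, g 0, g 2, x', g 4, g 5]) :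
    (∃ k, g k ∈ e) ∧ ∀ v ∈ e, v = x ∨ v = x' ∨ ∃ k, v = g k := by
  rw [e1t3_cyc, e1t3_cyc] at he
  simp only [Finset.mem_union, Finset.mem_insert, Finset.mem_singleton] at he
  have h1 : ∀ v k, v ∈ s(x, g k) → v = x ∨ v = x' ∨ ∃ k, v = g k := by
    intro v k hv
    rcases Sym2.mem_iff.1 hv with h | h
    · exact Or.inl h
    · exact Or.inr (Or.inr ⟨k, h⟩)
  have h2 : ∀ v k, v ∈ s(g k, x) → v = x ∨ v = x' ∨ ∃ k, v = g k := by
    intro v k hv
    rw [Sym2.eq_swap] at hv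
    exact h1 v k hv
  have h3 : ∀ v k, v ∈ s(x', g k) → v = x ∨ v = x' ∨ ∃ k, v = g k := by
    intro v k hv
    rcases Sym2.mem_iff.1 hv with h | h
    · exact Or.inr (Or.inl h)
    · exact Or.inr (Or.inr ⟨k, h⟩)
  have h4 : ∀ v k, v ∈ s(g k, x') → v = x ∨ v = x' ∨ ∃ k, v = g k := by
    intro v k hv
    rw [Sym2.eq_swap] at hv
    exact h3 v k hv
  have h5 : ∀ v k l, v ∈ s(g k, g l) → v = x ∨ v = x' ∨ ∃ k, v = g k := by
    intro v k l hv
    rcases Sym2.mem_iff.1 hv with h | h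
    · exact Or.inr (Or.inr ⟨k, h⟩)
    · exact Or.inr (Or.inr ⟨l, h⟩)
  rcases he with (rfl | rfl | rfl | rfl | rfl | rfl) | (rfl | rfl | rfl | rfl | rfl | rfl)
  · exact ⟨⟨0, Sym2.mem_mk_right _ _⟩, fun v => h1 v 0⟩
  · exact ⟨⟨0, Sym2.mem_mk_left _ _⟩, fun v => h5 v 0 1⟩
  · exact ⟨⟨1, Sym2.mem_mk_left _ _⟩, fun v => h5 v 1 2⟩
  · exact ⟨⟨2, Sym2.mem_mk_left _ _⟩, fun v => h4 v 2⟩
  · exact ⟨⟨3, Sym2.mem_mk_right _ _⟩, fun v => h3 v 3⟩
  · exact ⟨⟨3, Sym2.mem_mk_left _ _⟩, fun v => h2 v 3⟩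
  · exact ⟨⟨0, Sym2.mem_mk_right _ _⟩, fun v => h1 v 0⟩
  · exact ⟨⟨0, Sym2.mem_mk_left _ _⟩, fun v => h5 v 0 2⟩
  · exact ⟨⟨2, Sym2.mem_mk_left _ _⟩, fun v => h4 v 2⟩
  · exact ⟨⟨4, Sym2.mem_mk_right _ _⟩, fun v => h3 v 4⟩
  · exact ⟨⟨4, Sym2.mem_mk_left _ _⟩, fun v => h5 v 4 5⟩
  · exact ⟨⟨5, Sym2.mem_mk_left _ _⟩, fun v => h2 v 5⟩

theorem sw_T3 (τ : ℝ) (hτ : 0 < τ) (hτ' : τ ≤ 1 / 20) :
    ∃ ε : ℝ, 0 < ε ∧ ∃ n0 : ℕ, ∀ (V : Type) [Fintype V] [DecidableEq V]
      (E : Finset (Sym2 V)) (A0 B0 X A' B' : Finset V), n0 ≤ Fintype.card V → Loopless E →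
      Env1 E ε τ A0 B0 X A' B' →
      (∃ x ∈ X, ∃ x' ∈ X, x ≠ x' ∧ τ * nV V ≤ (cn E A' x x' : ℝ)) →
      Switch5 E (A0 ∪ X) B0 := by
  obtain ⟨n0, hn0⟩ := exists_nat_ge (100 / τ)
  refine ⟨τ / 4, by positivity, n0, ?_⟩
  intro V _ _ E A0 B0 X A' B' hn hl hE hex
  obtain ⟨x, hx, x', hx', hne, hcn⟩ := hex
  have hn1 : 100 ≤ τ * nV V := by
    have h1 : (n0 : ℝ) ≤ nV V := by exact_mod_cast hn
    have h2 : 100 / τ ≤ nV V := hn0.trans h1
    rw [div_le_iff₀ hτ] at h2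
    linarith
  obtain ⟨g, hg1, hg2, hg3⟩ := e1t3_greedy 26 {x, x'}
    (fun F hF => e1t3_step hτ hτ' hl hE hn1 hx hx' hcn F hF) 5 (by
      rw [Finset.card_pair hne])
  refine ⟨fun i => cyc ![x, g i 0, g i 1, g i 2, x', g i 3],
    fun i => cyc ![x, g i 0, g i 2, x', g i 4, g i 5],
    fun i => e1t3_group hE hx hx' hne (hg1 i), ?_⟩
  intro i j hij
  rw [Finset.disjoint_left]
  intro e hei hej
  obtain ⟨⟨k, hk⟩, -⟩ := e1t3_priv hei
  obtain ⟨-, h2⟩ := e1t3_priv hej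
  have hF : g i k ∉ ({x, x'} : Finset V) := hg2 i k
  rw [Finset.mem_insert, Finset.mem_singleton] at hF
  rcases h2 _ hk with h | h | ⟨l, h⟩
  · exact hF (Or.inl h)
  · exact hF (Or.inr h)
  · exact hg3 i j hij k l h

end H15C6
end S_E1T3
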