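import Pool.Agent.H15.C6F.FF
import Pool.Agent.H15.C6F.FH
import Pool.Agent.H15.C6F.FI

section S_D1A0
/-!
Module D1A0 (part of D1A).  The exact case `n = 4k+1`: `V = A0 ⊔ B0 ⊔ {x}`, `|A0| = |B0| = 2k`, all degrees even and at least `2k`, at
most four edges between `A0` and `B0` (`F0 := crs E AX BX`, `AX = insert x A0`, `BX = insert x B0`).

Facts.  For `a ∈ A0` let `m a = #{v ∈ AX : v ≠ a, s(a,v) ∉ E}`; `deg a = 2k - m a + deg F0 a`, so
`m a ≤ deg F0 a` and `m a ≡ deg F0 a (mod 2)`.  A *clean* vertex (`deg F0 a = 0`) is adjacent to all other vertices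
of `AX`; at most four vertices of `A0` are not clean.
`2 |inn E AX| = ∑_{a ∈ A0} (2k - m a) + dg E A0 x`.
`d1_pass`: a six-cycle through `x` and the single cross edge `s(a,b)` with exactly `r` edges inside `AX` (and `5 - r`
inside `BX`): path from `x` to `a` of length `r` with clean private inner vertices in `A0`, path from `b` to `x` of
length `5 - r` with clean private inner vertices in `B0`.
`d1_two`: a six-cycle with two disjoint cross edges, `r` edges inside `AX` joining `a, a'` and `4 - r` inside `BX`.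
-/

open Finset

namespace H15C6

variable {V : Type} [Fintype V] [DecidableEq V] {E : Finset (Sym2 V)} {k : ℕ} {A0 B0 : Finset V}
  {x : V}

structure D1Env {V : Type} [Fintype V] [DecidableEq V] (E : Finset (Sym2 V)) (k : ℕ)
    (A0 B0 : Finset V) (x : V) : Prop where
  disj : Disjoint A0 B0
  hxA : x ∉ A0
  hxB : x ∉ B0
  cover : insert x (A0 ∪ B0) = Finset.univ
  cardA : A0.card = 2 * k
  cardB : B0.card = 2 * k
  loopless : Loopless E
  even : EvenDeg E
  six : 6 ∣ E.card
  mindeg : ∀ v, 2 * k ≤ deg E v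
  few : (crs E (insert x A0) (insert x B0)).card ≤ 4
  big : 40 ≤ k

/-- the goal of the exact case -/
def D1Goal {V : Type} [DecidableEq V] (E : Finset (Sym2 V)) (A0 B0 : Finset V) (x : V) : Prop :=
  ∃ D0 ⊆ E, Dec D0 ∧ crs E (insert x A0) (insert x B0) ⊆ D0 ∧ D0.card ≤ 24 ∧
    6 ∣ (inn (E \ D0) (insert x A0)).card

/-- missing inner edges at `a` -/
def mis (E : Finset (Sym2 V)) (A0 : Finset V) (x a : V) : ℕ :=
  ((insert x A0).filter (fun v => v ≠ a ∧ s(a, v) ∉ E)).card

end H15C6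
end S_D1A0

section S_D1A1
/-!
Module D1A1 (part of D1A).  The exact case `n = 4k+1`: `V = A0 ⊔ B0 ⊔ {x}`, `|A0| = |B0| = 2k`, all degrees even and at least `2k`, at
most four edges between `A0` and `B0` (`F0 := crs E AX BX`, `AX = insert x A0`, `BX = insert x B0`).

Facts.  For `a ∈ A0` let `m a = #{v ∈ AX : v ≠ a, s(a,v) ∉ E}`; `deg a = 2k - m a + deg F0 a`, so
`m a ≤ deg F0 a` and `m a ≡ deg F0 a (mod 2)`.  A *clean* vertex (`deg F0 a = 0`) is adjacent to all other vertices
of `AX`; at most four vertices of `A0` are not clean.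
`2 |inn E AX| = ∑_{a ∈ A0} (2k - m a) + dg E A0 x`.
`d1_pass`: a six-cycle through `x` and the single cross edge `s(a,b)` with exactly `r` edges inside `AX` (and `5 - r`
inside `BX`): path from `x` to `a` of length `r` with clean private inner vertices in `A0`, path from `b` to `x` of
length `5 - r` with clean private inner vertices in `B0`.
`d1_two`: a six-cycle with two disjoint cross edges, `r` edges inside `AX` joining `a, a'` and `4 - r` inside `BX`.
-/

open Finset

namespace H15C6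

variable {V : Type} [Fintype V] [DecidableEq V] {E : Finset (Sym2 V)} {k : ℕ} {A0 B0 : Finset V}
  {x : V}

theorem d1a1_crs_comm (E : Finset (Sym2 V)) (A B : Finset V) : crs E A B = crs E B A := by
  ext e
  simp only [crs, Finset.mem_sdiff]
  tauto

theorem D1Env.swap (h : D1Env E k A0 B0 x) : D1Env E k B0 A0 x where
  disj := h.disj.symm
  hxA := h.hxB
  hxB := h.hxA
  cover := by rw [Finset.union_comm]; exact h.cover
  cardA := h.cardB
  cardB := h.cardA
  loopless := h.loopless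
  even := h.even
  six := h.six
  mindeg := h.mindeg
  few := by rw [d1a1_crs_comm]; exact h.few
  big := h.big

/-- the two kinds of inner edges are disjoint -/
theorem D1Env.d1a1_inn_disj (h : D1Env E k A0 B0 x) {F : Finset (Sym2 V)} (hF : F ⊆ E) :
    Disjoint (inn F (insert x A0)) (inn F (insert x B0)) := by
  rw [Finset.disjoint_left]
  intro e he he'
  unfold inn at he he'
  rw [Finset.mem_inter] at he he'
  induction e using Sym2.ind with
  | _ u v =>
    rw [Finset.mk_mem_sym2_iff] at he he'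
    have key : ∀ w, w ∈ insert x A0 → w ∈ insert x B0 → w = x := by
      intro w hw hw'
      rw [Finset.mem_insert] at hw hw'
      rcases hw with hw | hw
      · exact hw
      · rcases hw' with hw' | hw'
        · exact hw'
        · exact absurd hw' (Finset.disjoint_left.1 h.disj hw)
    have hu := key u he.2.1 he'.2.1
    have hv := key v he.2.2 he'.2.2
    subst hu
    subst hv
    exact h.loopless _ (hF he.1)

theorem D1Env.d1a1_total' (h : D1Env E k A0 B0 x) {F : Finset (Sym2 V)} (hF : F ⊆ E) :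
    (inn F (insert x A0)).card + (inn F (insert x B0)).card +
      (crs F (insert x A0) (insert x B0)).card = F.card := by
  rw [← Finset.card_union_of_disjoint (h.d1a1_inn_disj hF), ← Finset.card_union_of_disjoint]
  · congr 1
    ext e
    simp only [inn, crs, Finset.mem_union, Finset.mem_inter, Finset.mem_sdiff]
    tauto
  · rw [Finset.disjoint_left]
    intro e he he'
    simp only [inn, crs, Finset.mem_union, Finset.mem_inter, Finset.mem_sdiff] at he he'
    tauto

theorem D1Env.total (h : D1Env E k A0 B0 x) :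
    (inn E (insert x A0)).card + (inn E (insert x B0)).card +
      (crs E (insert x A0) (insert x B0)).card = E.card := h.d1a1_total' (Finset.Subset.refl _)

theorem D1Env.goal_swap (h : D1Env E k A0 B0 x) (hg : D1Goal E B0 A0 x) : D1Goal E A0 B0 x := by
  obtain ⟨D0, hDE, hD, hc, h24, h6⟩ := hg
  rw [d1a1_crs_comm] at hc
  refine ⟨D0, hDE, hD, hc, h24, ?_⟩
  have h1 := h.d1a1_total' (F := E \ D0) Finset.sdiff_subset
  have h2 : crs (E \ D0) (insert x A0) (insert x B0) = ∅ := by
    rw [Finset.eq_empty_iff_forall_notMem]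
    intro e he
    simp only [crs, Finset.mem_sdiff] at he
    refine he.1.1.2 (hc ?_)
    simp only [crs, Finset.mem_sdiff]
    exact ⟨⟨he.1.1.1, he.1.2⟩, he.2⟩
  rw [h2, Finset.card_empty, add_zero] at h1
  have h3 : (E \ D0).card + D0.card = E.card := Finset.card_sdiff_add_card_eq_card hDE
  have h4 := hD.six_dvd
  have h5 := h.six
  omega

/-- degrees inside `AX` -/
theorem d1a1_deg_inn (E : Finset (Sym2 V)) (A : Finset V) {a : V} (ha : a ∈ A) :
    deg (inn E A) a = dg E A a := by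
  rw [deg_eq_dg (U := A) (E := inn E A) Finset.inter_subset_right]
  unfold dg
  congr 1
  ext y
  simp only [Finset.mem_filter, inn, Finset.mem_inter, Finset.mk_mem_sym2_iff]
  tauto

theorem D1Env.d1a1_dgA (h : D1Env E k A0 B0 x) {a : V} (ha : a ∈ A0) :
    dg E (insert x A0) a + mis E A0 x a = 2 * k := by
  have hax : a ∈ insert x A0 := Finset.mem_insert_of_mem ha
  have hc : ((insert x A0).erase a).card = 2 * k := by
    rw [Finset.card_erase_of_mem hax, Finset.card_insert_of_notMem h.hxA, h.cardA]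
    rfl
  rw [← hc]
  unfold dg mis
  rw [← Finset.card_union_of_disjoint]
  · congr 1
    ext y
    simp only [Finset.mem_union, Finset.mem_filter, Finset.mem_erase]
    constructor
    · rintro (⟨h1, h2⟩ | ⟨h1, h2, h3⟩)
      · exact ⟨(h.loopless.ne h2).symm, h1⟩
      · exact ⟨h2, h1⟩
    · rintro ⟨h1, h2⟩
      by_cases h3 : s(a, y) ∈ E
      · exact Or.inl ⟨h2, h3⟩
      · exact Or.inr ⟨h2, h1, h3⟩
  · rw [Finset.disjoint_left]
    intro y hy hy'
    rw [Finset.mem_filter] at hy hy'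
    exact hy'.2.2 hy.2

theorem D1Env.d1a1_degA (h : D1Env E k A0 B0 x) {a : V} (ha : a ∈ A0) :
    deg E a = dg E (insert x A0) a + deg (crs E (insert x A0) (insert x B0)) a := by
  have haB : a ∉ insert x B0 := by
    rw [Finset.mem_insert, not_or]
    exact ⟨fun hh => h.hxA (hh ▸ ha), Finset.disjoint_left.1 h.disj ha⟩
  have haA : a ∈ insert x A0 := Finset.mem_insert_of_mem ha
  have hsub : inn E (insert x A0) ⊆ E := Finset.inter_subset_left
  have hE : E = inn E (insert x A0) ∪ (E \ inn E (insert x A0)) :=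
    (Finset.union_sdiff_of_subset hsub).symm
  have h1 : deg E a = deg (inn E (insert x A0)) a + deg (E \ inn E (insert x A0)) a := by
    rw [← deg_union Finset.disjoint_sdiff, ← hE]
  rw [h1, d1a1_deg_inn E _ haA]
  congr 1
  unfold deg
  congr 1
  ext e
  simp only [inn, crs, Finset.mem_filter, Finset.mem_sdiff, Finset.mem_inter]
  constructor
  · rintro ⟨⟨h2, h3⟩, h4⟩
    refine ⟨⟨⟨h2, fun h5 => h3 ⟨h2, h5⟩⟩, fun h5 => haB ?_⟩, h4⟩
    rw [Finset.mem_sym2_iff] at h5
    exact h5 a h4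
  · rintro ⟨⟨⟨h2, h3⟩, _⟩, h4⟩
    exact ⟨⟨h2, fun h5 => h3 h5.2⟩, h4⟩

theorem D1Env.mis_le (h : D1Env E k A0 B0 x) {a : V} (ha : a ∈ A0) :
    mis E A0 x a ≤ deg (crs E (insert x A0) (insert x B0)) a ∧
      (Even (mis E A0 x a) ↔ Even (deg (crs E (insert x A0) (insert x B0)) a)) := by
  have h1 := h.d1a1_dgA ha
  have h2 := h.d1a1_degA ha
  have h3 := h.mindeg a
  have h4 := h.even a
  rw [Nat.even_iff] at h4
  constructor
  · omega
  · rw [Nat.even_iff, Nat.even_iff]
    omega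

theorem D1Env.clean (h : D1Env E k A0 B0 x) {a : V} (ha : a ∈ A0)
    (hc : deg (crs E (insert x A0) (insert x B0)) a = 0) :
    ∀ v ∈ insert x A0, v ≠ a → s(a, v) ∈ E := by
  intro v hv hva
  have h1 := (h.mis_le ha).1
  rw [hc, Nat.le_zero, mis, Finset.card_eq_zero, Finset.filter_eq_empty_iff] at h1
  by_contra h2
  exact h1 hv ⟨hva, h2⟩

/-- number of edges inside `AX`: `2 N_A + ∑ m a + h_A = 2k(2k+1)`, `h_A = #{a ∈ A0 : s(x,a) ∉ E}` -/
theorem D1Env.count (h : D1Env E k A0 B0 x) :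
    2 * (inn E (insert x A0)).card + (∑ a ∈ A0, mis E A0 x a) +
      (A0.filter (fun a => s(x, a) ∉ E)).card = 2 * k * (2 * k + 1) := by
  have h1 := sum_deg (E := inn E (insert x A0)) (U := insert x A0) Finset.inter_subset_right
    (h.loopless.mono Finset.inter_subset_left)
  rw [Finset.sum_insert h.hxA, d1a1_deg_inn E _ (Finset.mem_insert_self _ _)] at h1
  have h2 : ∑ a ∈ A0, deg (inn E (insert x A0)) a + ∑ a ∈ A0, mis E A0 x a = 2 * k * (2 * k) := by
    rw [← Finset.sum_add_distrib]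
    have : ∀ a ∈ A0, deg (inn E (insert x A0)) a + mis E A0 x a = 2 * k := by
      intro a ha
      rw [d1a1_deg_inn E _ (Finset.mem_insert_of_mem ha), h.d1a1_dgA ha]
    rw [Finset.sum_congr rfl this, Finset.sum_const, h.cardA, smul_eq_mul]
  have h3 : dg E (insert x A0) x + (A0.filter (fun a => s(x, a) ∉ E)).card = 2 * k := by
    have h4 : dg E (insert x A0) x = (A0.filter (fun a => s(x, a) ∈ E)).card := by
      unfold dg
      congr 1
      ext y
      simp only [Finset.mem_filter, Finset.mem_insert]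
      constructor
      · rintro ⟨h5 | h5, h6⟩
        · subst h5
          exact absurd h6 (h.loopless _)
        · exact ⟨h5, h6⟩
      · rintro ⟨h5, h6⟩
        exact ⟨Or.inr h5, h6⟩
    rw [h4, Finset.card_filter_add_card_filter_not, h.cardA]
  rw [← h1]
  have h5 : 2 * k * (2 * k + 1) = 2 * k * (2 * k) + 2 * k := by ring
  omega

end H15C6
end S_D1A1

section S_D1A2
/-!
Module D1A2 (part of D1A).  The exact case `n = 4k+1`: `V = A0 ⊔ B0 ⊔ {x}`, `|A0| = |B0| = 2k`, all degrees even and at least `2k`, at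
most four edges between `A0` and `B0` (`F0 := crs E AX BX`, `AX = insert x A0`, `BX = insert x B0`).

Facts.  For `a ∈ A0` let `m a = #{v ∈ AX : v ≠ a, s(a,v) ∉ E}`; `deg a = 2k - m a + deg F0 a`, so
`m a ≤ deg F0 a` and `m a ≡ deg F0 a (mod 2)`.  A *clean* vertex (`deg F0 a = 0`) is adjacent to all other vertices
of `AX`; at most four vertices of `A0` are not clean.
`2 |inn E AX| = ∑_{a ∈ A0} (2k - m a) + dg E A0 x`.
`d1_pass`: a six-cycle through `x` and the single cross edge `s(a,b)` with exactly `r` edges inside `AX` (and `5 - r`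
inside `BX`): path from `x` to `a` of length `r` with clean private inner vertices in `A0`, path from `b` to `x` of
length `5 - r` with clean private inner vertices in `B0`.
`d1_two`: a six-cycle with two disjoint cross edges, `r` edges inside `AX` joining `a, a'` and `4 - r` inside `BX`.
-/

open Finset

namespace H15C6

variable {V : Type} [Fintype V] [DecidableEq V] {E : Finset (Sym2 V)} {k : ℕ} {A0 B0 : Finset V}
  {x : V}

omit [Fintype V] in
theorem d1a2_inn {v : Fin 6 → V} (hv : Function.Injective v) (S : Finset V) (α : Fin 6 → Bool)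
    (hα : ∀ i, v i ∈ S ↔ α i = true) :
    (inn (cyc v) S).card
      = (Finset.univ.filter (fun i : Fin 6 => (α i && α (i + 1)) = true)).card := by
  have : inn (cyc v) S = (Finset.univ.filter (fun i : Fin 6 => (α i && α (i + 1)) = true)).image
      (fun i : Fin 6 => s(v i, v (i + 1))) := by
    ext e
    simp only [inn, Finset.mem_inter, mem_cyc, Finset.mem_image, Finset.mem_filter,
      Finset.mem_univ, true_and, Bool.and_eq_true]
    constructor
    · rintro ⟨⟨i, rfl⟩, h⟩
      rw [Finset.mk_mem_sym2_iff, hα, hα] at h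
      exact ⟨i, h, rfl⟩
    · rintro ⟨i, h, rfl⟩
      refine ⟨⟨i, rfl⟩, ?_⟩
      rw [Finset.mk_mem_sym2_iff, hα, hα]
      exact h
  rw [this, Finset.card_image_of_injective _ (cyc_inj hv)]

omit [Fintype V] in
theorem d1a2_crs (v : Fin 6 → V) (S T : Finset V) (α β : Fin 6 → Bool)
    (hα : ∀ i, v i ∈ S ↔ α i = true) (hβ : ∀ i, v i ∈ T ↔ β i = true) :
    crs (cyc v) S T = (Finset.univ.filter (fun i : Fin 6 =>
        (!(α i && α (i + 1)) && !(β i && β (i + 1))) = true)).image
      (fun i : Fin 6 => s(v i, v (i + 1))) := by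
  ext e
  simp only [crs, Finset.mem_sdiff, mem_cyc, Finset.mem_image, Finset.mem_filter,
    Finset.mem_univ, true_and, Bool.and_eq_true, Bool.not_eq_true']
  constructor
  · rintro ⟨⟨⟨i, rfl⟩, h1⟩, h2⟩
    rw [Finset.mk_mem_sym2_iff, hα, hα] at h1
    rw [Finset.mk_mem_sym2_iff, hβ, hβ] at h2
    refine ⟨i, ⟨?_, ?_⟩, rfl⟩
    · rw [← Bool.not_eq_true, Bool.and_eq_true]; exact h1
    · rw [← Bool.not_eq_true, Bool.and_eq_true]; exact h2
  · rintro ⟨i, ⟨h1, h2⟩, rfl⟩
    rw [← Bool.not_eq_true, Bool.and_eq_true] at h1 h2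
    refine ⟨⟨⟨i, rfl⟩, ?_⟩, ?_⟩
    · rw [Finset.mk_mem_sym2_iff, hα, hα]; exact h1
    · rw [Finset.mk_mem_sym2_iff, hβ, hβ]; exact h2

omit [Fintype V] [DecidableEq V] in
theorem d1a2_inj {a0 a1 a2 a3 a4 a5 : V} (h : [a0, a1, a2, a3, a4, a5].Nodup) :
    Function.Injective ![a0, a1, a2, a3, a4, a5] := by
  have h1 : List.ofFn ![a0, a1, a2, a3, a4, a5] = [a0, a1, a2, a3, a4, a5] := by
    simp [List.ofFn_succ]
  rw [← h1] at h
  exact List.nodup_ofFn.1 h

omit [Fintype V] in
theorem d1a2_T (v : Fin 6 → V) : ∃ T : Finset V, T.card ≤ 6 ∧ cyc v ⊆ T.sym2 := by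
  refine ⟨Finset.univ.image v, Finset.card_image_le.trans (by simp), ?_⟩
  intro e he
  rw [mem_cyc] at he
  obtain ⟨i, rfl⟩ := he
  rw [Finset.mk_mem_sym2_iff]
  exact ⟨Finset.mem_image_of_mem _ (Finset.mem_univ _), Finset.mem_image_of_mem _ (Finset.mem_univ _)⟩

theorem D1Env.d1a2_pick (h : D1Env E k A0 B0 x) (Z : Finset V) (hZ : Z.card ≤ 60) :
    ∃ c ∈ A0, c ∉ Z ∧ ∀ w ∈ insert x A0, w ≠ c → s(c, w) ∈ E := by
  set F0 := crs E (insert x A0) (insert x B0) with hF0
  set N := F0.biUnion (fun e => e.toFinset) with hN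
  have hNc : N.card ≤ 8 := by
    have h1 : N.card ≤ ∑ e ∈ F0, e.toFinset.card := Finset.card_biUnion_le
    have h2 : ∑ e ∈ F0, e.toFinset.card ≤ ∑ _e ∈ F0, 2 := by
      apply Finset.sum_le_sum
      intro e _
      rw [Sym2.card_toFinset]
      split_ifs <;> omega
    have h3 : F0.card ≤ 4 := h.few
    rw [Finset.sum_const, smul_eq_mul] at h2
    omega
  have hne : (A0 \ (Z ∪ N)).Nonempty := by
    rw [← Finset.card_pos]
    have h1 := Finset.le_card_sdiff (Z ∪ N) A0
    have h2 := Finset.card_union_le Z N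
    have h3 := h.cardA
    have h4 := h.big
    omega
  obtain ⟨c, hc⟩ := hne
  rw [Finset.mem_sdiff, Finset.mem_union, not_or] at hc
  refine ⟨c, hc.1, hc.2.1, h.clean hc.1 ?_⟩
  unfold deg
  rw [Finset.card_eq_zero, Finset.filter_eq_empty_iff]
  intro e he hce
  apply hc.2.2
  rw [hN, Finset.mem_biUnion]
  exact ⟨e, he, by rwa [Sym2.mem_toFinset]⟩

theorem D1Env.d1a2_three (h : D1Env E k A0 B0 x) (Z : Finset V) (hZ : Z.card ≤ 50) :
    ∃ c1 c2 c3, c1 ∈ A0 ∧ c2 ∈ A0 ∧ c3 ∈ A0 ∧ c1 ∉ Z ∧ c2 ∉ Z ∧ c3 ∉ Z ∧ c1 ≠ c2 ∧ c1 ≠ c3 ∧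
      c2 ≠ c3 ∧ (∀ w ∈ insert x A0, w ≠ c1 → s(c1, w) ∈ E) ∧
      (∀ w ∈ insert x A0, w ≠ c2 → s(c2, w) ∈ E) ∧ (∀ w ∈ insert x A0, w ≠ c3 → s(c3, w) ∈ E) := by
  obtain ⟨c1, h1, h1Z, h1E⟩ := h.d1a2_pick Z (by omega)
  obtain ⟨c2, h2, h2Z, h2E⟩ := h.d1a2_pick (insert c1 Z) (by
    have := Finset.card_insert_le c1 Z; omega)
  obtain ⟨c3, h3, h3Z, h3E⟩ := h.d1a2_pick (insert c1 (insert c2 Z)) (by
    have h4 := Finset.card_insert_le c2 Z
    have h5 := Finset.card_insert_le c1 (insert c2 Z)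
    omega)
  simp only [Finset.mem_insert, not_or] at h2Z h3Z
  exact ⟨c1, c2, c3, h1, h2, h3, h1Z, h2Z.2, h3Z.2.2, fun h => h2Z.1 h.symm,
    fun h => h3Z.1 h.symm, fun h => h3Z.2.1 h.symm, h1E, h2E, h3E⟩

theorem D1Env.d1_pass (h : D1Env E k A0 B0 x) {a b : V} (ha : a ∈ A0) (hb : b ∈ B0)
    (hab : s(a, b) ∈ E) (r : ℕ) (hr1 : 1 ≤ r) (hr4 : r ≤ 4) (h1 : r = 1 → s(x, a) ∈ E)
    (h4 : r = 4 → s(x, b) ∈ E) (Q : Finset V) (hQ : Q.card ≤ 40) :
    ∃ C ⊆ E, IsC6 C ∧ crs C (insert x A0) (insert x B0) = {s(a, b)} ∧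
      (inn C (insert x A0)).card = r ∧
      (∀ e ∈ C, e = s(a, b) ∨ (r = 1 ∧ e = s(x, a)) ∨ (r = 4 ∧ e = s(x, b)) ∨
        ∃ v ∈ e, v ∉ Q ∧ v ≠ x ∧ v ≠ a ∧ v ≠ b) ∧
      ∃ T : Finset V, T.card ≤ 6 ∧ C ⊆ T.sym2 := by
  have hZ : (Q ∪ {x, a, b}).card ≤ 50 := by
    have h5 := Finset.card_union_le Q {x, a, b}
    have h6 : ({x, a, b} : Finset V).card ≤ 3 := Finset.card_le_three
    omega
  obtain ⟨c1, c2, c3, hc1, hc2, hc3, hz1, hz2, hz3, hc12, hc13, hc23, hE1, hE2, hE3⟩ :=
    h.d1a2_three _ hZ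
  obtain ⟨d1, d2, d3, hd1, hd2, hd3, hy1, hy2, hy3, hd12, hd13, hd23, hG1, hG2, hG3⟩ :=
    h.swap.d1a2_three _ hZ
  simp only [Finset.mem_union, Finset.mem_insert, Finset.mem_singleton, not_or] at hz1 hz2 hz3 hy1 hy2 hy3
  have hAB : ∀ p ∈ A0, p ∉ B0 := fun p hp hp' => Finset.disjoint_left.1 h.disj hp hp'
  have hBA : ∀ p ∈ B0, p ∉ A0 := fun p hp hp' => Finset.disjoint_left.1 h.disj hp' hp
  have hAx : ∀ p ∈ A0, p ≠ x := fun p hp hpx => h.hxA (hpx ▸ hp)
  have hBx : ∀ p ∈ B0, p ≠ x := fun p hp hpx => h.hxB (hpx ▸ hp)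
  have hne : ∀ p ∈ A0, ∀ q ∈ B0, p ≠ q := fun p hp q hq hpq => hAB p hp (hpq ▸ hq)
  have hx0A : x ∈ insert x A0 := Finset.mem_insert_self _ _
  have hx0B : x ∈ insert x B0 := Finset.mem_insert_self _ _
  have mA : ∀ p ∈ A0, p ∈ insert x A0 := fun p hp => Finset.mem_insert_of_mem hp
  have mB : ∀ p ∈ B0, p ∈ insert x B0 := fun p hp => Finset.mem_insert_of_mem hp
  have nA : ∀ p ∈ A0, p ∉ insert x B0 := fun p hp => by
    rw [Finset.mem_insert, not_or]; exact ⟨hAx p hp, hAB p hp⟩
  have nB : ∀ p ∈ B0, p ∉ insert x A0 := fun p hp => by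
    rw [Finset.mem_insert, not_or]; exact ⟨hBx p hp, hBA p hp⟩
  obtain rfl | rfl | rfl | rfl : r = 1 ∨ r = 2 ∨ r = 3 ∨ r = 4 := by omega
  · have hinj : Function.Injective ![x, a, b, d1, d2, d3] := by
      apply d1a2_inj
      simp only [List.nodup_cons, List.mem_cons, List.not_mem_nil, or_false, not_or,
        not_false_eq_true, List.nodup_nil, and_true]
      exact ⟨⟨(hAx a ha).symm, (hBx b hb).symm, (hBx d1 hd1).symm, (hBx d2 hd2).symm, (hBx d3 hd3).symm⟩,
        ⟨(hne a ha b hb), (hne a ha d1 hd1), (hne a ha d2 hd2), (hne a ha d3 hd3)⟩,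
        ⟨(Ne.symm hy1.2.2.2), (Ne.symm hy2.2.2.2), (Ne.symm hy3.2.2.2)⟩,
        ⟨hd12, hd13⟩,
        hd23⟩
    have hα : ∀ i, (![x, a, b, d1, d2, d3] : Fin 6 → V) i ∈ insert x A0 ↔ (![true, true, false, false, false, false] : Fin 6 → Bool) i = true := by
      intro i
      fin_cases i
      exacts [iff_of_true hx0A rfl, iff_of_true (mA a ha) rfl, iff_of_false (nB b hb) Bool.false_ne_true, iff_of_false (nB d1 hd1) Bool.false_ne_true, iff_of_false (nB d2 hd2) Bool.false_ne_true, iff_of_false (nB d3 hd3) Bool.false_ne_true]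
    have hβ : ∀ i, (![x, a, b, d1, d2, d3] : Fin 6 → V) i ∈ insert x B0 ↔ (![true, false, true, true, true, true] : Fin 6 → Bool) i = true := by
      intro i
      fin_cases i
      exacts [iff_of_true hx0B rfl, iff_of_false (nA a ha) Bool.false_ne_true, iff_of_true (mB b hb) rfl, iff_of_true (mB d1 hd1) rfl, iff_of_true (mB d2 hd2) rfl, iff_of_true (mB d3 hd3) rfl]
    have e0 : s(x, a) ∈ E := h1 rfl
    have e1 : s(a, b) ∈ E := hab
    have e2 : s(b, d1) ∈ E := by rw [Sym2.eq_swap]; exact hG1 b (mB b hb) (Ne.symm hy1.2.2.2)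
    have e3 : s(d1, d2) ∈ E := hG1 d2 (mB d2 hd2) hd12.symm
    have e4 : s(d2, d3) ∈ E := hG2 d3 (mB d3 hd3) hd23.symm
    have e5 : s(d3, x) ∈ E := hG3 x hx0B (hBx d3 hd3).symm
    refine ⟨cyc ![x, a, b, d1, d2, d3], ?_, ⟨_, hinj, rfl⟩, ?_, ?_, ?_, d1a2_T _⟩
    · intro e he
      rw [mem_cyc] at he
      obtain ⟨i, rfl⟩ := he
      fin_cases i
      exacts [e0, e1, e2, e3, e4, e5]
    · rw [d1a2_crs _ _ _ _ _ hα hβ, show (Finset.univ.filter (fun i : Fin 6 =>
        (!((![true, true, false, false, false, false] : Fin 6 → Bool) i && (![true, true, false, false, false, false] : Fin 6 → Bool) (i + 1)) &&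
          !((![true, false, true, true, true, true] : Fin 6 → Bool) i && (![true, false, true, true, true, true] : Fin 6 → Bool) (i + 1))) = true)) = {1} from by decide]
      rw [Finset.image_singleton]
      rfl
    · rw [d1a2_inn hinj _ _ hα]
      decide
    · intro e he
      rw [mem_cyc] at he
      obtain ⟨i, rfl⟩ := he
      fin_cases i
      · exact Or.inr (Or.inl ⟨rfl, rfl⟩)
      · exact Or.inl rfl
      · exact Or.inr (Or.inr (Or.inr ⟨d1, Sym2.mem_mk_right _ _, hy1⟩))
      · exact Or.inr (Or.inr (Or.inr ⟨d1, Sym2.mem_mk_left _ _, hy1⟩))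
      · exact Or.inr (Or.inr (Or.inr ⟨d2, Sym2.mem_mk_left _ _, hy2⟩))
      · exact Or.inr (Or.inr (Or.inr ⟨d3, Sym2.mem_mk_left _ _, hy3⟩))
  · have hinj : Function.Injective ![x, c1, a, b, d1, d2] := by
      apply d1a2_inj
      simp only [List.nodup_cons, List.mem_cons, List.not_mem_nil, or_false, not_or,
        not_false_eq_true, List.nodup_nil, and_true]
      exact ⟨⟨(hAx c1 hc1).symm, (hAx a ha).symm, (hBx b hb).symm, (hBx d1 hd1).symm, (hBx d2 hd2).symm⟩,
        ⟨hz1.2.2.1, (hne c1 hc1 b hb), (hne c1 hc1 d1 hd1), (hne c1 hc1 d2 hd2)⟩,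
        ⟨(hne a ha b hb), (hne a ha d1 hd1), (hne a ha d2 hd2)⟩,
        ⟨(Ne.symm hy1.2.2.2), (Ne.symm hy2.2.2.2)⟩,
        hd12⟩
    have hα : ∀ i, (![x, c1, a, b, d1, d2] : Fin 6 → V) i ∈ insert x A0 ↔ (![true, true, true, false, false, false] : Fin 6 → Bool) i = true := by
      intro i
      fin_cases i
      exacts [iff_of_true hx0A rfl, iff_of_true (mA c1 hc1) rfl, iff_of_true (mA a ha) rfl, iff_of_false (nB b hb) Bool.false_ne_true, iff_of_false (nB d1 hd1) Bool.false_ne_true, iff_of_false (nB d2 hd2) Bool.false_ne_true]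
    have hβ : ∀ i, (![x, c1, a, b, d1, d2] : Fin 6 → V) i ∈ insert x B0 ↔ (![true, false, false, true, true, true] : Fin 6 → Bool) i = true := by
      intro i
      fin_cases i
      exacts [iff_of_true hx0B rfl, iff_of_false (nA c1 hc1) Bool.false_ne_true, iff_of_false (nA a ha) Bool.false_ne_true, iff_of_true (mB b hb) rfl, iff_of_true (mB d1 hd1) rfl, iff_of_true (mB d2 hd2) rfl]
    have e0 : s(x, c1) ∈ E := by rw [Sym2.eq_swap]; exact hE1 x hx0A (hAx c1 hc1).symm
    have e1 : s(c1, a) ∈ E := hE1 a (mA a ha) (Ne.symm hz1.2.2.1)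
    have e2 : s(a, b) ∈ E := hab
    have e3 : s(b, d1) ∈ E := by rw [Sym2.eq_swap]; exact hG1 b (mB b hb) (Ne.symm hy1.2.2.2)
    have e4 : s(d1, d2) ∈ E := hG1 d2 (mB d2 hd2) hd12.symm
    have e5 : s(d2, x) ∈ E := hG2 x hx0B (hBx d2 hd2).symm
    refine ⟨cyc ![x, c1, a, b, d1, d2], ?_, ⟨_, hinj, rfl⟩, ?_, ?_, ?_, d1a2_T _⟩
    · intro e he
      rw [mem_cyc] at he
      obtain ⟨i, rfl⟩ := he
      fin_cases i
      exacts [e0, e1, e2, e3, e4, e5]
    · rw [d1a2_crs _ _ _ _ _ hα hβ, show (Finset.univ.filter (fun i : Fin 6 =>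
        (!((![true, true, true, false, false, false] : Fin 6 → Bool) i && (![true, true, true, false, false, false] : Fin 6 → Bool) (i + 1)) &&
          !((![true, false, false, true, true, true] : Fin 6 → Bool) i && (![true, false, false, true, true, true] : Fin 6 → Bool) (i + 1))) = true)) = {2} from by decide]
      rw [Finset.image_singleton]
      rfl
    · rw [d1a2_inn hinj _ _ hα]
      decide
    · intro e he
      rw [mem_cyc] at he
      obtain ⟨i, rfl⟩ := he
      fin_cases i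
      · exact Or.inr (Or.inr (Or.inr ⟨c1, Sym2.mem_mk_right _ _, hz1⟩))
      · exact Or.inr (Or.inr (Or.inr ⟨c1, Sym2.mem_mk_left _ _, hz1⟩))
      · exact Or.inl rfl
      · exact Or.inr (Or.inr (Or.inr ⟨d1, Sym2.mem_mk_right _ _, hy1⟩))
      · exact Or.inr (Or.inr (Or.inr ⟨d1, Sym2.mem_mk_left _ _, hy1⟩))
      · exact Or.inr (Or.inr (Or.inr ⟨d2, Sym2.mem_mk_left _ _, hy2⟩))
  · have hinj : Function.Injective ![x, c1, c2, a, b, d1] := by
      apply d1a2_inj
      simp only [List.nodup_cons, List.mem_cons, List.not_mem_nil, or_false, not_or,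
        not_false_eq_true, List.nodup_nil, and_true]
      exact ⟨⟨(hAx c1 hc1).symm, (hAx c2 hc2).symm, (hAx a ha).symm, (hBx b hb).symm, (hBx d1 hd1).symm⟩,
        ⟨hc12, hz1.2.2.1, (hne c1 hc1 b hb), (hne c1 hc1 d1 hd1)⟩,
        ⟨hz2.2.2.1, (hne c2 hc2 b hb), (hne c2 hc2 d1 hd1)⟩,
        ⟨(hne a ha b hb), (hne a ha d1 hd1)⟩,
        (Ne.symm hy1.2.2.2)⟩
    have hα : ∀ i, (![x, c1, c2, a, b, d1] : Fin 6 → V) i ∈ insert x A0 ↔ (![true, true, true, true, false, false] : Fin 6 → Bool) i = true := by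
      intro i
      fin_cases i
      exacts [iff_of_true hx0A rfl, iff_of_true (mA c1 hc1) rfl, iff_of_true (mA c2 hc2) rfl, iff_of_true (mA a ha) rfl, iff_of_false (nB b hb) Bool.false_ne_true, iff_of_false (nB d1 hd1) Bool.false_ne_true]
    have hβ : ∀ i, (![x, c1, c2, a, b, d1] : Fin 6 → V) i ∈ insert x B0 ↔ (![true, false, false, false, true, true] : Fin 6 → Bool) i = true := by
      intro i
      fin_cases i
      exacts [iff_of_true hx0B rfl, iff_of_false (nA c1 hc1) Bool.false_ne_true, iff_of_false (nA c2 hc2) Bool.false_ne_true, iff_of_false (nA a ha) Bool.false_ne_true, iff_of_true (mB b hb) rfl, iff_of_true (mB d1 hd1) rfl]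
    have e0 : s(x, c1) ∈ E := by rw [Sym2.eq_swap]; exact hE1 x hx0A (hAx c1 hc1).symm
    have e1 : s(c1, c2) ∈ E := hE1 c2 (mA c2 hc2) hc12.symm
    have e2 : s(c2, a) ∈ E := hE2 a (mA a ha) (Ne.symm hz2.2.2.1)
    have e3 : s(a, b) ∈ E := hab
    have e4 : s(b, d1) ∈ E := by rw [Sym2.eq_swap]; exact hG1 b (mB b hb) (Ne.symm hy1.2.2.2)
    have e5 : s(d1, x) ∈ E := hG1 x hx0B (hBx d1 hd1).symm
    refine ⟨cyc ![x, c1, c2, a, b, d1], ?_, ⟨_, hinj, rfl⟩, ?_, ?_, ?_, d1a2_T _⟩
    · intro e he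
      rw [mem_cyc] at he
      obtain ⟨i, rfl⟩ := he
      fin_cases i
      exacts [e0, e1, e2, e3, e4, e5]
    · rw [d1a2_crs _ _ _ _ _ hα hβ, show (Finset.univ.filter (fun i : Fin 6 =>
        (!((![true, true, true, true, false, false] : Fin 6 → Bool) i && (![true, true, true, true, false, false] : Fin 6 → Bool) (i + 1)) &&
          !((![true, false, false, false, true, true] : Fin 6 → Bool) i && (![true, false, false, false, true, true] : Fin 6 → Bool) (i + 1))) = true)) = {3} from by decide]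
      rw [Finset.image_singleton]
      rfl
    · rw [d1a2_inn hinj _ _ hα]
      decide
    · intro e he
      rw [mem_cyc] at he
      obtain ⟨i, rfl⟩ := he
      fin_cases i
      · exact Or.inr (Or.inr (Or.inr ⟨c1, Sym2.mem_mk_right _ _, hz1⟩))
      · exact Or.inr (Or.inr (Or.inr ⟨c1, Sym2.mem_mk_left _ _, hz1⟩))
      · exact Or.inr (Or.inr (Or.inr ⟨c2, Sym2.mem_mk_left _ _, hz2⟩))
      · exact Or.inl rfl
      · exact Or.inr (Or.inr (Or.inr ⟨d1, Sym2.mem_mk_right _ _, hy1⟩))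
      · exact Or.inr (Or.inr (Or.inr ⟨d1, Sym2.mem_mk_left _ _, hy1⟩))
  · have hinj : Function.Injective ![x, c1, c2, c3, a, b] := by
      apply d1a2_inj
      simp only [List.nodup_cons, List.mem_cons, List.not_mem_nil, or_false, not_or,
        not_false_eq_true, List.nodup_nil, and_true]
      exact ⟨⟨(hAx c1 hc1).symm, (hAx c2 hc2).symm, (hAx c3 hc3).symm, (hAx a ha).symm, (hBx b hb).symm⟩,
        ⟨hc12, hc13, hz1.2.2.1, (hne c1 hc1 b hb)⟩,
        ⟨hc23, hz2.2.2.1, (hne c2 hc2 b hb)⟩,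
        ⟨hz3.2.2.1, (hne c3 hc3 b hb)⟩,
        (hne a ha b hb)⟩
    have hα : ∀ i, (![x, c1, c2, c3, a, b] : Fin 6 → V) i ∈ insert x A0 ↔ (![true, true, true, true, true, false] : Fin 6 → Bool) i = true := by
      intro i
      fin_cases i
      exacts [iff_of_true hx0A rfl, iff_of_true (mA c1 hc1) rfl, iff_of_true (mA c2 hc2) rfl, iff_of_true (mA c3 hc3) rfl, iff_of_true (mA a ha) rfl, iff_of_false (nB b hb) Bool.false_ne_true]
    have hβ : ∀ i, (![x, c1, c2, c3, a, b] : Fin 6 → V) i ∈ insert x B0 ↔ (![true, false, false, false, false, true] : Fin 6 → Bool) i = true := by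
      intro i
      fin_cases i
      exacts [iff_of_true hx0B rfl, iff_of_false (nA c1 hc1) Bool.false_ne_true, iff_of_false (nA c2 hc2) Bool.false_ne_true, iff_of_false (nA c3 hc3) Bool.false_ne_true, iff_of_false (nA a ha) Bool.false_ne_true, iff_of_true (mB b hb) rfl]
    have e0 : s(x, c1) ∈ E := by rw [Sym2.eq_swap]; exact hE1 x hx0A (hAx c1 hc1).symm
    have e1 : s(c1, c2) ∈ E := hE1 c2 (mA c2 hc2) hc12.symm
    have e2 : s(c2, c3) ∈ E := hE2 c3 (mA c3 hc3) hc23.symm
    have e3 : s(c3, a) ∈ E := hE3 a (mA a ha) (Ne.symm hz3.2.2.1)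
    have e4 : s(a, b) ∈ E := hab
    have e5 : s(b, x) ∈ E := by rw [Sym2.eq_swap]; exact h4 rfl
    refine ⟨cyc ![x, c1, c2, c3, a, b], ?_, ⟨_, hinj, rfl⟩, ?_, ?_, ?_, d1a2_T _⟩
    · intro e he
      rw [mem_cyc] at he
      obtain ⟨i, rfl⟩ := he
      fin_cases i
      exacts [e0, e1, e2, e3, e4, e5]
    · rw [d1a2_crs _ _ _ _ _ hα hβ, show (Finset.univ.filter (fun i : Fin 6 =>
        (!((![true, true, true, true, true, false] : Fin 6 → Bool) i && (![true, true, true, true, true, false] : Fin 6 → Bool) (i + 1)) &&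
          !((![true, false, false, false, false, true] : Fin 6 → Bool) i && (![true, false, false, false, false, true] : Fin 6 → Bool) (i + 1))) = true)) = {4} from by decide]
      rw [Finset.image_singleton]
      rfl
    · rw [d1a2_inn hinj _ _ hα]
      decide
    · intro e he
      rw [mem_cyc] at he
      obtain ⟨i, rfl⟩ := he
      fin_cases i
      · exact Or.inr (Or.inr (Or.inr ⟨c1, Sym2.mem_mk_right _ _, hz1⟩))
      · exact Or.inr (Or.inr (Or.inr ⟨c1, Sym2.mem_mk_left _ _, hz1⟩))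
      · exact Or.inr (Or.inr (Or.inr ⟨c2, Sym2.mem_mk_left _ _, hz2⟩))
      · exact Or.inr (Or.inr (Or.inr ⟨c3, Sym2.mem_mk_left _ _, hz3⟩))
      · exact Or.inl rfl
      · exact Or.inr (Or.inr (Or.inl ⟨rfl, Sym2.eq_swap⟩))

theorem D1Env.d1_two (h : D1Env E k A0 B0 x) {a b a' b' : V} (ha : a ∈ A0) (hb : b ∈ B0)
    (ha' : a' ∈ A0) (hb' : b' ∈ B0) (haa : a ≠ a') (hbb : b ≠ b')
    (hab : s(a, b) ∈ E) (hab' : s(a', b') ∈ E) (r : ℕ) (hr1 : 1 ≤ r) (hr3 : r ≤ 3)
    (h1 : r = 1 → s(a, a') ∈ E) (h3 : r = 3 → s(b, b') ∈ E) (Q : Finset V) (hQ : Q.card ≤ 40) :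
    ∃ C ⊆ E, IsC6 C ∧ crs C (insert x A0) (insert x B0) = {s(a, b), s(a', b')} ∧
      (inn C (insert x A0)).card = r ∧
      (∀ e ∈ C, e = s(a, b) ∨ e = s(a', b') ∨ (r = 1 ∧ e = s(a, a')) ∨ (r = 3 ∧ e = s(b, b')) ∨
        ∃ v ∈ e, v ∉ Q ∧ v ≠ x ∧ v ≠ a ∧ v ≠ b ∧ v ≠ a' ∧ v ≠ b') ∧
      ∃ T : Finset V, T.card ≤ 6 ∧ C ⊆ T.sym2 := by
  have hZ : (Q ∪ {x, a, b, a', b'}).card ≤ 50 := by
    have h5 := Finset.card_union_le Q {x, a, b, a', b'}
    have h6 : ({x, a, b, a', b'} : Finset V).card ≤ 5 := Finset.card_le_five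
    omega
  obtain ⟨c1, c2, c3, hc1, hc2, hc3, hz1, hz2, hz3, hc12, hc13, hc23, hE1, hE2, hE3⟩ :=
    h.d1a2_three _ hZ
  obtain ⟨d1, d2, d3, hd1, hd2, hd3, hy1, hy2, hy3, hd12, hd13, hd23, hG1, hG2, hG3⟩ :=
    h.swap.d1a2_three _ hZ
  simp only [Finset.mem_union, Finset.mem_insert, Finset.mem_singleton, not_or] at hz1 hz2 hz3 hy1 hy2 hy3
  have hAB : ∀ p ∈ A0, p ∉ B0 := fun p hp hp' => Finset.disjoint_left.1 h.disj hp hp'
  have hBA : ∀ p ∈ B0, p ∉ A0 := fun p hp hp' => Finset.disjoint_left.1 h.disj hp' hp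
  have hAx : ∀ p ∈ A0, p ≠ x := fun p hp hpx => h.hxA (hpx ▸ hp)
  have hBx : ∀ p ∈ B0, p ≠ x := fun p hp hpx => h.hxB (hpx ▸ hp)
  have hne : ∀ p ∈ A0, ∀ q ∈ B0, p ≠ q := fun p hp q hq hpq => hAB p hp (hpq ▸ hq)
  have hx0A : x ∈ insert x A0 := Finset.mem_insert_self _ _
  have hx0B : x ∈ insert x B0 := Finset.mem_insert_self _ _
  have mA : ∀ p ∈ A0, p ∈ insert x A0 := fun p hp => Finset.mem_insert_of_mem hp
  have mB : ∀ p ∈ B0, p ∈ insert x B0 := fun p hp => Finset.mem_insert_of_mem hp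
  have nA : ∀ p ∈ A0, p ∉ insert x B0 := fun p hp => by
    rw [Finset.mem_insert, not_or]; exact ⟨hAx p hp, hAB p hp⟩
  have nB : ∀ p ∈ B0, p ∉ insert x A0 := fun p hp => by
    rw [Finset.mem_insert, not_or]; exact ⟨hBx p hp, hBA p hp⟩
  obtain rfl | rfl | rfl : r = 1 ∨ r = 2 ∨ r = 3 := by omega
  · have hinj : Function.Injective ![a, b, d1, d2, b', a'] := by
      apply d1a2_inj
      simp only [List.nodup_cons, List.mem_cons, List.not_mem_nil, or_false, not_or,
        not_false_eq_true, List.nodup_nil, and_true]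
      exact ⟨⟨(hne a ha b hb), (hne a ha d1 hd1), (hne a ha d2 hd2), (hne a ha b' hb'), haa⟩,
        ⟨(Ne.symm hy1.2.2.2.1), (Ne.symm hy2.2.2.2.1), hbb, (hne a' ha' b hb).symm⟩,
        ⟨hd12, hy1.2.2.2.2.2, (hne a' ha' d1 hd1).symm⟩,
        ⟨hy2.2.2.2.2.2, (hne a' ha' d2 hd2).symm⟩,
        (hne a' ha' b' hb').symm⟩
    have hα : ∀ i, (![a, b, d1, d2, b', a'] : Fin 6 → V) i ∈ insert x A0 ↔ (![true, false, false, false, false, true] : Fin 6 → Bool) i = true := by
      intro i
      fin_cases i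
      exacts [iff_of_true (mA a ha) rfl, iff_of_false (nB b hb) Bool.false_ne_true, iff_of_false (nB d1 hd1) Bool.false_ne_true, iff_of_false (nB d2 hd2) Bool.false_ne_true, iff_of_false (nB b' hb') Bool.false_ne_true, iff_of_true (mA a' ha') rfl]
    have hβ : ∀ i, (![a, b, d1, d2, b', a'] : Fin 6 → V) i ∈ insert x B0 ↔ (![false, true, true, true, true, false] : Fin 6 → Bool) i = true := by
      intro i
      fin_cases i
      exacts [iff_of_false (nA a ha) Bool.false_ne_true, iff_of_true (mB b hb) rfl, iff_of_true (mB d1 hd1) rfl, iff_of_true (mB d2 hd2) rfl, iff_of_true (mB b' hb') rfl, iff_of_false (nA a' ha') Bool.false_ne_true]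
    have e0 : s(a, b) ∈ E := hab
    have e1 : s(b, d1) ∈ E := by rw [Sym2.eq_swap]; exact hG1 b (mB b hb) (Ne.symm hy1.2.2.2.1)
    have e2 : s(d1, d2) ∈ E := hG1 d2 (mB d2 hd2) hd12.symm
    have e3 : s(d2, b') ∈ E := hG2 b' (mB b' hb') (Ne.symm hy2.2.2.2.2.2)
    have e4 : s(b', a') ∈ E := by rw [Sym2.eq_swap]; exact hab'
    have e5 : s(a', a) ∈ E := by rw [Sym2.eq_swap]; exact h1 rfl
    refine ⟨cyc ![a, b, d1, d2, b', a'], ?_, ⟨_, hinj, rfl⟩, ?_, ?_, ?_, d1a2_T _⟩
    · intro e he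
      rw [mem_cyc] at he
      obtain ⟨i, rfl⟩ := he
      fin_cases i
      exacts [e0, e1, e2, e3, e4, e5]
    · rw [d1a2_crs _ _ _ _ _ hα hβ, show (Finset.univ.filter (fun i : Fin 6 =>
        (!((![true, false, false, false, false, true] : Fin 6 → Bool) i && (![true, false, false, false, false, true] : Fin 6 → Bool) (i + 1)) &&
          !((![false, true, true, true, true, false] : Fin 6 → Bool) i && (![false, true, true, true, true, false] : Fin 6 → Bool) (i + 1))) = true)) = {0, 4} from by decide]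
      rw [Finset.image_insert, Finset.image_singleton]
      show ({s(a, b), s(b', a')} : Finset (Sym2 V)) = {s(a, b), s(a', b')}
      rw [Sym2.eq_swap (a := b') (b := a')]
    · rw [d1a2_inn hinj _ _ hα]
      decide
    · intro e he
      rw [mem_cyc] at he
      obtain ⟨i, rfl⟩ := he
      fin_cases i
      · exact Or.inl rfl
      · exact Or.inr (Or.inr (Or.inr (Or.inr ⟨d1, Sym2.mem_mk_right _ _, hy1⟩)))
      · exact Or.inr (Or.inr (Or.inr (Or.inr ⟨d1, Sym2.mem_mk_left _ _, hy1⟩)))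
      · exact Or.inr (Or.inr (Or.inr (Or.inr ⟨d2, Sym2.mem_mk_left _ _, hy2⟩)))
      · exact Or.inr (Or.inl Sym2.eq_swap)
      · exact Or.inr (Or.inr (Or.inl ⟨rfl, Sym2.eq_swap⟩))
  · have hinj : Function.Injective ![a, b, d1, b', a', c1] := by
      apply d1a2_inj
      simp only [List.nodup_cons, List.mem_cons, List.not_mem_nil, or_false, not_or,
        not_false_eq_true, List.nodup_nil, and_true]
      exact ⟨⟨(hne a ha b hb), (hne a ha d1 hd1), (hne a ha b' hb'), haa, (Ne.symm hz1.2.2.1)⟩,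
        ⟨(Ne.symm hy1.2.2.2.1), hbb, (hne a' ha' b hb).symm, (hne c1 hc1 b hb).symm⟩,
        ⟨hy1.2.2.2.2.2, (hne a' ha' d1 hd1).symm, (hne c1 hc1 d1 hd1).symm⟩,
        ⟨(hne a' ha' b' hb').symm, (hne c1 hc1 b' hb').symm⟩,
        (Ne.symm hz1.2.2.2.2.1)⟩
    have hα : ∀ i, (![a, b, d1, b', a', c1] : Fin 6 → V) i ∈ insert x A0 ↔ (![true, false, false, false, true, true] : Fin 6 → Bool) i = true := by
      intro i
      fin_cases i
      exacts [iff_of_true (mA a ha) rfl, iff_of_false (nB b hb) Bool.false_ne_true, iff_of_false (nB d1 hd1) Bool.false_ne_true, iff_of_false (nB b' hb') Bool.false_ne_true, iff_of_true (mA a' ha') rfl, iff_of_true (mA c1 hc1) rfl]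
    have hβ : ∀ i, (![a, b, d1, b', a', c1] : Fin 6 → V) i ∈ insert x B0 ↔ (![false, true, true, true, false, false] : Fin 6 → Bool) i = true := by
      intro i
      fin_cases i
      exacts [iff_of_false (nA a ha) Bool.false_ne_true, iff_of_true (mB b hb) rfl, iff_of_true (mB d1 hd1) rfl, iff_of_true (mB b' hb') rfl, iff_of_false (nA a' ha') Bool.false_ne_true, iff_of_false (nA c1 hc1) Bool.false_ne_true]
    have e0 : s(a, b) ∈ E := hab
    have e1 : s(b, d1) ∈ E := by rw [Sym2.eq_swap]; exact hG1 b (mB b hb) (Ne.symm hy1.2.2.2.1)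
    have e2 : s(d1, b') ∈ E := hG1 b' (mB b' hb') (Ne.symm hy1.2.2.2.2.2)
    have e3 : s(b', a') ∈ E := by rw [Sym2.eq_swap]; exact hab'
    have e4 : s(a', c1) ∈ E := by rw [Sym2.eq_swap]; exact hE1 a' (mA a' ha') (Ne.symm hz1.2.2.2.2.1)
    have e5 : s(c1, a) ∈ E := hE1 a (mA a ha) (Ne.symm hz1.2.2.1)
    refine ⟨cyc ![a, b, d1, b', a', c1], ?_, ⟨_, hinj, rfl⟩, ?_, ?_, ?_, d1a2_T _⟩
    · intro e he
      rw [mem_cyc] at he
      obtain ⟨i, rfl⟩ := he
      fin_cases i
      exacts [e0, e1, e2, e3, e4, e5]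
    · rw [d1a2_crs _ _ _ _ _ hα hβ, show (Finset.univ.filter (fun i : Fin 6 =>
        (!((![true, false, false, false, true, true] : Fin 6 → Bool) i && (![true, false, false, false, true, true] : Fin 6 → Bool) (i + 1)) &&
          !((![false, true, true, true, false, false] : Fin 6 → Bool) i && (![false, true, true, true, false, false] : Fin 6 → Bool) (i + 1))) = true)) = {0, 3} from by decide]
      rw [Finset.image_insert, Finset.image_singleton]
      show ({s(a, b), s(b', a')} : Finset (Sym2 V)) = {s(a, b), s(a', b')}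
      rw [Sym2.eq_swap (a := b') (b := a')]
    · rw [d1a2_inn hinj _ _ hα]
      decide
    · intro e he
      rw [mem_cyc] at he
      obtain ⟨i, rfl⟩ := he
      fin_cases i
      · exact Or.inl rfl
      · exact Or.inr (Or.inr (Or.inr (Or.inr ⟨d1, Sym2.mem_mk_right _ _, hy1⟩)))
      · exact Or.inr (Or.inr (Or.inr (Or.inr ⟨d1, Sym2.mem_mk_left _ _, hy1⟩)))
      · exact Or.inr (Or.inl Sym2.eq_swap)
      · exact Or.inr (Or.inr (Or.inr (Or.inr ⟨c1, Sym2.mem_mk_right _ _, hz1⟩)))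
      · exact Or.inr (Or.inr (Or.inr (Or.inr ⟨c1, Sym2.mem_mk_left _ _, hz1⟩)))
  · have hinj : Function.Injective ![a, b, b', a', c1, c2] := by
      apply d1a2_inj
      simp only [List.nodup_cons, List.mem_cons, List.not_mem_nil, or_false, not_or,
        not_false_eq_true, List.nodup_nil, and_true]
      exact ⟨⟨(hne a ha b hb), (hne a ha b' hb'), haa, (Ne.symm hz1.2.2.1), (Ne.symm hz2.2.2.1)⟩,
        ⟨hbb, (hne a' ha' b hb).symm, (hne c1 hc1 b hb).symm, (hne c2 hc2 b hb).symm⟩,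
        ⟨(hne a' ha' b' hb').symm, (hne c1 hc1 b' hb').symm, (hne c2 hc2 b' hb').symm⟩,
        ⟨(Ne.symm hz1.2.2.2.2.1), (Ne.symm hz2.2.2.2.2.1)⟩,
        hc12⟩
    have hα : ∀ i, (![a, b, b', a', c1, c2] : Fin 6 → V) i ∈ insert x A0 ↔ (![true, false, false, true, true, true] : Fin 6 → Bool) i = true := by
      intro i
      fin_cases i
      exacts [iff_of_true (mA a ha) rfl, iff_of_false (nB b hb) Bool.false_ne_true, iff_of_false (nB b' hb') Bool.false_ne_true, iff_of_true (mA a' ha') rfl, iff_of_true (mA c1 hc1) rfl, iff_of_true (mA c2 hc2) rfl]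
    have hβ : ∀ i, (![a, b, b', a', c1, c2] : Fin 6 → V) i ∈ insert x B0 ↔ (![false, true, true, false, false, false] : Fin 6 → Bool) i = true := by
      intro i
      fin_cases i
      exacts [iff_of_false (nA a ha) Bool.false_ne_true, iff_of_true (mB b hb) rfl, iff_of_true (mB b' hb') rfl, iff_of_false (nA a' ha') Bool.false_ne_true, iff_of_false (nA c1 hc1) Bool.false_ne_true, iff_of_false (nA c2 hc2) Bool.false_ne_true]
    have e0 : s(a, b) ∈ E := hab
    have e1 : s(b, b') ∈ E := h3 rfl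
    have e2 : s(b', a') ∈ E := by rw [Sym2.eq_swap]; exact hab'
    have e3 : s(a', c1) ∈ E := by rw [Sym2.eq_swap]; exact hE1 a' (mA a' ha') (Ne.symm hz1.2.2.2.2.1)
    have e4 : s(c1, c2) ∈ E := hE1 c2 (mA c2 hc2) hc12.symm
    have e5 : s(c2, a) ∈ E := hE2 a (mA a ha) (Ne.symm hz2.2.2.1)
    refine ⟨cyc ![a, b, b', a', c1, c2], ?_, ⟨_, hinj, rfl⟩, ?_, ?_, ?_, d1a2_T _⟩
    · intro e he
      rw [mem_cyc] at he
      obtain ⟨i, rfl⟩ := he
      fin_cases i
      exacts [e0, e1, e2, e3, e4, e5]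
    · rw [d1a2_crs _ _ _ _ _ hα hβ, show (Finset.univ.filter (fun i : Fin 6 =>
        (!((![true, false, false, true, true, true] : Fin 6 → Bool) i && (![true, false, false, true, true, true] : Fin 6 → Bool) (i + 1)) &&
          !((![false, true, true, false, false, false] : Fin 6 → Bool) i && (![false, true, true, false, false, false] : Fin 6 → Bool) (i + 1))) = true)) = {0, 2} from by decide]
      rw [Finset.image_insert, Finset.image_singleton]
      show ({s(a, b), s(b', a')} : Finset (Sym2 V)) = {s(a, b), s(a', b')}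
      rw [Sym2.eq_swap (a := b') (b := a')]
    · rw [d1a2_inn hinj _ _ hα]
      decide
    · intro e he
      rw [mem_cyc] at he
      obtain ⟨i, rfl⟩ := he
      fin_cases i
      · exact Or.inl rfl
      · exact Or.inr (Or.inr (Or.inr (Or.inl ⟨rfl, rfl⟩)))
      · exact Or.inr (Or.inl Sym2.eq_swap)
      · exact Or.inr (Or.inr (Or.inr (Or.inr ⟨c1, Sym2.mem_mk_right _ _, hz1⟩)))
      · exact Or.inr (Or.inr (Or.inr (Or.inr ⟨c1, Sym2.mem_mk_left _ _, hz1⟩)))
      · exact Or.inr (Or.inr (Or.inr (Or.inr ⟨c2, Sym2.mem_mk_left _ _, hz2⟩)))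

end H15C6
end S_D1A2

section S_D1B
/-!
Module D1B.  The exact case with `f = |F0| ≤ 2` edges between `A0` and `B0`.
Write `N_A = |inn E AX|`, `h_A = #{a ∈ A0 : s(x,a) ∉ E}`, `m` = `mis`, `2 N_A + ∑ m + h_A = 2k(2k+1)`,
`N_A + N_B + f = |E| ≡ 0 (mod 6)`.  A missing pair inside `AX` has all its ends in `A0` non-clean.

* `f = 0`: all `m = 0`, `h_A = h_B = 0`, `N_A = N_B = k(2k+1)`, `6 ∣ 2k(2k+1)`, and by `hmod` `k` is even or
  `3 ∤`..: `3 ∣ k(2k+1)`; if `k` is odd then `k ≡ 1, 3 (mod 6)`, so `4k+1 ≡ 5, 13 (mod 24)`, excluded.  `D0 = ∅`.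
* `f = 1`, `F0 = {ab}`: `m a = 1`, the missing neighbour of `a` must be `x`; same for `b`; `N_A = N_B = k(2k+1) - 1`,
  `|E| = 2k(2k+1) - 1` odd: contradiction.
* `f = 2`, edges `a1b1, a2b2` disjoint.  On the A side either `a1a2 ∉ E` and `x` adjacent to both (`N_A = k(2k+1) - 1`)
  or `a1a2 ∈ E` and `x` adjacent to neither (`N_A = k(2k+1) - 2`); the same for B; as `|E|` is even both sides
  are of the same kind.  First kind: two passes with `r1, r2 ∈ {1,2,3,4}`: all sums `2..8`, all residues.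
  Second kind: two passes with `r1, r2 ∈ {2,3}`: sums 4, 5, 6; `d1_two` with `r = 1, 2, 3`: all residues.
* `f = 2`, `F0 = {ab1, ab2}` (or symmetric: use `goal_swap`): `m a` is even and `≤ 1` (only `x` is available),
  so `m a = 0`, `N_A = k(2k+1)`; B side: either `b1b2` missing (`|missing| = 1`) or `x` not adjacent to
  `b1, b2` (2 missing, `N_B = k(2k+1) - 2`); `|E|` even forces the latter.  `|E| = 2k(2k+1)`, so
  `3 ∣ k(2k+1)` and `N_A ≡ 0, 3 (mod 6)`: passes with `(r1,r2) = (1,2)`: sum 3, or `(3,3)`: sum 6.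
For disjointness of two passes apply `d1_pass` twice, the second time with `Q ⊇ T` of the first.
-/

set_option linter.unusedSectionVars false

open Finset

namespace H15C6

variable {V : Type} [Fintype V] [DecidableEq V] {E : Finset (Sym2 V)} {k : ℕ} {A0 B0 : Finset V}
  {x : V}

/-! ### partial systems of cycles -/

/-- a union `D` of `m` disjoint six-cycles of `E` with set of cross edges `S` and `ρ` edges inside
`AX`, using no edge `x q` with `q ∈ W` -/
structure D1P (E : Finset (Sym2 V)) (A0 B0 : Finset V) (x : V) (D S : Finset (Sym2 V)) (ρ m : ℕ)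
    (W : Finset V) : Prop where
  sub : D ⊆ E
  dec : Dec D
  crsD : crs D (insert x A0) (insert x B0) = S
  innD : (inn D (insert x A0)).card = ρ
  cardD : D.card = 6 * m
  spt : ∃ T : Finset V, T.card ≤ 6 * m ∧ D ⊆ T.sym2
  prot : ∀ q ∈ W, s(x, q) ∉ D

theorem D1P.zero (E : Finset (Sym2 V)) (A0 B0 : Finset V) (x : V) (W : Finset V) :
    D1P E A0 B0 x ∅ ∅ 0 0 W where
  sub := empty_subset _
  dec := Dec.empty
  crsD := by simp [crs]
  innD := by simp [inn]
  cardD := by simp
  spt := ⟨∅, by simp, by simp⟩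
  prot := by simp

theorem d1b_crs_union (D C : Finset (Sym2 V)) (A B : Finset V) :
    crs (D ∪ C) A B = crs D A B ∪ crs C A B := by
  unfold crs
  rw [union_sdiff_distrib, union_sdiff_distrib]

theorem d1b_inn_union {D C : Finset (Sym2 V)} (h : Disjoint D C) (A : Finset V) :
    (inn (D ∪ C) A).card = (inn D A).card + (inn C A).card := by
  unfold inn
  rw [union_inter_distrib_right, card_union_of_disjoint]
  exact h.mono inter_subset_left inter_subset_left

theorem D1Env.crs_mem (h : D1Env E k A0 B0 x) {D : Finset (Sym2 V)} {a b : V} (ha : a ∈ A0)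
    (hb : b ∈ B0) (hD : s(a, b) ∈ D) : s(a, b) ∈ crs D (insert x A0) (insert x B0) := by
  have hb' : b ∉ insert x A0 := by
    rw [mem_insert, not_or]
    exact ⟨fun hh => h.hxB (hh ▸ hb), fun hh => (disjoint_left.1 h.disj) hh hb⟩
  have ha' : a ∉ insert x B0 := by
    rw [mem_insert, not_or]
    exact ⟨fun hh => h.hxA (hh ▸ ha), fun hh => (disjoint_left.1 h.disj) ha hh⟩
  unfold crs
  rw [mem_sdiff, mem_sdiff, mk_mem_sym2_iff, mk_mem_sym2_iff]
  exact ⟨⟨hD, fun hh => hb' hh.2⟩, fun hh => ha' hh.1⟩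

theorem D1P.pass (h : D1Env E k A0 B0 x) {D S : Finset (Sym2 V)} {ρ m : ℕ} {W : Finset V}
    (hP : D1P E A0 B0 x D S ρ m W) (hm : m ≤ 4) {a b : V} (ha : a ∈ A0) (hb : b ∈ B0)
    (hab : s(a, b) ∈ E) (hS : s(a, b) ∉ S) (r : ℕ) (hr1 : 1 ≤ r) (hr4 : r ≤ 4)
    (h1 : r = 1 → s(x, a) ∈ E ∧ a ∈ W) (h4 : r = 4 → s(x, b) ∈ E ∧ b ∈ W) (W' : Finset V)
    (hW : W' ⊆ W) (hWc : W'.card ≤ 8) (hW1 : r = 1 → a ∉ W') (hW4 : r = 4 → b ∉ W') :
    ∃ D', D1P E A0 B0 x D' (insert s(a, b) S) (ρ + r) (m + 1) W' := by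
  obtain ⟨T, hTc, hT⟩ := hP.spt
  obtain ⟨C, hCE, hC6, hCc, hCi, hCe, T', hT'c, hT'⟩ := h.d1_pass ha hb hab r hr1 hr4
    (fun hh => (h1 hh).1) (fun hh => (h4 hh).1) (T ∪ W') ((card_union_le _ _).trans (by omega))
  have hdis : Disjoint D C := by
    rw [disjoint_left]
    intro e heD heC
    rcases hCe e heC with rfl | ⟨hr, rfl⟩ | ⟨hr, rfl⟩ | ⟨v, hv, hvQ, _⟩
    · exact hS (hP.crsD ▸ h.crs_mem ha hb heD)
    · exact hP.prot a (h1 hr).2 heD
    · exact hP.prot b (h4 hr).2 heD
    · rw [mem_union, not_or] at hvQ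
      exact hvQ.1 (mem_sym2_iff.1 (hT heD) v hv)
  refine ⟨D ∪ C, union_subset hP.sub hCE, hP.dec.union hC6.dec hdis, ?_, ?_, ?_, ?_, ?_⟩
  · rw [d1b_crs_union, hP.crsD, hCc, union_comm]
    rfl
  · rw [d1b_inn_union hdis, hP.innD, hCi]
  · rw [card_union_of_disjoint hdis, hP.cardD, hC6.card]
    ring
  · refine ⟨T ∪ T', (card_union_le _ _).trans (by omega), union_subset ?_ ?_⟩
    · exact hT.trans (sym2_mono subset_union_left)
    · exact hT'.trans (sym2_mono subset_union_right)
  · intro q hq hqD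
    rw [mem_union] at hqD
    rcases hqD with hqD | hqC
    · exact hP.prot q (hW hq) hqD
    · have hxa : x ≠ a := fun hh => h.hxA (hh ▸ ha)
      have hxb : x ≠ b := fun hh => h.hxB (hh ▸ hb)
      rcases hCe _ hqC with heq | ⟨hr, heq⟩ | ⟨hr, heq⟩ | ⟨v, hv, hvQ, hvx, _⟩
      · have : x ∈ s(a, b) := by rw [← heq]; exact Sym2.mem_mk_left x q
        rw [Sym2.mem_iff] at this
        rcases this with hh | hh
        · exact hxa hh
        · exact hxb hh
      · exact hW1 hr (Sym2.congr_right.1 heq ▸ hq)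
      · exact hW4 hr (Sym2.congr_right.1 heq ▸ hq)
      · rw [Sym2.mem_iff] at hv
        rcases hv with hv | hv
        · exact hvx hv
        · exact hvQ (mem_union_right _ (hv ▸ hq))

theorem D1P.two (h : D1Env E k A0 B0 x) {a b a' b' : V} (ha : a ∈ A0) (hb : b ∈ B0)
    (ha' : a' ∈ A0) (hb' : b' ∈ B0) (haa : a ≠ a') (hbb : b ≠ b')
    (hab : s(a, b) ∈ E) (hab' : s(a', b') ∈ E) (r : ℕ) (hr1 : 1 ≤ r) (hr3 : r ≤ 3)
    (h1 : r = 1 → s(a, a') ∈ E) (h3 : r = 3 → s(b, b') ∈ E) (W : Finset V) (hW : W.card ≤ 8) :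
    ∃ D', D1P E A0 B0 x D' {s(a, b), s(a', b')} r 1 W := by
  obtain ⟨C, hCE, hC6, hCc, hCi, hCe, T, hTc, hT⟩ := h.d1_two ha hb ha' hb' haa hbb hab hab' r hr1
    hr3 h1 h3 W (by omega)
  refine ⟨C, hCE, hC6.dec, hCc, hCi, hC6.card, ⟨T, hTc, hT⟩, ?_⟩
  intro q hq hqC
  have hxA : ∀ u ∈ A0, x ≠ u := fun u hu hh => h.hxA (hh ▸ hu)
  have hxB : ∀ u ∈ B0, x ≠ u := fun u hu hh => h.hxB (hh ▸ hu)
  have key : ∀ u w : V, s(x, q) = s(u, w) → x = u ∨ x = w := by
    intro u w heq
    have : x ∈ s(u, w) := by rw [← heq]; exact Sym2.mem_mk_left x q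
    exact Sym2.mem_iff.1 this
  rcases hCe _ hqC with heq | heq | ⟨_, heq⟩ | ⟨_, heq⟩ | ⟨v, hv, hvQ, hvx, _⟩
  · exact (key _ _ heq).elim (hxA a ha) (hxB b hb)
  · exact (key _ _ heq).elim (hxA a' ha') (hxB b' hb')
  · exact (key _ _ heq).elim (hxA a ha) (hxA a' ha')
  · exact (key _ _ heq).elim (hxB b hb) (hxB b' hb')
  · rw [Sym2.mem_iff] at hv
    rcases hv with hv | hv
    · exact hvx hv
    · exact hvQ (hv ▸ hq)

theorem D1P.goal {D : Finset (Sym2 V)} {ρ m : ℕ} {W : Finset V}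
    (hP : D1P E A0 B0 x D (crs E (insert x A0) (insert x B0)) ρ m W) (hm : m ≤ 4)
    (hρ : ρ % 6 = (inn E (insert x A0)).card % 6) : D1Goal E A0 B0 x := by
  refine ⟨D, hP.sub, hP.dec, ?_, ?_, ?_⟩
  · rw [← hP.crsD]
    unfold crs
    exact sdiff_subset.trans sdiff_subset
  · rw [hP.cardD]
    omega
  · have h1 : inn (E \ D) (insert x A0) = inn E (insert x A0) \ inn D (insert x A0) := by
      unfold inn
      ext e
      simp only [mem_inter, mem_sdiff]
      tauto
    have h2 : inn D (insert x A0) ⊆ inn E (insert x A0) := inter_subset_inter_right hP.sub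
    rw [h1, card_sdiff_of_subset h2, hP.innD]
    have h3 := card_le_card h2
    rw [hP.innD] at h3
    omega

/-! ### cross edges -/

theorem D1Env.mem_crs (h : D1Env E k A0 B0 x) {e : Sym2 V}
    (he : e ∈ crs E (insert x A0) (insert x B0)) : ∃ a ∈ A0, ∃ b ∈ B0, e = s(a, b) := by
  induction e using Sym2.ind with
  | _ u v =>
    unfold crs at he
    rw [mem_sdiff, mem_sdiff, mk_mem_sym2_iff, mk_mem_sym2_iff] at he
    obtain ⟨⟨_, h1⟩, h2⟩ := he
    have hu : u ∈ insert x (A0 ∪ B0) := by rw [h.cover]; exact mem_univ u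
    have hv : v ∈ insert x (A0 ∪ B0) := by rw [h.cover]; exact mem_univ v
    simp only [mem_insert, mem_union] at hu hv h1 h2
    by_cases huA : u ∈ A0
    · by_cases hvB : v ∈ B0
      · exact ⟨u, huA, v, hvB, rfl⟩
      · exfalso; tauto
    · by_cases hvA : v ∈ A0
      · by_cases huB : u ∈ B0
        · exact ⟨v, hvA, u, huB, Sym2.eq_swap⟩
        · exfalso; tauto
      · exfalso; tauto

theorem d1b_crs_comm (E : Finset (Sym2 V)) (A B : Finset V) : crs E A B = crs E B A := by
  unfold crs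
  rw [sdiff_right_comm]

/-! ### the two sides -/

theorem D1Env.mis_zero (h : D1Env E k A0 B0 x) {v : V} (hv : v ∈ A0)
    (hd : deg (crs E (insert x A0) (insert x B0)) v = 0) : mis E A0 x v = 0 := by
  have := (h.mis_le hv).1
  omega

theorem D1Env.adj_x (h : D1Env E k A0 B0 x) {v : V} (hv : v ∈ A0)
    (hd : deg (crs E (insert x A0) (insert x B0)) v = 0) : s(x, v) ∈ E := by
  have h1 := h.clean hv hd x (mem_insert_self x A0) (fun hh => h.hxA (hh ▸ hv))
  rwa [Sym2.eq_swap]

/-- all the vertices of `A0` outside `P` are clean -/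
theorem D1Env.count_sub (h : D1Env E k A0 B0 x) (P : Finset V) (hP : P ⊆ A0)
    (h0 : ∀ v ∈ A0, v ∉ P → deg (crs E (insert x A0) (insert x B0)) v = 0) :
    2 * (inn E (insert x A0)).card + (∑ a ∈ P, mis E A0 x a) +
      (P.filter (fun a => s(x, a) ∉ E)).card = 2 * k * (2 * k + 1) := by
  have h1 := h.count
  have h2 : ∑ a ∈ P, mis E A0 x a = ∑ a ∈ A0, mis E A0 x a :=
    sum_subset hP fun v hv hvP => h.mis_zero hv (h0 v hv hvP)
  have h3 : A0.filter (fun a => s(x, a) ∉ E) = P.filter (fun a => s(x, a) ∉ E) := by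
    ext v
    simp only [mem_filter]
    constructor
    · rintro ⟨hv, hx⟩
      refine ⟨?_, hx⟩
      by_contra hvP
      exact hx (h.adj_x hv (h0 v hv hvP))
    · rintro ⟨hv, hx⟩
      exact ⟨hP hv, hx⟩
  rw [h2, ← h3]
  exact h1

/-- the missing neighbours of `a` are `x` or non-clean -/
theorem D1Env.mem_mis (h : D1Env E k A0 B0 x) {a v : V} (ha : a ∈ A0)
    (hv : v ∈ (insert x A0).filter (fun v => v ≠ a ∧ s(a, v) ∉ E)) :
    v = x ∨ (v ∈ A0 ∧ v ≠ a ∧ deg (crs E (insert x A0) (insert x B0)) v ≠ 0) := by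
  rw [mem_filter, mem_insert] at hv
  obtain ⟨hv1, hva, hvE⟩ := hv
  rcases hv1 with rfl | hv1
  · exact Or.inl rfl
  · refine Or.inr ⟨hv1, hva, fun hd => hvE ?_⟩
    have := h.clean hv1 hd a (mem_insert_of_mem ha) hva.symm
    rwa [Sym2.eq_swap]

theorem D1Env.side_one (h : D1Env E k A0 B0 x) {a : V} (ha : a ∈ A0)
    (hd : deg (crs E (insert x A0) (insert x B0)) a = 1)
    (h0 : ∀ v ∈ A0, v ≠ a → deg (crs E (insert x A0) (insert x B0)) v = 0) :
    2 * (inn E (insert x A0)).card + 2 = 2 * k * (2 * k + 1) := by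
  have h1 := h.count_sub {a} (by simpa using ha) fun v hv hva => h0 v hv (by simpa using hva)
  have h2 := h.mis_le ha
  rw [hd] at h2
  have h3 : mis E A0 x a = 1 := by
    have h4 : ¬ Even (mis E A0 x a) := fun hh => by
      have := h2.2.1 hh
      exact absurd this (by decide)
    have h5 : mis E A0 x a ≠ 0 := fun hh => h4 (hh ▸ Even.zero)
    omega
  have h4 : s(x, a) ∉ E := by
    obtain ⟨v, hv⟩ := card_pos.1 (show 0 < ((insert x A0).filter
      (fun v => v ≠ a ∧ s(a, v) ∉ E)).card by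
        have : mis E A0 x a = ((insert x A0).filter (fun v => v ≠ a ∧ s(a, v) ∉ E)).card := rfl
        omega)
    rcases h.mem_mis ha hv with rfl | ⟨hvA, hva, hvd⟩
    · rw [Sym2.eq_swap]
      exact (mem_filter.1 hv).2.2
    · exact absurd (h0 v hvA hva) hvd
  rw [sum_singleton, h3, filter_singleton, if_pos h4, card_singleton] at h1
  omega

theorem D1Env.side_two_deg (h : D1Env E k A0 B0 x) {a : V} (ha : a ∈ A0)
    (hd : deg (crs E (insert x A0) (insert x B0)) a = 2)
    (h0 : ∀ v ∈ A0, v ≠ a → deg (crs E (insert x A0) (insert x B0)) v = 0) :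
    s(x, a) ∈ E ∧ 2 * (inn E (insert x A0)).card = 2 * k * (2 * k + 1) := by
  have h1 := h.count_sub {a} (by simpa using ha) fun v hv hva => h0 v hv (by simpa using hva)
  have h2 := h.mis_le ha
  rw [hd] at h2
  have h6 : ((insert x A0).filter (fun v => v ≠ a ∧ s(a, v) ∉ E)) ⊆ {x} := by
    intro v hv
    rcases h.mem_mis ha hv with rfl | ⟨hvA, hva, hvd⟩
    · exact mem_singleton_self _
    · exact absurd (h0 v hvA hva) hvd
  have h3 : mis E A0 x a = 0 := by
    have h4 : Even (mis E A0 x a) := h2.2.2 even_two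
    have h5 : mis E A0 x a ≤ 1 := (card_le_card h6).trans (by rw [card_singleton])
    rcases h4 with ⟨c, hc⟩
    omega
  have h4 : s(x, a) ∈ E := by
    by_contra hxa
    have h7 : ((insert x A0).filter (fun v => v ≠ a ∧ s(a, v) ∉ E)) = ∅ := card_eq_zero.1 h3
    have h8 : x ∈ (insert x A0).filter (fun v => v ≠ a ∧ s(a, v) ∉ E) := by
      rw [mem_filter]
      refine ⟨mem_insert_self _ _, fun hh => h.hxA (hh ▸ ha), ?_⟩
      rwa [Sym2.eq_swap]
    rw [h7] at h8
    exact absurd h8 (notMem_empty x)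
  refine ⟨h4, ?_⟩
  rw [sum_singleton, h3, filter_singleton, if_neg (not_not.2 h4), card_empty] at h1
  omega

theorem D1Env.side_two (h : D1Env E k A0 B0 x) {a a' : V} (ha : a ∈ A0) (ha' : a' ∈ A0)
    (hne : a ≠ a') (hd : deg (crs E (insert x A0) (insert x B0)) a = 1)
    (hd' : deg (crs E (insert x A0) (insert x B0)) a' = 1)
    (h0 : ∀ v ∈ A0, v ≠ a → v ≠ a' → deg (crs E (insert x A0) (insert x B0)) v = 0) :
    (s(a, a') ∉ E ∧ s(x, a) ∈ E ∧ s(x, a') ∈ E ∧
      2 * (inn E (insert x A0)).card + 2 = 2 * k * (2 * k + 1)) ∨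
    (s(a, a') ∈ E ∧ s(x, a) ∉ E ∧ s(x, a') ∉ E ∧
      2 * (inn E (insert x A0)).card + 4 = 2 * k * (2 * k + 1)) := by
  have h1 := h.count_sub {a, a'} (by
    intro v hv
    rcases mem_insert.1 hv with rfl | hv
    · exact ha
    · rw [mem_singleton.1 hv]
      exact ha') fun v hv hva => by
    rw [mem_insert, mem_singleton, not_or] at hva
    exact h0 v hv hva.1 hva.2
  -- `mis = 1` for a vertex of cross degree one
  have hmis : ∀ u ∈ A0, deg (crs E (insert x A0) (insert x B0)) u = 1 → mis E A0 x u = 1 := by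
    intro u hu hdu
    have h2 := h.mis_le hu
    rw [hdu] at h2
    have h4 : ¬ Even (mis E A0 x u) := fun hh => by
      have := h2.2.1 hh
      exact absurd this (by decide)
    have h5 : mis E A0 x u ≠ 0 := fun hh => h4 (hh ▸ Even.zero)
    omega
  have hm := hmis a ha hd
  have hm' := hmis a' ha' hd'
  -- if `u w` is missing then `x` is adjacent to `u`
  have hmiss : ∀ u w : V, u ∈ A0 → w ∈ A0 → u ≠ w → s(u, w) ∉ E → mis E A0 x u = 1 →
      s(x, u) ∈ E := by
    intro u w hu hw huw huwE hmu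
    by_contra hxu
    have h2 : ({w, x} : Finset V) ⊆ (insert x A0).filter (fun v => v ≠ u ∧ s(u, v) ∉ E) := by
      intro v hv
      rcases mem_insert.1 hv with rfl | hv
      · exact mem_filter.2 ⟨mem_insert_of_mem hw, huw.symm, huwE⟩
      · rw [mem_singleton.1 hv]
        refine mem_filter.2 ⟨mem_insert_self _ _, fun hh => h.hxA (hh ▸ hu), ?_⟩
        rwa [Sym2.eq_swap]
    have h3 := card_le_card h2
    rw [card_pair (show w ≠ x from fun hh => h.hxA (hh ▸ hw))] at h3
    have h4 : mis E A0 x u = ((insert x A0).filter (fun v => v ≠ u ∧ s(u, v) ∉ E)).card := rfl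
    omega
  -- if `u w` is present then `x` is not adjacent to `u`
  have hpres : ∀ u w : V, u ∈ A0 → s(u, w) ∈ E → mis E A0 x u = 1 →
      (∀ v ∈ A0, v ≠ u → v ≠ w → deg (crs E (insert x A0) (insert x B0)) v = 0) →
      s(x, u) ∉ E := by
    intro u w hu huwE hmu h0'
    obtain ⟨v, hv⟩ := card_pos.1 (show 0 < ((insert x A0).filter
      (fun v => v ≠ u ∧ s(u, v) ∉ E)).card by
        have : mis E A0 x u = ((insert x A0).filter (fun v => v ≠ u ∧ s(u, v) ∉ E)).card := rfl
        omega)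
    rcases h.mem_mis hu hv with rfl | ⟨hvA, hva, hvd⟩
    · rw [Sym2.eq_swap]
      exact (mem_filter.1 hv).2.2
    · exfalso
      by_cases hvw : v = w
      · rw [hvw] at hv
        exact (mem_filter.1 hv).2.2 huwE
      · exact hvd (h0' v hvA hva hvw)
  rw [sum_pair hne, hm, hm'] at h1
  by_cases hE : s(a, a') ∈ E
  · right
    have h2 := hpres a a' ha hE hm h0
    have h3 := hpres a' a ha' (by rwa [Sym2.eq_swap]) hm' fun v hv h1 h2 => h0 v hv h2 h1
    refine ⟨hE, h2, h3, ?_⟩
    have h4 : ({a, a'} : Finset V).filter (fun a => s(x, a) ∉ E) = {a, a'} := by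
      rw [filter_eq_self]
      intro v hv
      rcases mem_insert.1 hv with rfl | hv
      · exact h2
      · rw [mem_singleton.1 hv]
        exact h3
    rw [h4, card_pair hne] at h1
    omega
  · left
    have h2 := hmiss a a' ha ha' hne hE hm
    have h3 := hmiss a' a ha' ha hne.symm (by rwa [Sym2.eq_swap]) hm'
    refine ⟨hE, h2, h3, ?_⟩
    have h4 : ({a, a'} : Finset V).filter (fun a => s(x, a) ∉ E) = ∅ := by
      rw [filter_eq_empty_iff]
      intro v hv
      rcases mem_insert.1 hv with rfl | hv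
      · exact not_not.2 h2
      · rw [mem_singleton.1 hv]
        exact not_not.2 h3
    rw [h4, card_empty] at h1
    omega

/-! ### the theorems -/

theorem d1b_deg_zero {F : Finset (Sym2 V)} {v : V} (h : ∀ e ∈ F, v ∉ e) : deg F v = 0 := by
  unfold deg
  rw [card_eq_zero, filter_eq_empty_iff]
  exact h

theorem D1Env.goal_f0 (h : D1Env E k A0 B0 x)
    (hf : (crs E (insert x A0) (insert x B0)).card = 0)
    (hmod : (4 * k + 1) % 24 ≠ 5 ∧ (4 * k + 1) % 24 ≠ 13) : D1Goal E A0 B0 x := by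
  have hF : crs E (insert x A0) (insert x B0) = ∅ := card_eq_zero.1 hf
  have hF' : crs E (insert x B0) (insert x A0) = ∅ := by rw [d1b_crs_comm, hF]
  have h1 := h.count_sub ∅ (empty_subset _) fun v _ _ => by rw [hF]; simp
  have h2 := h.swap.count_sub ∅ (empty_subset _) fun v _ _ => by rw [hF']; simp
  have h3 := h.total
  have h4 := h.six
  rw [hf, add_zero] at h3
  simp only [sum_empty, filter_empty, card_empty, add_zero] at h1 h2
  have hP := D1P.zero E A0 B0 x ∅
  rw [← hF] at hP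
  refine hP.goal (by norm_num) ?_
  -- arithmetic
  have h5 : (inn E (insert x A0)).card = k * (2 * k + 1) := by
    have : 2 * (inn E (insert x A0)).card = 2 * (k * (2 * k + 1)) := by rw [h1]; ring
    omega
  have h6 : (inn E (insert x B0)).card = k * (2 * k + 1) := by
    have : 2 * (inn E (insert x B0)).card = 2 * (k * (2 * k + 1)) := by rw [h2]; ring
    omega
  rw [h5]
  rw [h5, h6] at h3
  rw [← h3] at h4
  -- `k` modulo 6
  obtain ⟨q, hq⟩ : ∃ q, k = 6 * q + k % 6 := ⟨k / 6, (Nat.div_add_mod k 6).symm⟩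
  obtain ⟨c, hc⟩ : ∃ c, c = k * (2 * k + 1) := ⟨_, rfl⟩
  rw [← hc] at h4 ⊢
  have h7 : k % 6 < 6 := Nat.mod_lt _ (by norm_num)
  have h8 : c % 6 = (k % 6) * (2 * (k % 6) + 1) % 6 := by
    rw [hc]
    simp [Nat.mul_mod, Nat.add_mod]
  generalize k % 6 = t at h7 h8 hq
  interval_cases t <;> omega

theorem D1Env.goal_f1 (h : D1Env E k A0 B0 x)
    (hf : (crs E (insert x A0) (insert x B0)).card = 1) : False := by
  obtain ⟨e, hF⟩ := card_eq_one.1 hf
  obtain ⟨a, ha, b, hb, rfl⟩ := h.mem_crs (e := e) (by rw [hF]; exact mem_singleton_self _)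
  have hAB : ∀ u ∈ A0, ∀ w ∈ B0, u ≠ w := fun u hu w hw huw =>
    disjoint_left.1 h.disj hu (huw ▸ hw)
  have hda : deg (crs E (insert x A0) (insert x B0)) a = 1 := by
    rw [hF]
    unfold deg
    rw [filter_singleton, if_pos (Sym2.mem_mk_left a b), card_singleton]
  have hdb : deg (crs E (insert x B0) (insert x A0)) b = 1 := by
    rw [d1b_crs_comm, hF]
    unfold deg
    rw [filter_singleton, if_pos (Sym2.mem_mk_right a b), card_singleton]
  have h1 := h.side_one ha hda fun v hv hva => by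
    rw [hF]
    apply d1b_deg_zero
    intro e he
    rw [mem_singleton.1 he, Sym2.mem_iff, not_or]
    exact ⟨hva, hAB v hv b hb⟩
  have h2 := h.swap.side_one hb hdb fun v hv hva => by
    rw [d1b_crs_comm, hF]
    apply d1b_deg_zero
    intro e he
    rw [mem_singleton.1 he, Sym2.mem_iff, not_or]
    exact ⟨(hAB a ha v hv).symm, hva⟩
  have h3 := h.total
  have h4 := h.six
  rw [hf] at h3
  generalize 2 * k * (2 * k + 1) = S at h1 h2
  omega

/-- two passes -/
theorem D1Env.two_passes (h : D1Env E k A0 B0 x) {a b a' b' : V} (ha : a ∈ A0) (hb : b ∈ B0)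
    (ha' : a' ∈ A0) (hb' : b' ∈ B0) (hne : s(a, b) ≠ s(a', b'))
    (hF : crs E (insert x A0) (insert x B0) = {s(a, b), s(a', b')})
    (r r' : ℕ) (hr : 1 ≤ r ∧ r ≤ 4) (hr' : 1 ≤ r' ∧ r' ≤ 4) (h1 : r = 1 → s(x, a) ∈ E)
    (h4 : r = 4 → s(x, b) ∈ E) (h1' : r' = 1 → s(x, a') ∈ E) (h4' : r' = 4 → s(x, b') ∈ E)
    (hd1 : r = 1 → r' = 1 → a ≠ a') (hd4 : r = 4 → r' = 4 → b ≠ b')
    (hρ : (r + r') % 6 = (inn E (insert x A0)).card % 6) : D1Goal E A0 B0 x := by
  have hE : ∀ e ∈ crs E (insert x A0) (insert x B0), e ∈ E := fun e he =>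
    (mem_sdiff.1 (mem_sdiff.1 he).1).1
  have hab : s(a, b) ∈ E := hE _ (by rw [hF]; simp)
  have hab' : s(a', b') ∈ E := hE _ (by rw [hF]; simp)
  have hAB : ∀ u ∈ A0, ∀ w ∈ B0, u ≠ w := fun u hu w hw huw =>
    disjoint_left.1 h.disj hu (huw ▸ hw)
  -- protected vertices for the second pass
  obtain ⟨D, hD⟩ := (D1P.zero E A0 B0 x {a, b, a', b'}).pass h (by norm_num) ha hb hab
    (notMem_empty _) r hr.1 hr.2 (fun hh => ⟨h1 hh, by simp⟩) (fun hh => ⟨h4 hh, by simp⟩)
    ((if r' = 1 then {a'} else ∅) ∪ (if r' = 4 then {b'} else ∅)) (by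
      intro v hv
      rw [mem_union] at hv
      rcases hv with hv | hv
      · split_ifs at hv
        · rw [mem_singleton.1 hv]; simp
        · exact absurd hv (notMem_empty v)
      · split_ifs at hv
        · rw [mem_singleton.1 hv]; simp
        · exact absurd hv (notMem_empty v)) (by
      refine (card_union_le _ _).trans ?_
      split_ifs <;> simp) (by
      intro hr1 hmem
      rw [mem_union] at hmem
      rcases hmem with hv | hv
      · split_ifs at hv with hr1'
        · exact hd1 hr1 hr1' (mem_singleton.1 hv)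
        · exact absurd hv (notMem_empty a)
      · split_ifs at hv
        · exact hAB a ha b' hb' (mem_singleton.1 hv)
        · exact absurd hv (notMem_empty a)) (by
      intro hr4 hmem
      rw [mem_union] at hmem
      rcases hmem with hv | hv
      · split_ifs at hv
        · exact hAB a' ha' b hb (mem_singleton.1 hv).symm
        · exact absurd hv (notMem_empty b)
      · split_ifs at hv with hr4'
        · exact hd4 hr4 hr4' (mem_singleton.1 hv)
        · exact absurd hv (notMem_empty b))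
  obtain ⟨D', hD'⟩ := hD.pass h (by norm_num) ha' hb' hab' (by
      rw [mem_insert, not_or]
      exact ⟨hne.symm, notMem_empty _⟩) r' hr'.1 hr'.2
    (fun hh => ⟨h1' hh, by rw [mem_union, if_pos hh]; simp⟩)
    (fun hh => ⟨h4' hh, by rw [mem_union, if_pos hh]; simp⟩) ∅ (empty_subset _) (by simp)
    (fun _ => notMem_empty _) (fun _ => notMem_empty _)
  have hS : insert s(a', b') (insert s(a, b) (∅ : Finset (Sym2 V))) =
      crs E (insert x A0) (insert x B0) := by
    rw [hF, insert_empty_eq, pair_comm]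
  rw [hS] at hD'
  refine hD'.goal (by norm_num) ?_
  rw [zero_add]
  exact hρ

/-- two cross edges with a common end in `A0` -/
theorem D1Env.goal_star (h : D1Env E k A0 B0 x) {a b b' : V} (ha : a ∈ A0) (hb : b ∈ B0)
    (hb' : b' ∈ B0) (hbb : b ≠ b')
    (hF : crs E (insert x A0) (insert x B0) = {s(a, b), s(a, b')}) : D1Goal E A0 B0 x := by
  have hne : s(a, b) ≠ s(a, b') := fun hh => hbb (Sym2.congr_right.1 hh)
  have hAB : ∀ u ∈ A0, ∀ w ∈ B0, u ≠ w := fun u hu w hw huw =>
    disjoint_left.1 h.disj hu (huw ▸ hw)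
  have hda : deg (crs E (insert x A0) (insert x B0)) a = 2 := by
    rw [hF]
    unfold deg
    rw [filter_eq_self.2, card_pair hne]
    intro e he
    rcases mem_insert.1 he with rfl | he
    · exact Sym2.mem_mk_left a b
    · rw [mem_singleton.1 he]
      exact Sym2.mem_mk_left a b'
  have h1 := h.side_two_deg ha hda fun v hv hva => by
    rw [hF]
    apply d1b_deg_zero
    intro e he
    rcases mem_insert.1 he with rfl | he
    · rw [Sym2.mem_iff, not_or]
      exact ⟨hva, hAB v hv b hb⟩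
    · rw [mem_singleton.1 he, Sym2.mem_iff, not_or]
      exact ⟨hva, hAB v hv b' hb'⟩
  have hdb : ∀ u w : V, u ∈ B0 → u ≠ w → ({s(a, b), s(a, b')} : Finset (Sym2 V)) =
      {s(a, u), s(a, w)} → deg (crs E (insert x B0) (insert x A0)) u = 1 := by
    intro u w hu huw heq
    rw [d1b_crs_comm, hF, heq]
    unfold deg
    have : ({s(a, u), s(a, w)} : Finset (Sym2 V)).filter (fun e => u ∈ e) = {s(a, u)} := by
      ext e
      simp only [mem_filter, mem_insert, mem_singleton]
      constructor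
      · rintro ⟨rfl | rfl, he⟩
        · rfl
        · exfalso
          rcases Sym2.mem_iff.1 he with hh | hh
          · exact hAB a ha u hu hh.symm
          · exact huw hh
      · rintro rfl
        exact ⟨Or.inl rfl, Sym2.mem_mk_right a u⟩
    rw [this, card_singleton]
  have h2 := h.swap.side_two hb hb' hbb (hdb b b' hb hbb rfl)
    (hdb b' b hb' hbb.symm (pair_comm _ _)) fun v hv hvb hvb' => by
    rw [d1b_crs_comm, hF]
    apply d1b_deg_zero
    intro e he
    rcases mem_insert.1 he with rfl | he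
    · rw [Sym2.mem_iff, not_or]
      exact ⟨(hAB a ha v hv).symm, hvb⟩
    · rw [mem_singleton.1 he, Sym2.mem_iff, not_or]
      exact ⟨(hAB a ha v hv).symm, hvb'⟩
  have h3 := h.total
  have h4 := h.six
  have hfc : (crs E (insert x A0) (insert x B0)).card = 2 := by rw [hF, card_pair hne]
  rw [hfc] at h3
  obtain ⟨S, hS⟩ : ∃ S, S = 2 * k * (2 * k + 1) := ⟨_, rfl⟩
  rw [← hS] at h1 h2
  have h5 : (inn E (insert x A0)).card % 6 = 3 ∨ (inn E (insert x A0)).card % 6 = 0 := by
    rcases h2 with ⟨_, _, _, h2⟩ | ⟨_, _, _, h2⟩ <;> omega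
  rcases h5 with h5 | h5
  · exact h.two_passes ha hb ha hb' hne hF 1 2 (by norm_num) (by norm_num) (fun _ => h1.1)
      (by norm_num) (by norm_num) (by norm_num) (by norm_num) (by norm_num) (by omega)
  · exact h.two_passes ha hb ha hb' hne hF 3 3 (by norm_num) (by norm_num) (by norm_num)
      (by norm_num) (by norm_num) (by norm_num) (by norm_num) (by norm_num) (by omega)

/-- two disjoint cross edges -/
theorem D1Env.goal_matching (h : D1Env E k A0 B0 x) {a b a' b' : V} (ha : a ∈ A0) (hb : b ∈ B0)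
    (ha' : a' ∈ A0) (hb' : b' ∈ B0) (haa : a ≠ a') (hbb : b ≠ b')
    (hF : crs E (insert x A0) (insert x B0) = {s(a, b), s(a', b')}) : D1Goal E A0 B0 x := by
  have hAB : ∀ u ∈ A0, ∀ w ∈ B0, u ≠ w := fun u hu w hw huw =>
    disjoint_left.1 h.disj hu (huw ▸ hw)
  have hne : s(a, b) ≠ s(a', b') := by
    intro hh
    have : a ∈ s(a', b') := by rw [← hh]; exact Sym2.mem_mk_left a b
    rcases Sym2.mem_iff.1 this with hh | hh
    · exact haa hh
    · exact hAB a ha b' hb' hh
  have hE : ∀ e ∈ crs E (insert x A0) (insert x B0), e ∈ E := fun e he =>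
    (mem_sdiff.1 (mem_sdiff.1 he).1).1
  have hab : s(a, b) ∈ E := hE _ (by rw [hF]; simp)
  have hab' : s(a', b') ∈ E := hE _ (by rw [hF]; simp)
  have hdeg : ∀ u w p q : V, u ∉ s(p, q) → u ∈ s(u, w) → ({s(a, b), s(a', b')} : Finset (Sym2 V)) =
      {s(u, w), s(p, q)} → deg (crs E (insert x A0) (insert x B0)) u = 1 := by
    intro u w p q hu huw heq
    rw [hF, heq]
    unfold deg
    have : ({s(u, w), s(p, q)} : Finset (Sym2 V)).filter (fun e => u ∈ e) = {s(u, w)} := by
      ext e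
      simp only [mem_filter, mem_insert, mem_singleton]
      constructor
      · rintro ⟨rfl | rfl, he⟩
        · rfl
        · exact absurd he hu
      · rintro rfl
        exact ⟨Or.inl rfl, huw⟩
    rw [this, card_singleton]
  have hn : ∀ {u p q : V}, u ≠ p → u ≠ q → u ∉ s(p, q) := by
    intro u p q h1 h2 hh
    rcases Sym2.mem_iff.1 hh with hh | hh
    · exact h1 hh
    · exact h2 hh
  have h1 := h.side_two ha ha' haa
    (hdeg a b a' b' (hn haa (hAB a ha b' hb')) (Sym2.mem_mk_left _ _) rfl)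
    (hdeg a' b' a b (hn haa.symm (hAB a' ha' b hb)) (Sym2.mem_mk_left _ _) (pair_comm _ _))
    fun v hv hva hva' => by
    rw [hF]
    apply d1b_deg_zero
    intro e he
    rcases mem_insert.1 he with rfl | he
    · exact hn hva (hAB v hv b hb)
    · rw [mem_singleton.1 he]
      exact hn hva' (hAB v hv b' hb')
  have h2 := h.swap.side_two hb hb' hbb
    (by
      rw [d1b_crs_comm]
      exact hdeg b a a' b' (hn (hAB a' ha' b hb).symm hbb) (Sym2.mem_mk_left _ _)
        (by rw [Sym2.eq_swap (a := a) (b := b)]))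
    (by
      rw [d1b_crs_comm]
      exact hdeg b' a' a b (hn (hAB a ha b' hb').symm hbb.symm) (Sym2.mem_mk_left _ _)
        (by rw [Sym2.eq_swap (a := a') (b := b')]; exact pair_comm _ _))
    fun v hv hvb hvb' => by
    rw [d1b_crs_comm, hF]
    apply d1b_deg_zero
    intro e he
    rcases mem_insert.1 he with rfl | he
    · exact hn (hAB a ha v hv).symm hvb
    · rw [mem_singleton.1 he]
      exact hn (hAB a' ha' v hv).symm hvb'
  have h3 := h.total
  have h4 := h.six
  have hfc : (crs E (insert x A0) (insert x B0)).card = 2 := by rw [hF, card_pair hne]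
  rw [hfc] at h3
  obtain ⟨S, hS⟩ : ∃ S, S = 2 * k * (2 * k + 1) := ⟨_, rfl⟩
  rw [← hS] at h1 h2
  rcases h1 with ⟨hAE, hxa, hxa', hA⟩ | ⟨hAE, hxa, hxa', hA⟩
  · rcases h2 with ⟨hBE, hxb, hxb', hB⟩ | ⟨hBE, hxb, hxb', hB⟩
    · -- first kind
      have hex : ∃ r r' : ℕ, (1 ≤ r ∧ r ≤ 4) ∧ (1 ≤ r' ∧ r' ≤ 4) ∧
          (r + r') % 6 = (inn E (insert x A0)).card % 6 := by
        have h6 : (inn E (insert x A0)).card % 6 < 6 := Nat.mod_lt _ (by norm_num)
        generalize (inn E (insert x A0)).card % 6 = t at h6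
        interval_cases t
        · exact ⟨3, 3, by norm_num⟩
        · exact ⟨3, 4, by norm_num⟩
        · exact ⟨1, 1, by norm_num⟩
        · exact ⟨1, 2, by norm_num⟩
        · exact ⟨2, 2, by norm_num⟩
        · exact ⟨2, 3, by norm_num⟩
      obtain ⟨r, r', hr, hr', hrr⟩ := hex
      exact h.two_passes ha hb ha' hb' hne hF r r' hr hr' (fun _ => hxa) (fun _ => hxb)
        (fun _ => hxa') (fun _ => hxb') (fun _ _ => haa) (fun _ _ => hbb) hrr
    · exfalso
      omega
  · rcases h2 with ⟨hBE, hxb, hxb', hB⟩ | ⟨hBE, hxb, hxb', hB⟩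
    · exfalso
      omega
    · -- second kind
      have htwo : ∀ r : ℕ, 1 ≤ r → r ≤ 3 → r % 6 = (inn E (insert x A0)).card % 6 →
          D1Goal E A0 B0 x := by
        intro r hr1 hr3 hrr
        obtain ⟨D, hD⟩ := D1P.two h ha hb ha' hb' haa hbb hab hab' r hr1 hr3 (fun _ => hAE)
          (fun _ => hBE) ∅ (by simp)
        rw [← hF] at hD
        exact hD.goal (by norm_num) hrr
      have h6 : (inn E (insert x A0)).card % 6 < 6 := Nat.mod_lt _ (by norm_num)
      have hcase : (inn E (insert x A0)).card % 6 = 0 ∨ (inn E (insert x A0)).card % 6 = 1 ∨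
          (inn E (insert x A0)).card % 6 = 2 ∨ (inn E (insert x A0)).card % 6 = 3 ∨
          (inn E (insert x A0)).card % 6 = 4 ∨ (inn E (insert x A0)).card % 6 = 5 := by omega
      rcases hcase with hc | hc | hc | hc | hc | hc
      · exact h.two_passes ha hb ha' hb' hne hF 3 3 (by norm_num) (by norm_num) (by norm_num)
          (by norm_num) (by norm_num) (by norm_num) (by norm_num) (by norm_num) (by omega)
      · exact htwo 1 (by norm_num) (by norm_num) (by omega)
      · exact htwo 2 (by norm_num) (by norm_num) (by omega)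
      · exact htwo 3 (by norm_num) (by norm_num) (by omega)
      · exact h.two_passes ha hb ha' hb' hne hF 2 2 (by norm_num) (by norm_num) (by norm_num)
          (by norm_num) (by norm_num) (by norm_num) (by norm_num) (by norm_num) (by omega)
      · exact h.two_passes ha hb ha' hb' hne hF 2 3 (by norm_num) (by norm_num) (by norm_num)
          (by norm_num) (by norm_num) (by norm_num) (by norm_num) (by norm_num) (by omega)

theorem D1Env.goal_f2 (h : D1Env E k A0 B0 x)
    (hf : (crs E (insert x A0) (insert x B0)).card = 2) : D1Goal E A0 B0 x := by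
  obtain ⟨e, e', hee, hF⟩ := card_eq_two.1 hf
  obtain ⟨a, ha, b, hb, rfl⟩ := h.mem_crs (e := e) (by rw [hF]; simp)
  obtain ⟨a', ha', b', hb', rfl⟩ := h.mem_crs (e := e') (by rw [hF]; simp)
  by_cases haa : a = a'
  · subst haa
    exact h.goal_star ha hb hb' (fun hh => hee (by rw [hh])) hF
  · by_cases hbb : b = b'
    · subst hbb
      refine h.goal_swap (h.swap.goal_star hb ha ha' haa ?_)
      rw [d1b_crs_comm, hF, Sym2.eq_swap (a := a) (b := b), Sym2.eq_swap (a := a') (b := b)]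
    · exact h.goal_matching ha hb ha' hb' haa hbb hF

end H15C6
end S_D1B

section S_D1C
/-!
Module D1C.  The exact case with `f = |F0| = 3` or `4` edges between `A0` and `B0`.
Notation as in D1B.  General remark: `m a` = number of missing inner neighbours of `a`; `m a ≤ deg F0 a`, same parity;
missing neighbours of `a` in `AX` are `x` or non-clean vertices.

* `f = 3`, two of the edges disjoint, `a1b1, a2b2`, third edge `e3 = a3b3`.  Three passes with `r ∈ {2,3}`: sums
  6,7,8,9 (residues 0,1,2,3); `d1_two` (`r = 2`) for the two disjoint ones and one pass `r ∈ {2,3}` for `e3`: sums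
  4, 5.  All residues.
* `f = 3`, all edges at one vertex `a` (or symmetric, `goal_swap`): `F0 = {ab1, ab2, ab3}`.  `m a` is odd and only
  `x` can be missing, so `m a = 1`, `s(x,a) ∉ E`, `N_A = k(2k+1) - 1`.  B side: `m b_i = 1`: either one pair `b_ib_j` is
  missing and `x` is not adjacent to the third (2 missing edges), or `x` is not adjacent to all three (3 missing).
  `|E| = 2k(2k+1) - 1 - |missing_B| + 3` even: exactly 2 missing.  So `x` is adjacent to two of the `b_i`:
  passes with `r ∈ {2,3,4}` for these two and `r ∈ {2,3}` for the third: sums 6..11, all residues.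
  (Three edges of a bipartite graph that are pairwise intersecting have a common vertex.)
* `f = 4`, two of the edges disjoint: four passes `r ∈ {2,3}`: sums 8..12 (residues 2,3,4,5,0); `d1_two` (`r = 2`) and
  two passes `r ∈ {2,3}`: sums 6,7,8 (residues 0,1,2).  All residues.
* `f = 4`, all at one vertex `a` (or symmetric): `m a` is even and `≤ 1`, so `0`: `s(x,a) ∈ E`; passes: one with
  `r ∈ {1,2,3}` and three with `r ∈ {2,3}`: sums 7..12, all residues.
Disjointness: successive use of `d1_pass`/`d1_two` with `Q ⊇` the vertex sets of the previous cycles.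
-/

set_option linter.unusedSectionVars false

open Finset

namespace H15C6

variable {V : Type} [Fintype V] [DecidableEq V] {E : Finset (Sym2 V)} {k : ℕ} {A0 B0 : Finset V}
  {x : V}

/-- state of the successive construction -/
structure D1cS {V : Type} [DecidableEq V] (E : Finset (Sym2 V)) (A0 B0 : Finset V) (x : V)
    (Q0 : Finset V) (R : Finset (Sym2 V)) (m s : ℕ) (S : Finset V) (D : Finset (Sym2 V)) :
    Prop where
  sub : D ⊆ E
  dec : Dec D
  cr : crs D (insert x A0) (insert x B0) = R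
  inc : (inn D (insert x A0)).card = s
  card : D.card = 6 * m
  tt : ∃ T : Finset V, T.card ≤ 6 * m ∧ D ⊆ T.sym2
  sp : ∀ v ∈ Q0, s(x, v) ∈ D → v ∈ S

theorem d1c_start (Q0 : Finset V) : D1cS E A0 B0 x Q0 ∅ 0 0 ∅ ∅ where
  sub := by simp
  dec := Dec.empty
  cr := by simp [crs]
  inc := by simp [inn]
  card := by simp
  tt := ⟨∅, by simp, by simp⟩
  sp := by simp

theorem d1c_crs_union (D C : Finset (Sym2 V)) (A B : Finset V) :
    crs (D ∪ C) A B = crs D A B ∪ crs C A B := by
  simp only [crs, Finset.union_sdiff_distrib]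

theorem d1c_inn_union (D C : Finset (Sym2 V)) (A : Finset V) :
    inn (D ∪ C) A = inn D A ∪ inn C A := by
  simp only [inn, Finset.union_inter_distrib_right]

theorem d1c_crs_comm (D : Finset (Sym2 V)) (A B : Finset V) : crs D B A = crs D A B := by
  ext e
  simp only [crs, Finset.mem_sdiff]
  tauto

theorem d1c_notA (h : D1Env E k A0 B0 x) {a b : V} (hb : b ∈ B0) :
    s(a, b) ∉ (insert x A0).sym2 := by
  intro h1
  rw [Finset.mk_mem_sym2_iff] at h1
  rcases Finset.mem_insert.1 h1.2 with h2 | h2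
  · exact h.hxB (h2 ▸ hb)
  · exact (Finset.disjoint_left.1 h.disj) h2 hb

theorem d1c_notB (h : D1Env E k A0 B0 x) {a b : V} (ha : a ∈ A0) :
    s(a, b) ∉ (insert x B0).sym2 := by
  intro h1
  rw [Finset.mk_mem_sym2_iff] at h1
  rcases Finset.mem_insert.1 h1.1 with h2 | h2
  · exact h.hxA (h2 ▸ ha)
  · exact (Finset.disjoint_left.1 h.disj) ha h2

theorem d1c_step (h : D1Env E k A0 B0 x) {Q0 : Finset V} {R : Finset (Sym2 V)} {m s : ℕ}
    {S : Finset V} {D : Finset (Sym2 V)} (hD : D1cS E A0 B0 x Q0 R m s S D) (hm : m ≤ 3)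
    (hQ0 : Q0.card ≤ 15) {a b : V} (ha : a ∈ A0) (hb : b ∈ B0) (hab : s(a, b) ∈ E)
    (hR : s(a, b) ∉ R) (haQ : a ∈ Q0) (hbQ : b ∈ Q0) (r : ℕ) (hr1 : 1 ≤ r) (hr4 : r ≤ 4)
    (h1 : r = 1 → s(x, a) ∈ E ∧ a ∉ S) (h4 : r = 4 → s(x, b) ∈ E ∧ b ∉ S) (S' : Finset V)
    (hS : S ⊆ S') (h1' : r = 1 → a ∈ S') (h4' : r = 4 → b ∈ S') :
    ∃ D', D1cS E A0 B0 x Q0 (insert s(a, b) R) (m + 1) (s + r) S' D' := by
  obtain ⟨T, hT, hDT⟩ := hD.tt
  have hQ : (Q0 ∪ T).card ≤ 40 := by
    have := Finset.card_union_le Q0 T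
    omega
  obtain ⟨C, hCE, hC6, hCc, hCi, hCe, T', hT', hCT⟩ :=
    h.d1_pass ha hb hab r hr1 hr4 (fun e => (h1 e).1) (fun e => (h4 e).1) (Q0 ∪ T) hQ
  have hxa : x ≠ a := fun e => h.hxA (e ▸ ha)
  have hxb : x ≠ b := fun e => h.hxB (e ▸ hb)
  have hdis : Disjoint D C := by
    rw [Finset.disjoint_left]
    intro e heD heC
    rcases hCe e heC with he | ⟨hr, he⟩ | ⟨hr, he⟩ | ⟨v, hve, hvQ, -⟩
    · subst he
      apply hR
      rw [← hD.cr, crs, Finset.mem_sdiff, Finset.mem_sdiff]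
      exact ⟨⟨heD, d1c_notA h hb⟩, d1c_notB h ha⟩
    · subst he
      exact (h1 hr).2 (hD.sp a haQ heD)
    · subst he
      exact (h4 hr).2 (hD.sp b hbQ heD)
    · apply hvQ
      rw [Finset.mem_union]
      right
      exact Finset.mem_sym2_iff.1 (hDT heD) v hve
  refine ⟨D ∪ C, ?_, ?_, ?_, ?_, ?_, ?_, ?_⟩
  · exact Finset.union_subset hD.sub hCE
  · exact Dec.add hD.dec hC6 hdis
  · rw [d1c_crs_union, hD.cr, hCc, Finset.insert_eq, Finset.union_comm]
  · rw [d1c_inn_union, Finset.card_union_of_disjoint, hD.inc, hCi]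
    exact Finset.disjoint_of_subset_left Finset.inter_subset_left
      (Finset.disjoint_of_subset_right Finset.inter_subset_left hdis)
  · rw [Finset.card_union_of_disjoint hdis, hD.card, hC6.card]
    ring
  · refine ⟨T ∪ T', ?_, ?_⟩
    · have := Finset.card_union_le T T'
      omega
    · apply Finset.union_subset
      · exact hDT.trans (Finset.sym2_mono Finset.subset_union_left)
      · exact hCT.trans (Finset.sym2_mono Finset.subset_union_right)
  · intro v hv hxv
    rcases Finset.mem_union.1 hxv with h5 | h5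
    · exact hS (hD.sp v hv h5)
    · rcases hCe _ h5 with he | ⟨hr, he⟩ | ⟨hr, he⟩ | ⟨w, hwe, hwQ, hwx, -⟩
      · rw [Sym2.eq_iff] at he
        rcases he with ⟨h6, -⟩ | ⟨h6, -⟩
        · exact absurd h6 hxa
        · exact absurd h6 hxb
      · have h6 : v = a := Sym2.congr_right.1 he
        rw [h6]; exact h1' hr
      · have h6 : v = b := Sym2.congr_right.1 he
        rw [h6]; exact h4' hr
      · rw [Sym2.mem_iff] at hwe
        rcases hwe with h6 | h6
        · exact absurd h6 hwx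
        · exfalso
          apply hwQ
          rw [h6]
          exact Finset.mem_union_left _ hv

theorem d1c_two (h : D1Env E k A0 B0 x) {Q0 : Finset V} {R : Finset (Sym2 V)} {m s : ℕ}
    {S : Finset V} {D : Finset (Sym2 V)} (hD : D1cS E A0 B0 x Q0 R m s S D) (hm : m ≤ 3)
    (hQ0 : Q0.card ≤ 15) {a b a' b' : V} (ha : a ∈ A0) (hb : b ∈ B0) (hab : s(a, b) ∈ E)
    (ha' : a' ∈ A0) (hb' : b' ∈ B0) (hab' : s(a', b') ∈ E) (haa : a ≠ a') (hbb : b ≠ b')
    (hR : s(a, b) ∉ R) (hR' : s(a', b') ∉ R) :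
    ∃ D', D1cS E A0 B0 x Q0 (insert s(a, b) (insert s(a', b') R)) (m + 1) (s + 2) S D' := by
  obtain ⟨T, hT, hDT⟩ := hD.tt
  have hQ : (Q0 ∪ T).card ≤ 40 := by
    have := Finset.card_union_le Q0 T
    omega
  obtain ⟨C, hCE, hC6, hCc, hCi, hCe, T', hT', hCT⟩ :=
    h.d1_two ha hb ha' hb' haa hbb hab hab' 2 (by norm_num) (by norm_num) (by norm_num)
      (by norm_num) (Q0 ∪ T) hQ
  have hxa : x ≠ a := fun e => h.hxA (e ▸ ha)
  have hxb : x ≠ b := fun e => h.hxB (e ▸ hb)
  have hxa' : x ≠ a' := fun e => h.hxA (e ▸ ha')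
  have hxb' : x ≠ b' := fun e => h.hxB (e ▸ hb')
  have hdis : Disjoint D C := by
    rw [Finset.disjoint_left]
    intro e heD heC
    rcases hCe e heC with he | he | ⟨hr, -⟩ | ⟨hr, -⟩ | ⟨v, hve, hvQ, -⟩
    · subst he
      apply hR
      rw [← hD.cr, crs, Finset.mem_sdiff, Finset.mem_sdiff]
      exact ⟨⟨heD, d1c_notA h hb⟩, d1c_notB h ha⟩
    · subst he
      apply hR'
      rw [← hD.cr, crs, Finset.mem_sdiff, Finset.mem_sdiff]
      exact ⟨⟨heD, d1c_notA h hb'⟩, d1c_notB h ha'⟩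
    · omega
    · omega
    · apply hvQ
      rw [Finset.mem_union]
      right
      exact Finset.mem_sym2_iff.1 (hDT heD) v hve
  refine ⟨D ∪ C, ?_, ?_, ?_, ?_, ?_, ?_, ?_⟩
  · exact Finset.union_subset hD.sub hCE
  · exact Dec.add hD.dec hC6 hdis
  · rw [d1c_crs_union, hD.cr, hCc]
    ext e
    simp only [Finset.mem_union, Finset.mem_insert, Finset.mem_singleton]
    tauto
  · rw [d1c_inn_union, Finset.card_union_of_disjoint, hD.inc, hCi]
    exact Finset.disjoint_of_subset_left Finset.inter_subset_left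
      (Finset.disjoint_of_subset_right Finset.inter_subset_left hdis)
  · rw [Finset.card_union_of_disjoint hdis, hD.card, hC6.card]
    ring
  · refine ⟨T ∪ T', ?_, ?_⟩
    · have := Finset.card_union_le T T'
      omega
    · apply Finset.union_subset
      · exact hDT.trans (Finset.sym2_mono Finset.subset_union_left)
      · exact hCT.trans (Finset.sym2_mono Finset.subset_union_right)
  · intro v hv hxv
    rcases Finset.mem_union.1 hxv with h5 | h5
    · exact hD.sp v hv h5
    · rcases hCe _ h5 with he | he | ⟨hr, -⟩ | ⟨hr, -⟩ | ⟨w, hwe, hwQ, hwx, -⟩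
      · rw [Sym2.eq_iff] at he
        rcases he with ⟨h6, -⟩ | ⟨h6, -⟩
        · exact absurd h6 hxa
        · exact absurd h6 hxb
      · rw [Sym2.eq_iff] at he
        rcases he with ⟨h6, -⟩ | ⟨h6, -⟩
        · exact absurd h6 hxa'
        · exact absurd h6 hxb'
      · omega
      · omega
      · rw [Sym2.mem_iff] at hwe
        rcases hwe with h6 | h6
        · exact absurd h6 hwx
        · exfalso
          apply hwQ
          rw [h6]
          exact Finset.mem_union_left _ hv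

/-- the map from pairs to edges -/
def d1c_f {V : Type} (p : V × V) : Sym2 V := s(p.1, p.2)

theorem d1c_inj (h : D1Env E k A0 B0 x) {p q : V × V} (hp : p ∈ A0 ×ˢ B0) (hq : q ∈ A0 ×ˢ B0)
    (hpq : d1c_f p = d1c_f q) : p = q := by
  rw [d1c_f, d1c_f, Sym2.eq_iff] at hpq
  rw [Finset.mem_product] at hp hq
  rcases hpq with ⟨h1, h2⟩ | ⟨h1, h2⟩
  · exact Prod.ext h1 h2
  · exfalso
    exact (Finset.disjoint_left.1 h.disj) hp.1 (h1 ▸ hq.2)

/-- several passes with two or three inner edges -/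
theorem d1c_many (h : D1Env E k A0 B0 x) {Q0 : Finset V} (hQ0 : Q0.card ≤ 15)
    {R : Finset (Sym2 V)} {m s : ℕ} {S : Finset V} {D : Finset (Sym2 V)}
    (hD : D1cS E A0 B0 x Q0 R m s S D) (P : Finset (V × V)) :
    P ⊆ A0 ×ˢ B0 → (∀ p ∈ P, d1c_f p ∈ E ∧ d1c_f p ∉ R ∧ p.1 ∈ Q0 ∧ p.2 ∈ Q0) →
    m + P.card ≤ 4 → ∀ t ≤ P.card,
    ∃ D', D1cS E A0 B0 x Q0 (R ∪ P.image d1c_f) (m + P.card) (s + 2 * P.card + t) S D' := by
  induction P using Finset.induction_on with
  | empty =>
    intro _ _ _ t ht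
    have ht0 : t = 0 := by simpa using ht
    subst ht0
    exact ⟨D, by simpa using hD⟩
  | @insert p P hp ih =>
    intro hsub hall hcard t ht
    have hc : (insert p P).card = P.card + 1 := Finset.card_insert_of_notMem hp
    rw [hc] at hcard ht
    have hsub' : P ⊆ A0 ×ˢ B0 := (Finset.subset_insert p P).trans hsub
    have hp2 := hsub (Finset.mem_insert_self p P)
    have hp3 := Finset.mem_product.1 hp2
    obtain ⟨hpE, hpR, hpQ1, hpQ2⟩ := hall p (Finset.mem_insert_self p P)
    have hnot : d1c_f p ∉ R ∪ P.image d1c_f := by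
      rw [Finset.mem_union]
      rintro (h1 | h1)
      · exact hpR h1
      · obtain ⟨q, hq, hqp⟩ := Finset.mem_image.1 h1
        exact hp (d1c_inj h (hsub' hq) hp2 hqp ▸ hq)
    have hset : insert (d1c_f p) (R ∪ P.image d1c_f) = R ∪ (insert p P).image d1c_f := by
      rw [Finset.image_insert, Finset.union_insert]
    rcases Nat.eq_zero_or_pos t with h0 | h0
    · subst h0
      obtain ⟨D1, hD1⟩ := ih hsub' (fun q hq => hall q (Finset.mem_insert_of_mem hq)) (by omega) 0
        (by omega)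
      obtain ⟨D2, hD2⟩ := d1c_step h hD1 (by omega) hQ0 hp3.1 hp3.2 hpE hnot hpQ1 hpQ2 2
        (by norm_num) (by norm_num) (by norm_num) (by norm_num) S (Finset.Subset.refl _)
        (by norm_num) (by norm_num)
      refine ⟨D2, ?_⟩
      rw [hc, ← hset]
      have e1 : m + (P.card + 1) = m + P.card + 1 := by ring
      have e2 : s + 2 * (P.card + 1) + 0 = s + 2 * P.card + 0 + 2 := by ring
      rw [e1, e2]
      exact hD2
    · obtain ⟨D1, hD1⟩ := ih hsub' (fun q hq => hall q (Finset.mem_insert_of_mem hq)) (by omega)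
        (t - 1) (by omega)
      obtain ⟨D2, hD2⟩ := d1c_step h hD1 (by omega) hQ0 hp3.1 hp3.2 hpE hnot hpQ1 hpQ2 3
        (by norm_num) (by norm_num) (by norm_num) (by norm_num) S (Finset.Subset.refl _)
        (by norm_num) (by norm_num)
      refine ⟨D2, ?_⟩
      rw [hc, ← hset]
      have e1 : m + (P.card + 1) = m + P.card + 1 := by ring
      have e2 : s + 2 * (P.card + 1) + t = s + 2 * P.card + (t - 1) + 3 := by omega
      rw [e1, e2]
      exact hD2

/-- conclusion from a final state -/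
theorem d1c_fin {Q0 : Finset V} {m s : ℕ} {S : Finset V} {D : Finset (Sym2 V)}
    (hD : D1cS E A0 B0 x Q0 (crs E (insert x A0) (insert x B0)) m s S D) (hm : m ≤ 4)
    (hs : s % 6 = (inn E (insert x A0)).card % 6) : D1Goal E A0 B0 x := by
  refine ⟨D, hD.sub, hD.dec, ?_, ?_, ?_⟩
  · rw [← hD.cr, crs]
    exact Finset.sdiff_subset.trans Finset.sdiff_subset
  · rw [hD.card]; omega
  · have h1 : inn (E \ D) (insert x A0) = inn E (insert x A0) \ inn D (insert x A0) := by
      ext e
      simp only [inn, Finset.mem_inter, Finset.mem_sdiff]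
      tauto
    have h2 : inn D (insert x A0) ⊆ inn E (insert x A0) :=
      Finset.inter_subset_inter_right hD.sub
    rw [h1, Finset.card_sdiff_of_subset h2, hD.inc]
    have h3 := Finset.card_le_card h2
    rw [hD.inc] at h3
    omega

/-- the pairs of the cross edges -/
def d1c_P {V : Type} [DecidableEq V] (E : Finset (Sym2 V)) (A0 B0 : Finset V) : Finset (V × V) :=
  (A0 ×ˢ B0).filter (fun p => d1c_f p ∈ E)

theorem d1c_cross (h : D1Env E k A0 B0 x) :
    crs E (insert x A0) (insert x B0) = (d1c_P E A0 B0).image d1c_f := by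
  ext e
  induction e using Sym2.ind with
  | _ a b =>
    constructor
    · intro he
      rw [crs, Finset.mem_sdiff, Finset.mem_sdiff, Finset.mk_mem_sym2_iff,
        Finset.mk_mem_sym2_iff] at he
      obtain ⟨⟨heE, h1⟩, h2⟩ := he
      have ha : a ∈ insert x (A0 ∪ B0) := by rw [h.cover]; exact Finset.mem_univ _
      have hb : b ∈ insert x (A0 ∪ B0) := by rw [h.cover]; exact Finset.mem_univ _
      simp only [Finset.mem_insert, Finset.mem_union] at ha hb h1 h2
      rw [Finset.mem_image]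
      by_cases haA : a ∈ A0
      · by_cases hbB : b ∈ B0
        · exact ⟨(a, b), Finset.mem_filter.2 ⟨Finset.mem_product.2 ⟨haA, hbB⟩, heE⟩, rfl⟩
        · exfalso
          tauto
      · by_cases haB : a ∈ B0
        · by_cases hbA : b ∈ A0
          · refine ⟨(b, a), Finset.mem_filter.2 ⟨Finset.mem_product.2 ⟨hbA, haB⟩, ?_⟩, ?_⟩
            · rw [d1c_f, Sym2.eq_swap]; exact heE
            · rw [d1c_f, Sym2.eq_swap]
          · exfalso
            tauto
        · exfalso
          tauto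
    · intro he
      obtain ⟨p, hp, hpe⟩ := Finset.mem_image.1 he
      rw [← hpe]
      obtain ⟨hp1, hp2⟩ := Finset.mem_filter.1 hp
      rw [Finset.mem_product] at hp1
      rw [crs, Finset.mem_sdiff, Finset.mem_sdiff]
      exact ⟨⟨hp2, d1c_notA h hp1.2⟩, d1c_notB h hp1.1⟩

theorem d1c_cardP (h : D1Env E k A0 B0 x) :
    (d1c_P E A0 B0).card = (crs E (insert x A0) (insert x B0)).card := by
  rw [d1c_cross h, Finset.card_image_of_injOn]
  intro p hp q hq hpq
  exact d1c_inj h (Finset.mem_filter.1 (Finset.mem_coe.1 hp)).1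
    (Finset.mem_filter.1 (Finset.mem_coe.1 hq)).1 hpq

theorem d1c_tri (P : Finset (V × V)) (hP : 2 ≤ P.card) :
    (∃ p ∈ P, ∃ q ∈ P, p.1 ≠ q.1 ∧ p.2 ≠ q.2) ∨ (∃ a, ∀ p ∈ P, p.1 = a) ∨
      (∃ b, ∀ p ∈ P, p.2 = b) := by
  by_cases h : ∃ p ∈ P, ∃ q ∈ P, p.1 ≠ q.1 ∧ p.2 ≠ q.2
  · left; exact h
  · right
    push Not at h
    obtain ⟨p, hp, q, hq, hpq⟩ := Finset.one_lt_card.1 hP
    by_cases h1 : p.1 = q.1
    · have h2 : p.2 ≠ q.2 := fun e => hpq (Prod.ext h1 e)
      left
      refine ⟨p.1, fun r hr => ?_⟩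
      by_contra h3
      have h4 := h r hr p hp h3
      have h5 := h r hr q hq (h1 ▸ h3)
      exact h2 (h4.symm.trans h5)
    · have h2 : p.2 = q.2 := h p hp q hq h1
      right
      refine ⟨p.2, fun r hr => ?_⟩
      by_contra h3
      have h4 : r.1 = p.1 := by
        by_contra h5
        exact h3 (h r hr p hp h5)
      have h6 : r.1 = q.1 := by
        by_contra h5
        exact h3 ((h r hr q hq h5).trans h2.symm)
      exact h1 (h4.symm.trans h6)

/-- the set of all ends of cross edges -/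
def d1c_Q {V : Type} [DecidableEq V] (P : Finset (V × V)) : Finset V :=
  P.image Prod.fst ∪ P.image Prod.snd

theorem d1c_cardQ (P : Finset (V × V)) (hP : P.card ≤ 4) : (d1c_Q P).card ≤ 15 := by
  have h1 := Finset.card_union_le (P.image Prod.fst) (P.image Prod.snd)
  have h2 := Finset.card_image_le (s := P) (f := Prod.fst)
  have h3 := Finset.card_image_le (s := P) (f := Prod.snd)
  rw [d1c_Q]
  omega

theorem d1c_Q1 {P : Finset (V × V)} {p : V × V} (hp : p ∈ P) : p.1 ∈ d1c_Q P :=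
  Finset.mem_union_left _ (Finset.mem_image_of_mem _ hp)

theorem d1c_Q2 {P : Finset (V × V)} {p : V × V} (hp : p ∈ P) : p.2 ∈ d1c_Q P :=
  Finset.mem_union_right _ (Finset.mem_image_of_mem _ hp)

/-- all passes with `r ∈ {2,3}` -/
theorem d1c_all (h : D1Env E k A0 B0 x) (t : ℕ)
    (ht : t ≤ (crs E (insert x A0) (insert x B0)).card)
    (hs : (2 * (crs E (insert x A0) (insert x B0)).card + t) % 6 =
      (inn E (insert x A0)).card % 6) : D1Goal E A0 B0 x := by
  have hc := d1c_cardP h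
  have h4 := h.few
  obtain ⟨D, hD⟩ := d1c_many h (d1c_cardQ (d1c_P E A0 B0) (by omega))
    (d1c_start (E := E) (A0 := A0) (B0 := B0) (x := x) (d1c_Q (d1c_P E A0 B0))) (d1c_P E A0 B0)
    (Finset.filter_subset _ _)
    (fun p hp => ⟨(Finset.mem_filter.1 hp).2, by simp, d1c_Q1 hp, d1c_Q2 hp⟩) (by omega) t
    (by omega)
  rw [Finset.empty_union, ← d1c_cross h] at hD
  apply d1c_fin hD (by omega)
  rw [← hs, hc]
  congr 1
  omega

/-- `d1_two` and passes with `r ∈ {2,3}` -/
theorem d1c_allTwo (h : D1Env E k A0 B0 x) {p q : V × V} (hp : p ∈ d1c_P E A0 B0)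
    (hq : q ∈ d1c_P E A0 B0) (h1 : p.1 ≠ q.1) (h2 : p.2 ≠ q.2) (t : ℕ)
    (ht : t + 2 ≤ (crs E (insert x A0) (insert x B0)).card)
    (hs : (2 * (crs E (insert x A0) (insert x B0)).card - 2 + t) % 6 =
      (inn E (insert x A0)).card % 6) : D1Goal E A0 B0 x := by
  have hc := d1c_cardP h
  have h4 := h.few
  obtain ⟨hp1, hp2⟩ := Finset.mem_filter.1 hp
  obtain ⟨hq1, hq2⟩ := Finset.mem_filter.1 hq
  have hp3 := Finset.mem_product.1 hp1
  have hq3 := Finset.mem_product.1 hq1
  have hpq : p ≠ q := fun e => h1 (by rw [e])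
  have hQ := d1c_cardQ (d1c_P E A0 B0) (by omega)
  obtain ⟨D1, hD1⟩ := d1c_two h
    (d1c_start (E := E) (A0 := A0) (B0 := B0) (x := x) (d1c_Q (d1c_P E A0 B0))) (by omega) hQ
    hp3.1 hp3.2 hp2 hq3.1 hq3.2 hq2 h1 h2 (by simp) (by simp)
  have hcard : (((d1c_P E A0 B0).erase p).erase q).card + 2 = (d1c_P E A0 B0).card := by
    have e1 := Finset.card_erase_add_one hp
    have e2 := Finset.card_erase_add_one (Finset.mem_erase.2 ⟨hpq.symm, hq⟩)
    omega
  obtain ⟨D, hD⟩ := d1c_many h hQ hD1 (((d1c_P E A0 B0).erase p).erase q)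
    (((Finset.erase_subset _ _).trans (Finset.erase_subset _ _)).trans (Finset.filter_subset _ _))
    (by
      intro r hr
      obtain ⟨hr1, hr2⟩ := Finset.mem_erase.1 hr
      obtain ⟨hr3, hr4⟩ := Finset.mem_erase.1 hr2
      obtain ⟨hr5, hr6⟩ := Finset.mem_filter.1 hr4
      refine ⟨hr6, ?_, d1c_Q1 hr4, d1c_Q2 hr4⟩
      intro hmem
      simp only [Finset.mem_insert, Finset.notMem_empty, or_false] at hmem
      rcases hmem with hmem | hmem
      · exact hr3 (d1c_inj h hr5 hp1 hmem)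
      · exact hr1 (d1c_inj h hr5 hq1 hmem))
    (by omega) t (by omega)
  have hset : (insert s(p.1, p.2) (insert s(q.1, q.2) (∅ : Finset (Sym2 V)))) ∪
      (((d1c_P E A0 B0).erase p).erase q).image d1c_f =
      crs E (insert x A0) (insert x B0) := by
    rw [d1c_cross h]
    have e1 : d1c_P E A0 B0 = insert p (insert q (((d1c_P E A0 B0).erase p).erase q)) := by
      rw [Finset.insert_erase (Finset.mem_erase.2 ⟨hpq.symm, hq⟩), Finset.insert_erase hp]
    conv_rhs => rw [e1]
    rw [Finset.image_insert, Finset.image_insert]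
    ext e
    simp only [Finset.mem_union, Finset.mem_insert, d1c_f, Finset.notMem_empty, or_false]
    tauto
  rw [hset] at hD
  apply d1c_fin hD (by omega)
  rw [← hs]
  congr 1
  omega

theorem d1c_degA0 (h : D1Env E k A0 B0 x) {a : V} (hall : ∀ p ∈ d1c_P E A0 B0, p.1 = a) {v : V}
    (hv : v ∈ A0) (hva : v ≠ a) : deg (crs E (insert x A0) (insert x B0)) v = 0 := by
  rw [deg, Finset.card_eq_zero, Finset.filter_eq_empty_iff]
  intro e he hve
  rw [d1c_cross h, Finset.mem_image] at he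
  obtain ⟨p, hp, rfl⟩ := he
  rw [d1c_f, Sym2.mem_iff] at hve
  rcases hve with h1 | h1
  · exact hva (h1.trans (hall p hp))
  · have := (Finset.mem_product.1 (Finset.mem_filter.1 hp).1).2
    exact (Finset.disjoint_left.1 h.disj) hv (h1 ▸ this)

theorem d1c_dega (h : D1Env E k A0 B0 x) {a : V} (hall : ∀ p ∈ d1c_P E A0 B0, p.1 = a) :
    deg (crs E (insert x A0) (insert x B0)) a =
      (crs E (insert x A0) (insert x B0)).card := by
  rw [deg, Finset.filter_true_of_mem]
  intro e he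
  rw [d1c_cross h, Finset.mem_image] at he
  obtain ⟨p, hp, rfl⟩ := he
  rw [d1c_f, Sym2.mem_iff]
  left
  exact (hall p hp).symm

theorem d1c_degb0 (h : D1Env E k A0 B0 x) {v : V}
    (hv : v ∈ B0) (hva : v ∉ (d1c_P E A0 B0).image Prod.snd) :
    deg (crs E (insert x A0) (insert x B0)) v = 0 := by
  rw [deg, Finset.card_eq_zero, Finset.filter_eq_empty_iff]
  intro e he hve
  rw [d1c_cross h, Finset.mem_image] at he
  obtain ⟨p, hp, rfl⟩ := he
  rw [d1c_f, Sym2.mem_iff] at hve
  rcases hve with h1 | h1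
  · have := (Finset.mem_product.1 (Finset.mem_filter.1 hp).1).1
    exact (Finset.disjoint_left.1 h.disj) (h1 ▸ this) hv
  · exact hva (h1 ▸ Finset.mem_image_of_mem _ hp)

theorem d1c_degb1 (h : D1Env E k A0 B0 x) {a : V} (hall : ∀ p ∈ d1c_P E A0 B0, p.1 = a) {v : V}
    (hva : v ∈ (d1c_P E A0 B0).image Prod.snd) :
    deg (crs E (insert x A0) (insert x B0)) v = 1 := by
  obtain ⟨q, hq, rfl⟩ := Finset.mem_image.1 hva
  rw [deg, Finset.card_eq_one]
  refine ⟨d1c_f q, ?_⟩
  ext e
  rw [Finset.mem_filter, Finset.mem_singleton]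
  have hqB := (Finset.mem_product.1 (Finset.mem_filter.1 hq).1).2
  constructor
  · rintro ⟨he, hve⟩
    rw [d1c_cross h, Finset.mem_image] at he
    obtain ⟨p, hp, rfl⟩ := he
    rw [d1c_f, Sym2.mem_iff] at hve
    rcases hve with h1 | h1
    · have := (Finset.mem_product.1 (Finset.mem_filter.1 hp).1).1
      exact absurd hqB ((Finset.disjoint_left.1 h.disj) (h1 ▸ this))
    · have h9 : p = q := Prod.ext ((hall p hp).trans (hall q hq).symm) h1.symm
      rw [h9]
  · rintro rfl
    refine ⟨?_, ?_⟩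
    · rw [d1c_cross h]
      exact Finset.mem_image_of_mem _ hq
    · rw [d1c_f, Sym2.mem_iff]
      right; rfl

/-- in the star case only `x` can be missing at the centre -/
theorem d1c_star (h : D1Env E k A0 B0 x) {a : V} (ha : a ∈ A0)
    (hall : ∀ p ∈ d1c_P E A0 B0, p.1 = a) :
    mis E A0 x a = if s(x, a) ∈ E then 0 else 1 := by
  have hxa : x ≠ a := fun e => h.hxA (e ▸ ha)
  have h1 : (insert x A0).filter (fun v => v ≠ a ∧ s(a, v) ∉ E) =
      if s(x, a) ∈ E then ∅ else {x} := by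
    ext v
    rw [Finset.mem_filter]
    constructor
    · rintro ⟨hv, hva, hav⟩
      rcases Finset.mem_insert.1 hv with h2 | h2
      · subst h2
        rw [Sym2.eq_swap] at hav
        rw [if_neg hav]
        exact Finset.mem_singleton_self _
      · exfalso
        have h3 := h.clean h2 (d1c_degA0 h hall h2 hva) a (Finset.mem_insert_of_mem ha) hva.symm
        rw [Sym2.eq_swap] at h3
        exact hav h3
    · intro hv
      split_ifs at hv with h2
      · simp at hv
      · rw [Finset.mem_singleton] at hv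
        subst hv
        refine ⟨Finset.mem_insert_self _ _, hxa, ?_⟩
        rw [Sym2.eq_swap]; exact h2
  rw [mis, h1]
  split_ifs <;> simp

theorem d1c_centre (h : D1Env E k A0 B0 x) {a : V} (hall : ∀ p ∈ d1c_P E A0 B0, p.1 = a)
    (hne : (d1c_P E A0 B0).Nonempty) : a ∈ A0 := by
  obtain ⟨p, hp⟩ := hne
  have := (Finset.mem_product.1 (Finset.mem_filter.1 hp).1).1
  rw [hall p hp] at this
  exact this

/-- star case, `f = 4` -/
theorem d1c_star4 (h : D1Env E k A0 B0 x)
    (hf : (crs E (insert x A0) (insert x B0)).card = 4) {a : V}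
    (hall : ∀ p ∈ d1c_P E A0 B0, p.1 = a) : D1Goal E A0 B0 x := by
  have hc := d1c_cardP h
  have hne : (d1c_P E A0 B0).Nonempty := by
    rw [← Finset.card_pos]; omega
  have ha := d1c_centre h hall hne
  have h1 := h.mis_le ha
  rw [d1c_dega h hall, hf, d1c_star h ha hall] at h1
  have hxa : s(x, a) ∈ E := by
    by_contra h2
    rw [if_neg h2] at h1
    have := h1.2.2 (by decide)
    revert this
    decide
  have hQ := d1c_cardQ (d1c_P E A0 B0) (by omega)
  by_cases h7 : (inn E (insert x A0)).card % 6 = 1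
  · obtain ⟨p, hp⟩ := hne
    obtain ⟨hp1, hp2⟩ := Finset.mem_filter.1 hp
    have hp3 := Finset.mem_product.1 hp1
    have hpa := hall p hp
    obtain ⟨D1, hD1⟩ := d1c_step h
      (d1c_start (E := E) (A0 := A0) (B0 := B0) (x := x) (d1c_Q (d1c_P E A0 B0))) (by omega) hQ
      hp3.1 hp3.2 hp2 (by simp) (d1c_Q1 hp) (d1c_Q2 hp) 1 (by norm_num) (by norm_num)
      (fun _ => ⟨by rw [hpa]; exact hxa, by simp⟩) (by norm_num) {p.1} (by simp) (by simp)
      (by norm_num)
    have hcard := Finset.card_erase_add_one hp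
    obtain ⟨D, hD⟩ := d1c_many h hQ hD1 ((d1c_P E A0 B0).erase p)
      ((Finset.erase_subset _ _).trans (Finset.filter_subset _ _))
      (by
        intro r hr
        obtain ⟨hr3, hr4⟩ := Finset.mem_erase.1 hr
        obtain ⟨hr5, hr6⟩ := Finset.mem_filter.1 hr4
        refine ⟨hr6, ?_, d1c_Q1 hr4, d1c_Q2 hr4⟩
        intro hmem
        simp only [Finset.mem_insert, Finset.notMem_empty, or_false] at hmem
        exact hr3 (d1c_inj h hr5 hp1 hmem))
      (by omega) 0 (by omega)
    have hset : (insert s(p.1, p.2) (∅ : Finset (Sym2 V))) ∪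
        ((d1c_P E A0 B0).erase p).image d1c_f = crs E (insert x A0) (insert x B0) := by
      rw [d1c_cross h]
      conv_rhs => rw [← Finset.insert_erase hp]
      rw [Finset.image_insert]
      ext e
      simp only [Finset.mem_union, Finset.mem_insert, d1c_f, Finset.notMem_empty, or_false]
    rw [hset] at hD
    apply d1c_fin hD (by omega)
    rw [h7]
    have : ((d1c_P E A0 B0).erase p).card = 3 := by omega
    rw [this]
  · have h8 := Nat.mod_lt (inn E (insert x A0)).card (show 0 < 6 by norm_num)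
    by_cases h9 : (inn E (insert x A0)).card % 6 = 0
    · apply d1c_all h 4 (by omega)
      rw [hf, h9]
    · apply d1c_all h ((inn E (insert x A0)).card % 6 - 2) (by omega)
      rw [hf]
      omega

/-- star case, `f = 3` -/
theorem d1c_star3 (h : D1Env E k A0 B0 x)
    (hf : (crs E (insert x A0) (insert x B0)).card = 3) {a : V}
    (hall : ∀ p ∈ d1c_P E A0 B0, p.1 = a) : D1Goal E A0 B0 x := by
  have hc := d1c_cardP h
  have hne : (d1c_P E A0 B0).Nonempty := by
    rw [← Finset.card_pos]; omega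
  have ha := d1c_centre h hall hne
  have h1 := h.mis_le ha
  rw [d1c_dega h hall, hf] at h1
  have hmis := d1c_star h ha hall
  rw [hmis] at h1
  have hxa : s(x, a) ∉ E := by
    intro h2
    rw [if_pos h2] at h1
    have := h1.2.1 (by decide)
    revert this
    decide
  rw [if_neg hxa] at hmis
  have hQ := d1c_cardQ (d1c_P E A0 B0) (by omega)
  -- the other vertices of `A0` are clean
  have hA1 : ∀ v ∈ A0, v ≠ a → mis E A0 x v = 0 := by
    intro v hv hva
    have h2 := (h.mis_le hv).1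
    rw [d1c_degA0 h hall hv hva] at h2
    omega
  have hsumA : ∑ v ∈ A0, mis E A0 x v = 1 := by
    rw [← hmis]
    apply Finset.sum_eq_single_of_mem a ha
    intro v hv hva
    exact hA1 v hv hva
  have hhA : (A0.filter (fun v => s(x, v) ∉ E)) = {a} := by
    ext v
    rw [Finset.mem_filter, Finset.mem_singleton]
    constructor
    · rintro ⟨hv, hxv⟩
      by_contra hva
      have h3 := h.clean hv (d1c_degA0 h hall hv hva) x (Finset.mem_insert_self _ _)
        (fun e => h.hxA (e ▸ hv))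
      rw [Sym2.eq_swap] at h3
      exact hxv h3
    · rintro rfl
      exact ⟨ha, hxa⟩
  have hcA := h.count
  rw [hsumA, hhA, Finset.card_singleton] at hcA
  -- side `B`
  have hB := h.swap
  have hBs : (d1c_P E A0 B0).image Prod.snd ⊆ B0 := by
    intro v hv
    obtain ⟨p, hp, rfl⟩ := Finset.mem_image.1 hv
    exact (Finset.mem_product.1 (Finset.mem_filter.1 hp).1).2
  have hinjs : Set.InjOn (Prod.snd : V × V → V) (d1c_P E A0 B0 : Set (V × V)) := by
    intro p hp q hq hpq
    exact Prod.ext ((hall p (Finset.mem_coe.1 hp)).trans (hall q (Finset.mem_coe.1 hq)).symm) hpq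
  have hBscard : ((d1c_P E A0 B0).image Prod.snd).card = 3 := by
    rw [Finset.card_image_of_injOn hinjs, hc, hf]
  have hB0 : ∀ v ∈ B0, v ∉ (d1c_P E A0 B0).image Prod.snd → mis E B0 x v = 0 := by
    intro v hv hvn
    have h2 := (hB.mis_le hv).1
    rw [d1c_crs_comm, d1c_degb0 h hv hvn] at h2
    omega
  have hB1 : ∀ v ∈ (d1c_P E A0 B0).image Prod.snd, mis E B0 x v = 1 := by
    intro v hv
    have h2 := hB.mis_le (hBs hv)
    rw [d1c_crs_comm, d1c_degb1 h hall hv] at h2
    have h3 : ¬ Even (mis E B0 x v) := fun h4 => by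
      have := h2.2.1 h4
      revert this
      decide
    rcases Nat.lt_or_ge (mis E B0 x v) 1 with h4 | h4
    · exfalso
      apply h3
      have : mis E B0 x v = 0 := by omega
      rw [this]; exact Even.zero
    · omega
  have hsumB : ∑ v ∈ B0, mis E B0 x v = 3 := by
    rw [← Finset.sum_subset hBs hB0, Finset.sum_congr rfl hB1]
    simp [hBscard]
  have hcB := hB.count
  rw [hsumB] at hcB
  have htot := h.total
  rw [hf] at htot
  obtain ⟨e6, he6⟩ := h.six
  -- non-neighbours of `x` in `B0`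
  have hNB : (B0.filter (fun v => s(x, v) ∉ E)) ⊆ (d1c_P E A0 B0).image Prod.snd := by
    intro v hv
    obtain ⟨hv1, hv2⟩ := Finset.mem_filter.1 hv
    by_contra hvn
    have h3 := hB.clean hv1 (by rw [d1c_crs_comm]; exact d1c_degb0 h hv1 hvn) x
      (Finset.mem_insert_self _ _) (fun e => h.hxB (e ▸ hv1))
    rw [Sym2.eq_swap] at h3
    exact hv2 h3
  have hNBc : (B0.filter (fun v => s(x, v) ∉ E)).card ≤ 3 := by
    rw [← hBscard]; exact Finset.card_le_card hNB
  have hhB : (B0.filter (fun v => s(x, v) ∉ E)).card = 1 := by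
    have e1 : 2 * k * (2 * k + 1) = 2 * (k * (2 * k + 1)) := by ring
    rw [e1] at hcA hcB
    generalize k * (2 * k + 1) = K at hcA hcB
    omega
  -- two neighbours of `x`
  have hadj : 2 ≤ (((d1c_P E A0 B0)).filter (fun p => s(x, p.2) ∈ E)).card := by
    have h5 : (((d1c_P E A0 B0)).filter (fun p => ¬ s(x, p.2) ∈ E)).card ≤
        (B0.filter (fun v => s(x, v) ∉ E)).card := by
      apply Finset.card_le_card_of_injOn Prod.snd
      · intro p hp
        obtain ⟨hp1, hp2⟩ := Finset.mem_filter.1 (Finset.mem_coe.1 hp)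
        exact Finset.mem_coe.2 (Finset.mem_filter.2
          ⟨(Finset.mem_product.1 (Finset.mem_filter.1 hp1).1).2, hp2⟩)
      · exact hinjs.mono (Finset.coe_subset.2 (Finset.filter_subset _ _))
    have h6 := Finset.card_filter_add_card_filter_not (s := d1c_P E A0 B0)
      (fun p => s(x, p.2) ∈ E)
    omega
  obtain ⟨p, hp, q, hq, hpq⟩ := Finset.one_lt_card.1 hadj
  obtain ⟨hp, hxp⟩ := Finset.mem_filter.1 hp
  obtain ⟨hq, hxq⟩ := Finset.mem_filter.1 hq
  obtain ⟨hp1, hp2⟩ := Finset.mem_filter.1 hp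
  obtain ⟨hq1, hq2⟩ := Finset.mem_filter.1 hq
  have hp3 := Finset.mem_product.1 hp1
  have hq3 := Finset.mem_product.1 hq1
  have hpq2 : p.2 ≠ q.2 := fun e => hpq (hinjs (Finset.mem_coe.2 hp) (Finset.mem_coe.2 hq) e)
  have h8 := Nat.mod_lt (inn E (insert x A0)).card (show 0 < 6 by norm_num)
  have hcard1 := Finset.card_erase_add_one hp
  by_cases h9 : (inn E (insert x A0)).card % 6 ≤ 3
  · apply d1c_all h ((inn E (insert x A0)).card % 6) (by omega)
    rw [hf]
    omega
  · obtain ⟨D1, hD1⟩ := d1c_step h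
      (d1c_start (E := E) (A0 := A0) (B0 := B0) (x := x) (d1c_Q (d1c_P E A0 B0))) (by omega) hQ
      hp3.1 hp3.2 hp2 (by simp) (d1c_Q1 hp) (d1c_Q2 hp) 4 (by norm_num) (by norm_num)
      (by norm_num) (fun _ => ⟨hxp, by simp⟩) {p.2} (by simp) (by norm_num) (by simp)
    by_cases h10 : (inn E (insert x A0)).card % 6 = 4
    · obtain ⟨D, hD⟩ := d1c_many h hQ hD1 ((d1c_P E A0 B0).erase p)
        ((Finset.erase_subset _ _).trans (Finset.filter_subset _ _))
        (by
          intro r hr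
          obtain ⟨hr3, hr4⟩ := Finset.mem_erase.1 hr
          obtain ⟨hr5, hr6⟩ := Finset.mem_filter.1 hr4
          refine ⟨hr6, ?_, d1c_Q1 hr4, d1c_Q2 hr4⟩
          intro hmem
          simp only [Finset.mem_insert, Finset.notMem_empty, or_false] at hmem
          exact hr3 (d1c_inj h hr5 hp1 hmem))
        (by omega) 2 (by omega)
      have hset : (insert s(p.1, p.2) (∅ : Finset (Sym2 V))) ∪
          ((d1c_P E A0 B0).erase p).image d1c_f = crs E (insert x A0) (insert x B0) := by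
        rw [d1c_cross h]
        conv_rhs => rw [← Finset.insert_erase hp]
        rw [Finset.image_insert]
        ext e
        simp only [Finset.mem_union, Finset.mem_insert, d1c_f, Finset.notMem_empty, or_false]
      rw [hset] at hD
      apply d1c_fin hD (by omega)
      rw [h10]
      have : ((d1c_P E A0 B0).erase p).card = 2 := by omega
      rw [this]
    · have h11 : (inn E (insert x A0)).card % 6 = 5 := by omega
      have hq4 : q ∈ (d1c_P E A0 B0).erase p := Finset.mem_erase.2 ⟨hpq.symm, hq⟩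
      have hcard2 := Finset.card_erase_add_one hq4
      obtain ⟨D2, hD2⟩ := d1c_step h hD1 (by omega) hQ
        hq3.1 hq3.2 hq2 (by
          intro hmem
          simp only [Finset.mem_insert, Finset.notMem_empty, or_false] at hmem
          exact hpq (d1c_inj h hp1 hq1 hmem.symm)) (d1c_Q1 hq) (d1c_Q2 hq) 4 (by norm_num)
        (by norm_num)
        (by norm_num) (fun _ => ⟨hxq, by simpa using hpq2.symm⟩) {p.2, q.2} (by simp)
        (by norm_num) (by simp)
      obtain ⟨D, hD⟩ := d1c_many h hQ hD2 (((d1c_P E A0 B0).erase p).erase q)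
        (((Finset.erase_subset _ _).trans (Finset.erase_subset _ _)).trans
          (Finset.filter_subset _ _))
        (by
          intro r hr
          obtain ⟨hr1, hr2⟩ := Finset.mem_erase.1 hr
          obtain ⟨hr3, hr4⟩ := Finset.mem_erase.1 hr2
          obtain ⟨hr5, hr6⟩ := Finset.mem_filter.1 hr4
          refine ⟨hr6, ?_, d1c_Q1 hr4, d1c_Q2 hr4⟩
          intro hmem
          simp only [Finset.mem_insert, Finset.notMem_empty, or_false] at hmem
          rcases hmem with hmem | hmem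
          · exact hr1 (d1c_inj h hr5 hq1 hmem)
          · exact hr3 (d1c_inj h hr5 hp1 hmem))
        (by omega) 1 (by omega)
      have hset : (insert s(q.1, q.2) (insert s(p.1, p.2) (∅ : Finset (Sym2 V)))) ∪
          (((d1c_P E A0 B0).erase p).erase q).image d1c_f =
          crs E (insert x A0) (insert x B0) := by
        rw [d1c_cross h]
        have e1 : d1c_P E A0 B0 = insert p (insert q (((d1c_P E A0 B0).erase p).erase q)) := by
          rw [Finset.insert_erase hq4, Finset.insert_erase hp]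
        conv_rhs => rw [e1]
        rw [Finset.image_insert, Finset.image_insert]
        ext e
        simp only [Finset.mem_union, Finset.mem_insert, d1c_f, Finset.notMem_empty, or_false]
        tauto
      rw [hset] at hD
      apply d1c_fin hD (by omega)
      rw [h11]
      have : (((d1c_P E A0 B0).erase p).erase q).card = 1 := by omega
      rw [this]

/-- swapping turns a star at a vertex of `B0` into a star at a vertex of `A0` -/
theorem d1c_swapP {b : V} (hall : ∀ p ∈ d1c_P E A0 B0, p.2 = b) :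
    ∀ p ∈ d1c_P E B0 A0, p.1 = b := by
  intro p hp
  obtain ⟨h1, h2⟩ := Finset.mem_filter.1 hp
  rw [Finset.mem_product] at h1
  have : (p.2, p.1) ∈ d1c_P E A0 B0 := by
    apply Finset.mem_filter.2
    refine ⟨Finset.mem_product.2 ⟨h1.2, h1.1⟩, ?_⟩
    rw [d1c_f, Sym2.eq_swap]
    exact h2
  exact hall _ this

theorem D1Env.goal_f3 (h : D1Env E k A0 B0 x)
    (hf : (crs E (insert x A0) (insert x B0)).card = 3) : D1Goal E A0 B0 x := by
  have hc := d1c_cardP h
  have h8 := Nat.mod_lt (inn E (insert x A0)).card (show 0 < 6 by norm_num)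
  rcases d1c_tri (d1c_P E A0 B0) (by omega) with ⟨p, hp, q, hq, h1, h2⟩ | ⟨a, ha⟩ | ⟨b, hb⟩
  · by_cases h9 : (inn E (insert x A0)).card % 6 ≤ 3
    · apply d1c_all h ((inn E (insert x A0)).card % 6) (by omega)
      rw [hf]
      omega
    · apply d1c_allTwo h hp hq h1 h2 ((inn E (insert x A0)).card % 6 - 4) (by omega)
      rw [hf]
      omega
  · exact d1c_star3 h hf ha
  · apply h.goal_swap
    apply d1c_star3 h.swap _ (d1c_swapP hb)
    rw [d1c_crs_comm]
    exact hf

theorem D1Env.goal_f4 (h : D1Env E k A0 B0 x)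
    (hf : (crs E (insert x A0) (insert x B0)).card = 4) : D1Goal E A0 B0 x := by
  have hc := d1c_cardP h
  have h8 := Nat.mod_lt (inn E (insert x A0)).card (show 0 < 6 by norm_num)
  rcases d1c_tri (d1c_P E A0 B0) (by omega) with ⟨p, hp, q, hq, h1, h2⟩ | ⟨a, ha⟩ | ⟨b, hb⟩
  · by_cases h7 : (inn E (insert x A0)).card % 6 = 1
    · apply d1c_allTwo h hp hq h1 h2 1 (by omega)
      rw [hf, h7]
    · by_cases h9 : (inn E (insert x A0)).card % 6 = 0
      · apply d1c_all h 4 (by omega)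
        rw [hf, h9]
      · apply d1c_all h ((inn E (insert x A0)).card % 6 - 2) (by omega)
        rw [hf]
        omega
  · exact d1c_star4 h hf ha
  · apply h.goal_swap
    apply d1c_star4 h.swap _ (d1c_swapP hb)
    rw [d1c_crs_comm]
    exact hf

end H15C6
end S_D1C

section S_D1D
/-!
Module D1D.  The exact case, conclusion.  `D0` from `goal_f0 .. goal_f4`.  `E \ D0 = E_A ⊔ E_B` with
`E_A = inn (E \ D0) AX`, `E_B = inn (E \ D0) BX` (they are disjoint, no loops, `AX ∩ BX = {x}`).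
Even degrees: clear for vertices `≠ x`; for `x` since the sum of all degrees of `E_A` is even.
`6 ∣ |E_A|`, hence `6 ∣ |E_B|`.  `nct` with `c = 1/2`, `U = AX`, `A = AX`: every vertex of `A0` has degree
`≥ 2k - 4 - 4*2 `, and `x` has degree `≥ 2k - 4 - 8` (each cycle uses at most two edges at a vertex; `x` is adjacent to all
clean vertices).
-/

open Finset

namespace H15C6

section Side

variable {V : Type} [Fintype V] [DecidableEq V] {E D0 : Finset (Sym2 V)} {k : ℕ} {A0 B0 : Finset V}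
  {x : V}

theorem d1d_crs_comm (E : Finset (Sym2 V)) (A B : Finset V) : crs E A B = crs E B A := by
  unfold crs
  ext e
  simp only [Finset.mem_sdiff]
  tauto

theorem d1d_cov (hcrs : crs E (insert x A0) (insert x B0) ⊆ D0) :
    ∀ e ∈ E \ D0, e ∈ (insert x A0).sym2 ∨ e ∈ (insert x B0).sym2 := by
  intro e he
  rw [Finset.mem_sdiff] at he
  by_contra hcon
  rw [not_or] at hcon
  apply he.2
  apply hcrs
  unfold crs
  rw [Finset.mem_sdiff, Finset.mem_sdiff]
  exact ⟨⟨he.1, hcon.1⟩, hcon.2⟩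

theorem d1d_mem_BX (h : D1Env E k A0 B0 x) {a : V} (ha : a ∈ A0) : a ∉ insert x B0 := by
  rw [Finset.mem_insert, not_or]
  refine ⟨fun hax => h.hxA (hax ▸ ha), fun hab => ?_⟩
  exact (Finset.disjoint_left.1 h.disj) ha hab

/-- all edges at a vertex of `A0` are inside `AX` -/
theorem d1d_deg_A (h : D1Env E k A0 B0 x) (hcrs : crs E (insert x A0) (insert x B0) ⊆ D0) {a : V}
    (ha : a ∈ A0) : deg (inn (E \ D0) (insert x A0)) a = deg (E \ D0) a := by
  unfold deg inn
  congr 1
  ext e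
  rw [Finset.mem_filter, Finset.mem_filter, Finset.mem_inter]
  constructor
  · rintro ⟨⟨h1, _⟩, h2⟩
    exact ⟨h1, h2⟩
  · rintro ⟨h1, h2⟩
    refine ⟨⟨h1, ?_⟩, h2⟩
    rcases d1d_cov hcrs e h1 with h3 | h3
    · exact h3
    · exfalso
      rw [Finset.mem_sym2_iff] at h3
      exact d1d_mem_BX h ha (h3 a h2)

theorem d1d_deg_out {F : Finset (Sym2 V)} {A : Finset V} {v : V} (hv : v ∉ A) :
    deg (inn F A) v = 0 := by
  unfold deg inn
  rw [Finset.card_eq_zero, Finset.filter_eq_empty_iff]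
  intro e he hve
  rw [Finset.mem_inter, Finset.mem_sym2_iff] at he
  exact hv (he.2 v hve)

theorem d1d_inn_subset (F : Finset (Sym2 V)) (A : Finset V) : inn F A ⊆ F := Finset.inter_subset_left

theorem d1d_inn_sym2 (F : Finset (Sym2 V)) (A : Finset V) : inn F A ⊆ A.sym2 := Finset.inter_subset_right

theorem d1d_even (h : D1Env E k A0 B0 x) (hsub : D0 ⊆ E) (hev : EvenDeg D0)
    (hcrs : crs E (insert x A0) (insert x B0) ⊆ D0) :
    EvenDeg (inn (E \ D0) (insert x A0)) := by
  have hE' : EvenDeg (E \ D0) := h.even.sdiff hev hsub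
  have hl : Loopless (inn (E \ D0) (insert x A0)) :=
    h.loopless.mono ((d1d_inn_subset _ _).trans Finset.sdiff_subset)
  have hA : ∀ a ∈ A0, Even (deg (inn (E \ D0) (insert x A0)) a) := by
    intro a ha
    rw [d1d_deg_A h hcrs ha]
    exact hE' a
  intro v
  by_cases hv : v ∈ insert x A0
  · rw [Finset.mem_insert] at hv
    rcases hv with rfl | hv
    · have hs := sum_deg (d1d_inn_sym2 (E \ D0) (insert v A0)) hl
      rw [Finset.sum_insert h.hxA] at hs
      have h1 : Even (∑ a ∈ A0, deg (inn (E \ D0) (insert v A0)) a) :=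
        Finset.even_sum _ (fun a ha => hA a ha)
      have h2 : Even (deg (inn (E \ D0) (insert v A0)) v +
          ∑ a ∈ A0, deg (inn (E \ D0) (insert v A0)) a) := by
        rw [hs]
        exact even_two_mul _
      exact (Nat.even_add.1 h2).2 h1
    · exact hA v hv
  · rw [d1d_deg_out hv]
    exact Even.zero

theorem d1d_deg_le_card (F : Finset (Sym2 V)) (v : V) : deg F v ≤ F.card :=
  Finset.card_filter_le _ _

/-- at most eight vertices of `A0` are not clean -/
theorem d1d_nonclean (h : D1Env E k A0 B0 x) :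
    (A0.filter (fun a => deg (crs E (insert x A0) (insert x B0)) a ≠ 0)).card ≤ 8 := by
  have hl : Loopless (crs E (insert x A0) (insert x B0)) :=
    h.loopless.mono (Finset.sdiff_subset.trans Finset.sdiff_subset)
  have hs := sum_deg (E := crs E (insert x A0) (insert x B0)) (U := Finset.univ)
    (by rw [Finset.sym2_univ]; exact Finset.subset_univ _) hl
  have hf := h.few
  have h1 : (A0.filter (fun a => deg (crs E (insert x A0) (insert x B0)) a ≠ 0)).card ≤
      ∑ v, deg (crs E (insert x A0) (insert x B0)) v := by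
    rw [Finset.card_eq_sum_ones]
    refine (Finset.sum_le_sum (g := fun v => deg (crs E (insert x A0) (insert x B0)) v) ?_).trans
      (Finset.sum_le_sum_of_subset (Finset.subset_univ _))
    intro a ha
    rw [Finset.mem_filter] at ha
    exact Nat.one_le_iff_ne_zero.2 ha.2
  omega

theorem d1d_deg_low (h : D1Env E k A0 B0 x) (hsub : D0 ⊆ E)
    (hcrs : crs E (insert x A0) (insert x B0) ⊆ D0) (hcard : D0.card ≤ 24) :
    ∀ v ∈ insert x A0, 2 * k ≤ deg (inn (E \ D0) (insert x A0)) v + 32 := by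
  intro v hv
  rw [Finset.mem_insert] at hv
  rcases hv with rfl | hv
  · have h1 : A0.card ≤ dg E A0 v + 8 := by
      have h2 := d1d_nonclean h
      have h3 : A0.card ≤ (A0.filter (fun y => s(v, y) ∈ E)).card +
          (A0.filter (fun a => deg (crs E (insert v A0) (insert v B0)) a ≠ 0)).card := by
        refine le_trans (Finset.card_le_card ?_) (Finset.card_union_le _ _)
        intro a ha
        rw [Finset.mem_union, Finset.mem_filter, Finset.mem_filter]
        by_cases hc : deg (crs E (insert v A0) (insert v B0)) a = 0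
        · left
          refine ⟨ha, ?_⟩
          have h4 := h.clean ha hc v (Finset.mem_insert_self _ _) (fun hva => h.hxA (hva ▸ ha))
          rw [Sym2.eq_swap]
          exact h4
        · right
          exact ⟨ha, hc⟩
      unfold dg
      omega
    have h2 : dg E A0 v ≤ deg (inn E (insert v A0)) v := by
      have h3 : dg E A0 v ≤ dg (inn E (insert v A0)) A0 v := by
        unfold dg
        apply Finset.card_le_card
        intro y hy
        rw [Finset.mem_filter] at hy ⊢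
        refine ⟨hy.1, ?_⟩
        unfold inn
        rw [Finset.mem_inter, Finset.mk_mem_sym2_iff]
        exact ⟨hy.2, Finset.mem_insert_self _ _, Finset.mem_insert_of_mem hy.1⟩
      exact h3.trans (dg_le_deg _ _ _)
    have h3 : deg (inn E (insert v A0)) v ≤ deg (inn (E \ D0) (insert v A0)) v + deg D0 v := by
      refine le_trans (deg_mono ?_ v) (deg_union_le _ _ v)
      intro e he
      unfold inn at he ⊢
      rw [Finset.mem_inter] at he
      rw [Finset.mem_union, Finset.mem_inter, Finset.mem_sdiff]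
      by_cases hD : e ∈ D0
      · right; exact hD
      · left; exact ⟨⟨he.1, hD⟩, he.2⟩
    have h4 := d1d_deg_le_card D0 v
    have h5 := h.cardA
    omega
  · rw [d1d_deg_A h hcrs hv]
    have h1 := deg_sdiff hsub v
    have h2 := h.mindeg v
    have h3 := d1d_deg_le_card D0 v
    omega

end Side

theorem d1d_side : ∃ k0 : ℕ, ∀ (V : Type) [Fintype V] [DecidableEq V] (E D0 : Finset (Sym2 V)) (k : ℕ)
    (A0 B0 : Finset V) (x : V), k0 ≤ k → D1Env E k A0 B0 x → D0 ⊆ E → EvenDeg D0 →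
    crs E (insert x A0) (insert x B0) ⊆ D0 → D0.card ≤ 24 →
    6 ∣ (inn (E \ D0) (insert x A0)).card → Dec (inn (E \ D0) (insert x A0)) := by
  obtain ⟨ε, hε, n0, hnct⟩ := nct (1 / 2) (by norm_num)
  obtain ⟨m, hm⟩ := exists_nat_ge (33 / ε)
  refine ⟨max (max n0 m) 40, ?_⟩
  intro V _ _ E D0 k A0 B0 x hk h hsub hev hcrs hcard h6
  have hk1 : n0 ≤ k := (le_max_left _ _).trans ((le_max_left _ _).trans hk)
  have hk2 : m ≤ k := (le_max_right _ _).trans ((le_max_left _ _).trans hk)
  have hk3 : 40 ≤ k := (le_max_right _ _).trans hk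
  have hU : (insert x A0).card = 2 * k + 1 := by
    rw [Finset.card_insert_of_notMem h.hxA, h.cardA]
  have hUr : ((insert x A0).card : ℝ) = 2 * (k : ℝ) + 1 := by
    rw [hU]; push_cast; ring
  have hlow : ∀ v ∈ insert x A0, 2 * (k : ℝ) ≤ (deg (inn (E \ D0) (insert x A0)) v : ℝ) + 32 := by
    intro v hv
    exact_mod_cast d1d_deg_low h hsub hcrs hcard v hv
  have hkr : (33 : ℝ) ≤ ε * k := by
    have h1 : (33 : ℝ) / ε ≤ k := hm.trans (by exact_mod_cast hk2)
    rw [div_le_iff₀ hε] at h1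
    linarith
  have hk3r : (40 : ℝ) ≤ k := by exact_mod_cast hk3
  refine hnct V (insert x A0) (insert x A0) (inn (E \ D0) (insert x A0)) (by omega)
    (Finset.Subset.refl _) (d1d_inn_sym2 _ _)
    (h.loopless.mono ((d1d_inn_subset _ _).trans Finset.sdiff_subset))
    (d1d_even h hsub hev hcrs) h6 ?_ ?_ ?_
  · rw [Finset.sdiff_self, Finset.card_empty, Nat.cast_zero]
    positivity
  · intro a ha
    have h1 := hlow a ha
    rw [hUr]
    have h2 : 0 ≤ ε * k := by positivity
    nlinarith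
  · intro a ha
    have h1 := hlow a ha
    rw [hUr]
    linarith

theorem d1_dec : ∃ k0 : ℕ, ∀ (V : Type) [Fintype V] [DecidableEq V] (E : Finset (Sym2 V)) (k : ℕ)
    (A0 B0 : Finset V) (x : V), k0 ≤ k → D1Env E k A0 B0 x →
    ((4 * k + 1) % 24 ≠ 5 ∧ (4 * k + 1) % 24 ≠ 13) → Dec E := by
  obtain ⟨k0, hside⟩ := d1d_side
  refine ⟨k0, ?_⟩
  intro V _ _ E k A0 B0 x hk h hmod
  have hgoal : D1Goal E A0 B0 x := by
    have hf := h.few
    have hcases : (crs E (insert x A0) (insert x B0)).card = 0 ∨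
        (crs E (insert x A0) (insert x B0)).card = 1 ∨
        (crs E (insert x A0) (insert x B0)).card = 2 ∨
        (crs E (insert x A0) (insert x B0)).card = 3 ∨
        (crs E (insert x A0) (insert x B0)).card = 4 := by omega
    rcases hcases with h0 | h1 | h2 | h3 | h4
    · exact h.goal_f0 h0 hmod
    · exact (h.goal_f1 h1).elim
    · exact h.goal_f2 h2
    · exact h.goal_f3 h3
    · exact h.goal_f4 h4
  obtain ⟨D0, hsub, hdec, hcrs, hcard, h6⟩ := hgoal
  have hcrs' : crs E (insert x B0) (insert x A0) ⊆ D0 := by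
    rw [d1d_crs_comm]; exact hcrs
  have hl : Loopless (E \ D0) := h.loopless.mono Finset.sdiff_subset
  have hdisj : Disjoint (inn (E \ D0) (insert x A0)) (inn (E \ D0) (insert x B0)) := by
    rw [Finset.disjoint_left]
    intro e ha hb
    unfold inn at ha hb
    rw [Finset.mem_inter] at ha hb
    have hone : ∀ v, v ∈ insert x A0 → v ∈ insert x B0 → v = x := by
      intro v h1 h2
      rw [Finset.mem_insert] at h1
      rcases h1 with h1 | h1
      · exact h1
      · exact absurd h2 (d1d_mem_BX h h1)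
    obtain ⟨he, hA⟩ := ha
    obtain ⟨_, hB⟩ := hb
    induction e using Sym2.ind with
    | _ p q =>
      rw [Finset.mk_mem_sym2_iff] at hA hB
      exact hl.ne he ((hone p hA.1 hB.1).trans (hone q hA.2 hB.2).symm)
  have hunion : inn (E \ D0) (insert x A0) ∪ inn (E \ D0) (insert x B0) = E \ D0 := by
    apply Finset.Subset.antisymm
    · exact Finset.union_subset (d1d_inn_subset _ _) (d1d_inn_subset _ _)
    · intro e he
      rw [Finset.mem_union]
      unfold inn
      rcases d1d_cov hcrs e he with h1 | h1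
      · left; exact Finset.mem_inter.2 ⟨he, h1⟩
      · right; exact Finset.mem_inter.2 ⟨he, h1⟩
  have hcardE : (E \ D0).card + D0.card = E.card := Finset.card_sdiff_add_card_eq_card hsub
  have hcardU := Finset.card_union_of_disjoint hdisj
  rw [hunion] at hcardU
  have h6E := h.six
  have h6D := hdec.six_dvd
  have h6B : 6 ∣ (inn (E \ D0) (insert x B0)).card := by omega
  have hA := hside V E D0 k A0 B0 x hk h hsub hdec.even hcrs hcard h6
  have hB := hside V E D0 k B0 A0 x hk h.swap hsub hdec.even hcrs' hcard h6B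
  have hAB := hA.union hB hdisj
  rw [hunion] at hAB
  have hfin := hAB.union hdec Finset.sdiff_disjoint
  rw [Finset.sdiff_union_of_subset hsub] at hfin
  exact hfin

end H15C6
end S_D1D

section S_E1D
/-!
Module E1D.  Extremal case 1, assembly.  `n = |V|`, `α = |A0|`, `β = |B0|`, `ξ = |X|`, `f = |crs E (A0 ∪ X) (B0 ∪ X)|` (the
number of edges between `A0` and `B0`).  `τ2 := 1/20`, `τ1 := 1/60`; `ε` smaller than all the constants of `fin1`, `sw_*` for
`τ1, τ2`.  `A', B'` from `Ext1`.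

(a) `prep1` with `τ2` gives `A0, B0, X`.  If `X = ∅`: `α + β = n`; if `2α ≤ n` every `a ∈ A0` has
  `deg a ≥ (n-1)/2 > α - 1`, so a neighbour in `B0`: `sw_T1`, `fin1`; if `2β ≤ n`: `sw_T1'`, `fin1`.
(b) Otherwise some `x` has `dg E A' x, dg E B' x > τ2 n = 3 τ1 n`.  Now `prep1` with `τ1`; `x ∈ X`.
  If `2(α+ξ) ≤ n`: every `a ∈ A0` has at most `α + ξ - 1 < deg a` neighbours in `A0 ∪ X`: `sw_T1`, `fin1`.
  If `2(β+ξ) ≤ n`: `sw_T1'`, `fin1`.  Otherwise `2(α+ξ) ≥ n+1`, `2(β+ξ) ≥ n+1`.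
  If `f ≥ 5`: `sw_T2`, `fin1`.  Let `f ≤ 4`.
  `ξ ≥ 3`: take three vertices of `X`; their neighbourhoods in `A' ∪ B'` have total size
  `≥ 3((n-1)/2 - 2εn)`, so two of them have at least `(1/2 - 7ε)n/3` common neighbours in `A' ∪ B'`, hence at
  least `τ1 n` in `A'` or in `B'`: `sw_T3` and `fin1` for `Env1` or for `Env1.swap`.
  `ξ = 2`, `X = {x,x'}`: `α + β = n - 2`; by symmetry (swap) `α ≤ β`, so `2α ≤ n - 2`.  A vertex `a ∈ A0` without neighbour in
  `B0` has `(n-1)/2 ≤ deg a ≤ α - 1 + #(N(a) ∩ X)`, so it is adjacent to `x` and `x'`.  All but 4 vertices of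
  `A0` are so: `cn E A' x x' ≥ |A'| - 4`: `sw_T3`, `fin1`.
  `ξ = 1`: `2α ≥ n - 1`, `2β ≥ n - 1`, `α + β = n - 1`, so `α = β = (n-1)/2 =: m`.  A vertex `a ∈ A0` without neighbour in
  `B0` has `deg a ≤ m` and `2 deg a + 1 ≥ n`, so `deg a = m` is even: `m = 2k`, `n = 4k+1`; `D1Env`; the
  alternative `∀ v, n ≤ 2 deg v` fails at `a`, so `n % 24 ≠ 5, 13`: `d1_dec`.
-/

open Finset

namespace H15C6

theorem e1d_env_mono {V : Type} [Fintype V] [DecidableEq V] {E : Finset (Sym2 V)} {ε ε' τ : ℝ}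
    {A0 B0 X A' B' : Finset V} (h : Env1 E ε τ A0 B0 X A' B') (he : ε ≤ ε') :
    Env1 E ε' τ A0 B0 X A' B' := by
  have hn : (0 : ℝ) ≤ nV V := Nat.cast_nonneg _
  have h1 : ε * nV V ≤ ε' * nV V := mul_le_mul_of_nonneg_right he hn
  have h2 : (1 / 2 - ε') * nV V ≤ (1 / 2 - ε) * nV V := by nlinarith
  exact ⟨h.dAB, h.dAX, h.dBX, h.cover, h.subA, h.subB, h2.trans h.sizeA, h2.trans h.sizeB,
    fun a ha => (h.nA a ha).trans h1, fun a ha => (h.nA' a ha).trans h1,
    fun a ha => (h.nB a ha).trans h1, fun a ha => (h.nB' a ha).trans h1,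
    h.tA, h.tB, h.mX, h.mindeg⟩

theorem e1d_dg_lt {V : Type} [DecidableEq V] {E : Finset (Sym2 V)} (hl : Loopless E)
    {S : Finset V} {a : V} (ha : a ∈ S) : dg E S a + 1 ≤ S.card := by
  have h1 : (S.filter (fun y => s(a, y) ∈ E)) ⊆ S.erase a := by
    intro y hy
    rw [mem_filter] at hy
    rw [mem_erase]
    exact ⟨(hl.ne hy.2).symm, hy.1⟩
  have h2 := card_le_card h1
  rw [card_erase_of_mem ha] at h2
  have h3 : 0 < S.card := card_pos.2 ⟨a, ha⟩
  unfold dg
  omega

theorem e1d_deg_le {V : Type} [Fintype V] [DecidableEq V] {E : Finset (Sym2 V)} {S : Finset V}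
    {a : V} (h : ∀ y, s(a, y) ∈ E → y ∈ S) : deg E a ≤ dg E S a := by
  have h0 : E ⊆ (univ : Finset V).sym2 := by
    intro e _
    rw [Finset.mem_sym2_iff]
    intro x _
    exact mem_univ x
  rw [deg_eq_dg h0]
  unfold dg
  apply card_le_card
  intro y hy
  rw [mem_filter] at hy ⊢
  exact ⟨h y hy.2, hy.2⟩

theorem e1d_dg_union {V : Type} [DecidableEq V] (E : Finset (Sym2 V)) (S T : Finset V) (a : V) :
    dg E (S ∪ T) a ≤ dg E S a + dg E T a := by
  unfold dg
  rw [filter_union]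
  exact card_union_le _ _

/-- a vertex of `A0` without neighbour in `B0` -/
theorem e1d_noB {V : Type} [Fintype V] [DecidableEq V] {E : Finset (Sym2 V)} {ε τ : ℝ}
    {A0 B0 X A' B' : Finset V} (h : Env1 E ε τ A0 B0 X A' B') {a : V}
    (hno : ¬ ∃ b ∈ B0, s(a, b) ∈ E) : ∀ y, s(a, y) ∈ E → y ∈ A0 ∪ X := by
  intro y hy
  have h1 : y ∈ A0 ∪ B0 ∪ X := by rw [h.cover]; exact mem_univ y
  simp only [mem_union] at h1 ⊢
  rcases h1 with (h1 | h1) | h1
  · exact Or.inl h1
  · exact absurd ⟨y, h1, hy⟩ hno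
  · exact Or.inr h1

theorem e1d_small {V : Type} [Fintype V] [DecidableEq V] {E : Finset (Sym2 V)} {ε τ : ℝ}
    {A0 B0 X A' B' : Finset V} (hl : Loopless E) (h : Env1 E ε τ A0 B0 X A' B')
    (hs : 2 * (A0.card + X.card) ≤ Fintype.card V) : ∀ a ∈ A0, ∃ b ∈ B0, s(a, b) ∈ E := by
  intro a ha
  by_contra hno
  have h1 := e1d_deg_le (e1d_noB h hno)
  have h2 := e1d_dg_lt hl (S := A0 ∪ X) (mem_union_left X ha)
  have h3 := card_union_le A0 X
  have h4 := h.mindeg a
  omega

theorem e1d_card {V : Type} [Fintype V] [DecidableEq V] {E : Finset (Sym2 V)} {ε τ : ℝ}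
    {A0 B0 X A' B' : Finset V} (h : Env1 E ε τ A0 B0 X A' B') :
    A0.card + B0.card + X.card = Fintype.card V := by
  have h1 : Disjoint (A0 ∪ B0) X := by
    rw [disjoint_union_left]
    exact ⟨h.dAX, h.dBX⟩
  rw [← card_union_of_disjoint h.dAB, ← card_union_of_disjoint h1, h.cover, card_univ]

/-- vertices of `A0` with a neighbour in `B0` -/
theorem e1d_few {V : Type} [Fintype V] [DecidableEq V] {E : Finset (Sym2 V)} {ε τ : ℝ}
    {A0 B0 X A' B' : Finset V} (h : Env1 E ε τ A0 B0 X A' B') :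
    (A0.filter (fun a => ∃ b ∈ B0, s(a, b) ∈ E)).card ≤ (crs E (A0 ∪ X) (B0 ∪ X)).card := by
  have hch : ∀ a : V, ∃ b : V, (∃ b ∈ B0, s(a, b) ∈ E) → b ∈ B0 ∧ s(a, b) ∈ E := by
    intro a
    by_cases ha : ∃ b ∈ B0, s(a, b) ∈ E
    · obtain ⟨b, hb⟩ := ha
      exact ⟨b, fun _ => hb⟩
    · exact ⟨a, fun h' => absurd h' ha⟩
  choose g hg using hch
  apply card_le_card_of_injOn (fun a => s(a, g a))
  · intro a ha
    have ha' := mem_filter.1 (mem_coe.1 ha)
    have hg' := hg a ha'.2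
    refine mem_coe.2 ?_
    unfold crs
    rw [mem_sdiff, mem_sdiff]
    refine ⟨⟨hg'.2, ?_⟩, ?_⟩
    · rw [mk_mem_sym2_iff]
      rintro ⟨_, h2⟩
      rcases mem_union.1 h2 with h2 | h2
      · exact disjoint_left.1 h.dAB h2 hg'.1
      · exact disjoint_left.1 h.dBX hg'.1 h2
    · rw [mk_mem_sym2_iff]
      rintro ⟨h2, _⟩
      rcases mem_union.1 h2 with h2 | h2
      · exact disjoint_left.1 h.dAB ha'.1 h2
      · exact disjoint_left.1 h.dAX ha'.1 h2
  · intro a ha a' ha' hEq
    have h1 := mem_filter.1 (mem_coe.1 ha)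
    have h2 := mem_filter.1 (mem_coe.1 ha')
    have hEq' : s(a, g a) = s(a', g a') := hEq
    rw [Sym2.eq_iff] at hEq'
    rcases hEq' with h3 | h3
    · exact h3.1
    · exfalso
      have h4 := (hg a' h2.2).1
      rw [← h3.1] at h4
      exact disjoint_left.1 h.dAB h1.1 h4

theorem e1d_crs_comm {V : Type} [DecidableEq V] (E : Finset (Sym2 V)) (A B : Finset V) :
    crs E A B = crs E B A := by
  unfold crs
  rw [sdiff_sdiff_comm]

/-- everything which follows from `fin1` and the switches, for one `τ` -/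
theorem e1d_all (τ : ℝ) (hτ : 0 < τ) (hτ' : τ ≤ 1 / 20) :
    ∃ ε : ℝ, 0 < ε ∧ ∃ n0 : ℕ, ∀ (V : Type) [Fintype V] [DecidableEq V]
      (E : Finset (Sym2 V)) (A0 B0 X A' B' : Finset V), n0 ≤ Fintype.card V → Loopless E →
      EvenDeg E → 6 ∣ E.card → Env1 E ε τ A0 B0 X A' B' →
      ((∀ a ∈ A0, ∃ b ∈ B0, s(a, b) ∈ E) ∨ (∀ b ∈ B0, ∃ a ∈ A0, s(a, b) ∈ E) ∨
        (5 ≤ (crs E (A0 ∪ X) (B0 ∪ X)).card ∧
          ∃ x ∈ X, 3 * τ * nV V ≤ (dg E A' x : ℝ) ∧ 3 * τ * nV V ≤ (dg E B' x : ℝ)) ∨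
        (∃ x ∈ X, ∃ x' ∈ X, x ≠ x' ∧ τ * nV V ≤ (cn E A' x x' : ℝ))) → Dec E := by
  obtain ⟨ε1, he1, n1, H1⟩ := fin1 τ hτ hτ'
  obtain ⟨ε2, he2, n2, H2⟩ := sw_T1 τ hτ hτ'
  obtain ⟨ε3, he3, n3, H3⟩ := sw_T1' τ hτ hτ'
  obtain ⟨ε4, he4, n4, H4⟩ := sw_T2 τ hτ hτ'
  obtain ⟨ε5, he5, n5, H5⟩ := sw_T3 τ hτ hτ'
  refine ⟨min ε1 (min ε2 (min ε3 (min ε4 ε5))), ?_, n1 + n2 + n3 + n4 + n5, ?_⟩
  · simp only [lt_min_iff]
    exact ⟨he1, he2, he3, he4, he5⟩
  intro V _ _ E A0 B0 X A' B' hn hl hev h6 henv hcase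
  have l1 : min ε1 (min ε2 (min ε3 (min ε4 ε5))) ≤ ε1 := min_le_left _ _
  have l2 : min ε1 (min ε2 (min ε3 (min ε4 ε5))) ≤ ε2 := (min_le_right _ _).trans (min_le_left _ _)
  have l3 : min ε1 (min ε2 (min ε3 (min ε4 ε5))) ≤ ε3 :=
    (min_le_right _ _).trans ((min_le_right _ _).trans (min_le_left _ _))
  have l4 : min ε1 (min ε2 (min ε3 (min ε4 ε5))) ≤ ε4 :=
    (min_le_right _ _).trans ((min_le_right _ _).trans ((min_le_right _ _).trans (min_le_left _ _)))
  have l5 : min ε1 (min ε2 (min ε3 (min ε4 ε5))) ≤ ε5 :=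
    (min_le_right _ _).trans ((min_le_right _ _).trans ((min_le_right _ _).trans (min_le_right _ _)))
  have hsw : Switch5 E (A0 ∪ X) B0 := by
    rcases hcase with h | h | ⟨h, h'⟩ | h
    · exact H2 V E A0 B0 X A' B' (by omega) hl (e1d_env_mono henv l2) h
    · exact H3 V E A0 B0 X A' B' (by omega) hl (e1d_env_mono henv l3) h
    · exact H4 V E A0 B0 X A' B' (by omega) hl (e1d_env_mono henv l4) h h'
    · exact H5 V E A0 B0 X A' B' (by omega) hl (e1d_env_mono henv l5) h
  exact H1 V E A0 B0 X A' B' (by omega) hl hev h6 (e1d_env_mono henv l1) hsw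

theorem e1d_incl {V : Type} [DecidableEq V] (N1 N2 N3 : Finset V) :
    N1.card + N2.card + N3.card ≤ (N1 ∪ N2 ∪ N3).card + ((N1 ∩ N2).card + (N1 ∩ N3).card +
      (N2 ∩ N3).card) := by
  have h1 := card_union_add_card_inter N1 N2
  have h2 := card_union_add_card_inter (N1 ∪ N2) N3
  have h3 : ((N1 ∪ N2) ∩ N3).card ≤ (N1 ∩ N3).card + (N2 ∩ N3).card := by
    rw [union_inter_distrib_right]
    exact card_union_le _ _
  omega

theorem e1d_cn {V : Type} [DecidableEq V] (E : Finset (Sym2 V)) (A B : Finset V) (x y : V) :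
    (((A ∪ B).filter (fun m => s(x, m) ∈ E)) ∩ ((A ∪ B).filter (fun m => s(y, m) ∈ E))).card ≤
      cn E A x y + cn E B x y := by
  unfold cn
  refine le_trans (card_le_card ?_) (card_union_le _ _)
  intro m hm
  rw [mem_inter, mem_filter, mem_filter] at hm
  obtain ⟨⟨h1, h2⟩, _, h3⟩ := hm
  rw [mem_union, mem_filter, mem_filter]
  have h4 : s(m, y) ∈ E := by rw [Sym2.eq_swap]; exact h3
  rcases mem_union.1 h1 with h | h
  · exact Or.inl ⟨h, h2, h4⟩
  · exact Or.inr ⟨h, h2, h4⟩

/-- three mixed vertices -/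
theorem e1d_three {V : Type} [Fintype V] [DecidableEq V] {E : Finset (Sym2 V)} {ε : ℝ}
    {A0 B0 X A' B' : Finset V} (hl : Loopless E) (h : Env1 E ε (1 / 60) A0 B0 X A' B')
    (hε : ε ≤ 1 / 1000) (hn : 1000 ≤ Fintype.card V) (hX : 2 < X.card) :
    ∃ x ∈ X, ∃ x' ∈ X, x ≠ x' ∧ (1 / 60 * nV V ≤ (cn E A' x x' : ℝ) ∨
      1 / 60 * nV V ≤ (cn E B' x x' : ℝ)) := by
  by_contra hcon
  push Not at hcon
  obtain ⟨x1, x2, x3, h1, h2, h3, h12, h13, h23⟩ := Finset.two_lt_card_iff.1 hX
  obtain ⟨-, -, hout, hdeg, -⟩ := h.basic hl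
  have hnR : (1000 : ℝ) ≤ nV V := by
    have : ((1000 : ℕ) : ℝ) ≤ (Fintype.card V : ℝ) := Nat.cast_le.2 hn
    simpa using this
  have hdisj : Disjoint A' B' := Finset.disjoint_of_subset_left h.subA
    (Finset.disjoint_of_subset_right h.subB h.dAB)
  have hN : ∀ x : V, (nV V - 1) / 2 - 2 * ε * nV V ≤
      (((A' ∪ B').filter (fun m => s(x, m) ∈ E)).card : ℝ) := by
    intro x
    have e1 : ((A' ∪ B').filter (fun m => s(x, m) ∈ E)).card = dg E A' x + dg E B' x := by
      unfold dg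
      rw [filter_union, card_union_of_disjoint (disjoint_filter_filter hdisj)]
    have e2 := hdeg x
    have e3 := h.mindeg x
    have e4 : (Fintype.card V : ℝ) ≤ 2 * (((dg E A' x + dg E B' x : ℕ) : ℝ) +
        ((Finset.univ \ (A' ∪ B')).card : ℝ)) + 1 := by
      have : Fintype.card V ≤ 2 * ((dg E A' x + dg E B' x) + (Finset.univ \ (A' ∪ B')).card) + 1 := by
        omega
      exact_mod_cast this
    rw [e1]
    have e5 : nV V = (Fintype.card V : ℝ) := rfl
    rw [← e5] at e4
    linarith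
  have k1 := hcon x1 h1 x2 h2 h12
  have k2 := hcon x1 h1 x3 h3 h13
  have k3 := hcon x2 h2 x3 h3 h23
  have c1 := e1d_cn E A' B' x1 x2
  have c2 := e1d_cn E A' B' x1 x3
  have c3 := e1d_cn E A' B' x2 x3
  have i1 := e1d_incl ((A' ∪ B').filter (fun m => s(x1, m) ∈ E))
    ((A' ∪ B').filter (fun m => s(x2, m) ∈ E)) ((A' ∪ B').filter (fun m => s(x3, m) ∈ E))
  have i2 : (((A' ∪ B').filter (fun m => s(x1, m) ∈ E)) ∪ ((A' ∪ B').filter (fun m => s(x2, m) ∈ E)) ∪
      ((A' ∪ B').filter (fun m => s(x3, m) ∈ E))).card ≤ Fintype.card V := card_le_univ _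
  have i3 : (((A' ∪ B').filter (fun m => s(x1, m) ∈ E)).card : ℝ) +
      (((A' ∪ B').filter (fun m => s(x2, m) ∈ E)).card : ℝ) +
      (((A' ∪ B').filter (fun m => s(x3, m) ∈ E)).card : ℝ) ≤ nV V +
      (((cn E A' x1 x2 : ℝ) + (cn E B' x1 x2 : ℝ)) + ((cn E A' x1 x3 : ℝ) + (cn E B' x1 x3 : ℝ)) +
        ((cn E A' x2 x3 : ℝ) + (cn E B' x2 x3 : ℝ))) := by
    have i4 : ((A' ∪ B').filter (fun m => s(x1, m) ∈ E)).card +
      ((A' ∪ B').filter (fun m => s(x2, m) ∈ E)).card +
      ((A' ∪ B').filter (fun m => s(x3, m) ∈ E)).card ≤ Fintype.card V +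
      ((cn E A' x1 x2 + cn E B' x1 x2) + (cn E A' x1 x3 + cn E B' x1 x3) +
        (cn E A' x2 x3 + cn E B' x2 x3)) := by omega
    exact_mod_cast i4
  have j1 := hN x1
  have j2 := hN x2
  have j3 := hN x3
  have j4 : ε * nV V ≤ 1 / 1000 * nV V := mul_le_mul_of_nonneg_right hε (by linarith)
  linarith [k1.1, k1.2, k2.1, k2.2, k3.1, k3.2]

/-- two mixed vertices, `|A0| ≤ |B0|` -/
theorem e1d_two {V : Type} [Fintype V] [DecidableEq V] {E : Finset (Sym2 V)} {ε : ℝ}
    {A0 B0 X A' B' : Finset V} (hl : Loopless E) (h : Env1 E ε (1 / 60) A0 B0 X A' B')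
    (hε : ε ≤ 1 / 1000) (hn : 1000 ≤ Fintype.card V) (hX : X.card = 2)
    (hf : (crs E (A0 ∪ X) (B0 ∪ X)).card ≤ 4) (hAB : A0.card ≤ B0.card) :
    ∃ x ∈ X, ∃ x' ∈ X, x ≠ x' ∧ 1 / 60 * nV V ≤ (cn E A' x x' : ℝ) := by
  obtain ⟨x, x', hxx, hXeq⟩ := card_eq_two.1 hX
  have hx : x ∈ X := by rw [hXeq]; simp
  have hx' : x' ∈ X := by rw [hXeq]; simp
  refine ⟨x, hx, x', hx', hxx, ?_⟩
  have hcard := e1d_card h
  have hnR : (1000 : ℝ) ≤ nV V := by
    have : ((1000 : ℕ) : ℝ) ≤ (Fintype.card V : ℝ) := Nat.cast_le.2 hn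
    simpa using this
  have key : A'.filter (fun a => ¬ ∃ b ∈ B0, s(a, b) ∈ E) ⊆
      A'.filter (fun m => s(x, m) ∈ E ∧ s(m, x') ∈ E) := by
    intro a ha
    rw [mem_filter] at ha ⊢
    have haA : a ∈ A0 := h.subA ha.1
    have h1 := e1d_deg_le (e1d_noB h ha.2)
    have h2 := e1d_dg_union E A0 X a
    have h3 := e1d_dg_lt hl haA
    have h4 := h.mindeg a
    have h5 : X.card ≤ dg E X a := by omega
    have h6 : X.filter (fun y => s(a, y) ∈ E) = X :=
      Finset.eq_of_subset_of_card_le (filter_subset _ _) h5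
    have h7 : s(a, x) ∈ E := by
      have : x ∈ X.filter (fun y => s(a, y) ∈ E) := by rw [h6]; exact hx
      exact (mem_filter.1 this).2
    have h8 : s(a, x') ∈ E := by
      have : x' ∈ X.filter (fun y => s(a, y) ∈ E) := by rw [h6]; exact hx'
      exact (mem_filter.1 this).2
    exact ⟨ha.1, by rw [Sym2.eq_swap]; exact h7, h8⟩
  have h1 := card_le_card key
  have h2 : (A'.filter (fun a => ∃ b ∈ B0, s(a, b) ∈ E)).card ≤ 4 := by
    refine le_trans (card_le_card (filter_subset_filter _ h.subA)) ((e1d_few h).trans hf)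
  have h3 := card_filter_add_card_filter_not (s := A') (fun a => ∃ b ∈ B0, s(a, b) ∈ E)
  have h4 : A'.card ≤ cn E A' x x' + 4 := by
    unfold cn
    omega
  have h5 : (A'.card : ℝ) ≤ (cn E A' x x' : ℝ) + 4 := by exact_mod_cast h4
  have h6 := h.sizeA
  have j4 : ε * nV V ≤ 1 / 1000 * nV V := mul_le_mul_of_nonneg_right hε (by linarith)
  linarith

theorem ext1_dec :
    ∃ ε : ℝ, 0 < ε ∧ ∃ n0 : ℕ, ∀ (V : Type) [Fintype V] [DecidableEq V] (E : Finset (Sym2 V)),
      n0 ≤ Fintype.card V → Loopless E → EvenDeg E → 6 ∣ E.card →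
      (∀ v, Fintype.card V ≤ 2 * deg E v + 1) →
      ((Fintype.card V % 24 ≠ 5 ∧ Fintype.card V % 24 ≠ 13) ∨ ∀ v, Fintype.card V ≤ 2 * deg E v) →
      Ext1 E ε → Dec E := by
  obtain ⟨ε1, he1, n1, H1⟩ := e1d_all (1 / 60) (by norm_num) (by norm_num)
  obtain ⟨ε2, he2, n2, H2⟩ := e1d_all (1 / 20) (by norm_num) (by norm_num)
  obtain ⟨k0, H3⟩ := d1_dec
  obtain ⟨ε, hεpos, hε1, hε2, hε3⟩ : ∃ ε : ℝ, 0 < ε ∧ ε ≤ ε1 ∧ ε ≤ ε2 ∧ ε ≤ 1 / 1000 := by
    refine ⟨min ε1 (min ε2 (1 / 1000)), ?_, min_le_left _ _,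
      (min_le_right _ _).trans (min_le_left _ _), (min_le_right _ _).trans (min_le_right _ _)⟩
    simp only [lt_min_iff]
    exact ⟨he1, he2, by norm_num⟩
  obtain ⟨n3, P1⟩ := prep1 ε (1 / 60) hεpos (by linarith) (by norm_num)
  obtain ⟨n4, P2⟩ := prep1 ε (1 / 20) hεpos (by linarith) (by norm_num)
  refine ⟨ε, hεpos, n1 + n2 + n3 + n4 + 4 * k0 + 1000, ?_⟩
  intro V _ _ E hn hl hev h6 hmin hmod hext
  obtain ⟨A', B', hdis, hA', hB', hNA, hNB⟩ := hext
  have hnR : (1000 : ℝ) ≤ nV V := by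
    have : ((1000 : ℕ) : ℝ) ≤ (Fintype.card V : ℝ) := Nat.cast_le.2 (by omega)
    simpa using this
  obtain ⟨A0, B0, X, henv, hX⟩ := P2 V E A' B' (by omega) hl hmin hdis hA' hB' hNA hNB
  rcases X.eq_empty_or_nonempty with hXe | ⟨x, hx⟩
  · -- no mixed vertices
    have hcard := e1d_card henv
    rw [hXe, card_empty, add_zero] at hcard
    have hXc : X.card = 0 := by rw [hXe]; rfl
    rcases le_total A0.card B0.card with hab | hab
    · exact H2 V E A0 B0 X A' B' (by omega) hl hev h6 (e1d_env_mono henv hε2)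
        (Or.inl (e1d_small hl henv (by omega)))
    · refine H2 V E A0 B0 X A' B' (by omega) hl hev h6 (e1d_env_mono henv hε2)
        (Or.inr (Or.inl ?_))
      intro b hb
      obtain ⟨a, ha, hab'⟩ := e1d_small hl henv.swap (by omega) b hb
      exact ⟨a, ha, by rw [Sym2.eq_swap]; exact hab'⟩
  · -- mixed vertices
    have hxd := (hX x).1 hx
    obtain ⟨A1, B1, Y, henv1, hY⟩ := P1 V E A' B' (by omega) hl hmin hdis hA' hB' hNA hNB
    have hxY : x ∈ Y := by
      rw [hY]
      constructor <;> nlinarith [hxd.1, hxd.2]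
    have hcard := e1d_card henv1
    have hYpos : 0 < Y.card := card_pos.2 ⟨x, hxY⟩
    have hfin := H1 V E A1 B1 Y A' B' (by omega) hl hev h6 (e1d_env_mono henv1 hε1)
    have hfin' := H1 V E B1 A1 Y B' A' (by omega) hl hev h6 (e1d_env_mono henv1.swap hε1)
    by_cases hs1 : 2 * (A1.card + Y.card) ≤ Fintype.card V
    · exact hfin (Or.inl (e1d_small hl henv1 hs1))
    by_cases hs2 : 2 * (B1.card + Y.card) ≤ Fintype.card V
    · exact hfin' (Or.inl (e1d_small hl henv1.swap hs2))
    by_cases hf : 5 ≤ (crs E (A1 ∪ Y) (B1 ∪ Y)).card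
    · exact hfin (Or.inr (Or.inr (Or.inl ⟨hf, x, hxY, by linarith [hxd.1], by linarith [hxd.2]⟩)))
    push Not at hs1 hs2 hf
    by_cases h3 : 2 < Y.card
    · obtain ⟨y, hy, y', hy', hne, hc⟩ := e1d_three hl henv1 hε3 (by omega) h3
      rcases hc with hc | hc
      · exact hfin (Or.inr (Or.inr (Or.inr ⟨y, hy, y', hy', hne, hc⟩)))
      · exact hfin' (Or.inr (Or.inr (Or.inr ⟨y, hy, y', hy', hne, hc⟩)))
    by_cases h2 : Y.card = 2
    · rcases le_total A1.card B1.card with hab | hab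
      · exact hfin (Or.inr (Or.inr (Or.inr (e1d_two hl henv1 hε3 (by omega) h2 (by omega) hab))))
      · refine hfin' (Or.inr (Or.inr (Or.inr (e1d_two hl henv1.swap hε3 (by omega) h2 ?_ hab))))
        rw [e1d_crs_comm]
        omega
    · -- exactly one mixed vertex
      have hY1 : Y.card = 1 := by omega
      have hYx : Y = {x} := by
        obtain ⟨y, hy⟩ := card_eq_one.1 hY1
        rw [hy, mem_singleton] at hxY
        rw [hy, hxY]
      have hfew := e1d_few henv1
      have hbig : 4 < A1.card := by omega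
      obtain ⟨a, haA, hano⟩ : ∃ a ∈ A1, ¬ ∃ b ∈ B1, s(a, b) ∈ E := by
        by_contra hcon
        push Not at hcon
        have : A1.filter (fun a => ∃ b ∈ B1, s(a, b) ∈ E) = A1 := by
          rw [filter_eq_self]
          exact hcon
        rw [this] at hfew
        omega
      have d1 := e1d_deg_le (e1d_noB henv1 hano)
      have d2 := e1d_dg_lt hl (S := A1 ∪ Y) (mem_union_left Y haA)
      have d3 := card_union_le A1 Y
      have d4 := hmin a
      have hdega : deg E a = A1.card := by omega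
      obtain ⟨k, hk⟩ := hev a
      have hmod' : Fintype.card V % 24 ≠ 5 ∧ Fintype.card V % 24 ≠ 13 := by
        rcases hmod with h | h
        · exact h
        · have := h a
          omega
      have hn4 : Fintype.card V = 4 * k + 1 := by omega
      rw [hn4] at hmod'
      refine H3 V E k A1 B1 x (by omega) ?_ hmod'
      refine ⟨henv1.dAB, ?_, ?_, ?_, by omega, by omega, hl, hev, h6, ?_, ?_, by omega⟩
      · exact fun h => disjoint_left.1 henv1.dAX h hxY
      · exact fun h => disjoint_left.1 henv1.dBX h hxY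
      · rw [← henv1.cover, hYx, union_comm _ ({x} : Finset V), insert_eq]
      · intro v
        have := hmin v
        omega
      · have e1 : insert x A1 = A1 ∪ Y := by rw [hYx, union_comm, insert_eq]
        have e2 : insert x B1 = B1 ∪ Y := by rw [hYx, union_comm, insert_eq]
        rw [e1, e2]
        omega

end H15C6
end S_E1D
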