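import Pool.Agent.H15.C6F.FC
import Pool.Agent.H15.C6F.FD
import Pool.Agent.H15.C6F.FF
import Pool.Agent.H15.C6F.FG
import Pool.Agent.H15.C6F.FH
import Pool.Agent.H15.C6F.FJ

section S_E3A0
/-!
Module E3A0 (part of E3A).  Extremal case 3 (four-class pattern): preparation and the parity switch.  `n = |V|`.

Environment `Env3 E t ε τ X cl V'`: `cl : V → Fin 4` classes; `X` = atypical vertices; `V' i` = strongly typical vertices of
class `i` (pairwise disjoint, `⊆ Xᶜ`), `|V' i| ≥ t n`, `|V \ ⋃ V' i| ≤ ε n`; for `v ∈ V' i`: neighbourhood `=` row `i`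
up to `ε n` (`row i = ⋃_{PatE i j} V' j`); for `v ∉ X`: neighbourhood = row `cl v` up to `τ n`; for `x ∈ X`: for every
class `i` the neighbourhood differs from row `i` by more than `τ n`.

`prep3`: from `Ext3 E t ε`: `V' = V1..V4`; `v ∉ X` iff for some `i` `|N(v) Δ row i| ≤ τ n`; such an `i` is
unique because the rows differ pairwise in at least `2 t n > 2τ n` vertices (`τ < t`); `cl v := i`.

`wrong`: edges `s(u,v)` with `u, v ∉ X` and `¬ PatE (cl u) (cl v)`.  `host`: edges with both ends outside `X` and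
`PatE`.

`switch3`: there are a wrong edge or a vertex of `X`.  Otherwise `deg v1 ≤ |V1| - 1 + |V2|`,
`deg v4 ≤ |V3| + |V4| - 1` (full classes), sum `≤ n - 2`, contradiction.
There are two six-cycles `C0, C1 ⊆ E` containing the same non-host edges (at least one, and if they contain an
edge at `x ∈ X` then exactly two such edges, both at the same `x`), all other edges in `host`, with
`nV1 C0 ≢ nV1 C1 (mod 2)`:
* wrong edge `uv` of type `{0,2}`: walks `0,0,1,0,1,2` (one `{0,0}` edge) and `0,1,2,3,3,2` (none);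
  type `{0,3}`: `0,0,0,1,2,3` (two) and `0,0,1,2,3,3` (one); type `{1,3}`: `1,0,0,1,2,3` (one) and
  `1,2,3,2,3,3` (none); type `{1,1}`: `1,0,0,1,0,1` (one) and `1,2,3,3,2,1` (none);
  type `{2,2}`: `2,1,0,0,1,2` (one) and `2,3,3,2,3,2` (none); (paths of length 5 from `u` to `v`, all inner
  vertices strongly typical, distinct).
* `x ∈ X`: `x` has typical neighbours in classes 0 and 3, or in classes 1 and 2; otherwise its typical
  neighbours are in one row (`{0,1}`, `{0,2}`, `{3,1}`, `{3,2}` are the four rows), and since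
  `deg x ≥ (n-1)/2`, `|row| ≤ (1/2 + 2ε) n`, `x` would be typical.  Paths of length 4 between typical `u` (class 0)
  and `w` (class 3): `0,0,1,2,3` (one) and `0,1,2,3,3` (none); `u` in class 1, `w` in class 2:
  `1,0,0,1,2` (one) and `1,2,3,3,2` (none).
All private vertices of the two cycles are chosen distinct.
-/

open Finset

namespace H15C6

/-- environment for the third extremal case -/
structure Env3 {V : Type} [Fintype V] [DecidableEq V] (E : Finset (Sym2 V)) (t ε τ : ℝ)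
    (X : Finset V) (cl : V → Fin 4) (V' : Fin 4 → Finset V) : Prop where
  disj : ∀ i j, i ≠ j → Disjoint (V' i) (V' j)
  subX : ∀ i, Disjoint (V' i) X
  cls : ∀ i, ∀ v ∈ V' i, cl v = i
  size : ∀ i, t * nV V ≤ ((V' i).card : ℝ)
  few : ((Finset.univ \ (Finset.univ.biUnion V')).card : ℝ) ≤ ε * nV V
  rowsize : ∀ i, ((Finset.univ.filter (fun v => ∃ j, PatE i j ∧ v ∈ V' j)).card : ℝ) ≤
    (1 / 2 + 2 * ε) * nV V
  strong : ∀ i, ∀ v ∈ V' i, (∀ j, PatE i j → (((V' j).filter (fun y => s(v, y) ∉ E)).card : ℝ) ≤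
    ε * nV V) ∧ (∀ j, ¬ PatE i j → (dg E (V' j) v : ℝ) ≤ ε * nV V)
  typical : ∀ v, v ∉ X → (∀ j, PatE (cl v) j →
    (((V' j).filter (fun y => s(v, y) ∉ E)).card : ℝ) ≤ τ * nV V) ∧
    (∀ j, ¬ PatE (cl v) j → (dg E (V' j) v : ℝ) ≤ τ * nV V)
  atyp : ∀ x ∈ X, ∀ i : Fin 4, ¬ (∀ j, ¬ PatE i j → ∀ y, y ∉ X → cl y = j → s(x, y) ∉ E)
  mindeg : ∀ v, Fintype.card V ≤ 2 * deg E v + 1

/-- edges of the right type between typical vertices -/
def host3 {V : Type} [DecidableEq V] (E : Finset (Sym2 V)) (X : Finset V) (cl : V → Fin 4) :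
    Finset (Sym2 V) :=
  E.filter (fun e => (∀ x ∈ X, x ∉ e) ∧ Sym2.map cl e ∈
    ({s(0, 0), s(3, 3), s(0, 1), s(1, 2), s(2, 3)} : Finset (Sym2 (Fin 4))))

end H15C6
end S_E3A0

section S_E3A1
/-!
Module E3A1 (part of E3A).  Extremal case 3 (four-class pattern): preparation and the parity switch.  `n = |V|`.

Environment `Env3 E t ε τ X cl V'`: `cl : V → Fin 4` classes; `X` = atypical vertices; `V' i` = strongly typical vertices of
class `i` (pairwise disjoint, `⊆ Xᶜ`), `|V' i| ≥ t n`, `|V \ ⋃ V' i| ≤ ε n`; for `v ∈ V' i`: neighbourhood `=` row `i`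
up to `ε n` (`row i = ⋃_{PatE i j} V' j`); for `v ∉ X`: neighbourhood = row `cl v` up to `τ n`; for `x ∈ X`: for every
class `i` the neighbourhood differs from row `i` by more than `τ n`.

`prep3`: from `Ext3 E t ε`: `V' = V1..V4`; `v ∉ X` iff for some `i` `|N(v) Δ row i| ≤ τ n`; such an `i` is
unique because the rows differ pairwise in at least `2 t n > 2τ n` vertices (`τ < t`); `cl v := i`.

`wrong`: edges `s(u,v)` with `u, v ∉ X` and `¬ PatE (cl u) (cl v)`.  `host`: edges with both ends outside `X` and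
`PatE`.

`switch3`: there are a wrong edge or a vertex of `X`.  Otherwise `deg v1 ≤ |V1| - 1 + |V2|`,
`deg v4 ≤ |V3| + |V4| - 1` (full classes), sum `≤ n - 2`, contradiction.
There are two six-cycles `C0, C1 ⊆ E` containing the same non-host edges (at least one, and if they contain an
edge at `x ∈ X` then exactly two such edges, both at the same `x`), all other edges in `host`, with
`nV1 C0 ≢ nV1 C1 (mod 2)`:
* wrong edge `uv` of type `{0,2}`: walks `0,0,1,0,1,2` (one `{0,0}` edge) and `0,1,2,3,3,2` (none);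
  type `{0,3}`: `0,0,0,1,2,3` (two) and `0,0,1,2,3,3` (one); type `{1,3}`: `1,0,0,1,2,3` (one) and
  `1,2,3,2,3,3` (none); type `{1,1}`: `1,0,0,1,0,1` (one) and `1,2,3,3,2,1` (none);
  type `{2,2}`: `2,1,0,0,1,2` (one) and `2,3,3,2,3,2` (none); (paths of length 5 from `u` to `v`, all inner
  vertices strongly typical, distinct).
* `x ∈ X`: `x` has typical neighbours in classes 0 and 3, or in classes 1 and 2; otherwise its typical
  neighbours are in one row (`{0,1}`, `{0,2}`, `{3,1}`, `{3,2}` are the four rows), and since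
  `deg x ≥ (n-1)/2`, `|row| ≤ (1/2 + 2ε) n`, `x` would be typical.  Paths of length 4 between typical `u` (class 0)
  and `w` (class 3): `0,0,1,2,3` (one) and `0,1,2,3,3` (none); `u` in class 1, `w` in class 2:
  `1,0,0,1,2` (one) and `1,2,3,3,2` (none).
All private vertices of the two cycles are chosen distinct.
-/

open Finset

namespace H15C6

/-- the rows of the pattern -/
def e3a1_row {V : Type} [Fintype V] [DecidableEq V] (W : Fin 4 → Finset V) (i : Fin 4) : Finset V :=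
  Finset.univ.filter (fun v => ∃ j, PatE i j ∧ v ∈ W j)

/-- `v` is typical of class `i` -/
def e3a1_Typ {V : Type} [Fintype V] [DecidableEq V] (E : Finset (Sym2 V)) (τ : ℝ)
    (W : Fin 4 → Finset V) (i : Fin 4) (v : V) : Prop :=
  (∀ j, PatE i j → (((W j).filter (fun y => s(v, y) ∉ E)).card : ℝ) ≤ τ * nV V) ∧
    (∀ j, ¬ PatE i j → (dg E (W j) v : ℝ) ≤ τ * nV V)

theorem e3a1_pat1 : ∀ i i' : Fin 4, i ≠ i' → ∃ j, PatE i j ∧ ¬ PatE i' j := by decide

theorem e3a1_pat2 : ∀ i j : Fin 4, ¬ (PatE i j ∧ PatE (Fin.rev i) j) := by decide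

theorem e3a1_mem_row {V : Type} [Fintype V] [DecidableEq V] {W : Fin 4 → Finset V} {i : Fin 4}
    {v : V} : v ∈ e3a1_row W i ↔ ∃ j, PatE i j ∧ v ∈ W j := by
  unfold e3a1_row
  rw [Finset.mem_filter]
  exact ⟨fun h => h.2, fun h => ⟨Finset.mem_univ _, h⟩⟩

theorem e3a1_deg {V : Type} [Fintype V] [DecidableEq V] (E : Finset (Sym2 V)) (v : V) :
    deg E v = (Finset.univ.filter (fun y => s(v, y) ∈ E)).card := by
  rw [deg_eq_dg (U := Finset.univ) (fun e _ => by
    rw [Finset.mem_sym2_iff]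
    exact fun a _ => Finset.mem_univ a)]
  rfl

/-- the sizes of the rows -/
theorem e3a1_rowsize {V : Type} [Fintype V] [DecidableEq V] {E : Finset (Sym2 V)} {ε : ℝ}
    {W : Fin 4 → Finset V} (hdisj : ∀ i j, i ≠ j → Disjoint (W i) (W j))
    (hne : ∀ i, (W i).Nonempty) (hNL : ∀ i, NbrsLike E ε (W i) (e3a1_row W i))
    (hmin : ∀ v, Fintype.card V ≤ 2 * deg E v + 1) (i : Fin 4) :
    ((e3a1_row W i).card : ℝ) ≤ (1 / 2 + ε) * nV V + 1 / 2 := by
  obtain ⟨v, hv⟩ := hne (Fin.rev i)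
  have h1 := (hNL (Fin.rev i) v hv).1
  have h2 : (deg E v : ℝ) ≤ (e3a1_row W (Fin.rev i)).card + ε * nV V := by
    have h3 : deg E v ≤ (e3a1_row W (Fin.rev i)).card +
        (Finset.univ.filter (fun y => s(v, y) ∈ E ∧ y ∉ e3a1_row W (Fin.rev i))).card := by
      rw [e3a1_deg]
      refine le_trans (Finset.card_le_card ?_) (Finset.card_union_le _ _)
      intro y hy
      rw [Finset.mem_filter] at hy
      rw [Finset.mem_union, Finset.mem_filter]
      by_cases h : y ∈ e3a1_row W (Fin.rev i)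
      · exact Or.inl h
      · exact Or.inr ⟨Finset.mem_univ _, hy.2, h⟩
    have h4 : (deg E v : ℝ) ≤ (e3a1_row W (Fin.rev i)).card +
        ((Finset.univ.filter (fun y => s(v, y) ∈ E ∧ y ∉ e3a1_row W (Fin.rev i))).card : ℝ) := by
      exact_mod_cast h3
    linarith
  have h5 : ((Fintype.card V : ℕ) : ℝ) ≤ 2 * deg E v + 1 := by exact_mod_cast hmin v
  have h6 : (e3a1_row W i).card + (e3a1_row W (Fin.rev i)).card ≤ Fintype.card V := by
    rw [← Finset.card_union_of_disjoint]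
    · exact Finset.card_le_univ _
    · rw [Finset.disjoint_left]
      intro y h7 h8
      rw [e3a1_mem_row] at h7 h8
      obtain ⟨j, hj, hyj⟩ := h7
      obtain ⟨j', hj', hyj'⟩ := h8
      by_cases hjj : j = j'
      · subst hjj
        exact e3a1_pat2 i j ⟨hj, hj'⟩
      · exact (Finset.disjoint_left.mp (hdisj j j' hjj)) hyj hyj'
  have h7 : ((e3a1_row W i).card : ℝ) + (e3a1_row W (Fin.rev i)).card ≤ (Fintype.card V : ℝ) := by
    exact_mod_cast h6
  show ((e3a1_row W i).card : ℝ) ≤ (1 / 2 + ε) * (Fintype.card V : ℝ) + 1 / 2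
  have h8 : ε * nV V = ε * (Fintype.card V : ℝ) := rfl
  rw [h8] at h2
  linarith

theorem e3a1_core {t τ ε : ℝ} (ht : 0 < t) (hτ : 0 < τ) (hτt : τ < t / 4) (hε : 0 < ε)
    (hετ : ε ≤ τ / 4) {V : Type} [Fintype V] [DecidableEq V] {E : Finset (Sym2 V)}
    (hn : 2 / ε ≤ nV V) {W : Fin 4 → Finset V}
    (hdisj : ∀ i j, i ≠ j → Disjoint (W i) (W j))
    (hsize : ∀ i, t * nV V ≤ ((W i).card : ℝ))
    (hcov : (1 - ε) * nV V ≤ ((Finset.univ.biUnion W).card : ℝ))
    (hNL : ∀ i, NbrsLike E ε (W i) (e3a1_row W i))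
    (hmin : ∀ v, Fintype.card V ≤ 2 * deg E v + 1) :
    ∃ (X : Finset V) (cl : V → Fin 4), Env3 E t (2 * ε) τ X cl W := by
  classical
  have hnpos : 0 < nV V := lt_of_lt_of_le (by positivity) hn
  have hεn : 2 ≤ ε * nV V := by
    rw [div_le_iff₀ hε] at hn
    linarith
  have hne : ∀ i, (W i).Nonempty := by
    intro i
    rw [← Finset.card_pos]
    have h1 : 0 < ((W i).card : ℝ) := lt_of_lt_of_le (mul_pos ht hnpos) (hsize i)
    exact_mod_cast h1
  have hrow := e3a1_rowsize hdisj hne hNL hmin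
  have hfew : ((Finset.univ \ (Finset.univ.biUnion W)).card : ℝ) ≤ ε * nV V := by
    have h1 : (Finset.univ \ (Finset.univ.biUnion W)).card + (Finset.univ.biUnion W).card
        = Fintype.card V := by
      rw [Finset.card_sdiff_add_card_eq_card (Finset.subset_univ _), Finset.card_univ]
    have h2 : ((Finset.univ \ (Finset.univ.biUnion W)).card : ℝ) + (Finset.univ.biUnion W).card
        = (Fintype.card V : ℝ) := by exact_mod_cast h1
    have h3 : nV V = (Fintype.card V : ℝ) := rfl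
    rw [h3] at hcov ⊢
    linarith
  -- strong typicality
  have hstrong : ∀ i, ∀ v ∈ W i,
      (∀ j, PatE i j → (((W j).filter (fun y => s(v, y) ∉ E)).card : ℝ) ≤ ε * nV V) ∧
      (∀ j, ¬ PatE i j → (dg E (W j) v : ℝ) ≤ ε * nV V) := by
    intro i v hv
    obtain ⟨h1, h2⟩ := hNL i v hv
    refine ⟨fun j hj => ?_, fun j hj => ?_⟩
    · refine le_trans ?_ h2
      have : ((W j).filter (fun y => s(v, y) ∉ E)).card ≤
          ((e3a1_row W i).filter (fun y => s(v, y) ∉ E)).card := by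
        apply Finset.card_le_card
        intro y hy
        rw [Finset.mem_filter] at hy ⊢
        exact ⟨e3a1_mem_row.mpr ⟨j, hj, hy.1⟩, hy.2⟩
      exact_mod_cast this
    · refine le_trans ?_ h1
      have : dg E (W j) v ≤
          (Finset.univ.filter (fun y => s(v, y) ∈ E ∧ y ∉ e3a1_row W i)).card := by
        unfold dg
        apply Finset.card_le_card
        intro y hy
        rw [Finset.mem_filter] at hy ⊢
        refine ⟨Finset.mem_univ _, hy.2, fun hr => ?_⟩
        obtain ⟨j', hj', hyj'⟩ := e3a1_mem_row.mp hr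
        have hjj : j ≠ j' := fun h => hj (h ▸ hj')
        exact (Finset.disjoint_left.mp (hdisj j j' hjj)) hy.1 hyj'
      exact_mod_cast this
  have hετ' : ε * nV V ≤ τ * nV V := by
    apply mul_le_mul_of_nonneg_right _ hnpos.le
    linarith
  have htyp : ∀ i, ∀ v ∈ W i, e3a1_Typ E τ W i v := fun i v hv =>
    ⟨fun j hj => ((hstrong i v hv).1 j hj).trans hετ', fun j hj =>
      ((hstrong i v hv).2 j hj).trans hετ'⟩
  have huniq : ∀ i i' v, e3a1_Typ E τ W i v → e3a1_Typ E τ W i' v → i = i' := by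
    intro i i' v h1 h2
    by_contra hne'
    obtain ⟨j, hj, hj'⟩ := e3a1_pat1 i i' hne'
    have h3 := h1.1 j hj
    have h4 := h2.2 j hj'
    have h5 : (W j).card = (dg E (W j) v) + ((W j).filter (fun y => s(v, y) ∉ E)).card := by
      unfold dg
      exact (Finset.card_filter_add_card_filter_not (s := W j) (fun y => s(v, y) ∈ E)).symm
    have h6 : ((W j).card : ℝ) = (dg E (W j) v : ℝ) +
        ((W j).filter (fun y => s(v, y) ∉ E)).card := by exact_mod_cast h5
    have h7 := hsize j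
    have h8 : τ * nV V < t / 4 * nV V := mul_lt_mul_of_pos_right hτt hnpos
    have h9 : 0 < t * nV V := mul_pos ht hnpos
    nlinarith
  let X : Finset V := Finset.univ.filter (fun v => ¬ ∃ i, e3a1_Typ E τ W i v)
  let cl : V → Fin 4 := fun v => if h : ∃ i, e3a1_Typ E τ W i v then h.choose else 0
  have hX : ∀ v, v ∉ X ↔ ∃ i, e3a1_Typ E τ W i v := by
    intro v
    simp only [X, Finset.mem_filter, Finset.mem_univ, true_and, not_not]
  have hcl : ∀ v, v ∉ X → e3a1_Typ E τ W (cl v) v := by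
    intro v hv
    have h := (hX v).mp hv
    show e3a1_Typ E τ W (if h : ∃ i, e3a1_Typ E τ W i v then h.choose else 0) v
    rw [dif_pos h]
    exact h.choose_spec
  have hcls : ∀ i, ∀ v ∈ W i, v ∉ X ∧ cl v = i := by
    intro i v hv
    have h1 : v ∉ X := (hX v).mpr ⟨i, htyp i v hv⟩
    exact ⟨h1, huniq _ _ v (hcl v h1) (htyp i v hv)⟩
  refine ⟨X, cl, ?_⟩
  refine ⟨hdisj, ?_, fun i v hv => (hcls i v hv).2, hsize, ?_, ?_, ?_, ?_, ?_, hmin⟩
  · intro i
    rw [Finset.disjoint_left]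
    intro v hv
    exact (hcls i v hv).1
  · exact hfew.trans (by nlinarith)
  · intro i
    refine (hrow i).trans ?_
    nlinarith
  · intro i v hv
    refine ⟨fun j hj => ((hstrong i v hv).1 j hj).trans (by nlinarith), fun j hj =>
      ((hstrong i v hv).2 j hj).trans (by nlinarith)⟩
  · intro v hv
    exact hcl v hv
  · intro x hx i hcon
    have hzero : ∀ j, ¬ PatE i j → dg E (W j) x = 0 := by
      intro j hj
      unfold dg
      rw [Finset.card_eq_zero, Finset.filter_eq_empty_iff]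
      intro y hy
      exact hcon j hj y (hcls j y hy).1 (hcls j y hy).2
    have hxX : ¬ ∃ i, e3a1_Typ E τ W i x := fun h => ((hX x).mpr h) hx
    apply hxX
    refine ⟨i, fun j hj => ?_, fun j hj => ?_⟩
    · -- missing neighbours in the row
      have h1 : (((W j).filter (fun y => s(x, y) ∉ E)).card : ℝ) ≤
          ((e3a1_row W i).filter (fun y => s(x, y) ∉ E)).card := by
        have : ((W j).filter (fun y => s(x, y) ∉ E)).card ≤
            ((e3a1_row W i).filter (fun y => s(x, y) ∉ E)).card := by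
          apply Finset.card_le_card
          intro y hy
          rw [Finset.mem_filter] at hy ⊢
          exact ⟨e3a1_mem_row.mpr ⟨j, hj, hy.1⟩, hy.2⟩
        exact_mod_cast this
      have h2 : ((e3a1_row W i).card : ℝ) =
          ((e3a1_row W i).filter (fun y => s(x, y) ∈ E)).card +
          ((e3a1_row W i).filter (fun y => s(x, y) ∉ E)).card := by
        have : (e3a1_row W i).card = ((e3a1_row W i).filter (fun y => s(x, y) ∈ E)).card +
            ((e3a1_row W i).filter (fun y => s(x, y) ∉ E)).card :=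
          (Finset.card_filter_add_card_filter_not (s := e3a1_row W i)
            (fun y => s(x, y) ∈ E)).symm
        exact_mod_cast this
      have h3 : (deg E x : ℝ) ≤ ((e3a1_row W i).filter (fun y => s(x, y) ∈ E)).card + ε * nV V := by
        have h4 : deg E x ≤ ((e3a1_row W i).filter (fun y => s(x, y) ∈ E)).card +
            (Finset.univ \ (Finset.univ.biUnion W)).card := by
          rw [e3a1_deg]
          refine le_trans (Finset.card_le_card ?_) (Finset.card_union_le _ _)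
          intro y hy
          rw [Finset.mem_filter] at hy
          rw [Finset.mem_union]
          by_cases h : y ∈ Finset.univ.biUnion W
          · left
            rw [Finset.mem_biUnion] at h
            obtain ⟨j', _, hyj'⟩ := h
            rw [Finset.mem_filter]
            refine ⟨e3a1_mem_row.mpr ⟨j', ?_, hyj'⟩, hy.2⟩
            by_contra hj'
            exact hcon j' hj' y (hcls j' y hyj').1 (hcls j' y hyj').2 hy.2
          · right
            rw [Finset.mem_sdiff]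
            exact ⟨Finset.mem_univ _, h⟩
        have h5 : (deg E x : ℝ) ≤ ((e3a1_row W i).filter (fun y => s(x, y) ∈ E)).card +
            ((Finset.univ \ (Finset.univ.biUnion W)).card : ℝ) := by exact_mod_cast h4
        linarith
      have h6 : (nV V) ≤ 2 * deg E x + 1 := by
        have := hmin x
        show ((Fintype.card V : ℕ) : ℝ) ≤ _
        exact_mod_cast this
      have h7 := hrow i
      have h8 : ε * nV V ≤ τ / 4 * nV V := mul_le_mul_of_nonneg_right hετ hnpos.le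
      nlinarith
    · rw [hzero j hj]
      have : 0 < τ * nV V := mul_pos hτ hnpos
      simpa using this.le

theorem prep3 (t : ℝ) (ht : 0 < t) (τ : ℝ) (hτ : 0 < τ) (hτt : τ < t / 4) :
    ∃ ε1 : ℝ, 0 < ε1 ∧ ∀ ε : ℝ, 0 < ε → ε ≤ ε1 → ∃ n0 : ℕ, ∀ (V : Type) [Fintype V]
      [DecidableEq V] (E : Finset (Sym2 V)),
      n0 ≤ Fintype.card V → Loopless E → (∀ v, Fintype.card V ≤ 2 * deg E v + 1) →
      Ext3 E t ε → ∃ (X : Finset V) (cl : V → Fin 4) (V' : Fin 4 → Finset V),
        Env3 E t (2 * ε) τ X cl V' := by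
  refine ⟨τ / 4, by positivity, fun ε hε hε1 => ⟨⌈2 / ε⌉₊, ?_⟩⟩
  intro V _ _ E hn _ hmin hE
  obtain ⟨V1, V2, V3, V4, d12, d13, d14, d23, d24, d34, s1, s2, s3, s4, hcov, n1, n2, n3, n4⟩ := hE
  have hn' : 2 / ε ≤ nV V := by
    refine (Nat.le_ceil _).trans ?_
    show ((⌈2 / ε⌉₊ : ℕ) : ℝ) ≤ ((Fintype.card V : ℕ) : ℝ)
    exact_mod_cast hn
  have hr0 : e3a1_row ![V1, V2, V3, V4] 0 = V1 ∪ V2 := by
    ext v
    rw [e3a1_mem_row, Finset.mem_union]
    constructor
    · rintro ⟨j, hj, hv⟩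
      fin_cases j
      · exact Or.inl hv
      · exact Or.inr hv
      · exact absurd hj (by decide)
      · exact absurd hj (by decide)
    · rintro (h | h)
      · exact ⟨0, by decide, h⟩
      · exact ⟨1, by decide, h⟩
  have hr1 : e3a1_row ![V1, V2, V3, V4] 1 = V1 ∪ V3 := by
    ext v
    rw [e3a1_mem_row, Finset.mem_union]
    constructor
    · rintro ⟨j, hj, hv⟩
      fin_cases j
      · exact Or.inl hv
      · exact absurd hj (by decide)
      · exact Or.inr hv
      · exact absurd hj (by decide)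
    · rintro (h | h)
      · exact ⟨0, by decide, h⟩
      · exact ⟨2, by decide, h⟩
  have hr2 : e3a1_row ![V1, V2, V3, V4] 2 = V2 ∪ V4 := by
    ext v
    rw [e3a1_mem_row, Finset.mem_union]
    constructor
    · rintro ⟨j, hj, hv⟩
      fin_cases j
      · exact absurd hj (by decide)
      · exact Or.inl hv
      · exact absurd hj (by decide)
      · exact Or.inr hv
    · rintro (h | h)
      · exact ⟨1, by decide, h⟩
      · exact ⟨3, by decide, h⟩
  have hr3 : e3a1_row ![V1, V2, V3, V4] 3 = V3 ∪ V4 := by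
    ext v
    rw [e3a1_mem_row, Finset.mem_union]
    constructor
    · rintro ⟨j, hj, hv⟩
      fin_cases j
      · exact absurd hj (by decide)
      · exact absurd hj (by decide)
      · exact Or.inl hv
      · exact Or.inr hv
    · rintro (h | h)
      · exact ⟨2, by decide, h⟩
      · exact ⟨3, by decide, h⟩
  have hcov' : (Finset.univ.biUnion ![V1, V2, V3, V4]) = V1 ∪ V2 ∪ V3 ∪ V4 := by
    ext v
    rw [Finset.mem_biUnion, Finset.mem_union, Finset.mem_union, Finset.mem_union]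
    constructor
    · rintro ⟨j, _, hv⟩
      fin_cases j
      · exact Or.inl (Or.inl (Or.inl hv))
      · exact Or.inl (Or.inl (Or.inr hv))
      · exact Or.inl (Or.inr hv)
      · exact Or.inr hv
    · rintro (((h | h) | h) | h)
      · exact ⟨0, Finset.mem_univ _, h⟩
      · exact ⟨1, Finset.mem_univ _, h⟩
      · exact ⟨2, Finset.mem_univ _, h⟩
      · exact ⟨3, Finset.mem_univ _, h⟩
  obtain ⟨X, cl, h⟩ := e3a1_core (W := ![V1, V2, V3, V4]) ht hτ hτt hε hε1 hn' (by
      intro i j hij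
      fin_cases i <;> fin_cases j <;>
        first
        | exact absurd rfl hij
        | exact d12
        | exact d13
        | exact d14
        | exact d23
        | exact d24
        | exact d34
        | exact d12.symm
        | exact d13.symm
        | exact d14.symm
        | exact d23.symm
        | exact d24.symm
        | exact d34.symm) (by
      intro i
      fin_cases i
      · exact s1
      · exact s2
      · exact s3
      · exact s4) (by rw [hcov']; exact hcov) (by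
      intro i
      fin_cases i
      · show NbrsLike E ε V1 (e3a1_row ![V1, V2, V3, V4] 0)
        rw [hr0]; exact n1
      · show NbrsLike E ε V2 (e3a1_row ![V1, V2, V3, V4] 1)
        rw [hr1]; exact n2
      · show NbrsLike E ε V3 (e3a1_row ![V1, V2, V3, V4] 2)
        rw [hr2]; exact n3
      · show NbrsLike E ε V4 (e3a1_row ![V1, V2, V3, V4] 3)
        rw [hr3]; exact n4) hmin
  exact ⟨X, cl, ![V1, V2, V3, V4], h⟩

end H15C6
end S_E3A1

section S_E3A2
/-!
Module E3A2 (part of E3A).  Extremal case 3 (four-class pattern): preparation and the parity switch.  `n = |V|`.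

Environment `Env3 E t ε τ X cl V'`: `cl : V → Fin 4` classes; `X` = atypical vertices; `V' i` = strongly typical vertices of
class `i` (pairwise disjoint, `⊆ Xᶜ`), `|V' i| ≥ t n`, `|V \ ⋃ V' i| ≤ ε n`; for `v ∈ V' i`: neighbourhood `=` row `i`
up to `ε n` (`row i = ⋃_{PatE i j} V' j`); for `v ∉ X`: neighbourhood = row `cl v` up to `τ n`; for `x ∈ X`: for every
class `i` the neighbourhood differs from row `i` by more than `τ n`.

`prep3`: from `Ext3 E t ε`: `V' = V1..V4`; `v ∉ X` iff for some `i` `|N(v) Δ row i| ≤ τ n`; such an `i` is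
unique because the rows differ pairwise in at least `2 t n > 2τ n` vertices (`τ < t`); `cl v := i`.

`wrong`: edges `s(u,v)` with `u, v ∉ X` and `¬ PatE (cl u) (cl v)`.  `host`: edges with both ends outside `X` and
`PatE`.

`switch3`: there are a wrong edge or a vertex of `X`.  Otherwise `deg v1 ≤ |V1| - 1 + |V2|`,
`deg v4 ≤ |V3| + |V4| - 1` (full classes), sum `≤ n - 2`, contradiction.
There are two six-cycles `C0, C1 ⊆ E` containing the same non-host edges (at least one, and if they contain an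
edge at `x ∈ X` then exactly two such edges, both at the same `x`), all other edges in `host`, with
`nV1 C0 ≢ nV1 C1 (mod 2)`:
* wrong edge `uv` of type `{0,2}`: walks `0,0,1,0,1,2` (one `{0,0}` edge) and `0,1,2,3,3,2` (none);
  type `{0,3}`: `0,0,0,1,2,3` (two) and `0,0,1,2,3,3` (one); type `{1,3}`: `1,0,0,1,2,3` (one) and
  `1,2,3,2,3,3` (none); type `{1,1}`: `1,0,0,1,0,1` (one) and `1,2,3,3,2,1` (none);
  type `{2,2}`: `2,1,0,0,1,2` (one) and `2,3,3,2,3,2` (none); (paths of length 5 from `u` to `v`, all inner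
  vertices strongly typical, distinct).
* `x ∈ X`: `x` has typical neighbours in classes 0 and 3, or in classes 1 and 2; otherwise its typical
  neighbours are in one row (`{0,1}`, `{0,2}`, `{3,1}`, `{3,2}` are the four rows), and since
  `deg x ≥ (n-1)/2`, `|row| ≤ (1/2 + 2ε) n`, `x` would be typical.  Paths of length 4 between typical `u` (class 0)
  and `w` (class 3): `0,0,1,2,3` (one) and `0,1,2,3,3` (none); `u` in class 1, `w` in class 2:
  `1,0,0,1,2` (one) and `1,2,3,3,2` (none).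
All private vertices of the two cycles are chosen distinct.
-/

open Finset

namespace H15C6

theorem e3a2_patE_symm {a b : Fin 4} : PatE a b → PatE b a := by
  revert a b; decide

theorem e3a2_patE_iff (a b : Fin 4) : s(a, b) ∈
    ({s(0, 0), s(3, 3), s(0, 1), s(1, 2), s(2, 3)} : Finset (Sym2 (Fin 4))) ↔ PatE a b := by
  revert a b; decide

theorem e3a2_mem_host {V : Type} [DecidableEq V] {E : Finset (Sym2 V)} {X : Finset V}
    {cl : V → Fin 4} {a b : V} :
    s(a, b) ∈ host3 E X cl ↔ s(a, b) ∈ E ∧ a ∉ X ∧ b ∉ X ∧ PatE (cl a) (cl b) := by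
  unfold host3
  rw [Finset.mem_filter, Sym2.map_mk, e3a2_patE_iff]
  constructor
  · rintro ⟨h1, h2, h3⟩
    exact ⟨h1, fun h => h2 a h (Sym2.mem_mk_left _ _), fun h => h2 b h (Sym2.mem_mk_right _ _), h3⟩
  · rintro ⟨h1, h2, h3, h4⟩
    refine ⟨h1, fun x hx hm => ?_, h4⟩
    rcases Sym2.mem_iff.1 hm with rfl | rfl
    · exact h2 hx
    · exact h3 hx

/-- common neighbours in a class of the right type -/
theorem e3a2_step {V : Type} [Fintype V] [DecidableEq V] {E : Finset (Sym2 V)} {t ε τ : ℝ}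
    {X : Finset V} {cl : V → Fin 4} {V' : Fin 4 → Finset V} (h : Env3 E t ε τ X cl V')
    (hτt : τ < t / 8) (hn : 20 < t / 2 * nV V) (p q : V) (hp : p ∉ X) (hq : q ∉ X)
    (c : Fin 4) (hpc : PatE (cl p) c) (hqc : PatE c (cl q)) (Z : Finset V) (hZ : Z.card ≤ 10) :
    ∃ a, a ∈ V' c ∧ a ∉ Z ∧ s(p, a) ∈ E ∧ s(a, q) ∈ E := by
  by_contra hcon
  push Not at hcon
  have h1 := (h.typical p hp).1 c hpc
  have h2 := (h.typical q hq).1 c (e3a2_patE_symm hqc)
  have h3 := h.size c
  have hsub : V' c ⊆ ((V' c).filter (fun y => s(p, y) ∉ E)) ∪ (((V' c).filter (fun y => s(q, y) ∉ E)) ∪ Z) := by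
    intro a ha
    rw [Finset.mem_union, Finset.mem_union, Finset.mem_filter, Finset.mem_filter]
    by_cases h4 : s(p, a) ∈ E
    · by_cases h5 : a ∈ Z
      · right; right; exact h5
      · right; left
        refine ⟨ha, ?_⟩
        rw [Sym2.eq_swap]
        exact hcon a ha h5 h4
    · left; exact ⟨ha, h4⟩
  have h4 := Finset.card_le_card hsub
  have h5 := h4.trans ((Finset.card_union_le _ _).trans (Nat.add_le_add_left (Finset.card_union_le _ _) _))
  have h6 : ((V' c).card : ℝ) ≤ (((V' c).filter (fun y => s(p, y) ∉ E)).card : ℝ) +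
      ((((V' c).filter (fun y => s(q, y) ∉ E)).card : ℝ) + (Z.card : ℝ)) := by
    exact_mod_cast h5
  have h7 : (Z.card : ℝ) ≤ 10 := by exact_mod_cast hZ
  have h8 : 0 ≤ nV V := Nat.cast_nonneg _
  nlinarith

/-- walks of classes -/
def e3a2_z (a b : Fin 4) : ℕ := if a = 0 ∧ b = 0 then 1 else 0

theorem e3a2_walkA (p q : Fin 4) (h : ¬ PatE p q) : ∃ c1 c2 c3 c4 d1 d2 d3 d4 : Fin 4,
    (PatE p c1 ∧ PatE c1 c2 ∧ PatE c2 c3 ∧ PatE c3 c4 ∧ PatE c4 q) ∧
    (PatE p d1 ∧ PatE d1 d2 ∧ PatE d2 d3 ∧ PatE d3 d4 ∧ PatE d4 q) ∧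
    ¬ (Even (e3a2_z p c1 + e3a2_z c1 c2 + e3a2_z c2 c3 + e3a2_z c3 c4 + e3a2_z c4 q) ↔
      Even (e3a2_z p d1 + e3a2_z d1 d2 + e3a2_z d2 d3 + e3a2_z d3 d4 + e3a2_z d4 q)) := by
  fin_cases p <;> fin_cases q
  · exact absurd (by decide) h
  · exact absurd (by decide) h
  · exact ⟨0, 1, 0, 1, 1, 2, 3, 3, by decide, by decide, by decide⟩
  · exact ⟨0, 0, 1, 2, 0, 1, 2, 3, by decide, by decide, by decide⟩
  · exact absurd (by decide) h
  · exact ⟨0, 0, 1, 0, 2, 3, 3, 2, by decide, by decide, by decide⟩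
  · exact absurd (by decide) h
  · exact ⟨0, 0, 1, 2, 2, 3, 2, 3, by decide, by decide, by decide⟩
  · exact ⟨1, 0, 1, 0, 3, 3, 2, 1, by decide, by decide, by decide⟩
  · exact absurd (by decide) h
  · exact ⟨1, 0, 0, 1, 3, 3, 2, 3, by decide, by decide, by decide⟩
  · exact absurd (by decide) h
  · exact ⟨2, 1, 0, 0, 3, 2, 1, 0, by decide, by decide, by decide⟩
  · exact ⟨2, 1, 0, 0, 3, 2, 3, 2, by decide, by decide, by decide⟩
  · exact absurd (by decide) h
  · exact absurd (by decide) h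

theorem e3a2_walkB (p q : Fin 4) (h : (p = 0 ∧ q = 3) ∨ (p = 1 ∧ q = 2)) :
    ∃ c1 c2 c3 d1 d2 d3 : Fin 4,
    (PatE p c1 ∧ PatE c1 c2 ∧ PatE c2 c3 ∧ PatE c3 q) ∧
    (PatE p d1 ∧ PatE d1 d2 ∧ PatE d2 d3 ∧ PatE d3 q) ∧
    ¬ (Even (e3a2_z p c1 + e3a2_z c1 c2 + e3a2_z c2 c3 + e3a2_z c3 q) ↔
      Even (e3a2_z p d1 + e3a2_z d1 d2 + e3a2_z d2 d3 + e3a2_z d3 q)) := by
  rcases h with ⟨rfl, rfl⟩ | ⟨rfl, rfl⟩
  · exact ⟨0, 1, 2, 1, 2, 3, by decide, by decide, by decide⟩
  · exact ⟨0, 0, 1, 2, 3, 3, by decide, by decide, by decide⟩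

theorem e3a2_nV1 {V : Type} [DecidableEq V] (E : Finset (Sym2 V)) (X : Finset V) (cl : V → Fin 4)
    {w : Fin 6 → V} (hw : Function.Injective w) :
    nV1 cl (cyc w ∩ host3 E X cl) =
      ∑ i : Fin 6, if (s(w i, w (i + 1)) ∈ host3 E X cl ∧ cl (w i) = 0 ∧ cl (w (i + 1)) = 0) then 1 else 0 := by
  rw [← Finset.card_filter]
  unfold nV1
  have : (cyc w ∩ host3 E X cl).filter (fun e => Sym2.map cl e = s(0, 0)) =
      (Finset.univ.filter (fun i : Fin 6 => s(w i, w (i + 1)) ∈ host3 E X cl ∧ cl (w i) = 0 ∧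
        cl (w (i + 1)) = 0)).image (fun i => s(w i, w (i + 1))) := by
    ext e
    simp only [Finset.mem_filter, Finset.mem_inter, Finset.mem_image, Finset.mem_univ, true_and, mem_cyc]
    constructor
    · rintro ⟨⟨⟨i, rfl⟩, h2⟩, h3⟩
      refine ⟨i, ⟨h2, ?_⟩, rfl⟩
      rw [Sym2.map_mk, Sym2.eq_iff] at h3
      rcases h3 with h3 | h3
      · exact h3
      · exact h3
    · rintro ⟨i, ⟨h2, h3, h4⟩, rfl⟩
      refine ⟨⟨⟨i, rfl⟩, h2⟩, ?_⟩
      rw [Sym2.map_mk, h3, h4]
  rw [this, Finset.card_image_of_injective _ (cyc_inj hw)]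

theorem e3a2_inj6 {V : Type} [DecidableEq V] {a b c d e f : V} (h1 : a ∉ ({b, c, d, e, f} : Finset V))
    (h2 : b ∉ ({c, d, e, f} : Finset V)) (h3 : c ∉ ({d, e, f} : Finset V)) (h4 : d ∉ ({e, f} : Finset V))
    (h5 : e ∉ ({f} : Finset V)) : Function.Injective ![a, b, c, d, e, f] := by
  simp only [Finset.mem_insert, Finset.mem_singleton, not_or] at h1 h2 h3 h4 h5
  intro i j hij
  fin_cases i <;> fin_cases j <;> simp_all

theorem e3a2_cyc6 {V : Type} [DecidableEq V] (a b c d e f : V) :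
    cyc ![a, b, c, d, e, f] = {s(a, b), s(b, c), s(c, d), s(d, e), s(e, f), s(f, a)} := by
  ext x
  rw [mem_cyc]
  constructor
  · rintro ⟨i, rfl⟩
    fin_cases i <;> simp
  · intro h
    simp only [Finset.mem_insert, Finset.mem_singleton] at h
    rcases h with rfl | rfl | rfl | rfl | rfl | rfl
    · exact ⟨0, rfl⟩
    · exact ⟨1, rfl⟩
    · exact ⟨2, rfl⟩
    · exact ⟨3, rfl⟩
    · exact ⟨4, rfl⟩
    · exact ⟨5, rfl⟩

theorem e3a2_pathA {V : Type} [Fintype V] [DecidableEq V] {E : Finset (Sym2 V)} {t ε τ : ℝ}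
    {X : Finset V} {cl : V → Fin 4} {V' : Fin 4 → Finset V} (h : Env3 E t ε τ X cl V')
    (hτt : τ < t / 8) (hn : 20 < t / 2 * nV V) (u v : V) (hu : u ∉ X) (hv : v ∉ X) (huv : u ≠ v)
    (hE : s(v, u) ∈ E) (hnp : ¬ PatE (cl u) (cl v)) (c1 c2 c3 c4 : Fin 4) (h1 : PatE (cl u) c1)
    (h2 : PatE c1 c2) (h3 : PatE c2 c3) (h4 : PatE c3 c4) (h5 : PatE c4 (cl v)) :
    ∃ C ⊆ E, IsC6 C ∧ C \ host3 E X cl = {s(v, u)} ∧ (∀ e ∈ C, ∀ x ∈ X, x ∉ e) ∧
      nV1 cl (C ∩ host3 E X cl) = e3a2_z (cl u) c1 + e3a2_z c1 c2 + e3a2_z c2 c3 +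
        e3a2_z c3 c4 + e3a2_z c4 (cl v) := by
  obtain ⟨a1, ha1, hz1, hE1, -⟩ := e3a2_step h hτt hn u u hu hu c1 h1 (e3a2_patE_symm h1) {u, v}
    ((Finset.card_le_two).trans (by norm_num))
  have hc1 : cl a1 = c1 := h.cls _ _ ha1
  have hX1 : a1 ∉ X := Finset.disjoint_left.1 (h.subX _) ha1
  obtain ⟨a2, ha2, hz2, hE2, -⟩ := e3a2_step h hτt hn a1 a1 hX1 hX1 c2 (by rw [hc1]; exact h2)
    (by rw [hc1]; exact e3a2_patE_symm h2) {a1, u, v} ((Finset.card_le_three).trans (by norm_num))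
  have hc2 : cl a2 = c2 := h.cls _ _ ha2
  have hX2 : a2 ∉ X := Finset.disjoint_left.1 (h.subX _) ha2
  obtain ⟨a3, ha3, hz3, hE3, -⟩ := e3a2_step h hτt hn a2 a2 hX2 hX2 c3 (by rw [hc2]; exact h3)
    (by rw [hc2]; exact e3a2_patE_symm h3) {a2, a1, u, v} ((Finset.card_le_four).trans (by norm_num))
  have hc3 : cl a3 = c3 := h.cls _ _ ha3
  have hX3 : a3 ∉ X := Finset.disjoint_left.1 (h.subX _) ha3
  obtain ⟨a4, ha4, hz4, hE4, hE5⟩ := e3a2_step h hτt hn a3 v hX3 hv c4 (by rw [hc3]; exact h4)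
    h5 {a3, a2, a1, u, v} ((Finset.card_le_five).trans (by norm_num))
  have hc4 : cl a4 = c4 := h.cls _ _ ha4
  have hX4 : a4 ∉ X := Finset.disjoint_left.1 (h.subX _) ha4
  simp only [Finset.mem_insert, Finset.mem_singleton, not_or] at hz1 hz2 hz3 hz4
  have hinj : Function.Injective ![u, a1, a2, a3, a4, v] := by
    apply e3a2_inj6 <;> simp only [Finset.mem_insert, Finset.mem_singleton, not_or]
    · exact ⟨Ne.symm hz1.1, Ne.symm hz2.2.1, Ne.symm hz3.2.2.1, Ne.symm hz4.2.2.2.1, huv⟩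
    · exact ⟨Ne.symm hz2.1, Ne.symm hz3.2.1, Ne.symm hz4.2.2.1, hz1.2⟩
    · exact ⟨Ne.symm hz3.1, Ne.symm hz4.2.1, hz2.2.2⟩
    · exact ⟨Ne.symm hz4.1, hz3.2.2.2⟩
    · exact hz4.2.2.2.2
  have H1 : s(u, a1) ∈ host3 E X cl := e3a2_mem_host.2 ⟨hE1, hu, hX1, by rw [hc1]; exact h1⟩
  have H2 : s(a1, a2) ∈ host3 E X cl := e3a2_mem_host.2 ⟨hE2, hX1, hX2, by rw [hc1, hc2]; exact h2⟩
  have H3 : s(a2, a3) ∈ host3 E X cl := e3a2_mem_host.2 ⟨hE3, hX2, hX3, by rw [hc2, hc3]; exact h3⟩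
  have H4 : s(a3, a4) ∈ host3 E X cl := e3a2_mem_host.2 ⟨hE4, hX3, hX4, by rw [hc3, hc4]; exact h4⟩
  have H5 : s(a4, v) ∈ host3 E X cl := e3a2_mem_host.2 ⟨hE5, hX4, hv, by rw [hc4]; exact h5⟩
  have H6 : s(v, u) ∉ host3 E X cl := fun hh => hnp (e3a2_patE_symm (e3a2_mem_host.1 hh).2.2.2)
  refine ⟨cyc ![u, a1, a2, a3, a4, v], ?_, ⟨_, hinj, rfl⟩, ?_, ?_, ?_⟩
  · rw [e3a2_cyc6]
    intro e he
    simp only [Finset.mem_insert, Finset.mem_singleton] at he
    rcases he with rfl | rfl | rfl | rfl | rfl | rfl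
    exacts [hE1, hE2, hE3, hE4, hE5, hE]
  · rw [e3a2_cyc6]
    ext e
    simp only [Finset.mem_sdiff, Finset.mem_insert, Finset.mem_singleton]
    constructor
    · rintro ⟨rfl | rfl | rfl | rfl | rfl | rfl, he⟩
      exacts [absurd H1 he, absurd H2 he, absurd H3 he, absurd H4 he, absurd H5 he, rfl]
    · rintro rfl
      exact ⟨Or.inr (Or.inr (Or.inr (Or.inr (Or.inr rfl)))), H6⟩
  · rw [e3a2_cyc6]
    intro e he x hx hxe
    simp only [Finset.mem_insert, Finset.mem_singleton] at he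
    rcases he with rfl | rfl | rfl | rfl | rfl | rfl <;> rcases Sym2.mem_iff.1 hxe with rfl | rfl <;>
      contradiction
  · rw [e3a2_nV1 E X cl hinj, Fin.sum_univ_six]
    show (if (s(u, a1) ∈ host3 E X cl ∧ cl u = 0 ∧ cl a1 = 0) then 1 else 0) +
      (if (s(a1, a2) ∈ host3 E X cl ∧ cl a1 = 0 ∧ cl a2 = 0) then 1 else 0) +
      (if (s(a2, a3) ∈ host3 E X cl ∧ cl a2 = 0 ∧ cl a3 = 0) then 1 else 0) +
      (if (s(a3, a4) ∈ host3 E X cl ∧ cl a3 = 0 ∧ cl a4 = 0) then 1 else 0) +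
      (if (s(a4, v) ∈ host3 E X cl ∧ cl a4 = 0 ∧ cl v = 0) then 1 else 0) +
      (if (s(v, u) ∈ host3 E X cl ∧ cl v = 0 ∧ cl u = 0) then 1 else 0) = _
    simp only [H1, H2, H3, H4, H5, H6, true_and, false_and, if_false, add_zero, hc1, hc2, hc3, hc4,
      e3a2_z]

theorem e3a2_pathB {V : Type} [Fintype V] [DecidableEq V] {E : Finset (Sym2 V)} {t ε τ : ℝ}
    {X : Finset V} {cl : V → Fin 4} {V' : Fin 4 → Finset V} (h : Env3 E t ε τ X cl V')
    (hτt : τ < t / 8) (hn : 20 < t / 2 * nV V) (x u v : V) (hx : x ∈ X) (hu : u ∉ X) (hv : v ∉ X)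
    (huv : u ≠ v)
    (hE : s(x, u) ∈ E) (hE' : s(v, x) ∈ E) (c1 c2 c3 : Fin 4) (h1 : PatE (cl u) c1)
    (h2 : PatE c1 c2) (h3 : PatE c2 c3) (h4 : PatE c3 (cl v)) :
    ∃ C ⊆ E, IsC6 C ∧ C \ host3 E X cl = {s(x, u), s(v, x)} ∧
      (∀ e ∈ C, ¬ (∃ x ∈ X, ∃ y ∈ X, e = s(x, y))) ∧
      nV1 cl (C ∩ host3 E X cl) = e3a2_z (cl u) c1 + e3a2_z c1 c2 + e3a2_z c2 c3 +
        e3a2_z c3 (cl v) := by
  obtain ⟨a1, ha1, hz1, hE1, -⟩ := e3a2_step h hτt hn u u hu hu c1 h1 (e3a2_patE_symm h1) {u, v}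
    ((Finset.card_le_two).trans (by norm_num))
  have hc1 : cl a1 = c1 := h.cls _ _ ha1
  have hX1 : a1 ∉ X := Finset.disjoint_left.1 (h.subX _) ha1
  obtain ⟨a2, ha2, hz2, hE2, -⟩ := e3a2_step h hτt hn a1 a1 hX1 hX1 c2 (by rw [hc1]; exact h2)
    (by rw [hc1]; exact e3a2_patE_symm h2) {a1, u, v} ((Finset.card_le_three).trans (by norm_num))
  have hc2 : cl a2 = c2 := h.cls _ _ ha2
  have hX2 : a2 ∉ X := Finset.disjoint_left.1 (h.subX _) ha2
  obtain ⟨a3, ha3, hz3, hE3, hE4⟩ := e3a2_step h hτt hn a2 v hX2 hv c3 (by rw [hc2]; exact h3)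
    h4 {a2, a1, u, v} ((Finset.card_le_four).trans (by norm_num))
  have hc3 : cl a3 = c3 := h.cls _ _ ha3
  have hX3 : a3 ∉ X := Finset.disjoint_left.1 (h.subX _) ha3
  simp only [Finset.mem_insert, Finset.mem_singleton, not_or] at hz1 hz2 hz3
  have hxn : ∀ y, y ∉ X → x ≠ y := by
    rintro y hy rfl
    exact hy hx
  have hinj : Function.Injective ![x, u, a1, a2, a3, v] := by
    apply e3a2_inj6 <;> simp only [Finset.mem_insert, Finset.mem_singleton, not_or]
    · exact ⟨hxn _ hu, hxn _ hX1, hxn _ hX2, hxn _ hX3, hxn _ hv⟩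
    · exact ⟨Ne.symm hz1.1, Ne.symm hz2.2.1, Ne.symm hz3.2.2.1, huv⟩
    · exact ⟨Ne.symm hz2.1, Ne.symm hz3.2.1, hz1.2⟩
    · exact ⟨Ne.symm hz3.1, hz2.2.2⟩
    · exact hz3.2.2.2
  have H1 : s(u, a1) ∈ host3 E X cl := e3a2_mem_host.2 ⟨hE1, hu, hX1, by rw [hc1]; exact h1⟩
  have H2 : s(a1, a2) ∈ host3 E X cl := e3a2_mem_host.2 ⟨hE2, hX1, hX2, by rw [hc1, hc2]; exact h2⟩
  have H3 : s(a2, a3) ∈ host3 E X cl := e3a2_mem_host.2 ⟨hE3, hX2, hX3, by rw [hc2, hc3]; exact h3⟩
  have H4 : s(a3, v) ∈ host3 E X cl := e3a2_mem_host.2 ⟨hE4, hX3, hv, by rw [hc3]; exact h4⟩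
  have H5 : s(x, u) ∉ host3 E X cl := fun hh => (e3a2_mem_host.1 hh).2.1 hx
  have H6 : s(v, x) ∉ host3 E X cl := fun hh => (e3a2_mem_host.1 hh).2.2.1 hx
  refine ⟨cyc ![x, u, a1, a2, a3, v], ?_, ⟨_, hinj, rfl⟩, ?_, ?_, ?_⟩
  · rw [e3a2_cyc6]
    intro e he
    simp only [Finset.mem_insert, Finset.mem_singleton] at he
    rcases he with rfl | rfl | rfl | rfl | rfl | rfl
    exacts [hE, hE1, hE2, hE3, hE4, hE']
  · rw [e3a2_cyc6]
    ext e
    simp only [Finset.mem_sdiff, Finset.mem_insert, Finset.mem_singleton]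
    constructor
    · rintro ⟨rfl | rfl | rfl | rfl | rfl | rfl, he⟩
      exacts [Or.inl rfl, absurd H1 he, absurd H2 he, absurd H3 he, absurd H4 he, Or.inr rfl]
    · rintro (rfl | rfl)
      · exact ⟨Or.inl rfl, H5⟩
      · exact ⟨Or.inr (Or.inr (Or.inr (Or.inr (Or.inr rfl)))), H6⟩
  · rw [e3a2_cyc6]
    rintro e he ⟨y, hy, z, hz, rfl⟩
    simp only [Finset.mem_insert, Finset.mem_singleton] at he
    have key : ∀ p q : V, s(y, z) = s(p, q) → p ∈ X ∧ q ∈ X := by
      intro p q hpq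
      rcases Sym2.eq_iff.1 hpq with ⟨rfl, rfl⟩ | ⟨rfl, rfl⟩
      · exact ⟨hy, hz⟩
      · exact ⟨hz, hy⟩
    rcases he with he | he | he | he | he | he
    · exact hu (key _ _ he).2
    · exact hu (key _ _ he).1
    · exact hX1 (key _ _ he).1
    · exact hX2 (key _ _ he).1
    · exact hX3 (key _ _ he).1
    · exact hv (key _ _ he).1
  · rw [e3a2_nV1 E X cl hinj, Fin.sum_univ_six]
    show (if (s(x, u) ∈ host3 E X cl ∧ cl x = 0 ∧ cl u = 0) then 1 else 0) +
      (if (s(u, a1) ∈ host3 E X cl ∧ cl u = 0 ∧ cl a1 = 0) then 1 else 0) +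
      (if (s(a1, a2) ∈ host3 E X cl ∧ cl a1 = 0 ∧ cl a2 = 0) then 1 else 0) +
      (if (s(a2, a3) ∈ host3 E X cl ∧ cl a2 = 0 ∧ cl a3 = 0) then 1 else 0) +
      (if (s(a3, v) ∈ host3 E X cl ∧ cl a3 = 0 ∧ cl v = 0) then 1 else 0) +
      (if (s(v, x) ∈ host3 E X cl ∧ cl v = 0 ∧ cl x = 0) then 1 else 0) = _
    simp only [H1, H2, H3, H4, H5, H6, true_and, false_and, if_false, add_zero, zero_add, hc1, hc2, hc3,
      e3a2_z]

/-- an atypical vertex has typical neighbours in classes 0, 3 or in classes 1, 2 -/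
theorem e3a2_atyp {V : Type} [Fintype V] [DecidableEq V] {E : Finset (Sym2 V)} {t ε τ : ℝ}
    {X : Finset V} {cl : V → Fin 4} {V' : Fin 4 → Finset V} (h : Env3 E t ε τ X cl V') (x : V)
    (hx : x ∈ X) : ∃ u v : V, u ∉ X ∧ v ∉ X ∧ s(x, u) ∈ E ∧ s(x, v) ∈ E ∧
      ((cl u = 0 ∧ cl v = 3) ∨ (cl u = 1 ∧ cl v = 2)) := by
  by_contra hcon
  push Not at hcon
  have hK : ∀ i : Fin 4, ∃ y, y ∉ X ∧ s(x, y) ∈ E ∧ ¬ PatE i (cl y) := by
    intro i
    have := h.atyp x hx i
    push Not at this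
    obtain ⟨j, hj, y, hy, hyj, hxy⟩ := this
    exact ⟨y, hy, hxy, by rw [hyj]; exact hj⟩
  obtain ⟨y0, hy0, hE0, hp0⟩ := hK 0
  obtain ⟨y1, hy1, hE1, hp1⟩ := hK 1
  obtain ⟨y2, hy2, hE2, hp2⟩ := hK 2
  obtain ⟨y3, hy3, hE3, hp3⟩ := hK 3
  have hc : ∀ u v, u ∉ X → v ∉ X → s(x, u) ∈ E → s(x, v) ∈ E →
      ¬ (cl u = 0 ∧ cl v = 3) ∧ ¬ (cl u = 1 ∧ cl v = 2) := by
    intro u v hu hv h1 h2
    have := hcon u v hu hv h1 h2
    exact ⟨fun hh => this.1 hh.1 hh.2, fun hh => this.2 hh.1 hh.2⟩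
  have hall : ∀ a0 a1 a2 a3 : Fin 4, ¬ PatE 0 a0 → ¬ PatE 1 a1 → ¬ PatE 2 a2 → ¬ PatE 3 a3 →
      (∃ p ∈ ({a0, a1, a2, a3} : Finset (Fin 4)), ∃ q ∈ ({a0, a1, a2, a3} : Finset (Fin 4)),
        (p = 0 ∧ q = 3) ∨ (p = 1 ∧ q = 2)) := by decide
  obtain ⟨p, hp, q, hq, hpq⟩ := hall _ _ _ _ hp0 hp1 hp2 hp3
  have hrep : ∀ p ∈ ({cl y0, cl y1, cl y2, cl y3} : Finset (Fin 4)), ∃ y, y ∉ X ∧ s(x, y) ∈ E ∧ cl y = p := by
    intro p hp
    simp only [Finset.mem_insert, Finset.mem_singleton] at hp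
    rcases hp with rfl | rfl | rfl | rfl
    exacts [⟨y0, hy0, hE0, rfl⟩, ⟨y1, hy1, hE1, rfl⟩, ⟨y2, hy2, hE2, rfl⟩, ⟨y3, hy3, hE3, rfl⟩]
  obtain ⟨u, hu, huE, hup⟩ := hrep p hp
  obtain ⟨v, hv, hvE, hvq⟩ := hrep q hq
  have := hc u v hu hv huE hvE
  rw [hup, hvq] at this
  rcases hpq with hpq | hpq
  · exact this.1 hpq
  · exact this.2 hpq

/-- there is an atypical vertex or a wrong edge -/
theorem e3a2_wrong {V : Type} [Fintype V] [DecidableEq V] {E : Finset (Sym2 V)} {t ε τ : ℝ}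
    {X : Finset V} {cl : V → Fin 4} {V' : Fin 4 → Finset V} (h : Env3 E t ε τ X cl V')
    (hl : Loopless E) (ht : 0 < t) (hn : 0 < nV V) (hX : X = ∅) :
    ∃ u v : V, s(v, u) ∈ E ∧ ¬ PatE (cl u) (cl v) := by
  by_contra hcon
  push Not at hcon
  have hne : ∀ i, (V' i).Nonempty := by
    intro i
    rw [← Finset.card_pos]
    have h1 := h.size i
    have h2 : 0 < t * nV V := mul_pos ht hn
    have h3 : (0 : ℝ) < ((V' i).card : ℝ) := lt_of_lt_of_le h2 h1
    exact_mod_cast h3
  obtain ⟨v, hv⟩ := hne 0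
  obtain ⟨w, hw⟩ := hne 3
  have hcv := h.cls _ _ hv
  have hcw := h.cls _ _ hw
  have hd1 := h.mindeg v
  have hd2 := h.mindeg w
  have hdeg : ∀ x, deg E x ≤ ((Finset.univ.filter (fun y => PatE (cl x) (cl y))).erase x).card := by
    intro x
    rw [deg_eq_dg (U := Finset.univ) (by intro e _; simp) x]
    unfold dg
    apply Finset.card_le_card
    intro y hy
    rw [Finset.mem_filter] at hy
    rw [Finset.mem_erase, Finset.mem_filter]
    refine ⟨(hl.ne hy.2).symm, Finset.mem_univ _, hcon _ _ ?_⟩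
    rw [Sym2.eq_swap]
    exact hy.2
  have e1 := hdeg v
  have e2 := hdeg w
  rw [Finset.card_erase_of_mem (by rw [Finset.mem_filter, hcv]; exact ⟨Finset.mem_univ _, by decide⟩)] at e1
  rw [Finset.card_erase_of_mem (by rw [Finset.mem_filter, hcw]; exact ⟨Finset.mem_univ _, by decide⟩)] at e2
  have hdisj : Disjoint (Finset.univ.filter (fun y => PatE (cl v) (cl y)))
      (Finset.univ.filter (fun y => PatE (cl w) (cl y))) := by
    rw [Finset.disjoint_filter]
    intro y _ h1 h2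
    rw [hcv] at h1
    rw [hcw] at h2
    have : ∀ c : Fin 4, PatE 0 c → ¬ PatE 3 c := by decide
    exact this _ h1 h2
  have e3 := Finset.card_union_of_disjoint hdisj
  have e4 := Finset.card_le_univ ((Finset.univ.filter (fun y => PatE (cl v) (cl y))) ∪
      (Finset.univ.filter (fun y => PatE (cl w) (cl y))))
  have e5 : 0 < (Finset.univ.filter (fun y => PatE (cl v) (cl y))).card :=
    Finset.card_pos.2 ⟨v, by rw [Finset.mem_filter, hcv]; exact ⟨Finset.mem_univ _, by decide⟩⟩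
  have e6 : 0 < (Finset.univ.filter (fun y => PatE (cl w) (cl y))).card :=
    Finset.card_pos.2 ⟨w, by rw [Finset.mem_filter, hcw]; exact ⟨Finset.mem_univ _, by decide⟩⟩
  omega

theorem switch3 (t : ℝ) (ht : 0 < t) (τ : ℝ) (hτ : 0 < τ) (hτt : τ < t / 8) :
    ∃ ε : ℝ, 0 < ε ∧ ∃ n0 : ℕ, ∀ (V : Type) [Fintype V] [DecidableEq V] (E : Finset (Sym2 V))
      (X : Finset V) (cl : V → Fin 4) (V' : Fin 4 → Finset V),
      n0 ≤ Fintype.card V → Loopless E → Env3 E t ε τ X cl V' →
      ∃ C0 ⊆ E, ∃ C1 ⊆ E, IsC6 C0 ∧ IsC6 C1 ∧ C0 \ host3 E X cl = C1 \ host3 E X cl ∧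
        (∀ x ∈ X, Even (deg (C0 \ host3 E X cl) x)) ∧
        (∀ e ∈ C0, ¬ (∃ x ∈ X, ∃ y ∈ X, e = s(x, y))) ∧
        ¬ (Even (nV1 cl (C0 ∩ host3 E X cl)) ↔ Even (nV1 cl (C1 ∩ host3 E X cl))) := by
  obtain ⟨n0, hn0⟩ := exists_nat_gt (40 / t)
  refine ⟨1, one_pos, n0, ?_⟩
  intro V _ _ E X cl V' hcard hl h
  have hn : 20 < t / 2 * nV V := by
    have h1 : (n0 : ℝ) ≤ nV V := by exact_mod_cast hcard
    have h2 : 40 / t < nV V := hn0.trans_le h1
    rw [div_lt_iff₀ ht] at h2
    nlinarith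
  have hn' : 0 < nV V := by
    by_contra hneg
    push Not at hneg
    nlinarith
  by_cases hX : X = ∅
  · obtain ⟨u, v, hE, hnp⟩ := e3a2_wrong h hl ht hn' hX
    have huv : u ≠ v := (hl.ne hE).symm
    have hu : u ∉ X := by rw [hX]; exact Finset.notMem_empty _
    have hv : v ∉ X := by rw [hX]; exact Finset.notMem_empty _
    obtain ⟨c1, c2, c3, c4, d1, d2, d3, d4, ⟨p1, p2, p3, p4, p5⟩, ⟨q1, q2, q3, q4, q5⟩, hpar⟩ :=
      e3a2_walkA _ _ hnp
    obtain ⟨C0, hC0, hc0, hs0, hx0, hN0⟩ := e3a2_pathA h hτt hn u v hu hv huv hE hnp c1 c2 c3 c4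
      p1 p2 p3 p4 p5
    obtain ⟨C1, hC1, hc1, hs1, hx1, hN1⟩ := e3a2_pathA h hτt hn u v hu hv huv hE hnp d1 d2 d3 d4
      q1 q2 q3 q4 q5
    refine ⟨C0, hC0, C1, hC1, hc0, hc1, by rw [hs0, hs1], ?_, ?_, ?_⟩
    · intro x hx
      rw [hX] at hx
      exact absurd hx (Finset.notMem_empty _)
    · rintro e he ⟨x, hx, -⟩
      rw [hX] at hx
      exact absurd hx (Finset.notMem_empty _)
    · rw [hN0, hN1]
      exact hpar
  · obtain ⟨x, hx⟩ := Finset.nonempty_iff_ne_empty.2 hX
    obtain ⟨u, v, hu, hv, huE, hvE, hcl⟩ := e3a2_atyp h x hx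
    have huv : u ≠ v := by
      rintro rfl
      rcases hcl with ⟨h1, h2⟩ | ⟨h1, h2⟩ <;> rw [h1] at h2 <;> exact absurd h2 (by decide)
    have hvE' : s(v, x) ∈ E := by rw [Sym2.eq_swap]; exact hvE
    obtain ⟨c1, c2, c3, d1, d2, d3, ⟨p1, p2, p3, p4⟩, ⟨q1, q2, q3, q4⟩, hpar⟩ :=
      e3a2_walkB _ _ hcl
    obtain ⟨C0, hC0, hc0, hs0, hx0, hN0⟩ := e3a2_pathB h hτt hn x u v hx hu hv huv huE hvE' c1 c2 c3
      p1 p2 p3 p4
    obtain ⟨C1, hC1, hc1, hs1, hx1, hN1⟩ := e3a2_pathB h hτt hn x u v hx hu hv huv huE hvE' d1 d2 d3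
      q1 q2 q3 q4
    refine ⟨C0, hC0, C1, hC1, hc0, hc1, by rw [hs0, hs1], ?_, hx0, ?_⟩
    · intro y hy
      rw [hs0]
      have hyu : y ≠ u := by rintro rfl; exact hu hy
      have hyv : y ≠ v := by rintro rfl; exact hv hy
      unfold deg
      by_cases hyx : y = x
      · subst hyx
        have : ({s(y, u), s(v, y)} : Finset (Sym2 V)).filter (fun e => y ∈ e) = {s(y, u), s(v, y)} := by
          rw [Finset.filter_eq_self]
          intro e he
          simp only [Finset.mem_insert, Finset.mem_singleton] at he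
          rcases he with rfl | rfl
          · exact Sym2.mem_mk_left _ _
          · exact Sym2.mem_mk_right _ _
        rw [this, Finset.card_pair]
        · exact even_two
        · intro heq
          rcases Sym2.eq_iff.1 heq with ⟨h1, _⟩ | ⟨_, h2⟩
          · exact hyv h1
          · exact huv h2
      · have : ({s(x, u), s(v, x)} : Finset (Sym2 V)).filter (fun e => y ∈ e) = ∅ := by
          rw [Finset.filter_eq_empty_iff]
          intro e he hye
          simp only [Finset.mem_insert, Finset.mem_singleton] at he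
          rcases he with rfl | rfl <;> rcases Sym2.mem_iff.1 hye with h1 | h1
          · exact hyx h1
          · exact hyu h1
          · exact hyv h1
          · exact hyx h1
        rw [this]
        simp
    · rw [hN0, hN1]
      exact hpar

end H15C6
end S_E3A2

section S_E3B
/-!
Module E3B.  Extremal case 3: covering non-host edges.  `n = |V|`, `S := ⋃ V' i`.

Richness: for every vertex `u` (typical or not) let `K_u` be the set of classes `i` such that `u` has at least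
`(t/10) n` neighbours in `V' i` (through host edges if `u` is typical, through edges of `FX` if `u ∈ X`).
`|K_u| ≥ 2`: for typical `u` the two classes of its row; for `u ∈ X` because `deg u ≥ (n-1)/2` and every class has at
most `(1/2 - t + 4ε) n` elements (every row consists of two classes, each of size `≥ t n`, and has size
`≤ (1/2+2ε) n`).  Given `u, w` choose `i ∈ K_u`, `j ∈ K_w`, `j ≠ 3 - i`; then some class `m` is adjacent to both
(`PatE i m`, `PatE m j`), so `P4 Hst S u w ≥ h n³`, `h = (t/10)^3/8`, with `Hst` = host edges plus edges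
`X`-typical.
Steps: `F = FXX ∪ FX ∪ FW` (inside `X`; between `X` and typical; typical-typical).
1. `cover_sparse` for `FXX` with host `H ∪ FX`: `D1`.
2. `FX \ D1` has even degree at every `x ∈ X` (`deg F x` even, `D1` even, edges of `D1` at `x` are in `F`):
   `cherry_cover` with centre in `X`, load `≤ |X| ≤ ε n`, host `H \ D1`: `D2`.
3. `cover_sparse` for `FW` (`|FW| ≤ 5 ε n²`) with host `H \ D1 \ D2`: `D3`.
`U = univ` in `cover_sparse`.
-/

set_option linter.unusedSectionVars false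
set_option linter.unusedVariables false

open Finset

namespace H15C6

theorem e3b_pat_common : ∀ i j : Fin 4, j ≠ 3 - i → ∃ m, PatE i m ∧ PatE j m := by decide

theorem e3b_pat_two : ∀ i : Fin 4, ∃ j j', j ≠ j' ∧ PatE i j ∧ PatE i j' := by decide

theorem e3b_pat_symm : ∀ i j : Fin 4, PatE i j → PatE j i := by decide

theorem e3b_pat_row : ∀ k : Fin 4, ∃ i j, j ≠ k ∧ PatE i k ∧ PatE i j := by decide

theorem e3b_pat_mem : ∀ i j : Fin 4, s(i, j) ∈
    ({s(0, 0), s(3, 3), s(0, 1), s(1, 2), s(2, 3)} : Finset (Sym2 (Fin 4))) ↔ PatE i j := by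
  decide

theorem e3b_mem_host {V : Type} [DecidableEq V] {E : Finset (Sym2 V)} {X : Finset V}
    {cl : V → Fin 4} {a b : V} :
    s(a, b) ∈ host3 E X cl ↔ s(a, b) ∈ E ∧ a ∉ X ∧ b ∉ X ∧ PatE (cl a) (cl b) := by
  unfold host3
  rw [Finset.mem_filter, Sym2.map_mk, e3b_pat_mem]
  constructor
  · rintro ⟨h1, h2, h3⟩
    exact ⟨h1, fun h => h2 a h (Sym2.mem_mk_left a b), fun h => h2 b h (Sym2.mem_mk_right a b), h3⟩
  · rintro ⟨h1, h2, h3, h4⟩
    refine ⟨h1, ?_, h4⟩
    intro x hx hxe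
    rw [Sym2.mem_iff] at hxe
    rcases hxe with rfl | rfl
    · exact h2 hx
    · exact h3 hx

theorem e3b_host_notMem {V : Type} [DecidableEq V] {E : Finset (Sym2 V)} {X : Finset V}
    {cl : V → Fin 4} {e : Sym2 V} (h : e ∈ host3 E X cl) {x : V} (hx : x ∈ X) : x ∉ e := by
  unfold host3 at h
  rw [Finset.mem_filter] at h
  exact h.2.1 x hx

theorem e3b_host_sub {V : Type} [DecidableEq V] {E : Finset (Sym2 V)} {X : Finset V}
    {cl : V → Fin 4} {e : Sym2 V} (h : e ∈ host3 E X cl) : e ∈ E := by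
  unfold host3 at h
  exact (Finset.mem_filter.1 h).1

section

variable {V : Type} [Fintype V] [DecidableEq V]

/-- many walks of length four -/
theorem e3b_P4_ge (G : Finset (Sym2 V)) (A C : Finset V) (u w : V) (k : ℕ)
    (hA : ∀ a ∈ A, s(u, a) ∈ G) (hC : ∀ c ∈ C, s(c, w) ∈ G)
    (hB : ∀ a ∈ A, ∀ c ∈ C, k ≤ cn G Finset.univ a c) :
    A.card * C.card * k ≤ P4 G Finset.univ u w := by
  classical
  set T := ((Finset.univ ×ˢ Finset.univ ×ˢ Finset.univ : Finset (V × V × V)).filter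
    (fun t => s(u, t.1) ∈ G ∧ s(t.1, t.2.1) ∈ G ∧ s(t.2.1, t.2.2) ∈ G ∧ s(t.2.2, w) ∈ G)) with hT
  have h1 : ∀ p ∈ A ×ˢ C, k ≤ (T.filter (fun t => (t.1, t.2.2) = p)).card := by
    intro p hp
    rw [Finset.mem_product] at hp
    refine (hB p.1 hp.1 p.2 hp.2).trans ?_
    unfold cn
    apply Finset.card_le_card_of_injOn (fun m => (p.1, m, p.2))
    · intro m hm
      have hm' := Finset.mem_filter.1 (Finset.mem_coe.1 hm)
      refine Finset.mem_coe.2 (Finset.mem_filter.2 ⟨?_, rfl⟩)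
      rw [hT]
      refine Finset.mem_filter.2 ⟨by simp, hA _ hp.1, hm'.2.1, hm'.2.2, hC _ hp.2⟩
    · intro m _ m' _ h
      simpa using h
  have h2 : (A ×ˢ C).card * k ≤ ∑ p ∈ A ×ˢ C, (T.filter (fun t => (t.1, t.2.2) = p)).card := by
    rw [← smul_eq_mul]
    exact Finset.card_nsmul_le_sum _ _ _ h1
  have h3 : ∑ p ∈ A ×ˢ C, (T.filter (fun t => (t.1, t.2.2) = p)).card ≤ T.card := by
    rw [← Finset.card_biUnion]
    · apply Finset.card_le_card
      intro t ht
      rw [Finset.mem_biUnion] at ht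
      obtain ⟨p, _, h⟩ := ht
      exact (Finset.mem_filter.1 h).1
    · intro p _ p' _ hne
      rw [Function.onFun, Finset.disjoint_left]
      intro t ht ht'
      exact hne ((Finset.mem_filter.1 ht).2.symm.trans (Finset.mem_filter.1 ht').2)
  rw [Finset.card_product] at h2
  exact h2.trans h3

/-- two classes with many neighbours -/
def e3b_two (G : Finset (Sym2 V)) (t : ℝ) (V' : Fin 4 → Finset V) (u : V) : Prop :=
  ∃ i j : Fin 4, i ≠ j ∧ t / 10 * nV V ≤ (dg G (V' i) u : ℝ) ∧ t / 10 * nV V ≤ (dg G (V' j) u : ℝ)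

theorem e3b_two_mono {G G' : Finset (Sym2 V)} {t : ℝ} {V' : Fin 4 → Finset V} {u : V}
    (h : G ⊆ G') (hu : e3b_two G t V' u) : e3b_two G' t V' u := by
  obtain ⟨i, j, hij, h1, h2⟩ := hu
  refine ⟨i, j, hij, h1.trans ?_, h2.trans ?_⟩
  · exact_mod_cast dg_mono h (V' i) u
  · exact_mod_cast dg_mono h (V' j) u

/-- non-neighbours of a strongly typical vertex in an adjacent class -/
theorem e3b_miss {E H : Finset (Sym2 V)} {t ε τ θ : ℝ} {X : Finset V} {cl : V → Fin 4}
    {V' : Fin 4 → Finset V} (hE : Env3 E t ε τ X cl V')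
    (hH : ∀ v, (deg (host3 E X cl \ H) v : ℝ) ≤ θ * nV V) {i m : Fin 4} (hp : PatE i m) {a : V}
    (ha : a ∈ V' i) :
    (((V' m).filter (fun y => s(a, y) ∉ H)).card : ℝ) ≤ (ε + θ) * nV V := by
  have h1 : ((V' m).filter (fun y => s(a, y) ∉ H)).card ≤
      ((V' m).filter (fun y => s(a, y) ∉ E)).card + dg (host3 E X cl \ H) (V' m) a := by
    unfold dg
    refine le_trans (Finset.card_le_card ?_) (Finset.card_union_le _ _)
    intro y hy
    simp only [Finset.mem_filter, Finset.mem_union, Finset.mem_sdiff] at hy ⊢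
    by_cases hyE : s(a, y) ∈ E
    · right
      refine ⟨hy.1, ?_, hy.2⟩
      rw [e3b_mem_host]
      refine ⟨hyE, ?_, ?_, ?_⟩
      · exact Finset.disjoint_left.1 (hE.subX i) ha
      · exact Finset.disjoint_left.1 (hE.subX m) hy.1
      · rw [hE.cls i a ha, hE.cls m y hy.1]; exact hp
    · left; exact ⟨hy.1, hyE⟩
  have h2 := (hE.strong i a ha).1 m hp
  have h3 := hH a
  have h4 : (dg (host3 E X cl \ H) (V' m) a : ℝ) ≤ (deg (host3 E X cl \ H) a : ℝ) := by
    exact_mod_cast dg_le_deg _ _ _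
  have h5 : (((V' m).filter (fun y => s(a, y) ∉ H)).card : ℝ) ≤
      (((V' m).filter (fun y => s(a, y) ∉ E)).card : ℝ) +
        (dg (host3 E X cl \ H) (V' m) a : ℝ) := by exact_mod_cast h1
  linarith

theorem e3b_typ {E H : Finset (Sym2 V)} {t ε τ θ : ℝ} {X : Finset V} {cl : V → Fin 4}
    {V' : Fin 4 → Finset V} (hE : Env3 E t ε τ X cl V')
    (hH : ∀ v, (deg (host3 E X cl \ H) v : ℝ) ≤ θ * nV V) {u : V} (hu : u ∉ X)
    (hθ : τ + θ ≤ t / 2) : e3b_two H t V' u := by
  have key : ∀ m, PatE (cl u) m → t / 10 * nV V ≤ (dg H (V' m) u : ℝ) := by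
    intro m hm
    have h1 : ((V' m).filter (fun y => s(u, y) ∉ H)).card ≤
        ((V' m).filter (fun y => s(u, y) ∉ E)).card + dg (host3 E X cl \ H) (V' m) u := by
      unfold dg
      refine le_trans (Finset.card_le_card ?_) (Finset.card_union_le _ _)
      intro y hy
      simp only [Finset.mem_filter, Finset.mem_union, Finset.mem_sdiff] at hy ⊢
      by_cases hyE : s(u, y) ∈ E
      · right
        refine ⟨hy.1, ?_, hy.2⟩
        rw [e3b_mem_host]
        refine ⟨hyE, hu, ?_, ?_⟩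
        · exact Finset.disjoint_left.1 (hE.subX m) hy.1
        · rw [hE.cls m y hy.1]; exact hm
      · left; exact ⟨hy.1, hyE⟩
    have h2 := (hE.typical u hu).1 m hm
    have h3 := hH u
    have h4 : (dg (host3 E X cl \ H) (V' m) u : ℝ) ≤ (deg (host3 E X cl \ H) u : ℝ) := by
      exact_mod_cast dg_le_deg _ _ _
    have h5 : (((V' m).filter (fun y => s(u, y) ∉ H)).card : ℝ) ≤
        (((V' m).filter (fun y => s(u, y) ∉ E)).card : ℝ) +
          (dg (host3 E X cl \ H) (V' m) u : ℝ) := by exact_mod_cast h1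
    have h6 : ((V' m).filter (fun y => s(u, y) ∈ H)).card +
        ((V' m).filter (fun y => ¬ s(u, y) ∈ H)).card = (V' m).card :=
      Finset.card_filter_add_card_filter_not _
    have h7 : (dg H (V' m) u : ℝ) + (((V' m).filter (fun y => s(u, y) ∉ H)).card : ℝ) =
        ((V' m).card : ℝ) := by
      unfold dg; exact_mod_cast h6
    have h8 := hE.size m
    have hn : (0 : ℝ) ≤ nV V := by positivity
    nlinarith
  obtain ⟨j, j', h1, h2, h3⟩ := e3b_pat_two (cl u)
  exact ⟨j, j', h1, key j h2, key j' h3⟩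

theorem e3b_rich {E H G : Finset (Sym2 V)} {t ε τ θ : ℝ} {X : Finset V} {cl : V → Fin 4}
    {V' : Fin 4 → Finset V} (hE : Env3 E t ε τ X cl V')
    (hH : ∀ v, (deg (host3 E X cl \ H) v : ℝ) ≤ θ * nV V) (ht : 0 < t)
    (hθ : ε + θ ≤ t / 8) (hHG : H ⊆ G) (hn : 100 / t ≤ nV V) {u w : V} (hu : e3b_two G t V' u)
    (hw : e3b_two G t V' w) :
    t ^ 3 / 400 * ((Finset.univ : Finset V).card : ℝ) ^ 3 ≤ (P4 G Finset.univ u w : ℝ) := by
  obtain ⟨i, i', _, hi, _⟩ := hu
  have hj : ∃ j, j ≠ 3 - i ∧ t / 10 * nV V ≤ (dg G (V' j) w : ℝ) := by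
    obtain ⟨j, j', h1, h2, h3⟩ := hw
    by_cases hj : j = 3 - i
    · exact ⟨j', fun h => h1 (hj.trans h.symm), h3⟩
    · exact ⟨j, hj, h2⟩
  obtain ⟨j, hj, hjw⟩ := hj
  obtain ⟨m, hm1, hm2⟩ := e3b_pat_common i j hj
  have hnn : (0 : ℝ) ≤ nV V := by positivity
  set A := (V' i).filter (fun y => s(u, y) ∈ G) with hA
  set C := (V' j).filter (fun y => s(w, y) ∈ G) with hC
  set k := ⌊t / 2 * nV V⌋₊ with hk
  have hkle : (k : ℝ) ≤ t / 2 * nV V := Nat.floor_le (by positivity)
  have hkge : t / 2 * nV V - 1 ≤ (k : ℝ) := (Nat.sub_one_lt_floor _).le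
  have h1 := e3b_P4_ge G A C u w k (fun a ha => (Finset.mem_filter.1 ha).2)
    (fun c hc => by rw [Sym2.eq_swap]; exact (Finset.mem_filter.1 hc).2) (by
      intro a ha c hc
      have ha' := (Finset.mem_filter.1 ha).1
      have hc' := (Finset.mem_filter.1 hc).1
      have h2 := e3b_miss hE hH hm1 ha'
      have h3 := e3b_miss hE hH hm2 hc'
      have h4 : (V' m).card ≤ cn G Finset.univ a c +
          (((V' m).filter (fun y => s(a, y) ∉ H)).card +
            ((V' m).filter (fun y => s(c, y) ∉ H)).card) := by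
        unfold cn
        refine le_trans (Finset.card_le_card (t := (Finset.univ.filter (fun m => s(a, m) ∈ G ∧
          s(m, c) ∈ G)) ∪ (((V' m).filter (fun y => s(a, y) ∉ H)) ∪
            ((V' m).filter (fun y => s(c, y) ∉ H)))) ?_) ?_
        · intro y hy
          simp only [Finset.mem_filter, Finset.mem_union, Finset.mem_univ, true_and]
          by_cases h5 : s(a, y) ∈ H
          · by_cases h6 : s(c, y) ∈ H
            · left
              exact ⟨hHG h5, hHG (by rw [Sym2.eq_swap]; exact h6)⟩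
            · right; right; exact ⟨hy, h6⟩
          · right; left; exact ⟨hy, h5⟩
        · refine (Finset.card_union_le _ _).trans (Nat.add_le_add_left
            (Finset.card_union_le _ _) _)
      have h5 : ((V' m).card : ℝ) ≤ (cn G Finset.univ a c : ℝ) +
          ((((V' m).filter (fun y => s(a, y) ∉ H)).card : ℝ) +
            (((V' m).filter (fun y => s(c, y) ∉ H)).card : ℝ)) := by exact_mod_cast h4
      have h6 := hE.size m
      have h7 : t / 2 * nV V ≤ (cn G Finset.univ a c : ℝ) := by nlinarith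
      exact_mod_cast hkle.trans h7)
  have h2 : t / 10 * nV V ≤ (A.card : ℝ) := hi
  have h3 : t / 10 * nV V ≤ (C.card : ℝ) := hjw
  have h4 : (A.card : ℝ) * (C.card : ℝ) * (k : ℝ) ≤ (P4 G Finset.univ u w : ℝ) := by
    exact_mod_cast h1
  refine le_trans ?_ h4
  have hcard : ((Finset.univ : Finset V).card : ℝ) = nV V := by simp
  rw [hcard]
  have h5 : 100 ≤ t * nV V := by
    rw [div_le_iff₀ ht] at hn
    linarith
  have h6 : t / 4 * nV V ≤ (k : ℝ) := by nlinarith
  have h7 : (0 : ℝ) ≤ t / 10 * nV V := by positivity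
  have h8 : (0 : ℝ) ≤ t / 4 * nV V := by positivity
  calc t ^ 3 / 400 * nV V ^ 3 = t / 10 * nV V * (t / 10 * nV V) * (t / 4 * nV V) := by ring
    _ ≤ (A.card : ℝ) * (C.card : ℝ) * (k : ℝ) :=
      mul_le_mul (mul_le_mul h2 h3 h7 (h7.trans h2)) h6 h8 (by positivity)

/-- splitting the number of neighbours over the classes -/
theorem e3b_deg_split (G : Finset (Sym2 V)) (V' : Fin 4 → Finset V) (v : V) :
    deg G v ≤ (∑ i : Fin 4, dg G (V' i) v) + (Finset.univ \ (Finset.univ.biUnion V')).card := by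
  rw [deg_eq_dg (U := Finset.univ) (by simp) v]
  unfold dg
  refine le_trans (Finset.card_le_card (t := (Finset.univ.biUnion (fun i => (V' i).filter
    (fun y => s(v, y) ∈ G))) ∪ (Finset.univ \ (Finset.univ.biUnion V'))) ?_) ?_
  · intro y hy
    have hy' := (Finset.mem_filter.1 hy).2
    rw [Finset.mem_union]
    by_cases h : y ∈ Finset.univ.biUnion V'
    · left
      rw [Finset.mem_biUnion] at h ⊢
      obtain ⟨i, hi, h⟩ := h
      exact ⟨i, hi, Finset.mem_filter.2 ⟨h, hy'⟩⟩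
    · right
      exact Finset.mem_sdiff.2 ⟨Finset.mem_univ y, h⟩
  · refine (Finset.card_union_le _ _).trans (Nat.add_le_add_right Finset.card_biUnion_le _)

theorem e3b_class_le {E : Finset (Sym2 V)} {t ε τ : ℝ} {X : Finset V} {cl : V → Fin 4}
    {V' : Fin 4 → Finset V} (hE : Env3 E t ε τ X cl V') (k : Fin 4) :
    ((V' k).card : ℝ) ≤ (1 / 2 + 2 * ε - t) * nV V := by
  obtain ⟨i, j, hjk, h1, h2⟩ := e3b_pat_row k
  have h3 : (V' k ∪ V' j).card ≤
      (Finset.univ.filter (fun v => ∃ j, PatE i j ∧ v ∈ V' j)).card := by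
    apply Finset.card_le_card
    intro v hv
    rw [Finset.mem_filter]
    rw [Finset.mem_union] at hv
    rcases hv with hv | hv
    · exact ⟨Finset.mem_univ v, k, h1, hv⟩
    · exact ⟨Finset.mem_univ v, j, h2, hv⟩
  rw [Finset.card_union_of_disjoint (hE.disj k j hjk.symm)] at h3
  have h4 : ((V' k).card : ℝ) + ((V' j).card : ℝ) ≤
      ((Finset.univ.filter (fun v => ∃ j, PatE i j ∧ v ∈ V' j)).card : ℝ) := by exact_mod_cast h3
  have h5 := hE.rowsize i
  have h6 := hE.size j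
  linarith

theorem e3b_atyp {E F : Finset (Sym2 V)} {t ε τ θ : ℝ} {X : Finset V} {cl : V → Fin 4}
    {V' : Fin 4 → Finset V} (hE : Env3 E t ε τ X cl V')
    (hF : ∀ x ∈ X, (deg ((E \ host3 E X cl) \ F) x : ℝ) ≤ θ * nV V) (ht : 0 < t)
    (hθ : 3 * ε + θ ≤ t / 10) (hn : 100 / t ≤ nV V) {x : V} (hx : x ∈ X) :
    e3b_two F t V' x := by
  have hnn : (0 : ℝ) ≤ nV V := by positivity
  have h1 : deg E x ≤ deg F x + deg ((E \ host3 E X cl) \ F) x := by
    refine le_trans ?_ (deg_union_le _ _ _)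
    unfold deg
    apply Finset.card_le_card
    intro e he
    rw [Finset.mem_filter] at he ⊢
    refine ⟨?_, he.2⟩
    rw [Finset.mem_union]
    by_cases h : e ∈ F
    · left; exact h
    · right
      rw [Finset.mem_sdiff, Finset.mem_sdiff]
      refine ⟨⟨he.1, fun h' => ?_⟩, h⟩
      exact e3b_host_notMem h' hx he.2
  have h2 := hE.mindeg x
  have h3 := hF x hx
  have h4 := e3b_deg_split F V' x
  have h5 := hE.few
  rw [Fin.sum_univ_four] at h4
  have h1' : (deg E x : ℝ) ≤ deg F x + deg ((E \ host3 E X cl) \ F) x := by exact_mod_cast h1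
  have h2' : nV V ≤ 2 * (deg E x : ℝ) + 1 := by exact_mod_cast h2
  have h4' : (deg F x : ℝ) ≤ ((dg F (V' 0) x : ℝ) + dg F (V' 1) x + dg F (V' 2) x +
      dg F (V' 3) x) + ((Finset.univ \ (Finset.univ.biUnion V')).card : ℝ) := by exact_mod_cast h4
  have h6 : ∀ i, (dg F (V' i) x : ℝ) ≤ (1 / 2 + 2 * ε - t) * nV V := by
    intro i
    refine le_trans ?_ (e3b_class_le hE i)
    unfold dg
    exact_mod_cast Finset.card_filter_le _ _
  have h7 : 100 ≤ t * nV V := by
    rw [div_le_iff₀ ht] at hn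
    linarith
  have h8 : (3 * ε + θ) * nV V ≤ t / 10 * nV V := mul_le_mul_of_nonneg_right hθ hnn
  by_contra hcon
  have h9 : ∀ i j : Fin 4, i ≠ j → t / 10 * nV V ≤ (dg F (V' i) x : ℝ) →
      (dg F (V' j) x : ℝ) < t / 10 * nV V := by
    intro i j hij h
    by_contra h'
    exact hcon ⟨i, j, hij, h, not_lt.1 h'⟩
  have a0 := h6 0
  have a1 := h6 1
  have a2 := h6 2
  have a3 := h6 3
  by_cases b0 : t / 10 * nV V ≤ (dg F (V' 0) x : ℝ)
  · have c1 := h9 0 1 (by decide) b0
    have c2 := h9 0 2 (by decide) b0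
    have c3 := h9 0 3 (by decide) b0
    linarith
  by_cases b1 : t / 10 * nV V ≤ (dg F (V' 1) x : ℝ)
  · have c2 := h9 1 2 (by decide) b1
    have c3 := h9 1 3 (by decide) b1
    linarith
  by_cases b2 : t / 10 * nV V ≤ (dg F (V' 2) x : ℝ)
  · have c3 := h9 2 3 (by decide) b2
    linarith
  · linarith

/-- edges of `F` inside `X` -/
def e3bXX (F : Finset (Sym2 V)) (X : Finset V) : Finset (Sym2 V) :=
  F.filter (fun e => e ∈ X.sym2)

/-- edges of `F` outside `X` -/
def e3bW (F : Finset (Sym2 V)) (X : Finset V) : Finset (Sym2 V) :=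
  F.filter (fun e => e ∈ (Finset.univ \ X).sym2)

/-- edges of `F` between `X` and the rest -/
def e3bX (F : Finset (Sym2 V)) (X : Finset V) : Finset (Sym2 V) :=
  F.filter (fun e => e ∉ X.sym2 ∧ e ∉ (Finset.univ \ X).sym2)

theorem e3b_mem_XX {F : Finset (Sym2 V)} {X : Finset V} {a b : V} :
    s(a, b) ∈ e3bXX F X ↔ s(a, b) ∈ F ∧ a ∈ X ∧ b ∈ X := by
  unfold e3bXX
  rw [Finset.mem_filter, Finset.mk_mem_sym2_iff]

theorem e3b_mem_W {F : Finset (Sym2 V)} {X : Finset V} {a b : V} :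
    s(a, b) ∈ e3bW F X ↔ s(a, b) ∈ F ∧ a ∉ X ∧ b ∉ X := by
  unfold e3bW
  rw [Finset.mem_filter, Finset.mk_mem_sym2_iff]
  simp

theorem e3b_mem_X {F : Finset (Sym2 V)} {X : Finset V} {a b : V} :
    s(a, b) ∈ e3bX F X ↔ s(a, b) ∈ F ∧ ((a ∈ X ∧ b ∉ X) ∨ (a ∉ X ∧ b ∈ X)) := by
  unfold e3bX
  rw [Finset.mem_filter, Finset.mk_mem_sym2_iff, Finset.mk_mem_sym2_iff]
  simp only [Finset.mem_sdiff, Finset.mem_univ, true_and]
  tauto

theorem e3b_union (F : Finset (Sym2 V)) (X : Finset V) :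
    F ⊆ e3bXX F X ∪ e3bX F X ∪ e3bW F X := by
  intro e he
  induction e using Sym2.ind with
  | _ a b =>
    rw [Finset.mem_union, Finset.mem_union, e3b_mem_XX, e3b_mem_X, e3b_mem_W]
    tauto

theorem e3b_XX_sub (F : Finset (Sym2 V)) (X : Finset V) : e3bXX F X ⊆ F :=
  Finset.filter_subset _ _

theorem e3b_X_sub (F : Finset (Sym2 V)) (X : Finset V) : e3bX F X ⊆ F :=
  Finset.filter_subset _ _

theorem e3b_W_sub (F : Finset (Sym2 V)) (X : Finset V) : e3bW F X ⊆ F :=
  Finset.filter_subset _ _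

theorem e3b_dXX_X (F : Finset (Sym2 V)) (X : Finset V) : Disjoint (e3bXX F X) (e3bX F X) := by
  rw [Finset.disjoint_left]
  intro e
  induction e using Sym2.ind with
  | _ a b =>
    rw [e3b_mem_XX, e3b_mem_X]
    tauto

theorem e3b_dXX_W (F : Finset (Sym2 V)) (X : Finset V) : Disjoint (e3bXX F X) (e3bW F X) := by
  rw [Finset.disjoint_left]
  intro e
  induction e using Sym2.ind with
  | _ a b =>
    rw [e3b_mem_XX, e3b_mem_W]
    tauto

theorem e3b_dX_W (F : Finset (Sym2 V)) (X : Finset V) : Disjoint (e3bX F X) (e3bW F X) := by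
  rw [Finset.disjoint_left]
  intro e
  induction e using Sym2.ind with
  | _ a b =>
    rw [e3b_mem_X, e3b_mem_W]
    tauto

theorem e3b_deg_le (G : Finset (Sym2 V)) (x : V) : deg G x ≤ Fintype.card V := by
  rw [deg_eq_dg (U := Finset.univ) (by simp) x]
  unfold dg
  exact Finset.card_filter_le _ _

theorem e3b_card_le (G : Finset (Sym2 V)) (X : Finset V) (h : ∀ e ∈ G, ∃ x ∈ X, x ∈ e) :
    G.card ≤ X.card * Fintype.card V := by
  have h1 : G ⊆ X.biUnion (fun x => G.filter (fun e => x ∈ e)) := by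
    intro e he
    obtain ⟨x, hx, hxe⟩ := h e he
    rw [Finset.mem_biUnion]
    exact ⟨x, hx, Finset.mem_filter.2 ⟨he, hxe⟩⟩
  refine (Finset.card_le_card h1).trans (Finset.card_biUnion_le.trans ?_)
  rw [← smul_eq_mul]
  exact Finset.sum_le_card_nsmul _ _ _ (fun x _ => e3b_deg_le G x)

theorem e3b_card_XX (F : Finset (Sym2 V)) (X : Finset V) :
    (e3bXX F X).card ≤ X.card * Fintype.card V := by
  apply e3b_card_le
  intro e
  induction e using Sym2.ind with
  | _ a b =>
    intro he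
    rw [e3b_mem_XX] at he
    exact ⟨a, he.2.1, Sym2.mem_mk_left a b⟩

theorem e3b_card_X (F : Finset (Sym2 V)) (X : Finset V) :
    (e3bX F X).card ≤ X.card * Fintype.card V := by
  apply e3b_card_le
  intro e
  induction e using Sym2.ind with
  | _ a b =>
    intro he
    rw [e3b_mem_X] at he
    rcases he.2 with h | h
    · exact ⟨a, h.1, Sym2.mem_mk_left a b⟩
    · exact ⟨b, h.2, Sym2.mem_mk_right a b⟩

theorem e3b_card_W {E F : Finset (Sym2 V)} {t ε τ : ℝ} {X : Finset V} {cl : V → Fin 4}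
    {V' : Fin 4 → Finset V} (hE : Env3 E t ε τ X cl V') (hl : Loopless E)
    (hF : F ⊆ E \ host3 E X cl) (hε : 0 < ε) :
    ((e3bW F X).card : ℝ) ≤ 3 * ε * nV V ^ 2 := by
  have hnn : (0 : ℝ) ≤ nV V := by positivity
  have h0 : Loopless (e3bW F X) :=
    hl.mono ((e3b_W_sub F X).trans (hF.trans Finset.sdiff_subset))
  have h1 : ∑ x ∈ (Finset.univ : Finset V), deg (e3bW F X) x = 2 * (e3bW F X).card :=
    sum_deg (by simp) h0
  have h2 : ∀ v ∈ Finset.univ.biUnion V', (deg (e3bW F X) v : ℝ) ≤ 5 * ε * nV V := by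
    intro v hv
    rw [Finset.mem_biUnion] at hv
    obtain ⟨i, _, hv⟩ := hv
    have h3 : ∀ j, (dg (e3bW F X) (V' j) v : ℝ) ≤ ε * nV V := by
      intro j
      by_cases hp : PatE i j
      · have : dg (e3bW F X) (V' j) v = 0 := by
          unfold dg
          rw [Finset.card_eq_zero, Finset.filter_eq_empty_iff]
          intro y hy hvy
          rw [e3b_mem_W] at hvy
          have h4 := Finset.mem_sdiff.1 (hF hvy.1)
          apply h4.2
          rw [e3b_mem_host, hE.cls i v hv, hE.cls j y hy]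
          exact ⟨h4.1, hvy.2.1, hvy.2.2, hp⟩
        rw [this]
        push_cast
        positivity
      · refine le_trans ?_ ((hE.strong i v hv).2 j hp)
        exact_mod_cast dg_mono ((e3b_W_sub F X).trans (hF.trans Finset.sdiff_subset)) (V' j) v
    have h4 := e3b_deg_split (e3bW F X) V' v
    rw [Fin.sum_univ_four] at h4
    have h5 : (deg (e3bW F X) v : ℝ) ≤ ((dg (e3bW F X) (V' 0) v : ℝ) + dg (e3bW F X) (V' 1) v +
        dg (e3bW F X) (V' 2) v + dg (e3bW F X) (V' 3) v) +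
        ((Finset.univ \ (Finset.univ.biUnion V')).card : ℝ) := by exact_mod_cast h4
    have h6 := hE.few
    have := h3 0
    have := h3 1
    have := h3 2
    have := h3 3
    linarith
  have h3 : ∀ v ∈ Finset.univ \ Finset.univ.biUnion V', (deg (e3bW F X) v : ℝ) ≤ nV V := by
    intro v _
    exact_mod_cast e3b_deg_le _ _
  have h4 : ((Finset.univ.biUnion V').card : ℝ) ≤ nV V := by
    exact_mod_cast Finset.card_le_univ _
  have h5 : (∑ x ∈ (Finset.univ : Finset V), (deg (e3bW F X) x : ℝ)) ≤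
      ε * nV V * nV V + nV V * (5 * ε * nV V) := by
    rw [← Finset.sum_sdiff (Finset.subset_univ (Finset.univ.biUnion V'))]
    refine add_le_add ?_ ?_
    · refine (Finset.sum_le_card_nsmul _ _ _ h3).trans ?_
      rw [nsmul_eq_mul]
      exact mul_le_mul_of_nonneg_right hE.few hnn
    · refine (Finset.sum_le_card_nsmul _ _ _ h2).trans ?_
      rw [nsmul_eq_mul]
      exact mul_le_mul_of_nonneg_right h4 (by positivity)
  have h6 : (∑ x ∈ (Finset.univ : Finset V), (deg (e3bW F X) x : ℝ)) =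
      2 * ((e3bW F X).card : ℝ) := by exact_mod_cast h1
  nlinarith

theorem e3b_even {F H D : Finset (Sym2 V)} {X : Finset V} (hD : Dec D)
    (hs : D ⊆ F ∪ H) (hXX : e3bXX F X ⊆ D) (hH : ∀ e ∈ H, ∀ x ∈ X, x ∉ e)
    {x : V} (hx : x ∈ X) (hF : Even (deg F x)) : Even (deg (e3bX F X \ D) x) := by
  have h1 : deg (e3bX F X \ D) x = deg (F \ D) x := by
    unfold deg
    congr 1
    ext e
    simp only [Finset.mem_filter, Finset.mem_sdiff]
    constructor
    · rintro ⟨⟨h1, h2⟩, h3⟩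
      exact ⟨⟨e3b_X_sub F X h1, h2⟩, h3⟩
    · rintro ⟨⟨h1, h2⟩, h3⟩
      refine ⟨⟨?_, h2⟩, h3⟩
      have h4 := e3b_union F X h1
      rw [Finset.mem_union, Finset.mem_union] at h4
      rcases h4 with (h4 | h4) | h4
      · exact absurd (hXX h4) h2
      · exact h4
      · exfalso
        unfold e3bW at h4
        have h5 := (Finset.mem_filter.1 h4).2
        rw [Finset.mem_sym2_iff] at h5
        have := h5 x h3
        rw [Finset.mem_sdiff] at this
        exact this.2 hx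
  have h2 : deg (F ∩ D) x = deg D x := by
    unfold deg
    congr 1
    ext e
    simp only [Finset.mem_filter, Finset.mem_inter]
    constructor
    · rintro ⟨⟨h1, h2⟩, h3⟩
      exact ⟨h2, h3⟩
    · rintro ⟨h2, h3⟩
      refine ⟨⟨?_, h2⟩, h3⟩
      have h4 := hs h2
      rw [Finset.mem_union] at h4
      rcases h4 with h4 | h4
      · exact h4
      · exact absurd h3 (hH e h4 x hx)
  have h3 : deg (F \ D) x + deg (F ∩ D) x = deg F x := by
    rw [← Finset.sdiff_inter_self_left F D]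
    exact deg_sdiff Finset.inter_subset_left x
  rw [← h3, Nat.even_add, h2] at hF
  rw [h1]
  exact hF.2 (hD.even x)

theorem e3b_ctr [Nonempty V] (F : Finset (Sym2 V)) (X : Finset V) :
    ∃ ctr : Sym2 V → V, ∀ e ∈ e3bX F X, ctr e ∈ e ∧ ctr e ∈ X ∧ ∀ x ∈ e, x ∈ X → x = ctr e := by
  have h : ∀ e : Sym2 V, ∃ c : V, e ∈ e3bX F X → c ∈ e ∧ c ∈ X ∧ ∀ x ∈ e, x ∈ X → x = c := by
    intro e
    induction e using Sym2.ind with
    | _ a b =>
      by_cases he : s(a, b) ∈ e3bX F X
      · rw [e3b_mem_X] at he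
        rcases he.2 with h | h
        · refine ⟨a, fun _ => ⟨Sym2.mem_mk_left a b, h.1, ?_⟩⟩
          intro x hx hxX
          rw [Sym2.mem_iff] at hx
          rcases hx with rfl | rfl
          · rfl
          · exact absurd hxX h.2
        · refine ⟨b, fun _ => ⟨Sym2.mem_mk_right a b, h.2, ?_⟩⟩
          intro x hx hxX
          rw [Sym2.mem_iff] at hx
          rcases hx with rfl | rfl
          · exact absurd hxX h.1
          · rfl
      · exact ⟨Classical.arbitrary V, fun h => absurd h he⟩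
  choose ctr hctr using h
  exact ⟨ctr, hctr⟩

/-- richness after deleting a sparse set -/
theorem e3b_P4_sdiff (H D : Finset (Sym2 V)) (h r : ℝ) (hr : 0 ≤ r)
    (hD : ∀ p, (deg (D ∩ H) p : ℝ) ≤ r * nV V) {u w : V}
    (hP : h * ((Finset.univ : Finset V).card : ℝ) ^ 3 ≤ (P4 H Finset.univ u w : ℝ)) :
    (h - 4 * r) * ((Finset.univ : Finset V).card : ℝ) ^ 3 ≤ (P4 (H \ D) Finset.univ u w : ℝ) := by
  have hnn : (0 : ℝ) ≤ nV V := by positivity
  have h1 : ∀ p, deg (D ∩ H) p ≤ ⌊r * nV V⌋₊ := fun p => Nat.le_floor (hD p)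
  have h2 := P4_sdiff (S := (Finset.univ : Finset V)) H (D ∩ H) h1 u w
  rw [show H \ (D ∩ H) = H \ D from by
    ext e; simp only [Finset.mem_sdiff, Finset.mem_inter]; tauto] at h2
  have h3 : (P4 H Finset.univ u w : ℝ) ≤ (P4 (H \ D) Finset.univ u w : ℝ) +
      4 * (⌊r * nV V⌋₊ : ℝ) * ((Finset.univ : Finset V).card : ℝ) ^ 2 := by exact_mod_cast h2
  have h4 : (⌊r * nV V⌋₊ : ℝ) ≤ r * nV V := Nat.floor_le (by positivity)
  have hcard : ((Finset.univ : Finset V).card : ℝ) = nV V := by simp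
  rw [hcard] at h3 hP ⊢
  have h5 : 4 * (⌊r * nV V⌋₊ : ℝ) * nV V ^ 2 ≤ 4 * (r * nV V) * nV V ^ 2 :=
    mul_le_mul_of_nonneg_right (by linarith) (by positivity)
  have h6 : 4 * (r * nV V) * nV V ^ 2 = 4 * r * nV V ^ 3 := by ring
  linarith

end

theorem e3b_main (t : ℝ) (ht : 0 < t) (τ : ℝ) (hτt : τ < t / 8) (ρ : ℝ) (hρ : 0 < ρ)
    (h0 ρ1 γ1 γ3 c ε : ℝ) (N1 N3 : ℕ) (hh0 : h0 = t ^ 3 / 400) (hρ1 : 0 < ρ1) (hρ1' : ρ1 ≤ ρ / 3)
    (hρ1'' : ρ1 ≤ h0 / 16) (hc : c = ρ1 / 8) (hε : 0 < ε) (hε1 : ε ≤ t / 100) (hε2 : ε ≤ γ1)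
    (hε3 : ε ≤ γ3 / 3) (hε4 : ε ≤ c) (hε5 : ε ≤ c * h0 / 400)
    (hcov1 : ∀ (V : Type) [Fintype V] [DecidableEq V] (U S : Finset V)
      (H F : Finset (Sym2 V)), N1 ≤ U.card → S ⊆ U → 1 * (U.card : ℝ) ≤ (S.card : ℝ) →
      H ⊆ U.sym2 → F ⊆ U.sym2 → Loopless H → Loopless F → Disjoint F H →
      (F.card : ℝ) ≤ γ1 * (U.card : ℝ) ^ 2 →
      (∀ v u w, s(v, u) ∈ F ∪ H → s(v, w) ∈ F ∪ H →
        h0 * (S.card : ℝ) ^ 3 ≤ (P4 H S u w : ℝ)) →
      ∃ D : Finset (Sym2 V), Dec D ∧ F ⊆ D ∧ D ⊆ F ∪ H ∧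
        ∀ p, (deg (D ∩ H) p : ℝ) ≤ ρ1 * U.card)
    (hcov3 : ∀ (V : Type) [Fintype V] [DecidableEq V] (U S : Finset V)
      (H F : Finset (Sym2 V)), N3 ≤ U.card → S ⊆ U → 1 * (U.card : ℝ) ≤ (S.card : ℝ) →
      H ⊆ U.sym2 → F ⊆ U.sym2 → Loopless H → Loopless F → Disjoint F H →
      (F.card : ℝ) ≤ γ3 * (U.card : ℝ) ^ 2 →
      (∀ v u w, s(v, u) ∈ F ∪ H → s(v, w) ∈ F ∪ H →
        (h0 / 2) * (S.card : ℝ) ^ 3 ≤ (P4 H S u w : ℝ)) →
      ∃ D : Finset (Sym2 V), Dec D ∧ F ⊆ D ∧ D ⊆ F ∪ H ∧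
        ∀ p, (deg (D ∩ H) p : ℝ) ≤ ρ / 3 * U.card)
    (V : Type) [Fintype V] [DecidableEq V]
    (E F H : Finset (Sym2 V)) (X : Finset V) (cl : V → Fin 4) (V' : Fin 4 → Finset V)
    (hn1 : N1 ≤ Fintype.card V) (hn3 : N3 ≤ Fintype.card V) (hn4 : 100 / t ≤ nV V)
    (hn5 : 1000 / h0 ≤ nV V) (hn6 : 8 / ρ1 ≤ nV V) (hl : Loopless E) (hE : Env3 E t ε τ X cl V')
    (hF : F ⊆ E \ host3 E X cl) (hH : H ⊆ host3 E X cl)
    (hHd : ∀ v, (deg (host3 E X cl \ H) v : ℝ) ≤ t / 100 * nV V)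
    (hFd : ∀ x ∈ X, (deg ((E \ host3 E X cl) \ F) x : ℝ) ≤ t / 100 * nV V)
    (hev : ∀ x ∈ X, Even (deg F x)) :
    ∃ D : Finset (Sym2 V), Dec D ∧ F ⊆ D ∧ D ⊆ F ∪ H ∧ ∀ v, (deg (D ∩ H) v : ℝ) ≤ ρ * nV V := by
  classical
  have hh0' : 0 < h0 := by rw [hh0]; positivity
  have hnn : (0 : ℝ) ≤ nV V := by positivity
  have hnpos : (0 : ℝ) < nV V := lt_of_lt_of_le (by positivity) hn4
  have hne : Nonempty V := by
    rw [← Fintype.card_pos_iff]
    exact_mod_cast hnpos
  have hcard : ((Finset.univ : Finset V).card : ℝ) = nV V := by simp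
  have hcpos : 0 < c := by rw [hc]; positivity
  -- size of X
  have hX : (X.card : ℝ) ≤ ε * nV V := by
    refine le_trans ?_ hE.few
    have : X ⊆ Finset.univ \ Finset.univ.biUnion V' := by
      intro x hx
      rw [Finset.mem_sdiff, Finset.mem_biUnion]
      refine ⟨Finset.mem_univ x, ?_⟩
      rintro ⟨i, _, hi⟩
      exact Finset.disjoint_left.1 (hE.subX i) hi hx
    exact_mod_cast Finset.card_le_card this
  have hHX : ∀ e ∈ H, ∀ x ∈ X, x ∉ e := fun e he x hx => e3b_host_notMem (hH he) hx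
  have hFE : F ⊆ E := hF.trans Finset.sdiff_subset
  have hHE : H ⊆ E := fun e he => e3b_host_sub (hH he)
  have hFH : Disjoint F H := by
    rw [Finset.disjoint_left]
    intro e he he'
    exact (Finset.mem_sdiff.1 (hF he)).2 (hH he')
  have hlF : Loopless F := hl.mono hFE
  have hlH : Loopless H := hl.mono hHE
  set FXX := e3bXX F X with hFXX
  set FX := e3bX F X with hFX
  set FW := e3bW F X with hFW
  -- richness
  have htyp : ∀ u, u ∉ X → e3b_two H t V' u := fun u hu =>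
    e3b_typ hE hHd hu (by linarith)
  have hatyp : ∀ u, u ∈ X → e3b_two (H ∪ FX) t V' u := by
    intro u hu
    obtain ⟨i, j, hij, h1, h2⟩ := e3b_atyp hE hFd ht (by linarith) hn4 hu
    have key : ∀ i, dg F (V' i) u ≤ dg (H ∪ FX) (V' i) u := by
      intro i
      unfold dg
      apply Finset.card_le_card
      intro y hy
      rw [Finset.mem_filter] at hy ⊢
      refine ⟨hy.1, Finset.mem_union_right _ ?_⟩
      rw [hFX, e3b_mem_X]
      exact ⟨hy.2, Or.inl ⟨hu, Finset.disjoint_left.1 (hE.subX i) hy.1⟩⟩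
    exact ⟨i, j, hij, h1.trans (by exact_mod_cast key i), h2.trans (by exact_mod_cast key j)⟩
  have hrichH : ∀ u w, u ∉ X → w ∉ X →
      h0 * ((Finset.univ : Finset V).card : ℝ) ^ 3 ≤ (P4 H Finset.univ u w : ℝ) := by
    intro u w hu hw
    rw [hh0]
    exact e3b_rich hE hHd ht (by linarith) (Finset.Subset.refl H) hn4 (htyp u hu) (htyp w hw)
  have hrichG : ∀ u w,
      h0 * ((Finset.univ : Finset V).card : ℝ) ^ 3 ≤ (P4 (H ∪ FX) Finset.univ u w : ℝ) := by
    intro u w
    have h1 : ∀ u, e3b_two (H ∪ FX) t V' u := by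
      intro u
      by_cases hu : u ∈ X
      · exact hatyp u hu
      · exact e3b_two_mono Finset.subset_union_left (htyp u hu)
    rw [hh0]
    exact e3b_rich hE hHd ht (by linarith) Finset.subset_union_left hn4 (h1 u) (h1 w)
  -- step 1
  have hXXc : (FXX.card : ℝ) ≤ ε * nV V ^ 2 := by
    have h1 : (FXX.card : ℝ) ≤ (X.card : ℝ) * nV V := by exact_mod_cast e3b_card_XX F X
    nlinarith
  have hXc : (FX.card : ℝ) ≤ ε * nV V ^ 2 := by
    have h1 : (FX.card : ℝ) ≤ (X.card : ℝ) * nV V := by exact_mod_cast e3b_card_X F X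
    nlinarith
  obtain ⟨D1, hD1, hD1a, hD1b, hD1c⟩ := hcov1 V Finset.univ Finset.univ (H ∪ FX) FXX
    (by rw [Finset.card_univ]; exact hn1) (Finset.Subset.refl _) (by rw [one_mul]) (by simp)
    (by simp) (hlH.union (hlF.mono (e3b_X_sub F X))) (hlF.mono (e3b_XX_sub F X))
    (by
      rw [Finset.disjoint_union_right]
      exact ⟨hFH.mono_left (e3b_XX_sub F X), e3b_dXX_X F X⟩)
    (by
      rw [hcard]
      exact hXXc.trans (mul_le_mul_of_nonneg_right hε2 (by positivity)))
    (fun v u w _ _ => hrichG u w)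
  rw [hcard] at hD1c
  have hD1s : D1 ⊆ F ∪ H := by
    refine hD1b.trans (Finset.union_subset ((e3b_XX_sub F X).trans Finset.subset_union_left)
      (Finset.union_subset Finset.subset_union_right
        ((e3b_X_sub F X).trans Finset.subset_union_left)))
  have hD1H : ∀ p, (deg (D1 ∩ H) p : ℝ) ≤ ρ1 * nV V := by
    intro p
    refine le_trans ?_ (hD1c p)
    exact_mod_cast deg_mono (Finset.inter_subset_inter_left Finset.subset_union_left) p
  -- step 2
  obtain ⟨ctr, hctr⟩ := e3b_ctr F X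
  set q := ⌈c * nV V⌉₊ with hq
  have hq1 : c * nV V ≤ (q : ℝ) := Nat.le_ceil _
  have hq2 : (q : ℝ) ≤ c * nV V + 1 := (Nat.ceil_lt_add_one (by positivity)).le
  have hq3 : 1 ≤ q := by
    rw [Nat.one_le_iff_ne_zero, ← Nat.pos_iff_ne_zero, hq, Nat.ceil_pos]
    positivity
  have hn5' : 1000 ≤ h0 * nV V := by
    rw [div_le_iff₀ hh0'] at hn5
    linarith
  have hn6' : 8 ≤ ρ1 * nV V := by
    rw [div_le_iff₀ hρ1] at hn6
    linarith
  have hrich2 : ∀ u w, u ∉ X → w ∉ X →
      h0 / 2 * ((Finset.univ : Finset V).card : ℝ) ^ 3 ≤ (P4 (H \ D1) Finset.univ u w : ℝ) := by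
    intro u w hu hw
    refine le_trans ?_ (e3b_P4_sdiff H D1 h0 ρ1 hρ1.le hD1H (hrichH u w hu hw))
    apply mul_le_mul_of_nonneg_right _ (by positivity)
    linarith
  have hnum : 18 * ((FX \ D1).card : ℝ) / q + 12 * (X.card : ℕ) + 12 * q + 8 <
      h0 / 2 * ((Finset.univ : Finset V).card : ℝ) := by
    rw [hcard]
    have h1 : ((FX \ D1).card : ℝ) ≤ ε * nV V ^ 2 := by
      refine le_trans ?_ hXc
      exact_mod_cast Finset.card_le_card Finset.sdiff_subset
    have hqpos : (0 : ℝ) < q := lt_of_lt_of_le (by positivity) hq1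
    have h2 : 18 * ((FX \ D1).card : ℝ) / q ≤ 18 / 400 * (h0 * nV V) := by
      rw [div_le_iff₀ hqpos]
      have h3 : ε * nV V ^ 2 ≤ c * h0 / 400 * nV V ^ 2 :=
        mul_le_mul_of_nonneg_right hε5 (by positivity)
      have h4 : 18 / 400 * (h0 * nV V) * (c * nV V) ≤ 18 / 400 * (h0 * nV V) * q :=
        mul_le_mul_of_nonneg_left hq1 (by positivity)
      have h5 : 18 / 400 * (h0 * nV V) * (c * nV V) = 18 * (c * h0 / 400 * nV V ^ 2) := by ring
      linarith
    have h3 : (X.card : ℝ) ≤ c * nV V := hX.trans (mul_le_mul_of_nonneg_right hε4 hnn)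
    have h4 : c * nV V ≤ 1 / 128 * (h0 * nV V) := by
      have : c ≤ 1 / 128 * h0 := by rw [hc]; linarith
      have h5 := mul_le_mul_of_nonneg_right this hnn
      linarith
    linarith
  obtain ⟨D2, hD2, hD2a, hD2b, hD2c⟩ := cherry_cover Finset.univ (H \ D1) (FX \ D1) ctr (h0 / 2)
    X.card q hq3 (hlH.mono Finset.sdiff_subset)
    (hlF.mono (Finset.sdiff_subset.trans (e3b_X_sub F X)))
    (Disjoint.mono (Finset.sdiff_subset.trans (e3b_X_sub F X)) Finset.sdiff_subset hFH)
    (fun f hf => (hctr f (Finset.sdiff_subset hf)).1)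
    (by
      intro v
      by_cases hv : v ∈ X
      · have h1 := e3b_even hD1 hD1s hD1a hHX hv (hev v hv)
        unfold deg at h1
        rw [show (FX \ D1).filter (fun f => ctr f = v) = (FX \ D1).filter (fun e => v ∈ e) from ?_]
        · exact h1
        · apply Finset.filter_congr
          intro f hf
          have h2 := hctr f (Finset.sdiff_subset hf)
          constructor
          · rintro rfl
            exact h2.1
          · intro h3
            exact (h2.2.2 v h3 hv).symm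
      · rw [Finset.filter_false_of_mem]
        · simp
        · intro f hf h1
          exact hv (h1 ▸ (hctr f (Finset.sdiff_subset hf)).2.1))
    (by
      intro v u w _ h1 h2 h3 h4
      have h5 := hctr _ (Finset.sdiff_subset h1)
      rw [h3] at h5
      have h6 := Finset.sdiff_subset h1
      have h7 := Finset.sdiff_subset h2
      rw [e3b_mem_X] at h6 h7
      have hu : u ∉ X := by
        rcases h6.2 with h | h
        · exact absurd h5.2.1 h.2
        · exact h.1
      have hw : w ∉ X := by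
        rcases h7.2 with h | h
        · exact h.2
        · exact absurd h5.2.1 h.1
      exact hrich2 u w hu hw)
    (by
      intro p
      have h1 : (FX \ D1).filter (fun f => p ∈ f ∧ ctr f ≠ p) ⊆ X.image (fun x => s(p, x)) := by
        intro f hf
        rw [Finset.mem_filter] at hf
        have h2 := hctr f (Finset.sdiff_subset hf.1)
        rw [Finset.mem_image]
        refine ⟨ctr f, h2.2.1, ?_⟩
        exact ((Sym2.mem_and_mem_iff hf.2.2.symm).1 ⟨hf.2.1, h2.1⟩).symm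
      exact (Finset.card_le_card h1).trans Finset.card_image_le)
    hnum
  have hD12 : Disjoint D1 D2 := by
    rw [Finset.disjoint_left]
    intro e h1 h2
    have h3 := hD2b h2
    rw [Finset.mem_union, Finset.mem_sdiff, Finset.mem_sdiff] at h3
    rcases h3 with h3 | h3
    · exact h3.2 h1
    · exact h3.2 h1
  have hD2s : D2 ⊆ FX ∪ H := by
    refine hD2b.trans (Finset.union_subset (Finset.sdiff_subset.trans Finset.subset_union_left)
      (Finset.sdiff_subset.trans Finset.subset_union_right))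
  have hD2H : ∀ p, (deg (D2 ∩ H) p : ℝ) ≤ ρ1 * nV V := by
    intro p
    have h1 : D2 ∩ H ⊆ D2 ∩ (H \ D1) := by
      intro e he
      rw [Finset.mem_inter] at he ⊢
      exact ⟨he.1, Finset.mem_sdiff.2 ⟨he.2, fun h => Finset.disjoint_left.1 hD12 h he.1⟩⟩
    have h2 : deg (D2 ∩ H) p ≤ 2 * (X.card + q) := (deg_mono h1 p).trans (hD2c p)
    have h3 : (deg (D2 ∩ H) p : ℝ) ≤ 2 * ((X.card : ℝ) + q) := by exact_mod_cast h2
    have h4 : (X.card : ℝ) ≤ c * nV V := hX.trans (mul_le_mul_of_nonneg_right hε4 hnn)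
    have h5 : c * nV V = 1 / 8 * (ρ1 * nV V) := by rw [hc]; ring
    linarith
  have hrich3 : ∀ u w, u ∉ X → w ∉ X →
      h0 / 2 * ((Finset.univ : Finset V).card : ℝ) ^ 3 ≤
        (P4 (H \ (D1 ∪ D2)) Finset.univ u w : ℝ) := by
    intro u w hu hw
    refine le_trans ?_ (e3b_P4_sdiff H (D1 ∪ D2) h0 (2 * ρ1) (by positivity) ?_
      (hrichH u w hu hw))
    · apply mul_le_mul_of_nonneg_right _ (by positivity)
      linarith
    · intro p
      have h1 : deg ((D1 ∪ D2) ∩ H) p ≤ deg (D1 ∩ H) p + deg (D2 ∩ H) p := by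
        rw [Finset.union_inter_distrib_right]
        exact deg_union_le _ _ _
      have h2 : (deg ((D1 ∪ D2) ∩ H) p : ℝ) ≤ deg (D1 ∩ H) p + deg (D2 ∩ H) p := by
        exact_mod_cast h1
      have h3 := hD1H p
      have h4 := hD2H p
      linarith
  -- step 3
  obtain ⟨D3, hD3, hD3a, hD3b, hD3c⟩ := hcov3 V Finset.univ Finset.univ (H \ (D1 ∪ D2)) FW
    (by rw [Finset.card_univ]; exact hn3) (Finset.Subset.refl _) (by rw [one_mul]) (by simp)
    (by simp) (hlH.mono Finset.sdiff_subset) (hlF.mono (e3b_W_sub F X))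
    (Disjoint.mono (e3b_W_sub F X) Finset.sdiff_subset hFH)
    (by
      rw [hcard]
      refine (e3b_card_W hE hl hF hε).trans (mul_le_mul_of_nonneg_right ?_ (by positivity))
      linarith)
    (by
      intro v u w h1 h2
      have key : ∀ u, s(v, u) ∈ FW ∪ (H \ (D1 ∪ D2)) → u ∉ X := by
        intro u h
        rw [Finset.mem_union] at h
        rcases h with h | h
        · rw [hFW, e3b_mem_W] at h
          exact h.2.2
        · intro hu
          exact hHX _ (Finset.sdiff_subset h) u hu (Sym2.mem_mk_right v u)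
      exact hrich3 u w (key u h1) (key w h2))
  rw [hcard] at hD3c
  have hD123 : Disjoint (D1 ∪ D2) D3 := by
    rw [Finset.disjoint_left]
    intro e h1 h2
    have h3 := hD3b h2
    rw [Finset.mem_union] at h3
    rcases h3 with h3 | h3
    · rw [Finset.mem_union] at h1
      rcases h1 with h1 | h1
      · have h4 := hD1b h1
        rw [Finset.mem_union, Finset.mem_union] at h4
        rcases h4 with h4 | h4 | h4
        · exact Finset.disjoint_left.1 (e3b_dXX_W F X) h4 h3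
        · exact Finset.disjoint_left.1 hFH (e3b_W_sub F X h3) h4
        · exact Finset.disjoint_left.1 (e3b_dX_W F X) h4 h3
      · have h4 := hD2s h1
        rw [Finset.mem_union] at h4
        rcases h4 with h4 | h4
        · exact Finset.disjoint_left.1 (e3b_dX_W F X) h4 h3
        · exact Finset.disjoint_left.1 hFH (e3b_W_sub F X h3) h4
    · exact (Finset.mem_sdiff.1 h3).2 h1
  refine ⟨D1 ∪ D2 ∪ D3, (hD1.union hD2 hD12).union hD3 hD123, ?_, ?_, ?_⟩
  · intro e he
    have h1 := e3b_union F X he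
    rw [Finset.mem_union, Finset.mem_union] at h1
    rw [Finset.mem_union, Finset.mem_union]
    rcases h1 with (h1 | h1) | h1
    · exact Or.inl (Or.inl (hD1a h1))
    · by_cases h2 : e ∈ D1
      · exact Or.inl (Or.inl h2)
      · exact Or.inl (Or.inr (hD2a (Finset.mem_sdiff.2 ⟨h1, h2⟩)))
    · exact Or.inr (hD3a h1)
  · refine Finset.union_subset (Finset.union_subset hD1s (hD2s.trans
      (Finset.union_subset_union_left (e3b_X_sub F X)))) (hD3b.trans ?_)
    exact Finset.union_subset_union (e3b_W_sub F X) Finset.sdiff_subset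
  · intro p
    have h1 : deg ((D1 ∪ D2 ∪ D3) ∩ H) p ≤
        deg (D1 ∩ H) p + deg (D2 ∩ H) p + deg (D3 ∩ H) p := by
      rw [Finset.union_inter_distrib_right, Finset.union_inter_distrib_right]
      exact (deg_union_le _ _ _).trans (Nat.add_le_add_right (deg_union_le _ _ _) _)
    have h2 : D3 ∩ H ⊆ D3 ∩ (H \ (D1 ∪ D2)) := by
      intro e he
      rw [Finset.mem_inter] at he ⊢
      exact ⟨he.1, Finset.mem_sdiff.2 ⟨he.2, fun h => Finset.disjoint_left.1 hD123 h he.1⟩⟩
    have h3 : (deg (D3 ∩ H) p : ℝ) ≤ ρ / 3 * nV V := by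
      refine le_trans ?_ (hD3c p)
      exact_mod_cast deg_mono h2 p
    have h4 : (deg ((D1 ∪ D2 ∪ D3) ∩ H) p : ℝ) ≤
        deg (D1 ∩ H) p + deg (D2 ∩ H) p + deg (D3 ∩ H) p := by exact_mod_cast h1
    have h5 := hD1H p
    have h6 := hD2H p
    have h7 : ρ1 * nV V ≤ ρ / 3 * nV V := mul_le_mul_of_nonneg_right hρ1' hnn
    linarith

theorem cover3 (t : ℝ) (ht : 0 < t) (τ : ℝ) (hτ : 0 < τ) (hτt : τ < t / 8) (ρ : ℝ) (hρ : 0 < ρ) :
    ∃ ε θ : ℝ, 0 < ε ∧ 0 < θ ∧ ∃ n0 : ℕ, ∀ (V : Type) [Fintype V] [DecidableEq V]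
      (E F H : Finset (Sym2 V)) (X : Finset V) (cl : V → Fin 4) (V' : Fin 4 → Finset V),
      n0 ≤ Fintype.card V → Loopless E → Env3 E t ε τ X cl V' →
      F ⊆ E \ host3 E X cl → H ⊆ host3 E X cl →
      (∀ v, (deg (host3 E X cl \ H) v : ℝ) ≤ θ * nV V) →
      (∀ x ∈ X, (deg ((E \ host3 E X cl) \ F) x : ℝ) ≤ θ * nV V) →
      (∀ x ∈ X, Even (deg F x)) →
      ∃ D : Finset (Sym2 V), Dec D ∧ F ⊆ D ∧ D ⊆ F ∪ H ∧ ∀ v, (deg (D ∩ H) v : ℝ) ≤ ρ * nV V := by
  have hh0 : 0 < t ^ 3 / 400 := by positivity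
  set h0 := t ^ 3 / 400 with hh0e
  have hρ1 : 0 < min (ρ / 3) (h0 / 16) := lt_min (by positivity) (by positivity)
  set ρ1 := min (ρ / 3) (h0 / 16) with hρ1e
  obtain ⟨γ1, hγ1, N1, hcov1⟩ := cover_sparse h0 1 ρ1 hh0 one_pos hρ1
  obtain ⟨γ3, hγ3, N3, hcov3⟩ := cover_sparse (h0 / 2) 1 (ρ / 3) (by positivity) one_pos
    (by positivity)
  set c := ρ1 / 8 with hc
  have hcpos : 0 < c := by rw [hc]; positivity
  have hε : 0 < min (min (t / 100) γ1) (min (γ3 / 3) (min c (c * h0 / 400))) :=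
    lt_min (lt_min (by positivity) hγ1) (lt_min (by positivity) (lt_min hcpos (by positivity)))
  refine ⟨min (min (t / 100) γ1) (min (γ3 / 3) (min c (c * h0 / 400))), t / 100, hε,
    by positivity, N1 + N3 + ⌈100 / t⌉₊ + ⌈1000 / h0⌉₊ + ⌈8 / ρ1⌉₊, ?_⟩
  intro V _ _ E F H X cl V' hn hl hE hF hH hHd hFd hev
  have hle : ∀ x : ℝ, ⌈x⌉₊ ≤ Fintype.card V → x ≤ nV V := fun x hx =>
    (Nat.le_ceil x).trans (by exact_mod_cast hx)
  exact e3b_main t ht τ hτt ρ hρ h0 ρ1 γ1 γ3 c _ N1 N3 hh0e hρ1 (min_le_left _ _)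
    (min_le_right _ _) hc hε ((min_le_left _ _).trans (min_le_left _ _))
    ((min_le_left _ _).trans (min_le_right _ _)) ((min_le_right _ _).trans (min_le_left _ _))
    ((min_le_right _ _).trans ((min_le_right _ _).trans (min_le_left _ _)))
    ((min_le_right _ _).trans ((min_le_right _ _).trans (min_le_right _ _))) hcov1 hcov3
    V E F H X cl V' (by omega) (by omega) (hle _ (by omega)) (hle _ (by omega))
    (hle _ (by omega)) hl hE hF hH hHd hFd hev

end H15C6
end S_E3B

section S_E3C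
/-!
Module E3C.  Extremal case 3, conclusion.
`τ3` from `e3t (t/2)`; `τ := min (τ3/8) (t/16)`, `ρ := τ3/8`.  `prep3` and `switch3` give `C0, C1`.
`F := (E \ host) \ C0` (`= (E \ host) \ C1`), `H := host \ (C0 ∪ C1)`; degrees of `F` at `x ∈ X` are even
(`deg E x` even, no host edge at `x`, `C0 \ host` even at `x`).  `cover3` gives `D`.
`G_j := (host \ D) \ C_j`, `j = 0, 1`; `E = D ⊔ C_j ⊔ G_j`, so `G_j` has even degrees and `6 ∣ |G_j|`; the numbers
`nV1 G_0`, `nV1 G_1` have different parity, choose the even one and apply `e3t` with `U := univ \ X`.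
(Missing pattern neighbours in `U` of a typical vertex: at most `2 τ n + ε n + ρ n + 2`.)
-/

open Finset

namespace H15C6

theorem e3c_mono {V : Type} [Fintype V] [DecidableEq V] {E : Finset (Sym2 V)} {t ε ε' τ : ℝ}
    {X : Finset V} {cl : V → Fin 4} {V' : Fin 4 → Finset V} (h : Env3 E t ε τ X cl V')
    (hε : ε ≤ ε') : Env3 E t ε' τ X cl V' := by
  have hn : (0 : ℝ) ≤ nV V := Nat.cast_nonneg _
  refine ⟨h.disj, h.subX, h.cls, h.size, ?_, ?_, ?_, h.typical, h.atyp, h.mindeg⟩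
  · exact h.few.trans (mul_le_mul_of_nonneg_right hε hn)
  · intro i
    exact (h.rowsize i).trans (mul_le_mul_of_nonneg_right (by linarith) hn)
  · intro i v hv
    refine ⟨fun j hj => ((h.strong i v hv).1 j hj).trans (mul_le_mul_of_nonneg_right hε hn),
      fun j hj => ((h.strong i v hv).2 j hj).trans (mul_le_mul_of_nonneg_right hε hn)⟩

theorem e3c_nV1_union {V : Type} [DecidableEq V] (cl : V → Fin 4) {E F : Finset (Sym2 V)}
    (h : Disjoint E F) : nV1 cl (E ∪ F) = nV1 cl E + nV1 cl F := by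
  unfold nV1
  rw [Finset.filter_union, Finset.card_union_of_disjoint (Finset.disjoint_filter_filter h)]

theorem e3c_pat : ∀ a b : Fin 4, (s(a, b) ∈
    ({s(0, 0), s(3, 3), s(0, 1), s(1, 2), s(2, 3)} : Finset (Sym2 (Fin 4)))) ↔ PatE a b := by
  decide

theorem e3c_host {V : Type} [DecidableEq V] {E : Finset (Sym2 V)} {X : Finset V}
    {cl : V → Fin 4} {x y : V} : s(x, y) ∈ host3 E X cl ↔
      s(x, y) ∈ E ∧ (x ∉ X ∧ y ∉ X) ∧ PatE (cl x) (cl y) := by
  unfold host3
  rw [Finset.mem_filter, Sym2.map_mk, e3c_pat]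
  constructor
  · rintro ⟨h1, h2, h3⟩
    exact ⟨h1, ⟨fun hx => h2 x hx (Sym2.mem_mk_left x y), fun hy => h2 y hy (Sym2.mem_mk_right x y)⟩,
      h3⟩
  · rintro ⟨h1, ⟨h2, h2'⟩, h3⟩
    refine ⟨h1, fun z hz hze => ?_, h3⟩
    rw [Sym2.mem_iff] at hze
    rcases hze with rfl | rfl
    · exact h2 hz
    · exact h2' hz

theorem e3c_host_sub {V : Type} [DecidableEq V] (E : Finset (Sym2 V)) (X : Finset V)
    (cl : V → Fin 4) : host3 E X cl ⊆ E := Finset.filter_subset _ _

theorem e3c_host_deg {V : Type} [DecidableEq V] {E : Finset (Sym2 V)} {X : Finset V}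
    {cl : V → Fin 4} {x : V} (hx : x ∈ X) : deg (host3 E X cl) x = 0 := by
  unfold deg
  rw [Finset.card_eq_zero, Finset.filter_eq_empty_iff]
  intro e he hxe
  unfold host3 at he
  exact (Finset.mem_filter.1 he).2.1 x hx hxe

theorem e3c_deg_le {V : Type} [DecidableEq V] {C : Finset (Sym2 V)} (h : IsC6 C) (x : V) :
    deg C x ≤ 2 := by
  obtain ⟨v, hv, rfl⟩ := h
  by_cases hx : ∃ i, v i = x
  · obtain ⟨i, rfl⟩ := hx
    rw [deg_cyc_mem hv]
  · rw [deg_cyc_notMem (fun i hi => hx ⟨i, hi⟩)]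
    omega

/-- the number of vertices joined to `x` by an edge of `F` -/
theorem e3c_nbr {V : Type} [Fintype V] [DecidableEq V] (F : Finset (Sym2 V)) (x : V) :
    (Finset.univ.filter (fun y => s(x, y) ∈ F)).card ≤ deg F x :=
  dg_le_deg F Finset.univ x

/-- the last step for one of the two cycles -/
theorem e3c_last {V : Type} [Fintype V] [DecidableEq V] {E D C F H : Finset (Sym2 V)}
    {t ε τ ρ τ3 : ℝ} {X : Finset V} {cl : V → Fin 4} {V' : Fin 4 → Finset V} {n3 : ℕ}
    (ht : 0 < t) (hτ3 : 0 < τ3) (hε : 0 < ε) (hε1 : ε ≤ 1 / 8) (hε2 : ε ≤ τ3 / 8)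
    (hτ : τ ≤ τ3 / 8) (hρ : ρ ≤ τ3 / 8)
    (h3 : ∀ (U : Finset V) (E : Finset (Sym2 V)) (cl : V → Fin 4), n3 ≤ U.card → E ⊆ U.sym2 →
      Loopless E → EvenDeg E → 6 ∣ E.card → (∀ x y, s(x, y) ∈ E → PatE (cl x) (cl y)) →
      (∀ i : Fin 4, t / 2 * U.card ≤ ((U.filter (fun x => cl x = i)).card : ℝ)) →
      (∀ x ∈ U, ((U.filter (fun y => PatE (cl x) (cl y) ∧ s(x, y) ∉ E)).card : ℝ) ≤ τ3 * U.card) →
      Even (nV1 cl E) → Dec E)
    (hn : 2 * n3 ≤ Fintype.card V) (hn2 : 2 ≤ τ3 / 8 * nV V)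
    (hl : Loopless E) (he : EvenDeg E) (h6 : 6 ∣ E.card) (henv : Env3 E t ε τ X cl V')
    (hD : Dec D) (hDE : D ⊆ F ∪ H) (hF : F ⊆ E \ host3 E X cl) (hH : H ⊆ host3 E X cl)
    (hdeg : ∀ v, (deg (D ∩ H) v : ℝ) ≤ ρ * nV V) (hC : IsC6 C) (hCE : C ⊆ E)
    (hFC : Disjoint F C) (hHC : Disjoint H C)
    (hFD : (E \ host3 E X cl) \ C ⊆ D)
    (hev : Even (nV1 cl ((host3 E X cl \ D) \ C))) : Dec E := by
  set host := host3 E X cl with hhost
  set G := (host \ D) \ C with hG
  have hhE : host ⊆ E := e3c_host_sub E X cl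
  have hDE' : D ⊆ E := by
    intro e he
    rcases Finset.mem_union.1 (hDE he) with h | h
    · exact (Finset.mem_sdiff.1 (hF h)).1
    · exact hhE (hH h)
  have hDC : Disjoint D C := by
    rw [Finset.disjoint_left]
    intro e he heC
    rcases Finset.mem_union.1 (hDE he) with h | h
    · exact Finset.disjoint_left.1 hFC h heC
    · exact Finset.disjoint_left.1 hHC h heC
  have hGE : G = (E \ D) \ C := by
    ext e
    simp only [hG, Finset.mem_sdiff]
    constructor
    · rintro ⟨⟨h1, h2⟩, h4⟩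
      exact ⟨⟨hhE h1, h2⟩, h4⟩
    · rintro ⟨⟨h1, h2⟩, h4⟩
      refine ⟨⟨?_, h2⟩, h4⟩
      by_contra hc
      exact h2 (hFD (Finset.mem_sdiff.2 ⟨Finset.mem_sdiff.2 ⟨h1, hc⟩, h4⟩))
  have hCD : C ⊆ E \ D := fun e he => Finset.mem_sdiff.2 ⟨hCE he, fun hd =>
    Finset.disjoint_left.1 hDC hd he⟩
  have hEG : E = (D ∪ C) ∪ G := by
    rw [hGE]
    ext e
    simp only [Finset.mem_union, Finset.mem_sdiff]
    constructor
    · intro h
      by_cases h1 : e ∈ D
      · exact Or.inl (Or.inl h1)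
      · by_cases h2 : e ∈ C
        · exact Or.inl (Or.inr h2)
        · exact Or.inr ⟨⟨h, h1⟩, h2⟩
    · rintro ((h | h) | h)
      · exact hDE' h
      · exact hCE h
      · exact h.1.1
  have hdisj : Disjoint (D ∪ C) G := by
    rw [Finset.disjoint_left]
    intro e he heG
    rw [hG, Finset.mem_sdiff, Finset.mem_sdiff] at heG
    rcases Finset.mem_union.1 he with h | h
    · exact heG.1.2 h
    · exact heG.2 h
  have hnn : (0 : ℝ) ≤ nV V := Nat.cast_nonneg _
  -- the set `X` is small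
  have hX : (X.card : ℝ) ≤ ε * nV V := by
    refine le_trans ?_ henv.few
    norm_cast
    apply Finset.card_le_card
    intro x hx
    rw [Finset.mem_sdiff]
    refine ⟨Finset.mem_univ x, fun h => ?_⟩
    rw [Finset.mem_biUnion] at h
    obtain ⟨i, _, hi⟩ := h
    exact Finset.disjoint_left.1 (henv.subX i) hi hx
  set U : Finset V := Finset.univ \ X with hU
  have hUc : (U.card : ℝ) + X.card = nV V := by
    have h1 : U.card + X.card = Fintype.card V := by
      rw [hU, Finset.card_sdiff_add_card_eq_card (Finset.subset_univ X), Finset.card_univ]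
    have h2 : ((U.card + X.card : ℕ) : ℝ) = ((Fintype.card V : ℕ) : ℝ) := by rw [h1]
    push_cast at h2
    exact h2
  have hU78 : 7 / 8 * nV V ≤ (U.card : ℝ) := by
    have : ε * nV V ≤ 1 / 8 * nV V := mul_le_mul_of_nonneg_right hε1 hnn
    linarith
  have hUn : (U.card : ℝ) ≤ nV V := by
    have : (0 : ℝ) ≤ X.card := Nat.cast_nonneg _
    linarith
  have hmemU : ∀ x, x ∈ U ↔ x ∉ X := by
    intro x; rw [hU, Finset.mem_sdiff]; simp
  have hDecG : Dec G := by
    refine h3 U G cl ?_ ?_ ?_ ?_ ?_ ?_ ?_ ?_ hev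
    · have h1 : ((2 * n3 : ℕ) : ℝ) ≤ nV V := by exact_mod_cast hn
      push_cast at h1
      have h2 : (n3 : ℝ) ≤ (U.card : ℝ) := by
        have : (0 : ℝ) ≤ n3 := Nat.cast_nonneg _
        linarith
      exact_mod_cast h2
    · intro e he
      induction e using Sym2.ind with
      | _ a b =>
        rw [hG, Finset.mem_sdiff, Finset.mem_sdiff] at he
        have h1 := (e3c_host.1 he.1.1).2.1
        rw [Finset.mk_mem_sym2_iff, hmemU, hmemU]
        exact h1
    · refine hl.mono ?_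
      rw [hGE]
      exact (Finset.sdiff_subset).trans Finset.sdiff_subset
    · rw [hGE]
      exact (he.sdiff hD.even hDE').sdiff hC.even hCD
    · have h1 : E.card = D.card + C.card + G.card := by
        conv_lhs => rw [hEG]
        rw [Finset.card_union_of_disjoint hdisj, Finset.card_union_of_disjoint hDC]
      have h2 := hD.six_dvd
      have h3' : 6 ∣ C.card := by rw [hC.card]
      have h4 : 6 ∣ D.card + C.card + G.card := h1 ▸ h6
      exact (Nat.dvd_add_right (dvd_add h2 h3')).1 h4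
    · intro x y hxy
      rw [hG, Finset.mem_sdiff, Finset.mem_sdiff] at hxy
      exact (e3c_host.1 hxy.1.1).2.2
    · intro i
      have h1 := henv.size i
      have h2 : ((V' i).card : ℝ) ≤ ((U.filter (fun x => cl x = i)).card : ℝ) := by
        norm_cast
        apply Finset.card_le_card
        intro x hx
        rw [Finset.mem_filter, hmemU]
        exact ⟨Finset.disjoint_left.1 (henv.subX i) hx, henv.cls i x hx⟩
      have h5 : t / 2 * U.card ≤ t / 2 * nV V := mul_le_mul_of_nonneg_left hUn (by linarith)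
      have h6' : t / 2 * nV V ≤ t * nV V := mul_le_mul_of_nonneg_right (by linarith) hnn
      linarith
    · intro x hx
      have hxX := (hmemU x).1 hx
      have hsub : (U.filter (fun y => PatE (cl x) (cl y) ∧ s(x, y) ∉ G)) ⊆
          ((Finset.univ \ (Finset.univ.biUnion V')) ∪
          ((Finset.univ.filter (fun j => PatE (cl x) j)).biUnion
            (fun j => (V' j).filter (fun y => s(x, y) ∉ E)))) ∪
          ((Finset.univ.filter (fun y => s(x, y) ∈ D ∩ H)) ∪
          (Finset.univ.filter (fun y => s(x, y) ∈ C))) := by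
        intro y hy
        rw [Finset.mem_filter] at hy
        obtain ⟨hyU, hpat, hyG⟩ := hy
        have hyX := (hmemU y).1 hyU
        by_cases h1 : y ∈ Finset.univ.biUnion V'
        · have h1' := h1
          rw [Finset.mem_biUnion] at h1
          obtain ⟨j, _, hj⟩ := h1
          have hcl := henv.cls j y hj
          by_cases h2 : s(x, y) ∈ E
          · have h4 : s(x, y) ∈ host := e3c_host.2 ⟨h2, ⟨hxX, hyX⟩, hpat⟩
            apply Finset.mem_union_right
            by_cases h5 : s(x, y) ∈ C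
            · apply Finset.mem_union_right
              rw [Finset.mem_filter]
              exact ⟨Finset.mem_univ y, h5⟩
            · have h6' : s(x, y) ∈ D := by
                by_contra h7
                apply hyG
                rw [hG, Finset.mem_sdiff, Finset.mem_sdiff]
                exact ⟨⟨h4, h7⟩, h5⟩
              apply Finset.mem_union_left
              rw [Finset.mem_filter]
              refine ⟨Finset.mem_univ y, Finset.mem_inter.2 ⟨h6', ?_⟩⟩
              rcases Finset.mem_union.1 (hDE h6') with h | h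
              · exact absurd h4 (Finset.mem_sdiff.1 (hF h)).2
              · exact h
          · apply Finset.mem_union_left
            apply Finset.mem_union_right
            rw [Finset.mem_biUnion]
            refine ⟨j, ?_, ?_⟩
            · rw [Finset.mem_filter]
              exact ⟨Finset.mem_univ j, hcl ▸ hpat⟩
            · rw [Finset.mem_filter]
              exact ⟨hj, h2⟩
        · apply Finset.mem_union_left
          apply Finset.mem_union_left
          rw [Finset.mem_sdiff]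
          exact ⟨Finset.mem_univ y, h1⟩
      have hcard := Finset.card_le_card hsub
      have hA := henv.few
      have hB : ((((Finset.univ.filter (fun j => PatE (cl x) j)).biUnion
            (fun j => (V' j).filter (fun y => s(x, y) ∉ E)))).card : ℝ) ≤ 4 * (τ * nV V) := by
        have h1 : ((((Finset.univ.filter (fun j => PatE (cl x) j)).biUnion
            (fun j => (V' j).filter (fun y => s(x, y) ∉ E)))).card : ℝ) ≤
            ∑ j ∈ (Finset.univ.filter (fun j => PatE (cl x) j)),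
              (((V' j).filter (fun y => s(x, y) ∉ E)).card : ℝ) := by
          exact_mod_cast Finset.card_biUnion_le
        refine h1.trans ?_
        have h2 : ∑ j ∈ (Finset.univ.filter (fun j => PatE (cl x) j)),
              (((V' j).filter (fun y => s(x, y) ∉ E)).card : ℝ) ≤
            ∑ j ∈ (Finset.univ.filter (fun j => PatE (cl x) j)), τ * nV V := by
          refine Finset.sum_le_sum fun j hj => ?_
          exact (henv.typical x hxX).1 j (Finset.mem_filter.1 hj).2
        refine h2.trans ?_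
        rw [Finset.sum_const, nsmul_eq_mul]
        have h4 : (0 : ℝ) ≤ τ * nV V := by
          have h5 := (henv.typical x hxX)
          obtain ⟨j, hj⟩ : ∃ j, PatE (cl x) j := by
            generalize cl x = a
            revert a
            decide
          exact (Nat.cast_nonneg _).trans (h5.1 j hj)
        refine mul_le_mul_of_nonneg_right ?_ h4
        have h5 : (Finset.univ.filter (fun j => PatE (cl x) j)).card ≤ 4 := by
          refine (Finset.card_le_univ _).trans ?_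
          simp
        exact_mod_cast h5
      have hCc : ((Finset.univ.filter (fun y => s(x, y) ∈ D ∩ H)).card : ℝ) ≤ ρ * nV V := by
        refine le_trans ?_ (hdeg x)
        exact_mod_cast e3c_nbr (D ∩ H) x
      have hDc : ((Finset.univ.filter (fun y => s(x, y) ∈ C)).card : ℝ) ≤ 2 := by
        have := (e3c_nbr C x).trans (e3c_deg_le hC x)
        exact_mod_cast this
      have htot : ((U.filter (fun y => PatE (cl x) (cl y) ∧ s(x, y) ∉ G)).card : ℝ) ≤
          ε * nV V + 4 * (τ * nV V) + (ρ * nV V + 2) := by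
        have h1 := Finset.card_union_le ((Finset.univ \ (Finset.univ.biUnion V')) ∪
          ((Finset.univ.filter (fun j => PatE (cl x) j)).biUnion
            (fun j => (V' j).filter (fun y => s(x, y) ∉ E))))
          ((Finset.univ.filter (fun y => s(x, y) ∈ D ∩ H)) ∪
          (Finset.univ.filter (fun y => s(x, y) ∈ C)))
        have h2 := Finset.card_union_le (Finset.univ \ (Finset.univ.biUnion V'))
          ((Finset.univ.filter (fun j => PatE (cl x) j)).biUnion
            (fun j => (V' j).filter (fun y => s(x, y) ∉ E)))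
        have h4 := Finset.card_union_le (Finset.univ.filter (fun y => s(x, y) ∈ D ∩ H))
          (Finset.univ.filter (fun y => s(x, y) ∈ C))
        have h5 : ((U.filter (fun y => PatE (cl x) (cl y) ∧ s(x, y) ∉ G)).card : ℝ) ≤
            ((Finset.univ \ (Finset.univ.biUnion V')).card : ℝ) +
            (((Finset.univ.filter (fun j => PatE (cl x) j)).biUnion
            (fun j => (V' j).filter (fun y => s(x, y) ∉ E))).card : ℝ) +
            (((Finset.univ.filter (fun y => s(x, y) ∈ D ∩ H)).card : ℝ) +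
            ((Finset.univ.filter (fun y => s(x, y) ∈ C)).card : ℝ)) := by
          norm_cast
          omega
        linarith
      refine htot.trans ?_
      have e1 : ε * nV V ≤ τ3 / 8 * nV V := mul_le_mul_of_nonneg_right hε2 hnn
      have e2 : τ * nV V ≤ τ3 / 8 * nV V := mul_le_mul_of_nonneg_right hτ hnn
      have e3 : ρ * nV V ≤ τ3 / 8 * nV V := mul_le_mul_of_nonneg_right hρ hnn
      have e4 : τ3 * (7 / 8 * nV V) ≤ τ3 * U.card := mul_le_mul_of_nonneg_left hU78 hτ3.le
      linarith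
  rw [hEG]
  exact (hD.union hC.dec hDC).union hDecG hdisj

theorem ext3_dec (t : ℝ) (ht : 0 < t) :
    ∃ ε : ℝ, 0 < ε ∧ ∃ n0 : ℕ, ∀ (V : Type) [Fintype V] [DecidableEq V] (E : Finset (Sym2 V)),
      n0 ≤ Fintype.card V → Loopless E → EvenDeg E → 6 ∣ E.card →
      (∀ v, Fintype.card V ≤ 2 * deg E v + 1) → Ext3 E t ε → Dec E := by
  obtain ⟨τ3, hτ3, n3, h3⟩ := e3t (t / 2) (by linarith)
  set τ : ℝ := min (τ3 / 8) (t / 16) with hτ_def
  have hτ : 0 < τ := lt_min (by linarith) (by linarith)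
  have hτa : τ ≤ τ3 / 8 := min_le_left _ _
  have hτb : τ ≤ t / 16 := min_le_right _ _
  obtain ⟨ε1, hε1, hprep⟩ := prep3 t ht τ hτ (by linarith)
  obtain ⟨εs, hεs, ns, hswitch⟩ := switch3 t ht τ hτ (by linarith)
  obtain ⟨εc, θ, hεc, hθ, nc, hcover⟩ := cover3 t ht τ hτ (by linarith) (τ3 / 8) (by linarith)
  set ε : ℝ := min (min ε1 (min (εs / 2) (εc / 2))) (min (1 / 16) (τ3 / 16)) with hε_def
  have hε : 0 < ε := by
    refine lt_min (lt_min hε1 (lt_min (by linarith) (by linarith))) (lt_min (by norm_num) (by linarith))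
  have hεa : ε ≤ ε1 := (min_le_left _ _).trans (min_le_left _ _)
  have hεb : ε ≤ εs / 2 := (min_le_left _ _).trans ((min_le_right _ _).trans (min_le_left _ _))
  have hεc' : ε ≤ εc / 2 := (min_le_left _ _).trans ((min_le_right _ _).trans (min_le_right _ _))
  have hεd : ε ≤ 1 / 16 := (min_le_right _ _).trans (min_le_left _ _)
  have hεe : ε ≤ τ3 / 16 := (min_le_right _ _).trans (min_le_right _ _)
  obtain ⟨np, hprep⟩ := hprep ε hε hεa
  obtain ⟨na, hna⟩ := exists_nat_ge (4 / θ)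
  obtain ⟨nb, hnb⟩ := exists_nat_ge (16 / τ3)
  refine ⟨ε, hε, np + ns + nc + 2 * n3 + na + nb, ?_⟩
  intro V _ _ E hn hl he h6 hmin hext
  obtain ⟨X, cl, V', henv⟩ := hprep V E (by omega) hl hmin hext
  obtain ⟨C0, hC0E, C1, hC1E, hC0, hC1, hCC, hCX, -, hpar⟩ :=
    hswitch V E X cl V' (by omega) hl (e3c_mono henv (by linarith))
  set host := host3 E X cl with hhost
  have hhE : host ⊆ E := e3c_host_sub E X cl
  have hnθ : 4 ≤ θ * nV V := by
    have h1 : (na : ℝ) ≤ nV V := by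
      have : na ≤ Fintype.card V := by omega
      exact_mod_cast this
    have h2 : 4 / θ ≤ nV V := hna.trans h1
    rw [div_le_iff₀ hθ] at h2
    linarith
  have hnτ : 2 ≤ τ3 / 8 * nV V := by
    have h1 : (nb : ℝ) ≤ nV V := by
      have : nb ≤ Fintype.card V := by omega
      exact_mod_cast this
    have h2 : 16 / τ3 ≤ nV V := hnb.trans h1
    rw [div_le_iff₀ hτ3] at h2
    linarith
  have hmemCC : ∀ e, e ∉ host → (e ∈ C0 ↔ e ∈ C1) := by
    intro e he
    have h1 : e ∈ C0 \ host ↔ e ∈ C1 \ host := by rw [hCC]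
    rw [Finset.mem_sdiff, Finset.mem_sdiff] at h1
    tauto
  obtain ⟨D, hD, hFD, hDFH, hDdeg⟩ := hcover V E ((E \ host) \ C0) (host \ (C0 ∪ C1)) X cl V'
    (by omega) hl (e3c_mono henv (by linarith)) Finset.sdiff_subset Finset.sdiff_subset (by
      intro v
      have h1 : host \ (host \ (C0 ∪ C1)) ⊆ C0 ∪ C1 := by
        intro e he
        rw [Finset.mem_sdiff, Finset.mem_sdiff] at he
        by_contra hc
        exact he.2 ⟨he.1, hc⟩
      have h2 := (deg_mono h1 v).trans (deg_union_le C0 C1 v)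
      have h4 := e3c_deg_le hC0 v
      have h5 := e3c_deg_le hC1 v
      have h6' : deg (host \ (host \ (C0 ∪ C1))) v ≤ 4 := by omega
      have h7 : ((deg (host \ (host \ (C0 ∪ C1))) v : ℕ) : ℝ) ≤ 4 := by exact_mod_cast h6'
      exact h7.trans hnθ) (by
      intro x _
      have h1 : (E \ host) \ ((E \ host) \ C0) ⊆ C0 := by
        intro e he
        rw [Finset.mem_sdiff, Finset.mem_sdiff] at he
        by_contra hc
        exact he.2 (Finset.mem_sdiff.2 ⟨Finset.mem_sdiff.2 he.1, hc⟩)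
      have h2 := deg_mono h1 x
      have h4 := e3c_deg_le hC0 x
      have h7 : ((deg ((E \ host) \ ((E \ host) \ C0)) x : ℕ) : ℝ) ≤ 4 := by
        have : deg ((E \ host) \ ((E \ host) \ C0)) x ≤ 4 := by omega
        exact_mod_cast this
      exact h7.trans hnθ) (by
      intro x hx
      have h1 : deg (E \ host) x = deg E x := by
        have h2 := deg_sdiff hhE x
        rw [hhost, e3c_host_deg hx] at h2
        rw [hhost]
        omega
      have h2 : (E \ host) \ C0 = (E \ host) \ (C0 \ host) := by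
        ext e
        simp only [Finset.mem_sdiff]
        tauto
      have h4 : C0 \ host ⊆ E \ host := Finset.sdiff_subset_sdiff hC0E (Finset.Subset.refl _)
      have h5 := deg_sdiff h4 x
      rw [h2]
      have h6' : Even (deg (E \ host) x) := h1 ▸ he x
      rw [← h5] at h6'
      exact (Nat.even_add.1 h6').2 (hCX x hx))
  -- parities
  have hFC1 : (E \ host) \ C1 = (E \ host) \ C0 := by
    ext e
    simp only [Finset.mem_sdiff]
    constructor
    · rintro ⟨h1, h2⟩
      exact ⟨h1, fun h => h2 ((hmemCC e h1.2).1 h)⟩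
    · rintro ⟨h1, h2⟩
      exact ⟨h1, fun h => h2 ((hmemCC e h1.2).2 h)⟩
  have hlast : ∀ C : Finset (Sym2 V), IsC6 C → C ⊆ E → C ⊆ C0 ∪ C1 →
      (E \ host) \ C = (E \ host) \ C0 → Even (nV1 cl ((host \ D) \ C)) → Dec E := by
    intro C hC hCE hCs hCF hev
    refine e3c_last (ε := 2 * ε) (n3 := n3) ht hτ3 (by linarith) (by linarith) (by linarith) hτa
      (le_refl (τ3 / 8)) (fun U E cl => h3 V U E cl) (by omega) hnτ hl he h6 henv hD hDFH
      Finset.sdiff_subset Finset.sdiff_subset hDdeg hC hCE ?_ ?_ ?_ hev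
    · rw [← hCF]
      exact Finset.sdiff_disjoint
    · rw [Finset.disjoint_left]
      intro e he heC
      exact (Finset.mem_sdiff.1 he).2 (hCs heC)
    · rw [← hhost, hCF]; exact hFD
  have hDC : ∀ C : Finset (Sym2 V), C ⊆ C0 ∪ C1 → (E \ host) \ C = (E \ host) \ C0 →
      Disjoint D C := by
    intro C hCs hCF
    rw [Finset.disjoint_left]
    intro e he heC
    rcases Finset.mem_union.1 (hDFH he) with h | h
    · rw [← hCF] at h
      exact (Finset.mem_sdiff.1 h).2 heC
    · exact (Finset.mem_sdiff.1 h).2 (hCs heC)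
  have hcount : ∀ C : Finset (Sym2 V), C ⊆ C0 ∪ C1 → (E \ host) \ C = (E \ host) \ C0 →
      nV1 cl ((host \ D) \ C) + nV1 cl (C ∩ host) = nV1 cl (host \ D) := by
    intro C hCs hCF
    rw [← e3c_nV1_union]
    · congr 1
      ext e
      simp only [Finset.mem_union, Finset.mem_sdiff, Finset.mem_inter]
      constructor
      · rintro (⟨h1, _⟩ | ⟨h1, h2⟩)
        · exact h1
        · exact ⟨h2, fun hd => Finset.disjoint_left.1 (hDC C hCs hCF) hd h1⟩
      · intro h1
        by_cases h2 : e ∈ C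
        · exact Or.inr ⟨h2, h1.1⟩
        · exact Or.inl ⟨h1, h2⟩
    · rw [Finset.disjoint_left]
      intro e he heC
      exact (Finset.mem_sdiff.1 he).2 (Finset.mem_inter.1 heC).1
  have hc0 := hcount C0 Finset.subset_union_left rfl
  have hc1 := hcount C1 Finset.subset_union_right hFC1
  by_cases hp : Even (nV1 cl ((host \ D) \ C0))
  · exact hlast C0 hC0 hC0E Finset.subset_union_left rfl hp
  · refine hlast C1 hC1 hC1E Finset.subset_union_right hFC1 ?_
    by_contra hp1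
    apply hpar
    rw [← hhost] at *
    have e0 : (Even (nV1 cl (host \ D)) ↔ ¬ Even (nV1 cl (C0 ∩ host))) := by
      rw [← hc0, Nat.even_add]; tauto
    have e1 : (Even (nV1 cl (host \ D)) ↔ ¬ Even (nV1 cl (C1 ∩ host))) := by
      rw [← hc1, Nat.even_add]; tauto
    tauto

end H15C6
end S_E3C

section S_UPPER
/-!
Module UPPER.  The upper bound.  `ε2 := min` of the constants of `ext1_dec`, `ext2_dec`; `g t :=` the constant of
`ext3_dec t` for `t > 0` (choice), `1` otherwise; `stability ε2 g`; `n0` = maximum of all the `n0`'s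
(for `t ∈ T`, a finite set).
-/

open Finset

namespace H15C6

theorem upper_nbrs {V : Type} [Fintype V] [DecidableEq V] {E : Finset (Sym2 V)} {ε ε' : ℝ}
    (h : ε ≤ ε') {A T : Finset V} (hA : NbrsLike E ε A T) : NbrsLike E ε' A T := by
  intro a ha
  have h1 : ε * nV V ≤ ε' * nV V := mul_le_mul_of_nonneg_right h (Nat.cast_nonneg _)
  exact ⟨(hA a ha).1.trans h1, (hA a ha).2.trans h1⟩

theorem upper_ext1 {V : Type} [Fintype V] [DecidableEq V] {E : Finset (Sym2 V)} {ε ε' : ℝ}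
    (h : ε ≤ ε') (hE : Ext1 E ε) : Ext1 E ε' := by
  obtain ⟨A, B, h1, h2, h3, h4, h5⟩ := hE
  have h0 : (1 / 2 - ε') * nV V ≤ (1 / 2 - ε) * nV V :=
    mul_le_mul_of_nonneg_right (by linarith) (Nat.cast_nonneg _)
  exact ⟨A, B, h1, h0.trans h2, h0.trans h3, upper_nbrs h h4, upper_nbrs h h5⟩

theorem upper_ext2 {V : Type} [Fintype V] [DecidableEq V] {E : Finset (Sym2 V)} {ε ε' : ℝ}
    (h : ε ≤ ε') (hE : Ext2 E ε) : Ext2 E ε' := by
  obtain ⟨A, B, h1, h2, h3, h4, h5⟩ := hE
  have h0 : (1 / 2 - ε') * nV V ≤ (1 / 2 - ε) * nV V :=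
    mul_le_mul_of_nonneg_right (by linarith) (Nat.cast_nonneg _)
  exact ⟨A, B, h1, h0.trans h2, h0.trans h3, upper_nbrs h h4, upper_nbrs h h5⟩

theorem upper : ∃ n0 : ℕ, ∀ (V : Type) [Fintype V] [DecidableEq V] (E : Finset (Sym2 V)),
    n0 ≤ Fintype.card V → Loopless E → EvenDeg E → 6 ∣ E.card →
    (∀ v, Fintype.card V ≤ 2 * deg E v + 1) →
    ((Fintype.card V % 24 ≠ 5 ∧ Fintype.card V % 24 ≠ 13) ∨ ∀ v, Fintype.card V ≤ 2 * deg E v) →
    Dec E := by
  classical
  obtain ⟨e1, he1, n1, hn1⟩ := ext1_dec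
  obtain ⟨e2, he2, n2, hn2⟩ := ext2_dec
  have h3 : ∀ t : ℝ, ∃ ε : ℝ, 0 < ε ∧ ∃ n0 : ℕ, 0 < t →
      ∀ (V : Type) [Fintype V] [DecidableEq V] (E : Finset (Sym2 V)),
      n0 ≤ Fintype.card V → Loopless E → EvenDeg E → 6 ∣ E.card →
      (∀ v, Fintype.card V ≤ 2 * deg E v + 1) → Ext3 E t ε → Dec E := by
    intro t
    by_cases ht : 0 < t
    · obtain ⟨ε, hε, n0, hn0⟩ := ext3_dec t ht
      exact ⟨ε, hε, n0, fun _ => hn0⟩
    · exact ⟨1, one_pos, 0, fun h => absurd h ht⟩
  choose g hg n3 hn3 using h3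
  obtain ⟨η, μ, T, hη, hη', hμ, hμ', hT, n4, hn4⟩ :=
    stability (min e1 e2) (lt_min he1 he2) g (fun t _ => hg t)
  obtain ⟨n5, hn5⟩ := ne4_dec η μ hη hη' hμ hμ'
  refine ⟨max (max n1 n2) (max (max n4 n5) (T.sup n3)), ?_⟩
  intro V _ _ E hn hl hev h6 hdeg h24
  have hN1 : n1 ≤ Fintype.card V := (le_max_left _ _).trans ((le_max_left _ _).trans hn)
  have hN2 : n2 ≤ Fintype.card V := (le_max_right _ _).trans ((le_max_left _ _).trans hn)
  have hN4 : n4 ≤ Fintype.card V :=
    (le_max_left _ _).trans ((le_max_left _ _).trans ((le_max_right _ _).trans hn))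
  have hN5 : n5 ≤ Fintype.card V :=
    (le_max_right _ _).trans ((le_max_left _ _).trans ((le_max_right _ _).trans hn))
  have hN3 : T.sup n3 ≤ Fintype.card V :=
    (le_max_right _ _).trans ((le_max_right _ _).trans hn)
  rcases hn4 V E hN4 hl hdeg with h | h | h | ⟨t, ht, h⟩
  · exact hn5 V E hN5 hl hev h6 hdeg h
  · exact hn1 V E hN1 hl hev h6 hdeg h24 (upper_ext1 (min_le_left _ _) h)
  · exact hn2 V E hN2 hl hev h6 hdeg (upper_ext2 (min_le_right _ _) h)
  · exact hn3 t (hT t ht) V E ((Finset.le_sup ht).trans hN3) hl hev h6 hdeg h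

end H15C6
end S_UPPER
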