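import Pool.Agent.H15.C6F.FA
import Pool.Agent.H15.C6F.FE
import Pool.Agent.H15.C6F.FF

section S_LB1A
/-!
Module LB1A (part of LB1).  Lower bound, two blocks with a common cut vertex.

`c6_block`: if every edge of the six-cycle `C` is inside `AX = insert x A0` or inside `BX = insert x B0` (`A0, B0`
disjoint, `x` in neither), then `C` is inside `AX` or inside `BX`.  Proof: let `g i : Fin 3` be the kind of `v i`
(`0` if in `A0`, `1` if in `B0`, `2` otherwise, i.e. `= x`); consecutive kinds are never `{0,1}`, at most one `i` has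
kind 2; then not both kinds 0 and 1 occur (`decide` over `Fin 6 → Fin 3`, 729 functions).
`dec_block`: hence `Dec E → 6 ∣ (E ∩ AX.sym2).card` for every `E` all of whose edges are inside `AX` or `BX` (induction on
`Dec`; a cycle inside `AX` has 6 edges there, a cycle inside `BX` has none inside `AX` because there are no
loops and `AX ∩ BX = {x}`).
`block_even`, `block_odd`: graphs on `Option (Fin (s-1))` (`none` is the cut vertex).
* `s` even, `j ≤ 5`: complete graph minus the edges `s(none, i)`, `i < 2j+1`, and `s(m, m+1)` for odd `m ≥ 2j+1`, `m+1 ≤ s-2`.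
  Every `some v` has degree `s - 2`, `none` has degree `s - 2 - 2j`; `2|E| = s(s-2) - 2j`.
* `s` odd, `3 ≤ l ≤ 8`: complete graph minus the cycle `0,1,...,l-1`: degrees `s - 1` or `s - 3`;
  `2|E| = s(s-1) - 2l`.
`block` : every residue mod 6 is attained.
-/

open Finset

namespace H15C6

set_option maxRecDepth 100000 in
theorem lb1a_fin (g : Fin 6 → Fin 3) :
    (∀ i : Fin 6, (g i ≠ 1 ∧ g (i + 1) ≠ 1) ∨ (g i ≠ 0 ∧ g (i + 1) ≠ 0)) →
    (∀ i j : Fin 6, g i = 2 → g j = 2 → i = j) →
    (∀ i, g i ≠ 1) ∨ (∀ i, g i ≠ 0) := by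
  revert g
  decide +kernel

theorem c6_block {V : Type} [DecidableEq V] (A0 B0 : Finset V) (x : V) (hd : Disjoint A0 B0)
    (hxA : x ∉ A0) (hxB : x ∉ B0) (C : Finset (Sym2 V)) (hC : IsC6 C)
    (h : ∀ e ∈ C, e ∈ (insert x A0).sym2 ∨ e ∈ (insert x B0).sym2) :
    C ⊆ (insert x A0).sym2 ∨ C ⊆ (insert x B0).sym2 := by
  obtain ⟨v, hv, rfl⟩ := hC
  have hcons : ∀ i : Fin 6, (v i ∈ insert x A0 ∧ v (i + 1) ∈ insert x A0) ∨
      (v i ∈ insert x B0 ∧ v (i + 1) ∈ insert x B0) := by
    intro i
    rcases h _ (mem_cyc.2 ⟨i, rfl⟩) with h1 | h1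
    · left
      exact Finset.mk_mem_sym2_iff.1 h1
    · right
      exact Finset.mk_mem_sym2_iff.1 h1
  let g : Fin 6 → Fin 3 := fun i => if v i ∈ A0 then 0 else if v i ∈ B0 then 1 else 2
  have g0 : ∀ i, g i = 0 ↔ v i ∈ A0 := by
    intro i
    simp only [g]
    by_cases h1 : v i ∈ A0
    · simp [h1]
    · by_cases h2 : v i ∈ B0 <;> simp [h1, h2]
  have g1 : ∀ i, g i = 1 ↔ v i ∈ B0 := by
    intro i
    simp only [g]
    by_cases h1 : v i ∈ A0
    · have h2 : v i ∉ B0 := Finset.disjoint_left.1 hd h1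
      simp [h1, h2]
    · by_cases h2 : v i ∈ B0 <;> simp [h1, h2]
  have g2 : ∀ i, g i = 2 → v i = x := by
    intro i hi
    by_contra hne
    rcases hcons i with ⟨h1, -⟩ | ⟨h1, -⟩
    · rcases Finset.mem_insert.1 h1 with h2 | h2
      · exact hne h2
      · rw [(g0 i).2 h2] at hi
        exact absurd hi (by decide)
    · rcases Finset.mem_insert.1 h1 with h2 | h2
      · exact hne h2
      · rw [(g1 i).2 h2] at hi
        exact absurd hi (by decide)
  have nA : ∀ i, v i ∈ insert x A0 → g i ≠ 1 := by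
    intro i hi hg
    have h2 := (g1 i).1 hg
    rcases Finset.mem_insert.1 hi with h3 | h3
    · rw [h3] at h2
      exact hxB h2
    · exact Finset.disjoint_left.1 hd h3 h2
  have nB : ∀ i, v i ∈ insert x B0 → g i ≠ 0 := by
    intro i hi hg
    have h2 := (g0 i).1 hg
    rcases Finset.mem_insert.1 hi with h3 | h3
    · rw [h3] at h2
      exact hxA h2
    · exact Finset.disjoint_left.1 hd h2 h3
  have key := lb1a_fin g
    (fun i => (hcons i).imp (fun h => ⟨nA _ h.1, nA _ h.2⟩) (fun h => ⟨nB _ h.1, nB _ h.2⟩))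
    (fun i j hi hj => hv ((g2 i hi).trans (g2 j hj).symm))
  rcases key with k | k
  · left
    intro e he
    obtain ⟨i, rfl⟩ := mem_cyc.1 he
    have hA : ∀ i, v i ∈ insert x A0 := by
      intro i
      rcases hcons i with ⟨h1, -⟩ | ⟨h1, -⟩
      · exact h1
      · rcases Finset.mem_insert.1 h1 with h2 | h2
        · rw [h2]
          exact Finset.mem_insert_self _ _
        · exact absurd ((g1 i).2 h2) (k i)
    exact Finset.mk_mem_sym2_iff.2 ⟨hA i, hA (i + 1)⟩
  · right
    intro e he
    obtain ⟨i, rfl⟩ := mem_cyc.1 he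
    have hB : ∀ i, v i ∈ insert x B0 := by
      intro i
      rcases hcons i with ⟨h1, -⟩ | ⟨h1, -⟩
      · rcases Finset.mem_insert.1 h1 with h2 | h2
        · rw [h2]
          exact Finset.mem_insert_self _ _
        · exact absurd ((g0 i).2 h2) (k i)
      · exact h1
    exact Finset.mk_mem_sym2_iff.2 ⟨hB i, hB (i + 1)⟩

theorem dec_block {V : Type} [DecidableEq V] (A0 B0 : Finset V) (x : V) (hd : Disjoint A0 B0)
    (hxA : x ∉ A0) (hxB : x ∉ B0) (E : Finset (Sym2 V)) (hE : Dec E)
    (h : ∀ e ∈ E, e ∈ (insert x A0).sym2 ∨ e ∈ (insert x B0).sym2) :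
    6 ∣ (E ∩ (insert x A0).sym2).card := by
  induction hE with
  | empty => simp
  | @add E C hE hC hdis ih =>
    have hE' : ∀ e ∈ E, e ∈ (insert x A0).sym2 ∨ e ∈ (insert x B0).sym2 :=
      fun e he => h e (Finset.mem_union_left _ he)
    have hC' : ∀ e ∈ C, e ∈ (insert x A0).sym2 ∨ e ∈ (insert x B0).sym2 :=
      fun e he => h e (Finset.mem_union_right _ he)
    rw [Finset.union_inter_distrib_right, Finset.card_union_of_disjoint
      (Finset.disjoint_of_subset_left Finset.inter_subset_left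
        (Finset.disjoint_of_subset_right Finset.inter_subset_left hdis))]
    refine (Nat.dvd_add_right (ih hE')).2 ?_
    rcases c6_block A0 B0 x hd hxA hxB C hC hC' with h1 | h1
    · rw [Finset.inter_eq_left.2 h1, hC.card]
    · have : C ∩ (insert x A0).sym2 = ∅ := by
        rw [Finset.eq_empty_iff_forall_notMem]
        intro e he
        rw [Finset.mem_inter] at he
        obtain ⟨he1, he2⟩ := he
        have he3 := h1 he1
        have hl := hC.loopless
        induction e using Sym2.ind with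
        | _ a b =>
          rw [Finset.mk_mem_sym2_iff] at he2 he3
          have hone : ∀ y, y ∈ insert x A0 → y ∈ insert x B0 → y = x := by
            intro y h1 h2
            rcases Finset.mem_insert.1 h1 with h3 | h3
            · exact h3
            · rcases Finset.mem_insert.1 h2 with h4 | h4
              · exact h4
              · exact absurd h4 (Finset.disjoint_left.1 hd h3)
          have ha := hone a he2.1 he3.1
          have hb := hone b he2.2 he3.2
          rw [ha, hb] at he1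
          exact hl x he1
      rw [this]
      simp

end H15C6
end S_LB1A

section S_LB1B
/-!
Module LB1B (part of LB1).  Lower bound, two blocks with a common cut vertex.

`c6_block`: if every edge of the six-cycle `C` is inside `AX = insert x A0` or inside `BX = insert x B0` (`A0, B0`
disjoint, `x` in neither), then `C` is inside `AX` or inside `BX`.  Proof: let `g i : Fin 3` be the kind of `v i`
(`0` if in `A0`, `1` if in `B0`, `2` otherwise, i.e. `= x`); consecutive kinds are never `{0,1}`, at most one `i` has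
kind 2; then not both kinds 0 and 1 occur (`decide` over `Fin 6 → Fin 3`, 729 functions).
`dec_block`: hence `Dec E → 6 ∣ (E ∩ AX.sym2).card` for every `E` all of whose edges are inside `AX` or `BX` (induction on
`Dec`; a cycle inside `AX` has 6 edges there, a cycle inside `BX` has none inside `AX` because there are no
loops and `AX ∩ BX = {x}`).
`block_even`, `block_odd`: graphs on `Option (Fin (s-1))` (`none` is the cut vertex).
* `s` even, `j ≤ 5`: complete graph minus the edges `s(none, i)`, `i < 2j+1`, and `s(m, m+1)` for odd `m ≥ 2j+1`, `m+1 ≤ s-2`.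
  Every `some v` has degree `s - 2`, `none` has degree `s - 2 - 2j`; `2|E| = s(s-2) - 2j`.
* `s` odd, `3 ≤ l ≤ 8`: complete graph minus the cycle `0,1,...,l-1`: degrees `s - 1` or `s - 3`;
  `2|E| = s(s-1) - 2l`.
`block` : every residue mod 6 is attained.
-/

open Finset

namespace H15C6

/-! ### the complete graph -/

/-- all non-loops -/
def lb1b_K (V : Type) [Fintype V] [DecidableEq V] : Finset (Sym2 V) :=
  Finset.univ.filter (fun e : Sym2 V => ¬ e.IsDiag)

section

variable {V : Type} [Fintype V] [DecidableEq V]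

theorem lb1b_mem {x y : V} : s(x, y) ∈ lb1b_K V ↔ x ≠ y := by
  simp [lb1b_K]

theorem lb1b_loopless : Loopless (lb1b_K V) := fun x hx => (lb1b_mem.1 hx) rfl

theorem lb1b_sub_univ (E : Finset (Sym2 V)) : E ⊆ (Finset.univ : Finset V).sym2 := by
  intro e _
  rw [Finset.mem_sym2_iff]
  intro a _
  exact Finset.mem_univ a

theorem lb1b_deg (x : V) : deg (lb1b_K V) x = Fintype.card V - 1 := by
  rw [deg_eq_dg (lb1b_sub_univ _) x]
  unfold dg
  have h : (Finset.univ.filter (fun y : V => s(x, y) ∈ lb1b_K V)) = Finset.univ.erase x := by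
    ext y
    simp only [Finset.mem_filter, Finset.mem_univ, true_and, lb1b_mem, Finset.mem_erase, and_true]
    exact ne_comm
  rw [h, Finset.card_erase_of_mem (Finset.mem_univ x), Finset.card_univ]

theorem lb1b_card : 2 * (lb1b_K V).card = Fintype.card V * (Fintype.card V - 1) := by
  rw [← sum_deg (lb1b_sub_univ _) lb1b_loopless]
  simp [lb1b_deg]

theorem lb1b_sub_K {F : Finset (Sym2 V)} (hF : Loopless F) : F ⊆ lb1b_K V := by
  intro e he
  induction e using Sym2.ind with
  | _ a b => exact lb1b_mem.2 (hF.ne he)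

end

theorem lb1b_cardV (s : ℕ) (hs : 1 ≤ s) : Fintype.card (Option (Fin (s - 1))) = s := by
  rw [Fintype.card_option, Fintype.card_fin]
  omega

/-! ### `s` odd: remove a short cycle -/

/-- image under an injective map -/
theorem lb1b_deg_image {W V : Type} [DecidableEq V] [DecidableEq W] (f : W → V)
    (hf : Function.Injective f) (F : Finset (Sym2 W)) (i : W) :
    deg (F.image (Sym2.map f)) (f i) = deg F i := by
  unfold deg
  rw [Finset.filter_image, Finset.card_image_of_injective _ (Sym2.map.injective hf)]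
  congr 1
  ext e
  simp only [Finset.mem_filter, and_congr_right_iff]
  intro _
  induction e using Sym2.ind with
  | _ a b =>
    simp only [Sym2.map_mk, Sym2.mem_iff]
    constructor
    · rintro (h | h)
      · left; exact hf h
      · right; exact hf h
    · rintro (h | h)
      · left; rw [h]
      · right; rw [h]

theorem lb1b_deg_image0 {W V : Type} [DecidableEq V] [DecidableEq W] (f : W → V)
    (F : Finset (Sym2 W)) (x : V) (hx : ∀ i, f i ≠ x) :
    deg (F.image (Sym2.map f)) x = 0 := by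
  unfold deg
  rw [Finset.card_eq_zero, Finset.filter_eq_empty_iff]
  intro e he hxe
  rw [Finset.mem_image] at he
  obtain ⟨e', _, rfl⟩ := he
  induction e' using Sym2.ind with
  | _ a b =>
    simp only [Sym2.map_mk, Sym2.mem_iff] at hxe
    rcases hxe with h | h
    · exact hx _ h.symm
    · exact hx _ h.symm

/-- small graphs with degrees `0` and `2` -/
def lb1b_F : Fin 6 → Finset (Sym2 (Fin 8)) :=
  ![∅,
    {s(0, 1), s(1, 2), s(2, 3), s(3, 4), s(4, 5), s(5, 6), s(6, 0)},
    {s(0, 1), s(1, 2), s(2, 3), s(3, 4), s(4, 5), s(5, 6), s(6, 7), s(7, 0)},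
    {s(0, 1), s(1, 2), s(2, 0)},
    {s(0, 1), s(1, 2), s(2, 3), s(3, 0)},
    {s(0, 1), s(1, 2), s(2, 3), s(3, 4), s(4, 0)}]

theorem lb1b_F_deg : ∀ r : Fin 6, ∀ i : Fin 8, deg (lb1b_F r) i = 0 ∨ deg (lb1b_F r) i = 2 := by
  unfold deg
  decide

theorem lb1b_F_card : ∀ r : Fin 6, (lb1b_F r).card % 6 = r.1 := by
  decide

theorem lb1b_F_card_le : ∀ r : Fin 6, (lb1b_F r).card ≤ 8 := by
  decide

theorem lb1b_F_loop : ∀ r : Fin 6, ∀ i : Fin 8, s(i, i) ∉ lb1b_F r := by
  decide

theorem lb1b_odd (s : ℕ) (hs : 40 ≤ s) (hodd : s % 2 = 1) (ρ : ℕ) :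
    ∃ E : Finset (Sym2 (Option (Fin (s - 1)))), Loopless E ∧ EvenDeg E ∧ E.card % 6 = ρ % 6 ∧
      (∀ v : Fin (s - 1), s - 3 + (s + 1) % 2 ≤ deg E (some v)) ∧ s - 14 ≤ deg E none := by
  have hcV := lb1b_cardV s (by omega)
  have hK := lb1b_card (V := Option (Fin (s - 1)))
  rw [hcV] at hK
  set K := lb1b_K (Option (Fin (s - 1))) with hKdef
  set r : Fin 6 := ⟨(K.card + 6 * ρ - ρ % 6) % 6, Nat.mod_lt _ (by norm_num)⟩ with hr
  have hlt : ∀ i : Fin 8, i.1 < s - 1 := fun i => by have := i.2; omega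
  set f : Fin 8 → Option (Fin (s - 1)) := fun i => some ⟨i.1, hlt i⟩ with hf
  have hfi : Function.Injective f := by
    intro i j hij
    simp only [hf, Option.some.injEq, Fin.mk.injEq] at hij
    exact Fin.ext hij
  set F := (lb1b_F r).image (Sym2.map f) with hF
  have hFl : Loopless F := by
    intro x hx
    rw [hF, Finset.mem_image] at hx
    obtain ⟨e, he, hex⟩ := hx
    induction e using Sym2.ind with
    | _ a b =>
      simp only [Sym2.map_mk, Sym2.eq_iff, or_self] at hex
      have : a = b := hfi (hex.1.trans hex.2.symm)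
      subst this
      exact lb1b_F_loop r a he
  have hFK : F ⊆ K := lb1b_sub_K hFl
  have hFc : F.card = (lb1b_F r).card := by
    rw [hF, Finset.card_image_of_injective _ (Sym2.map.injective hfi)]
  have hFd : ∀ x, deg F x = 0 ∨ deg F x = 2 := by
    intro x
    by_cases hx : ∃ i, f i = x
    · obtain ⟨i, rfl⟩ := hx
      rw [hF, lb1b_deg_image f hfi]
      exact lb1b_F_deg r i
    · left
      exact lb1b_deg_image0 f _ x (fun i hi => hx ⟨i, hi⟩)
  have hdeg : ∀ x, deg (K \ F) x + deg F x = s - 1 := by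
    intro x
    rw [deg_sdiff hFK, lb1b_deg, hcV]
  have hcard : (K \ F).card + F.card = K.card := by
    rw [Finset.card_sdiff_add_card_eq_card hFK]
  refine ⟨K \ F, lb1b_loopless.mono Finset.sdiff_subset, ?_, ?_, ?_, ?_⟩
  · intro x
    have h1 := hdeg x
    rcases hFd x with h2 | h2
    · rw [h2] at h1
      rw [Nat.even_iff]
      omega
    · rw [h2] at h1
      rw [Nat.even_iff]
      omega
  · have h1 := lb1b_F_card r
    have h2 := lb1b_F_card_le r
    have h3 : r.1 = (K.card + 6 * ρ - ρ % 6) % 6 := rfl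
    have h4 : ρ % 6 ≤ 6 * ρ := by omega
    have h5 : 8 ≤ K.card := by
      have : 40 * 39 ≤ s * (s - 1) := Nat.mul_le_mul hs (by omega)
      omega
    omega
  · intro v
    have h1 := hdeg (some v)
    rcases hFd (some v) with h2 | h2 <;> omega
  · have h1 := hdeg none
    rcases hFd none with h2 | h2 <;> omega

/-! ### `s` even -/

/-- the partner -/
def lb1b_p (s j : ℕ) (v : Fin (s - 1)) : Option (Fin (s - 1)) :=
  if v.1 < 2 * j + 1 then none
  else if v.1 % 2 = 1 then (if h : v.1 + 1 < s - 1 then some ⟨v.1 + 1, h⟩ else none)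
  else some ⟨v.1 - 1, by have := v.2; omega⟩

theorem lb1b_even (s : ℕ) (hs : 40 ≤ s) (heven : s % 2 = 0) (ρ : ℕ) :
    ∃ E : Finset (Sym2 (Option (Fin (s - 1)))), Loopless E ∧ EvenDeg E ∧ E.card % 6 = ρ % 6 ∧
      (∀ v : Fin (s - 1), s - 3 + (s + 1) % 2 ≤ deg E (some v)) ∧ s - 14 ≤ deg E none := by
  have hcV := lb1b_cardV s (by omega)
  have hK := lb1b_card (V := Option (Fin (s - 1)))
  rw [hcV] at hK
  set K := lb1b_K (Option (Fin (s - 1))) with hKdef
  obtain ⟨t, ht⟩ : ∃ t, s = 2 * t := ⟨s / 2, by omega⟩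
  obtain ⟨m, hm⟩ : ∃ m, m = t * (s - 2) := ⟨_, rfl⟩
  have hmK : K.card = m + t := by
    have h1 : s * (s - 1) = 2 * (t * (s - 2)) + 2 * t := by
      subst ht
      obtain ⟨u, rfl⟩ : ∃ u, t = u + 1 := ⟨t - 1, by omega⟩
      have e1 : 2 * (u + 1) - 1 = 2 * u + 1 := by omega
      have e2 : 2 * (u + 1) - 2 = 2 * u := by omega
      rw [e1, e2]
      ring
    rw [h1, ← hm] at hK
    omega
  have hm6 : 6 ≤ m := by
    have : 20 * 38 ≤ t * (s - 2) := Nat.mul_le_mul (by omega) (by omega)
    omega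
  set j := (m + 6 * ρ - ρ % 6) % 6 with hj
  have hj6 : j < 6 := Nat.mod_lt _ (by norm_num)
  set p := lb1b_p s j with hp
  set F : Finset (Sym2 (Option (Fin (s - 1)))) := Finset.univ.image (fun v => s(some v, p v)) with hF
  -- the partner map is an involution
  have hpp : ∀ v w : Fin (s - 1), p v = some w → p w = some v := by
    intro v w hvw
    have hv := v.2
    have hw := w.2
    simp only [hp, lb1b_p] at hvw ⊢
    split_ifs at hvw with h1 h2 h3
    · simp only [Option.some.injEq] at hvw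
      subst hvw
      rw [if_neg (by simp only []; omega), if_neg (by simp only []; omega)]
      simp
    · simp only [Option.some.injEq] at hvw
      subst hvw
      have h4 : ¬ (v.1 - 1 < 2 * j + 1) := by omega
      have h5 : (v.1 - 1) % 2 = 1 := by omega
      have h6 : v.1 - 1 + 1 < s - 1 := by omega
      rw [if_neg (by simpa using h4), if_pos (by simpa using h5), dif_pos (by simpa using h6)]
      simp only [Option.some.injEq]
      apply Fin.ext
      simp only []
      omega
  have hpn : ∀ v : Fin (s - 1), p v = none ↔ v.1 < 2 * j + 1 := by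
    intro v
    have hv := v.2
    simp only [hp, lb1b_p]
    split_ifs with h1 h2 h3
    · simp [h1]
    · simp [h1]
    · omega
    · simp [h1]
  have hps : ∀ v : Fin (s - 1), p v ≠ some v := by
    intro v hv
    simp only [hp, lb1b_p] at hv
    split_ifs at hv with h1 h2 h3
    · simp only [Option.some.injEq] at hv
      have := congrArg Fin.val hv
      simp only [] at this
      omega
    · simp only [Option.some.injEq] at hv
      have := congrArg Fin.val hv
      simp only [] at this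
      omega
  have hFl : Loopless F := by
    intro x hx
    rw [hF, Finset.mem_image] at hx
    obtain ⟨v, _, hv⟩ := hx
    simp only [Sym2.eq_iff, or_self] at hv
    exact hps v (hv.2.trans hv.1.symm)
  have hFK : F ⊆ K := lb1b_sub_K hFl
  have hd1 : ∀ v : Fin (s - 1), deg F (some v) = 1 := by
    intro v
    unfold deg
    have : F.filter (fun e => (some v : Option (Fin (s - 1))) ∈ e) = {s(some v, p v)} := by
      ext e
      simp only [hF, Finset.mem_filter, Finset.mem_image, Finset.mem_univ, true_and,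
        Finset.mem_singleton]
      constructor
      · rintro ⟨⟨w, rfl⟩, h⟩
        rw [Sym2.mem_iff] at h
        rcases h with h | h
        · simp only [Option.some.injEq] at h
          rw [h]
        · rw [← h, hpp w v h.symm]
          exact Sym2.eq_swap
      · rintro rfl
        exact ⟨⟨v, rfl⟩, Sym2.mem_mk_left _ _⟩
    rw [this, Finset.card_singleton]
  have hd0 : deg F none = 2 * j + 1 := by
    unfold deg
    have h1 : F.filter (fun e => (none : Option (Fin (s - 1))) ∈ e) =
        (Finset.univ.filter (fun v : Fin (s - 1) => v.1 < 2 * j + 1)).image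
          (fun v => s(some v, none)) := by
      ext e
      simp only [hF, Finset.mem_filter, Finset.mem_image, Finset.mem_univ, true_and]
      constructor
      · rintro ⟨⟨w, rfl⟩, h⟩
        rw [Sym2.mem_iff] at h
        rcases h with h | h
        · simp at h
        · exact ⟨w, (hpn w).1 h.symm, by rw [← h]⟩
      · rintro ⟨w, hw, rfl⟩
        refine ⟨⟨w, by rw [(hpn w).2 hw]⟩, Sym2.mem_mk_right _ _⟩
    rw [h1, Finset.card_image_of_injective]
    · have h2 : (Finset.univ.filter (fun v : Fin (s - 1) => v.1 < 2 * j + 1)) =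
          Finset.univ.image (fun i : Fin (2 * j + 1) =>
            (⟨i.1, by have := i.2; omega⟩ : Fin (s - 1))) := by
        ext v
        simp only [Finset.mem_filter, Finset.mem_univ, true_and, Finset.mem_image]
        constructor
        · intro h
          exact ⟨⟨v.1, h⟩, rfl⟩
        · rintro ⟨i, rfl⟩
          exact i.2
      rw [h2, Finset.card_image_of_injective]
      · simp
      · intro a b hab
        simp only [Fin.mk.injEq] at hab
        exact Fin.ext hab
    · intro a b hab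
      simp only [Sym2.eq_iff, Option.some.injEq, and_true, reduceCtorEq, and_false, or_false]
        at hab
      exact hab
  have hFc : 2 * F.card = (s - 1) + (2 * j + 1) := by
    rw [← sum_deg (lb1b_sub_univ _) hFl, Fintype.sum_option, hd0]
    simp only [hd1, Finset.sum_const, Finset.card_univ, Fintype.card_fin, smul_eq_mul, mul_one]
    omega
  have hdeg : ∀ x, deg (K \ F) x + deg F x = s - 1 := by
    intro x
    rw [deg_sdiff hFK, lb1b_deg, hcV]
  have hcard : (K \ F).card + F.card = K.card := by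
    rw [Finset.card_sdiff_add_card_eq_card hFK]
  refine ⟨K \ F, lb1b_loopless.mono Finset.sdiff_subset, ?_, ?_, ?_, ?_⟩
  · intro x
    have h1 := hdeg x
    rw [Nat.even_iff]
    cases x with
    | none => rw [hd0] at h1; omega
    | some v => rw [hd1] at h1; omega
  · have h4 : ρ % 6 ≤ 6 * ρ := by omega
    have h5 : F.card = t + j := by omega
    have h6 : (K \ F).card + j = m := by omega
    omega
  · intro v
    have h1 := hdeg (some v)
    rw [hd1] at h1
    omega
  · have h1 := hdeg none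
    rw [hd0] at h1
    omega

theorem block (s : ℕ) (hs : 40 ≤ s) (ρ : ℕ) :
    ∃ E : Finset (Sym2 (Option (Fin (s - 1)))), Loopless E ∧ EvenDeg E ∧ E.card % 6 = ρ % 6 ∧
      (∀ v : Fin (s - 1), s - 3 + (s + 1) % 2 ≤ deg E (some v)) ∧ s - 14 ≤ deg E none := by
  rcases Nat.mod_two_eq_zero_or_one s with h | h
  · exact lb1b_even s hs h ρ
  · exact lb1b_odd s hs h ρ

/-- the complete graph -/
theorem block_complete (s : ℕ) (hs : 3 ≤ s) (hodd : s % 2 = 1) :
    ∃ E : Finset (Sym2 (Option (Fin (s - 1)))), Loopless E ∧ EvenDeg E ∧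
      2 * E.card = s * (s - 1) ∧ ∀ v, deg E v = s - 1 := by
  have hcV := lb1b_cardV s (by omega)
  refine ⟨lb1b_K _, lb1b_loopless, ?_, ?_, ?_⟩
  · intro x
    rw [lb1b_deg, hcV, Nat.even_iff]
    omega
  · rw [lb1b_card, hcV]
  · intro x
    rw [lb1b_deg, hcV]

end H15C6
end S_LB1B

section S_LB2
/-!
Module LB2.  Gluing two blocks at a vertex, and transport along equivalences.

`glue`: `V = Option (Fin p ⊕ Fin q)`; image of `E1` under `Option.map Sum.inl` and of `E2` under `Option.map Sum.inr`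
(`Finset.map`/`image` with `Sym2.map`); their union is disjoint (loopless), degrees add up; not decomposable by
`dec_block` because `|E ∩ AX.sym2| = |E1|` is not divisible by 6.
`transport`: for `e : V ≃ W` the image of `E` under `Sym2.map e`.
-/

open Finset

namespace H15C6

section Img

variable {V W : Type} [DecidableEq V] [DecidableEq W]

/-- the image of an edge set -/
def lb2_img (f : V → W) (E : Finset (Sym2 V)) : Finset (Sym2 W) := E.image (Sym2.map f)

theorem lb2_mem {f : V → W} {E : Finset (Sym2 V)} {e : Sym2 W} (he : e ∈ lb2_img f E) :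
    ∃ a b, s(a, b) ∈ E ∧ e = s(f a, f b) := by
  unfold lb2_img at he
  rw [Finset.mem_image] at he
  obtain ⟨e', he', rfl⟩ := he
  induction e' using Sym2.ind with
  | _ a b => exact ⟨a, b, he', rfl⟩

theorem lb2_mk {f : V → W} {E : Finset (Sym2 V)} {a b : V} (h : s(a, b) ∈ E) :
    s(f a, f b) ∈ lb2_img f E := by
  unfold lb2_img
  rw [Finset.mem_image]
  exact ⟨_, h, rfl⟩

theorem lb2_card {f : V → W} (hf : Function.Injective f) (E : Finset (Sym2 V)) :
    (lb2_img f E).card = E.card :=
  Finset.card_image_of_injective _ (Sym2.map.injective hf)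

theorem lb2_loopless {f : V → W} (hf : Function.Injective f) {E : Finset (Sym2 V)} (h : Loopless E) :
    Loopless (lb2_img f E) := by
  intro x hx
  obtain ⟨a, b, hab, he⟩ := lb2_mem hx
  rw [Sym2.eq_iff] at he
  have hne := h.ne hab
  rcases he with ⟨h1, h2⟩ | ⟨h1, h2⟩
  · exact hne (hf (h1.symm.trans h2))
  · exact hne (hf (h2.symm.trans h1))

theorem lb2_deg {f : V → W} (hf : Function.Injective f) (E : Finset (Sym2 V)) (x : V) :
    deg (lb2_img f E) (f x) = deg E x := by
  unfold deg lb2_img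
  rw [Finset.filter_image, Finset.card_image_of_injective _ (Sym2.map.injective hf)]
  congr 1
  ext e
  rw [Finset.mem_filter, Finset.mem_filter]
  refine and_congr_right fun _ => ?_
  induction e using Sym2.ind with
  | _ a b =>
    rw [Sym2.map_mk, Sym2.mem_iff, Sym2.mem_iff]
    constructor
    · rintro (h | h)
      · exact Or.inl (hf h)
      · exact Or.inr (hf h)
    · rintro (h | h)
      · exact Or.inl (congrArg f h)
      · exact Or.inr (congrArg f h)

theorem lb2_deg_out {f : V → W} (E : Finset (Sym2 V)) {y : W} (hy : ∀ x, f x ≠ y) :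
    deg (lb2_img f E) y = 0 := by
  unfold deg
  rw [Finset.card_eq_zero, Finset.filter_eq_empty_iff]
  intro e he hye
  obtain ⟨a, b, _, rfl⟩ := lb2_mem he
  rw [Sym2.mem_iff] at hye
  rcases hye with h | h
  · exact hy a h.symm
  · exact hy b h.symm

theorem lb2_isC6 {f : V → W} (hf : Function.Injective f) {C : Finset (Sym2 V)} (h : IsC6 C) :
    IsC6 (lb2_img f C) := by
  obtain ⟨v, hv, rfl⟩ := h
  refine ⟨f ∘ v, hf.comp hv, ?_⟩
  unfold lb2_img cyc
  rw [Finset.image_image]
  rfl

theorem lb2_dec {f : V → W} (hf : Function.Injective f) {E : Finset (Sym2 V)} (h : Dec E) :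
    Dec (lb2_img f E) := by
  induction h with
  | empty =>
    unfold lb2_img
    rw [Finset.image_empty]
    exact Dec.empty
  | @add E C hE hC hd ih =>
    have e : lb2_img f (E ∪ C) = lb2_img f E ∪ lb2_img f C := Finset.image_union _ _
    rw [e]
    exact Dec.add ih (lb2_isC6 hf hC) ((Finset.disjoint_image (Sym2.map.injective hf)).2 hd)

theorem lb2_comp {X : Type} [DecidableEq X] (f : V → W) (g : W → X) (E : Finset (Sym2 V)) :
    lb2_img g (lb2_img f E) = lb2_img (g ∘ f) E := by
  unfold lb2_img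
  rw [Finset.image_image]
  congr 1
  funext e
  exact (Sym2.map_comp (f := f) (g := g) ▸ rfl)

theorem lb2_id (E : Finset (Sym2 V)) : lb2_img id E = E := by
  unfold lb2_img
  rw [Sym2.map_id, Finset.image_id]

end Img

theorem glue (p q : ℕ) (E1 : Finset (Sym2 (Option (Fin p)))) (E2 : Finset (Sym2 (Option (Fin q))))
    (h1 : Loopless E1) (h2 : Loopless E2) (he1 : EvenDeg E1) (he2 : EvenDeg E2)
    (hc : 6 ∣ E1.card + E2.card) (hn : ¬ 6 ∣ E1.card) :
    ∃ E : Finset (Sym2 (Option (Fin p ⊕ Fin q))), Loopless E ∧ EvenDeg E ∧ 6 ∣ E.card ∧ ¬ Dec E ∧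
      (∀ v, deg E (some (Sum.inl v)) = deg E1 (some v)) ∧
      (∀ v, deg E (some (Sum.inr v)) = deg E2 (some v)) ∧
      deg E none = deg E1 none + deg E2 none := by
  have hf1 : Function.Injective (Option.map (Sum.inl : Fin p → Fin p ⊕ Fin q)) :=
    Option.map_injective Sum.inl_injective
  have hf2 : Function.Injective (Option.map (Sum.inr : Fin q → Fin p ⊕ Fin q)) :=
    Option.map_injective Sum.inr_injective
  set f1 : Option (Fin p) → Option (Fin p ⊕ Fin q) := Option.map Sum.inl with hf1_def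
  set f2 : Option (Fin q) → Option (Fin p ⊕ Fin q) := Option.map Sum.inr with hf2_def
  have hnone : ∀ a b, f1 a = f2 b → a = none ∧ b = none := by
    intro a b hab
    cases a with
    | none =>
      cases b with
      | none => exact ⟨rfl, rfl⟩
      | some b => simp [hf1_def, hf2_def] at hab
    | some a =>
      cases b with
      | none => simp [hf1_def, hf2_def] at hab
      | some b => simp [hf1_def, hf2_def] at hab
  have hdis : Disjoint (lb2_img f1 E1) (lb2_img f2 E2) := by
    rw [Finset.disjoint_left]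
    intro e ha hb
    obtain ⟨a, b, hab, rfl⟩ := lb2_mem ha
    obtain ⟨c, d, hcd, he⟩ := lb2_mem hb
    rw [Sym2.eq_iff] at he
    rcases he with ⟨e1, e2⟩ | ⟨e1, e2⟩
    · exact h1.ne hab ((hnone _ _ e1).1.trans (hnone _ _ e2).1.symm)
    · exact h1.ne hab ((hnone _ _ e1).1.trans (hnone _ _ e2).1.symm)
  have hl1 := lb2_loopless hf1 h1
  have hl2 := lb2_loopless hf2 h2
  have d1 : ∀ v, deg (lb2_img f1 E1 ∪ lb2_img f2 E2) (some (Sum.inl v)) = deg E1 (some v) := by
    intro v
    rw [deg_union hdis]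
    have e1 : (some (Sum.inl v) : Option (Fin p ⊕ Fin q)) = f1 (some v) := rfl
    have e2 : deg (lb2_img f2 E2) (some (Sum.inl v)) = 0 := by
      refine lb2_deg_out E2 ?_
      intro x hx
      cases x with
      | none => simp [hf2_def] at hx
      | some x => simp [hf2_def] at hx
    rw [e2, e1, lb2_deg hf1, Nat.add_zero]
  have d2 : ∀ v, deg (lb2_img f1 E1 ∪ lb2_img f2 E2) (some (Sum.inr v)) = deg E2 (some v) := by
    intro v
    rw [deg_union hdis]
    have e1 : (some (Sum.inr v) : Option (Fin p ⊕ Fin q)) = f2 (some v) := rfl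
    have e2 : deg (lb2_img f1 E1) (some (Sum.inr v)) = 0 := by
      refine lb2_deg_out E1 ?_
      intro x hx
      cases x with
      | none => simp [hf1_def] at hx
      | some x => simp [hf1_def] at hx
    rw [e2, e1, lb2_deg hf2, Nat.zero_add]
  have d3 : deg (lb2_img f1 E1 ∪ lb2_img f2 E2) none = deg E1 none + deg E2 none := by
    rw [deg_union hdis]
    have e1 : deg (lb2_img f1 E1) none = deg E1 none := lb2_deg hf1 E1 none
    have e2 : deg (lb2_img f2 E2) none = deg E2 none := lb2_deg hf2 E2 none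
    rw [e1, e2]
  have hcard : (lb2_img f1 E1 ∪ lb2_img f2 E2).card = E1.card + E2.card := by
    rw [Finset.card_union_of_disjoint hdis, lb2_card hf1, lb2_card hf2]
  refine ⟨lb2_img f1 E1 ∪ lb2_img f2 E2, hl1.union hl2, ?_, ?_, ?_, d1, d2, d3⟩
  · intro x
    rcases x with _ | x | x
    · rw [d3]; exact (he1 none).add (he2 none)
    · rw [d1]; exact he1 _
    · rw [d2]; exact he2 _
  · rw [hcard]; exact hc
  · intro hD
    apply hn
    set A0 : Finset (Option (Fin p ⊕ Fin q)) := univ.image (fun v : Fin p => some (Sum.inl v)) with hA0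
    set B0 : Finset (Option (Fin p ⊕ Fin q)) := univ.image (fun v : Fin q => some (Sum.inr v)) with hB0
    have hAB : Disjoint A0 B0 := by
      rw [Finset.disjoint_left]
      intro x hx hy
      rw [hA0, Finset.mem_image] at hx
      rw [hB0, Finset.mem_image] at hy
      obtain ⟨a, _, rfl⟩ := hx
      obtain ⟨b, _, hb⟩ := hy
      simp at hb
    have hxA : (none : Option (Fin p ⊕ Fin q)) ∉ A0 := by
      rw [hA0, Finset.mem_image]
      rintro ⟨a, _, ha⟩
      simp at ha
    have hxB : (none : Option (Fin p ⊕ Fin q)) ∉ B0 := by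
      rw [hB0, Finset.mem_image]
      rintro ⟨a, _, ha⟩
      simp at ha
    have hm1 : ∀ a, f1 a ∈ insert none A0 := by
      intro a
      cases a with
      | none => exact Finset.mem_insert_self _ _
      | some a =>
        refine Finset.mem_insert_of_mem ?_
        rw [hA0, Finset.mem_image]
        exact ⟨a, mem_univ _, rfl⟩
    have hm2 : ∀ a, f2 a ∈ insert none B0 := by
      intro a
      cases a with
      | none => exact Finset.mem_insert_self _ _
      | some a =>
        refine Finset.mem_insert_of_mem ?_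
        rw [hB0, Finset.mem_image]
        exact ⟨a, mem_univ _, rfl⟩
    have hm3 : ∀ a, f2 a ∈ insert none A0 → a = none := by
      intro a ha
      rw [Finset.mem_insert] at ha
      rcases ha with ha | ha
      · exact (hnone none a ha.symm).2
      · rw [hA0, Finset.mem_image] at ha
        obtain ⟨b, _, hb⟩ := ha
        exact (hnone (some b) a hb).2
    have hblock := dec_block A0 B0 none hAB hxA hxB _ hD (by
      intro e he
      rw [Finset.mem_union] at he
      rcases he with he | he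
      · left
        obtain ⟨a, b, _, rfl⟩ := lb2_mem he
        rw [Finset.mk_mem_sym2_iff]
        exact ⟨hm1 a, hm1 b⟩
      · right
        obtain ⟨a, b, _, rfl⟩ := lb2_mem he
        rw [Finset.mk_mem_sym2_iff]
        exact ⟨hm2 a, hm2 b⟩)
    have heq : (lb2_img f1 E1 ∪ lb2_img f2 E2) ∩ (insert none A0).sym2 = lb2_img f1 E1 := by
      ext e
      rw [Finset.mem_inter, Finset.mem_union]
      constructor
      · rintro ⟨he | he, hs⟩
        · exact he
        · exfalso
          obtain ⟨a, b, hab, rfl⟩ := lb2_mem he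
          rw [Finset.mk_mem_sym2_iff] at hs
          exact h2.ne hab ((hm3 a hs.1).trans (hm3 b hs.2).symm)
      · intro he
        refine ⟨Or.inl he, ?_⟩
        obtain ⟨a, b, _, rfl⟩ := lb2_mem he
        rw [Finset.mk_mem_sym2_iff]
        exact ⟨hm1 a, hm1 b⟩
    rw [heq, lb2_card hf1] at hblock
    exact hblock

theorem transport {V W : Type} [DecidableEq V] [DecidableEq W] (f : V ≃ W)
    (E : Finset (Sym2 V)) (hl : Loopless E) (he : EvenDeg E) (h6 : 6 ∣ E.card) (hD : ¬ Dec E)
    (d : ℕ) (hd : ∀ v, d ≤ deg E v) :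
    ∃ E' : Finset (Sym2 W), Loopless E' ∧ EvenDeg E' ∧ 6 ∣ E'.card ∧ ¬ Dec E' ∧
      ∀ v, d ≤ deg E' v := by
  have hdeg : ∀ w, deg (lb2_img f E) w = deg E (f.symm w) := by
    intro w
    have h := lb2_deg f.injective E (f.symm w)
    rwa [Equiv.apply_symm_apply] at h
  refine ⟨lb2_img f E, lb2_loopless f.injective hl, ?_, ?_, ?_, ?_⟩
  · intro w
    rw [hdeg]
    exact he _
  · rw [lb2_card f.injective]
    exact h6
  · intro h
    apply hD
    have h' := lb2_dec f.symm.injective h
    rw [lb2_comp] at h'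
    have e : (f.symm : W → V) ∘ (f : V → W) = id := by
      funext x
      exact f.symm_apply_apply x
    rw [e, lb2_id] at h'
    exact h'
  · intro w
    rw [hdeg]
    exact hd _

end H15C6
end S_LB2

section S_LB3
/-!
Module LB3.  Lower bound for `n = 4k+2`: complete blow-up of the four-class pattern.

Classes of sizes `a, 2k+1-a, 2k-a, a+1` where `2 ≤ a ≤ 13`, `a ≡ 2 (mod 4)`, `a ≡ 4k(k+1) (mod 3)` (Chinese
remainder; `a` exists for every `k`: by cases `k % 3`), e.g. `cl v = 0` for `v < a`, `1` for `a ≤ v < 2k+1`, `2` for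
`2k+1 ≤ v < 4k+1-a`, `3` for the last `a+1` vertices; `E := {s(u,v) : u ≠ v, PatE (cl u) (cl v)}`.
Degrees: `2k, 2k, 2k+2, 2k` on the four classes.  `2|E| = a*2k + (2k+1-a)*2k + (2k-a)*(2k+2) + (a+1)*2k`, so
`|E| = 4k(k+1) - a ≡ 0 (mod 6)`.  The number of edges inside class 0 is `a(a-1)/2`, odd.
By `dec_even_V1` not decomposable.
-/

open Finset

namespace H15C6

theorem lb3_patE_symm {a b : Fin 4} (h : PatE a b) : PatE b a := by
  revert a b
  decide

/-- the class function -/
def lb3_cl (k a : ℕ) (v : Fin (4 * k + 2)) : Fin 4 :=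
  if (v : ℕ) < a then 0 else if (v : ℕ) < 2 * k + 1 then 1 else if (v : ℕ) < 4 * k + 1 - a then 2
  else 3

/-- the edge set -/
def lb3_E (k a : ℕ) : Finset (Sym2 (Fin (4 * k + 2))) :=
  ((univ : Finset (Fin (4 * k + 2) × Fin (4 * k + 2))).filter
    (fun p => p.1 ≠ p.2 ∧ PatE (lb3_cl k a p.1) (lb3_cl k a p.2))).image (fun p => s(p.1, p.2))

theorem lb3_mem {k a : ℕ} {x y : Fin (4 * k + 2)} :
    s(x, y) ∈ lb3_E k a ↔ x ≠ y ∧ PatE (lb3_cl k a x) (lb3_cl k a y) := by
  unfold lb3_E
  simp only [mem_image, mem_filter, mem_univ, true_and, Prod.exists]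
  constructor
  · rintro ⟨u, v, ⟨h1, h2⟩, h3⟩
    rw [Sym2.eq_iff] at h3
    rcases h3 with ⟨rfl, rfl⟩ | ⟨rfl, rfl⟩
    · exact ⟨h1, h2⟩
    · exact ⟨h1.symm, lb3_patE_symm h2⟩
  · rintro ⟨h1, h2⟩
    exact ⟨x, y, ⟨h1, h2⟩, rfl⟩

theorem lb3_interval (n p q : ℕ) (hq : q ≤ n) :
    (univ.filter (fun v : Fin n => p ≤ (v : ℕ) ∧ (v : ℕ) < q)).card = q - p := by
  rw [card_filter]
  rw [Fin.sum_univ_eq_sum_range (fun i => if p ≤ i ∧ i < q then 1 else 0) n, ← card_filter]
  have : (range n).filter (fun i => p ≤ i ∧ i < q) = Ico p q := by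
    ext i
    simp only [mem_filter, mem_range, mem_Ico]
    omega
  rw [this, Nat.card_Ico]

/-- number of vertices in a class -/
theorem lb3_card {k a : ℕ} (ha : a + 1 ≤ 2 * k) :
    ((univ.filter (fun v => lb3_cl k a v = 0)).card = a ∧
      (univ.filter (fun v => lb3_cl k a v = 1)).card = 2 * k + 1 - a) ∧
      ((univ.filter (fun v => lb3_cl k a v = 2)).card = 2 * k - a ∧
      (univ.filter (fun v => lb3_cl k a v = 3)).card = a + 1) := by
  have key : ∀ (i : Fin 4) (p q : ℕ), q ≤ 4 * k + 2 →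
      (∀ v : Fin (4 * k + 2), lb3_cl k a v = i ↔ p ≤ (v : ℕ) ∧ (v : ℕ) < q) →
      (univ.filter (fun v => lb3_cl k a v = i)).card = q - p := by
    intro i p q hq h
    have h1 : univ.filter (fun v => lb3_cl k a v = i) =
        univ.filter (fun v : Fin (4 * k + 2) => p ≤ (v : ℕ) ∧ (v : ℕ) < q) := by
      ext v
      simp only [mem_filter, mem_univ, true_and]
      exact h v
    rw [h1]
    exact lb3_interval (4 * k + 2) p q hq
  refine ⟨⟨?_, ?_⟩, ?_, ?_⟩
  · rw [key 0 0 a (by omega)]
    · omega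
    · intro v
      unfold lb3_cl
      split_ifs with h1 h2 h3 <;> simp <;> omega
  · rw [key 1 a (2 * k + 1) (by omega)]
    intro v
    unfold lb3_cl
    split_ifs with h1 h2 h3 <;> simp <;> omega
  · rw [key 2 (2 * k + 1) (4 * k + 1 - a) (by omega)]
    · omega
    · intro v
      unfold lb3_cl
      split_ifs with h1 h2 h3 <;> simp <;> omega
  · rw [key 3 (4 * k + 1 - a) (4 * k + 2) (by omega)]
    · omega
    · intro v
      have := v.2
      unfold lb3_cl
      split_ifs with h1 h2 h3 <;> simp <;> omega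

theorem lb3_loopless (k a : ℕ) : Loopless (lb3_E k a) := by
  intro x hx
  rw [lb3_mem] at hx
  exact hx.1 rfl

theorem lb3_sub (k a : ℕ) : lb3_E k a ⊆ (univ : Finset (Fin (4 * k + 2))).sym2 := by
  intro e _
  rw [sym2_univ]
  exact mem_univ _

/-- degrees -/
theorem lb3_deg {k a : ℕ} (ha0 : 1 ≤ a) (ha : a + 1 ≤ 2 * k) (x : Fin (4 * k + 2)) :
    deg (lb3_E k a) x = if lb3_cl k a x = 2 then 2 * k + 2 else 2 * k := by
  obtain ⟨⟨c0, c1⟩, c2, c3⟩ := lb3_card ha
  rw [deg_eq_dg (lb3_sub k a)]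
  unfold dg
  have hset : ∀ (S T : Finset (Fin (4 * k + 2))), (∀ y, y ∈ S ∪ T ↔ PatE (lb3_cl k a x) (lb3_cl k a y)) →
      Disjoint S T → (univ.filter (fun y => s(x, y) ∈ lb3_E k a)).card =
        ((S ∪ T).erase x).card := by
    intro S T h _
    congr 1
    ext y
    rw [mem_filter, mem_erase, lb3_mem, h y]
    simp only [mem_univ, true_and]
    rw [ne_comm]
  have hdisj : ∀ i j : Fin 4, i ≠ j → Disjoint (univ.filter (fun v => lb3_cl k a v = i))
      (univ.filter (fun v => lb3_cl k a v = j)) := by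
    intro i j hij
    rw [disjoint_filter]
    intro v _ h1 h2
    exact hij (h1.symm.trans h2)
  have hcase : lb3_cl k a x = 0 ∨ lb3_cl k a x = 1 ∨ lb3_cl k a x = 2 ∨ lb3_cl k a x = 3 := by
    generalize lb3_cl k a x = i
    revert i
    decide
  rcases hcase with h | h | h | h
  · rw [hset (univ.filter (fun v => lb3_cl k a v = 0)) (univ.filter (fun v => lb3_cl k a v = 1)) ?_
      (hdisj 0 1 (by decide)), card_erase_of_mem, card_union_of_disjoint (hdisj 0 1 (by decide)),
      c0, c1, if_neg (by rw [h]; decide)]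
    · omega
    · simp [h]
    · intro y
      rw [h]
      simp only [mem_union, mem_filter, mem_univ, true_and]
      generalize lb3_cl k a y = j
      revert j
      decide
  · rw [hset (univ.filter (fun v => lb3_cl k a v = 0)) (univ.filter (fun v => lb3_cl k a v = 2)) ?_
      (hdisj 0 2 (by decide)), erase_eq_of_notMem, card_union_of_disjoint (hdisj 0 2 (by decide)),
      c0, c2, if_neg (by rw [h]; decide)]
    · omega
    · simp [h]
    · intro y
      rw [h]
      simp only [mem_union, mem_filter, mem_univ, true_and]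
      generalize lb3_cl k a y = j
      revert j
      decide
  · rw [hset (univ.filter (fun v => lb3_cl k a v = 1)) (univ.filter (fun v => lb3_cl k a v = 3)) ?_
      (hdisj 1 3 (by decide)), erase_eq_of_notMem, card_union_of_disjoint (hdisj 1 3 (by decide)),
      c1, c3, if_pos h]
    · omega
    · simp [h]
    · intro y
      rw [h]
      simp only [mem_union, mem_filter, mem_univ, true_and]
      generalize lb3_cl k a y = j
      revert j
      decide
  · rw [hset (univ.filter (fun v => lb3_cl k a v = 2)) (univ.filter (fun v => lb3_cl k a v = 3)) ?_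
      (hdisj 2 3 (by decide)), card_erase_of_mem, card_union_of_disjoint (hdisj 2 3 (by decide)),
      c2, c3, if_neg (by rw [h]; decide)]
    · omega
    · simp [h]
    · intro y
      rw [h]
      simp only [mem_union, mem_filter, mem_univ, true_and]
      generalize lb3_cl k a y = j
      revert j
      decide

/-- number of edges -/
theorem lb3_cardE {k a : ℕ} (ha0 : 1 ≤ a) (ha : a + 1 ≤ 2 * k) :
    (lb3_E k a).card + a = 4 * k * (k + 1) := by
  obtain ⟨⟨c0, c1⟩, c2, c3⟩ := lb3_card ha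
  have h1 := sum_deg (lb3_sub k a) (lb3_loopless k a)
  have h2 : ∑ x, deg (lb3_E k a) x = (4 * k + 2) * (2 * k) + 2 * (2 * k - a) := by
    have h3 : ∀ x, deg (lb3_E k a) x = 2 * k + (if lb3_cl k a x = 2 then 2 else 0) := by
      intro x
      rw [lb3_deg ha0 ha]
      split_ifs <;> rfl
    simp only [h3]
    rw [sum_add_distrib, sum_const, ← sum_filter, sum_const, c2]
    simp
    ring
  rw [h2] at h1
  have h4 : 4 * k * (k + 1) = 4 * (k * k) + 4 * k := by ring
  have h5 : (4 * k + 2) * (2 * k) = 8 * (k * k) + 4 * k := by ring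
  rw [h4]
  rw [h5] at h1
  omega

/-- number of edges inside class 0 -/
theorem lb3_nV1 {k a : ℕ} (ha : a + 1 ≤ 2 * k) :
    nV1 (lb3_cl k a) (lb3_E k a) = a.choose 2 := by
  obtain ⟨⟨c0, c1⟩, c2, c3⟩ := lb3_card ha
  unfold nV1
  have h0 := Sym2.card_image_offDiag (univ.filter (fun v => lb3_cl k a v = 0))
  rw [c0] at h0
  rw [← h0]
  congr 1
  ext e
  induction e using Sym2.ind with
  | _ x y =>
    simp only [mem_filter, lb3_mem, Sym2.map_mk, mem_image, mem_offDiag, Prod.exists,
      Function.uncurry_apply_pair]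
    constructor
    · rintro ⟨⟨h1, h2⟩, h3⟩
      rw [Sym2.eq_iff] at h3
      have h4 : lb3_cl k a x = 0 ∧ lb3_cl k a y = 0 := by
        rcases h3 with h3 | h3 <;> exact h3
      exact ⟨x, y, ⟨by simp [h4.1], by simp [h4.2], h1⟩, rfl⟩
    · rintro ⟨u, v, ⟨h1, h2, h3⟩, h4⟩
      simp only [mem_univ, true_and] at h1 h2
      rw [Sym2.eq_iff] at h4
      rcases h4 with ⟨rfl, rfl⟩ | ⟨rfl, rfl⟩
      · refine ⟨⟨h3, ?_⟩, ?_⟩
        · rw [h1, h2]; decide
        · rw [h1, h2]
      · refine ⟨⟨h3.symm, ?_⟩, ?_⟩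
        · rw [h1, h2]; decide
        · rw [h1, h2]

theorem lower_2 (k : ℕ) (hk : 20 ≤ k) :
    ∃ E : Finset (Sym2 (Fin (4 * k + 2))), Loopless E ∧ EvenDeg E ∧ 6 ∣ E.card ∧ ¬ Dec E ∧
      ∀ v, 2 * k ≤ deg E v := by
  obtain ⟨a, ha0, ha1, ha2, ha3⟩ : ∃ a : ℕ, 1 ≤ a ∧ a + 1 ≤ 2 * k ∧ ¬ Even (a.choose 2) ∧
      ∀ c : ℕ, c + a = 4 * k * (k + 1) → 6 ∣ c := by
    have hk3 : k % 3 = 0 ∨ k % 3 = 1 ∨ k % 3 = 2 := by omega
    rcases hk3 with h | h | h
    · refine ⟨6, by norm_num, by omega, by decide, fun c hc => ?_⟩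
      obtain ⟨m, hm⟩ : ∃ m, k = 3 * m := ⟨k / 3, by omega⟩
      subst hm
      have h2 : 4 * (3 * m) * (3 * m + 1) = 6 * (2 * m * (3 * m + 1)) := by ring
      rw [h2] at hc
      omega
    · refine ⟨2, by norm_num, by omega, by decide, fun c hc => ?_⟩
      obtain ⟨m, hm⟩ : ∃ m, k = 3 * m + 1 := ⟨k / 3, by omega⟩
      subst hm
      have h2 : 4 * (3 * m + 1) * (3 * m + 1 + 1) = 6 * (6 * m * m + 6 * m + 1) + 2 := by ring
      rw [h2] at hc
      omega
    · refine ⟨6, by norm_num, by omega, by decide, fun c hc => ?_⟩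
      obtain ⟨m, hm⟩ : ∃ m, k = 3 * m + 2 := ⟨k / 3, by omega⟩
      subst hm
      have h2 : 4 * (3 * m + 2) * (3 * m + 2 + 1) = 6 * (2 * (3 * m + 2) * (m + 1)) := by ring
      rw [h2] at hc
      omega
  refine ⟨lb3_E k a, lb3_loopless k a, ?_, ha3 _ (lb3_cardE ha0 ha1), ?_, ?_⟩
  · intro x
    rw [lb3_deg ha0 ha1]
    split_ifs
    · exact ⟨k + 1, by ring⟩
    · exact ⟨k, by ring⟩
  · intro hD
    have h := dec_even_V1 (lb3_cl k a) (lb3_E k a) hD (fun x y hxy => (lb3_mem.1 hxy).2)
    rw [lb3_nV1 ha1] at h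
    exact ha2 h
  · intro v
    rw [lb3_deg ha0 ha1]
    split_ifs <;> omega

end H15C6
end S_LB3

section S_LB4
/-!
Module LB4.  Lower bound, assembly.

`thr n` is the claimed threshold.
* `n = 4k`: blocks `s1 = 2k`, `s2 = 2k+1` (`p = 2k-1`, `q = 2k`), residues `ρ1 = 1`, `ρ2 = 5`: degrees
  `≥ 2k-2` (the cut vertex: `≥ 4k+1-28 ≥ 2k-2`).  `thr n = 2k-1`.
* `n = 4k+1`: `s1 = s2 = 2k+1`, `ρ1 = 1, ρ2 = 5`: degrees `≥ 2k-2`; `thr n = 2k-1`, if `n % 24 ≠ 5, 13`;
  otherwise (`k ≡ 1, 3 (mod 6)`) two complete blocks, `|E_i| = k(2k+1) ≡ 3 (mod 6)`, degrees `≥ 2k`, `thr n = 2k+1`.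
* `n = 4k+2`: `lower_2`, `thr n = 2k+1`.
* `n = 4k+3`: `s1 = s2 = 2k+2`, `ρ1 = 1, ρ2 = 5`: degrees `≥ 2k`, `thr n = 2k+1`.
`glue` and `transport` along an equivalence `Option (Fin p ⊕ Fin q) ≃ Fin n` (`Fintype.equivFinOfCardEq`).
-/

open Finset

namespace H15C6

/-- the exact threshold -/
def thr (n : ℕ) : ℕ :=
  if n % 4 = 0 then n / 2 - 1
  else if n % 4 = 2 then n / 2
  else if n % 4 = 3 then (n - 1) / 2
  else if n % 24 = 5 ∨ n % 24 = 13 then (n + 1) / 2
  else (n - 3) / 2

/-- two blocks, transported to `Fin n` -/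
theorem lb4_two (n s1 s2 : ℕ) (h1 : 1 ≤ s1) (h2 : 1 ≤ s2) (hn : s1 + s2 = n + 1) (d : ℕ)
    (E1 : Finset (Sym2 (Option (Fin (s1 - 1))))) (E2 : Finset (Sym2 (Option (Fin (s2 - 1)))))
    (hl1 : Loopless E1) (hl2 : Loopless E2) (he1 : EvenDeg E1) (he2 : EvenDeg E2)
    (hc : 6 ∣ E1.card + E2.card) (hn6 : ¬ 6 ∣ E1.card)
    (hd1 : ∀ v, d ≤ deg E1 (some v)) (hd2 : ∀ v, d ≤ deg E2 (some v))
    (hd0 : d ≤ deg E1 none + deg E2 none) :
    ∃ E : Finset (Sym2 (Fin n)), Loopless E ∧ EvenDeg E ∧ 6 ∣ E.card ∧ ¬ Dec E ∧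
      ∀ v, d ≤ deg E v := by
  obtain ⟨E, hl, he, h6, hD, hi, hr, h0⟩ := glue (s1 - 1) (s2 - 1) E1 E2 hl1 hl2 he1 he2 hc hn6
  have hcard : Fintype.card (Option (Fin (s1 - 1) ⊕ Fin (s2 - 1))) = n := by
    rw [Fintype.card_option, Fintype.card_sum, Fintype.card_fin, Fintype.card_fin]
    omega
  refine transport (Fintype.equivFinOfCardEq hcard) E hl he h6 hD d ?_
  intro v
  rcases v with _ | v
  · rw [h0]; exact hd0
  · rcases v with v | v
    · rw [hi]; exact hd1 v
    · rw [hr]; exact hd2 v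

theorem lb4_blocks (n s1 s2 : ℕ) (h1 : 40 ≤ s1) (h2 : 40 ≤ s2) (hn : s1 + s2 = n + 1) (d : ℕ)
    (hd1 : d ≤ s1 - 3 + (s1 + 1) % 2) (hd2 : d ≤ s2 - 3 + (s2 + 1) % 2)
    (hd0 : d ≤ (s1 - 14) + (s2 - 14)) :
    ∃ E : Finset (Sym2 (Fin n)), Loopless E ∧ EvenDeg E ∧ 6 ∣ E.card ∧ ¬ Dec E ∧
      ∀ v, d ≤ deg E v := by
  obtain ⟨E1, hl1, he1, hc1, hs1, hz1⟩ := block s1 h1 1
  obtain ⟨E2, hl2, he2, hc2, hs2, hz2⟩ := block s2 h2 5
  refine lb4_two n s1 s2 (by omega) (by omega) hn d E1 E2 hl1 hl2 he1 he2 (by omega) (by omega)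
    (fun v => hd1.trans (hs1 v)) (fun v => hd2.trans (hs2 v)) (hd0.trans ?_)
  omega

theorem lb4_exc (k : ℕ) (hk : 1 ≤ k) (h : k % 6 = 1 ∨ k % 6 = 3) :
    ∃ E : Finset (Sym2 (Fin (4 * k + 1))), Loopless E ∧ EvenDeg E ∧ 6 ∣ E.card ∧ ¬ Dec E ∧
      ∀ v, 2 * k ≤ deg E v := by
  obtain ⟨E, hl, he, hc, hd⟩ := block_complete (2 * k + 1) (by omega) (by omega)
  have hc1 : E.card = k * (2 * k + 1) := by
    have h1 : (2 * k + 1) * (2 * k + 1 - 1) = 2 * (k * (2 * k + 1)) := by
      rw [Nat.add_sub_cancel]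
      ring
    rw [h1] at hc
    omega
  have hc6 : E.card % 6 = 3 := by
    rw [hc1]
    rcases h with h | h
    · obtain ⟨q, rfl⟩ : ∃ q, k = 6 * q + 1 := ⟨k / 6, by omega⟩
      have h2 : (6 * q + 1) * (2 * (6 * q + 1) + 1) = 6 * (12 * q * q + 5 * q) + 3 := by
        ring
      omega
    · obtain ⟨q, rfl⟩ : ∃ q, k = 6 * q + 3 := ⟨k / 6, by omega⟩
      have h2 : (6 * q + 3) * (2 * (6 * q + 3) + 1) = 6 * (12 * q * q + 13 * q + 3) + 3 := by
        ring
      omega
  refine lb4_two (4 * k + 1) (2 * k + 1) (2 * k + 1) (by omega) (by omega) (by omega) (2 * k)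
    E E hl hl he he (by omega) (by omega) ?_ ?_ ?_
  · intro v; rw [hd]; omega
  · intro v; rw [hd]; omega
  · rw [hd]; omega

theorem lower (n : ℕ) (hn : 1000 ≤ n) :
    ∃ E : Finset (Sym2 (Fin n)), Loopless E ∧ EvenDeg E ∧ 6 ∣ E.card ∧ ¬ Dec E ∧
      ∀ v, thr n ≤ deg E v + 1 := by
  have h4 : n % 4 = 0 ∨ n % 4 = 1 ∨ n % 4 = 2 ∨ n % 4 = 3 := by omega
  rcases h4 with h | h | h | h
  · obtain ⟨k, rfl⟩ : ∃ k, n = 4 * k := ⟨n / 4, by omega⟩
    have ht : thr (4 * k) = 4 * k / 2 - 1 := by
      unfold thr; rw [if_pos h]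
    obtain ⟨E, h1, h2, h3, h5, h6⟩ := lb4_blocks (4 * k) (2 * k) (2 * k + 1) (by omega) (by omega)
      (by omega) (2 * k - 2) (by omega) (by omega) (by omega)
    exact ⟨E, h1, h2, h3, h5, fun v => by have := h6 v; omega⟩
  · obtain ⟨k, rfl⟩ : ∃ k, n = 4 * k + 1 := ⟨n / 4, by omega⟩
    by_cases hx : (4 * k + 1) % 24 = 5 ∨ (4 * k + 1) % 24 = 13
    · have ht : thr (4 * k + 1) = (4 * k + 1 + 1) / 2 := by
        unfold thr
        rw [if_neg (by omega), if_neg (by omega), if_neg (by omega), if_pos hx]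
      obtain ⟨E, h1, h2, h3, h5, h6⟩ := lb4_exc k (by omega) (by omega)
      exact ⟨E, h1, h2, h3, h5, fun v => by have := h6 v; omega⟩
    · have ht : thr (4 * k + 1) = (4 * k + 1 - 3) / 2 := by
        unfold thr
        rw [if_neg (by omega), if_neg (by omega), if_neg (by omega), if_neg hx]
      obtain ⟨E, h1, h2, h3, h5, h6⟩ := lb4_blocks (4 * k + 1) (2 * k + 1) (2 * k + 1) (by omega)
        (by omega) (by omega) (2 * k - 2) (by omega) (by omega) (by omega)
      exact ⟨E, h1, h2, h3, h5, fun v => by have := h6 v; omega⟩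
  · obtain ⟨k, rfl⟩ : ∃ k, n = 4 * k + 2 := ⟨n / 4, by omega⟩
    have ht : thr (4 * k + 2) = (4 * k + 2) / 2 := by
      unfold thr
      rw [if_neg (by omega), if_pos h]
    obtain ⟨E, h1, h2, h3, h5, h6⟩ := lower_2 k (by omega)
    exact ⟨E, h1, h2, h3, h5, fun v => by have := h6 v; omega⟩
  · obtain ⟨k, rfl⟩ : ∃ k, n = 4 * k + 3 := ⟨n / 4, by omega⟩
    have ht : thr (4 * k + 3) = (4 * k + 3 - 1) / 2 := by
      unfold thr
      rw [if_neg (by omega), if_neg (by omega), if_pos h]
    obtain ⟨E, h1, h2, h3, h5, h6⟩ := lb4_blocks (4 * k + 3) (2 * k + 2) (2 * k + 2) (by omega)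
      (by omega) (by omega) (2 * k) (by omega) (by omega) (by omega)
    exact ⟨E, h1, h2, h3, h5, fun v => by have := h6 v; omega⟩

end H15C6
end S_LB4

section S_IFACE
/-!
Module IFACE.  Interface between Mathlib's simple graphs and edge sets.

`G : SimpleGraph V`, `V` finite.  `HasC6Decomposition G`: a set of subgraphs of `G`, each isomorphic to the cycle
graph on six vertices, such that every edge of `G` lies in exactly one of them.
(⇒) The set `D` of subgraphs is finite; for `H ∈ D` with `φ : H.coe ≃g cycleGraph 6` the edge set of `H` is `cyc v` with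
`v i = (φ.symm i : V)`; edge sets of different `H, H' ∈ D` are disjoint by uniqueness.  `Dec.biUnion`.
(⇐) From `Dec E` obtain a finset of pairwise disjoint six-cycles with union `E` (induction), and turn each
`cyc v ⊆ E` into the subgraph with vertex set `Set.range v` and these edges, isomorphic to `cycleGraph 6` via `v`.
-/

open Finset

namespace H15C6

/-- `G` has a decomposition into cycles of length six -/
def HasC6Decomposition {V : Type} (G : SimpleGraph V) : Prop :=
  ∃ D : Set G.Subgraph, (∀ H ∈ D, Nonempty (H.coe ≃g SimpleGraph.cycleGraph 6)) ∧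
    ∀ e ∈ G.edgeSet, ∃! H : G.Subgraph, H ∈ D ∧ e ∈ H.edgeSet

open Classical in
/-- the finite edge set of `G` -/
noncomputable def eset {V : Type} [Fintype V] (G : SimpleGraph V) : Finset (Sym2 V) :=
  Finset.univ.filter (fun e => e ∈ G.edgeSet)

theorem mem_eset {V : Type} [Fintype V] (G : SimpleGraph V) (e : Sym2 V) :
    e ∈ eset G ↔ e ∈ G.edgeSet := by
  simp [eset]

theorem eset_loopless {V : Type} [Fintype V] (G : SimpleGraph V) : Loopless (eset G) := by
  intro x hx
  rw [mem_eset, SimpleGraph.mem_edgeSet] at hx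
  exact G.loopless.irrefl x hx

theorem iface_coe_eset {V : Type} [Fintype V] (G : SimpleGraph V) :
    ((eset G : Finset (Sym2 V)) : Set (Sym2 V)) = G.edgeSet := by
  ext e
  rw [Finset.mem_coe, mem_eset]

theorem eset_card {V : Type} [Fintype V] (G : SimpleGraph V) :
    (eset G).card = G.edgeSet.ncard := by
  rw [← iface_coe_eset, Set.ncard_coe_finset]

theorem eset_deg {V : Type} [Fintype V] [DecidableEq V] (G : SimpleGraph V) (v : V) :
    deg (eset G) v = (G.neighborSet v).ncard := by
  classical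
  have h1 : ((Finset.univ.filter (fun y => G.Adj v y) : Finset V) : Set V) = G.neighborSet v := by
    ext y
    simp
  rw [← h1, Set.ncard_coe_finset]
  unfold deg
  symm
  apply Finset.card_bij (fun y _ => s(v, y))
  · intro y hy
    rw [Finset.mem_filter] at hy ⊢
    exact ⟨(mem_eset G _).2 (G.mem_edgeSet.2 hy.2), Sym2.mem_mk_left v y⟩
  · intro y _ z _ hyz
    exact Sym2.congr_right.1 hyz
  · intro e he
    rw [Finset.mem_filter] at he
    obtain ⟨y, rfl⟩ := Sym2.mem_iff_exists.1 he.2
    refine ⟨y, ?_, rfl⟩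
    rw [Finset.mem_filter]
    exact ⟨Finset.mem_univ _, G.mem_edgeSet.1 ((mem_eset G _).1 he.1)⟩

theorem exists_graph {V : Type} [Fintype V] [DecidableEq V] (E : Finset (Sym2 V))
    (hE : Loopless E) : ∃ G : SimpleGraph V, eset G = E := by
  refine ⟨⟨fun x y => s(x, y) ∈ E, ⟨fun x y h => ?_⟩, ⟨fun x h => hE x h⟩⟩, ?_⟩
  · rw [Sym2.eq_swap]; exact h
  · ext e
    rw [mem_eset]
    induction e using Sym2.ind with
    | _ a b => exact Iff.rfl

theorem iface_adj_iff : ∀ i j : Fin 6, (SimpleGraph.cycleGraph 6).Adj i j ↔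
    (j = i + 1 ∨ i = j + 1) := by
  intro i j
  refine (SimpleGraph.cycleGraph_adj (n := 4)).trans ?_
  revert i j
  decide

/-- the subgraph with the edges of `cyc v` -/
def ifaceSub {V : Type} [Fintype V] [DecidableEq V] (G : SimpleGraph V) (v : Fin 6 → V)
    (h : cyc v ⊆ eset G) : G.Subgraph where
  verts := Set.range v
  Adj x y := s(x, y) ∈ cyc v
  adj_sub {x y} hxy := G.mem_edgeSet.1 ((mem_eset G _).1 (h hxy))
  edge_vert {x y} hxy := by
    rw [mem_cyc] at hxy
    obtain ⟨i, hi⟩ := hxy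
    rcases Sym2.eq_iff.1 hi with ⟨h1, _⟩ | ⟨_, h1⟩
    · exact ⟨i, h1⟩
    · exact ⟨i + 1, h1⟩
  symm := ⟨fun x y hxy => by
    rw [Sym2.eq_swap]; exact hxy⟩

theorem ifaceSub_mem {V : Type} [Fintype V] [DecidableEq V] (G : SimpleGraph V) (v : Fin 6 → V)
    (h : cyc v ⊆ eset G) (e : Sym2 V) : e ∈ (ifaceSub G v h).edgeSet ↔ e ∈ cyc v := by
  induction e using Sym2.ind with
  | _ a b => exact Iff.rfl

theorem ifaceSub_iso {V : Type} [Fintype V] [DecidableEq V] (G : SimpleGraph V) (v : Fin 6 → V)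
    (hv : Function.Injective v) (h : cyc v ⊆ eset G) :
    Nonempty ((ifaceSub G v h).coe ≃g SimpleGraph.cycleGraph 6) := by
  refine ⟨(RelIso.symm ⟨Equiv.ofInjective v hv, ?_⟩)⟩
  intro i j
  rw [iface_adj_iff]
  change s(v i, v j) ∈ cyc v ↔ _
  rw [mem_cyc]
  constructor
  · rintro ⟨k, hk⟩
    rcases Sym2.eq_iff.1 hk with ⟨h1, h2⟩ | ⟨h1, h2⟩
    · left
      rw [← hv h1, ← hv h2]
    · right
      rw [← hv h1, ← hv h2]
  · rintro (rfl | rfl)
    · exact ⟨i, rfl⟩
    · exact ⟨j, Sym2.eq_swap⟩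

theorem decomposition_of_dec {V : Type} [Fintype V] [DecidableEq V] (G : SimpleGraph V)
    (h : Dec (eset G)) : HasC6Decomposition G := by
  have key : ∀ E : Finset (Sym2 V), Dec E → E ⊆ eset G →
      ∃ D : Set G.Subgraph, (∀ H ∈ D, Nonempty (H.coe ≃g SimpleGraph.cycleGraph 6)) ∧
        (∀ e ∈ E, ∃! H : G.Subgraph, H ∈ D ∧ e ∈ H.edgeSet) ∧
        ∀ H ∈ D, ∀ e ∈ H.edgeSet, e ∈ E := by
    intro E hE
    induction hE with
    | empty =>
      intro _
      exact ⟨∅, by simp, by simp, by simp⟩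
    | @add E C hE hC hd ih =>
      intro hsub
      obtain ⟨D, h1, h2, h3⟩ := ih (Finset.union_subset_left hsub)
      obtain ⟨v, hv, rfl⟩ := hC
      have hCs : cyc v ⊆ eset G := Finset.union_subset_right hsub
      refine ⟨insert (ifaceSub G v hCs) D, ?_, ?_, ?_⟩
      · intro H hH
        rcases hH with rfl | hH
        · exact ifaceSub_iso G v hv hCs
        · exact h1 H hH
      · intro e he
        rw [Finset.mem_union] at he
        rcases he with he | he
        · obtain ⟨H, ⟨hHD, heH⟩, huniq⟩ := h2 e he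
          refine ⟨H, ⟨Set.mem_insert_of_mem _ hHD, heH⟩, ?_⟩
          rintro H' ⟨hH', heH'⟩
          rcases hH' with rfl | hH'
          · rw [ifaceSub_mem] at heH'
            exact absurd heH' (Finset.disjoint_left.1 hd he)
          · exact huniq H' ⟨hH', heH'⟩
        · refine ⟨ifaceSub G v hCs, ⟨Set.mem_insert _ _, (ifaceSub_mem G v hCs e).2 he⟩, ?_⟩
          rintro H' ⟨hH', heH'⟩
          rcases hH' with rfl | hH'
          · rfl
          · exact absurd he (Finset.disjoint_left.1 hd (h3 H' hH' e heH'))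
      · intro H hH e he
        rw [Finset.mem_union]
        rcases hH with rfl | hH
        · exact Or.inr ((ifaceSub_mem G v hCs e).1 he)
        · exact Or.inl (h3 H hH e he)
  obtain ⟨D, h1, h2, _⟩ := key (eset G) h (Finset.Subset.refl _)
  exact ⟨D, h1, fun e he => h2 e ((mem_eset G e).2 he)⟩

open Classical in
/-- the finite edge set of a subgraph -/
noncomputable def ifaceE {V : Type} [Fintype V] {G : SimpleGraph V} (H : G.Subgraph) :
    Finset (Sym2 V) := Finset.univ.filter (fun e => e ∈ H.edgeSet)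

theorem mem_ifaceE {V : Type} [Fintype V] {G : SimpleGraph V} (H : G.Subgraph) (e : Sym2 V) :
    e ∈ ifaceE H ↔ e ∈ H.edgeSet := by
  simp [ifaceE]

theorem ifaceE_isC6 {V : Type} [Fintype V] [DecidableEq V] {G : SimpleGraph V} (H : G.Subgraph)
    (φ : H.coe ≃g SimpleGraph.cycleGraph 6) : IsC6 (ifaceE H) := by
  refine ⟨fun i => (φ.symm i : V), ?_, ?_⟩
  · intro i j hij
    exact φ.symm.injective (Subtype.ext hij)
  · ext e
    rw [mem_ifaceE, mem_cyc]
    constructor
    · intro he
      induction e using Sym2.ind with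
      | _ a b =>
        have hab : H.Adj a b := he
        have ha : a ∈ H.verts := hab.fst_mem
        have hb : b ∈ H.verts := hab.snd_mem
        have h1 : H.coe.Adj ⟨a, ha⟩ ⟨b, hb⟩ := hab
        have h2 := φ.map_rel_iff.2 h1
        rw [iface_adj_iff] at h2
        rcases h2 with h2 | h2
        · refine ⟨φ ⟨a, ha⟩, ?_⟩
          rw [← h2]
          simp
        · refine ⟨φ ⟨b, hb⟩, ?_⟩
          rw [← h2]
          simp [Sym2.eq_swap]
    · rintro ⟨i, rfl⟩
      have h1 : (SimpleGraph.cycleGraph 6).Adj i (i + 1) := (iface_adj_iff i (i + 1)).2 (Or.inl rfl)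
      exact φ.symm.map_rel_iff.2 h1

theorem dec_of_decomposition {V : Type} [Fintype V] [DecidableEq V] (G : SimpleGraph V)
    (h : HasC6Decomposition G) : Dec (eset G) := by
  classical
  obtain ⟨D, h1, h2⟩ := h
  have hJ : eset G = (Finset.univ.filter (fun E : Finset (Sym2 V) =>
      ∃ H ∈ D, E = ifaceE H)).biUnion id := by
    ext e
    rw [mem_eset, Finset.mem_biUnion]
    constructor
    · intro he
      obtain ⟨H, ⟨hHD, heH⟩, _⟩ := h2 e he
      refine ⟨ifaceE H, ?_, (mem_ifaceE H e).2 heH⟩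
      rw [Finset.mem_filter]
      exact ⟨Finset.mem_univ _, H, hHD, rfl⟩
    · rintro ⟨E, hE, he⟩
      rw [Finset.mem_filter] at hE
      obtain ⟨_, H, hHD, rfl⟩ := hE
      exact H.edgeSet_subset ((mem_ifaceE H e).1 he)
  rw [hJ]
  apply Dec.biUnion
  · intro E hE
    rw [Finset.mem_filter] at hE
    obtain ⟨_, H, hHD, rfl⟩ := hE
    obtain ⟨φ⟩ := h1 H hHD
    exact (ifaceE_isC6 H φ).dec
  · intro E hE E' hE' hne
    rw [Finset.mem_filter] at hE hE'
    obtain ⟨_, H, hHD, rfl⟩ := hE
    obtain ⟨_, H', hHD', rfl⟩ := hE'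
    rw [Finset.disjoint_left]
    intro e he he'
    have he1 := (mem_ifaceE H e).1 he
    have he2 := (mem_ifaceE H' e).1 he'
    obtain ⟨K, _, hK⟩ := h2 e (H.edgeSet_subset he1)
    apply hne
    rw [hK H ⟨hHD, he1⟩, hK H' ⟨hHD', he2⟩]

end H15C6
end S_IFACE
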